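import Pool.Agent.H870R2.LS.Main
import Pool.Agent.H870R2.LS.SCDefs

set_option autoImplicit false
set_option linter.unusedSectionVars false

/-! The arena: instances with hidden lies, and supports of tuples for arbitrary groups of
automorphisms. -/

namespace Pool.Agent.H870R2.LS

open Finset Pool.Agent.H545R2

section arena

variable {V : Type} {r H n : ℕ} (blk : Fin r → (Fin 5 ↪ V))
  (hd : Pairwise fun i j => Disjoint (Set.range (blk i)) (Set.range (blk j)))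
  (ei : Pla H n ↪ Fin r) (M : ℕ → Fin (n + 1) → Fin (n + 1) → ZMod 5)
  (t : V) (z : Pla H n)

/-- the elements of the instances -/
def elG (v : Pla H n) (a : ZMod 5) : V := blk (ei v) (a : Fin 5)

/-- the instances -/
def insG (κ : (Pla H n → ZMod 5) × ZMod 5) : Set (Inp V) :=
  inst M (elG blk ei) t z κ.1 κ.2

/-- the action on the parameters -/
def actG (δ : Pla H n → ZMod 5) (κ : (Pla H n → ZMod 5) × ZMod 5) :
    (Pla H n → ZMod 5) × ZMod 5 := (κ.1 + Curv M δ, κ.2 + δ z)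

/-- the action on the variables -/
noncomputable def PG (δ : Pla H n → ZMod 5) : Equiv.Perm (Inp V) :=
  inpPerm (bp (blkE blk hd) (gam ei δ))

/-- hidden lies -/
def HidG (j : ℕ) (S : Finset (Pla H n)) (κ κ' : (Pla H n → ZMod 5) × ZMod 5) : Prop :=
  ∃ (i : ℕ) (u : Fin (n + 1) → ZMod 5), i + j + 2 ≤ H ∧ Lie M i u z = 1 ∧
    (∀ v ∈ S, v.1.val = i → u v.2.1 = 0) ∧
    κ'.1 = κ.1 - Curv M (Lie M i u) ∧ κ'.2 = κ.2

theorem PG_add (δ δ' : Pla H n → ZMod 5) :
    PG blk hd ei (δ + δ') = PG blk hd ei δ * PG blk hd ei δ' := by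
  unfold PG
  rw [gam_add, SN.bp_mul, SN.inpPerm_mul]

theorem elG_inj (hd : Pairwise fun i j => Disjoint (Set.range (blk i)) (Set.range (blk j)))
    (v : Pla H n) (a : ZMod 5) (v' : Pla H n) (a' : ZMod 5)
    (h : elG blk ei v a = elG blk ei v' a') : v = v' ∧ a = a' := by
  by_cases hv : v = v'
  · subst hv
    exact ⟨rfl, (blk (ei v)).injective h⟩
  · exfalso
    have : ei v ≠ ei v' := fun h' => hv (ei.injective h')
    exact Set.disjoint_left.1 (hd this) ⟨a, rfl⟩ ⟨a', h.symm⟩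

theorem bp_elG (δ : Pla H n → ZMod 5) (v : Pla H n) (a : ZMod 5) :
    bp (blkE blk hd) (gam ei δ) (elG blk ei v a) = elG blk ei v (a + δ v) := by
  show bp (blkE blk hd) (gam ei δ) (blkE blk hd (ei v, a)) = _
  rw [SN.bp_apply, gam_apply]
  rfl

theorem insG_act (ht : ∀ i, t ∉ Set.range (blk i)) (δ : Pla H n → ZMod 5)
    (κ : (Pla H n → ZMod 5) × ZMod 5) (i : Inp V) :
    PG blk hd ei δ i ∈ insG blk ei M t z (actG M z δ κ) ↔ i ∈ insG blk ei M t z κ :=
  inst_act M (elG blk ei) t z δ _ (bp_elG blk hd ei δ) (SN.bp_fix blk hd _ t ht) κ.1 κ.2 i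

theorem HidG_mono (j j' : ℕ) (S : Finset (Pla H n)) (κ κ' : (Pla H n → ZMod 5) × ZMod 5)
    (hj : j' ≤ j) (h : HidG M z j S κ κ') : HidG M z j' S κ κ' := by
  obtain ⟨i, u, h1, h2⟩ := h
  exact ⟨i, u, by omega, h2⟩

theorem HidG_step {σ : ℕ} (hM : Spread H n (σ + 1) (σ + 1) M) (hz : z.2.2 = Fin.last n) (j : ℕ)
    (S S' : Finset (Pla H n)) (κ κ' : (Pla H n → ZMod 5) × ZMod 5)
    (h : HidG M z (j + 1) S κ κ') (hS : S.card ≤ σ) (hS' : S'.card ≤ σ) :
    ∃ δ : Pla H n → ZMod 5, (∀ v ∈ S, δ v = 0) ∧ HidG M z j S' (actG M z δ κ) κ' := by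
  obtain ⟨i, u, h1, h2, h3, h4, h5⟩ := h
  obtain ⟨u', h6, h7, h8⟩ := lie_step M σ hM i (by omega) u z hz S S' hS hS' h3
  obtain ⟨δ, hδ⟩ : ∃ δ : Pla H n → ZMod 5, δ = Lie M (i + 1) u' - Lie M i u := ⟨_, rfl⟩
  refine ⟨δ, ?_, i + 1, u', by omega, by rw [h6, h2], h7, ?_, ?_⟩
  · intro v hv
    rw [hδ, Pi.sub_apply, h8 v hv, sub_self]
  · show κ'.1 = κ.1 + Curv M δ - Curv M (Lie M (i + 1) u')
    rw [h4, hδ, Curv_sub]
    ring
  · show κ'.2 = κ.2 + δ z
    rw [h5, hδ, Pi.sub_apply, h6, sub_self, add_zero]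

theorem HidG_var (j : ℕ) (S : Finset (Pla H n)) (κ κ' : (Pla H n → ZMod 5) × ZMod 5)
    (y : Inp V) (h : HidG M z j S κ κ')
    (hfix : ∀ δ : Pla H n → ZMod 5, (∀ v ∈ S, δ v = 0) → PG blk hd ei δ y = y) :
    y ∈ insG blk ei M t z κ ↔ y ∈ insG blk ei M t z κ' := by
  obtain ⟨i, u, h1, h2, h3, h4, h5⟩ := h
  by_contra hcon
  have hcon' : ¬ (y ∈ inst M (elG blk ei) t z κ.1 κ.2 ↔
      y ∈ inst M (elG blk ei) t z κ'.1 κ.2) := by
    rw [← h5]
    intro h
    apply hcon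
    show y ∈ inst M (elG blk ei) t z κ.1 κ.2 ↔ y ∈ inst M (elG blk ei) t z κ'.1 κ'.2
    rw [← h5]
    exact h
  obtain ⟨v, a, hne, hp⟩ := inst_diff M (elG blk ei) t z κ.1 κ'.1 κ.2 y hcon'
  have hc : Curv M (Lie M i u) v ≠ 0 := by
    intro h
    apply hne
    rw [h4, Pi.sub_apply, h, sub_zero]
  rw [curv_lie M i (by omega) u v] at hc
  have hvS : v ∉ S := by
    intro hv
    apply hc
    by_cases h : v.1.val = i ∧ v.2.2 = Fin.last n
    · rw [if_pos h, h3 v hv h.1]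
    · rw [if_neg h]
  have h6 := hp (bp (blkE blk hd) (gam ei (Pi.single v 1))) (hfix (Pi.single v 1) (by
    intro v' hv'
    rw [Pi.single_eq_of_ne]
    rintro rfl
    exact hvS hv'))
  rw [bp_elG, Pi.single_eq_same] at h6
  have h7 := (elG_inj blk ei hd _ _ _ _ h6).2
  have h8 : (1 : ZMod 5) = 0 := by
    have : a + 1 - a = a - a := by rw [h7]
    simpa using this
  exact absurd h8 (by decide)

theorem HidG_start (hz0 : z.1.val = 0) (hz : z.2.2 = Fin.last n) (hH : 2 ≤ H) :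
    ∃ δ0 : Pla H n → ZMod 5, HidG M z (H - 2) ∅ (actG M z δ0 (0, 0)) (0, 1) := by
  obtain ⟨u, hu⟩ : ∃ u : Fin (n + 1) → ZMod 5, u = Pi.single z.2.1 1 := ⟨_, rfl⟩
  have hδz : Lie M 0 u z = 1 := by
    rw [lie_row M 0 u z (Nat.zero_le _), if_pos ⟨hz0, hz⟩, hu]
    exact Pi.single_eq_same _ _
  refine ⟨Lie M 0 u, 0, u, by omega, hδz, ?_, ?_, ?_⟩
  · intro v hv
    exact absurd hv (Finset.notMem_empty _)
  · show (0 : Pla H n → ZMod 5) = 0 + Curv M (Lie M 0 u) - Curv M (Lie M 0 u)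
    rw [zero_add, sub_self]
  · show (1 : ZMod 5) = 0 + Lie M 0 u z
    rw [hδz, zero_add]

theorem insG_yes : Der (insG blk ei M t z (0, 0)) t := inst_yes M (elG blk ei) t z

theorem insG_no (hd : Pairwise fun i j => Disjoint (Set.range (blk i)) (Set.range (blk j)))
    (ht : ∀ i, t ∉ Set.range (blk i)) : ¬ Der (insG blk ei M t z (0, 1)) t :=
  inst_no M (elG blk ei) t z (elG_inj blk ei hd) (fun v a h => ht (ei v) ⟨a, h⟩)

end arena

section gsupp

variable {V Q : Type} {r : ℕ} (blk : Fin r → (Fin 5 ↪ V))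
  (hd : Pairwise fun i j => Disjoint (Set.range (blk i)) (Set.range (blk j)))
  (𝒜 : Subgroup (Equiv.Perm (Inp V) × Equiv.Perm Q))
  (hsym : ∀ i, ∀ a ∈ alternatingGroup (Fin 5), ∀ p : Equiv.Perm V,
    (∀ c, p (blk i c) = blk i (a c)) → (∀ v, v ∉ Set.range (blk i) → p v = v) →
    ∃ φ, (inpPerm p, φ) ∈ 𝒜)

theorem bp_one_inp : inpPerm (bp (blkE blk hd) (1 : Fin r → alternatingGroup (Fin 5))) = 1 := by
  have h1 : inpPerm (bp (blkE blk hd) (1 : Fin r → alternatingGroup (Fin 5))) *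
      inpPerm (bp (blkE blk hd) (1 : Fin r → alternatingGroup (Fin 5))) =
      inpPerm (bp (blkE blk hd) (1 : Fin r → alternatingGroup (Fin 5))) := by
    rw [← SN.inpPerm_mul, ← SN.bp_mul, mul_one]
  exact mul_eq_left.1 h1

theorem bp_inv_inp (a : Fin r → alternatingGroup (Fin 5)) :
    inpPerm (bp (blkE blk hd) a⁻¹) = (inpPerm (bp (blkE blk hd) a))⁻¹ := by
  rw [eq_inv_iff_mul_eq_one, ← SN.inpPerm_mul, ← SN.bp_mul, inv_mul_cancel, bp_one_inp]

include hsym in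
theorem sym_all_gen (γ : Fin r → alternatingGroup (Fin 5)) :
    ∃ φ, (inpPerm (bp (blkE blk hd) γ), φ) ∈ 𝒜 := by
  classical
  let H : Subgroup (Fin r → alternatingGroup (Fin 5)) :=
    { carrier := {γ | ∃ φ, (inpPerm (bp (blkE blk hd) γ), φ) ∈ 𝒜}
      one_mem' := ⟨1, by rw [bp_one_inp]; exact 𝒜.one_mem⟩
      mul_mem' := by
        rintro a b ⟨φ, h1⟩ ⟨ψ, h3⟩
        exact ⟨φ * ψ, by rw [SN.bp_mul, SN.inpPerm_mul]; exact 𝒜.mul_mem h1 h3⟩
      inv_mem' := by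
        rintro a ⟨φ, h1⟩
        exact ⟨φ⁻¹, by rw [bp_inv_inp]; exact 𝒜.inv_mem h1⟩ }
  have hmem : γ ∈ H := by
    apply Subgroup.pi_mem_of_mulSingle_mem
    intro i
    apply hsym i (γ i) (γ i).2 (bp (blkE blk hd) (Pi.mulSingle i (γ i)))
    · intro c
      have := SN.bp_apply (blkE blk hd) (Pi.mulSingle i (γ i)) i c
      rw [Pi.mulSingle_eq_same] at this
      exact this
    · intro v hv
      exact SN.blkE_range blk hd i (γ i) v hv
  exact hmem

include hsym in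
/-- The support of a tuple of gates. -/
theorem supp_gen [Fintype Q] {q k : ℕ} (hcard : Fintype.card Q < 5 ^ k) (hk : 1 ≤ q)
    (T : Fin q → Q) {W : Type} [Fintype W] (ei : W ↪ Fin r) :
    ∃ S : Finset W, S.card < 2 * (q * k) ∧ ∀ δ : W → ZMod 5, (∀ v ∈ S, δ v = 0) →
      ∃ φ, (inpPerm (bp (blkE blk hd) (gam ei δ)), φ) ∈ 𝒜 ∧ ∀ j, φ (T j) = T j := by
  classical
  let H : Subgroup (Fin r → alternatingGroup (Fin 5)) :=
    { carrier := {γ | ∃ φ, (inpPerm (bp (blkE blk hd) γ), φ) ∈ 𝒜 ∧ ∀ j, φ (T j) = T j}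
      one_mem' := ⟨1, by rw [bp_one_inp]; exact 𝒜.one_mem, fun _ => rfl⟩
      mul_mem' := by
        rintro a b ⟨φ, h1, h2⟩ ⟨ψ, h3, h4⟩
        refine ⟨φ * ψ, by rw [SN.bp_mul, SN.inpPerm_mul]; exact 𝒜.mul_mem h1 h3, ?_⟩
        intro j
        rw [Equiv.Perm.mul_apply, h4, h2]
      inv_mem' := by
        rintro a ⟨φ, h1, h2⟩
        refine ⟨φ⁻¹, by rw [bp_inv_inp]; exact 𝒜.inv_mem h1, ?_⟩
        intro j
        rw [Equiv.Perm.inv_eq_iff_eq]
        exact (h2 j).symm }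
  choose φ hφ using sym_all_gen blk hd 𝒜 hsym
  have hc : Fintype.card (Fin q → Q) < 5 ^ (q * k) := by
    rw [Fintype.card_fun, Fintype.card_fin, mul_comm, pow_mul]
    exact Nat.pow_lt_pow_left hcard (by omega)
  obtain ⟨S, hS1, hS2⟩ := support_A5 H (fun γ => (fun j => φ γ (T j) : Fin q → Q)) (by
    intro a b hab
    refine ⟨(φ a)⁻¹ * φ b, ?_, ?_⟩
    · rw [SN.bp_mul, SN.inpPerm_mul, bp_inv_inp]
      exact 𝒜.mul_mem (𝒜.inv_mem (hφ a)) (hφ b)
    · intro j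
      have h1 : φ a (T j) = φ b (T j) := congrFun hab j
      rw [Equiv.Perm.mul_apply, ← h1, p_inv_apply]) (q * k) hc
  refine ⟨Finset.univ.filter (fun v => ei v ∈ S), ?_, ?_⟩
  · refine lt_of_le_of_lt ?_ hS1
    apply Finset.card_le_card_of_injOn ei
    · intro b hb
      simpa using hb
    · exact ei.injective.injOn
  · intro δ hδ
    have hmem : gam ei δ ∈ H := by
      apply Subgroup.pi_mem_of_mulSingle_mem
      intro j
      by_cases hj : j ∈ S
      · have : gam ei δ j = 1 := by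
          by_cases hjb : ∃ b, ei b = j
          · obtain ⟨b, rfl⟩ := hjb
            rw [gam_apply, hδ b (by simpa using hj), rot_zero]
          · exact gam_notMem ei δ j hjb
        rw [this, Pi.mulSingle_one]
        exact H.one_mem
      · exact hS2 j hj _
    exact hmem

end gsupp

/-- **Core, second form.** -/
theorem core_val {V Q : Type} [Fintype V] [Fintype Q] (C : Ckt (Inp V) Q) (t : V)
    (r : ℕ) (blk : Fin r → (Fin 5 ↪ V))
    (hd : Pairwise fun i j => Disjoint (Set.range (blk i)) (Set.range (blk j)))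
    (ht : ∀ i, t ∉ Set.range (blk i)) (hs : ∀ i, C.SymOn (blk i)) (k : ℕ) (hk : 1 ≤ k)
    (hcard : Fintype.card Q < 5 ^ k) (m : ℕ)
    (hm : 2 * Fintype.card Q ≤ 2 ^ m ∨
      ∀ g N N', (∀ j ≤ 2 ^ m, N j = N' j) → C.F g N = C.F g N')
    (H n s : ℕ) (hH : (C.rank C.out + 1) * (m + 2) + 2 ≤ H) (ei : Pla H n ↪ Fin r)
    (hs5 : 5 * (H * (n + 1) * (n + 1)) ≤ 5 ^ s) (hn : s * (16 * k + 2) < n + 1)
    (z : Pla H n) (hz0 : z.1.val = 0) (hz : z.2.2 = Fin.last n) :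
    ∃ M : ℕ → Fin (n + 1) → Fin (n + 1) → ZMod 5,
      C.val (insG blk ei M t z (0, 0)) C.out = C.val (insG blk ei M t z (0, 1)) C.out := by
  classical
  obtain ⟨M, hM⟩ := exists_spread H n (8 * k + 1) (8 * k + 1) s (by omega) hs5 (by
    have : 8 * k + 1 + (8 * k + 1) = 16 * k + 2 := by ring
    rw [this]
    exact hn)
  refine ⟨M, ?_⟩
  have hsQ : ∀ T : Fin 4 → Q, ∃ S : Finset (Pla H n), S.card ≤ 8 * k ∧
      ∀ δ : Pla H n → ZMod 5, (∀ v ∈ S, δ v = 0) →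
        ∃ φ, C.IsAut (PG blk hd ei δ) φ ∧ ∀ j, φ (T j) = T j := by
    intro T
    obtain ⟨S, h1, h2⟩ := supp_tuple blk hd C hs hcard (by norm_num) T ei
    exact ⟨S, by omega, h2⟩
  have hsI : ∀ (T : Fin 3 → Q) (i : Inp V), ∃ S : Finset (Pla H n), S.card ≤ 8 * k ∧
      ∀ δ : Pla H n → ZMod 5, (∀ v ∈ S, δ v = 0) →
        (∃ φ, C.IsAut (PG blk hd ei δ) φ ∧ ∀ j, φ (T j) = T j) ∧ PG blk hd ei δ i = i := by
    intro T i
    obtain ⟨S, h1, h2⟩ := supp_tuple blk hd C hs hcard (by norm_num) T ei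
    refine ⟨S ∪ plcI blk ei i, ?_, ?_⟩
    · have h3 := Finset.card_union_le S (plcI blk ei i)
      have h4 := card_plcI blk hd ei i
      omega
    · intro δ hδ
      refine ⟨h2 δ fun v hv => hδ v (Finset.mem_union_left _ hv), ?_⟩
      exact bp_plcI blk hd ei i δ fun v hv => hδ v (Finset.mem_union_right _ hv)
  have hall : ∀ δ : Pla H n → ZMod 5, ∃ φ, C.IsAut (PG blk hd ei δ) φ ∧ φ C.out = C.out := by
    intro δ
    obtain ⟨φ, hφ⟩ := sym_all blk hd C hs (gam ei δ)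
    exact ⟨φ, hφ, hφ.out⟩
  have hH2 : 2 ≤ H := by omega
  obtain ⟨δ0, hδ0⟩ := HidG_start M z hz0 hz hH2
  obtain ⟨φ, hφ, hφo⟩ := hall δ0
  have e1 : C.val (insG blk ei M t z (actG M z δ0 (0, 0))) C.out =
      C.val (insG blk ei M t z (0, 0)) C.out := by
    have := hφ.val (insG_act blk hd ei M t z ht δ0 (0, 0)) C.out
    rwa [hφo] at this
  rw [← e1]
  apply game C (insG blk ei M t z) (PG blk hd ei) (PG_add blk hd ei) (actG M z)
    (insG_act blk hd ei M t z ht) (HidG M z) (HidG_mono M z) (8 * k)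
    (HidG_step M z hM hz) (fun j S κ κ' i => HidG_var blk hd ei M t z j S κ κ' i) hsQ hsI m hm
    C.out ∅ (actG M z δ0 (0, 0)) (0, 1)
  · exact HidG_mono M z _ _ _ _ _ (by omega) hδ0
  · rw [Finset.card_empty]
    exact Nat.zero_le _
  · intro δ _
    exact hall δ

/-- **Lower bound for the template function.** -/
theorem tem_lower {Q : Type} [Fintype Q] (H n : ℕ) (h : 0 < H) (C : Ckt (Inp (TEl H n)) Q)
    (hC : ∀ x, C.val x C.out = true ↔ Tem H n h x) (hs : ∀ v : Pla H n, C.SymOn (tblk v))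
    (k : ℕ) (hk : 1 ≤ k) (hcard : Fintype.card Q < 5 ^ k) (m : ℕ)
    (hm : 2 * Fintype.card Q ≤ 2 ^ m ∨
      ∀ g N N', (∀ j ≤ 2 ^ m, N j = N' j) → C.F g N = C.F g N')
    (s : ℕ) (hH : (C.rank C.out + 1) * (m + 2) + 2 ≤ H)
    (hs5 : 5 * (H * (n + 1) * (n + 1)) ≤ 5 ^ s) (hn : s * (16 * k + 2) < n + 1) : False := by
  classical
  let e : Pla H n ≃ Fin (Fintype.card (Pla H n)) := Fintype.equivFin _
  let blk : Fin (Fintype.card (Pla H n)) → (Fin 5 ↪ TEl H n) := fun i => tblk (e.symm i)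
  have hd : Pairwise fun i j => Disjoint (Set.range (blk i)) (Set.range (blk j)) := by
    intro i j hij
    rw [Set.disjoint_left]
    rintro _ ⟨a, rfl⟩ ⟨b, hb⟩
    apply hij
    have h1 : (some (e.symm j, (b : ZMod 5)) : TEl H n) = some (e.symm i, (a : ZMod 5)) := hb
    have h2 : e.symm j = e.symm i := congrArg Prod.fst (Option.some.inj h1)
    exact (e.symm.injective h2).symm
  have ht : ∀ i, (none : TEl H n) ∉ Set.range (blk i) := by
    rintro i ⟨a, ha⟩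
    exact absurd ha (by intro h; cases h)
  obtain ⟨M, hM⟩ := core_val C none _ blk hd ht (fun i => hs (e.symm i)) k hk hcard m hm H n s hH
    e.toEmbedding hs5 hn (rootP H n h) rfl rfl
  have hel : ∀ v a, elG blk e.toEmbedding v a = some (v, a) := by
    intro v a
    show (some (e.symm (e v), a) : TEl H n) = some (v, a)
    rw [e.symm_apply_apply]
  have hsub : ∀ κ, insG blk e.toEmbedding M none (rootP H n h) κ ⊆ tmpl H n h := by
    rintro κ y (⟨v, hv, rfl⟩ | ⟨v, hv, a, a', rfl⟩ | rfl)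
    · left
      exact ⟨v, _, hv, by rw [hel]⟩
    · right; left
      exact ⟨v, hv, a, a', _, by rw [hel, hel, hel]⟩
    · right; right
      exact ⟨κ.2, by rw [hel]⟩
  have h1 : C.val (insG blk e.toEmbedding M none (rootP H n h) (0, 0)) C.out = true := by
    rw [hC]
    unfold Tem
    rw [Set.inter_eq_left.2 (hsub _)]
    exact insG_yes _ _ _ _ _
  rw [hM, hC] at h1
  unfold Tem at h1
  rw [Set.inter_eq_left.2 (hsub _)] at h1
  exact insG_no blk e.toEmbedding M none (rootP H n h) hd ht h1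

end Pool.Agent.H870R2.LS
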