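import Pool.Agent.H534R2.SymSupport
import Mathlib

/-! PS: supports of points in powers of alternating groups. -/

set_option autoImplicit false
set_option linter.unusedSectionVars false

namespace Pool.Agent.H870R2.LS

open Finset Equiv H534R2.SymSw

namespace PSAux

theorem choose_ge {n a : ℕ} (h : 16 * a ^ 2 ≤ n) (ha : 1 ≤ a) : n ^ a ≤ n.choose (2 * a) := by
  have h1 : (n + 1 - 2 * a) ^ (2 * a) ≤ (2 * a).factorial * n.choose (2 * a) := by
    rw [← Nat.descFactorial_eq_factorial_mul_choose]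
    exact n.pow_sub_le_descFactorial (2 * a)
  have h2 : n * (2 * a) ^ 2 ≤ (n + 1 - 2 * a) ^ 2 := by
    have h3 : a ≤ a ^ 2 := by nlinarith
    obtain ⟨b, hb⟩ : ∃ b, b = n + 1 - 2 * a := ⟨_, rfl⟩
    have h4 : n + 1 = b + 2 * a := by omega
    rw [← hb]
    have h5 : n ≤ 2 * b := by omega
    nlinarith
  have h3 : (2 * a).factorial ≤ (2 * a) ^ (2 * a) := Nat.factorial_le_pow _
  have h4 : n ^ a * (2 * a).factorial ≤ (2 * a).factorial * n.choose (2 * a) := by
    calc n ^ a * (2 * a).factorial ≤ n ^ a * (2 * a) ^ (2 * a) := Nat.mul_le_mul_left _ h3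
      _ = (n * (2 * a) ^ 2) ^ a := by rw [mul_pow n, ← pow_mul]
      _ ≤ ((n + 1 - 2 * a) ^ 2) ^ a := Nat.pow_le_pow_left h2 _
      _ = (n + 1 - 2 * a) ^ (2 * a) := by rw [← pow_mul]
      _ ≤ _ := h1
  rw [mul_comm] at h4
  exact Nat.le_of_mul_le_mul_left h4 (Nat.factorial_pos _)

theorem choose_sq_ge {n t : ℕ} (h : 16 * t ^ 2 ≤ n) : n ^ t ≤ n.choose t ^ 2 := by
  rcases Nat.eq_zero_or_pos t with rfl | ht
  · simp
  have h1 : (n + 1 - t) ^ t ≤ t.factorial * n.choose t := by
    rw [← Nat.descFactorial_eq_factorial_mul_choose]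
    exact n.pow_sub_le_descFactorial t
  have h2 : n * t ^ 2 ≤ (n + 1 - t) ^ 2 := by
    have h3 : t ≤ t ^ 2 := by nlinarith
    obtain ⟨b, hb⟩ : ∃ b, b = n + 1 - t := ⟨_, rfl⟩
    have h4 : n + 1 = b + t := by omega
    rw [← hb]
    have h5 : n ≤ 2 * b := by omega
    nlinarith
  have h3 : t.factorial ≤ t ^ t := Nat.factorial_le_pow _
  have h4 : n ^ t * (t ^ t) ^ 2 ≤ n.choose t ^ 2 * (t ^ t) ^ 2 := by
    calc n ^ t * (t ^ t) ^ 2 = (n * t ^ 2) ^ t := by rw [mul_pow, ← pow_mul, ← pow_mul, mul_comm t 2]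
      _ ≤ ((n + 1 - t) ^ 2) ^ t := Nat.pow_le_pow_left h2 _
      _ = ((n + 1 - t) ^ t) ^ 2 := by rw [← pow_mul, ← pow_mul, mul_comm]
      _ ≤ (t.factorial * n.choose t) ^ 2 := Nat.pow_le_pow_left h1 _
      _ ≤ (t ^ t * n.choose t) ^ 2 := Nat.pow_le_pow_left (Nat.mul_le_mul_right _ h3) _
      _ = _ := by ring
  exact Nat.le_of_mul_le_mul_right h4 (by positivity)

theorem cube_le : ∀ L : ℕ, 10 ≤ L → L ^ 3 ≤ 2 ^ L := by
  intro L hL
  induction L, hL using Nat.le_induction with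
  | base => norm_num
  | succ L hL ih =>
    have h1 : (L + 1) ^ 3 ≤ L ^ 3 * 2 := by
      nlinarith [sq_nonneg (L : ℤ), Nat.mul_le_mul hL hL]
    calc (L + 1) ^ 3 ≤ L ^ 3 * 2 := h1
      _ ≤ 2 ^ L * 2 := Nat.mul_le_mul_right _ ih
      _ = 2 ^ (L + 1) := by rw [pow_succ]

theorem even_perm {q : ℕ} (T D : Finset (Fin q)) (h : T.card = D.card) (hT : T.card + 2 ≤ q) :
    ∃ g : alternatingGroup (Fin q), ∀ x, (g : Perm (Fin q)) x ∈ D ↔ x ∈ T := by
  have he : Fintype.card {x // x ∈ T} = Fintype.card {x // x ∈ D} := by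
    rw [Fintype.card_coe, Fintype.card_coe, h]
  let e : {x // x ∈ T} ≃ {x // x ∈ D} := Fintype.equivOfCardEq he
  have hg : ∀ x, e.extendSubtype x ∈ D ↔ x ∈ T := by
    intro x
    constructor
    · intro h
      by_contra h'
      exact (e.extendSubtype_not_mem x h') h
    · intro h
      exact e.extendSubtype_mem x h
  rcases Int.units_eq_one_or (Perm.sign e.extendSubtype) with hs | hs
  · exact ⟨⟨e.extendSubtype, Perm.mem_alternatingGroup.2 hs⟩, hg⟩
  · obtain ⟨a, ha, b, hb, hab⟩ : ∃ a ∈ Tᶜ, ∃ b ∈ Tᶜ, a ≠ b := by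
      apply Finset.one_lt_card.1
      rw [Finset.card_compl, Fintype.card_fin]
      omega
    rw [Finset.mem_compl] at ha hb
    refine ⟨⟨e.extendSubtype * swap a b, Perm.mem_alternatingGroup.2 ?_⟩, ?_⟩
    · rw [map_mul, hs, Perm.sign_swap hab]
      rfl
    · intro x
      show e.extendSubtype (swap a b x) ∈ D ↔ x ∈ T
      rw [hg]
      by_cases hxa : x = a
      · subst hxa
        rw [swap_apply_left]
        exact iff_of_false hb ha
      · by_cases hxb : x = b
        · subst hxb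
          rw [swap_apply_right]
          exact iff_of_false ha hb
        · rw [swap_apply_of_ne_of_ne hxa hxb]

variable {q r : ℕ}

/-- the coordinate subgroup -/
def KK (H : Subgroup (Fin r → alternatingGroup (Fin q))) (i : Fin r) : Subgroup (Perm (Fin q)) :=
  (H.comap (MonoidHom.mulSingle (fun _ : Fin r => alternatingGroup (Fin q)) i)).map
    (alternatingGroup (Fin q)).subtype

theorem mem_KK (H : Subgroup (Fin r → alternatingGroup (Fin q))) (i : Fin r)
    (π : Perm (Fin q)) : π ∈ KK H i ↔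
      ∃ a : alternatingGroup (Fin q), (a : Perm (Fin q)) = π ∧ Pi.mulSingle i a ∈ H := by
  unfold KK
  rw [Subgroup.mem_map]
  constructor
  · rintro ⟨a, ha, rfl⟩
    exact ⟨a, rfl, ha⟩
  · rintro ⟨a, rfl, ha⟩
    exact ⟨a, ha, rfl⟩

theorem index_KK (hq : 2 ≤ q) (H : Subgroup (Fin r → alternatingGroup (Fin q))) {Q : Type}
    [Fintype Q] (ψ : (Fin r → alternatingGroup (Fin q)) → Q)
    (hψ : ∀ a b, ψ a = ψ b → a⁻¹ * b ∈ H) (i : Fin r) :
    (KK H i).index ≤ 2 * Fintype.card Q := by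
  have : Nontrivial (Fin q) := Fin.nontrivial_iff_two_le.2 hq
  unfold KK
  rw [Subgroup.index_map_subtype, alternatingGroup.index_eq_two, mul_comm]
  refine Nat.mul_le_mul_left _ ?_
  set K := H.comap (MonoidHom.mulSingle (fun _ : Fin r => alternatingGroup (Fin q)) i) with hK
  rw [Subgroup.index, ← Nat.card_eq_fintype_card]
  refine Nat.card_le_card_of_injective
    (fun c : alternatingGroup (Fin q) ⧸ K => ψ (Pi.mulSingle i c.out)) ?_
  intro c c' h
  have h1 := hψ _ _ h
  have h2 : (Pi.mulSingle i c.out : Fin r → alternatingGroup (Fin q))⁻¹ * Pi.mulSingle i c'.out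
      = Pi.mulSingle i (c.out⁻¹ * c'.out) := by
    rw [Pi.mulSingle_mul, Pi.mulSingle_inv]
  rw [h2] at h1
  have h3 : c.out⁻¹ * c'.out ∈ K := h1
  have h4 := QuotientGroup.eq.2 h3
  rw [QuotientGroup.out_eq', QuotientGroup.out_eq'] at h4
  exact h4

/-- the stabiliser of the trivial coset -/
theorem smul_one_iff {G : Type*} [Group G] (K : Subgroup G) (π : G) :
    π • ((1 : G) : G ⧸ K) = ((1 : G) : G ⧸ K) ↔ π ∈ K := by
  have : π • ((1 : G) : G ⧸ K) = ((π * 1 : G) : G ⧸ K) := rfl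
  rw [this, mul_one, QuotientGroup.eq, mul_one, inv_mem_iff]

theorem support_num {m : ℕ} (hm : 1 ≤ m) (hq : 2 ^ (16 * m + 16) ≤ q) {X : Type} [Fintype X]
    [MulAction (Perm (Fin q)) X] (x0 : X) (hc : Fintype.card X < 2 * q ^ m) :
    ∃ S : Finset (Fin q), S.card < 2 * (m + 1) ∧
      ∀ π : Perm (Fin q), Perm.sign π = 1 → (∀ x ∈ S, π x = x) → π • x0 = x0 := by
  have hbig : 16 * m + 16 + 1 ≤ 2 ^ (16 * m + 16) := Nat.lt_two_pow_self
  have hq2 : 2 ≤ q := by omega
  obtain ⟨L, hL⟩ : ∃ L, L = Nat.log 2 q := ⟨_, rfl⟩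
  have hL1 : 2 ^ L ≤ q := by rw [hL]; exact Nat.pow_log_le_self 2 (by omega)
  have hL2 : q < 2 ^ (L + 1) := by rw [hL]; exact Nat.lt_pow_succ_log_self (by norm_num) q
  have hL3 : 16 * m + 16 ≤ L := by rw [hL]; exact Nat.le_log_of_pow_le (by norm_num) hq
  have hLpos : 0 < L := by omega
  have hD0 : 2 * (m + 1) ≤ q := by omega
  have hL4 : L ^ 3 ≤ q := (cube_le L (by omega)).trans hL1
  have hLsq : L ^ 2 * L = L ^ 3 := by ring
  have hfac : ∀ n : ℕ, 2 ^ n ≤ (n + 1).factorial := by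
    intro n
    induction n with
    | zero => simp
    | succ n ih =>
      rw [pow_succ, Nat.factorial_succ]
      calc 2 ^ n * 2 ≤ (n + 1).factorial * 2 := Nat.mul_le_mul_right _ ih
        _ ≤ (n + 1).factorial * (n + 1 + 1) := Nat.mul_le_mul_left _ (by omega)
        _ = _ := mul_comm _ _
  have hA2 : 2 * q ^ m ≤ 2 ^ ((L + 1) * m + 1) := by
    have h1 : q ^ m ≤ (2 ^ (L + 1)) ^ m := Nat.pow_le_pow_left hL2.le _
    have h2 : 2 ^ ((L + 1) * m + 1) = 2 * (2 ^ (L + 1)) ^ m := by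
      rw [← pow_mul, pow_succ, mul_comm]
    rw [h2]
    exact Nat.mul_le_mul_left _ h1
  have hA3 : (L + 1) * m + 1 ≤ L ^ 2 := by
    have h1 : L * (16 * m + 16) ≤ L * L := Nat.mul_le_mul_left _ hL3
    nlinarith
  have hA4 : 2 ^ ((L + 1) * m + 1) ≤ 2 ^ (L ^ 2) := Nat.pow_le_pow_right (by norm_num) hA3
  have hA : Fintype.card X < (L ^ 2 + 1).factorial :=
    lt_of_lt_of_le hc (hA2.trans (hA4.trans (hfac _)))
  have hB : 2 * L ^ 2 * (2 * (m + 1)) ≤ Fintype.card (Fin q) := by
    rw [Fintype.card_fin]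
    refine le_trans ?_ hL4
    have h1 : 2 * L ^ 2 * (2 * (m + 1)) = L ^ 2 * (4 * (m + 1)) := by ring
    rw [h1, ← hLsq]
    exact Nat.mul_le_mul_left _ (by omega)
  have hC0 : q ^ (m + 1) ≤ q.choose (2 * (m + 1)) := by
    apply choose_ge _ (by omega)
    have h1 : 16 * (m + 1) ^ 2 = (4 * (m + 1)) ^ 2 := by ring
    rw [h1]
    have h2 : (4 * (m + 1)) ^ 2 ≤ L ^ 2 := Nat.pow_le_pow_left (by omega) _
    have h3 : L ^ 2 ≤ L ^ 3 := Nat.pow_le_pow_right (by omega) (by norm_num)
    exact h2.trans (h3.trans hL4)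
  have hC : 2 * L ^ 2 * Fintype.card X < (Fintype.card (Fin q)).choose (2 * (m + 1)) := by
    rw [Fintype.card_fin]
    refine lt_of_lt_of_le ?_ hC0
    have hL0 : 0 < 2 * L ^ 2 := Nat.mul_pos (by norm_num) (pow_pos hLpos 2)
    have h1 : 2 * L ^ 2 * Fintype.card X < 2 * L ^ 2 * (2 * q ^ m) :=
      (Nat.mul_lt_mul_left hL0).2 hc
    have h2 : 2 * L ^ 2 * (2 * q ^ m) = (L ^ 2 * 4) * q ^ m := by ring
    have h3 : (L ^ 2 * 4) * q ^ m ≤ (L ^ 2 * L) * q ^ m :=
      Nat.mul_le_mul_right _ (Nat.mul_le_mul_left _ (by omega))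
    have h4 : (L ^ 2 * L) * q ^ m ≤ q * q ^ m :=
      Nat.mul_le_mul_right _ (by rw [hLsq]; exact hL4)
    have h5 : q * q ^ m = q ^ (m + 1) := by rw [pow_succ, mul_comm]
    rw [← h5]
    exact lt_of_lt_of_le h1 (h2.le.trans (h3.trans h4))
  have hD : 2 * (m + 1) ≤ Fintype.card (Fin q) := by rw [Fintype.card_fin]; exact hD0
  have hE : 0 < L ^ 2 := pow_pos hLpos 2
  exact exists_support (α := Fin q) x0 (f := L ^ 2) (r := 2 * (m + 1)) hA hB hD hE hC

theorem local_support {m : ℕ} (hm : 1 ≤ m) (hq : 2 ^ (16 * m + 16) ≤ q)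
    (H : Subgroup (Fin r → alternatingGroup (Fin q))) {Q : Type} [Fintype Q]
    (ψ : (Fin r → alternatingGroup (Fin q)) → Q) (hψ : ∀ a b, ψ a = ψ b → a⁻¹ * b ∈ H)
    (hcard : Fintype.card Q < q ^ m) (i : Fin r) :
    ∃ C : Finset (Fin q), Cᶜ.card ≤ 2 * m + 1 ∧
      (∀ π : Perm (Fin q), Perm.sign π = 1 → (∀ x ∉ C, π x = x) → π ∈ KK H i) ∧
      (∀ h ∈ H, ∀ x, ((h i : alternatingGroup (Fin q)) : Perm (Fin q)) x ∈ C ↔ x ∈ C) := by
  classical
  set K := KK H i with hK
  let _ : Fintype (Perm (Fin q) ⧸ K) := Fintype.ofFinite _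
  set q0 : Perm (Fin q) ⧸ K := ((1 : Perm (Fin q)) : Perm (Fin q) ⧸ K) with hq0
  have hbig : 16 * m + 16 + 1 ≤ 2 ^ (16 * m + 16) := Nat.lt_two_pow_self
  have hq2 : 2 ≤ q := by omega
  have hcardK : Fintype.card (Perm (Fin q) ⧸ K) ≤ 2 * Fintype.card Q := by
    rw [← Nat.card_eq_fintype_card]
    exact index_KK hq2 H ψ hψ i
  obtain ⟨S, hS1, hS2⟩ := support_num hm hq q0 (by omega)
  have hout : ∀ Z : Finset (Fin q), Z.card ≤ 2 → ∃ y, y ∉ S ∧ y ∉ Z := by
    intro Z hZ
    have h1 : (S ∪ Z).card < Fintype.card (Fin q) := by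
      have := Finset.card_union_le S Z
      rw [Fintype.card_fin]
      omega
    obtain ⟨y, hy⟩ : ∃ y, y ∉ S ∪ Z := by
      by_contra hc
      push Not at hc
      have : S ∪ Z = Finset.univ := Finset.eq_univ_iff_forall.2 hc
      rw [this, Finset.card_univ] at h1
      exact lt_irrefl _ h1
    rw [Finset.mem_union, not_or] at hy
    exact ⟨y, hy.1, hy.2⟩
  obtain ⟨y, hyS, -⟩ := hout ∅ (by simp)
  set C : Finset (Fin q) := Finset.univ.filter (fun x => Rl q0 y x) with hC
  have hmemC : ∀ x, x ∈ C ↔ Rl q0 y x := fun x => by simp [hC]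
  have hSC : ∀ x, x ∉ S → x ∈ C := by
    intro x hx
    rw [hmemC]
    by_cases hxy : y = x
    · exact Or.inl hxy
    · obtain ⟨z, hzS, hz⟩ := hout {x, y} Finset.card_le_two
      simp only [Finset.mem_insert, Finset.mem_singleton, not_or] at hz
      refine Or.inr ⟨z, hxy, fun h => hz.1 h.symm, fun h => hz.2 h.symm, ?_⟩
      apply hS2
      · rw [c3, map_mul, Perm.sign_swap hxy, Perm.sign_swap (fun h => hz.1 h.symm)]
        rfl
      · intro s hs
        refine c3_apply_of_ne ?_ ?_ ?_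
        · rintro rfl; exact hyS hs
        · rintro rfl; exact hx hs
        · rintro rfl; exact hzS hs
  have hCc : Cᶜ.card ≤ 2 * m + 1 := by
    have h1 : Cᶜ ⊆ S := by
      intro x hx
      by_contra h
      exact (Finset.mem_compl.1 hx) (hSC x h)
    have := Finset.card_le_card h1
    omega
  refine ⟨C, hCc, ?_, ?_⟩
  · intro π hπ hfix
    rw [← smul_one_iff K π]
    refine smul_eq_of_class C ?_ π hπ hfix
    intro a ha b hb
    rw [hmemC] at ha hb
    exact ha.symm.trans hb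
  · intro h hh
    set g : Perm (Fin q) := ((h i : alternatingGroup (Fin q)) : Perm (Fin q)) with hg
    have hconj : ∀ π ∈ K, g * π * g⁻¹ ∈ K := by
      intro π hπ
      rw [hK, mem_KK] at hπ ⊢
      obtain ⟨a, rfl, ha⟩ := hπ
      refine ⟨h i * a * (h i)⁻¹, rfl, ?_⟩
      have h1 : (Pi.mulSingle i (h i * a * (h i)⁻¹) : Fin r → alternatingGroup (Fin q))
          = h * Pi.mulSingle i a * h⁻¹ := by
        funext j
        by_cases hj : j = i
        · subst hj
          simp
        · simp [Pi.mulSingle_eq_of_ne hj]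
      rw [h1]
      exact H.mul_mem (H.mul_mem hh ha) (H.inv_mem hh)
    have hRl : ∀ a b, Rl q0 a b → Rl q0 (g a) (g b) := by
      rintro a b (rfl | ⟨c, h1, h2, h3, h4⟩)
      · exact Or.inl rfl
      · refine Or.inr ⟨g c, fun h => h1 (g.injective h), fun h => h2 (g.injective h),
          fun h => h3 (g.injective h), ?_⟩
        rw [smul_one_iff] at h4 ⊢
        rw [← c3_conj]
        exact hconj _ h4
    have hcardC : q < 2 * C.card := by
      have h1 := Finset.card_add_card_compl C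
      rw [Fintype.card_fin] at h1
      omega
    obtain ⟨x0, hx0, hgx0⟩ : ∃ x0, x0 ∈ C ∧ g x0 ∈ C := by
      by_contra hc
      push Not at hc
      have hdis : Disjoint (C.image g) C := by
        rw [Finset.disjoint_left]
        intro w hw hw'
        obtain ⟨z, hz, rfl⟩ := Finset.mem_image.1 hw
        exact hc z hz hw'
      have h1 := Finset.card_union_of_disjoint hdis
      rw [Finset.card_image_of_injective _ g.injective] at h1
      have h2 := Finset.card_le_univ (C.image g ∪ C)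
      rw [Fintype.card_fin] at h2
      omega
    have hsub : C.image g ⊆ C := by
      intro w hw
      obtain ⟨z, hz, rfl⟩ := Finset.mem_image.1 hw
      rw [hmemC] at hz hx0 hgx0 ⊢
      exact hgx0.trans (hRl _ _ (hx0.symm.trans hz))
    have heq : C.image g = C :=
      Finset.eq_of_subset_of_card_le hsub (by rw [Finset.card_image_of_injective _ g.injective])
    intro x
    constructor
    · intro hx
      rw [← heq] at hx
      obtain ⟨z, hz, hzx⟩ := Finset.mem_image.1 hx
      rw [← g.injective hzx]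
      exact hz
    · intro hx
      rw [← heq]
      exact Finset.mem_image_of_mem _ hx

end PSAux

open PSAux

/-- PS: supports of points for powers of alternating groups -/
theorem point_support {q r m : ℕ} (hm : 1 ≤ m) (hq : 2 ^ (16 * m + 16) ≤ q)
    (H : Subgroup (Fin r → alternatingGroup (Fin q))) {Q : Type} [Fintype Q]
    (ψ : (Fin r → alternatingGroup (Fin q)) → Q) (hψ : ∀ a b, ψ a = ψ b → a⁻¹ * b ∈ H)
    (hcard : Fintype.card Q < q ^ m) :
    ∃ T : Finset (Fin r × Fin q), T.card < 2 * m ∧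
      ∀ γ : Fin r → alternatingGroup (Fin q),
        (∀ p ∈ T, (γ p.1 : Equiv.Perm (Fin q)) p.2 = p.2) → γ ∈ H := by
  classical
  choose C hC1 hC2 hC3 using local_support hm hq H ψ hψ hcard
  have hbig : 16 * m + 16 + 1 ≤ 2 ^ (16 * m + 16) := Nat.lt_two_pow_self
  refine ⟨Finset.univ.filter (fun p => p.2 ∉ C p.1), ?_, ?_⟩
  · -- counting
    have hcardT : (Finset.univ.filter (fun p : Fin r × Fin q => p.2 ∉ C p.1)).card
        = ∑ i, (C i)ᶜ.card := by
      rw [Finset.card_filter, Fintype.sum_prod_type]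
      refine Finset.sum_congr rfl fun i _ => ?_
      rw [← Finset.card_filter]
      congr 1
      ext x
      simp
    rw [hcardT]
    have hex : ∀ D : Fin r → Finset (Fin q), ∃ g : Fin r → alternatingGroup (Fin q),
        (∀ i, (D i).card = (C i)ᶜ.card) → ∀ i x, (g i : Perm (Fin q)) x ∈ D i ↔ x ∈ (C i)ᶜ := by
      intro D
      by_cases hD : ∀ i, (D i).card = (C i)ᶜ.card
      · have h1 : ∀ i, ∃ g : alternatingGroup (Fin q), ∀ x,
            (g : Perm (Fin q)) x ∈ D i ↔ x ∈ (C i)ᶜ := fun i =>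
          even_perm _ _ (hD i).symm (by have := hC1 i; omega)
        choose g hg using h1
        exact ⟨g, fun _ => hg⟩
      · exact ⟨1, fun h => absurd h hD⟩
    choose g hg using hex
    have hle : (Fintype.piFinset (fun i => Finset.powersetCard (C i)ᶜ.card
        (Finset.univ : Finset (Fin q)))).card ≤ Fintype.card Q := by
      rw [← Finset.card_univ (α := Q)]
      refine Finset.card_le_card_of_injOn (fun D => ψ (g D)) (fun _ _ => Finset.mem_univ _) ?_
      intro D hD D' hD' heq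
      have hDc : ∀ i, (D i).card = (C i)ᶜ.card := fun i =>
        (Finset.mem_powersetCard.1 (Fintype.mem_piFinset.1 (Finset.mem_coe.1 hD) i)).2
      have hDc' : ∀ i, (D' i).card = (C i)ᶜ.card := fun i =>
        (Finset.mem_powersetCard.1 (Fintype.mem_piFinset.1 (Finset.mem_coe.1 hD') i)).2
      have hmem := hψ _ _ heq
      funext i
      symm
      apply Finset.eq_of_subset_of_card_le
      · intro z hz
        have h3 := hC3 i _ hmem
        set x := ((g D' i : alternatingGroup (Fin q)) : Perm (Fin q))⁻¹ z with hx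
        have hzx : ((g D' i : alternatingGroup (Fin q)) : Perm (Fin q)) x = z := by
          rw [hx]; simp
        have hxT : x ∈ (C i)ᶜ := by
          rw [← hg D' hDc' i x, hzx]
          exact hz
        have h4 := h3 x
        have h5 : ((((g D)⁻¹ * g D') i : alternatingGroup (Fin q)) : Perm (Fin q)) x
            = ((g D i : alternatingGroup (Fin q)) : Perm (Fin q))⁻¹ z := by
          rw [← hzx]
          rfl
        rw [h5] at h4
        have h6 : ((g D i : alternatingGroup (Fin q)) : Perm (Fin q))⁻¹ z ∈ (C i)ᶜ := by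
          rw [Finset.mem_compl] at hxT ⊢
          rw [h4]
          exact hxT
        rw [← hg D hDc i] at h6
        simpa using h6
      · rw [hDc i, hDc' i]
    rw [Fintype.card_piFinset] at hle
    simp only [Finset.card_powersetCard, Finset.card_univ, Fintype.card_fin] at hle
    have hsq : q ^ (∑ i, (C i)ᶜ.card) ≤ (∏ i, q.choose (C i)ᶜ.card) ^ 2 := by
      rw [← Finset.prod_pow_eq_pow_sum, ← Finset.prod_pow]
      refine Finset.prod_le_prod' fun i _ => ?_
      apply choose_sq_ge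
      have h1 := hC1 i
      have h2 : 2 * m + 1 ≤ 2 ^ (2 * m + 1) := Nat.lt_two_pow_self.le
      calc 16 * (C i)ᶜ.card ^ 2 ≤ 16 * (2 ^ (2 * m + 1)) ^ 2 :=
            Nat.mul_le_mul_left _ (Nat.pow_le_pow_left (h1.trans h2) _)
        _ = 2 ^ (4 * m + 6) := by
            rw [← pow_mul, show (16 : ℕ) = 2 ^ 4 by norm_num, ← pow_add]
            congr 1
            ring
        _ ≤ 2 ^ (16 * m + 16) := Nat.pow_le_pow_right (by norm_num) (by omega)
        _ ≤ q := hq
    have hlt : q ^ (∑ i, (C i)ᶜ.card) < q ^ (2 * m) := by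
      calc q ^ (∑ i, (C i)ᶜ.card) ≤ (∏ i, q.choose (C i)ᶜ.card) ^ 2 := hsq
        _ ≤ (Fintype.card Q) ^ 2 := Nat.pow_le_pow_left hle _
        _ < (q ^ m) ^ 2 := Nat.pow_lt_pow_left hcard (by norm_num)
        _ = q ^ (2 * m) := by rw [← pow_mul, mul_comm]
    exact (Nat.pow_lt_pow_iff_right (by omega : 1 < q)).1 hlt
  · intro γ hγ
    apply Subgroup.pi_mem_of_mulSingle_mem
    intro i
    have h1 : ((γ i : alternatingGroup (Fin q)) : Perm (Fin q)) ∈ KK H i := by
      apply hC2 i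
      · exact Perm.mem_alternatingGroup.1 (γ i).2
      · intro x hx
        exact hγ (i, x) (by simp [hx])
    rw [mem_KK] at h1
    obtain ⟨a, ha, haH⟩ := h1
    have : a = γ i := Subtype.ext ha
    rw [← this]
    exact haH

end Pool.Agent.H870R2.LS
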