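import Pool.Agent.H870R2.LS.BMain
import Pool.Agent.H870R2.LS.PtSup

set_option autoImplicit false
set_option linter.unusedSectionVars false

/-! Locally symmetric undirected switching networks: the theorem. -/

namespace Pool.Agent.H870R2.LS

open Finset Relation
open Pool.Agent.H526R2.LS

/-- **Lower bound for locally symmetric undirected switching networks.** -/
theorem undirected_lower {V Q : Type} [Fintype Q] {r q k m : ℕ} (ι : Fin r × Fin q ↪ V)
    (N : SwNet V Q (Set.range ι)ᶜ k) (hsym : N.SymBlocks ι) {s t : V} (hst : s ≠ t)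
    (hs : s ∉ Set.range ι) (ht : t ∉ Set.range ι)
    (hN : ∀ G : V → V → Prop, (∀ v, ¬ TransGen G v v) →
      (EqvGen (N.pass G) N.start N.acc ↔ ReflTransGen G s t))
    (hm : 1 ≤ m) (hr : 2 ^ (4 * m + k - 2) ≤ r) (hq : 2 ^ (16 * m + 16) ≤ q)
    (hqk : 3 * (4 * m + k) ≤ q) : q ^ m ≤ Fintype.card Q := by
  classical
  by_contra hcard
  rw [not_le] at hcard
  have hq0 : 0 < q := lt_of_lt_of_le (by positivity) hq
  have : NeZero q := ⟨by omega⟩
  choose φ hφ using Bsw.aut_all (N := N) (ι := ι) hsym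
  have hsup : ∀ x : Q, ∃ T : Finset (Fin r × Fin q), T.card < 2 * m ∧
      ∀ γ : Fin r → alternatingGroup (Fin q),
        (∀ p ∈ T, (γ p.1 : Equiv.Perm (Fin q)) p.2 = p.2) → γ ∈ Bsw.Stab N ι x := by
    intro x
    refine point_support hm hq (Bsw.Stab N ι x) (fun γ => φ γ x) ?_ hcard
    intro a b hab
    refine ⟨(φ a)⁻¹ * φ b, ?_, ?_⟩
    · rw [map_mul, map_inv]
      exact Bsw.aut_mul (Bsw.aut_inv (hφ a)) (hφ b)
    · have h1 : φ a x = φ b x := hab
      rw [Equiv.Perm.mul_apply, ← h1, perm_inv_apply]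
  choose T hT1 hT2 using hsup
  refine Bsw.core (K := 4 * m + k - 2) (m := m) hst hs ht hN hr (by omega)
    (fun x => if x = N.start then ∅ else T x) (if_pos rfl) ?_ ?_ (by omega)
  · intro x γ hγ
    by_cases hx : x = N.start
    · obtain ⟨ψ, hψ⟩ := Bsw.aut_all (N := N) (ι := ι) hsym γ
      exact ⟨ψ, hψ, by rw [hx, hψ.start]⟩
    · simp only [if_neg hx] at hγ
      exact hT2 x γ hγ
  · intro x
    by_cases hx : x = N.start
    · simp only [if_pos hx, Finset.card_empty]
      omega
    · simp only [if_neg hx]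
      exact hT1 x

/-- the digraph itself is a directed network -/
def dirNet (V : Type) [DecidableEq V] (s t : V) : SwNet V V ∅ 2 where
  start := s
  acc := t
  pass G u v := G u v
  loc := by
    intro G u v h
    refine ⟨{u, v}, Finset.card_le_two, ?_⟩
    intro G' hG'
    exact (hG' u v (Or.inl (by simp)) (Or.inl (by simp))).1 h

theorem dirNet_aut (V : Type) [DecidableEq V] (s t : V) (p : Equiv.Perm V) (hs : p s = s)
    (ht : p t = t) : (dirNet V s t).IsAut p p := by
  refine ⟨hs, ht, ?_⟩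
  intro G u v
  show G (p.symm (p u)) (p.symm (p v)) ↔ G u v
  rw [Equiv.symm_apply_apply, Equiv.symm_apply_apply]

end Pool.Agent.H870R2.LS
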