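import Pool.Agent.H526R2.LS.Act
import Pool.Agent.H534R2.SymPebble
import Pool.Agent.H534R2.SymSupport

set_option autoImplicit false
set_option linter.unusedSectionVars false

/-! Locally symmetric undirected switching networks for directed connectivity. -/

namespace Pool.Agent.H870R2.LS

open Finset Relation
open Pool.Agent.H526R2.LS

/-- The digraph `G` with its vertices renamed by `p`. -/
def relab {V : Type} (p : Equiv.Perm V) (G : V → V → Prop) : V → V → Prop :=
  fun u v => G (p.symm u) (p.symm v)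

/-- A switching network with set of nodes `Q` that reads a digraph on `V`: the digraph `G` closes the
wires between the pairs `q`, `q'` of nodes with `pass G q q'`. If a wire is closed, this is certified
by at most `k` vertices together with all vertices in `D`: it is closed for all digraphs with the
same arcs between these vertices. -/
structure SwNet (V Q : Type) (D : Set V) (k : ℕ) where
  start : Q
  acc : Q
  pass : (V → V → Prop) → Q → Q → Prop
  loc : ∀ G q q', pass G q q' → ∃ A : Finset V, A.card ≤ k ∧ ∀ G' : V → V → Prop,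
    (∀ u v, (u ∈ A ∨ u ∈ D) → (v ∈ A ∨ v ∈ D) → (G u v ↔ G' u v)) → pass G' q q'

/-- `φ` is an automorphism of the network that extends the permutation `p` of the vertices. -/
structure SwNet.IsAut {V Q : Type} {D : Set V} {k : ℕ} (N : SwNet V Q D k) (p : Equiv.Perm V)
    (φ : Equiv.Perm Q) : Prop where
  start : φ N.start = N.start
  acc : φ N.acc = N.acc
  pass : ∀ G q q', N.pass (relab p G) (φ q) (φ q') ↔ N.pass G q q'

/-- The network is symmetric on the blocks of `ι`: every even permutation of one block, fixing all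
other vertices, extends to an automorphism. -/
def SwNet.SymBlocks {V Q : Type} {D : Set V} {k r q : ℕ} (N : SwNet V Q D k)
    (ι : Fin r × Fin q ↪ V) : Prop :=
  ∀ (j : Fin r), ∀ σ ∈ alternatingGroup (Fin q), ∃ φ, N.IsAut (blockPerm ι j σ) φ

namespace Bsw

section aut

variable {V Q : Type} {D : Set V} {k : ℕ} {N : SwNet V Q D k}

theorem relab_one (G : V → V → Prop) : relab 1 G = G := rfl

theorem relab_mul (p p' : Equiv.Perm V) (G : V → V → Prop) :
    relab (p * p') G = relab p (relab p' G) := rfl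

theorem aut_one : N.IsAut 1 1 := ⟨rfl, rfl, fun _ _ _ => Iff.rfl⟩

theorem aut_mul {p p' : Equiv.Perm V} {φ φ' : Equiv.Perm Q} (h : N.IsAut p φ)
    (h' : N.IsAut p' φ') : N.IsAut (p * p') (φ * φ') := by
  refine ⟨?_, ?_, ?_⟩
  · rw [Equiv.Perm.mul_apply, h'.start, h.start]
  · rw [Equiv.Perm.mul_apply, h'.acc, h.acc]
  · intro G q q'
    rw [relab_mul, Equiv.Perm.mul_apply, Equiv.Perm.mul_apply, h.pass, h'.pass]

theorem aut_inv {p : Equiv.Perm V} {φ : Equiv.Perm Q} (h : N.IsAut p φ) :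
    N.IsAut p⁻¹ φ⁻¹ := by
  refine ⟨?_, ?_, ?_⟩
  · rw [Equiv.Perm.inv_eq_iff_eq, h.start]
  · rw [Equiv.Perm.inv_eq_iff_eq, h.acc]
  · intro G q q'
    rw [← h.pass, ← relab_mul, mul_inv_cancel, relab_one]
    rw [perm_apply_inv, perm_apply_inv]

variable {r q : ℕ} {ι : Fin r × Fin q ↪ V}

theorem aut_all (hs : N.SymBlocks ι) (γ : Fin r → alternatingGroup (Fin q)) :
    ∃ φ, N.IsAut (actV ι γ) φ := by
  classical
  let H : Subgroup (Fin r → alternatingGroup (Fin q)) :=
    { carrier := {γ | ∃ φ, N.IsAut (actV ι γ) φ}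
      one_mem' := ⟨1, by rw [map_one]; exact aut_one⟩
      mul_mem' := by
        rintro a b ⟨φ, h1⟩ ⟨ψ, h3⟩
        exact ⟨φ * ψ, by rw [map_mul]; exact aut_mul h1 h3⟩
      inv_mem' := by
        rintro a ⟨φ, h1⟩
        exact ⟨φ⁻¹, by rw [map_inv]; exact aut_inv h1⟩ }
  have hmem : γ ∈ H := by
    apply Subgroup.pi_mem_of_mulSingle_mem
    intro i
    obtain ⟨φ, hφ⟩ := hs i (γ i) (γ i).2
    exact ⟨φ, by rw [actV_single]; exact hφ⟩
  exact hmem

/-- the stabiliser of a node -/
def Stab (N : SwNet V Q D k) (ι : Fin r × Fin q ↪ V) (x : Q) :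
    Subgroup (Fin r → alternatingGroup (Fin q)) where
  carrier := {γ | ∃ φ, N.IsAut (actV ι γ) φ ∧ φ x = x}
  one_mem' := ⟨1, by rw [map_one]; exact aut_one, rfl⟩
  mul_mem' := by
    rintro a b ⟨φ, h1, h2⟩ ⟨ψ, h3, h4⟩
    refine ⟨φ * ψ, by rw [map_mul]; exact aut_mul h1 h3, ?_⟩
    rw [Equiv.Perm.mul_apply, h4, h2]
  inv_mem' := by
    rintro a ⟨φ, h1, h2⟩
    refine ⟨φ⁻¹, by rw [map_inv]; exact aut_inv h1, ?_⟩
    rw [Equiv.Perm.inv_eq_iff_eq, h2]

end aut

section inst

variable {V : Type} {r q : ℕ} [NeZero q]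

/-- the path -/
def G1 (ι : Fin r × Fin q ↪ V) (M : ℕ) (s t : V) : V → V → Prop := fun u v =>
  (u = s ∧ ∃ x, v = ι (x, 0) ∧ x.val = 0) ∨
  (∃ x y, u = ι (x, 0) ∧ v = ι (y, 0) ∧ y.val = x.val + 1 ∧ y.val < M) ∨
  (∃ x, u = ι (x, 0) ∧ v = t ∧ x.val + 1 = M)

/-- the instance without path -/
def G0 (ι : Fin r × Fin q ↪ V) (M : ℕ) (s t : V) : V → V → Prop := fun u v =>
  (u = s ∧ ∃ x a, v = ι (x, a) ∧ x.val = 0 ∧ a.val % 3 = 0) ∨
  (∃ x y a b, u = ι (x, a) ∧ v = ι (y, b) ∧ y.val = x.val + 1 ∧ y.val < M ∧ a.val % 3 ≠ 2 ∧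
    b.val % 3 ≠ 2 ∧ (a.val % 3 = 0 → b.val % 3 = 0)) ∨
  (∃ x a, u = ι (x, a) ∧ v = t ∧ x.val + 1 = M ∧ a.val % 3 = 1)

variable {ι : Fin r × Fin q ↪ V} {M : ℕ} {s t : V}

theorem G0_no_path (hs : s ∉ Set.range ι) (ht : t ∉ Set.range ι) (hst : s ≠ t) :
    ¬ ReflTransGen (G0 ι M s t) s t := by
  intro h
  have key : ∀ v : V, ReflTransGen (G0 ι M s t) s v →
      (v = s ∨ ∃ x a, v = ι (x, a) ∧ a.val % 3 = 0) := by
    intro v hv
    induction hv with
    | refl => exact Or.inl rfl
    | tail _ hbc ih =>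
      rename_i b c _
      rcases ih with rfl | ⟨x, a, rfl, ha⟩
      · rcases hbc with ⟨_, x, a, rfl, _, h2⟩ | ⟨x, y, a, b, h1, _⟩ | ⟨x, a, h1, _⟩
        · exact Or.inr ⟨x, a, rfl, h2⟩
        · exact absurd ⟨_, h1.symm⟩ hs
        · exact absurd ⟨_, h1.symm⟩ hs
      · rcases hbc with ⟨h1, _⟩ | ⟨x', y, a', b, h1, rfl, _, _, _, _, h2⟩ | ⟨x', a', h1, _, _, h2⟩
        · exact absurd ⟨_, h1⟩ hs
        · have h3 := ι.injective h1
          simp only [Prod.mk.injEq] at h3
          exact Or.inr ⟨y, b, rfl, h2 (h3.2 ▸ ha)⟩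
        · have h3 := ι.injective h1
          simp only [Prod.mk.injEq] at h3
          rw [← h3.2] at h2
          omega
  rcases key _ h with h | ⟨x, a, h, _⟩
  · exact hst h.symm
  · exact ht ⟨_, h.symm⟩

theorem G1_path (hM : 0 < M) (hMr : M ≤ r) : ReflTransGen (G1 ι M s t) s t := by
  have key : ∀ i (hi : i < M), ReflTransGen (G1 ι M s t) s (ι (⟨i, lt_of_lt_of_le hi hMr⟩, 0)) := by
    intro i
    induction i with
    | zero => intro hi; exact ReflTransGen.single (Or.inl ⟨rfl, _, rfl, rfl⟩)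
    | succ i ih =>
      intro hi
      exact (ih (by omega)).tail (Or.inr (Or.inl ⟨_, _, rfl, rfl, rfl, hi⟩))
  refine (key (M - 1) (by omega)).tail (Or.inr (Or.inr ⟨_, rfl, rfl, ?_⟩))
  show M - 1 + 1 = M
  omega

theorem acyclic_of_rank {G : V → V → Prop} (rk : V → ℕ)
    (h : ∀ u v, G u v → rk u < rk v) (v : V) : ¬ TransGen G v v := by
  intro hv
  have key : ∀ u w, TransGen G u w → rk u < rk w := by
    intro u w huw
    induction huw with
    | single h' => exact h _ _ h'
    | tail _ h' ih => exact ih.trans (h _ _ h')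
  exact lt_irrefl _ (key v v hv)

open Classical in
/-- a rank function -/
noncomputable def rkV (ι : Fin r × Fin q ↪ V) (s : V) (v : V) : ℕ :=
  if v = s then 0 else if h : ∃ p, ι p = v then h.choose.1.val + 1 else r + 2

theorem rkV_s : rkV ι s s = 0 := if_pos rfl

theorem rkV_ι (hs : s ∉ Set.range ι) (p : Fin r × Fin q) : rkV ι s (ι p) = p.1.val + 1 := by
  unfold rkV
  have h : ∃ p', ι p' = ι p := ⟨p, rfl⟩
  rw [if_neg (fun h => hs ⟨p, h⟩), dif_pos h, ι.injective h.choose_spec]

theorem rkV_t (ht : t ∉ Set.range ι) (hst : s ≠ t) : rkV ι s t = r + 2 := by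
  unfold rkV
  have h : ¬ ∃ p, ι p = t := fun h => ht h
  rw [if_neg hst.symm, dif_neg h]

theorem G0_acyclic (hs : s ∉ Set.range ι) (ht : t ∉ Set.range ι) (hst : s ≠ t) (v : V) :
    ¬ TransGen (G0 ι M s t) v v := by
  refine acyclic_of_rank (rkV ι s) ?_ v
  rintro u v (⟨rfl, x, a, rfl, _, _⟩ | ⟨x, y, a, b, rfl, rfl, h, _⟩ | ⟨x, a, rfl, rfl, _⟩)
  · rw [rkV_s, rkV_ι hs]; omega
  · rw [rkV_ι hs, rkV_ι hs]
    show x.val + 1 < y.val + 1
    omega
  · rw [rkV_ι hs, rkV_t ht hst]
    show x.val + 1 < r + 2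
    have := x.2
    omega

theorem G1_acyclic (hs : s ∉ Set.range ι) (ht : t ∉ Set.range ι) (hst : s ≠ t) (v : V) :
    ¬ TransGen (G1 ι M s t) v v := by
  refine acyclic_of_rank (rkV ι s) ?_ v
  rintro u v (⟨rfl, x, rfl, _⟩ | ⟨x, y, rfl, rfl, h, _⟩ | ⟨x, rfl, rfl, _⟩)
  · rw [rkV_s, rkV_ι hs]; omega
  · rw [rkV_ι hs, rkV_ι hs]
    show x.val + 1 < y.val + 1
    omega
  · rw [rkV_ι hs, rkV_t ht hst]
    show x.val + 1 < r + 2
    have := x.2
    omega

open Classical in
/-- the class where a point should be placed -/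
noncomputable def cl (X : Finset ℕ) (p : Fin r × Fin q) : ℕ :=
  if p.2 = 0 then (if p.1.val ∈ X then 0 else 1) else 2

theorem cl_le (X : Finset ℕ) (p : Fin r × Fin q) : cl X p < 3 := by
  unfold cl
  split_ifs <;> norm_num

/-- `γ` places the points of `S` correctly. -/
def Realize (γ : Fin r → alternatingGroup (Fin q)) (S : Finset (Fin r × Fin q)) (X : Finset ℕ) :
    Prop :=
  ∀ p ∈ S, (((γ p.1 : Equiv.Perm (Fin q)) p.2).val) % 3 = cl X p

/-- the two families agree on the points of `S` -/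
def Agree (γ γ' : Fin r → alternatingGroup (Fin q)) (S : Finset (Fin r × Fin q)) : Prop :=
  ∀ p ∈ S, (γ' p.1 : Equiv.Perm (Fin q)) p.2 = (γ p.1 : Equiv.Perm (Fin q)) p.2

theorem extend_one {K : ℕ} (hq : 3 * (K + 1) ≤ q) {γ : Fin r → alternatingGroup (Fin q)}
    {S : Finset (Fin r × Fin q)} {X : Finset ℕ} (hr : Realize γ S X) {u : Fin r × Fin q}
    (hu : u ∉ S) (hS : S.card ≤ K) :
    ∃ γ', Realize γ' (insert u S) X ∧ Agree γ γ' S := by
  classical
  obtain ⟨i, a⟩ := u
  set T : Finset (Fin q) := (S.filter (fun p => p.1 = i)).image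
    (fun p => (γ i : Equiv.Perm (Fin q)) p.2) with hTdef
  have hT : T.card ≤ K := (Finset.card_image_le.trans (Finset.card_filter_le _ _)).trans hS
  obtain ⟨y, hyT, hy⟩ : ∃ y : Fin q, y ∉ T ∧ y.val % 3 = cl X (i, a) := by
    have hc := cl_le X (i, a)
    let g : Fin (K + 1) → Fin q := fun j => ⟨3 * j.val + cl X (i, a), by have := j.2; omega⟩
    have hg : Function.Injective g := by
      intro j j' hjj
      have : 3 * j.val + cl X (i, a) = 3 * j'.val + cl X (i, a) := congrArg Fin.val hjj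
      exact Fin.ext (by omega)
    have hcard : T.card < (Finset.univ.image g).card := by
      rw [Finset.card_image_of_injective _ hg, Finset.card_univ, Fintype.card_fin]; omega
    obtain ⟨y, hy, hyT⟩ := Finset.exists_mem_notMem_of_card_lt_card hcard
    rw [Finset.mem_image] at hy
    obtain ⟨j, -, rfl⟩ := hy
    refine ⟨g j, hyT, ?_⟩
    show (3 * j.val + cl X (i, a)) % 3 = cl X (i, a)
    omega
  by_cases hay : (γ i : Equiv.Perm (Fin q)) a = y
  · refine ⟨γ, ?_, fun _ _ => rfl⟩
    intro p hp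
    rcases Finset.mem_insert.1 hp with rfl | hp
    · rw [← hy, ← hay]
    · exact hr p hp
  obtain ⟨c, hc⟩ : ∃ c : Fin q, c ∉ insert ((γ i : Equiv.Perm (Fin q)) a) (insert y T) := by
    by_contra h
    push Not at h
    have h1 : (Finset.univ : Finset (Fin q)) ⊆
      insert ((γ i : Equiv.Perm (Fin q)) a) (insert y T) := fun x _ => h x
    have h2 := Finset.card_le_card h1
    rw [Finset.card_univ, Fintype.card_fin] at h2
    have h3 := Finset.card_insert_le ((γ i : Equiv.Perm (Fin q)) a) (insert y T)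
    have h4 := Finset.card_insert_le y T
    omega
  simp only [Finset.mem_insert, not_or] at hc
  obtain ⟨hca, hcy, hcT⟩ := hc
  set σ : Equiv.Perm (Fin q) := H534R2.SymSw.c3 ((γ i : Equiv.Perm (Fin q)) a) y c with hσ
  have hsign : Equiv.Perm.sign σ = 1 := by
    rw [hσ]
    unfold H534R2.SymSw.c3
    rw [map_mul, Equiv.Perm.sign_swap hay, Equiv.Perm.sign_swap (Ne.symm hcy)]
    rfl
  let σ' : alternatingGroup (Fin q) := ⟨σ, Equiv.Perm.mem_alternatingGroup.2 hsign⟩
  refine ⟨Function.update γ i (σ' * γ i), ?_, ?_⟩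
  · intro p hp
    rcases Finset.mem_insert.1 hp with rfl | hp
    · show ((((Function.update γ i (σ' * γ i)) i : alternatingGroup (Fin q)) :
        Equiv.Perm (Fin q)) a).val % 3 = cl X (i, a)
      rw [Function.update_self]
      show (σ ((γ i : Equiv.Perm (Fin q)) a)).val % 3 = cl X (i, a)
      rw [hσ, H534R2.SymSw.c3_apply1 hay (Ne.symm hca), hy]
    · by_cases hpi : p.1 = i
      · have h1 : (γ i : Equiv.Perm (Fin q)) p.2 ∈ T :=
          Finset.mem_image_of_mem _ (Finset.mem_filter.2 ⟨hp, hpi⟩)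
        have h2 : σ ((γ i : Equiv.Perm (Fin q)) p.2) = (γ i : Equiv.Perm (Fin q)) p.2 := by
          rw [hσ]
          apply H534R2.SymSw.c3_apply_of_ne
          · intro h
            have h3 := (γ i : Equiv.Perm (Fin q)).injective h
            apply hu
            have h4 : p = (i, a) := Prod.ext hpi h3
            rw [← h4]
            exact hp
          · intro h; exact hyT (h ▸ h1)
          · intro h; exact hcT (h ▸ h1)
        have h3 := hr p hp
        rw [hpi] at h3 ⊢
        rw [Function.update_self]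
        show (σ ((γ i : Equiv.Perm (Fin q)) p.2)).val % 3 = cl X p
        rw [h2]
        exact h3
      · rw [Function.update_of_ne hpi]
        exact hr p hp
  · intro p hp
    by_cases hpi : p.1 = i
    · have h1 : (γ i : Equiv.Perm (Fin q)) p.2 ∈ T :=
        Finset.mem_image_of_mem _ (Finset.mem_filter.2 ⟨hp, hpi⟩)
      have h2 : σ ((γ i : Equiv.Perm (Fin q)) p.2) = (γ i : Equiv.Perm (Fin q)) p.2 := by
        rw [hσ]
        apply H534R2.SymSw.c3_apply_of_ne
        · intro h
          have h3 := (γ i : Equiv.Perm (Fin q)).injective h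
          apply hu
          have h4 : p = (i, a) := Prod.ext hpi h3
          rw [← h4]
          exact hp
        · intro h; exact hyT (h ▸ h1)
        · intro h; exact hcT (h ▸ h1)
      rw [hpi, Function.update_self]
      exact h2
    · rw [Function.update_of_ne hpi]

theorem extend_all {K : ℕ} (hq : 3 * (K + 1) ≤ q) {γ : Fin r → alternatingGroup (Fin q)}
    {S U : Finset (Fin r × Fin q)} {X : Finset ℕ} (hr : Realize γ S X)
    (hSU : S ⊆ U) (hU : U.card ≤ K) :
    ∃ γ', Realize γ' U X ∧ Agree γ γ' S := by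
  classical
  have key : ∀ T : Finset (Fin r × Fin q), T ⊆ U →
      ∃ γ', Realize γ' (S ∪ T) X ∧ Agree γ γ' S := by
    intro T
    induction T using Finset.induction_on with
    | empty => intro _; exact ⟨γ, by rwa [Finset.union_empty], fun _ _ => rfl⟩
    | insert u T huT ih =>
      intro hT
      obtain ⟨γ', h2, h3⟩ := ih ((Finset.subset_insert _ _).trans hT)
      by_cases hu : u ∈ S ∪ T
      · refine ⟨γ', ?_, h3⟩
        rwa [Finset.union_insert, Finset.insert_eq_self.2 hu]
      · have hcard : (S ∪ T).card ≤ K :=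
          (Finset.card_le_card (Finset.union_subset hSU
            ((Finset.subset_insert _ _).trans hT))).trans hU
        obtain ⟨γ'', h5, h6⟩ := extend_one hq h2 hu hcard
        refine ⟨γ'', by rwa [Finset.union_insert], ?_⟩
        intro p hp
        rw [h6 p (Finset.mem_union_left _ hp), h3 p hp]
  obtain ⟨γ', h2, h3⟩ := key U (Finset.Subset.refl _)
  rw [Finset.union_eq_right.2 hSU] at h2
  exact ⟨γ', h2, h3⟩

open Classical in
/-- the numbers of the blocks whose distinguished point is in `U` -/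
noncomputable def nums (U : Finset (Fin r × Fin q)) : Finset ℕ :=
  (U.filter (fun p => p.2 = 0)).image (fun p => p.1.val)

theorem mem_nums {U : Finset (Fin r × Fin q)} {x : Fin r} (h : (x, 0) ∈ U) :
    x.val ∈ nums U := by
  unfold nums
  rw [Finset.mem_image]
  exact ⟨(x, 0), Finset.mem_filter.2 ⟨h, rfl⟩, rfl⟩

theorem card_nums (U : Finset (Fin r × Fin q)) : (nums U).card ≤ U.card := by
  unfold nums
  exact Finset.card_image_le.trans (Finset.card_filter_le _ _)

theorem agree_pull (hs : s ∉ Set.range ι) (ht : t ∉ Set.range ι)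
    {γ : Fin r → alternatingGroup (Fin q)} {U : Finset (Fin r × Fin q)} {X : Finset ℕ}
    (hr : Realize γ U X) (hv : H534R2.SymSw.Valid M (nums U) X) (u v : V)
    (hu : (∃ p ∈ U, u = ι p) ∨ u ∉ Set.range ι) (hv' : (∃ p ∈ U, v = ι p) ∨ v ∉ Set.range ι) :
    G1 ι M s t u v ↔ G0 ι M s t (actV ι γ u) (actV ι γ v) := by
  classical
  obtain ⟨hv1, hv2, hv3⟩ := hv
  have hsne : ∀ p, ι p ≠ s := fun p h => hs ⟨p, h⟩
  have htne : ∀ p, ι p ≠ t := fun p h => ht ⟨p, h⟩
  -- the class of a placed point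
  have hcl0 : ∀ p ∈ U, (((γ p.1 : Equiv.Perm (Fin q)) p.2).val) % 3 ≠ 2 → p.2 = 0 := by
    intro p hp h
    by_contra hne
    apply h
    rw [hr p hp]
    unfold cl
    rw [if_neg hne]
  have hclX : ∀ x : Fin r, (x, 0) ∈ U →
      ((((γ x : Equiv.Perm (Fin q)) 0).val) % 3 = 0 ↔ x.val ∈ X) := by
    intro x hx
    have h1 := hr (x, 0) hx
    show (((γ x : Equiv.Perm (Fin q)) 0).val) % 3 = 0 ↔ x.val ∈ X
    have h2 : (((γ x : Equiv.Perm (Fin q)) 0).val) % 3 = if x.val ∈ X then 0 else 1 := by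
      have h3 : cl X ((x, 0) : Fin r × Fin q) = if x.val ∈ X then 0 else 1 := by
        unfold cl
        exact if_pos rfl
      rw [← h3]
      exact h1
    rw [h2]
    split_ifs with h
    · simp [h]
    · simp [h]
  have hcl2 : ∀ x : Fin r, (x, 0) ∈ U → (((γ x : Equiv.Perm (Fin q)) 0).val) % 3 ≠ 2 := by
    intro x hx
    have h1 := hr (x, 0) hx
    have h3 : cl X ((x, 0) : Fin r × Fin q) = if x.val ∈ X then 0 else 1 := by
      unfold cl
      exact if_pos rfl
    rw [h3] at h1
    have h4 : (((γ x : Equiv.Perm (Fin q)) 0).val) % 3 = if x.val ∈ X then 0 else 1 := h1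
    rw [h4]
    split_ifs <;> norm_num
  rcases hu with ⟨p, hp, rfl⟩ | hu
  · obtain ⟨x, a⟩ := p
    rw [actV_mk]
    rcases hv' with ⟨p', hp', rfl⟩ | hv'
    · obtain ⟨y, b⟩ := p'
      rw [actV_mk]
      constructor
      · rintro (⟨h, _⟩ | ⟨x', y', h1, h2, h3, h4⟩ | ⟨x', _, h, _⟩)
        · exact absurd h (hsne _)
        · have e1 := ι.injective h1
          have e2 := ι.injective h2
          simp only [Prod.mk.injEq] at e1 e2
          obtain ⟨rfl, rfl⟩ := e1
          obtain ⟨rfl, rfl⟩ := e2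
          refine Or.inr (Or.inl ⟨x, y, _, _, rfl, rfl, h3, h4, hcl2 x hp, hcl2 y hp', ?_⟩)
          rw [hclX x hp, hclX y hp', h3]
          intro h
          exact hv3 x.val (mem_nums hp) (by rw [← h3]; exact mem_nums hp') h (by omega)
        · exact absurd h (htne _)
      · rintro (⟨h, _⟩ | ⟨x', y', a', b', h1, h2, h3, h4, h5, h6, _⟩ | ⟨x', a', _, h, _⟩)
        · exact absurd h (hsne _)
        · have e1 := ι.injective h1
          have e2 := ι.injective h2
          simp only [Prod.mk.injEq] at e1 e2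
          obtain ⟨rfl, rfl⟩ := e1
          obtain ⟨rfl, rfl⟩ := e2
          have h7 : a = 0 := hcl0 (x, a) hp h5
          have h8 : b = 0 := hcl0 (y, b) hp' h6
          subst h7 h8
          exact Or.inr (Or.inl ⟨x, y, rfl, rfl, h3, h4⟩)
        · exact absurd h (htne _)
    · rw [actV_out ι γ hv']
      constructor
      · rintro (⟨h, _⟩ | ⟨x', y', _, h, _⟩ | ⟨x', h1, rfl, h3⟩)
        · exact absurd h (hsne _)
        · exact absurd ⟨_, h.symm⟩ hv'
        · have e1 := ι.injective h1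
          simp only [Prod.mk.injEq] at e1
          obtain ⟨rfl, rfl⟩ := e1
          refine Or.inr (Or.inr ⟨x, _, rfl, rfl, h3, ?_⟩)
          have h5 : x.val ∉ X := by
            intro h
            have := hv2 x.val (mem_nums hp) h (by omega)
            omega
          have h6 := (hclX x hp).not.2 h5
          have h7 := hcl2 x hp
          omega
      · rintro (⟨h, _⟩ | ⟨x', y', a', b', _, h, _⟩ | ⟨x', a', h1, rfl, h3, h4⟩)
        · exact absurd h (hsne _)
        · exact absurd ⟨_, h.symm⟩ hv'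
        · have e1 := ι.injective h1
          simp only [Prod.mk.injEq] at e1
          obtain ⟨rfl, rfl⟩ := e1
          have h7 : a = 0 := hcl0 (x, a) hp (by
            show (((γ x : Equiv.Perm (Fin q)) a).val) % 3 ≠ 2
            omega)
          subst h7
          exact Or.inr (Or.inr ⟨x, rfl, rfl, h3⟩)
  · rw [actV_out ι γ hu]
    rcases hv' with ⟨p', hp', rfl⟩ | hv'
    · obtain ⟨y, b⟩ := p'
      rw [actV_mk]
      constructor
      · rintro (⟨rfl, y', h1, h2⟩ | ⟨x', y', h, _⟩ | ⟨x', h, _⟩)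
        · have e1 := ι.injective h1
          simp only [Prod.mk.injEq] at e1
          obtain ⟨rfl, rfl⟩ := e1
          refine Or.inl ⟨rfl, y, _, rfl, h2, ?_⟩
          rw [hclX y hp']
          rw [h2]
          apply hv1
          rw [← h2]
          exact mem_nums hp'
        · exact absurd ⟨_, h.symm⟩ hu
        · exact absurd ⟨_, h.symm⟩ hu
      · rintro (⟨rfl, y', b', h1, h2, h3⟩ | ⟨x', y', a', b', h, _⟩ | ⟨x', a', h, _⟩)
        · have e1 := ι.injective h1
          simp only [Prod.mk.injEq] at e1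
          obtain ⟨rfl, rfl⟩ := e1
          have h7 : b = 0 := hcl0 (y, b) hp' (by
            show (((γ y : Equiv.Perm (Fin q)) b).val) % 3 ≠ 2
            omega)
          subst h7
          exact Or.inl ⟨rfl, y, rfl, h2⟩
        · exact absurd ⟨_, h.symm⟩ hu
        · exact absurd ⟨_, h.symm⟩ hu
    · rw [actV_out ι γ hv']
      constructor
      · rintro (⟨_, y', h1, _⟩ | ⟨x', y', h, _⟩ | ⟨x', h, _⟩)
        · exact absurd ⟨_, h1.symm⟩ hv'
        · exact absurd ⟨_, h.symm⟩ hu
        · exact absurd ⟨_, h.symm⟩ hu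
      · rintro (⟨_, y', b', h1, _⟩ | ⟨x', y', a', b', h, _⟩ | ⟨x', a', h, _⟩)
        · exact absurd ⟨_, h1.symm⟩ hv'
        · exact absurd ⟨_, h.symm⟩ hu
        · exact absurd ⟨_, h.symm⟩ hu

end inst

section core

open H534R2.SymSw

variable {V Q : Type} {r q k : ℕ} [NeZero q] {ι : Fin r × Fin q ↪ V}
  {N : SwNet V Q (Set.range ι)ᶜ k} {M : ℕ} {s t : V}

/-- the placements of the support of a node for which the moved node is connected to the start in
`G0` -/
def Phi (N : SwNet V Q (Set.range ι)ᶜ k) (M : ℕ) (s t : V) (supp : Q → Finset (Fin r × Fin q))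
    (x : Q) (X : Finset ℕ) : Prop :=
  ∃ γ φ, N.IsAut (actV ι γ) φ ∧ Realize γ (supp x) X ∧
    EqvGen (N.pass (G0 ι M s t)) N.start (φ x)

theorem pass_G0 (hs : s ∉ Set.range ι) (ht : t ∉ Set.range ι)
    {x x' : Q} {A : Finset V} {U : Finset (Fin r × Fin q)}
    (hcert : ∀ G' : V → V → Prop, (∀ u v, (u ∈ A ∨ u ∈ (Set.range ι)ᶜ) →
      (v ∈ A ∨ v ∈ (Set.range ι)ᶜ) → (G1 ι M s t u v ↔ G' u v)) → N.pass G' x x')
    (hAU : ∀ p, ι p ∈ A → p ∈ U) {X : Finset ℕ} (hv : Valid M (nums U) X)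
    {γ : Fin r → alternatingGroup (Fin q)} {φ : Equiv.Perm Q} (hφ : N.IsAut (actV ι γ) φ)
    (hr : Realize γ U X) : N.pass (G0 ι M s t) (φ x) (φ x') := by
  have key : ∀ u : V, (u ∈ A ∨ u ∈ (Set.range ι)ᶜ) → (∃ p ∈ U, u = ι p) ∨ u ∉ Set.range ι := by
    rintro u (h | h)
    · by_cases hu : u ∈ Set.range ι
      · obtain ⟨p, rfl⟩ := hu
        exact Or.inl ⟨p, hAU p h, rfl⟩
      · exact Or.inr hu
    · exact Or.inr h
  have h1 := hcert (fun u v => G0 ι M s t (actV ι γ u) (actV ι γ v))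
    (fun u v hu hv' => agree_pull hs ht hr hv u v (key u hu) (key v hv'))
  have h2 := (hφ.pass _ _ _).2 h1
  have h3 : relab (actV ι γ) (fun u v => G0 ι M s t (actV ι γ u) (actV ι γ v)) =
      G0 ι M s t := by
    funext u v
    show G0 ι M s t (actV ι γ ((actV ι γ).symm u)) (actV ι γ ((actV ι γ).symm v)) = G0 ι M s t u v
    rw [Equiv.apply_symm_apply, Equiv.apply_symm_apply]
  rwa [h3] at h2

theorem Phi_step {K : ℕ} (hs : s ∉ Set.range ι)
    (ht : t ∉ Set.range ι) (hq : 3 * (K + 1) ≤ q) (supp : Q → Finset (Fin r × Fin q))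
    (hsupp : ∀ x, ∀ γ : Fin r → alternatingGroup (Fin q),
      (∀ p ∈ supp x, (γ p.1 : Equiv.Perm (Fin q)) p.2 = p.2) → γ ∈ Stab N ι x)
    {x x' : Q} {A : Finset V} {U : Finset (Fin r × Fin q)}
    (hcert : ∀ G' : V → V → Prop, (∀ u v, (u ∈ A ∨ u ∈ (Set.range ι)ᶜ) →
      (v ∈ A ∨ v ∈ (Set.range ι)ᶜ) → (G1 ι M s t u v ↔ G' u v)) → N.pass G' x x')
    (hAU : ∀ p, ι p ∈ A → p ∈ U) (hxU : supp x ⊆ U) (hxU' : supp x' ⊆ U) (hU : U.card ≤ K)
    {X : Finset ℕ} (hv : Valid M (nums U) X) :
    Phi N M s t supp x X ↔ Phi N M s t supp x' X := by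
  have move : ∀ y : Q, ∀ (γ γ' : Fin r → alternatingGroup (Fin q)) (φ : Equiv.Perm Q),
      N.IsAut (actV ι γ) φ → Agree γ γ' (supp y) →
      ∃ φ', N.IsAut (actV ι γ') φ' ∧ φ' y = φ y := by
    intro y γ γ' φ hφ hag
    have h1 : γ⁻¹ * γ' ∈ Stab N ι y := by
      apply hsupp
      intro p hp
      show (((γ p.1)⁻¹ * γ' p.1 : alternatingGroup (Fin q)) : Equiv.Perm (Fin q)) p.2 = p.2
      rw [Subgroup.coe_mul, Subgroup.coe_inv, Equiv.Perm.mul_apply, hag p hp, perm_inv_apply]
    obtain ⟨ψ, h2, h3⟩ := h1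
    refine ⟨φ * ψ, ?_, ?_⟩
    · have h4 := aut_mul hφ h2
      rw [← map_mul, mul_inv_cancel_left] at h4
      exact h4
    · rw [Equiv.Perm.mul_apply, h3]
  constructor
  · rintro ⟨γ, φ, h1, h2, h3⟩
    obtain ⟨γ', h5, h6⟩ := extend_all hq h2 hxU hU
    obtain ⟨φ', h7, h8⟩ := move x γ γ' φ h1 h6
    refine ⟨γ', φ', h7, fun p hp => h5 p (hxU' hp), ?_⟩
    rw [← h8] at h3
    exact h3.trans _ _ _ (EqvGen.rel _ _ (pass_G0 hs ht hcert hAU hv h7 h5))
  · rintro ⟨γ, φ, h1, h2, h3⟩
    obtain ⟨γ', h5, h6⟩ := extend_all hq h2 hxU' hU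
    obtain ⟨φ', h7, h8⟩ := move x' γ γ' φ h1 h6
    refine ⟨γ', φ', h7, fun p hp => h5 p (hxU hp), ?_⟩
    rw [← h8] at h3
    exact h3.trans _ _ _ (EqvGen.symm _ _
      (EqvGen.rel _ _ (pass_G0 hs ht hcert hAU hv h7 h5)))

theorem Phi_dep (supp : Q → Finset (Fin r × Fin q)) (x : Q) {U : Finset (Fin r × Fin q)}
    (hxU : supp x ⊆ U) (X : Finset ℕ) :
    Phi N M s t supp x X ↔ Phi N M s t supp x (X ∩ nums U) := by
  have h : ∀ γ : Fin r → alternatingGroup (Fin q), Realize γ (supp x) X ↔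
      Realize γ (supp x) (X ∩ nums U) := by
    intro γ
    refine forall₂_congr fun p hp => ?_
    have : cl X p = cl (X ∩ nums U) p := by
      unfold cl
      by_cases hp2 : p.2 = 0
      · have hpU : p.1.val ∈ nums U := by
          apply mem_nums
          rw [← hp2]
          exact hxU hp
        simp only [if_pos hp2, Finset.mem_inter, hpU, and_true]
      · simp only [if_neg hp2]
    rw [this]
  unfold Phi
  simp only [h]

open Classical in
/-- indicator of `Phi` -/
noncomputable def phi (N : SwNet V Q (Set.range ι)ᶜ k) (M : ℕ) (s t : V)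
    (supp : Q → Finset (Fin r × Fin q)) (x : Q) (X : Finset ℕ) : ZMod 2 :=
  if Phi N M s t supp x X then 1 else 0

theorem phi_congr (supp : Q → Finset (Fin r × Fin q)) {x x' : Q} {X X' : Finset ℕ}
    (h : Phi N M s t supp x X ↔ Phi N M s t supp x' X') :
    phi N M s t supp x X = phi N M s t supp x' X' := by
  unfold phi; rw [h]

open Classical in
/-- **Core of the lower bound.** -/
theorem core {K m : ℕ} (hst : s ≠ t) (hs : s ∉ Set.range ι)
    (ht : t ∉ Set.range ι)
    (hN : ∀ G : V → V → Prop, (∀ v, ¬ TransGen G v v) →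
      (EqvGen (N.pass G) N.start N.acc ↔ ReflTransGen G s t))
    (hr : 2 ^ K ≤ r) (hq : 3 * (K + 1) ≤ q)
    (supp : Q → Finset (Fin r × Fin q)) (hstart : supp N.start = ∅)
    (hsupp : ∀ x, ∀ γ : Fin r → alternatingGroup (Fin q),
      (∀ p ∈ supp x, (γ p.1 : Equiv.Perm (Fin q)) p.2 = p.2) → γ ∈ Stab N ι x)
    (hcard : ∀ x, (supp x).card < 2 * m) (hK : 2 * (2 * m - 1) + k ≤ K) : False := by
  set M := 2 ^ K with hMdef
  have hM : 0 < M := by rw [hMdef]; positivity
  have hstep : ∀ x x', N.pass (G1 ι M s t) x x' →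
      pE K (phi N M s t supp x) = pE K (phi N M s t supp x') := by
    intro x x' hxx
    obtain ⟨A, hA, hcert⟩ := N.loc _ x x' hxx
    obtain ⟨A', hA'⟩ : ∃ A' : Finset (Fin r × Fin q), ∀ p, p ∈ A' ↔ ι p ∈ A :=
      ⟨Finset.univ.filter (fun p => ι p ∈ A), fun p => by simp⟩
    have hA'c : A'.card ≤ k := by
      refine le_trans ?_ hA
      refine Finset.card_le_card_of_injOn ι ?_ ι.injective.injOn
      intro p hp
      exact (hA' p).1 hp
    set U := supp x ∪ supp x' ∪ A' with hU
    have hUc : U.card ≤ K := by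
      rw [hU]
      have h1 := Finset.card_union_le (supp x ∪ supp x') A'
      have h2 := Finset.card_union_le (supp x) (supp x')
      have h3 := hcard x
      have h4 := hcard x'
      omega
    have hxU : supp x ⊆ U := fun p hp => by
      rw [hU]; exact Finset.mem_union_left _ (Finset.mem_union_left _ hp)
    have hxU' : supp x' ⊆ U := fun p hp => by
      rw [hU]; exact Finset.mem_union_left _ (Finset.mem_union_right _ hp)
    have hAU : ∀ p, ι p ∈ A → p ∈ U := fun p hp => by
      rw [hU]; exact Finset.mem_union_right _ ((hA' p).2 hp)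
    have hzero := pE_eq_zero (K := K) (U := nums U) ((card_nums U).trans hUc)
      (fun X => phi N M s t supp x X + phi N M s t supp x' X)
      (by
        intro X
        rw [phi_congr supp (Phi_dep supp x hxU X), phi_congr supp (Phi_dep supp x' hxU' X)])
      (by
        intro X _ hv
        rw [phi_congr supp
          (Phi_step hs ht hq supp hsupp hcert hAU hxU hxU' hUc hv)]
        exact zmod2_add_self _)
    rw [pE_add] at hzero
    calc pE K (phi N M s t supp x)
        = pE K (phi N M s t supp x) +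
            (pE K (phi N M s t supp x') + pE K (phi N M s t supp x')) := by
          rw [zmod2_add_self, add_zero]
      _ = pE K (phi N M s t supp x') := by rw [← add_assoc, hzero, zero_add]
  have hconn : ∀ x x', EqvGen (N.pass (G1 ι M s t)) x x' →
      pE K (phi N M s t supp x) = pE K (phi N M s t supp x') := by
    intro x x' h
    induction h with
    | rel x y h => exact hstep x y h
    | refl => rfl
    | symm _ _ _ ih => exact ih.symm
    | trans _ _ _ _ _ ih1 ih2 => exact ih1.trans ih2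
  have h1 := hconn _ _ ((hN (G1 ι M s t) (G1_acyclic hs ht hst)).2 (G1_path hM hr))
  have h2 : phi N M s t supp N.start = fun _ => 1 := by
    funext X
    unfold phi
    rw [if_pos]
    refine ⟨1, 1, ?_, ?_, ?_⟩
    · rw [map_one]; exact aut_one
    · rw [hstart]; intro p hp; simp at hp
    · exact EqvGen.refl _
  have h3 : phi N M s t supp N.acc = fun _ => 0 := by
    funext X
    unfold phi
    rw [if_neg]
    rintro ⟨γ, φ, hφ, -, h⟩
    rw [hφ.acc] at h
    exact G0_no_path hs ht hst ((hN _ (G0_acyclic hs ht hst)).1 h)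
  rw [h2, h3, pE_one, pE_zero] at h1
  exact absurd h1 (by decide)

end core

end Bsw

end Pool.Agent.H870R2.LS
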