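import Pool.Agent.H870R2.LS.BFinal

set_option autoImplicit false
set_option linter.unusedSectionVars false

/-! Locally symmetric undirected switching networks and random walks. -/

namespace Pool.Agent.H870R2.LS

open Finset Relation
open Pool.Agent.H526R2.LS

namespace Bsw

section core

open H534R2.SymSw

variable {V Q : Type} {r q k : ℕ} [NeZero q] {ι : Fin r × Fin q ↪ V}
  {N : SwNet V Q (Set.range ι)ᶜ k} {M : ℕ} {s t : V}

open Classical in
/-- **Core of the lower bound.** -/
theorem core_pair {K m : ℕ} (hs : s ∉ Set.range ι)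
    (ht : t ∉ Set.range ι)
    (hyes : EqvGen (N.pass (G1 ι (2 ^ K) s t)) N.start N.acc)
    (hno : ¬ EqvGen (N.pass (G0 ι (2 ^ K) s t)) N.start N.acc)
    (hq : 3 * (K + 1) ≤ q)
    (supp : Q → Finset (Fin r × Fin q)) (hstart : supp N.start = ∅)
    (hsupp : ∀ x, ∀ γ : Fin r → alternatingGroup (Fin q),
      (∀ p ∈ supp x, (γ p.1 : Equiv.Perm (Fin q)) p.2 = p.2) → γ ∈ Stab N ι x)
    (hcard : ∀ x, (supp x).card < 2 * m) (hK : 2 * (2 * m - 1) + k ≤ K) : False := by
  set M := 2 ^ K with hMdef
  have hstep : ∀ x x', N.pass (G1 ι M s t) x x' →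
      pE K (phi N M s t supp x) = pE K (phi N M s t supp x') := by
    intro x x' hxx
    obtain ⟨A, hA, hcert⟩ := N.loc _ x x' hxx
    obtain ⟨A', hA'⟩ : ∃ A' : Finset (Fin r × Fin q), ∀ p, p ∈ A' ↔ ι p ∈ A :=
      ⟨Finset.univ.filter (fun p => ι p ∈ A), fun p => by simp⟩
    have hA'c : A'.card ≤ k := by
      refine le_trans ?_ hA
      refine Finset.card_le_card_of_injOn ι ?_ ι.injective.injOn
      intro p hp
      exact (hA' p).1 hp
    set U := supp x ∪ supp x' ∪ A' with hU
    have hUc : U.card ≤ K := by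
      rw [hU]
      have h1 := Finset.card_union_le (supp x ∪ supp x') A'
      have h2 := Finset.card_union_le (supp x) (supp x')
      have h3 := hcard x
      have h4 := hcard x'
      omega
    have hxU : supp x ⊆ U := fun p hp => by
      rw [hU]; exact Finset.mem_union_left _ (Finset.mem_union_left _ hp)
    have hxU' : supp x' ⊆ U := fun p hp => by
      rw [hU]; exact Finset.mem_union_left _ (Finset.mem_union_right _ hp)
    have hAU : ∀ p, ι p ∈ A → p ∈ U := fun p hp => by
      rw [hU]; exact Finset.mem_union_right _ ((hA' p).2 hp)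
    have hzero := pE_eq_zero (K := K) (U := nums U) ((card_nums U).trans hUc)
      (fun X => phi N M s t supp x X + phi N M s t supp x' X)
      (by
        intro X
        rw [phi_congr supp (Phi_dep supp x hxU X), phi_congr supp (Phi_dep supp x' hxU' X)])
      (by
        intro X _ hv
        rw [phi_congr supp
          (Phi_step hs ht hq supp hsupp hcert hAU hxU hxU' hUc hv)]
        exact zmod2_add_self _)
    rw [pE_add] at hzero
    calc pE K (phi N M s t supp x)
        = pE K (phi N M s t supp x) +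
            (pE K (phi N M s t supp x') + pE K (phi N M s t supp x')) := by
          rw [zmod2_add_self, add_zero]
      _ = pE K (phi N M s t supp x') := by rw [← add_assoc, hzero, zero_add]
  have hconn : ∀ x x', EqvGen (N.pass (G1 ι M s t)) x x' →
      pE K (phi N M s t supp x) = pE K (phi N M s t supp x') := by
    intro x x' h
    induction h with
    | rel x y h => exact hstep x y h
    | refl => rfl
    | symm _ _ _ ih => exact ih.symm
    | trans _ _ _ _ _ ih1 ih2 => exact ih1.trans ih2
  have h1 := hconn _ _ hyes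
  have h2 : phi N M s t supp N.start = fun _ => 1 := by
    funext X
    unfold phi
    rw [if_pos]
    refine ⟨1, 1, ?_, ?_, ?_⟩
    · rw [map_one]; exact aut_one
    · rw [hstart]; intro p hp; simp at hp
    · exact EqvGen.refl _
  have h3 : phi N M s t supp N.acc = fun _ => 0 := by
    funext X
    unfold phi
    rw [if_neg]
    rintro ⟨γ, φ, hφ, -, h⟩
    rw [hφ.acc] at h
    exact hno h
  rw [h2, h3, pE_one, pE_zero] at h1
  exact absurd h1 (by decide)

end core

end Bsw

open Classical in
/-- The probability that the random walk on the relation `R` which starts in `x` visits `t` after at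
most `n` steps; in each step it goes to a uniformly random `y` with `R x y` (if there is none, it
fails). -/
noncomputable def hitR {Q : Type} [Fintype Q] (R : Q → Q → Prop) (t : Q) : ℕ → Q → ℝ
  | 0, x => if x = t then 1 else 0
  | n + 1, x => if x = t then 1 else
      (∑ y ∈ Finset.univ.filter (fun y => R x y), hitR R t n y) /
        (Finset.univ.filter (fun y => R x y)).card

theorem hitR_target {Q : Type} [Fintype Q] (R : Q → Q → Prop) (t : Q) (n : ℕ) :
    hitR R t n t = 1 := by
  classical
  cases n with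
  | zero => unfold hitR; rw [if_pos rfl]
  | succ n => unfold hitR; rw [if_pos rfl]

/-- a vertex with a unique successor -/
theorem hitR_unique {Q : Type} [Fintype Q] {R : Q → Q → Prop} {t x y : Q} (n : ℕ)
    (h : ∀ z, R x z ↔ z = y) (hy : hitR R t n y = 1) : hitR R t (n + 1) x = 1 := by
  classical
  unfold hitR
  split_ifs with hx
  · rfl
  · have h1 : Finset.univ.filter (fun z => R x z) = {y} := by
      ext z
      simp [h z]
    rw [h1, Finset.sum_singleton, hy, Finset.card_singleton]
    norm_num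

theorem hitR_zero {Q : Type} [Fintype Q] {R : Q → Q → Prop} {t : Q} (n : ℕ) :
    ∀ x, ¬ ReflTransGen R x t → hitR R t n x = 0 := by
  classical
  induction n with
  | zero =>
    intro x hx
    unfold hitR
    rw [if_neg]
    rintro rfl
    exact hx ReflTransGen.refl
  | succ n ih =>
    intro x hx
    unfold hitR
    rw [if_neg]
    · rw [Finset.sum_eq_zero, zero_div]
      intro y hy
      refine ih y (fun h => hx ?_)
      exact ReflTransGen.head (Finset.mem_filter.1 hy).2 h
    · rintro rfl
      exact hx ReflTransGen.refl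

theorem G1_succ_s {V : Type} {r q M : ℕ} [NeZero q] {ι : Fin r × Fin q ↪ V} {s t : V}
    (hM : 0 < M) (hMr : M ≤ r) (hs : s ∉ Set.range ι) (z : V) :
    Bsw.G1 ι M s t s z ↔ z = ι (⟨0, lt_of_lt_of_le hM hMr⟩, 0) := by
  constructor
  · rintro (⟨_, x, rfl, hx⟩ | ⟨x, y, h, _⟩ | ⟨x, h, _⟩)
    · have : x = ⟨0, lt_of_lt_of_le hM hMr⟩ := Fin.ext hx
      rw [this]
    · exact absurd ⟨_, h.symm⟩ hs
    · exact absurd ⟨_, h.symm⟩ hs
  · rintro rfl
    exact Or.inl ⟨rfl, _, rfl, rfl⟩

theorem G1_succ_mid {V : Type} {r q M : ℕ} [NeZero q] {ι : Fin r × Fin q ↪ V} {s t : V}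
    (hs : s ∉ Set.range ι) (x y : Fin r) (hxy : y.val = x.val + 1) (hy : y.val < M) (z : V) :
    Bsw.G1 ι M s t (ι (x, 0)) z ↔ z = ι (y, 0) := by
  constructor
  · rintro (⟨h, _⟩ | ⟨x', y', h, rfl, h2, _⟩ | ⟨x', h, _, h2⟩)
    · exact absurd ⟨_, h⟩ hs
    · have h3 := ι.injective h
      simp only [Prod.mk.injEq, and_true] at h3
      subst h3
      have : y' = y := Fin.ext (by omega)
      rw [this]
    · have h3 := ι.injective h
      simp only [Prod.mk.injEq, and_true] at h3
      subst h3
      omega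
  · rintro rfl
    exact Or.inr (Or.inl ⟨x, y, rfl, rfl, hxy, hy⟩)

theorem G1_succ_last {V : Type} {r q M : ℕ} [NeZero q] {ι : Fin r × Fin q ↪ V} {s t : V}
    (hs : s ∉ Set.range ι) (x : Fin r) (hx : x.val + 1 = M) (z : V) :
    Bsw.G1 ι M s t (ι (x, 0)) z ↔ z = t := by
  constructor
  · rintro (⟨h, _⟩ | ⟨x', y', h, _, h2, h4⟩ | ⟨x', h, h1, h2⟩)
    · exact absurd ⟨_, h⟩ hs
    · have h3 := ι.injective h
      simp only [Prod.mk.injEq, and_true] at h3
      subst h3
      omega
    · exact h1
  · rintro rfl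
    exact Or.inr (Or.inr ⟨x, rfl, rfl, hx⟩)

theorem hit_G1 {V : Type} [Fintype V] {r q M : ℕ} [NeZero q] {ι : Fin r × Fin q ↪ V} {s t : V}
    (hM : 0 < M) (hMr : M ≤ r) (hs : s ∉ Set.range ι) (c : ℕ) :
    hitR (Bsw.G1 ι M s t) t (M + 1 + c) s = 1 := by
  have key : ∀ d : ℕ, ∀ x : Fin r, x.val + 1 + d = M →
      hitR (Bsw.G1 ι M s t) t (d + 1 + c) (ι (x, 0)) = 1 := by
    intro d
    induction d with
    | zero =>
      intro x hx
      rw [zero_add, add_comm 1 c]
      exact hitR_unique c (G1_succ_last hs x (by omega)) (hitR_target _ _ _)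
    | succ d ih =>
      intro x hx
      have h1 := ih ⟨x.val + 1, by omega⟩ (by show x.val + 1 + 1 + d = M; omega)
      have h2 : d + 1 + 1 + c = (d + 1 + c) + 1 := by omega
      rw [h2]
      exact hitR_unique _ (G1_succ_mid hs x ⟨x.val + 1, by omega⟩ rfl
        (by show x.val + 1 < M; omega)) h1
  have h1 := key (M - 1) ⟨0, lt_of_lt_of_le hM hMr⟩ (by show 0 + 1 + (M - 1) = M; omega)
  have h2 : M + 1 + c = (M - 1 + 1 + c) + 1 := by omega
  rw [h2]
  exact hitR_unique _ (G1_succ_s hM hMr hs) h1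

/-- **Lower bound for locally symmetric undirected switching networks and random walks.** -/
theorem walk_lower {V Q : Type} [Fintype V] [Fintype Q] {r q k m : ℕ} (ι : Fin r × Fin q ↪ V)
    (N : SwNet V Q (Set.range ι)ᶜ k) (hsym : N.SymBlocks ι) {s t : V} (hst : s ≠ t)
    (hs : s ∉ Set.range ι) (ht : t ∉ Set.range ι)
    (hyes : ∀ G : V → V → Prop, (∀ v, ¬ TransGen G v v) → hitR G t (Fintype.card V) s = 1 →
      EqvGen (N.pass G) N.start N.acc)
    (hno : ∀ G : V → V → Prop, (∀ v, ¬ TransGen G v v) → ¬ ReflTransGen G s t →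
      ¬ EqvGen (N.pass G) N.start N.acc)
    (hm : 1 ≤ m) (hr : 2 ^ (4 * m + k - 2) ≤ r) (hq : 2 ^ (16 * m + 16) ≤ q)
    (hqk : 3 * (4 * m + k) ≤ q) : q ^ m ≤ Fintype.card Q := by
  classical
  by_contra hcard
  rw [not_le] at hcard
  have hq0 : 0 < q := lt_of_lt_of_le (by positivity) hq
  have : NeZero q := ⟨by omega⟩
  choose φ hφ using Bsw.aut_all (N := N) (ι := ι) hsym
  have hsup : ∀ x : Q, ∃ T : Finset (Fin r × Fin q), T.card < 2 * m ∧
      ∀ γ : Fin r → alternatingGroup (Fin q),
        (∀ p ∈ T, (γ p.1 : Equiv.Perm (Fin q)) p.2 = p.2) → γ ∈ Bsw.Stab N ι x := by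
    intro x
    refine point_support hm hq (Bsw.Stab N ι x) (fun γ => φ γ x) ?_ hcard
    intro a b hab
    refine ⟨(φ a)⁻¹ * φ b, ?_, ?_⟩
    · rw [map_mul, map_inv]
      exact Bsw.aut_mul (Bsw.aut_inv (hφ a)) (hφ b)
    · have h1 : φ a x = φ b x := hab
      rw [Equiv.Perm.mul_apply, ← h1, perm_inv_apply]
  choose T hT1 hT2 using hsup
  have hM : 0 < 2 ^ (4 * m + k - 2) := by positivity
  have hcV : 2 ^ (4 * m + k - 2) + 1 ≤ Fintype.card V := by
    have h1 : Fintype.card (Fin r × Fin q) < Fintype.card V := by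
      refine Fintype.card_lt_of_injective_of_notMem ι ι.injective hs
    rw [Fintype.card_prod, Fintype.card_fin, Fintype.card_fin] at h1
    have h2 : r * 1 ≤ r * q := Nat.mul_le_mul_left r hq0
    omega
  refine Bsw.core_pair (K := 4 * m + k - 2) (m := m) hs ht ?_ ?_ (by omega)
    (fun x => if x = N.start then ∅ else T x) (if_pos rfl) ?_ ?_ (by omega)
  · refine hyes _ (Bsw.G1_acyclic hs ht hst) ?_
    obtain ⟨c, hc⟩ := Nat.exists_eq_add_of_le hcV
    rw [hc]
    exact hit_G1 hM hr hs c
  · exact hno _ (Bsw.G0_acyclic hs ht hst) (Bsw.G0_no_path hs ht hst)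
  · intro x γ hγ
    by_cases hx : x = N.start
    · obtain ⟨ψ, hψ⟩ := Bsw.aut_all (N := N) (ι := ι) hsym γ
      exact ⟨ψ, hψ, by rw [hx, hψ.start]⟩
    · simp only [if_neg hx] at hγ
      exact hT2 x γ hγ
  · intro x
    by_cases hx : x = N.start
    · simp only [if_pos hx, Finset.card_empty]
      omega
    · simp only [if_neg hx]
      exact hT1 x

end Pool.Agent.H870R2.LS
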