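import Mathlib

set_option autoImplicit false
set_option linter.unusedSectionVars false

/-! Determinant of a cyclic matrix, degree of a determinant (helper55). -/

namespace Pool.Agent.H870R2.PC

open Finset BigOperators MvPolynomial

namespace DCYC

theorem key {ι : Type} [Fintype ι] [DecidableEq ι] (c : Equiv.Perm ι)
    (hc : c.IsCycle) (hs : c.support = univ) (σ : Equiv.Perm ι)
    (h : ∀ i, σ i = i ∨ σ i = c i) : σ = 1 ∨ σ = c := by
  have hne : ∀ i, c i ≠ i := fun i => by
    rw [← Equiv.Perm.mem_support, hs]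
    exact mem_univ i
  by_cases hex : ∃ i, σ i = c i
  · right
    obtain ⟨i, hi⟩ := hex
    have hk : ∀ k : ℕ, σ ((c ^ k) i) = c ((c ^ k) i) := by
      intro k
      induction k with
      | zero => simpa using hi
      | succ k ih =>
        rw [pow_succ', Equiv.Perm.mul_apply]
        rcases h (c ((c ^ k) i)) with h1 | h1
        · exfalso
          rw [← ih] at h1
          have h2 := σ.injective h1
          rw [ih] at h2
          exact hne _ h2
        · exact h1
    apply Equiv.Perm.ext
    intro j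
    obtain ⟨k, hk'⟩ := (hc.sameCycle (hne i) (hne j)).exists_nat_pow_eq
    rw [← hk']
    exact hk k
  · left
    apply Equiv.Perm.ext
    intro j
    rcases h j with h1 | h1
    · rw [h1]
      rfl
    · exact absurd ⟨j, h1⟩ hex

end DCYC

theorem det_cyc {R ι : Type} [CommRing R] [Fintype ι] [DecidableEq ι] (c : Equiv.Perm ι)
    (hc : c.IsCycle) (hs : c.support = univ) (M : Matrix ι ι R)
    (h : ∀ i j, j ≠ i → j ≠ c i → M i j = 0) :
    M.det = ∏ i, M i i - (-1) ^ Fintype.card ι * ∏ i, M i (c i) := by
  rw [← Matrix.det_transpose, Matrix.det_apply']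
  have h1c : (1 : Equiv.Perm ι) ≠ c := fun h => hc.ne_one h.symm
  have h2 : ∑ σ : Equiv.Perm ι, ((Equiv.Perm.sign σ : ℤ) : R) * ∏ i, M.transpose (σ i) i =
      ((Equiv.Perm.sign (1 : Equiv.Perm ι) : ℤ) : R) *
        ∏ i, M.transpose ((1 : Equiv.Perm ι) i) i +
      ((Equiv.Perm.sign c : ℤ) : R) * ∏ i, M.transpose (c i) i := by
    apply Finset.sum_eq_add (1 : Equiv.Perm ι) c h1c
    · rintro σ - ⟨hσ1, hσ2⟩
      have h3 : ∃ i, σ i ≠ i ∧ σ i ≠ c i := by
        by_contra hcon
        push Not at hcon
        rcases DCYC.key c hc hs σ (fun i => by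
          by_cases hi : σ i = i
          · exact Or.inl hi
          · exact Or.inr (hcon i hi)) with h4 | h4
        · exact hσ1 h4
        · exact hσ2 h4
      obtain ⟨i, hi1, hi2⟩ := h3
      rw [Finset.prod_eq_zero (mem_univ i), mul_zero]
      exact h i (σ i) hi1 hi2
    · intro h4
      exact absurd (mem_univ _) h4
    · intro h4
      exact absurd (mem_univ _) h4
  rw [h2, Equiv.Perm.sign_one, hc.sign, hs, Finset.card_univ]
  simp only [Matrix.transpose_apply, Equiv.Perm.coe_one, id_eq, Units.val_one, Int.cast_one,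
    one_mul, Units.val_neg, Units.val_pow_eq_pow_val, Int.cast_neg, Int.cast_pow]
  ring

theorem det_degree {Ω : Type} {m : ℕ} (M : Matrix (Fin m) (Fin m) (MvPolynomial Ω ℤ)) (d : ℕ)
    (h : ∀ i j, (M i j).totalDegree ≤ d) : M.det.totalDegree ≤ d * m := by
  rw [Matrix.det_apply]
  refine totalDegree_finsetSum_le fun σ _ => ?_
  rw [Units.smul_def]
  refine (totalDegree_smul_le _ _).trans ?_
  refine (totalDegree_finsetProd _ _).trans ?_
  refine (Finset.sum_le_card_nsmul _ _ d fun i _ => h _ _).trans ?_
  rw [Finset.card_univ, Fintype.card_fin, smul_eq_mul, mul_comm]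

end Pool.Agent.H870R2.PC
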