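import Pool.Agent.H870R2.LS.ZDefs

set_option autoImplicit false
set_option linter.unusedSectionVars false

/-! Polynomial matrices as inputs of networks. -/

namespace Pool.Agent.H870R2.PC

open Finset BigOperators H522R2.LS MvPolynomial

/-- The inputs of a network that reads an `m × m` matrix of integer polynomials in the variables `Ω`:
`((i, j), μ, s)` is the coefficient of the monomial `μ` in the entry `(i, j)` if `s = true` (and the
coefficient is positive), minus the coefficient if `s = false` (and the coefficient is negative). -/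
abbrev Ent (Ω : Type) (m : ℕ) : Type := (Fin m × Fin m) × (Ω →₀ ℕ) × Bool

/-- The input numbers of the matrix `M`. -/
noncomputable def cof {Ω : Type} {m : ℕ} (M : Matrix (Fin m) (Fin m) (MvPolynomial Ω ℤ))
    (q : Ent Ω m) : ℕ :=
  if q.2.2 = true then (coeff q.2.1 (M q.1.1 q.1.2)).toNat
  else (-coeff q.2.1 (M q.1.1 q.1.2)).toNat

/-- A permutation of the variables acts on the inputs (rows and columns stay). -/
noncomputable def entMap {Ω : Type} {m : ℕ} (g : Equiv.Perm Ω) (q : Ent Ω m) : Ent Ω m :=
  (q.1, q.2.1.mapDomain g, q.2.2)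

/-- The inputs of a randomised network: the matrix, and a number for each variable. -/
noncomputable def coinE {Ω : Type} {m : ℕ} (M : Matrix (Fin m) (Fin m) (MvPolynomial Ω ℤ))
    (a : Ω → ℕ) : Ent Ω m ⊕ Ω → ℕ := Sum.elim (cof M) a

/-- A permutation of the variables moves the numbers, too. -/
noncomputable def coinMapE {Ω : Type} {m : ℕ} (g : Equiv.Perm Ω) : Ent Ω m ⊕ Ω → Ent Ω m ⊕ Ω :=
  Sum.map (entMap g) g

end Pool.Agent.H870R2.PC
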