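import Pool.Agent.H870R2.LS.DMain

set_option autoImplicit false
set_option linter.unusedSectionVars false

/-! Locally symmetric networks for the singularity of polynomial matrices. -/

namespace Pool.Agent.H870R2.PC

open Finset BigOperators H522R2.LS MvPolynomial

variable {K Ω σ : Type} [Fintype Ω] [DecidableEq Ω] {N m : ℕ} {Δ : Type} [Fintype Δ] [DecidableEq Δ]
  (A : Act Ω σ)

/-- the group of the block permutations under which the circuit is symmetric -/
def symG6 {N : ℕ} {Δ : Type} [Fintype Δ] [DecidableEq Δ] (e : Pos4 N Δ ≃ Ω) (C : PNet (σ) K) :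
    Subgroup (Ix4 N → A4) where
  carrier := {g | C.SymmUnder (A.act (FF6 e g))}
  one_mem' := by
    show C.SymmUnder _
    exact ⟨1, by rw [FF6_one, A.one]; exact PNet.IsAut.one C⟩
  mul_mem' := by
    intro g g' h h'
    have h1 : C.SymmUnder (A.act (FF6 e g)) := h
    have h2 : C.SymmUnder (A.act (FF6 e g')) := h'
    obtain ⟨p, hp⟩ := h1
    obtain ⟨q, hq⟩ := h2
    show C.SymmUnder _
    exact ⟨p * q, by rw [FF6_mul, A.mul]; exact hp.mul hq⟩
  inv_mem' := by
    intro g h
    have h1 : C.SymmUnder (A.act (FF6 e g)) := h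
    obtain ⟨p, hp⟩ := h1
    show C.SymmUnder _
    refine ⟨p⁻¹, hp.inv ?_⟩
    intro x
    have h1 : A.act (FF6 e g⁻¹) (A.act (FF6 e g) x) = A.act (FF6 e g⁻¹ * FF6 e g) x := (A.mul' _ _ _).symm
    rw [h1, ← FF6_mul, inv_mul_cancel, FF6_one, A.one']

theorem setup6 {r : ℕ} (β : Fin r × Fin 4 ↪ Ω) (J : Ix4 N ↪ Fin r)
    (e : Pos4 N {x : Ω // ∀ v a, β (J v, a) ≠ x} ≃ Ω)
    (he1 : ∀ i s a, e (.cw i s a) = β (J (i, s), a)) (he3 : ∀ δ, e (.dum δ) = δ.1)
    (C : PNet (σ) K)
    (hsym : ∀ (v : Fin r) (x y z : Fin 4), x ≠ y → y ≠ z → x ≠ z →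
      C.SymmUnder (A.act (cyc (β (v, x)) (β (v, y)) (β (v, z))))) (g : Ix4 N → A4) :
    C.SymmUnder (A.act (FF6 e g)) := by
  classical
  have hall : ∀ (g : Ix4 N → A4), g ∈ symG6 A e C := by
    intro g
    apply Subgroup.pi_mem_of_mulSingle_mem
    intro v
    obtain ⟨a, ha⟩ := g v
    induction ha using Subgroup.closure_induction with
    | mem a ha' =>
      obtain ⟨x, y, z, h1, h2, h3, rfl⟩ := ha'
      show C.SymmUnder (A.act (FF6 e (Pi.mulSingle v ⟨cyc x y z, _⟩)))
      have key : FF6 e (Pi.mulSingle v ⟨cyc x y z, Subgroup.subset_closure ⟨x, y, z, h1, h2, h3, rfl⟩⟩)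
          = cyc (β (J (v), x)) (β (J (v), y)) (β (J (v), z)) := by
        ext w
        obtain ⟨p, rfl⟩ := e.surjective w
        unfold FF6
        rw [Equiv.permCongr_apply, Equiv.symm_apply_apply]
        rcases p with ⟨i, s, b⟩ | δ
        · by_cases hv : (i, s) = v
          · subst hv
            have hf : Function.Injective (fun a : Fin 4 => β (J ((i, s)), a)) := by
              intro a a' haa
              have := β.injective haa
              exact (Prod.mk.inj this).2
            have h4 := cyc_inj (fun a : Fin 4 => β (J ((i, s)), a)) hf x y z b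
            show e (.cw i s (((Pi.mulSingle (i, s) ⟨cyc x y z, _⟩ : Ix4 N → A4)
              (i, s) : Equiv.Perm (Fin 4)) b)) = _
            rw [Pi.mulSingle_eq_same, he1, he1]
            exact h4.symm
          · have hne : ∀ a : Fin 4, e (.cw i s b) ≠ β (J (v), a) := by
              intro a haa
              rw [he1] at haa
              have h5 := (Prod.mk.inj (β.injective haa)).1
              exact hv (J.injective h5)
            show e (.cw i s (((Pi.mulSingle v ⟨cyc x y z, _⟩ : Ix4 N → A4)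
              (i, s) : Equiv.Perm (Fin 4)) b)) = _
            rw [Pi.mulSingle_eq_of_ne hv, cyc_ne _ _ _ _ (hne x) (hne y) (hne z)]
            rfl
        · have hne : ∀ a : Fin 4, e (.dum δ) ≠ β (J (v), a) := by
            intro a haa
            rw [he3] at haa
            exact δ.2 _ _ haa.symm
          rw [cyc_ne _ _ _ _ (hne x) (hne y) (hne z)]
          rfl
      have h6 := hsym (J (v)) x y z h1 h2 h3
      rw [← key] at h6
      exact h6
    | one =>
      have : (Pi.mulSingle v (⟨1, Subgroup.one_mem _⟩ : A4) : Ix4 N → A4) = 1 := Pi.mulSingle_one v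
      rw [this]
      exact Subgroup.one_mem _
    | mul a b ha hb iha ihb =>
      have e0 : (⟨a * b, Subgroup.mul_mem _ ha hb⟩ : A4) = (⟨a, ha⟩ : A4) * (⟨b, hb⟩ : A4) := rfl
      rw [e0, Pi.mulSingle_mul]
      exact Subgroup.mul_mem _ iha ihb
    | inv a ha iha =>
      have e0 : (⟨a⁻¹, Subgroup.inv_mem _ ha⟩ : A4) = (⟨a, ha⟩ : A4)⁻¹ := rfl
      rw [e0, Pi.mulSingle_inv]
      exact Subgroup.inv_mem _ iha
  exact hall g

omit A in
theorem core_mat {Γ : Type} [Fintype Γ] [Nonempty Γ] (π : Equiv.Perm (Fin N))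
    (hπ : ∀ U : Finset (Fin N), N ≤ 3 * U.card → 3 * U.card ≤ 2 * N →
      N / 60 < (Pool.Agent.Helper600R2.bd (finRotate N) U).card ∨
      N / 60 < (Pool.Agent.Helper600R2.bd π U).card)
    (k : ℕ) (hN : 2 ≤ N) (hk : 480 * k ≤ N) (e : Pos4 N Δ ≃ Ω) (hm : 2 ≤ m)
    (J : Fin N × Fin 3 ↪ Fin m) (C : Γ → PNet (Ent Ω m) K)
    {acc : Γ → Set K}
    (a b : ℕ) (hab : 3 * (a + b) ≤ 2 * Fintype.card Γ)
    (hval1 : ∀ M ∈ CycMat Ω m, M.det = 0 →
      Nat.card {γ // (C γ).val (cof M) (C γ).out ∉ acc γ} ≤ a)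
    (hval2 : ∀ M ∈ CycMat Ω m, M.det ≠ 0 →
      Nat.card {γ // (C γ).val (cof M) (C γ).out ∈ acc γ} ≤ b)
    (hsym : ∀ (γ : Γ) (g : Ix4 N → A4), (C γ).SymmUnder ((entAct Ω m).act (FF6 e g))) :
    ∃ γ, 2 ^ k ≤ Fintype.card (C γ).G := by
  classical
  by_contra hlt
  push Not at hlt
  have hS : ∀ γ, ∃ S : Finset (Fin N), 2 * N < 3 * S.card ∧ ∀ i ∈ S,
      (C γ).val (cof (matO e (rho π) J (tw i))) (C γ).out =
      (C γ).val (cof (matO e (rho π) J (fun _ _ => 0))) (C γ).out := by
    intro γ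
    exact core_eq6 (entAct Ω m) π hπ k hN hk e (C γ) (fun b => cof (matO e (rho π) J b))
      (fun b b' τ hb q => cof_entMap _ _ _ (mat_gauge e (rho π) J b b' τ hb) q)
      (fun i G h1 h2 q hq => mat_local e (rho π) J i G h1 h2 q hq) (hsym γ) (hlt γ)
  choose S hS1 hS2 using hS
  let er0 : Γ → Prop := fun γ =>
    (C γ).val (cof (matO e (rho π) J (fun _ _ => 0))) (C γ).out ∉ acc γ
  let er1 : Γ → Fin N → Prop := fun γ i =>
    (C γ).val (cof (matO e (rho π) J (tw i))) (C γ).out ∈ acc γ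
  have h4 : (matO e (rho π) J (fun _ _ => 0)).det = 0 := by
    rw [det_matO hm]
    exact sub_eq_zero.2 (identity0 e (rho π))
  have h4' : ∀ i, (matO e (rho π) J (tw i)).det ≠ 0 := by
    intro i
    rw [det_matO hm]
    intro h
    exact (not_identity e (rho π) i).2 (sub_eq_zero.1 h)
  have e0 : ∑ γ, (if er0 γ then 1 else 0) ≤ a := by
    have h5 := hval1 _ (matO_mem e (rho π) J (fun _ _ => 0)) h4
    rw [Nat.card_eq_fintype_card, Fintype.card_subtype, Finset.card_filter] at h5
    exact h5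
  have ei : ∀ i, ∑ γ, (if er1 γ i then 1 else 0) ≤ b := by
    intro i
    have h5 := hval2 _ (matO_mem e (rho π) J (tw i)) (h4' i)
    rw [Nat.card_eq_fintype_card, Fintype.card_subtype, Finset.card_filter] at h5
    exact h5
  have hone : ∀ γ i, (if i ∈ S γ then 1 else 0) ≤
      (if er1 γ i then 1 else 0) + (if er0 γ then 1 else 0) := by
    intro γ i
    by_cases hi : i ∈ S γ
    · rw [if_pos hi]
      by_cases h1 : er1 γ i
      · rw [if_pos h1]; omega
      · have h2 : er0 γ := by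
          intro h3
          apply h1
          show (C γ).val (cof (matO e (rho π) J (tw i))) (C γ).out ∈ acc γ
          rw [hS2 γ i hi]
          exact h3
        rw [if_pos h2]; omega
    · rw [if_neg hi]; exact Nat.zero_le _
  have hsum : ∑ γ, (S γ).card ≤ ∑ i : Fin N, (∑ γ, (if er1 γ i then 1 else 0) +
      ∑ γ, (if er0 γ then 1 else 0)) := by
    calc ∑ γ, (S γ).card = ∑ γ, ∑ i : Fin N, (if i ∈ S γ then 1 else 0) := by
          refine Finset.sum_congr rfl (fun γ _ => ?_)
          rw [← Finset.card_filter]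
          congr 1
          ext i
          simp
      _ = ∑ i : Fin N, ∑ γ, (if i ∈ S γ then 1 else 0) := Finset.sum_comm
      _ ≤ _ := by
          refine Finset.sum_le_sum (fun i _ => ?_)
          rw [← Finset.sum_add_distrib]
          exact Finset.sum_le_sum (fun γ _ => hone γ i)
  have hup : ∑ i : Fin N, (∑ γ, (if er1 γ i then 1 else 0) +
      ∑ γ, (if er0 γ then 1 else 0)) ≤ N * (a + b) := by
    calc _ ≤ ∑ _i : Fin N, (a + b) := by
          refine Finset.sum_le_sum (fun i _ => ?_)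
          have := ei i
          omega
      _ = N * (a + b) := by
          rw [Finset.sum_const, Finset.card_univ, Fintype.card_fin, smul_eq_mul]
  have hlow : N * (2 * Fintype.card Γ) < 3 * ∑ γ, (S γ).card := by
    rw [Finset.mul_sum]
    calc N * (2 * Fintype.card Γ) = ∑ _γ : Γ, 2 * N := by
          rw [Finset.sum_const, Finset.card_univ, smul_eq_mul]; ring
      _ < _ := Finset.sum_lt_sum_of_nonempty Finset.univ_nonempty (fun γ _ => hS1 γ)
  have hfin : N * (3 * (a + b)) ≤ N * (2 * Fintype.card Γ) := Nat.mul_le_mul_left _ hab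
  have h7 : N * (3 * (a + b)) = 3 * (N * (a + b)) := by ring
  omega

omit A in
theorem lower_mat {Γ : Type} [Fintype Γ] [Nonempty Γ] {r : ℕ} (β : Fin r × Fin 4 ↪ Ω)
    (hrm : 3 * (r / 2) ≤ m)
    (C : Γ → PNet (Ent Ω m) K) {acc : Γ → Set K}
    (a b : ℕ) (hab : 3 * (a + b) ≤ 2 * Fintype.card Γ)
    (hval1 : ∀ M ∈ CycMat Ω m, M.det = 0 →
      Nat.card {γ // (C γ).val (cof M) (C γ).out ∉ acc γ} ≤ a)
    (hval2 : ∀ M ∈ CycMat Ω m, M.det ≠ 0 →
      Nat.card {γ // (C γ).val (cof M) (C γ).out ∈ acc γ} ≤ b)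
    (hsym : ∀ (γ : Γ) (v : Fin r) (x y z : Fin 4), x ≠ y → y ≠ z → x ≠ z →
      (C γ).SymmUnder (entMap (cyc (β (v, x)) (β (v, y)) (β (v, z))))) :
    ∃ γ, 2 ^ (r / 960) ≤ Fintype.card (C γ).G := by
  classical
  by_cases hN : r / 2 < 480
  · have : r / 960 = 0 := by omega
    obtain ⟨γ⟩ := ‹Nonempty Γ›
    refine ⟨γ, ?_⟩
    rw [this, pow_zero]
    exact Fintype.card_pos_iff.mpr ⟨(C γ).out⟩
  · push Not at hN
    obtain ⟨N, hNdef⟩ : ∃ N, N = r / 2 := ⟨_, rfl⟩
    rw [← hNdef] at hN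
    obtain ⟨π, hπ⟩ := Pool.Agent.Helper600R2.exists_expander (n := N) (by omega)
    have hcard : Fintype.card (Ix4 N) ≤ Fintype.card (Fin r) := by
      simp only [Fintype.card_prod, Fintype.card_fin, Fintype.card_bool]
      omega
    obtain ⟨J⟩ := Function.Embedding.nonempty_of_card_le hcard
    obtain ⟨e, he1, he3⟩ := exists_equiv5 β J
    have hcard2 : Fintype.card (Fin N × Fin 3) ≤ Fintype.card (Fin m) := by
      simp only [Fintype.card_prod, Fintype.card_fin]
      omega
    obtain ⟨J2⟩ := Function.Embedding.nonempty_of_card_le hcard2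
    exact core_mat π hπ (r / 960) (by omega) (by omega) e (by omega) J2 C a b hab hval1 hval2
      (fun γ => setup6 (entAct Ω m) β J e he1 he3 (C γ) (hsym γ))

end Pool.Agent.H870R2.PC
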