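import Pool.Agent.H870R2.LS.ZCnt

set_option autoImplicit false
set_option linter.unusedSectionVars false

/-! Which of the instances are identities. -/

namespace Pool.Agent.H870R2.PC

open Finset BigOperators H522R2.LS MvPolynomial

variable {Ω : Type} [Fintype Ω] [DecidableEq Ω] {N : ℕ} {Δ : Type} [Fintype Δ] [DecidableEq Δ]

/-- the input of the instance -/
noncomputable def w5 (ρ : Fin 3 → Equiv.Perm (Fin N)) (b : Fin N → Fin 3 → ZMod 2)
    (q : Fac (Pos4 N Δ)) : ℕ := cnt (instM ρ b) q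

/-- transport to the positions -/
noncomputable def facTr (e : Pos4 N Δ ≃ Ω) (q : Fac Ω) : Fac (Pos4 N Δ) :=
  (q.1, rename e.symm q.2)

/-- the instance with variables in `Ω` -/
noncomputable def instO (e : Pos4 N Δ ≃ Ω) (ρ : Fin 3 → Equiv.Perm (Fin N))
    (b : Fin N → Fin 3 → ZMod 2) (s : Bool) : Multiset (MvPolynomial Ω ℤ) :=
  (instM ρ b s).map (rename e)

theorem cnt_instO (e : Pos4 N Δ ≃ Ω) (ρ : Fin 3 → Equiv.Perm (Fin N))
    (b : Fin N → Fin 3 → ZMod 2) : cnt (instO e ρ b) = fun q => w5 ρ b (facTr e q) := by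
  funext q
  obtain ⟨s, p⟩ := q
  have h1 : rename e (rename e.symm p) = p := by
    rw [rename_rename]
    have : (e : Pos4 N Δ → Ω) ∘ e.symm = id := by funext x; simp
    rw [this, rename_id_apply]
  have h2 := cnt_rename_gen e e.injective (instM ρ b) (instO e ρ b) s (rename e.symm p)
    (by unfold instO; rfl)
  rw [h1] at h2
  rw [h2]
  unfold w5 facTr
  rfl

/-- effect of a gauge transformation on the factors -/
theorem act_pt (τ : Fin N → Bool → Fin 3) (i : Fin N) (s : Bool) :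
    (act4 (Δ := Δ) (fun v => flp (τ v.1 v.2))) ∘ pt i s = pt i s ∘ flp (τ i s) := rfl

theorem gE_gauge (ρ : Fin 3 → Equiv.Perm (Fin N)) (b b' : Fin N → Fin 3 → ZMod 2)
    (τ : Fin N → Bool → Fin 3)
    (hb : ∀ i t, b i t = b' i t + fl (τ i false) t + fl (τ (ρ t i) true) t) (p : Fin N × Fin 3) :
    rename (act4 (Δ := Δ) (fun v => flp (τ v.1 v.2))) (gE ρ b p) = gE ρ b' p := by
  unfold gE
  rw [map_mul, map_mul, rename_C, rename_dl, rename_dl, act_pt, act_pt, dl_flp, dl_flp]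
  have h1 : sg (b p.1 p.2) * sg (fl (τ p.1 false) p.2) * sg (fl (τ (ρ p.2 p.1) true) p.2) =
      sg (b' p.1 p.2) := by
    rw [hb, sg_add, sg_add]
    have : ∀ x y z : ZMod 2, sg x * sg y * sg z * sg y * sg z = sg x := by decide
    exact this _ _ _
  rw [← h1, C_mul, C_mul]
  ring

theorem gV_gauge (τ : Fin N → Bool → Fin 3) (p : Fin N × Bool) :
    rename (act4 (Δ := Δ) (fun v => flp (τ v.1 v.2))) (gV p) = gV p := by
  unfold gV
  rw [rename_cub, act_pt, cub_eq, cub_eq]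
  simp only [dl_flp]
  rw [Finset.prod_mul_distrib]
  have h1 : ∏ t, (C (sg (fl (τ p.1 p.2) t)) : MvPolynomial (Pos4 N Δ) ℤ) = 1 := by
    rw [← map_prod]
    have : ∀ τ : Fin 3, ∏ t, sg (fl τ t) = 1 := by decide
    rw [this, C_1]
  rw [h1, one_mul]

theorem instM_gauge (ρ : Fin 3 → Equiv.Perm (Fin N)) (b b' : Fin N → Fin 3 → ZMod 2)
    (τ : Fin N → Bool → Fin 3)
    (hb : ∀ i t, b i t = b' i t + fl (τ i false) t + fl (τ (ρ t i) true) t) (s : Bool) :
    (instM (Δ := Δ) ρ b s).map (rename (act4 (Δ := Δ) (fun v => flp (τ v.1 v.2)))) =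
      instM ρ b' s := by
  unfold instM
  cases s
  · rw [if_neg (by decide), if_neg (by decide), Multiset.map_map]
    refine Multiset.map_congr rfl (fun p _ => ?_)
    exact gV_gauge τ p
  · rw [if_pos rfl, if_pos rfl, Multiset.map_map]
    refine Multiset.map_congr rfl (fun p _ => ?_)
    exact gE_gauge ρ b b' τ hb p

theorem w5_gauge (ρ : Fin 3 → Equiv.Perm (Fin N)) (b b' : Fin N → Fin 3 → ZMod 2)
    (τ : Fin N → Bool → Fin 3)
    (hb : ∀ i t, b i t = b' i t + fl (τ i false) t + fl (τ (ρ t i) true) t)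
    (q : Fac (Pos4 N Δ)) :
    w5 ρ b' (facMap (act4 (fun v => flp (τ v.1 v.2))) q) = w5 ρ b q := by
  obtain ⟨s, p⟩ := q
  unfold w5 facMap
  exact cnt_rename_gen _ (Equiv.injective _) (instM ρ b) (instM ρ b') s p
    (instM_gauge (Δ := Δ) ρ b b' τ hb s).symm

theorem prod_false (ρ : Fin 3 → Equiv.Perm (Fin N)) (b : Fin N → Fin 3 → ZMod 2) :
    (instM (Δ := Δ) ρ b false).prod = ∏ p : Fin N × Bool, (gV p : MvPolynomial (Pos4 N Δ) ℤ) := by
  unfold instM
  rw [if_neg (by decide)]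
  exact Finset.prod_map_val _ _

theorem prod_true (ρ : Fin 3 → Equiv.Perm (Fin N)) (b : Fin N → Fin 3 → ZMod 2) :
    (instM (Δ := Δ) ρ b true).prod =
      ∏ p : Fin N × Fin 3, (gE ρ b p : MvPolynomial (Pos4 N Δ) ℤ) := by
  unfold instM
  rw [if_pos rfl]
  exact Finset.prod_map_val _ _

theorem prod_gV : ∏ p : Fin N × Bool, (gV p : MvPolynomial (Pos4 N Δ) ℤ) =
    (∏ i : Fin N, ∏ t : Fin 3, dl (pt i false) t) * (∏ i : Fin N, ∏ t : Fin 3, dl (pt i true) t) := by
  rw [Fintype.prod_prod_type, ← Finset.prod_mul_distrib]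
  refine Finset.prod_congr rfl (fun i _ => ?_)
  rw [Fintype.prod_bool]
  unfold gV
  rw [cub_eq, cub_eq, mul_comm]

theorem prod_gE (ρ : Fin 3 → Equiv.Perm (Fin N)) (b : Fin N → Fin 3 → ZMod 2) :
    ∏ p : Fin N × Fin 3, (gE ρ b p : MvPolynomial (Pos4 N Δ) ℤ) =
    C (∏ p : Fin N × Fin 3, sg (b p.1 p.2)) *
      ((∏ i : Fin N, ∏ t : Fin 3, dl (pt i false) t) *
        (∏ i : Fin N, ∏ t : Fin 3, dl (pt i true) t)) := by
  have hA : ∏ p : Fin N × Fin 3, (dl (pt p.1 false) p.2 : MvPolynomial (Pos4 N Δ) ℤ) =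
      ∏ i : Fin N, ∏ t : Fin 3, dl (pt i false) t := Fintype.prod_prod_type _
  have hB : ∏ p : Fin N × Fin 3, (dl (pt (ρ p.2 p.1) true) p.2 : MvPolynomial (Pos4 N Δ) ℤ) =
      ∏ i : Fin N, ∏ t : Fin 3, dl (pt i true) t := by
    rw [Fintype.prod_prod_type, Finset.prod_comm]
    rw [Finset.prod_comm (f := fun (i : Fin N) (t : Fin 3) =>
      (dl (pt i true) t : MvPolynomial (Pos4 N Δ) ℤ))]
    refine Finset.prod_congr rfl (fun t _ => ?_)
    exact Equiv.prod_comp (ρ t) (fun i => (dl (pt i true) t : MvPolynomial (Pos4 N Δ) ℤ))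
  have hC : ∏ p : Fin N × Fin 3, (C (sg (b p.1 p.2)) : MvPolynomial (Pos4 N Δ) ℤ) =
      C (∏ p : Fin N × Fin 3, sg (b p.1 p.2)) := (map_prod C _ _).symm
  unfold gE
  rw [Finset.prod_mul_distrib, Finset.prod_mul_distrib, hA, hB, hC, mul_assoc]

/-- the product of the factors of the edges -/
theorem prod_instM (ρ : Fin 3 → Equiv.Perm (Fin N)) (b : Fin N → Fin 3 → ZMod 2) :
    (instM (Δ := Δ) ρ b true).prod = C (∏ p : Fin N × Fin 3, sg (b p.1 p.2)) *
      (instM ρ b false).prod := by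
  rw [prod_true, prod_false, prod_gV, prod_gE]

theorem pt_inj (i : Fin N) (s : Bool) : Function.Injective (pt i s : Fin 4 → Pos4 N Δ) := by
  intro a a' h
  have h' : (Pos4.cw i s a : Pos4 N Δ) = .cw i s a' := h
  simpa using h'

theorem prod_false_ne (ρ : Fin 3 → Equiv.Perm (Fin N)) (b : Fin N → Fin 3 → ZMod 2) :
    (instM (Δ := Δ) ρ b false).prod ≠ 0 := by
  rw [prod_false, Finset.prod_ne_zero_iff]
  intro p _
  unfold gV
  rw [cub_eq, Finset.prod_ne_zero_iff]
  intro t _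
  exact dl_ne _ (pt_inj _ _) t

theorem gE_ne (ρ : Fin 3 → Equiv.Perm (Fin N)) (b : Fin N → Fin 3 → ZMod 2) (p : Fin N × Fin 3) :
    (gE ρ b p : MvPolynomial (Pos4 N Δ) ℤ) ≠ 0 := by
  unfold gE
  have h : ∀ x : ZMod 2, sg x ≠ 0 := by decide
  refine mul_ne_zero (mul_ne_zero ?_ (dl_ne _ (pt_inj _ _) _)) (dl_ne _ (pt_inj _ _) _)
  rw [Ne, C_eq_zero]
  exact h _

/-- the sign of the instance -/
theorem prod_instO (e : Pos4 N Δ ≃ Ω) (ρ : Fin 3 → Equiv.Perm (Fin N))
    (b : Fin N → Fin 3 → ZMod 2) :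
    (instO e ρ b true).prod = C (∏ p : Fin N × Fin 3, sg (b p.1 p.2)) * (instO e ρ b false).prod := by
  have h1 : ∀ s, (instO e ρ b s).prod = rename e (instM ρ b s).prod := by
    intro s
    unfold instO
    exact (map_multiset_prod (rename e) (instM ρ b s)).symm
  rw [h1, h1, prod_instM, map_mul, rename_C]

theorem prod_instO_ne (e : Pos4 N Δ ≃ Ω) (ρ : Fin 3 → Equiv.Perm (Fin N))
    (b : Fin N → Fin 3 → ZMod 2) : (instO e ρ b false).prod ≠ 0 := by
  have h1 : (instO e ρ b false).prod = rename e (instM ρ b false).prod := by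
    unfold instO
    exact (map_multiset_prod (rename e) (instM ρ b false)).symm
  rw [h1]
  intro h
  apply prod_false_ne (Δ := Δ) ρ b
  apply rename_injective e e.injective
  rw [map_zero]
  exact h

theorem sg_zero_all (i : Fin N) : ∏ p : Fin N × Fin 3, sg (tw i p.1 p.2) = -1 := by
  rw [Finset.prod_eq_single (i, 0)]
  · show sg (if i = i ∧ (0 : Fin 3) = 0 then 1 else 0) = -1
    rw [if_pos ⟨rfl, rfl⟩]
    rfl
  · rintro ⟨k, t⟩ _ hne
    show sg (if k = i ∧ t = 0 then 1 else 0) = 1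
    rw [if_neg (fun h => hne (by rw [h.1, h.2]))]
    rfl
  · intro h; exact absurd (Finset.mem_univ _) h

theorem not_identity (e : Pos4 N Δ ≃ Ω) (ρ : Fin 3 → Equiv.Perm (Fin N)) (i : Fin N) :
    (instO e ρ (tw i) true).prod = -(instO e ρ (tw i) false).prod ∧
      ¬ Identity (instO e ρ (tw i)) := by
  have h1 := prod_instO e ρ (tw i)
  rw [sg_zero_all] at h1
  have h2 : (instO e ρ (tw i) true).prod = -(instO e ρ (tw i) false).prod := by
    rw [h1]
    simp
  refine ⟨h2, fun h => ?_⟩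
  unfold Identity at h
  rw [h2] at h
  have h3 : (2 : MvPolynomial Ω ℤ) * (instO e ρ (tw i) false).prod = 0 := by
    rw [two_mul]
    nth_rewrite 1 [← h]
    rw [neg_add_cancel]
  rcases mul_eq_zero.1 h3 with h4 | h4
  · exact two_ne_zero h4
  · exact prod_instO_ne e ρ (tw i) h4

theorem identity0 (e : Pos4 N Δ ≃ Ω) (ρ : Fin 3 → Equiv.Perm (Fin N)) :
    Identity (instO e ρ (fun _ _ => 0)) := by
  unfold Identity
  rw [prod_instO]
  have : ∏ p : Fin N × Fin 3, sg 0 = 1 := Finset.prod_eq_one (fun _ _ => rfl)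
  rw [this, C_1, one_mul]

/-- only the factor of the edge `(i, 0)` can have different multiplicities -/
theorem w5_diff (ρ : Fin 3 → Equiv.Perm (Fin N)) (i : Fin N) (q : Fac (Pos4 N Δ))
    (h : ∀ b : Fin N → Fin 3 → ZMod 2, q.2 ≠ gE ρ b (i, 0)) :
    w5 ρ (tw i) q = w5 ρ (fun _ _ => 0) q := by
  obtain ⟨s, q⟩ := q
  unfold w5
  cases s
  · apply cnt_congr
    show instM ρ (tw i) false = instM ρ (fun _ _ => 0) false
    unfold instM
    rw [if_neg (by decide), if_neg (by decide)]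
  · refine cnt_map_congr_gen (instM ρ (tw i)) (instM ρ (fun _ _ => 0)) true
      (univ : Finset (Fin N × Fin 3)).val (gE ρ (tw i)) (gE ρ (fun _ _ => 0)) q
      (by unfold instM; rw [if_pos rfl]) (by unfold instM; rw [if_pos rfl]) (fun p _ => ?_)
    by_cases hp : p = (i, 0)
    · subst hp
      exact ⟨fun h' => absurd h' (h _), fun h' => absurd h' (h _)⟩
    · have h1 : tw i p.1 p.2 = 0 := if_neg (fun hh => hp (Prod.ext hh.1 hh.2))
      unfold gE
      rw [h1]

/-- the move of type `1` at the left end changes the sign of the factor of the edge `(i, 0)` -/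
theorem gE_neg (ρ : Fin 3 → Equiv.Perm (Fin N)) (b : Fin N → Fin 3 → ZMod 2) (i : Fin N)
    (G : Ix4 N → Equiv.Perm (Fin 4)) (h1 : G (i, false) = flp 1) (h2 : ∀ j, G (j, true) = 1) :
    rename (act4 (Δ := Δ) G) (gE ρ b (i, 0)) = - gE ρ b (i, 0) := by
  have e1 : (act4 (Δ := Δ) G) ∘ pt i false = pt i false ∘ flp 1 := by
    rw [← h1]
    rfl
  have e2 : ∀ j, (act4 (Δ := Δ) G) ∘ pt j true = pt j true := by
    intro j
    funext a
    show Pos4.cw j true (G (j, true) a) = Pos4.cw j true a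
    rw [h2]
    rfl
  unfold gE
  rw [map_mul, map_mul, rename_C, rename_dl, rename_dl, e1, e2, dl_flp]
  have e3 : sg (fl 1 0) = -1 := by decide
  rw [e3]
  simp only [map_neg, C_1]
  ring

end Pool.Agent.H870R2.PC
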