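import Pool.Agent.H870R2.LS.YEval
import Pool.Agent.H870R2.LS.ZEval

set_option autoImplicit false
set_option linter.unusedSectionVars false

/-! Locally symmetric networks cannot tell the twisted instances from the untwisted one: general form. -/

namespace Pool.Agent.H870R2.PC

open Finset BigOperators H522R2.LS MvPolynomial

/-- an action of the permutations of `Ω` on the inputs -/
structure Act (Ω σ : Type) where
  act : Equiv.Perm Ω → σ → σ
  one : act 1 = id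
  mul : ∀ g h, act (g * h) = act g ∘ act h

variable {K Ω σ : Type} [Fintype Ω] [DecidableEq Ω] {N : ℕ} {Δ : Type} [Fintype Δ] [DecidableEq Δ]
  (A : Act Ω σ)

omit [Fintype Ω] [DecidableEq Ω] in
theorem Act.one' (q : σ) : A.act 1 q = q := congrFun A.one q

omit [Fintype Ω] [DecidableEq Ω] in
theorem Act.mul' (g h : Equiv.Perm Ω) (q : σ) : A.act (g * h) q = A.act g (A.act h q) :=
  congrFun (A.mul g h) q

/-- the permutation of `Ω` given by even permutations of the blocks -/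
def FF6 (e : Pos4 N Δ ≃ Ω) (g : Ix4 N → A4) : Equiv.Perm Ω :=
  e.permCongr (act4 (fun v => (g v : Equiv.Perm (Fin 4))))

theorem FF6_one (e : Pos4 N Δ ≃ Ω) : FF6 e 1 = 1 := by
  have h : act4 (Δ := Δ) (fun v : Ix4 N => ((1 : Ix4 N → A4) v : Equiv.Perm (Fin 4))) = 1 :=
    act4_one
  unfold FF6
  rw [h]
  ext x
  simp [Equiv.permCongr_apply]

theorem FF6_mul (e : Pos4 N Δ ≃ Ω) (g h : Ix4 N → A4) : FF6 e (g * h) = FF6 e g * FF6 e h := by
  have h1 : act4 (Δ := Δ) (fun v : Ix4 N => ((g * h) v : Equiv.Perm (Fin 4)))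
      = act4 (fun v => (g v : Equiv.Perm (Fin 4))) * act4 (fun v => (h v : Equiv.Perm (Fin 4))) :=
    act4_mul _ _
  unfold FF6
  rw [h1]
  ext x
  simp [Equiv.permCongr_apply]

/-- the permutations fixing a gate -/
def SS6 (e : Pos4 N Δ ≃ Ω) (C : PNet (σ) K) (h : C.G) : Subgroup (Ix4 N → A4) where
  carrier := {g | ∃ p, C.IsAut p (A.act (FF6 e g)) ∧ p h = h}
  one_mem' := ⟨1, by rw [FF6_one, A.one]; exact PNet.IsAut.one C, rfl⟩
  mul_mem' := by
    rintro g g' ⟨p, hp, hp'⟩ ⟨q, hq, hq'⟩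
    refine ⟨p * q, ?_, ?_⟩
    · rw [FF6_mul, A.mul]; exact hp.mul hq
    · rw [Equiv.Perm.mul_apply, hq', hp']
  inv_mem' := by
    rintro g ⟨p, hp, hp'⟩
    refine ⟨p⁻¹, hp.inv ?_, ?_⟩
    · intro x
      have h1 : A.act (FF6 e g⁻¹) (A.act (FF6 e g) x) = A.act (FF6 e g⁻¹ * FF6 e g) x := (A.mul' _ _ _).symm
      rw [h1, ← FF6_mul, inv_mul_cancel, FF6_one, A.one']
    · rw [Equiv.Perm.inv_eq_iff_eq, hp']

theorem mem_SS6 (e : Pos4 N Δ ≃ Ω) (C : PNet (σ) K) (h : C.G) (g : Ix4 N → A4) :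
    g ∈ SS6 A e C h ↔ ∃ p, C.IsAut p (A.act (FF6 e g)) ∧ p h = h := Iff.rfl

open Classical in
/-- the bad blocks of a gate -/
noncomputable def II6 (e : Pos4 N Δ ≃ Ω) (C : PNet (σ) K) (h : C.G) : Finset (Ix4 N) :=
  univ.filter (fun v => ¬ ∀ a b : A4, Pi.mulSingle v (a * b * a⁻¹ * b⁻¹) ∈ SS6 A e C h)

theorem notMem_II6 (e : Pos4 N Δ ≃ Ω) (C : PNet (σ) K) (h : C.G) (v : Ix4 N) :
    v ∉ II6 A e C h ↔ ∀ a b : A4, Pi.mulSingle v (a * b * a⁻¹ * b⁻¹) ∈ SS6 A e C h := by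
  unfold II6
  simp

theorem isAut_inv6 (e : Pos4 N Δ ≃ Ω) (C : PNet (σ) K) (g : Ix4 N → A4) (p : Equiv.Perm C.G)
    (hp : C.IsAut p (A.act (FF6 e g))) : C.IsAut p⁻¹ (A.act (FF6 e g⁻¹)) := by
  refine hp.inv ?_
  intro x
  have h1 : A.act (FF6 e g⁻¹) (A.act (FF6 e g) x) = A.act (FF6 e g⁻¹ * FF6 e g) x := (A.mul' _ _ _).symm
  rw [h1, ← FF6_mul, inv_mul_cancel, FF6_one, A.one']

theorem II_sub6 (e : Pos4 N Δ ≃ Ω) (C : PNet (σ) K) (h : C.G) (g : Ix4 N → A4) (p : Equiv.Perm C.G)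
    (hp : C.IsAut p (A.act (FF6 e g))) : II6 A e C (p h) ⊆ II6 A e C h := by
  intro v hv
  by_contra hcon
  apply (notMem_II6 A e C (p h) v).mpr _ hv
  rw [notMem_II6] at hcon
  intro a b
  have h1 := hcon ((g v)⁻¹ * a * g v) ((g v)⁻¹ * b * g v)
  obtain ⟨q, hq, hqh⟩ := h1
  have h2 : Pi.mulSingle v (a * b * a⁻¹ * b⁻¹) = g * Pi.mulSingle v
      (((g v)⁻¹ * a * g v) * ((g v)⁻¹ * b * g v) * ((g v)⁻¹ * a * g v)⁻¹ * ((g v)⁻¹ * b * g v)⁻¹) * g⁻¹ := by
    funext w
    simp only [Pi.mul_apply, Pi.inv_apply]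
    by_cases hw : w = v
    · subst hw
      rw [Pi.mulSingle_eq_same, Pi.mulSingle_eq_same]
      group
    · rw [Pi.mulSingle_eq_of_ne hw, Pi.mulSingle_eq_of_ne hw]
      group
  rw [h2]
  refine ⟨p * q * p⁻¹, ?_, ?_⟩
  · rw [FF6_mul, FF6_mul, A.mul, A.mul]
    exact (hp.mul hq).mul (isAut_inv6 A e C g p hp)
  · rw [Equiv.Perm.mul_apply, Equiv.Perm.mul_apply]
    have : p⁻¹ (p h) = h := by simp
    rw [this, hqh]

theorem II_inv6 (e : Pos4 N Δ ≃ Ω) (C : PNet (σ) K) (h : C.G) (g : Ix4 N → A4) (p : Equiv.Perm C.G)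
    (hp : C.IsAut p (A.act (FF6 e g))) : II6 A e C (p h) = II6 A e C h := by
  apply Finset.Subset.antisymm (II_sub6 A e C h g p hp)
  have h1 := II_sub6 A e C (p h) g⁻¹ p⁻¹ (isAut_inv6 A e C g p hp)
  have : p⁻¹ (p h) = h := by simp
  rwa [this] at h1

/-- bad vertices -/
noncomputable def DD6 (e : Pos4 N Δ ≃ Ω) (C : PNet (σ) K) (h : C.G) : Finset (Fin N) :=
  (II6 A e C h).image Prod.fst

theorem notMem_DD6 (e : Pos4 N Δ ≃ Ω) (C : PNet (σ) K) (h : C.G) (i : Fin N) (hi : i ∉ DD6 A e C h)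
    (s : Bool) (a b : A4) : Pi.mulSingle (i, s) (a * b * a⁻¹ * b⁻¹) ∈ SS6 A e C h := by
  have : (i, s) ∉ II6 A e C h := by
    intro hm
    exact hi (Finset.mem_image.mpr ⟨_, hm, rfl⟩)
  exact (notMem_II6 A e C h _).mp this a b

theorem card_DD6 (e : Pos4 N Δ ≃ Ω) (C : PNet (σ) K) (hsym : ∀ g : Ix4 N → A4, C.SymmUnder (A.act (FF6 e g)))
    (k : ℕ) (hk : Fintype.card C.G < 2 ^ k) (h : C.G) : (DD6 A e C h).card ≤ 2 * k := by
  classical
  have hsym' : ∀ g : Ix4 N → A4, ∃ p, C.IsAut p (A.act (FF6 e g)) :=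
    fun g => hsym g
  choose q hq using hsym'
  obtain ⟨I, hI, hI2⟩ := support (SS6 A e C h) (fun g => q g h) (by
    intro g g' hgg
    refine ⟨(q g)⁻¹ * q g', ?_, ?_⟩
    · rw [FF6_mul, A.mul]
      exact (isAut_inv6 A e C g (q g) (hq g)).mul (hq g')
    · rw [Equiv.Perm.mul_apply, Equiv.Perm.inv_eq_iff_eq]
      exact hgg.symm) k hk
  refine le_trans Finset.card_image_le (le_trans (Finset.card_le_card ?_) hI)
  intro v hv
  by_contra hcon
  exact (notMem_II6 A e C h v).mpr (hI2 v hcon) hv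

/-- the gauge element of a move from `i` to `j` of type `t` is available -/
theorem move_one6 (e : Pos4 N Δ ≃ Ω) (C : PNet (σ) K) (h : C.G)
    (ρ : Fin 3 → Equiv.Perm (Fin N)) (W : (Fin N → Fin 3 → ZMod 2) → σ → ℕ)
    (hW : ∀ (b b' : Fin N → Fin 3 → ZMod 2) (τ : Fin N → Bool → Fin 3),
      (∀ i t, b i t = b' i t + fl (τ i false) t + fl (τ (ρ t i) true) t) →
      ∀ q, W b' (A.act (e.permCongr (act4 (fun v => flp (τ v.1 v.2)))) q) = W b q) (h0 : ρ 0 = 1) (i j : Fin N) (t : Fin 3) (hij : ρ t i = j)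
    (hi : i ∉ DD6 A e C h) (hj : j ∉ DD6 A e C h) :
    ∃ g ∈ SS6 A e C h, ∀ q : σ, W (tw i) (A.act (FF6 e g) q) = W (tw j) q := by
  classical
  obtain ⟨a, b, hab⟩ := flp_comm t
  obtain ⟨a0, b0, hab0⟩ := flp_comm 0
  have hflp0 : flp 0 = 1 := rfl
  let τ : Fin N → Bool → Fin 3 := fun k s => if s = false then (if k = i then t else 0)
    else (if k = j then t else 0)
  let g : Ix4 N → A4 := fun v => if (v.2 = false ∧ v.1 = i) ∨ (v.2 = true ∧ v.1 = j)
    then a * b * a⁻¹ * b⁻¹ else 1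
  have hg : ∀ v, (g v : Equiv.Perm (Fin 4)) = flp (τ v.1 v.2) := by
    rintro ⟨k, s⟩
    simp only [g, τ]
    cases s
    · by_cases hk : k = i
      · simp only [hk, and_self, true_or, if_true]
        exact hab
      · simp [hk, hflp0]
    · by_cases hk : k = j
      · simp only [hk, and_self, or_true, if_true]
        simpa using hab
      · simp [hk, hflp0]
  refine ⟨g, ?_, ?_⟩
  · apply Subgroup.pi_mem_of_mulSingle_mem
    rintro ⟨k, s⟩
    by_cases hc : (s = false ∧ k = i) ∨ (s = true ∧ k = j)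
    · have : g (k, s) = a * b * a⁻¹ * b⁻¹ := if_pos hc
      rw [this]
      rcases hc with ⟨_, rfl⟩ | ⟨_, rfl⟩
      · exact notMem_DD6 A e C h k hi s a b
      · exact notMem_DD6 A e C h k hj s a b
    · have : g (k, s) = 1 := if_neg hc
      rw [this, Pi.mulSingle_one]
      exact Subgroup.one_mem _
  · intro v
    have hgg : (fun v => (g v : Equiv.Perm (Fin 4))) = (fun v : Ix4 N => flp (τ v.1 v.2)) := funext hg
    unfold FF6
    rw [hgg]
    apply hW
    intro k t'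
    have h2 : τ k false = if k = i then t else 0 := by simp [τ]
    have h3 : τ (ρ t' k) true = if ρ t' k = j then t else 0 := by simp [τ]
    rw [h2, h3]
    exact tw_move ρ h0 i j t hij k t'

theorem move_all6 (e : Pos4 N Δ ≃ Ω) (C : PNet (σ) K) (h : C.G)
    (π : Equiv.Perm (Fin N)) (W : (Fin N → Fin 3 → ZMod 2) → σ → ℕ)
    (hW : ∀ (b b' : Fin N → Fin 3 → ZMod 2) (τ : Fin N → Bool → Fin 3),
      (∀ i t, b i t = b' i t + fl (τ i false) t + fl (τ (rho π t i) true) t) →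
      ∀ q, W b' (A.act (e.permCongr (act4 (fun v => flp (τ v.1 v.2)))) q) = W b q)
    (i j : Fin N) (hij : Relation.EqvGen (adj π (DD6 A e C h)) i j) :
    ∃ g ∈ SS6 A e C h, ∀ v : σ, W (tw i) (A.act (FF6 e g) v) = W (tw j) v := by
  induction hij with
  | rel i j hij =>
    obtain ⟨h1, h2, t, h3⟩ := hij
    exact move_one6 A e C h (rho π) W hW rfl i j t h3 h1 h2
  | refl i =>
    refine ⟨1, Subgroup.one_mem _, fun v => ?_⟩
    rw [FF6_one, A.one']
  | symm i j _ ih =>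
    obtain ⟨g, hg, h1⟩ := ih
    refine ⟨g⁻¹, Subgroup.inv_mem _ hg, fun v => ?_⟩
    rw [← h1]
    have h2 : A.act (FF6 e g) (A.act (FF6 e g⁻¹) v) = v := by
      have : A.act (FF6 e g) (A.act (FF6 e g⁻¹) v) = A.act (FF6 e g * FF6 e g⁻¹) v := (A.mul' _ _ _).symm
      rw [this, ← FF6_mul, mul_inv_cancel, FF6_one, A.one']
    rw [h2]
  | trans i j k _ _ ih1 ih2 =>
    obtain ⟨g, hg, h1⟩ := ih1
    obtain ⟨g', hg', h2⟩ := ih2
    refine ⟨g * g', Subgroup.mul_mem _ hg hg', fun v => ?_⟩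
    rw [FF6_mul, ← h2, ← h1, A.mul']


/-- the core contains more than two thirds of the vertices -/
theorem core_card6 (π : Equiv.Perm (Fin N)) (D : Finset (Fin N)) (h : (core π D).Nonempty) :
    2 * N < 3 * (core π D).card := by
  obtain ⟨i, hi⟩ := h
  have h1 : cls π D i ⊆ core π D := by
    intro j hj
    rw [mem_cls] at hj
    rw [mem_core] at hi ⊢
    have h2 : cls π D i ⊆ cls π D j := by
      intro k hk
      rw [mem_cls] at hk ⊢
      exact Relation.EqvGen.trans _ _ _ (Relation.EqvGen.symm _ _ hj) hk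
    have := Finset.card_le_card h2
    omega
  rw [mem_core] at hi
  have := Finset.card_le_card h1
  omega

/-- **Core.** -/
theorem core_eq6 (π : Equiv.Perm (Fin N))
    (hπ : ∀ U : Finset (Fin N), N ≤ 3 * U.card → 3 * U.card ≤ 2 * N →
      N / 60 < (Pool.Agent.Helper600R2.bd (finRotate N) U).card ∨
      N / 60 < (Pool.Agent.Helper600R2.bd π U).card)
    (k : ℕ) (hN : 2 ≤ N) (hk : 480 * k ≤ N) (e : Pos4 N Δ ≃ Ω) (C : PNet (σ) K)
    (W : (Fin N → Fin 3 → ZMod 2) → σ → ℕ)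
    (hW : ∀ (b b' : Fin N → Fin 3 → ZMod 2) (τ : Fin N → Bool → Fin 3),
      (∀ i t, b i t = b' i t + fl (τ i false) t + fl (τ (rho π t i) true) t) →
      ∀ q, W b' (A.act (e.permCongr (act4 (fun v => flp (τ v.1 v.2)))) q) = W b q)
    (hL : ∀ (i : Fin N) (G : Ix4 N → Equiv.Perm (Fin 4)), G (i, false) = flp 1 →
      (∀ j, G (j, true) = 1) → ∀ q, A.act (e.permCongr (act4 G)) q = q →
      W (tw i) q = W (fun _ _ => 0) q)
    (hsym : ∀ g : Ix4 N → A4, C.SymmUnder (A.act (FF6 e g))) (hlt : Fintype.card C.G < 2 ^ k) :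
    ∃ S : Finset (Fin N), 2 * N < 3 * S.card ∧ ∀ i ∈ S,
      C.val (W (tw i)) C.out = C.val (W (fun _ _ => 0)) C.out := by
  classical
  have hcard := card_DD6 A e C hsym k hlt
  let M : Fin N → σ → ℕ := fun i => W (tw i)
  let M0 : σ → ℕ := W (fun _ _ => 0)
  have hne : ∀ g h, (core π (DD6 A e C g ∪ DD6 A e C h)).Nonempty := by
    intro g h
    apply core_nonempty (by omega) π hπ
    have h1 := Finset.card_union_le (DD6 A e C g) (DD6 A e C h)
    have h2 := hcard g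
    have h3 := hcard h
    omega
  have hgame := pgame C M M0 (DD6 A e C) (core π) hne (fun g h => core_mono π _ _)
    (by
      intro g i hi i' hi'
      obtain ⟨g0, ⟨p, hp, hpg⟩, h1⟩ := move_all6 A e C g π W hW i i' (core_conn π _ i i' hi hi')
      refine ⟨p, _, hp, hpg, ?_, ?_⟩
      · intro h
        unfold DD6
        rw [II_inv6 A e C h g0 p hp]
      · funext v
        exact h1 v)
    (by
      intro g x hx i hi
      have hiD := core_notMem hN π _ i hi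
      obtain ⟨c', d, hcd⟩ := flp_comm 1
      obtain ⟨p, hp, hpg⟩ := notMem_DD6 A e C g i hiD false c' d
      have h2 := hp.inp g
      rw [hpg, hx] at h2
      simp only [Option.map_some, Option.some.injEq] at h2
      refine hL i (fun v => ((Pi.mulSingle (i, false) (c' * d * c'⁻¹ * d⁻¹) : Ix4 N → A4) v :
        Equiv.Perm (Fin 4))) ?_ ?_ x h2.symm
      · show ((Pi.mulSingle (i, false) (c' * d * c'⁻¹ * d⁻¹) : Ix4 N → A4) (i, false) :
          Equiv.Perm (Fin 4)) = flp 1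
        rw [Pi.mulSingle_eq_same, hcd]
      · intro j
        show ((Pi.mulSingle (i, false) (c' * d * c'⁻¹ * d⁻¹) : Ix4 N → A4) (j, true) :
          Equiv.Perm (Fin 4)) = 1
        rw [Pi.mulSingle_eq_of_ne (fun h => by simpa using congrArg Prod.snd h)]
        rfl)
  have hne' := hne C.out C.out
  rw [Finset.union_self] at hne'
  exact ⟨core π (DD6 A e C C.out), core_card6 π _ hne',
    fun i hi => hgame (C.rk C.out) C.out rfl i hi⟩

end Pool.Agent.H870R2.PC
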