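import Pool.Agent.H870R2.LS.ZDefs

set_option autoImplicit false
set_option linter.unusedSectionVars false

/-! Schwartz-Zippel count and the degree of the instances. -/

namespace Pool.Agent.H870R2.PC

open Finset BigOperators MvPolynomial

namespace SZL

theorem count_fin {n : ℕ} (p : MvPolynomial (Fin n) ℤ) (hp : p ≠ 0) (d L : ℕ)
    (hd : p.totalDegree ≤ d) (hL : 0 < L) :
    Nat.card {a : Fin n → Fin L // eval (fun x => ((a x : ℕ) : ℤ)) p = 0} * L ≤
      d * L ^ n := by
  classical
  set S : Finset ℤ := (Finset.range L).image (fun k : ℕ => (k : ℤ)) with hS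
  have hcS : S.card = L := by
    rw [hS, Finset.card_image_of_injective _ Nat.cast_injective, Finset.card_range]
  have h1 := schwartz_zippel_totalDegree hp S
  rw [hcS] at h1
  have hL' : (0 : ℚ≥0) < (L : ℚ≥0) := by exact_mod_cast hL
  have h2 : Nat.card {a : Fin n → Fin L // eval (fun x => ((a x : ℕ) : ℤ)) p = 0} ≤
      (Finset.filter (fun f => eval f p = 0) (Fintype.piFinset fun _ : Fin n => S)).card := by
    rw [Nat.card_eq_fintype_card]
    have : Fintype.card {a : Fin n → Fin L // eval (fun x => ((a x : ℕ) : ℤ)) p = 0} =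
        (Finset.univ.filter (fun a : Fin n → Fin L =>
          eval (fun x => ((a x : ℕ) : ℤ)) p = 0)).card := by
      rw [Fintype.card_subtype]
    rw [this]
    apply Finset.card_le_card_of_injOn (fun a : Fin n → Fin L => fun x => ((a x : ℕ) : ℤ))
    · intro a ha
      rw [Finset.mem_coe, Finset.mem_filter] at ha ⊢
      refine ⟨?_, ha.2⟩
      rw [Fintype.mem_piFinset]
      intro x
      rw [hS, Finset.mem_image]
      exact ⟨a x, Finset.mem_range.2 (a x).isLt, rfl⟩
    · intro a _ a' _ h
      funext x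
      have := congrFun h x
      simp only at this
      exact Fin.ext (by exact_mod_cast this)
  have h3 : ((Finset.filter (fun f => eval f p = 0)
      (Fintype.piFinset fun _ : Fin n => S)).card : ℚ≥0) * L ≤ p.totalDegree * L ^ n := by
    rw [div_le_div_iff₀ (by positivity) hL'] at h1
    exact h1
  have h4 : (Finset.filter (fun f => eval f p = 0)
      (Fintype.piFinset fun _ : Fin n => S)).card * L ≤ p.totalDegree * L ^ n := by
    exact_mod_cast h3
  calc _ ≤ (Finset.filter (fun f => eval f p = 0)
      (Fintype.piFinset fun _ : Fin n => S)).card * L := Nat.mul_le_mul_right _ h2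
    _ ≤ p.totalDegree * L ^ n := h4
    _ ≤ d * L ^ n := Nat.mul_le_mul_right _ hd

theorem deg_X {Ω : Type} (u : Ω) : (X u : MvPolynomial Ω ℤ).totalDegree ≤ 1 := by
  rw [totalDegree_X]

theorem deg_pm {Ω : Type} (a b c d : Ω) (s t r : Bool) :
    ((if s then X a + X b else X a - X b) + (if t then X c else - X c) +
      (if r then X d else - X d) : MvPolynomial Ω ℤ).totalDegree ≤ 1 := by
  refine (totalDegree_add _ _).trans (max_le ((totalDegree_add _ _).trans (max_le ?_ ?_)) ?_)
  · split_ifs
    · exact (totalDegree_add _ _).trans (max_le (deg_X a) (deg_X b))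
    · exact (totalDegree_sub _ _).trans (max_le (deg_X a) (deg_X b))
  · split_ifs
    · exact deg_X c
    · rw [totalDegree_neg]; exact deg_X c
  · split_ifs
    · exact deg_X d
    · rw [totalDegree_neg]; exact deg_X d

theorem deg1 {Ω : Type} (a b c d : Ω) :
    (X a + X b - X c - X d : MvPolynomial Ω ℤ).totalDegree ≤ 1 := by
  have := deg_pm a b c d true false false
  simpa [sub_eq_add_neg] using this

theorem deg2 {Ω : Type} (a b c d : Ω) :
    (X a - X b + X c - X d : MvPolynomial Ω ℤ).totalDegree ≤ 1 := by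
  have := deg_pm a b c d false true false
  simpa [sub_eq_add_neg] using this

theorem deg3 {Ω : Type} (a b c d : Ω) :
    (X a - X b - X c + X d : MvPolynomial Ω ℤ).totalDegree ≤ 1 := by
  have := deg_pm a b c d false false true
  simpa [sub_eq_add_neg] using this

theorem deg_bil {Ω : Type} (u v : Fin 4 → Ω) : (bil u v).totalDegree ≤ 3 := by
  unfold bil
  have h1 := deg1 (u 0) (u 1) (u 2) (u 3)
  have h2 := deg1 (v 0) (v 1) (v 2) (v 3)
  refine (totalDegree_mul _ _).trans ?_
  omega

theorem deg_cub {Ω : Type} (u : Fin 4 → Ω) : (cub u).totalDegree ≤ 3 := by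
  unfold cub
  have h1 := deg1 (u 0) (u 1) (u 2) (u 3)
  have h2 := deg2 (u 0) (u 1) (u 2) (u 3)
  have h3 := deg3 (u 0) (u 1) (u 2) (u 3)
  refine (totalDegree_mul _ _).trans ?_
  have h4 := totalDegree_mul (X (u 0) + X (u 1) - X (u 2) - X (u 3) : MvPolynomial Ω ℤ)
    (X (u 0) - X (u 1) + X (u 2) - X (u 3))
  omega

end SZL

theorem sz_count {Ω : Type} [Fintype Ω] (p : MvPolynomial Ω ℤ) (hp : p ≠ 0) (d L : ℕ)
    (hd : p.totalDegree ≤ d) (hL : 0 < L) :
    Nat.card {a : Ω → Fin L // eval (fun x => ((a x : ℕ) : ℤ)) p = 0} * L ≤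
      d * L ^ Fintype.card Ω := by
  classical
  set e := Fintype.equivFin Ω with he
  have hp' : rename e p ≠ 0 := by
    intro h
    apply hp
    apply rename_injective e e.injective
    rw [h, map_zero]
  have hd' : (rename e p).totalDegree ≤ d := (totalDegree_rename_le e p).trans hd
  have h1 := SZL.count_fin (rename e p) hp' d L hd' hL
  refine le_trans (le_of_eq ?_) h1
  congr 1
  refine Nat.card_congr ⟨fun a => ⟨fun i => a.1 (e.symm i), ?_⟩,
    fun a => ⟨fun x => a.1 (e x), ?_⟩, ?_, ?_⟩
  · rw [eval_rename]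
    have : ((fun x : Fin (Fintype.card Ω) => ((a.1 (e.symm x) : ℕ) : ℤ)) ∘ e) =
        fun x => ((a.1 x : ℕ) : ℤ) := by
      funext x
      simp
    rw [this]
    exact a.2
  · have h2 := a.2
    rw [eval_rename] at h2
    exact h2
  · intro a
    apply Subtype.ext
    funext x
    simp
  · intro a
    apply Subtype.ext
    funext x
    simp

theorem degree_inst {Ω : Type} [Fintype Ω] (M : Bool → Multiset (MvPolynomial Ω ℤ))
    (hM : M ∈ Inst Ω) (s : Bool) : (M s).prod.totalDegree ≤ 3 * Fintype.card Ω := by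
  classical
  obtain ⟨h1, h2⟩ := hM s
  have h3 : ∀ f ∈ M s, f.totalDegree ≤ 3 := by
    intro f hf
    have h4 := h1 f hf
    unfold Fam at h4
    rw [Finset.mem_union, Finset.mem_image, Finset.mem_image] at h4
    rcases h4 with ⟨p, -, rfl⟩ | ⟨u, -, rfl⟩
    · exact SZL.deg_bil _ _
    · exact SZL.deg_cub _
  have h5 : (M s).prod.totalDegree ≤ ((M s).map totalDegree).sum :=
    totalDegree_multiset_prod (M s)
  have h6 : ((M s).map totalDegree).sum ≤ (M s).card * 3 := by
    have := Multiset.sum_le_card_nsmul ((M s).map totalDegree) 3 (by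
      intro x hx
      obtain ⟨f, hf, rfl⟩ := Multiset.mem_map.1 hx
      exact h3 f hf)
    rwa [Multiset.card_map, smul_eq_mul] at this
  calc (M s).prod.totalDegree ≤ _ := h5
    _ ≤ (M s).card * 3 := h6
    _ ≤ Fintype.card Ω * 3 := Nat.mul_le_mul_right _ h2
    _ = 3 * Fintype.card Ω := mul_comm _ _

end Pool.Agent.H870R2.PC
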