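import Pool.Agent.H870R2.LS.ZFinal

set_option autoImplicit false
set_option linter.unusedSectionVars false

/-! Networks that are never wrong: the sign problem. -/

namespace Pool.Agent.H870R2.PC

open Finset BigOperators H522R2.LS MvPolynomial

/-- The two products are the same polynomial, not zero. -/
def Pos (Ω : Type) [Fintype Ω] : Set (Bool → Multiset (MvPolynomial Ω ℤ)) :=
  {M | M ∈ Inst Ω ∧ (M true).prod = (M false).prod ∧ (M true).prod ≠ 0}

/-- The two products differ by the sign and are not zero. -/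
def Neg (Ω : Type) [Fintype Ω] : Set (Bool → Multiset (MvPolynomial Ω ℤ)) :=
  {M | M ∈ Inst Ω ∧ (M true).prod = -(M false).prod ∧ (M true).prod ≠ 0}

variable {K Ω : Type} [Fintype Ω] [DecidableEq Ω] {N : ℕ} {Δ : Type} [Fintype Δ] [DecidableEq Δ]

theorem setup5 {r : ℕ} (β : Fin r × Fin 4 ↪ Ω) (J : Ix4 N ↪ Fin r)
    (e : Pos4 N {x : Ω // ∀ v a, β (J v, a) ≠ x} ≃ Ω)
    (he1 : ∀ i s a, e (.cw i s a) = β (J (i, s), a)) (he3 : ∀ δ, e (.dum δ) = δ.1)
    (C : PNet (Fac Ω) K)
    (hsym : ∀ (v : Fin r) (x y z : Fin 4), x ≠ y → y ≠ z → x ≠ z →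
      C.SymmUnder (facMap (cyc (β (v, x)) (β (v, y)) (β (v, z))))) (g : Ix4 N → A4) :
    C.SymmUnder (facMap (FF5 e g)) := by
  classical
  have hall : ∀ (g : Ix4 N → A4), g ∈ symG5 e C := by
    intro g
    apply Subgroup.pi_mem_of_mulSingle_mem
    intro v
    obtain ⟨a, ha⟩ := g v
    induction ha using Subgroup.closure_induction with
    | mem a ha' =>
      obtain ⟨x, y, z, h1, h2, h3, rfl⟩ := ha'
      show C.SymmUnder (facMap (FF5 e (Pi.mulSingle v ⟨cyc x y z, _⟩)))
      have key : FF5 e (Pi.mulSingle v ⟨cyc x y z, Subgroup.subset_closure ⟨x, y, z, h1, h2, h3, rfl⟩⟩)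
          = cyc (β (J (v), x)) (β (J (v), y)) (β (J (v), z)) := by
        ext w
        obtain ⟨p, rfl⟩ := e.surjective w
        unfold FF5
        rw [Equiv.permCongr_apply, Equiv.symm_apply_apply]
        rcases p with ⟨i, s, b⟩ | δ
        · by_cases hv : (i, s) = v
          · subst hv
            have hf : Function.Injective (fun a : Fin 4 => β (J ((i, s)), a)) := by
              intro a a' haa
              have := β.injective haa
              exact (Prod.mk.inj this).2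
            have h4 := cyc_inj (fun a : Fin 4 => β (J ((i, s)), a)) hf x y z b
            show e (.cw i s (((Pi.mulSingle (i, s) ⟨cyc x y z, _⟩ : Ix4 N → A4)
              (i, s) : Equiv.Perm (Fin 4)) b)) = _
            rw [Pi.mulSingle_eq_same, he1, he1]
            exact h4.symm
          · have hne : ∀ a : Fin 4, e (.cw i s b) ≠ β (J (v), a) := by
              intro a haa
              rw [he1] at haa
              have h5 := (Prod.mk.inj (β.injective haa)).1
              exact hv (J.injective h5)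
            show e (.cw i s (((Pi.mulSingle v ⟨cyc x y z, _⟩ : Ix4 N → A4)
              (i, s) : Equiv.Perm (Fin 4)) b)) = _
            rw [Pi.mulSingle_eq_of_ne hv, cyc_ne _ _ _ _ (hne x) (hne y) (hne z)]
            rfl
        · have hne : ∀ a : Fin 4, e (.dum δ) ≠ β (J (v), a) := by
            intro a haa
            rw [he3] at haa
            exact δ.2 _ _ haa.symm
          rw [cyc_ne _ _ _ _ (hne x) (hne y) (hne z)]
          rfl
      have h6 := hsym (J (v)) x y z h1 h2 h3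
      rw [← key] at h6
      exact h6
    | one =>
      have : (Pi.mulSingle v (⟨1, Subgroup.one_mem _⟩ : A4) : Ix4 N → A4) = 1 := Pi.mulSingle_one v
      rw [this]
      exact Subgroup.one_mem _
    | mul a b ha hb iha ihb =>
      have e0 : (⟨a * b, Subgroup.mul_mem _ ha hb⟩ : A4) = (⟨a, ha⟩ : A4) * (⟨b, hb⟩ : A4) := rfl
      rw [e0, Pi.mulSingle_mul]
      exact Subgroup.mul_mem _ iha ihb
    | inv a ha iha =>
      have e0 : (⟨a⁻¹, Subgroup.inv_mem _ ha⟩ : A4) = (⟨a, ha⟩ : A4)⁻¹ := rfl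
      rw [e0, Pi.mulSingle_inv]
      exact Subgroup.inv_mem _ iha
  exact hall g

omit [DecidableEq Ω] in
theorem empty_Pos : (fun _ => 0 : Bool → Multiset (MvPolynomial Ω ℤ)) ∈ Pos Ω := by
  refine ⟨fun s => ⟨fun f hf => ?_, ?_⟩, rfl, ?_⟩
  · exact absurd hf (Multiset.notMem_zero f)
  · exact Nat.zero_le _
  · show (0 : Multiset (MvPolynomial Ω ℤ)).prod ≠ 0
    rw [Multiset.prod_zero]
    exact one_ne_zero

omit [DecidableEq Ω] in
theorem not_Identity_of_Neg {M : Bool → Multiset (MvPolynomial Ω ℤ)} (hM : M ∈ Neg Ω) :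
    ¬ Identity M := by
  obtain ⟨_, h2, h3⟩ := hM
  intro h
  unfold Identity at h
  rw [← h] at h2
  apply h3
  have h4 : (2 : MvPolynomial Ω ℤ) * (M true).prod = 0 := by
    rw [two_mul]
    nth_rewrite 1 [h2]
    rw [neg_add_cancel]
  rcases mul_eq_zero.1 h4 with h5 | h5
  · exact absurd h5 two_ne_zero
  · exact h5

/-- **Zero-error networks.** -/
theorem lower_zero {r : ℕ} (β : Fin r × Fin 4 ↪ Ω) :
    ∃ M0 ∈ Pos Ω, ∀ (K : Type) (C : PNet (Fac Ω) K) (yes no : Set K),
      (∀ M ∈ Pos Ω, C.val (cnt M) C.out ∉ no) →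
      (∀ M ∈ Neg Ω, C.val (cnt M) C.out ∉ yes) →
      (∀ (v : Fin r) (x y z : Fin 4), x ≠ y → y ≠ z → x ≠ z →
        C.SymmUnder (facMap (cyc (β (v, x)) (β (v, y)) (β (v, z))))) →
      Fintype.card C.G < 2 ^ (r / 960) →
      C.val (cnt M0) C.out ∉ yes ∧ C.val (cnt M0) C.out ∉ no := by
  classical
  by_cases hN : r / 2 < 480
  · have h0 : r / 960 = 0 := by omega
    refine ⟨fun _ => 0, empty_Pos, fun K C yes no _ _ _ hlt => ?_⟩
    rw [h0, pow_zero] at hlt
    have : 0 < Fintype.card C.G := Fintype.card_pos_iff.mpr ⟨C.out⟩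
    omega
  · push Not at hN
    obtain ⟨N, hNdef⟩ : ∃ N, N = r / 2 := ⟨_, rfl⟩
    rw [← hNdef] at hN
    obtain ⟨π, hπ⟩ := Pool.Agent.Helper600R2.exists_expander (n := N) (by omega)
    have hcard : Fintype.card (Ix4 N) ≤ Fintype.card (Fin r) := by
      simp only [Fintype.card_prod, Fintype.card_fin, Fintype.card_bool]
      omega
    obtain ⟨J⟩ := Function.Embedding.nonempty_of_card_le hcard
    obtain ⟨e, he1, he3⟩ := exists_equiv5 β J
    have h4 := identity0 e (rho π)
    have h5 : (instO e (rho π) (fun _ _ => 0) true).prod ≠ 0 := by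
      unfold Identity at h4
      rw [h4]
      exact prod_instO_ne e (rho π) _
    have hpos : instO e (rho π) (fun _ _ => 0) ∈ Pos Ω := ⟨mem_Inst e (rho π) _, h4, h5⟩
    refine ⟨instO e (rho π) (fun _ _ => 0), hpos, fun K C yes no hC1 hC2 hsym hlt => ?_⟩
    obtain ⟨S, hS1, hS2⟩ := core_eq5 π hπ (r / 960) (by omega) (by omega) e C
      (setup5 β J e he1 he3 C hsym) hlt
    have hSne : S.Nonempty := by
      rw [← Finset.card_pos]
      omega
    obtain ⟨i, hi⟩ := hSne
    have h6 := hS2 i hi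
    rw [← cnt_instO, ← cnt_instO] at h6
    have h7 := not_identity e (rho π) i
    have hneg : instO e (rho π) (tw i) ∈ Neg Ω := by
      refine ⟨mem_Inst e (rho π) _, h7.1, ?_⟩
      rw [h7.1, neg_ne_zero]
      exact prod_instO_ne e (rho π) _
    refine ⟨?_, hC1 _ hpos⟩
    rw [← h6]
    exact hC2 _ hneg

omit [DecidableEq Ω] in
theorem renI_Pos (g : Equiv.Perm Ω) (M : Bool → Multiset (MvPolynomial Ω ℤ)) :
    renI g M ∈ Pos Ω ↔ M ∈ Pos Ω := by
  have h1 : ∀ (g : Equiv.Perm Ω) (M : Bool → Multiset (MvPolynomial Ω ℤ)),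
      M ∈ Pos Ω → renI g M ∈ Pos Ω := by
    rintro g M ⟨h1, h2, h3⟩
    refine ⟨renI_mem g M h1, ?_, ?_⟩
    · rw [prod_renI, prod_renI, h2]
    · rw [prod_renI]
      intro h
      apply h3
      apply rename_injective g g.injective
      rw [h, map_zero]
  refine ⟨fun h => ?_, h1 g M⟩
  have h2 := h1 g⁻¹ _ h
  have h3 : renI g⁻¹ (renI g M) = M := by
    funext s
    unfold renI
    rw [Multiset.map_map]
    have : (rename (g⁻¹ : Equiv.Perm Ω) : MvPolynomial Ω ℤ → MvPolynomial Ω ℤ) ∘ rename g = id := by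
      funext p
      rw [Function.comp_apply, rename_rename]
      have h4 : ((g⁻¹ : Equiv.Perm Ω) : Ω → Ω) ∘ g = id := by funext x; simp
      rw [h4, rename_id_apply]
      rfl
    rw [this, Multiset.map_id]
  rwa [h3] at h2

omit [DecidableEq Ω] in
theorem renI_Neg (g : Equiv.Perm Ω) (M : Bool → Multiset (MvPolynomial Ω ℤ)) (hM : M ∈ Neg Ω) :
    renI g M ∈ Neg Ω := by
  obtain ⟨h1, h2, h3⟩ := hM
  refine ⟨renI_mem g M h1, ?_, ?_⟩
  · rw [prod_renI, prod_renI, h2, map_neg]
  · rw [prod_renI]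
    intro h
    apply h3
    apply rename_injective g g.injective
    rw [h, map_zero]

theorem exists_symm_sign {r : ℕ} (β : Fin r × Fin 4 ↪ Ω) (C : PNet (Fac Ω) K) (enc : Prop → K)
    (hC : ∀ M ∈ Pos Ω ∪ Neg Ω, C.val (cnt M) C.out = enc (M ∈ Pos Ω)) :
    ∃ C' : PNet (Fac Ω) K, (∀ M ∈ Pos Ω ∪ Neg Ω, C'.val (cnt M) C'.out = enc (M ∈ Pos Ω)) ∧
      (∀ g : Equiv.Perm Ω, Preserves β g → C'.SymmUnder (facMap g)) ∧
      Fintype.card C'.G = 24 ^ r * Fintype.card C.G + 1 ∧
      (∀ g', g' ≠ C'.out → ∃ g, C'.F g' = C.F g) ∧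
      ∀ (o : Option ℕ) (k : K) (n : ℕ), 0 < n → C'.F C'.out o (n • ({k} : Multiset K)) = k := by
  refine ⟨symZ β C, ?_, ?_, symZ_card β C, ?_, symZ_F_out β C⟩
  · intro M hM
    refine symZ_out β C _ _ (fun g => ?_)
    rw [cnt_facMap, hC _ ?_]
    · rw [renI_Pos]
    · rcases hM with hM | hM
      · exact Or.inl ((renI_Pos _ M).2 hM)
      · exact Or.inr (renI_Neg _ M hM)
  · intro g hg
    obtain ⟨g0, rfl⟩ := exists_bp β g hg
    exact symZ_symm β C g0
  · rintro (⟨g, h⟩ | t) hne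
    · exact ⟨h, rfl⟩
    · exact absurd rfl hne

end Pool.Agent.H870R2.PC
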