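import Pool.Agent.H870R2.LS.DDefs
import Pool.Agent.H870R2.LS.GMain
import Pool.Agent.H870R2.LS.ZZero
import Pool.Agent.H870R2.LS.ZProb
import Pool.Agent.H870R2.LS.DCyc

set_option autoImplicit false
set_option linter.unusedSectionVars false

/-! Matrices whose singularity is hard for locally symmetric networks. -/

namespace Pool.Agent.H870R2.PC

open Finset BigOperators H522R2.LS MvPolynomial

/-- Entries of degree at most three, nonzero only on the diagonal and on the cyclic superdiagonal. -/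
def CycMat (Ω : Type) (m : ℕ) : Set (Matrix (Fin m) (Fin m) (MvPolynomial Ω ℤ)) :=
  {M | ∀ i j, (M i j).totalDegree ≤ 3 ∧ (j ≠ i → j ≠ finRotate m i → M i j = 0)}

theorem cof_entMap {Ω : Type} {m : ℕ} (M M' : Matrix (Fin m) (Fin m) (MvPolynomial Ω ℤ))
    (g : Equiv.Perm Ω) (h : ∀ i j, M' i j = rename g (M i j)) (q : Ent Ω m) :
    cof M' (entMap g q) = cof M q := by
  unfold cof entMap
  simp only [h]
  rw [coeff_rename_mapDomain g g.injective]

/-- the action on the inputs -/
noncomputable def entAct (Ω : Type) (m : ℕ) : Act Ω (Ent Ω m) where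
  act := entMap
  one := by
    funext q
    unfold entMap
    refine Prod.ext rfl (Prod.ext ?_ rfl)
    show Finsupp.mapDomain (id : Ω → Ω) q.2.1 = q.2.1
    exact Finsupp.mapDomain_id
  mul := by
    intro g h
    funext q
    unfold entMap
    refine Prod.ext rfl (Prod.ext ?_ rfl)
    show Finsupp.mapDomain (g ∘ h) q.2.1 = Finsupp.mapDomain g (Finsupp.mapDomain h q.2.1)
    exact Finsupp.mapDomain_comp

variable {K Ω : Type} [Fintype Ω] [DecidableEq Ω] {N m : ℕ} {Δ : Type} [Fintype Δ] [DecidableEq Δ]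

/-- the diagonal -/
noncomputable def kf (p : Fin N × Fin 3) : MvPolynomial (Pos4 N Δ) ℤ :=
  if p.2 = 0 then gV (p.1, false) else if p.2 = 1 then gV (p.1, true) else 1

open Classical in
noncomputable def diaE (ρ : Fin 3 → Equiv.Perm (Fin N)) (b : Fin N → Fin 3 → ZMod 2)
    (J : Fin N × Fin 3 ↪ Fin m) (j : Fin m) : MvPolynomial (Pos4 N Δ) ℤ :=
  if h : ∃ p, J p = j then gE ρ b h.choose else 1

open Classical in
noncomputable def offE (J : Fin N × Fin 3 ↪ Fin m) (j : Fin m) : MvPolynomial (Pos4 N Δ) ℤ :=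
  if h : ∃ p, J p = j then kf h.choose else 1

/-- the matrix -/
noncomputable def matO (e : Pos4 N Δ ≃ Ω) (ρ : Fin 3 → Equiv.Perm (Fin N))
    (J : Fin N × Fin 3 ↪ Fin m) (b : Fin N → Fin 3 → ZMod 2) :
    Matrix (Fin m) (Fin m) (MvPolynomial Ω ℤ) := fun i j =>
  if j = i then rename e (diaE ρ b J i) else
    if j = finRotate m i then - rename e (offE J i : MvPolynomial (Pos4 N Δ) ℤ) else 0

theorem diaE_of (ρ : Fin 3 → Equiv.Perm (Fin N)) (b : Fin N → Fin 3 → ZMod 2)
    (J : Fin N × Fin 3 ↪ Fin m) (p : Fin N × Fin 3) :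
    (diaE ρ b J (J p) : MvPolynomial (Pos4 N Δ) ℤ) = gE ρ b p := by
  unfold diaE
  have h : ∃ p', J p' = J p := ⟨p, rfl⟩
  rw [dif_pos h]
  congr 1
  exact J.injective h.choose_spec

theorem diaE_not (ρ : Fin 3 → Equiv.Perm (Fin N)) (b : Fin N → Fin 3 → ZMod 2)
    (J : Fin N × Fin 3 ↪ Fin m) (j : Fin m) (h : ¬ ∃ p, J p = j) :
    (diaE ρ b J j : MvPolynomial (Pos4 N Δ) ℤ) = 1 := by
  unfold diaE
  rw [dif_neg h]

theorem offE_of (J : Fin N × Fin 3 ↪ Fin m) (p : Fin N × Fin 3) :
    (offE J (J p) : MvPolynomial (Pos4 N Δ) ℤ) = kf p := by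
  unfold offE
  have h : ∃ p', J p' = J p := ⟨p, rfl⟩
  rw [dif_pos h]
  congr 1
  exact J.injective h.choose_spec

theorem offE_not (J : Fin N × Fin 3 ↪ Fin m) (j : Fin m) (h : ¬ ∃ p, J p = j) :
    (offE J j : MvPolynomial (Pos4 N Δ) ℤ) = 1 := by
  unfold offE
  rw [dif_neg h]

theorem prod_diaE (ρ : Fin 3 → Equiv.Perm (Fin N)) (b : Fin N → Fin 3 → ZMod 2)
    (J : Fin N × Fin 3 ↪ Fin m) :
    ∏ j, (diaE ρ b J j : MvPolynomial (Pos4 N Δ) ℤ) = ∏ p, gE ρ b p := by
  symm
  refine Fintype.prod_of_injective J J.injective _ _ ?_ ?_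
  · intro j hj
    exact diaE_not ρ b J j (fun ⟨p, hp⟩ => hj ⟨p, hp⟩)
  · intro p
    exact (diaE_of ρ b J p).symm

theorem prod_offE (J : Fin N × Fin 3 ↪ Fin m) :
    ∏ j, (offE J j : MvPolynomial (Pos4 N Δ) ℤ) = ∏ p : Fin N × Bool, gV p := by
  have h1 : ∏ j, (offE J j : MvPolynomial (Pos4 N Δ) ℤ) = ∏ p, kf p := by
    symm
    refine Fintype.prod_of_injective J J.injective _ _ ?_ ?_
    · intro j hj
      exact offE_not J j (fun ⟨p, hp⟩ => hj ⟨p, hp⟩)
    · intro p
      exact (offE_of J p).symm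
  rw [h1, Fintype.prod_prod_type, Fintype.prod_prod_type]
  refine Finset.prod_congr rfl (fun i _ => ?_)
  rw [Fin.prod_univ_three, Fintype.prod_bool]
  have e0 : (kf (i, 0) : MvPolynomial (Pos4 N Δ) ℤ) = gV (i, false) := by
    unfold kf; rw [if_pos rfl]
  have e1 : (kf (i, 1) : MvPolynomial (Pos4 N Δ) ℤ) = gV (i, true) := by
    unfold kf; simp
  have e2 : (kf (i, 2) : MvPolynomial (Pos4 N Δ) ℤ) = 1 := by
    unfold kf; simp
  rw [e0, e1, e2, mul_one, mul_comm]

theorem prod_instO' (e : Pos4 N Δ ≃ Ω) (ρ : Fin 3 → Equiv.Perm (Fin N))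
    (b : Fin N → Fin 3 → ZMod 2) (s : Bool) :
    (instO e ρ b s).prod = rename e (instM ρ b s).prod := by
  unfold instO
  exact (map_multiset_prod (rename e) (instM ρ b s)).symm

theorem det_matO (hm : 2 ≤ m) (e : Pos4 N Δ ≃ Ω) (ρ : Fin 3 → Equiv.Perm (Fin N))
    (J : Fin N × Fin 3 ↪ Fin m) (b : Fin N → Fin 3 → ZMod 2) :
    (matO e ρ J b).det = (instO e ρ b true).prod - (instO e ρ b false).prod := by
  classical
  rw [det_cyc (finRotate m) (isCycle_finRotate_of_le hm) (support_finRotate_of_le hm) (matO e ρ J b)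
    (fun i j h1 h2 => by unfold matO; rw [if_neg h1, if_neg h2])]
  have hne : ∀ i : Fin m, finRotate m i ≠ i := by
    intro i
    rw [← Equiv.Perm.mem_support, support_finRotate_of_le hm]
    exact Finset.mem_univ _
  have h1 : ∏ i, matO e ρ J b i i = (instO e ρ b true).prod := by
    rw [prod_instO', prod_true, ← prod_diaE ρ b J, map_prod]
    refine Finset.prod_congr rfl (fun i _ => ?_)
    unfold matO
    rw [if_pos rfl]
  have h2 : ∏ i, matO e ρ J b i (finRotate m i) =
      (-1) ^ m * (instO e ρ b false).prod := by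
    rw [prod_instO', prod_false, ← prod_offE J, map_prod]
    have h3 : ∀ i, matO e ρ J b i (finRotate m i) =
        (-1) * rename e (offE J i : MvPolynomial (Pos4 N Δ) ℤ) := by
      intro i
      unfold matO
      rw [if_neg (hne i), if_pos rfl, neg_one_mul]
    rw [Finset.prod_congr rfl (fun i _ => h3 i), Finset.prod_mul_distrib, Finset.prod_const,
      Finset.card_univ, Fintype.card_fin]
  rw [h1, h2, Fintype.card_fin, ← mul_assoc, ← pow_add, ← two_mul, pow_mul]
  simp

theorem deg_Fam (f : MvPolynomial Ω ℤ) (hf : f ∈ Fam Ω) : f.totalDegree ≤ 3 := by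
  rw [mem_Fam] at hf
  rcases hf with ⟨u, v, rfl⟩ | ⟨u, rfl⟩
  · exact SZL.deg_bil u v
  · exact SZL.deg_cub u

theorem matO_mem (e : Pos4 N Δ ≃ Ω) (ρ : Fin 3 → Equiv.Perm (Fin N))
    (J : Fin N × Fin 3 ↪ Fin m) (b : Fin N → Fin 3 → ZMod 2) : matO e ρ J b ∈ CycMat Ω m := by
  intro i j
  refine ⟨?_, fun h1 h2 => by unfold matO; rw [if_neg h1, if_neg h2]⟩
  have hone : (1 : MvPolynomial Ω ℤ).totalDegree ≤ 3 := by
    rw [totalDegree_one]; omega
  have hmem := mem_Inst e ρ b
  unfold matO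
  split_ifs with h1 h2
  · by_cases h : ∃ p, J p = i
    · obtain ⟨p, rfl⟩ := h
      rw [diaE_of]
      apply deg_Fam
      apply (hmem true).1
      unfold instO instM
      rw [if_pos rfl]
      exact Multiset.mem_map.2 ⟨_, Multiset.mem_map.2 ⟨p, Finset.mem_univ _, rfl⟩, rfl⟩
    · rw [diaE_not ρ b J i h, map_one]
      exact hone
  · rw [totalDegree_neg]
    have hgV : ∀ p : Fin N × Bool,
        (rename e (gV p : MvPolynomial (Pos4 N Δ) ℤ)).totalDegree ≤ 3 := by
      intro p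
      apply deg_Fam
      apply (hmem false).1
      unfold instO instM
      rw [if_neg (by decide)]
      exact Multiset.mem_map.2 ⟨_, Multiset.mem_map.2 ⟨p, Finset.mem_univ _, rfl⟩, rfl⟩
    by_cases h : ∃ p, J p = i
    · obtain ⟨p, rfl⟩ := h
      rw [offE_of]
      unfold kf
      split_ifs
      · exact hgV _
      · exact hgV _
      · rw [map_one]; exact hone
    · rw [offE_not J i h, map_one]
      exact hone
  · rw [totalDegree_zero]; omega

theorem rename_conj (e : Pos4 N Δ ≃ Ω) (g : Equiv.Perm (Pos4 N Δ)) (p : MvPolynomial (Pos4 N Δ) ℤ) :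
    rename (e.permCongr g) (rename e p) = rename e (rename g p) := by
  rw [rename_rename, rename_rename]
  congr 2
  funext x
  show e (g (e.symm (e x))) = e (g x)
  rw [Equiv.symm_apply_apply]

theorem mat_gauge (e : Pos4 N Δ ≃ Ω) (ρ : Fin 3 → Equiv.Perm (Fin N))
    (J : Fin N × Fin 3 ↪ Fin m) (b b' : Fin N → Fin 3 → ZMod 2) (τ : Fin N → Bool → Fin 3)
    (hb : ∀ i t, b i t = b' i t + fl (τ i false) t + fl (τ (ρ t i) true) t) (i j : Fin m) :
    matO e ρ J b' i j = rename (e.permCongr (act4 (fun v => flp (τ v.1 v.2)))) (matO e ρ J b i j) := by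
  unfold matO
  split_ifs with h1 h2
  · rw [rename_conj]
    congr 1
    by_cases h : ∃ p, J p = i
    · obtain ⟨p, rfl⟩ := h
      rw [diaE_of, diaE_of]
      exact (gE_gauge ρ b b' τ hb p).symm
    · rw [diaE_not ρ b J i h, diaE_not ρ b' J i h, map_one]
  · rw [map_neg, rename_conj]
    congr 2
    by_cases h : ∃ p, J p = i
    · obtain ⟨p, rfl⟩ := h
      rw [offE_of]
      unfold kf
      split_ifs
      · exact (gV_gauge τ _).symm
      · exact (gV_gauge τ _).symm
      · rw [map_one]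
    · rw [offE_not J i h, map_one]
  · rw [map_zero]

theorem mat_local (e : Pos4 N Δ ≃ Ω) (ρ : Fin 3 → Equiv.Perm (Fin N))
    (J : Fin N × Fin 3 ↪ Fin m) (i : Fin N) (G : Ix4 N → Equiv.Perm (Fin 4))
    (h1 : G (i, false) = flp 1) (h2 : ∀ j, G (j, true) = 1) (q : Ent Ω m)
    (hq : entMap (e.permCongr (act4 G)) q = q) :
    cof (matO e ρ J (tw i)) q = cof (matO e ρ J (fun _ _ => 0)) q := by
  obtain ⟨⟨a, c⟩, μ, s⟩ := q
  have hμ : μ.mapDomain (e.permCongr (act4 G)) = μ := congrArg (fun q => q.2.1) hq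
  by_cases h : c = a ∧ J (i, 0) = a
  · obtain ⟨rfl, rfl⟩ := h
    have key : ∀ b : Fin N → Fin 3 → ZMod 2,
        coeff μ (matO e ρ J b (J (i, 0)) (J (i, 0))) = 0 := by
      intro b
      have e1 : matO e ρ J b (J (i, 0)) (J (i, 0)) = rename e (gE ρ b (i, 0)) := by
        unfold matO
        rw [if_pos rfl, diaE_of]
      rw [e1]
      have e2 : coeff μ (rename e (gE ρ b (i, 0))) = - coeff μ (rename e (gE ρ b (i, 0))) := by
        conv_lhs => rw [← coeff_rename_mapDomain (e.permCongr (act4 G))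
          (Equiv.injective _) (rename e (gE ρ b (i, 0))) μ]
        rw [hμ, rename_conj, gE_neg ρ b i G h1 h2, map_neg, coeff_neg]
      omega
    unfold cof
    show (if s = true then (coeff μ (matO e ρ J (tw i) (J (i, 0)) (J (i, 0)))).toNat else
      (-coeff μ (matO e ρ J (tw i) (J (i, 0)) (J (i, 0)))).toNat) =
      (if s = true then (coeff μ (matO e ρ J (fun _ _ => 0) (J (i, 0)) (J (i, 0)))).toNat else
      (-coeff μ (matO e ρ J (fun _ _ => 0) (J (i, 0)) (J (i, 0)))).toNat)
    rw [key, key]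
  · have key : matO e ρ J (tw i) a c = matO e ρ J (fun _ _ => 0) a c := by
      unfold matO
      split_ifs with h3 h4
      · congr 1
        by_cases h' : ∃ p, J p = a
        · obtain ⟨p, rfl⟩ := h'
          rw [diaE_of, diaE_of]
          have h5 : p ≠ (i, 0) := fun h6 => h ⟨h3, by rw [h6]⟩
          have h6 : tw i p.1 p.2 = 0 := if_neg (fun hh => h5 (Prod.ext hh.1 hh.2))
          unfold gE
          rw [h6]
        · rw [diaE_not ρ _ J a h', diaE_not ρ _ J a h']
      · rfl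
      · rfl
    unfold cof
    show (if s = true then (coeff μ (matO e ρ J (tw i) a c)).toNat else
      (-coeff μ (matO e ρ J (tw i) a c)).toNat) =
      (if s = true then (coeff μ (matO e ρ J (fun _ _ => 0) a c)).toNat else
      (-coeff μ (matO e ρ J (fun _ _ => 0) a c)).toNat)
    rw [key]

end Pool.Agent.H870R2.PC
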