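import Pool.Agent.H870R2.LS.ZDefs

set_option autoImplicit false
set_option linter.unusedSectionVars false

/-! NETZ: a symmetric network that evaluates the two products at given numbers. -/

namespace Pool.Agent.H870R2.PC

open Finset BigOperators MvPolynomial

/-- The inputs of a randomised network: the instance, and a number for each variable. -/
noncomputable def coinIn {Ω : Type} (M : Bool → Multiset (MvPolynomial Ω ℤ)) (a : Ω → ℕ) :
    Fac Ω ⊕ Ω → ℕ := Sum.elim (cnt M) a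

/-- A permutation of the variables moves the numbers, too. -/
noncomputable def coinMap {Ω : Type} (g : Equiv.Perm Ω) : Fac Ω ⊕ Ω → Fac Ω ⊕ Ω :=
  Sum.map (facMap g) g

/-- comparison of two numbers -/
def ver (p q : ℤ) : ℤ := if p = q then (if p = 0 then 2 else 1) else if p = -q then -1 else 0

namespace NETZ

section base

variable {Ω : Type} [Fintype Ω]

/-! ### monomials -/

/-- one variable or nothing -/
noncomputable def mo (o : Option Ω) : Ω →₀ ℕ :=
  match o with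
  | some x => Finsupp.single x 1
  | none => 0

open Classical in
/-- the monomials of degree at most three -/
noncomputable def Mon (Ω : Type) [Fintype Ω] : Finset (Ω →₀ ℕ) :=
  univ.image (fun v : Fin 3 → Option Ω => ∑ k, mo (v k))

theorem mem_Mon_iff (m : Ω →₀ ℕ) : m ∈ Mon Ω ↔ ∃ v : Fin 3 → Option Ω, ∑ k, mo (v k) = m := by
  unfold Mon
  simp only [Finset.mem_image, Finset.mem_univ, true_and]

theorem card_Mon : (Mon Ω).card ≤ (Fintype.card Ω + 1) ^ 3 := by
  classical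
  unfold Mon
  refine card_image_le.trans ?_
  rw [card_univ, Fintype.card_fun, Fintype.card_option, Fintype.card_fin]

theorem mem_Fam_iff (f : MvPolynomial Ω ℤ) : f ∈ Fam Ω ↔
    (∃ u v : Fin 4 → Ω, bil u v = f) ∨ ∃ u : Fin 4 → Ω, cub u = f := by
  unfold Fam
  simp only [Finset.mem_union, Finset.mem_image, Finset.mem_univ, true_and, Prod.exists]

theorem card_Fam : (Fam Ω).card ≤ Fintype.card Ω ^ 8 + Fintype.card Ω ^ 4 := by
  classical
  unfold Fam
  refine (card_union_le _ _).trans (add_le_add ?_ ?_)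
  · refine card_image_le.trans ?_
    rw [card_univ, Fintype.card_prod, Fintype.card_fun, Fintype.card_fin, ← pow_add]
  · refine card_image_le.trans ?_
    rw [card_univ, Fintype.card_fun, Fintype.card_fin]

theorem prod_cnt (M : Bool → Multiset (MvPolynomial Ω ℤ)) (hM : M ∈ Inst Ω) (s : Bool) :
    (M s).prod = ∏ f ∈ Fam Ω, f ^ cnt M (s, f) := by
  classical
  unfold cnt
  refine Finset.prod_multiset_count_of_subset (M s) (Fam Ω) ?_
  intro f hf
  exact (hM s).1 f (Multiset.mem_toFinset.mp hf)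

theorem mo_map (g : Ω → Ω) (o : Option Ω) : Finsupp.mapDomain g (mo o) = mo (o.map g) := by
  rcases o with _ | x
  · simp [mo]
  · simp [mo, Finsupp.mapDomain_single]

theorem Mon_map (g : Ω → Ω) (m : Ω →₀ ℕ) (hm : m ∈ Mon Ω) : Finsupp.mapDomain g m ∈ Mon Ω := by
  obtain ⟨v, rfl⟩ := (mem_Mon_iff m).mp hm
  refine (mem_Mon_iff _).mpr ⟨fun k => (v k).map g, ?_⟩
  rw [Finsupp.mapDomain_finsetSum]
  exact Finset.sum_congr rfl fun k _ => (mo_map g (v k)).symm

open Classical in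
theorem mem_Mon_of_card (s : Multiset Ω) (hs : s.card ≤ 3) : Multiset.toFinsupp s ∈ Mon Ω := by
  obtain ⟨l, rfl⟩ := Quot.exists_rep s
  have hl : l.length ≤ 3 := hs
  have key : ∀ v : Fin 3 → Option Ω, (∑ k, mo (v k)) = mo (v 0) + mo (v 1) + mo (v 2) := by
    intro v
    rw [Fin.sum_univ_three]
  match l, hl with
  | [], _ =>
    refine (mem_Mon_iff _).mpr ⟨fun _ => none, ?_⟩
    show (∑ k : Fin 3, mo (none : Option Ω)) = Multiset.toFinsupp (0 : Multiset Ω)
    simp [mo]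
  | [x], _ =>
    refine (mem_Mon_iff _).mpr ⟨![some x, none, none], ?_⟩
    show (∑ k : Fin 3, mo ((![some x, none, none] : Fin 3 → Option Ω) k)) =
      Multiset.toFinsupp ({x} : Multiset Ω)
    rw [key, Multiset.toFinsupp_singleton]
    simp [mo]
  | [x, y], _ =>
    refine (mem_Mon_iff _).mpr ⟨![some x, some y, none], ?_⟩
    show (∑ k : Fin 3, mo ((![some x, some y, none] : Fin 3 → Option Ω) k)) =
      Multiset.toFinsupp (({x} : Multiset Ω) + {y})
    rw [key, map_add, Multiset.toFinsupp_singleton, Multiset.toFinsupp_singleton]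
    simp [mo]
  | [x, y, z], _ =>
    refine (mem_Mon_iff _).mpr ⟨![some x, some y, some z], ?_⟩
    show (∑ k : Fin 3, mo ((![some x, some y, some z] : Fin 3 → Option Ω) k)) =
      Multiset.toFinsupp (({x} : Multiset Ω) + ({y} + {z}))
    rw [key, map_add, map_add, Multiset.toFinsupp_singleton, Multiset.toFinsupp_singleton,
      Multiset.toFinsupp_singleton]
    simp [mo, add_assoc]
  | _ :: _ :: _ :: _ :: _, h => exact absurd h (by simp)

theorem mem_Mon (m : Ω →₀ ℕ) (hm : (m.sum fun _ e => e) ≤ 3) : m ∈ Mon Ω := by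
  classical
  have h := mem_Mon_of_card (Finsupp.toMultiset m) (by rw [Finsupp.card_toMultiset]; exact hm)
  rwa [Finsupp.toMultiset_toFinsupp] at h

theorem deg_lin (a b c d : Ω) : (X a + X b - X c - X d : MvPolynomial Ω ℤ).totalDegree ≤ 1 := by
  refine (totalDegree_sub _ _).trans (max_le ?_ (by rw [totalDegree_X]))
  refine (totalDegree_sub _ _).trans (max_le ?_ (by rw [totalDegree_X]))
  exact (totalDegree_add _ _).trans (max_le (by rw [totalDegree_X]) (by rw [totalDegree_X]))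

theorem deg_lin' (a b c d : Ω) : (X a - X b + X c - X d : MvPolynomial Ω ℤ).totalDegree ≤ 1 := by
  refine (totalDegree_sub _ _).trans (max_le ?_ (by rw [totalDegree_X]))
  refine (totalDegree_add _ _).trans (max_le ?_ (by rw [totalDegree_X]))
  exact (totalDegree_sub _ _).trans (max_le (by rw [totalDegree_X]) (by rw [totalDegree_X]))

theorem deg_lin'' (a b c d : Ω) : (X a - X b - X c + X d : MvPolynomial Ω ℤ).totalDegree ≤ 1 := by
  refine (totalDegree_add _ _).trans (max_le ?_ (by rw [totalDegree_X]))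
  refine (totalDegree_sub _ _).trans (max_le ?_ (by rw [totalDegree_X]))
  exact (totalDegree_sub _ _).trans (max_le (by rw [totalDegree_X]) (by rw [totalDegree_X]))

theorem deg_Fam (f : MvPolynomial Ω ℤ) (hf : f ∈ Fam Ω) : f.totalDegree ≤ 3 := by
  rcases (mem_Fam_iff f).mp hf with ⟨u, v, rfl⟩ | ⟨u, rfl⟩
  · unfold bil
    refine (totalDegree_mul _ _).trans ?_
    have h1 := deg_lin (u 0) (u 1) (u 2) (u 3)
    have h2 := deg_lin (v 0) (v 1) (v 2) (v 3)
    omega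
  · unfold cub
    refine (totalDegree_mul _ _).trans ?_
    have h0 := totalDegree_mul (X (u 0) + X (u 1) - X (u 2) - X (u 3) : MvPolynomial Ω ℤ)
      (X (u 0) - X (u 1) + X (u 2) - X (u 3))
    have h1 := deg_lin (u 0) (u 1) (u 2) (u 3)
    have h2 := deg_lin' (u 0) (u 1) (u 2) (u 3)
    have h3 := deg_lin'' (u 0) (u 1) (u 2) (u 3)
    omega

theorem support_Fam (f : MvPolynomial Ω ℤ) (hf : f ∈ Fam Ω) : f.support ⊆ Mon Ω := by
  intro m hm
  exact mem_Mon m ((le_totalDegree hm).trans (deg_Fam f hf))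

theorem eval_Fam (f : MvPolynomial Ω ℤ) (hf : f ∈ Fam Ω) (a : Ω → ℤ) :
    eval a f = ∑ m ∈ Mon Ω, coeff m f * ∏ x, a x ^ m x := by
  rw [eval_eq']
  refine Finset.sum_subset (support_Fam f hf) fun m _ hm => ?_
  rw [notMem_support_iff.mp hm, zero_mul]

theorem Fam_map (g : Equiv.Perm Ω) (f : MvPolynomial Ω ℤ) (hf : f ∈ Fam Ω) :
    rename g f ∈ Fam Ω := by
  rcases (mem_Fam_iff f).mp hf with ⟨u, v, rfl⟩ | ⟨u, rfl⟩
  · exact (mem_Fam_iff _).mpr (Or.inl ⟨g ∘ u, g ∘ v, (rename_bil g u v).symm⟩)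
  · exact (mem_Fam_iff _).mpr (Or.inr ⟨g ∘ u, (rename_cub g u).symm⟩)

end base

variable {Ω : Type} [Fintype Ω] [DecidableEq Ω]

/-! ### the network -/

/-- the gates: numbers, monomials, factors, sides, output -/
abbrev GG (Ω : Type) [Fintype Ω] : Type :=
  Ω ⊕ ((Bool × {m // m ∈ Mon Ω}) ⊕ ((Bool × {f // f ∈ Fam Ω}) ⊕ (Bool ⊕ Unit)))

/-- the wires -/
noncomputable def wr : GG Ω → GG Ω → ℕ
  | Sum.inr (Sum.inl (_, m)), Sum.inl x => m.1 x
  | Sum.inr (Sum.inr (Sum.inl (_, f))), Sum.inr (Sum.inl (ε, m)) =>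
      if ε then (coeff m.1 f.1).toNat else (-coeff m.1 f.1).toNat
  | Sum.inr (Sum.inr (Sum.inr (Sum.inl s))), Sum.inr (Sum.inr (Sum.inl (t, _))) => if t = s then 1 else 0
  | Sum.inr (Sum.inr (Sum.inr (Sum.inr _))), Sum.inr (Sum.inr (Sum.inr (Sum.inl _))) => 1
  | _, _ => 0

/-- the inputs -/
noncomputable def ip : GG Ω → Option (Fac Ω ⊕ Ω)
  | Sum.inl x => some (Sum.inr x)
  | Sum.inr (Sum.inr (Sum.inl (s, f))) => some (Sum.inl (s, f.1))
  | _ => none

/-- the functions of the gates -/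
noncomputable def FF : GG Ω → Option ℕ → Multiset ℤ → ℤ
  | Sum.inl _ => fun o _ => ((o.getD 0 : ℕ) : ℤ)
  | Sum.inr (Sum.inl (ε, _)) => fun _ s => (if ε then 1 else -1) * s.prod
  | Sum.inr (Sum.inr (Sum.inl _)) => fun o s => s.sum ^ (o.getD 0)
  | Sum.inr (Sum.inr (Sum.inr (Sum.inl _))) => fun _ s => s.prod
  | Sum.inr (Sum.inr (Sum.inr (Sum.inr _))) => fun _ s =>
      if s.sum ^ 2 = 4 * s.prod then (if s.sum = 0 then 2 else 1) else if s.sum = 0 then -1 else 0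

/-- the rank -/
def rk : GG Ω → ℕ
  | Sum.inl _ => 0
  | Sum.inr (Sum.inl _) => 1
  | Sum.inr (Sum.inr (Sum.inl _)) => 2
  | Sum.inr (Sum.inr (Sum.inr (Sum.inl _))) => 3
  | Sum.inr (Sum.inr (Sum.inr (Sum.inr _))) => 4

theorem rk_lt (g h : GG Ω) (hw : wr g h ≠ 0) : rk h < rk g := by
  rcases g with x | ⟨ε, m⟩ | ⟨s, f⟩ | s | u <;> rcases h with x' | ⟨ε', m'⟩ | ⟨s', f'⟩ | s' | u' <;>
    simp only [wr, rk] at hw ⊢ <;> omega

open Classical in
/-- the network -/
noncomputable def net (Ω : Type) [Fintype Ω] [DecidableEq Ω] : PNet (Fac Ω ⊕ Ω) ℤ where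
  G := GG Ω
  inp := ip
  wires := wr
  F := FF
  rk := rk
  rk_lt := rk_lt
  out := Sum.inr (Sum.inr (Sum.inr (Sum.inr ())))

theorem sum_nsmul_single {ι : Type} (s : Finset ι) (w : ι → ℕ) (v : ι → ℤ) :
    (∑ h ∈ s, w h • ({v h} : Multiset ℤ)).sum = ∑ h ∈ s, (w h : ℤ) * v h := by
  classical
  induction s using Finset.induction_on with
  | empty => simp
  | insert a s ha ih =>
    rw [Finset.sum_insert ha, Finset.sum_insert ha, Multiset.sum_add, ih, Multiset.sum_nsmul,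
      Multiset.sum_singleton, nsmul_eq_mul]

theorem prod_nsmul_single {ι : Type} (s : Finset ι) (w : ι → ℕ) (v : ι → ℤ) :
    (∑ h ∈ s, w h • ({v h} : Multiset ℤ)).prod = ∏ h ∈ s, v h ^ w h := by
  classical
  induction s using Finset.induction_on with
  | empty => simp
  | insert a s ha ih =>
    rw [Finset.sum_insert ha, Finset.prod_insert ha, Multiset.prod_add, ih, Multiset.prod_nsmul,
      Multiset.prod_singleton]

theorem val_coin (M : Bool → Multiset (MvPolynomial Ω ℤ)) (a : Ω → ℕ) (x : Ω) :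
    (net Ω).val (coinIn M a) (Sum.inl x : GG Ω) = a x := by
  rw [PNet.val_eq]
  rfl

theorem val_mon (M : Bool → Multiset (MvPolynomial Ω ℤ)) (a : Ω → ℕ) (ε : Bool)
    (m : {m // m ∈ Mon Ω}) :
    (net Ω).val (coinIn M a) (Sum.inr (Sum.inl (ε, m)) : GG Ω) =
      (if ε then 1 else -1) * ∏ x, (a x : ℤ) ^ m.1 x := by
  rw [PNet.val_eq]
  show (if ε then 1 else -1) * (∑ h : GG Ω, wr (Sum.inr (Sum.inl (ε, m))) h •
    ({(net Ω).val (coinIn M a) h} : Multiset ℤ)).prod = _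
  congr 1
  rw [prod_nsmul_single, Fintype.prod_sum_type]
  have h1 : ∏ y : (Bool × {m // m ∈ Mon Ω}) ⊕ ((Bool × {f // f ∈ Fam Ω}) ⊕ (Bool ⊕ Unit)),
      (net Ω).val (coinIn M a) (Sum.inr y : GG Ω) ^ wr (Sum.inr (Sum.inl (ε, m))) (Sum.inr y) = 1 := by
    refine Finset.prod_eq_one fun y _ => ?_
    have : wr (Sum.inr (Sum.inl (ε, m)) : GG Ω) (Sum.inr y) = 0 := by
      rcases y with y | y | y | y <;> rfl
    rw [this, pow_zero]
  rw [h1, mul_one]
  refine Finset.prod_congr rfl fun x _ => ?_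
  rw [val_coin]
  rfl

theorem val_fac (M : Bool → Multiset (MvPolynomial Ω ℤ)) (a : Ω → ℕ) (s : Bool)
    (f : {f // f ∈ Fam Ω}) :
    (net Ω).val (coinIn M a) (Sum.inr (Sum.inr (Sum.inl (s, f))) : GG Ω) =
      (eval (fun x => (a x : ℤ)) f.1) ^ (cnt M (s, f.1)) := by
  rw [PNet.val_eq]
  show (∑ h : GG Ω, wr (Sum.inr (Sum.inr (Sum.inl (s, f)))) h •
    ({(net Ω).val (coinIn M a) h} : Multiset ℤ)).sum ^ (cnt M (s, f.1)) = _
  congr 1
  rw [sum_nsmul_single, Fintype.sum_sum_type, Fintype.sum_sum_type]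
  have h1 : ∑ x : Ω, (wr (Sum.inr (Sum.inr (Sum.inl (s, f))) : GG Ω) (Sum.inl x) : ℤ) *
      (net Ω).val (coinIn M a) (Sum.inl x : GG Ω) = 0 := by
    refine Finset.sum_eq_zero fun x _ => ?_
    have : wr (Sum.inr (Sum.inr (Sum.inl (s, f))) : GG Ω) (Sum.inl x) = 0 := rfl
    rw [this, Nat.cast_zero, zero_mul]
  have h2 : ∑ y : (Bool × {f // f ∈ Fam Ω}) ⊕ (Bool ⊕ Unit),
      (wr (Sum.inr (Sum.inr (Sum.inl (s, f))) : GG Ω) (Sum.inr (Sum.inr y)) : ℤ) *
      (net Ω).val (coinIn M a) (Sum.inr (Sum.inr y) : GG Ω) = 0 := by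
    refine Finset.sum_eq_zero fun y _ => ?_
    have : wr (Sum.inr (Sum.inr (Sum.inl (s, f))) : GG Ω) (Sum.inr (Sum.inr y)) = 0 := by
      rcases y with y | y | y <;> rfl
    rw [this, Nat.cast_zero, zero_mul]
  rw [h1, h2, zero_add, add_zero, Fintype.sum_prod_type, Fintype.sum_bool, eval_Fam f.1 f.2]
  rw [← Finset.sum_coe_sort (Mon Ω) (fun m => coeff m f.1 * ∏ x, (a x : ℤ) ^ m x),
    ← Finset.sum_add_distrib]
  refine Finset.sum_congr rfl fun m _ => ?_
  rw [val_mon, val_mon]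
  have e1 : (wr (Sum.inr (Sum.inr (Sum.inl (s, f))) : GG Ω) (Sum.inr (Sum.inl (true, m)))) =
    (coeff m.1 f.1).toNat := rfl
  have e2 : (wr (Sum.inr (Sum.inr (Sum.inl (s, f))) : GG Ω) (Sum.inr (Sum.inl (false, m)))) =
    (-coeff m.1 f.1).toNat := rfl
  rw [e1, e2]
  simp only [if_true, Bool.false_eq_true, if_false]
  have e3 := Int.toNat_sub_toNat_neg (coeff m.1 f.1)
  calc ((coeff m.1 f.1).toNat : ℤ) * (1 * ∏ x, (a x : ℤ) ^ m.1 x) +
        ((-coeff m.1 f.1).toNat : ℤ) * (-1 * ∏ x, (a x : ℤ) ^ m.1 x)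
      = (((coeff m.1 f.1).toNat : ℤ) - ((-coeff m.1 f.1).toNat : ℤ)) *
          ∏ x, (a x : ℤ) ^ m.1 x := by ring
    _ = _ := by rw [e3]

theorem val_side (M : Bool → Multiset (MvPolynomial Ω ℤ)) (hM : M ∈ Inst Ω) (a : Ω → ℕ)
    (s : Bool) :
    (net Ω).val (coinIn M a) (Sum.inr (Sum.inr (Sum.inr (Sum.inl s))) : GG Ω) =
      eval (fun x => (a x : ℤ)) (M s).prod := by
  rw [PNet.val_eq]
  show (∑ h : GG Ω, wr (Sum.inr (Sum.inr (Sum.inr (Sum.inl s)))) h •
    ({(net Ω).val (coinIn M a) h} : Multiset ℤ)).prod = _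
  rw [prod_nsmul_single, Fintype.prod_sum_type, Fintype.prod_sum_type, Fintype.prod_sum_type]
  have h1 : ∏ x : Ω, (net Ω).val (coinIn M a) (Sum.inl x : GG Ω) ^
      wr (Sum.inr (Sum.inr (Sum.inr (Sum.inl s))) : GG Ω) (Sum.inl x) = 1 :=
    Finset.prod_eq_one fun x _ => by
      have : wr (Sum.inr (Sum.inr (Sum.inr (Sum.inl s))) : GG Ω) (Sum.inl x) = 0 := rfl
      rw [this, pow_zero]
  have h2 : ∏ x : Bool × {m // m ∈ Mon Ω}, (net Ω).val (coinIn M a) (Sum.inr (Sum.inl x) : GG Ω) ^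
      wr (Sum.inr (Sum.inr (Sum.inr (Sum.inl s))) : GG Ω) (Sum.inr (Sum.inl x)) = 1 :=
    Finset.prod_eq_one fun x _ => by
      have : wr (Sum.inr (Sum.inr (Sum.inr (Sum.inl s))) : GG Ω) (Sum.inr (Sum.inl x)) = 0 := rfl
      rw [this, pow_zero]
  have h3 : ∏ y : Bool ⊕ Unit, (net Ω).val (coinIn M a) (Sum.inr (Sum.inr (Sum.inr y)) : GG Ω) ^
      wr (Sum.inr (Sum.inr (Sum.inr (Sum.inl s))) : GG Ω) (Sum.inr (Sum.inr (Sum.inr y))) = 1 :=
    Finset.prod_eq_one fun y _ => by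
      have : wr (Sum.inr (Sum.inr (Sum.inr (Sum.inl s))) : GG Ω)
          (Sum.inr (Sum.inr (Sum.inr y))) = 0 := by
        rcases y with y | y <;> rfl
      rw [this, pow_zero]
  rw [h1, h2, h3, one_mul, one_mul, mul_one, Fintype.prod_prod_type]
  have h4 : ∀ t : Bool, t ≠ s → ∏ f : {f // f ∈ Fam Ω},
      (net Ω).val (coinIn M a) (Sum.inr (Sum.inr (Sum.inl (t, f))) : GG Ω) ^
      wr (Sum.inr (Sum.inr (Sum.inr (Sum.inl s))) : GG Ω) (Sum.inr (Sum.inr (Sum.inl (t, f)))) = 1 := by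
    intro t ht
    refine Finset.prod_eq_one fun f _ => ?_
    have : wr (Sum.inr (Sum.inr (Sum.inr (Sum.inl s))) : GG Ω)
        (Sum.inr (Sum.inr (Sum.inl (t, f)))) = 0 := if_neg ht
    rw [this, pow_zero]
  rw [Finset.prod_eq_single s (fun t _ ht => h4 t ht) (fun h => absurd (mem_univ _) h)]
  rw [prod_cnt M hM s, map_prod, ← Finset.prod_coe_sort (Fam Ω)]
  refine Finset.prod_congr rfl fun f _ => ?_
  have : wr (Sum.inr (Sum.inr (Sum.inr (Sum.inl s))) : GG Ω)
      (Sum.inr (Sum.inr (Sum.inl (s, f)))) = 1 := if_pos rfl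
  rw [this, pow_one, val_fac, map_pow]

theorem val_out (M : Bool → Multiset (MvPolynomial Ω ℤ)) (hM : M ∈ Inst Ω) (a : Ω → ℕ) :
    (net Ω).val (coinIn M a) (net Ω).out =
      ver (eval (fun x => (a x : ℤ)) (M true).prod) (eval (fun x => (a x : ℤ)) (M false).prod) := by
  rw [PNet.val_eq]
  obtain ⟨p, hp⟩ : ∃ p : ℤ, p = eval (fun x => (a x : ℤ)) (M true).prod := ⟨_, rfl⟩
  obtain ⟨q, hq⟩ : ∃ q : ℤ, q = eval (fun x => (a x : ℤ)) (M false).prod := ⟨_, rfl⟩
  obtain ⟨S, hS⟩ : ∃ S : Multiset ℤ, S = ∑ h : GG Ω,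
    wr (Sum.inr (Sum.inr (Sum.inr (Sum.inr ()))) : GG Ω) h •
      ({(net Ω).val (coinIn M a) h} : Multiset ℤ) := ⟨_, rfl⟩
  have hval : ∀ s : Bool, (net Ω).val (coinIn M a) (Sum.inr (Sum.inr (Sum.inr (Sum.inl s))) : GG Ω) =
      if s then p else q := by
    intro s
    rw [val_side M hM]
    cases s
    · exact hq.symm
    · exact hp.symm
  have e1 : S.sum = p + q := by
    rw [hS, sum_nsmul_single, Fintype.sum_sum_type, Fintype.sum_sum_type, Fintype.sum_sum_type,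
      Fintype.sum_sum_type]
    have k1 : ∑ x : Ω, (wr (Sum.inr (Sum.inr (Sum.inr (Sum.inr ()))) : GG Ω) (Sum.inl x) : ℤ) *
        (net Ω).val (coinIn M a) (Sum.inl x : GG Ω) = 0 :=
      Finset.sum_eq_zero fun x _ => by
        have : wr (Sum.inr (Sum.inr (Sum.inr (Sum.inr ()))) : GG Ω) (Sum.inl x) = 0 := rfl
        rw [this, Nat.cast_zero, zero_mul]
    have k2 : ∑ x : Bool × {m // m ∈ Mon Ω},
        (wr (Sum.inr (Sum.inr (Sum.inr (Sum.inr ()))) : GG Ω) (Sum.inr (Sum.inl x)) : ℤ) *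
        (net Ω).val (coinIn M a) (Sum.inr (Sum.inl x) : GG Ω) = 0 :=
      Finset.sum_eq_zero fun x _ => by
        have : wr (Sum.inr (Sum.inr (Sum.inr (Sum.inr ()))) : GG Ω) (Sum.inr (Sum.inl x)) = 0 := rfl
        rw [this, Nat.cast_zero, zero_mul]
    have k3 : ∑ x : Bool × {f // f ∈ Fam Ω},
        (wr (Sum.inr (Sum.inr (Sum.inr (Sum.inr ()))) : GG Ω) (Sum.inr (Sum.inr (Sum.inl x))) : ℤ) *
        (net Ω).val (coinIn M a) (Sum.inr (Sum.inr (Sum.inl x)) : GG Ω) = 0 :=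
      Finset.sum_eq_zero fun x _ => by
        have : wr (Sum.inr (Sum.inr (Sum.inr (Sum.inr ()))) : GG Ω)
          (Sum.inr (Sum.inr (Sum.inl x))) = 0 := rfl
        rw [this, Nat.cast_zero, zero_mul]
    have k4 : ∑ x : Unit,
        (wr (Sum.inr (Sum.inr (Sum.inr (Sum.inr ()))) : GG Ω)
          (Sum.inr (Sum.inr (Sum.inr (Sum.inr x)))) : ℤ) *
        (net Ω).val (coinIn M a) (Sum.inr (Sum.inr (Sum.inr (Sum.inr x))) : GG Ω) = 0 :=
      Finset.sum_eq_zero fun x _ => by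
        have : wr (Sum.inr (Sum.inr (Sum.inr (Sum.inr ()))) : GG Ω)
          (Sum.inr (Sum.inr (Sum.inr (Sum.inr x)))) = 0 := rfl
        rw [this, Nat.cast_zero, zero_mul]
    rw [k1, k2, k3, k4, Fintype.sum_bool, hval, hval]
    have e2 : ∀ s : Bool, wr (Sum.inr (Sum.inr (Sum.inr (Sum.inr ()))) : GG Ω)
      (Sum.inr (Sum.inr (Sum.inr (Sum.inl s)))) = 1 := fun _ => rfl
    rw [e2, e2]
    simp
  have e2 : S.prod = p * q := by
    rw [hS, prod_nsmul_single, Fintype.prod_sum_type, Fintype.prod_sum_type, Fintype.prod_sum_type,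
      Fintype.prod_sum_type]
    have k1 : ∏ x : Ω, (net Ω).val (coinIn M a) (Sum.inl x : GG Ω) ^
        wr (Sum.inr (Sum.inr (Sum.inr (Sum.inr ()))) : GG Ω) (Sum.inl x) = 1 :=
      Finset.prod_eq_one fun x _ => by
        have : wr (Sum.inr (Sum.inr (Sum.inr (Sum.inr ()))) : GG Ω) (Sum.inl x) = 0 := rfl
        rw [this, pow_zero]
    have k2 : ∏ x : Bool × {m // m ∈ Mon Ω},
        (net Ω).val (coinIn M a) (Sum.inr (Sum.inl x) : GG Ω) ^
        wr (Sum.inr (Sum.inr (Sum.inr (Sum.inr ()))) : GG Ω) (Sum.inr (Sum.inl x)) = 1 :=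
      Finset.prod_eq_one fun x _ => by
        have : wr (Sum.inr (Sum.inr (Sum.inr (Sum.inr ()))) : GG Ω) (Sum.inr (Sum.inl x)) = 0 := rfl
        rw [this, pow_zero]
    have k3 : ∏ x : Bool × {f // f ∈ Fam Ω},
        (net Ω).val (coinIn M a) (Sum.inr (Sum.inr (Sum.inl x)) : GG Ω) ^
        wr (Sum.inr (Sum.inr (Sum.inr (Sum.inr ()))) : GG Ω) (Sum.inr (Sum.inr (Sum.inl x))) = 1 :=
      Finset.prod_eq_one fun x _ => by
        have : wr (Sum.inr (Sum.inr (Sum.inr (Sum.inr ()))) : GG Ω)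
          (Sum.inr (Sum.inr (Sum.inl x))) = 0 := rfl
        rw [this, pow_zero]
    have k4 : ∏ x : Unit,
        (net Ω).val (coinIn M a) (Sum.inr (Sum.inr (Sum.inr (Sum.inr x))) : GG Ω) ^
        wr (Sum.inr (Sum.inr (Sum.inr (Sum.inr ()))) : GG Ω)
          (Sum.inr (Sum.inr (Sum.inr (Sum.inr x)))) = 1 :=
      Finset.prod_eq_one fun x _ => by
        have : wr (Sum.inr (Sum.inr (Sum.inr (Sum.inr ()))) : GG Ω)
          (Sum.inr (Sum.inr (Sum.inr (Sum.inr x)))) = 0 := rfl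
        rw [this, pow_zero]
    rw [k1, k2, k3, k4, Fintype.prod_bool, hval, hval]
    have e2 : ∀ s : Bool, wr (Sum.inr (Sum.inr (Sum.inr (Sum.inr ()))) : GG Ω)
      (Sum.inr (Sum.inr (Sum.inr (Sum.inl s)))) = 1 := fun _ => rfl
    rw [e2, e2]
    simp
  show (if (∑ h : GG Ω, wr (Sum.inr (Sum.inr (Sum.inr (Sum.inr ()))) : GG Ω) h •
      ({(net Ω).val (coinIn M a) h} : Multiset ℤ)).sum ^ 2 =
      4 * (∑ h : GG Ω, wr (Sum.inr (Sum.inr (Sum.inr (Sum.inr ()))) : GG Ω) h •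
      ({(net Ω).val (coinIn M a) h} : Multiset ℤ)).prod then
      (if (∑ h : GG Ω, wr (Sum.inr (Sum.inr (Sum.inr (Sum.inr ()))) : GG Ω) h •
      ({(net Ω).val (coinIn M a) h} : Multiset ℤ)).sum = 0 then (2 : ℤ) else 1) else
      if (∑ h : GG Ω, wr (Sum.inr (Sum.inr (Sum.inr (Sum.inr ()))) : GG Ω) h •
      ({(net Ω).val (coinIn M a) h} : Multiset ℤ)).sum = 0 then -1 else 0) = _
  rw [← hS, e1, e2, ← hp, ← hq]
  unfold ver
  have i1 : (p + q) ^ 2 = 4 * (p * q) ↔ p = q := by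
    constructor
    · intro h
      have : (p - q) ^ 2 = 0 := by linarith [sq_nonneg (p - q), h, (by ring : (p - q) ^ 2 = (p + q) ^ 2 - 4 * (p * q))]
      have := pow_eq_zero_iff (two_ne_zero) |>.mp this
      linarith
    · rintro rfl
      ring
  have i2 : p + q = 0 ↔ p = -q := by constructor <;> intro h <;> linarith
  by_cases h : p = q
  · rw [if_pos (i1.mpr h), if_pos h]
    have i3 : p + q = 0 ↔ p = 0 := by
      constructor <;> intro h' <;> omega
    by_cases h' : p = 0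
    · rw [if_pos (i3.mpr h'), if_pos h']
    · rw [if_neg (fun h'' => h' (i3.mp h'')), if_neg h']
  · rw [if_neg (fun h' => h (i1.mp h')), if_neg h]
    by_cases h' : p = -q
    · rw [if_pos (i2.mpr h'), if_pos h']
    · rw [if_neg (fun h'' => h' (i2.mp h'')), if_neg h']

/-! ### symmetry -/

/-- permutation of the monomials -/
noncomputable def pm (g : Equiv.Perm Ω) : Equiv.Perm {m // m ∈ Mon Ω} where
  toFun m := ⟨Finsupp.mapDomain g m.1, Mon_map g m.1 m.2⟩
  invFun m := ⟨Finsupp.mapDomain g.symm m.1, Mon_map g.symm m.1 m.2⟩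
  left_inv m := by
    apply Subtype.ext
    show Finsupp.mapDomain g.symm (Finsupp.mapDomain g m.1) = m.1
    rw [← Finsupp.mapDomain_comp]
    simp [Finsupp.mapDomain_id]
  right_inv m := by
    apply Subtype.ext
    show Finsupp.mapDomain g (Finsupp.mapDomain g.symm m.1) = m.1
    rw [← Finsupp.mapDomain_comp]
    simp [Finsupp.mapDomain_id]

/-- permutation of the factors -/
noncomputable def pf (g : Equiv.Perm Ω) : Equiv.Perm {f // f ∈ Fam Ω} where
  toFun f := ⟨rename g f.1, Fam_map g f.1 f.2⟩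
  invFun f := ⟨rename g.symm f.1, Fam_map g.symm f.1 f.2⟩
  left_inv f := by
    apply Subtype.ext
    show rename g.symm (rename g f.1) = f.1
    rw [rename_rename]
    simp
  right_inv f := by
    apply Subtype.ext
    show rename g (rename g.symm f.1) = f.1
    rw [rename_rename]
    simp

/-- permutation of the gates -/
noncomputable def pg (g : Equiv.Perm Ω) : Equiv.Perm (GG Ω) :=
  Equiv.sumCongr g (Equiv.sumCongr (Equiv.prodCongr (Equiv.refl Bool) (pm g))
    (Equiv.sumCongr (Equiv.prodCongr (Equiv.refl Bool) (pf g)) (Equiv.refl (Bool ⊕ Unit))))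

theorem sym (g : Equiv.Perm Ω) : (net Ω).SymmUnder (coinMap g) := by
  refine ⟨pg g, ?_, ?_, ?_, ?_⟩
  · rfl
  · intro h h'
    show wr (pg g h) (pg g h') = wr h h'
    rcases h with x | ⟨ε, m⟩ | ⟨s, f⟩ | s | u <;> rcases h' with x' | ⟨ε', m'⟩ | ⟨s', f'⟩ | s' | u' <;>
      try rfl
    · show (Finsupp.mapDomain g m.1) (g x') = m.1 x'
      exact Finsupp.mapDomain_apply g.injective _ _
    · show (if ε' then (coeff (Finsupp.mapDomain g m'.1) (rename g f.1)).toNat else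
        (-coeff (Finsupp.mapDomain g m'.1) (rename g f.1)).toNat) =
        if ε' then (coeff m'.1 f.1).toNat else (-coeff m'.1 f.1).toNat
      rw [coeff_rename_mapDomain g g.injective]
  · intro h
    show ip (pg g h) = (ip h).map (coinMap g)
    rcases h with x | ⟨ε, m⟩ | ⟨s, f⟩ | s | u <;> rfl
  · intro h
    show FF (pg g h) = FF h
    rcases h with x | ⟨ε, m⟩ | ⟨s, f⟩ | s | u <;> rfl

theorem card_net : Fintype.card (net Ω).G ≤ 8 * (Fintype.card Ω + 1) ^ 8 := by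
  classical
  have h1 : Fintype.card (net Ω).G = Fintype.card Ω + (2 * (Mon Ω).card + (2 * (Fam Ω).card + (2 + 1))) := by
    have : Fintype.card (net Ω).G = Fintype.card (GG Ω) := Fintype.card_congr (Equiv.refl _)
    rw [this, Fintype.card_sum, Fintype.card_sum, Fintype.card_sum, Fintype.card_sum,
      Fintype.card_prod, Fintype.card_prod, Fintype.card_coe, Fintype.card_coe, Fintype.card_bool,
      Fintype.card_unit]
  have h2 := card_Mon (Ω := Ω)
  have h3 := card_Fam (Ω := Ω)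
  obtain ⟨n, hn⟩ : ∃ n : ℕ, n = Fintype.card Ω := ⟨_, rfl⟩
  rw [← hn] at h1 h2 h3 ⊢
  have k1 : n + 1 ≤ (n + 1) ^ 8 := Nat.le_self_pow (by norm_num) _
  have k2 : (n + 1) ^ 3 ≤ (n + 1) ^ 8 := Nat.pow_le_pow_right (by omega) (by norm_num)
  have k3 : n ^ 8 + n ^ 4 + 1 ≤ (n + 1) ^ 8 := by
    have : (n + 1) ^ 8 = n ^ 8 + n ^ 4 + 1 + (8 * n ^ 7 + 28 * n ^ 6 + 56 * n ^ 5 + 69 * n ^ 4 +
      56 * n ^ 3 + 28 * n ^ 2 + 8 * n) := by ring
    rw [this]
    exact Nat.le_add_right _ _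
  omega

end NETZ

-- TASK NETZ
theorem exists_sz_net (Ω : Type) [Fintype Ω] [DecidableEq Ω] :
    ∃ C : PNet (Fac Ω ⊕ Ω) ℤ, Fintype.card C.G ≤ 8 * (Fintype.card Ω + 1) ^ 8 ∧
      (∀ g : Equiv.Perm Ω, C.SymmUnder (coinMap g)) ∧
      ∀ M ∈ Inst Ω, ∀ a : Ω → ℕ, C.val (coinIn M a) C.out =
        ver (eval (fun x => (a x : ℤ)) (M true).prod) (eval (fun x => (a x : ℤ)) (M false).prod) :=
  ⟨NETZ.net Ω, NETZ.card_net, NETZ.sym, NETZ.val_out⟩

end Pool.Agent.H870R2.PC
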