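import Pool.Agent.H870R2.LS.DDefs
import Pool.Agent.H870R2.LS.ZNet

set_option autoImplicit false
set_option linter.unusedSectionVars false

/-! DNET: a symmetric network that evaluates the determinant of a matrix of polynomials at given
numbers. Written by helper66 (after ZNet.lean by helper330). -/

namespace Pool.Agent.H870R2.PC

open Finset BigOperators MvPolynomial

namespace DNET

open NETZ

variable {Ω : Type} [Fintype Ω] [DecidableEq Ω] {m : ℕ}

theorem eval_deg (f : MvPolynomial Ω ℤ) (hf : f.totalDegree ≤ 3) (a : Ω → ℤ) :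
    eval a f = ∑ μ ∈ Mon Ω, coeff μ f * ∏ x, a x ^ μ x := by
  rw [eval_eq']
  refine Finset.sum_subset (fun μ hμ => mem_Mon μ ((le_totalDegree hμ).trans hf)) fun μ _ hμ => ?_
  rw [notMem_support_iff.mp hμ, zero_mul]

/-- the gates: numbers, monomials of the entries, output -/
abbrev GD (Ω : Type) [Fintype Ω] (m : ℕ) : Type :=
  Ω ⊕ (((Fin m × Fin m) × ({μ // μ ∈ Mon Ω} × Bool)) ⊕ Unit)

/-- the values -/
abbrev KD (m : ℕ) : Type := Option (Fin m × Fin m) × ℤ

/-- the wires -/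
noncomputable def wr : GD Ω m → GD Ω m → ℕ
  | Sum.inr (Sum.inl (_, (μ, _))), Sum.inl x => μ.1 x
  | Sum.inr (Sum.inr _), Sum.inr (Sum.inl _) => 1
  | _, _ => 0

/-- the inputs -/
noncomputable def ip : GD Ω m → Option (Ent Ω m ⊕ Ω)
  | Sum.inl x => some (Sum.inr x)
  | Sum.inr (Sum.inl (ij, (μ, s))) => some (Sum.inl (ij, μ.1, s))
  | Sum.inr (Sum.inr _) => none

/-- the functions of the gates -/
noncomputable def FF : GD Ω m → Option ℕ → Multiset (KD m) → KD m
  | Sum.inl _ => fun o _ => (none, ((o.getD 0 : ℕ) : ℤ))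
  | Sum.inr (Sum.inl (ij, (_, s))) => fun o w =>
      (some ij, (if s then 1 else -1) * ((o.getD 0 : ℕ) : ℤ) * (w.map Prod.snd).prod)
  | Sum.inr (Sum.inr _) => fun _ w =>
      (none, (Matrix.of fun i j : Fin m =>
        (w.map (fun k : KD m => if k.1 = some (i, j) then k.2 else 0)).sum).det)

/-- the rank -/
def rk : GD Ω m → ℕ
  | Sum.inl _ => 0
  | Sum.inr (Sum.inl _) => 1
  | Sum.inr (Sum.inr _) => 2

theorem rk_lt (g h : GD Ω m) (hw : wr g h ≠ 0) : rk h < rk g := by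
  rcases g with x | ⟨ij, μ, s⟩ | u <;> rcases h with x' | ⟨ij', μ', s'⟩ | u' <;>
    simp only [wr, rk] at hw ⊢ <;> omega

open Classical in
/-- the network -/
noncomputable def net (Ω : Type) [Fintype Ω] [DecidableEq Ω] (m : ℕ) :
    PNet (Ent Ω m ⊕ Ω) (KD m) where
  G := GD Ω m
  inp := ip
  wires := wr
  F := FF
  rk := rk
  rk_lt := rk_lt
  out := Sum.inr (Sum.inr ())

theorem sum_map_single {ι K : Type} (s : Finset ι) (w : ι → ℕ) (v : ι → K) (f : K → ℤ) :
    ((∑ h ∈ s, w h • ({v h} : Multiset K)).map f).sum = ∑ h ∈ s, (w h : ℤ) * f (v h) := by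
  classical
  induction s using Finset.induction_on with
  | empty => simp
  | insert a s ha ih =>
    rw [Finset.sum_insert ha, Finset.sum_insert ha, Multiset.map_add, Multiset.sum_add, ih,
      Multiset.map_nsmul, Multiset.map_singleton, Multiset.sum_nsmul, Multiset.sum_singleton,
      nsmul_eq_mul]

theorem prod_map_single {ι K : Type} (s : Finset ι) (w : ι → ℕ) (v : ι → K) (f : K → ℤ) :
    ((∑ h ∈ s, w h • ({v h} : Multiset K)).map f).prod = ∏ h ∈ s, f (v h) ^ w h := by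
  classical
  induction s using Finset.induction_on with
  | empty => simp
  | insert a s ha ih =>
    rw [Finset.sum_insert ha, Finset.prod_insert ha, Multiset.map_add, Multiset.prod_add, ih,
      Multiset.map_nsmul, Multiset.map_singleton, Multiset.prod_nsmul, Multiset.prod_singleton]

theorem val_coin (M : Matrix (Fin m) (Fin m) (MvPolynomial Ω ℤ)) (a : Ω → ℕ) (x : Ω) :
    (net Ω m).val (coinE M a) (Sum.inl x : GD Ω m) = (none, (a x : ℤ)) := by
  rw [PNet.val_eq]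
  rfl

theorem val_mon (M : Matrix (Fin m) (Fin m) (MvPolynomial Ω ℤ)) (a : Ω → ℕ) (ij : Fin m × Fin m)
    (μ : {μ // μ ∈ Mon Ω}) (s : Bool) :
    (net Ω m).val (coinE M a) (Sum.inr (Sum.inl (ij, (μ, s))) : GD Ω m) =
      (some ij, (if s then 1 else -1) * (cof M (ij, μ.1, s) : ℤ) * ∏ x, (a x : ℤ) ^ μ.1 x) := by
  rw [PNet.val_eq]
  show ((some ij, (if s then 1 else -1) * ((cof M (ij, μ.1, s) : ℕ) : ℤ) *
    ((∑ h : GD Ω m, wr (Sum.inr (Sum.inl (ij, (μ, s)))) h •
      ({(net Ω m).val (coinE M a) h} : Multiset (KD m))).map Prod.snd).prod) : KD m) = _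
  congr 2
  rw [prod_map_single, Fintype.prod_sum_type]
  have h1 : ∏ y : ((Fin m × Fin m) × ({μ // μ ∈ Mon Ω} × Bool)) ⊕ Unit,
      ((net Ω m).val (coinE M a) (Sum.inr y : GD Ω m)).2 ^
        wr (Sum.inr (Sum.inl (ij, (μ, s))) : GD Ω m) (Sum.inr y) = 1 := by
    refine Finset.prod_eq_one fun y _ => ?_
    have : wr (Sum.inr (Sum.inl (ij, (μ, s))) : GD Ω m) (Sum.inr y) = 0 := by
      rcases y with y | y <;> rfl
    rw [this, pow_zero]
  rw [h1, mul_one]
  refine Finset.prod_congr rfl fun x _ => ?_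
  rw [val_coin]
  rfl

theorem val_out (M : Matrix (Fin m) (Fin m) (MvPolynomial Ω ℤ))
    (hM : ∀ i j, (M i j).totalDegree ≤ 3) (a : Ω → ℕ) :
    (net Ω m).val (coinE M a) (net Ω m).out =
      (none, (Matrix.of fun i j => eval (fun x => (a x : ℤ)) (M i j)).det) := by
  rw [PNet.val_eq]
  show ((none, (Matrix.of fun i j : Fin m =>
    ((∑ h : GD Ω m, wr (Sum.inr (Sum.inr ()) : GD Ω m) h •
      ({(net Ω m).val (coinE M a) h} : Multiset (KD m))).map
        (fun k : KD m => if k.1 = some (i, j) then k.2 else 0)).sum).det) : KD m) = _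
  congr 3
  ext i j
  rw [sum_map_single, Fintype.sum_sum_type,
    Fintype.sum_sum_type]
  have h1 : ∑ x : Ω, (wr (Sum.inr (Sum.inr ()) : GD Ω m) (Sum.inl x) : ℤ) *
      (if ((net Ω m).val (coinE M a) (Sum.inl x : GD Ω m)).1 = some (i, j) then
        ((net Ω m).val (coinE M a) (Sum.inl x : GD Ω m)).2 else 0) = 0 := by
    refine Finset.sum_eq_zero fun x _ => ?_
    have : wr (Sum.inr (Sum.inr ()) : GD Ω m) (Sum.inl x) = 0 := rfl
    rw [this, Nat.cast_zero, zero_mul]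
  have h2 : ∑ y : Unit, (wr (Sum.inr (Sum.inr ()) : GD Ω m) (Sum.inr (Sum.inr y)) : ℤ) *
      (if ((net Ω m).val (coinE M a) (Sum.inr (Sum.inr y) : GD Ω m)).1 = some (i, j) then
        ((net Ω m).val (coinE M a) (Sum.inr (Sum.inr y) : GD Ω m)).2 else 0) = 0 := by
    refine Finset.sum_eq_zero fun y _ => ?_
    have : wr (Sum.inr (Sum.inr ()) : GD Ω m) (Sum.inr (Sum.inr y)) = 0 := rfl
    rw [this, Nat.cast_zero, zero_mul]
  rw [h1, h2, zero_add, add_zero, Fintype.sum_prod_type]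
  have h3 : ∀ ij : Fin m × Fin m, ij ≠ (i, j) → ∑ q : {μ // μ ∈ Mon Ω} × Bool,
      (wr (Sum.inr (Sum.inr ()) : GD Ω m) (Sum.inr (Sum.inl (ij, q))) : ℤ) *
      (if ((net Ω m).val (coinE M a) (Sum.inr (Sum.inl (ij, q)) : GD Ω m)).1 = some (i, j) then
        ((net Ω m).val (coinE M a) (Sum.inr (Sum.inl (ij, q)) : GD Ω m)).2 else 0) = 0 := by
    intro ij hij
    refine Finset.sum_eq_zero fun q _ => ?_
    rw [if_neg, mul_zero]
    obtain ⟨μ, s⟩ := q
    rw [val_mon]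
    intro h
    exact hij (Option.some.inj h)
  rw [Finset.sum_eq_single (i, j) (fun ij _ hij => h3 ij hij)
    (fun h => absurd (mem_univ _) h), Fintype.sum_prod_type, eval_deg _ (hM i j)]
  rw [← Finset.sum_coe_sort (Mon Ω) (fun μ => coeff μ (M i j) * ∏ x, (a x : ℤ) ^ μ x)]
  refine Finset.sum_congr rfl fun μ _ => ?_
  rw [Fintype.sum_bool, val_mon, val_mon, if_pos rfl, if_pos rfl]
  have e1 : ∀ s : Bool, (wr (Sum.inr (Sum.inr ()) : GD Ω m)
    (Sum.inr (Sum.inl ((i, j), (μ, s))))) = 1 := fun _ => rfl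
  rw [e1, e1]
  have e2 : cof M ((i, j), μ.1, true) = (coeff μ.1 (M i j)).toNat := rfl
  have e3 : cof M ((i, j), μ.1, false) = (-coeff μ.1 (M i j)).toNat := rfl
  rw [e2, e3]
  simp only [if_true, Bool.false_eq_true, if_false]
  have e4 := Int.toNat_sub_toNat_neg (coeff μ.1 (M i j))
  calc ((1 : ℕ) : ℤ) * (1 * ((coeff μ.1 (M i j)).toNat : ℤ) * ∏ x, (a x : ℤ) ^ μ.1 x) +
        ((1 : ℕ) : ℤ) * (-1 * ((-coeff μ.1 (M i j)).toNat : ℤ) * ∏ x, (a x : ℤ) ^ μ.1 x)
      = (((coeff μ.1 (M i j)).toNat : ℤ) - ((-coeff μ.1 (M i j)).toNat : ℤ)) *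
          ∏ x, (a x : ℤ) ^ μ.1 x := by push_cast; ring
    _ = _ := by rw [e4]

/-- permutation of the gates -/
noncomputable def pg (g : Equiv.Perm Ω) : Equiv.Perm (GD Ω m) :=
  Equiv.sumCongr g (Equiv.sumCongr (Equiv.prodCongr (Equiv.refl (Fin m × Fin m))
    (Equiv.prodCongr (pm g) (Equiv.refl Bool))) (Equiv.refl Unit))

theorem sym (g : Equiv.Perm Ω) : (net Ω m).SymmUnder (coinMapE g) := by
  refine ⟨pg g, ?_, ?_, ?_, ?_⟩
  · rfl
  · intro h h'
    show wr (pg g h) (pg g h') = wr h h'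
    rcases h with x | ⟨ij, μ, s⟩ | u <;> rcases h' with x' | ⟨ij', μ', s'⟩ | u' <;>
      try rfl
    show (Finsupp.mapDomain g μ.1) (g x') = μ.1 x'
    exact Finsupp.mapDomain_apply g.injective _ _
  · intro h
    show ip (pg g h) = (ip h).map (coinMapE g)
    rcases h with x | ⟨ij, μ, s⟩ | u <;> rfl
  · intro h
    show FF (pg g h) = FF h
    rcases h with x | ⟨ij, μ, s⟩ | u <;> rfl

theorem card_net : Fintype.card (net Ω m).G ≤ 4 * (m + 1) ^ 2 * (Fintype.card Ω + 1) ^ 3 := by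
  classical
  have h1 : Fintype.card (net Ω m).G =
      Fintype.card Ω + ((m * m) * ((Mon Ω).card * 2) + 1) := by
    have : Fintype.card (net Ω m).G = Fintype.card (GD Ω m) := Fintype.card_congr (Equiv.refl _)
    rw [this, Fintype.card_sum, Fintype.card_sum, Fintype.card_prod, Fintype.card_prod,
      Fintype.card_prod, Fintype.card_coe, Fintype.card_bool, Fintype.card_unit, Fintype.card_fin]
  have h2 := card_Mon (Ω := Ω)
  obtain ⟨n, hn⟩ : ∃ n : ℕ, n = Fintype.card Ω := ⟨_, rfl⟩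
  rw [← hn] at h1 h2 ⊢
  rw [h1]
  have k1 : n + 1 ≤ (n + 1) ^ 3 := Nat.le_self_pow (by norm_num) _
  generalize (n + 1) ^ 3 = k at *
  have k2 : (m * m) * ((Mon Ω).card * 2) ≤ (m * m) * (k * 2) :=
    Nat.mul_le_mul_left _ (Nat.mul_le_mul_right _ h2)
  have k3 : n + ((m * m) * ((Mon Ω).card * 2) + 1) ≤ k + (m * m) * (k * 2) := by omega
  refine k3.trans ?_
  have k4 : 4 * (m + 1) ^ 2 * k = k + (m * m) * (k * 2) + (2 * m * m * k + 8 * m * k + 3 * k) := by
    ring
  rw [k4]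
  exact Nat.le_add_right _ _

end DNET

-- TASK DNET
theorem exists_det_net (Ω : Type) [Fintype Ω] [DecidableEq Ω] (m : ℕ) :
    ∃ C : PNet (Ent Ω m ⊕ Ω) (Option (Fin m × Fin m) × ℤ),
      Fintype.card C.G ≤ 4 * (m + 1) ^ 2 * (Fintype.card Ω + 1) ^ 3 ∧
      (∀ g : Equiv.Perm Ω, C.SymmUnder (coinMapE g)) ∧
      ∀ M : Matrix (Fin m) (Fin m) (MvPolynomial Ω ℤ), (∀ i j, (M i j).totalDegree ≤ 3) →
        ∀ a : Ω → ℕ, C.val (coinE M a) C.out =
          (none, (Matrix.of fun i j => eval (fun x => (a x : ℤ)) (M i j)).det) :=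
  ⟨DNET.net Ω m, DNET.card_net, DNET.sym, DNET.val_out⟩

end Pool.Agent.H870R2.PC
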