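import Pool.Agent.H870R2.LS.DFinal

set_option autoImplicit false
set_option linter.unusedSectionVars false

/-! Symmetrisation of a network, general form. -/

namespace Pool.Agent.H870R2.PC

open Finset BigOperators H522R2.LS MvPolynomial

variable {K Ω σ : Type} [Fintype Ω] [DecidableEq Ω] {m : ℕ} (AA : Act Ω σ)

open Classical in
/-- the symmetrised network -/
noncomputable def symA {r : ℕ} (β : Fin r × Fin 4 ↪ Ω) (C : PNet (σ) K) : PNet (σ) K where
  G := ((Fin r → Equiv.Perm (Fin 4)) × C.G) ⊕ Unit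
  inp x := match x with
    | Sum.inl (g, h) => (C.inp h).map (AA.act (bp β g))
    | Sum.inr _ => none
  F x := match x with
    | Sum.inl (_, h) => C.F h
    | Sum.inr _ => fun o m => if h : ∃ k, k ∈ m then h.choose else C.F C.out o m
  wires x y := match x, y with
    | Sum.inl (g, h), Sum.inl (g', h') => if g = g' then C.wires h h' else 0
    | Sum.inr _, Sum.inl (_, h) => if h = C.out then 1 else 0
    | _, _ => 0
  rk x := match x with
    | Sum.inl (_, h) => C.rk h
    | Sum.inr _ => C.rk C.out + 1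
  rk_lt x y h := by
    rcases x with ⟨g, x⟩ | t <;> rcases y with ⟨g', y⟩ | t'
    · simp only at h ⊢
      by_cases hg : g = g'
      · rw [if_pos hg] at h
        exact C.rk_lt x y h
      · rw [if_neg hg] at h
        exact absurd rfl h
    · exact absurd rfl h
    · simp only at h ⊢
      by_cases hy : y = C.out
      · subst hy
        exact Nat.lt_succ_self _
      · exact absurd (if_neg hy) h
    · exact absurd rfl h
  out := Sum.inr ()

theorem symA_val {r : ℕ} (β : Fin r × Fin 4 ↪ Ω) (C : PNet (σ) K) (A : σ → ℕ)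
    (g : Fin r → Equiv.Perm (Fin 4)) : ∀ (n : ℕ) (h : C.G), C.rk h = n →
      (symA AA β C).val A (Sum.inl (g, h)) = C.val (A ∘ AA.act (bp β g)) h := by
  classical
  intro n
  induction n using Nat.strong_induction_on with
  | _ n ih =>
    intro h hn
    rw [PNet.val_eq, PNet.val_eq C]
    show C.F h _ _ = C.F h _ _
    congr 1
    · show ((C.inp h).map (AA.act (bp β g))).map A = _
      rcases C.inp h <;> rfl
    · show ∑ y : ((Fin r → Equiv.Perm (Fin 4)) × C.G) ⊕ Unit,
        (symA AA β C).wires (Sum.inl (g, h)) y • ({(symA AA β C).val A y} : Multiset K) = _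
      rw [Fintype.sum_sum_type, Fintype.sum_prod_type]
      have h1 : ∑ y : Unit, (symA AA β C).wires (Sum.inl (g, h)) (Sum.inr y) •
          ({(symA AA β C).val A (Sum.inr y)} : Multiset K) = 0 := by
        refine Finset.sum_eq_zero (fun y _ => ?_)
        show 0 • _ = _
        rw [zero_smul]
      rw [h1, add_zero, Finset.sum_eq_single g]
      · refine Finset.sum_congr rfl (fun x _ => ?_)
        have hw : (symA AA β C).wires (Sum.inl (g, h)) (Sum.inl (g, x)) = C.wires h x := if_pos rfl
        rw [hw]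
        by_cases hx : C.wires h x = 0
        · rw [hx, zero_smul, zero_smul]
        · rw [ih (C.rk x) (hn ▸ C.rk_lt h x hx) x rfl]
      · intro g' _ hg'
        refine Finset.sum_eq_zero (fun x _ => ?_)
        have hw : (symA AA β C).wires (Sum.inl (g, h)) (Sum.inl (g', x)) = 0 := if_neg (Ne.symm hg')
        rw [hw, zero_smul]
      · intro h'; exact absurd (Finset.mem_univ _) h'

theorem symA_F_out {r : ℕ} (β : Fin r × Fin 4 ↪ Ω) (C : PNet (σ) K) (o : Option ℕ) (k : K) (n : ℕ)
    (hn : 0 < n) : (symA AA β C).F (symA AA β C).out o (n • ({k} : Multiset K)) = k := by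
  classical
  have hex : ∃ k', k' ∈ n • ({k} : Multiset K) :=
    ⟨k, Multiset.mem_nsmul.2 ⟨by omega, Multiset.mem_singleton_self k⟩⟩
  show (if h : ∃ k', k' ∈ n • ({k} : Multiset K) then h.choose else _) = k
  rw [dif_pos hex]
  exact Multiset.mem_singleton.1 (Multiset.mem_of_mem_nsmul hex.choose_spec)

theorem symA_out {r : ℕ} (β : Fin r × Fin 4 ↪ Ω) (C : PNet (σ) K) (A : σ → ℕ) (k : K)
    (h : ∀ g, C.val (A ∘ AA.act (bp β g)) C.out = k) :
    (symA AA β C).val A (symA AA β C).out = k := by
  classical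
  rw [PNet.val_eq]
  have h1 : ∑ y, (symA AA β C).wires (symA AA β C).out y • ({(symA AA β C).val A y} : Multiset K) =
      (24 ^ r) • ({k} : Multiset K) := by
    show ∑ y : ((Fin r → Equiv.Perm (Fin 4)) × C.G) ⊕ Unit,
        (symA AA β C).wires (Sum.inr ()) y • ({(symA AA β C).val A y} : Multiset K) = _
    rw [Fintype.sum_sum_type, Fintype.sum_prod_type]
    have h1 : ∑ y : Unit, (symA AA β C).wires (Sum.inr ()) (Sum.inr y) •
        ({(symA AA β C).val A (Sum.inr y)} : Multiset K) = 0 := by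
      refine Finset.sum_eq_zero (fun y _ => ?_)
      show 0 • _ = _
      rw [zero_smul]
    have h2 : ∀ g : Fin r → Equiv.Perm (Fin 4), ∑ x : C.G,
        (symA AA β C).wires (Sum.inr ()) (Sum.inl (g, x)) •
        ({(symA AA β C).val A (Sum.inl (g, x))} : Multiset K) = {k} := by
      intro g
      rw [Finset.sum_eq_single C.out]
      · have hw : (symA AA β C).wires (Sum.inr ()) (Sum.inl (g, C.out)) = 1 := if_pos rfl
        rw [hw, one_smul, symA_val AA β C A g _ C.out rfl, h g]
      · intro x _ hx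
        have hw : (symA AA β C).wires (Sum.inr ()) (Sum.inl (g, x)) = 0 := if_neg hx
        rw [hw, zero_smul]
      · intro h'; exact absurd (Finset.mem_univ _) h'
    rw [h1, add_zero, Finset.sum_congr rfl (fun g _ => h2 g), Finset.sum_const, Finset.card_univ,
      card_blocks]
  rw [h1]
  exact symA_F_out AA β C _ k _ (by positivity)

theorem symA_symm {r : ℕ} (β : Fin r × Fin 4 ↪ Ω) (C : PNet (σ) K)
    (g0 : Fin r → Equiv.Perm (Fin 4)) : (symA AA β C).SymmUnder (AA.act (bp β g0)) := by
  classical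
  refine ⟨Equiv.sumCongr (Equiv.prodCongr (Equiv.mulLeft g0) (Equiv.refl _)) (Equiv.refl _),
    rfl, ?_, ?_, ?_⟩
  · rintro (⟨g, h⟩ | t) (⟨g', h'⟩ | t')
    · show (if g0 * g = g0 * g' then C.wires h h' else 0) = if g = g' then C.wires h h' else 0
      simp only [mul_right_inj]
    · rfl
    · rfl
    · rfl
  · rintro (⟨g, h⟩ | t)
    · show (C.inp h).map (AA.act (bp β (g0 * g))) =
        ((C.inp h).map (AA.act (bp β g))).map (AA.act (bp β g0))
      rw [bp_mul, AA.mul]
      rcases C.inp h <;> rfl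
    · rfl
  · rintro (⟨g, h⟩ | t)
    · rfl
    · rfl

theorem symA_card {r : ℕ} (β : Fin r × Fin 4 ↪ Ω) (C : PNet (σ) K) :
    Fintype.card (symA AA β C).G = 24 ^ r * Fintype.card C.G + 1 := by
  show Fintype.card (((Fin r → Equiv.Perm (Fin 4)) × C.G) ⊕ Unit) = _
  rw [Fintype.card_sum, Fintype.card_prod, card_blocks, Fintype.card_unit]

theorem det_rename (g : Equiv.Perm Ω) (M : Matrix (Fin m) (Fin m) (MvPolynomial Ω ℤ)) :
    (Matrix.of fun i j => rename g (M i j)).det = rename g M.det := by
  have h := (AlgHom.map_det (rename g : MvPolynomial Ω ℤ →ₐ[ℤ] MvPolynomial Ω ℤ) M).symm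
  rw [← h]
  rfl

theorem exists_symm_mat {r : ℕ} (β : Fin r × Fin 4 ↪ Ω) (C : PNet (Ent Ω m) K) (enc : Prop → K)
    (hC : ∀ M : Matrix (Fin m) (Fin m) (MvPolynomial Ω ℤ), (∀ i j, (M i j).totalDegree ≤ 3) →
      C.val (cof M) C.out = enc (M.det = 0)) :
    ∃ C' : PNet (Ent Ω m) K,
      (∀ M : Matrix (Fin m) (Fin m) (MvPolynomial Ω ℤ), (∀ i j, (M i j).totalDegree ≤ 3) →
        C'.val (cof M) C'.out = enc (M.det = 0)) ∧
      (∀ g : Equiv.Perm Ω, Preserves β g → C'.SymmUnder (entMap g)) ∧
      Fintype.card C'.G = 24 ^ r * Fintype.card C.G + 1 ∧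
      (∀ g', g' ≠ C'.out → ∃ g, C'.F g' = C.F g) ∧
      ∀ (o : Option ℕ) (k : K) (n : ℕ), 0 < n → C'.F C'.out o (n • ({k} : Multiset K)) = k := by
  refine ⟨symA (entAct Ω m) β C, ?_, ?_, symA_card (entAct Ω m) β C, ?_,
    symA_F_out (entAct Ω m) β C⟩
  · intro M hM
    refine symA_out (entAct Ω m) β C _ _ (fun g => ?_)
    have h1 : cof M ∘ (entAct Ω m).act (bp β g) =
        cof (Matrix.of fun i j => rename ((bp β g)⁻¹ : Equiv.Perm Ω) (M i j)) := by
      funext q
      refine cof_entMap _ M (bp β g) (fun i j => ?_) q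
      show M i j = rename (bp β g) (rename ((bp β g)⁻¹ : Equiv.Perm Ω) (M i j))
      rw [rename_rename]
      have : ((bp β g : Equiv.Perm Ω) : Ω → Ω) ∘ ((bp β g)⁻¹ : Equiv.Perm Ω) = id := by
        funext x; simp
      rw [this, rename_id_apply]
    have h2 := hC (Matrix.of fun i j => rename ((bp β g)⁻¹ : Equiv.Perm Ω) (M i j))
      (fun i j => (totalDegree_rename_le _ _).trans (hM i j))
    rw [h1, h2, det_rename]
    congr 1
    refine propext ⟨fun h => ?_, fun h => ?_⟩
    · apply rename_injective _ (Equiv.injective ((bp β g)⁻¹ : Equiv.Perm Ω))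
      rw [h, map_zero]
    · rw [h, map_zero]
  · intro g hg
    obtain ⟨g0, rfl⟩ := exists_bp β g hg
    exact symA_symm (entAct Ω m) β C g0
  · rintro (⟨g, h⟩ | t) hne
    · exact ⟨h, rfl⟩
    · exact absurd rfl hne

end Pool.Agent.H870R2.PC
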