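import Pool.Agent.H870R2.LS.TDefs

set_option autoImplicit false
set_option linter.unusedSectionVars false

/-! DODGE: combinatorics of a token on a binary tree. -/

namespace Pool.Agent.H870R2.LS

namespace Dodge

theorem anc_refl (v : ℕ) : anc v v := ⟨0, by simp⟩

theorem anc_trans {x y z : ℕ} (h1 : anc x y) (h2 : anc y z) : anc x z := by
  obtain ⟨i, rfl⟩ := h1
  obtain ⟨j, rfl⟩ := h2
  exact ⟨j + i, by rw [pow_add, Nat.div_div_eq_div_mul]⟩

theorem anc_comp {x y v : ℕ} (h1 : anc x v) (h2 : anc y v) : anc x y ∨ anc y x := by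
  obtain ⟨i, rfl⟩ := h1
  obtain ⟨j, rfl⟩ := h2
  rcases le_total i j with h | h
  · right
    refine ⟨j - i, ?_⟩
    rw [Nat.div_div_eq_div_mul, ← pow_add, Nat.add_sub_cancel' h]
  · left
    refine ⟨i - j, ?_⟩
    rw [Nat.div_div_eq_div_mul, ← pow_add, Nat.add_sub_cancel' h]

/-- moves below `x` are free for `y` not below `x` -/
theorem free {x y v w : ℕ} (hv : anc x v) (hw : anc x w) (hy : ¬ anc x y) :
    anc y v ↔ anc y w := by
  constructor
  · intro h
    rcases anc_comp h hv with h' | h'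
    · exact anc_trans h' hw
    · exact absurd h' hy
  · intro h
    rcases anc_comp h hw with h' | h'
    · exact anc_trans h' hv
    · exact absurd h' hy

/-- nodes of the same level have no common descendant -/
theorem anc_unique {m u u' y : ℕ} (hm : 1 ≤ m) (hu : m ≤ u) (hu2 : u < 2 * m) (hu' : m ≤ u')
    (hu2' : u' < 2 * m) (h : anc u y) (h' : anc u' y) : u = u' := by
  have key : ∀ p r : ℕ, m ≤ p → r < 2 * m → anc p r → p = r := by
    rintro p r hp hr ⟨j, hj⟩
    rcases Nat.eq_zero_or_pos j with rfl | hj0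
    · simpa using hj.symm
    · exfalso
      have h1 : r / 2 ^ j ≤ r / 2 := by
        apply Nat.div_le_div_left _ (by norm_num)
        calc 2 = 2 ^ 1 := by norm_num
          _ ≤ 2 ^ j := Nat.pow_le_pow_right (by norm_num) hj0
      omega
  rcases anc_comp h h' with h1 | h1
  · exact key _ _ hu hu2' h1
  · exact (key _ _ hu' hu2 h1).symm

theorem sib {x i k y : ℕ} (hx : 1 ≤ x) (hi : i < 4) (hk : k < 4) (hne : i ≠ k)
    (h : anc (4 * x + i) y) : ¬ anc (4 * x + k) y := by
  intro h'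
  have := anc_unique (m := 4 * x) (by omega) (by omega) (by omega) (by omega) (by omega) h h'
  omega

theorem exists_leaf {ρ D x : ℕ} (hD : ρ < 2 ^ D) (hx : 1 ≤ x) (R : Finset ℕ) (hR : R.card ≤ ρ) :
    ∃ u, u / 2 ^ D = x ∧ ∀ y ∈ R, ¬ anc u y := by
  by_contra hcon
  push Not at hcon
  have h1 : ∀ i, i < 2 ^ D → (x * 2 ^ D + i) / 2 ^ D = x := by
    intro i hi
    rw [Nat.mul_comm, Nat.mul_add_div (by positivity), Nat.div_eq_of_lt hi, Nat.add_zero]
  have h2 : ∀ i, ∃ y, i < 2 ^ D → y ∈ R ∧ anc (x * 2 ^ D + i) y := by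
    intro i
    by_cases hi : i < 2 ^ D
    · obtain ⟨y, hy1, hy2⟩ := hcon _ (h1 i hi)
      exact ⟨y, fun _ => ⟨hy1, hy2⟩⟩
    · exact ⟨0, fun h => absurd h hi⟩
  choose f hf using h2
  have h3 : (Finset.range (2 ^ D)).card ≤ R.card := by
    apply Finset.card_le_card_of_injOn f
    · intro i hi
      exact Finset.mem_coe.2 (hf i (by simpa using hi)).1
    · intro i hi j hj hij
      have hi' : i < 2 ^ D := by simpa using hi
      have hj' : j < 2 ^ D := by simpa using hj
      have a1 := (hf i hi').2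
      have a2 := (hf j hj').2
      rw [← hij] at a2
      have hxD : 2 ^ D ≤ x * 2 ^ D := Nat.le_mul_of_pos_left _ hx
      have := anc_unique (m := x * 2 ^ D) (by have := Nat.one_le_two_pow (n := D); omega)
        (by omega) (by omega) (by omega) (by omega) a1 a2
      omega
  rw [Finset.card_range] at h3
  omega

/-- the conclusion on the interval `[a, b]` -/
def Good (D : ℕ) (S Rd : ℕ → Finset ℕ) (n x a b : ℕ) (v : ℕ → ℕ) : Prop :=
  (∀ t, a ≤ t → t ≤ b → v t / 2 ^ (n + D) = x ∧ ∀ y ∈ Rd t, ¬ anc (v t) y) ∧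
    ∀ t, a ≤ t → t < b → ∀ y ∈ S (t + 1), (anc y (v t) ↔ anc y (v (t + 1)))

/-- the hypothesis: at most `c` elements of `S t` are below `x` for `t` in `(a, b]` -/
def Few (S : ℕ → Finset ℕ) (c x a b : ℕ) : Prop :=
  ∀ t, a < t → t ≤ b → ∀ T, T ⊆ S t → (∀ y ∈ T, anc x y) → T.card ≤ c

theorem base {ρ D : ℕ} (hD : ρ < 2 ^ D) (S Rd : ℕ → Finset ℕ) (hR : ∀ t, (Rd t).card ≤ ρ)
    (x a b : ℕ) (hx : 1 ≤ x) (hF : Few S 0 x a b) : ∃ v, Good D S Rd 0 x a b v := by
  have h := fun t => exists_leaf hD hx (Rd t) (hR t)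
  choose v hv using h
  refine ⟨v, fun t _ _ => ⟨by rw [Nat.zero_add]; exact (hv t).1, (hv t).2⟩, ?_⟩
  intro t ht1 ht2 y hy
  apply free ⟨D, (hv t).1⟩ ⟨D, (hv (t + 1)).1⟩
  intro hxy
  have := hF (t + 1) (by omega) (by omega) {y} (by simpa using hy) (by simpa using hxy)
  simp at this

theorem claim {D : ℕ} (S Rd : ℕ → Finset ℕ) (c x : ℕ) (hx : 1 ≤ x)
    (IH : ∀ x' a b, 1 ≤ x' → a ≤ b → Few S c x' a b → ∃ v, Good D S Rd (2 * c) x' a b v) :
    ∀ n a b, b - a ≤ n → a ≤ b → Few S (c + 1) x a b → ∀ k0 k1, k0 < 4 → k1 < 4 →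
      ∃ v : ℕ → ℕ, (∀ t, a ≤ t → t ≤ b → (∃ i < 3, v t / 2 ^ (2 * c + D) = 4 * x + i) ∧
        ∀ y ∈ Rd t, ¬ anc (v t) y) ∧
        (∀ t, a ≤ t → t < b → ∀ y ∈ S (t + 1), (anc y (v t) ↔ anc y (v (t + 1)))) ∧
        ¬ anc (4 * x + k0) (v a) ∧ ¬ anc (4 * x + k1) (v b) := by
  intro n
  induction n with
  | zero =>
    intro a b hn hab hF k0 k1 hk0 hk1
    have hab' : a = b := by omega
    subst hab'
    obtain ⟨i, hi, hi0, hi1⟩ : ∃ i, i < 3 ∧ i ≠ k0 ∧ i ≠ k1 := by
      by_contra h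
      push Not at h
      have := h 0
      have := h 1
      have := h 2
      omega
    obtain ⟨v, hv1, hv2⟩ := IH (4 * x + i) a a (by omega) le_rfl (fun t h1 h2 => by omega)
    refine ⟨v, fun t h1 h2 => ⟨⟨i, hi, (hv1 t h1 h2).1⟩, (hv1 t h1 h2).2⟩, hv2, ?_, ?_⟩
    · exact sib hx (by omega) hk0 hi0 ⟨_, (hv1 a le_rfl le_rfl).1⟩
    · exact sib hx (by omega) hk1 hi1 ⟨_, (hv1 a le_rfl le_rfl).1⟩
  | succ n ih =>
    intro a b hn hab hF k0 k1 hk0 hk1
    obtain ⟨i, hi, hi0, hi1⟩ : ∃ i, i < 3 ∧ i ≠ k0 ∧ i ≠ k1 := by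
      by_contra h
      push Not at h
      have := h 0
      have := h 1
      have := h 2
      omega
    by_cases hbad : Few S c (4 * x + i) a b
    · obtain ⟨v, hv1, hv2⟩ := IH (4 * x + i) a b (by omega) hab hbad
      refine ⟨v, fun t h1 h2 => ⟨⟨i, hi, (hv1 t h1 h2).1⟩, (hv1 t h1 h2).2⟩, hv2, ?_, ?_⟩
      · exact sib hx (by omega) hk0 hi0 ⟨_, (hv1 a le_rfl hab).1⟩
      · exact sib hx (by omega) hk1 hi1 ⟨_, (hv1 b hab le_rfl).1⟩
    · unfold Few at hbad
      push Not at hbad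
      obtain ⟨s, hs1, hs2, T, hT1, hT2, hT3⟩ := hbad
      obtain ⟨v1, p1, p2, p3, p4⟩ := ih a (s - 1) (by omega) (by omega)
        (fun t h1 h2 => hF t h1 (by omega)) k0 i hk0 (by omega)
      obtain ⟨v2, q1, q2, q3, q4⟩ := ih s b (by omega) (by omega)
        (fun t h1 h2 => hF t (by omega) h2) i k1 (by omega) hk1
      have hbelow : ∀ u, (∃ i < 3, u / 2 ^ (2 * c + D) = 4 * x + i) → anc x u := by
        rintro u ⟨i', hi', hu⟩
        exact anc_trans (y := 4 * x + i') ⟨2, by norm_num; omega⟩ ⟨_, hu⟩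
      refine ⟨fun t => if t < s then v1 t else v2 t, ?_, ?_, ?_, ?_⟩
      · intro t h1 h2
        by_cases hts : t < s
        · simp only [hts, if_true]
          exact p1 t h1 (by omega)
        · simp only [hts, if_false]
          exact q1 t (by omega) h2
      · intro t h1 h2 y hy
        by_cases hts : t + 1 < s
        · have hts' : t < s := by omega
          simp only [hts, hts', if_true]
          exact p2 t h1 (by omega) y hy
        · by_cases hts2 : t < s
          · have hst : s = t + 1 := by omega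
            simp only [hts, hts2, if_true, if_false]
            subst hst
            have b1 : anc x (v1 t) := hbelow _ (p1 t h1 (by omega)).1
            have b2 : anc x (v2 (t + 1)) := hbelow _ (q1 (t + 1) le_rfl hs2).1
            by_cases hxy : anc x y
            · have hyT : y ∈ T := by
                by_contra hyT
                have hc := hF (t + 1) hs1 hs2 (insert y T) (Finset.insert_subset hy hT1) (by
                  intro z hz
                  rcases Finset.mem_insert.1 hz with rfl | hz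
                  · exact hxy
                  · exact anc_trans (y := 4 * x + i) ⟨2, by norm_num; omega⟩ (hT2 z hz))
                rw [Finset.card_insert_of_notMem hyT] at hc
                omega
              have hby := hT2 y hyT
              have e1 : ¬ anc y (v1 t) := fun h => p4 (anc_trans hby h)
              have e2 : ¬ anc y (v2 (t + 1)) := fun h => q3 (anc_trans hby h)
              exact ⟨fun h => absurd h e1, fun h => absurd h e2⟩
            · exact free b1 b2 hxy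
          · simp only [hts, hts2, if_false]
            exact q2 t (by omega) h2 y hy
      · simp only [show a < s from hs1, if_true]
        exact p3
      · simp only [show ¬ b < s by omega, if_false]
        exact q4

theorem main {ρ D : ℕ} (hD : ρ < 2 ^ D) (S Rd : ℕ → Finset ℕ) (hR : ∀ t, (Rd t).card ≤ ρ) :
    ∀ c x a b, 1 ≤ x → a ≤ b → Few S c x a b → ∃ v, Good D S Rd (2 * c) x a b v := by
  intro c
  induction c with
  | zero =>
    intro x a b hx _ hF
    exact base hD S Rd hR x a b hx hF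
  | succ c ih =>
    intro x a b hx hab hF
    obtain ⟨v, h1, h2, _, _⟩ := claim S Rd c x hx ih (b - a) a b le_rfl hab hF 3 3 (by norm_num)
      (by norm_num)
    refine ⟨v, ?_, h2⟩
    intro t ht1 ht2
    obtain ⟨⟨i, hi, hv⟩, hR'⟩ := h1 t ht1 ht2
    refine ⟨?_, hR'⟩
    have e : 2 * (c + 1) + D = (2 * c + D) + 2 := by ring
    rw [e, pow_add, ← Nat.div_div_eq_div_mul, hv]
    norm_num
    omega

end Dodge

/-- DODGE -/
theorem dodge (ρ D : ℕ) (hD : ρ < 2 ^ D) (c x : ℕ) (hx : 1 ≤ x) (b : ℕ) (S Rd : ℕ → Finset ℕ)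
    (hS : ∀ t, (S t).card ≤ c) (hR : ∀ t, (Rd t).card ≤ ρ) :
    ∃ v : ℕ → ℕ, (∀ t ≤ b, v t / 2 ^ (2 * c + D) = x ∧ ∀ y ∈ Rd t, ¬ anc (v t) y) ∧
      (∀ t < b, ∀ y ∈ S (t + 1), (anc y (v t) ↔ anc y (v (t + 1)))) := by
  obtain ⟨v, h1, h2⟩ := Dodge.main hD S Rd hR c x 0 b hx (Nat.zero_le _)
    (fun t _ _ T hT _ => (Finset.card_le_card hT).trans (hS t))
  exact ⟨v, fun t ht => h1 t (Nat.zero_le _) ht, fun t ht => h2 t (Nat.zero_le _) ht⟩

end Pool.Agent.H870R2.LS
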