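import Pool.Agent.H870R2.LS.Defs

set_option autoImplicit false
set_option linter.unusedSectionVars false

/-! The fan-out of the gates of a circuit. -/

namespace Pool.Agent.H870R2.LS

/-- The number of gates that the gate `h` feeds, that is, of the gates in whose network at least
one arc is controlled by `h`. -/
noncomputable def Ckt.feeds {I Q : Type*} (C : Ckt I Q) (h : Q) : ℕ :=
  {g | ∃ a b, 0 < C.wire g a b (some (Sum.inr h))}.ncard

/-- Every gate feeds at most `f` gates. -/
def Ckt.FanOut {I Q : Type*} (C : Ckt I Q) (f : ℕ) : Prop := ∀ h, C.feeds h ≤ f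

end Pool.Agent.H870R2.LS
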