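import Pool.Agent.H870R2.LS.MainP

set_option autoImplicit false
set_option linter.unusedSectionVars false

/-! Pushdown networks that never push are switching networks. -/

namespace Pool.Agent.H870R2.LS

open Finset

theorem run_noPush {I Q : Type*} (N : PNet I Q) (h0 : ∀ a s b, ¬ N.push a s b) (x : Set I)
    (n : ℕ) (a : Q) (q : Q × List Q) (h : N.Run x n (a, []) q) :
    q.2 = [] ∧ Relation.ReflTransGen ((⟨N.arc, N.src, N.tgt⟩ : SNet I Q).Open x) a q.1 := by
  induction n generalizing a with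
  | zero =>
    have h1 : (a, ([] : List Q)) = q := h
    rw [← h1]
    exact ⟨rfl, Relation.ReflTransGen.refl⟩
  | succ n ih =>
    obtain ⟨p, hp, hr⟩ := h
    generalize hst : ([] : List Q) = st at hp
    rcases hp with ⟨_, b, _, ho⟩ | ⟨_, s, b, _, hp⟩ | ⟨_, s, b, _, hp⟩
    · subst hst
      obtain ⟨h1, h2⟩ := ih b hr
      exact ⟨h1, Relation.ReflTransGen.head ho h2⟩
    · exact absurd hp (h0 _ _ _)
    · exact absurd hst (by intro h; cases h)

theorem acc_noPush {I Q : Type*} (N : PNet I Q) (h0 : ∀ a s b, ¬ N.push a s b) (x : Set I) :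
    (⟨N.arc, N.src, N.tgt⟩ : SNet I Q).Acc x ↔ ∃ n, N.AccIn x n := by
  constructor
  · intro h
    unfold SNet.Acc at h
    change Relation.ReflTransGen (N.Open x) N.src N.tgt at h
    unfold PNet.AccIn
    generalize N.src = a at h
    induction h using Relation.ReflTransGen.head_induction_on with
    | refl => exact ⟨0, rfl⟩
    | head h1 _ ih =>
      obtain ⟨n, hn⟩ := ih
      exact ⟨n + 1, _, PNet.Step.arc _ _ _ h1, hn⟩
  · rintro ⟨n, hn⟩
    exact (run_noPush N h0 x n N.src _ hn).2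

/-- **Lower bound for networks that do not use their pushdown store.** -/
theorem lower_noPush {V Q : Type} [Fintype V] [Fintype Q] (N : PNet (Inp V) Q)
    (h0 : ∀ a s b, ¬ N.push a s b) (t : V)
    (hN : ∀ x, (∃ n, N.AccIn x n) ↔ Der x t) (r : ℕ) (blk : Fin r → (Fin 5 ↪ V))
    (hd : Pairwise fun i j => Disjoint (Set.range (blk i)) (Set.range (blk j)))
    (ht : ∀ i, t ∉ Set.range (blk i)) (hs : ∀ i, N.SymOn (blk i)) (k : ℕ) (hk : 1 ≤ k)
    (hr : 3000 * k ^ 3 * (Nat.log 5 r + 2) ^ 2 ≤ r) :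
    5 ^ k ≤ Fintype.card Q := by
  apply lower_net (⟨N.arc, N.src, N.tgt⟩ : SNet (Inp V) Q) t
    (fun x => (acc_noPush N h0 x).trans (hN x)) r blk hd ht _ k hk hr
  intro i a ha p hp hp'
  obtain ⟨φ, hφ⟩ := hs i a ha p hp hp'
  exact ⟨φ, hφ.arc, hφ.src, hφ.tgt⟩

end Pool.Agent.H870R2.LS
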