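import Pool.Agent.H870R2.LS.Defs2

set_option autoImplicit false
set_option linter.unusedSectionVars false

namespace Pool.Agent.H870R2.LS

open Finset

section walk
variable {Q : Type*} [Fintype Q]

theorem walks_add (A : Q → Q → ℕ) (k l : ℕ) (a b : Q) :
    walks A (k + l) a b = ∑ c, walks A k a c * walks A l c b := by
  classical
  induction k generalizing a with
  | zero =>
    simp only [Nat.zero_add, walks]
    simp
  | succ k ih =>
    rw [Nat.succ_add_eq_add_succ, Nat.add_succ]
    simp only [walks]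
    simp only [ih, Finset.mul_sum, Finset.sum_mul]
    rw [Finset.sum_comm]
    apply Finset.sum_congr rfl
    intro c _
    apply Finset.sum_congr rfl
    intro d _
    ring

theorem walks_eq_pow [DecidableEq Q] (A : Q → Q → ℕ) (k : ℕ) (a b : Q) :
    ((walks A k a b : ℕ) : ℤ) = ((Matrix.of fun i j => (A i j : ℤ)) ^ k) a b := by
  induction k generalizing a with
  | zero =>
    simp only [walks, pow_zero, Matrix.one_apply]
    push_cast
    congr 1
  | succ k ih =>
    rw [pow_succ', Matrix.mul_apply]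
    simp only [walks]
    push_cast
    apply Finset.sum_congr rfl
    intro c _
    rw [ih]
    rfl

theorem walks_det (A A' : Q → Q → ℕ) (e e' : Q × Q → ℕ)
    (h : ∀ k < 2 * Fintype.card Q, ∑ q : Q × Q, e q * walks A k q.1 q.2 =
      ∑ q : Q × Q, e' q * walks A' k q.1 q.2) (k : ℕ) :
    ∑ q : Q × Q, e q * walks A k q.1 q.2 = ∑ q : Q × Q, e' q * walks A' k q.1 q.2 := by
  classical
  set B : Matrix Q Q ℤ := Matrix.of fun i j => (A i j : ℤ) with hB
  set B' : Matrix Q Q ℤ := Matrix.of fun i j => (A' i j : ℤ) with hB'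
  set D : Matrix (Q ⊕ Q) (Q ⊕ Q) ℤ := Matrix.fromBlocks B 0 0 B' with hD
  have hpow : ∀ k : ℕ, D ^ k = Matrix.fromBlocks (B ^ k) 0 0 (B' ^ k) := by
    intro k
    induction k with
    | zero => simp [Matrix.fromBlocks_one]
    | succ k ih => rw [pow_succ, ih, hD, Matrix.fromBlocks_multiply]; simp [pow_succ]
  -- the linear functional
  let ell : Matrix (Q ⊕ Q) (Q ⊕ Q) ℤ →ₗ[ℤ] ℤ :=
    { toFun := fun X => (∑ q : Q × Q, (e q : ℤ) * X (Sum.inl q.1) (Sum.inl q.2)) -
        ∑ q : Q × Q, (e' q : ℤ) * X (Sum.inr q.1) (Sum.inr q.2)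
      map_add' := by
        intro X Y
        simp only [Matrix.add_apply, mul_add, Finset.sum_add_distrib]
        ring
      map_smul' := by
        intro c X
        simp only [Matrix.smul_apply, smul_eq_mul, RingHom.id_apply, mul_sub, Finset.mul_sum]
        congr 1 <;> (apply Finset.sum_congr rfl; intro q _; ring) }
  have hell : ∀ k : ℕ, ell (D ^ k) =
      ((∑ q : Q × Q, e q * walks A k q.1 q.2 : ℕ) : ℤ) -
        ((∑ q : Q × Q, e' q * walks A' k q.1 q.2 : ℕ) : ℤ) := by
    intro k
    show (∑ q : Q × Q, (e q : ℤ) * (D ^ k) (Sum.inl q.1) (Sum.inl q.2)) -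
        ∑ q : Q × Q, (e' q : ℤ) * (D ^ k) (Sum.inr q.1) (Sum.inr q.2) = _
    rw [hpow]
    push_cast
    simp only [Matrix.fromBlocks_apply₁₁, Matrix.fromBlocks_apply₂₂, walks_eq_pow, ← hB, ← hB']
  have h0 : ∀ k < 2 * Fintype.card Q, ell (D ^ k) = 0 := by
    intro k hk
    rw [hell, h k hk, sub_self]
  have hall : ell (D ^ k) = 0 := by
    rw [Matrix.pow_eq_aeval_mod_charpoly]
    have hdeg : (Polynomial.X ^ k %ₘ D.charpoly).natDegree < 2 * Fintype.card Q ∨
        2 * Fintype.card Q = 0 := by
      by_cases hc : 2 * Fintype.card Q = 0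
      · right; exact hc
      · left
        have hcd : D.charpoly.natDegree = 2 * Fintype.card Q := by
          rw [Matrix.charpoly_natDegree_eq_dim, Fintype.card_sum, two_mul]
        have hmon := D.charpoly_monic
        have h1 : D.charpoly ≠ 1 := by
          intro h1
          rw [h1, Polynomial.natDegree_one] at hcd
          omega
        have := Polynomial.natDegree_modByMonic_lt (Polynomial.X ^ k) hmon h1
        omega
    rcases hdeg with hdeg | hdeg
    · rw [Polynomial.aeval_eq_sum_range' hdeg, map_sum]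
      apply Finset.sum_eq_zero
      intro i hi
      rw [map_smul, h0 i (Finset.mem_range.mp hi), smul_zero]
    · have hQ : IsEmpty Q := Fintype.card_eq_zero_iff.mp (by omega)
      show (∑ q : Q × Q, (e q : ℤ) * (_ : Matrix (Q ⊕ Q) (Q ⊕ Q) ℤ) (Sum.inl q.1) (Sum.inl q.2)) -
        ∑ q : Q × Q, (e' q : ℤ) * (_ : Matrix (Q ⊕ Q) (Q ⊕ Q) ℤ) (Sum.inr q.1) (Sum.inr q.2) = 0
      rw [Finset.univ_eq_empty, Finset.sum_empty, Finset.sum_empty, sub_zero]
  rw [hell, sub_eq_zero] at hall
  exact_mod_cast hall

theorem walks_pos (A : Q → Q → ℕ) (a b : Q) :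
    (∃ k, 0 < walks A k a b) ↔ Relation.ReflTransGen (fun c d => 0 < A c d) a b := by
  classical
  constructor
  · rintro ⟨k, hk⟩
    induction k generalizing a with
    | zero =>
      simp only [walks] at hk
      split_ifs at hk with hab
      · rw [hab]
      · omega
    | succ k ih =>
      simp only [walks] at hk
      obtain ⟨c, _, hc⟩ := Finset.exists_ne_zero_of_sum_ne_zero hk.ne'
      have h1 : 0 < A a c := Nat.pos_of_ne_zero (left_ne_zero_of_mul hc)
      have h2 : 0 < walks A k c b := Nat.pos_of_ne_zero (right_ne_zero_of_mul hc)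
      exact Relation.ReflTransGen.head h1 (ih c h2)
  · intro h
    induction h using Relation.ReflTransGen.head_induction_on with
    | refl => exact ⟨0, by simp [walks]⟩
    | @head c d h1 _ ih =>
      obtain ⟨k, hk⟩ := ih
      refine ⟨k + 1, ?_⟩
      simp only [walks]
      exact Finset.sum_pos' (fun _ _ => Nat.zero_le _) ⟨d, Finset.mem_univ _, Nat.mul_pos h1 hk⟩

end walk

end Pool.Agent.H870R2.LS
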