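import Pool.Agent.H870R2.LS.Aut
import Pool.Agent.H870R2.LS.Walk

set_option autoImplicit false
set_option linter.unusedSectionVars false

/-! The game: a hidden lie is not seen by a gate with small support. -/

namespace Pool.Agent.H870R2.LS

open Finset

section ctx

variable {I Q : Type*} (C : Ckt I Q)

/-- Automorphisms of the circuit that fix the gates in the range of `T`. -/
def autFix {ι : Type*} (T : ι → Q) : Subgroup (Equiv.Perm I × Equiv.Perm Q) where
  carrier := {q | C.IsAut q.1 q.2 ∧ ∀ j, q.2 (T j) = T j}
  one_mem' := ⟨Ckt.IsAut.one, fun _ => rfl⟩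
  mul_mem' := by
    rintro ⟨p, φ⟩ ⟨p', φ'⟩ ⟨h1, h2⟩ ⟨h3, h4⟩
    refine ⟨h1.mul h3, ?_⟩
    intro j
    show (φ * φ') (T j) = T j
    rw [Equiv.Perm.mul_apply]
    have h5 : φ' (T j) = T j := h4 j
    have h6 : φ (T j) = T j := h2 j
    rw [h5, h6]
  inv_mem' := by
    rintro ⟨p, φ⟩ ⟨h1, h2⟩
    refine ⟨h1.inv, ?_⟩
    intro j
    show φ⁻¹ (T j) = T j
    rw [Equiv.Perm.inv_eq_iff_eq]
    exact (h2 j).symm

theorem mem_autFix {ι : Type*} (T : ι → Q) (p : Equiv.Perm I) (φ : Equiv.Perm Q) :
    (p, φ) ∈ autFix C T ↔ C.IsAut p φ ∧ ∀ j, φ (T j) = T j := Iff.rfl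

/-- action on pairs -/
def mvPair : Equiv.Perm I × Equiv.Perm Q →* Equiv.Perm (Q × Q) where
  toFun := fun q => Equiv.prodCongr q.2 q.2
  map_one' := by ext1 ⟨a, b⟩; rfl
  map_mul' := by intro q q'; ext1 ⟨a, b⟩; rfl

/-- action on gates -/
def mvGate : Equiv.Perm I × Equiv.Perm Q →* Equiv.Perm Q where
  toFun := fun q => q.2
  map_one' := rfl
  map_mul' := fun _ _ => rfl

/-- action on sources -/
def mvSrc : Equiv.Perm I × Equiv.Perm Q →* Equiv.Perm (Src I Q) where
  toFun := fun q => srcPerm q.1 q.2
  map_one' := srcPerm_one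
  map_mul' := fun q q' => srcPerm_mul q.1 q'.1 q.2 q'.2

end ctx

theorem srcVal_none {I Q : Type*} (x : Set I) (v : Q → Bool) : srcVal x v none = true := rfl

open Classical in
theorem walks_zero_eq {Q : Type*} [Fintype Q] (A : Q → Q → ℕ) (a b : Q) :
    walks A 0 a b = if a = b then 1 else 0 := rfl

theorem game {I Q W Cfg : Type*} [Fintype I] [Fintype Q] (C : Ckt I Q) (G : Cfg → Set I)
    (P : (W → ZMod 5) → Equiv.Perm I) (hPadd : ∀ δ δ', P (δ + δ') = P δ * P δ')
    (act : (W → ZMod 5) → Cfg → Cfg) (hG : ∀ δ κ i, P δ i ∈ G (act δ κ) ↔ i ∈ G κ)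
    (Hid : ℕ → Finset W → Cfg → Cfg → Prop)
    (hmono : ∀ j j' S κ κ', j' ≤ j → Hid j S κ κ' → Hid j' S κ κ') (σ : ℕ)
    (hP1 : ∀ j S S' κ κ', Hid (j + 1) S κ κ' → S.card ≤ σ → S'.card ≤ σ →
      ∃ δ : W → ZMod 5, (∀ v ∈ S, δ v = 0) ∧ Hid j S' (act δ κ) κ')
    (hP0 : ∀ j S κ κ' i, Hid j S κ κ' →
      (∀ δ : W → ZMod 5, (∀ v ∈ S, δ v = 0) → P δ i = i) → (i ∈ G κ ↔ i ∈ G κ'))
    (hsQ : ∀ T : Fin 4 → Q, ∃ S : Finset W, S.card ≤ σ ∧ ∀ δ : W → ZMod 5,
      (∀ v ∈ S, δ v = 0) → ∃ φ, C.IsAut (P δ) φ ∧ ∀ j, φ (T j) = T j)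
    (hsI : ∀ (T : Fin 3 → Q) (i : I), ∃ S : Finset W, S.card ≤ σ ∧ ∀ δ : W → ZMod 5,
      (∀ v ∈ S, δ v = 0) → (∃ φ, C.IsAut (P δ) φ ∧ ∀ j, φ (T j) = T j) ∧ P δ i = i)
    (m : ℕ) (hm : 2 * Fintype.card Q ≤ 2 ^ m ∨
      ∀ g N N', (∀ j ≤ 2 ^ m, N j = N' j) → C.F g N = C.F g N')
    (g : Q) (S : Finset W) (κ κ' : Cfg) (h : Hid ((C.rank g + 1) * (m + 2)) S κ κ')
    (hS : S.card ≤ σ)
    (hSg : ∀ δ : W → ZMod 5, (∀ v ∈ S, δ v = 0) → ∃ φ, C.IsAut (P δ) φ ∧ φ g = g) :
    C.val (G κ) g = C.val (G κ') g := by
  classical
  have hcomm : ∀ y y', P y * P y' = P y' * P y := by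
    intro y y'
    rw [← hPadd, add_comm, hPadd]
  -- main induction on the rank
  have key : ∀ n, ∀ g, C.rank g = n → ∀ S κ κ', Hid ((n + 1) * (m + 2)) S κ κ' → S.card ≤ σ →
      (∀ δ : W → ZMod 5, (∀ v ∈ S, δ v = 0) → ∃ φ, C.IsAut (P δ) φ ∧ φ g = g) →
      C.val (G κ) g = C.val (G κ') g := by
    intro n
    induction n using Nat.strong_induction_on with
    | _ n ih =>
      intro g hg
      -- arcs
      have arcs : ∀ a b S κ κ', Hid (n * (m + 2) + 1) S κ κ' → S.card ≤ σ →
          (∀ δ : W → ZMod 5, (∀ v ∈ S, δ v = 0) →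
            ∃ φ, C.IsAut (P δ) φ ∧ ∀ j : Fin 3, φ (![g, a, b] j) = ![g, a, b] j) →
          C.adj (G κ) (C.val (G κ)) g a b = C.adj (G κ') (C.val (G κ')) g a b := by
        intro a b S κ κ' hH hS hsupp
        unfold Ckt.adj
        apply sum_match (autFix C ![g, a, b]) mvSrc P hPadd σ
        · intro s
          rcases s with _ | ⟨i, c⟩ | q
          · obtain ⟨S', h1, h2⟩ := hsQ ![g, a, b, b]
            refine ⟨S', h1, fun δ hδ => ?_⟩
            obtain ⟨φ, h3, h4⟩ := h2 δ hδ
            refine ⟨φ, ⟨h3, ?_⟩, rfl⟩
            intro j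
            fin_cases j
            · exact h4 0
            · exact h4 1
            · exact h4 2
          · obtain ⟨S', h1, h2⟩ := hsI ![g, a, b] i
            refine ⟨S', h1, fun δ hδ => ?_⟩
            obtain ⟨⟨φ, h3, h4⟩, h5⟩ := h2 δ hδ
            refine ⟨φ, ⟨h3, h4⟩, ?_⟩
            show some (Sum.inl (P δ i, c)) = some (Sum.inl (i, c))
            rw [h5]
          · obtain ⟨S', h1, h2⟩ := hsQ ![g, a, b, q]
            refine ⟨S', h1, fun δ hδ => ?_⟩
            obtain ⟨φ, h3, h4⟩ := h2 δ hδ
            refine ⟨φ, ⟨h3, ?_⟩, ?_⟩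
            · intro j
              fin_cases j
              · exact h4 0
              · exact h4 1
              · exact h4 2
            · show some (Sum.inr (φ q)) = some (Sum.inr q)
              have : φ q = q := h4 3
              rw [this]
        · intro S' hS'
          obtain ⟨δ, h1, h2⟩ := hP1 _ S S' κ κ' hH hS hS'
          obtain ⟨φ, h3, h4⟩ := hsupp δ h1
          refine ⟨δ, φ, ⟨h3, h4⟩, ?_⟩
          intro s hs
          have hφg : φ g = g := h4 0
          have hφa : φ a = a := h4 1
          have hφb : φ b = b := h4 2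
          show C.wire g a b s * _ = C.wire g a b (srcPerm (P δ) φ s) * _
          have hw : C.wire g a b (srcPerm (P δ) φ s) = C.wire g a b s := by
            rw [srcPerm_apply]
            conv_lhs => rw [← hφg, ← hφa, ← hφb]
            exact h3.wire g a b s
          rw [hw]
          by_cases hw0 : 0 < C.wire g a b s
          · congr 2
            show srcVal (G κ) (C.val (G κ)) s =
              srcVal (G κ') (C.val (G κ')) (srcPerm (P δ) φ s)
            rw [srcPerm_apply]
            have e1 : srcVal (G κ) (C.val (G κ)) s =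
                srcVal (G (act δ κ)) (C.val (G (act δ κ))) (srcMap (P δ) φ s) := by
              symm
              apply srcVal_equiv (hG δ κ)
              intro q _
              exact h3.val (hG δ κ) q
            rw [e1]
            rcases s with _ | ⟨i, c⟩ | q
            · show srcVal _ _ none = srcVal _ _ none
              rw [srcVal_none, srcVal_none]
            · show srcVal _ _ (some (Sum.inl (P δ i, c))) = srcVal _ _ (some (Sum.inl (P δ i, c)))
              unfold srcVal
              simp only
              rw [decide_eq_decide, hP0 _ S' (act δ κ) κ' (P δ i) h2]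
              intro δ' hδ'
              obtain ⟨φ', -, h6⟩ := hs δ' hδ'
              have h7 : some (Sum.inl (P δ' i, c)) = (some (Sum.inl (i, c)) : Src I Q) := h6
              have h8 : P δ' i = i := by
                simp only [Option.some.injEq, Sum.inl.injEq, Prod.mk.injEq, and_true] at h7
                exact h7
              rw [← Equiv.Perm.mul_apply, hcomm, Equiv.Perm.mul_apply, h8]
            · show C.val (G (act δ κ)) (φ q) = C.val (G κ') (φ q)
              have hr : C.rank (φ q) < n := by
                rw [← hg]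
                apply C.acyc g a b (φ q)
                have h9 : srcPerm (P δ) φ (some (Sum.inr q)) = some (Sum.inr (φ q)) := rfl
                rw [h9] at hw
                rw [hw]
                exact hw0
              apply ih (C.rank (φ q)) hr (φ q) rfl S' (act δ κ) κ'
              · apply hmono _ _ _ _ _ _ h2
                exact Nat.mul_le_mul_right _ hr
              · exact hS'
              · intro δ' hδ'
                obtain ⟨φ', h5, h6⟩ := hs δ' hδ'
                have h7 : some (Sum.inr (φ' q)) = (some (Sum.inr q) : Src I Q) := h6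
                have h8 : φ' q = q := by
                  simp only [Option.some.injEq, Sum.inr.injEq] at h7
                  exact h7
                refine ⟨φ * φ' * φ⁻¹, ?_, ?_⟩
                · have h9 := (h3.mul h5.1).mul h3.inv
                  have h10 : P δ * P δ' * (P δ)⁻¹ = P δ' := by
                    rw [hcomm, mul_assoc, mul_inv_cancel, mul_one]
                  rwa [h10] at h9
                · rw [Equiv.Perm.mul_apply, Equiv.Perm.mul_apply, p_inv_apply, h8]
          · have : C.wire g a b s = 0 := by omega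
            rw [this, zero_mul, zero_mul]
      -- walks
      have wk : ∀ l, ∀ a b S κ κ', Hid (n * (m + 2) + 1 + l) S κ κ' → S.card ≤ σ →
          (∀ δ : W → ZMod 5, (∀ v ∈ S, δ v = 0) →
            ∃ φ, C.IsAut (P δ) φ ∧ ∀ j : Fin 3, φ (![g, a, b] j) = ![g, a, b] j) →
          ∀ k ≤ 2 ^ l, walks (C.adj (G κ) (C.val (G κ)) g) k a b =
            walks (C.adj (G κ') (C.val (G κ')) g) k a b := by
        intro l
        induction l with
        | zero =>
          intro a b S κ κ' hH hS hsupp k hk
          have hk' : k = 0 ∨ k = 1 := by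
            rw [pow_zero] at hk
            omega
          rcases hk' with rfl | rfl
          · rw [walks_zero_eq, walks_zero_eq]
          · have e : ∀ A : Q → Q → ℕ, walks A 1 a b = A a b := by
              intro A
              unfold walks
              unfold walks
              rw [Finset.sum_eq_single b]
              · rw [if_pos rfl, mul_one]
              · intro c _ hc
                rw [if_neg hc, mul_zero]
              · intro h
                exact absurd (Finset.mem_univ _) h
            rw [e, e]
            exact arcs a b S κ κ' hH hS hsupp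
        | succ l ihl =>
          intro a b S κ κ' hH hS hsupp k hk
          obtain ⟨k1, k2, rfl, hk1, hk2⟩ : ∃ k1 k2, k = k1 + k2 ∧ k1 ≤ 2 ^ l ∧ k2 ≤ 2 ^ l := by
            rw [pow_succ] at hk
            exact ⟨min k (2 ^ l), k - min k (2 ^ l), by omega, by omega, by omega⟩
          rw [walks_add, walks_add]
          apply sum_match (autFix C ![g, a, b]) mvGate P hPadd σ
          · intro c
            obtain ⟨S', h1, h2⟩ := hsQ ![g, a, b, c]
            refine ⟨S', h1, fun δ hδ => ?_⟩
            obtain ⟨φ, h3, h4⟩ := h2 δ hδ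
            refine ⟨φ, ⟨h3, ?_⟩, ?_⟩
            · intro j
              fin_cases j
              · exact h4 0
              · exact h4 1
              · exact h4 2
            · exact h4 3
          · intro S' hS'
            obtain ⟨δ, h1, h2⟩ := hP1 _ S S' κ κ' hH hS hS'
            obtain ⟨φ, h3, h4⟩ := hsupp δ h1
            refine ⟨δ, φ, ⟨h3, h4⟩, ?_⟩
            intro c hc
            have hφg : φ g = g := h4 0
            have hφa : φ a = a := h4 1
            have hφb : φ b = b := h4 2
            show _ = walks _ k1 a (φ c) * walks _ k2 (φ c) b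
            have hc' : ∀ δ' : W → ZMod 5, (∀ v ∈ S', δ' v = 0) →
                ∃ φ', C.IsAut (P δ') φ' ∧ φ' g = g ∧ φ' a = a ∧ φ' b = b ∧ φ' (φ c) = φ c := by
              intro δ' hδ'
              obtain ⟨φ', h5, h6⟩ := hc δ' hδ'
              have h7 : φ' c = c := h6
              have h8 : φ' g = g := h5.2 0
              have h9 : φ' a = a := h5.2 1
              have h10 : φ' b = b := h5.2 2
              have i1 : φ⁻¹ g = g := by rw [Equiv.Perm.inv_eq_iff_eq]; exact hφg.symm
              have i2 : φ⁻¹ a = a := by rw [Equiv.Perm.inv_eq_iff_eq]; exact hφa.symm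
              have i3 : φ⁻¹ b = b := by rw [Equiv.Perm.inv_eq_iff_eq]; exact hφb.symm
              refine ⟨φ * φ' * φ⁻¹, ?_, ?_, ?_, ?_, ?_⟩
              · have h9 := (h3.mul h5.1).mul h3.inv
                have h10 : P δ * P δ' * (P δ)⁻¹ = P δ' := by
                  rw [hcomm, mul_assoc, mul_inv_cancel, mul_one]
                rwa [h10] at h9
              · rw [Equiv.Perm.mul_apply, Equiv.Perm.mul_apply, i1, h8, hφg]
              · rw [Equiv.Perm.mul_apply, Equiv.Perm.mul_apply, i2, h9, hφa]
              · rw [Equiv.Perm.mul_apply, Equiv.Perm.mul_apply, i3, h10, hφb]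
              · rw [Equiv.Perm.mul_apply, Equiv.Perm.mul_apply, p_inv_apply, h7]
            have e1 : walks (C.adj (G κ) (C.val (G κ)) g) k1 a c =
                walks (C.adj (G (act δ κ)) (C.val (G (act δ κ))) g) k1 a (φ c) := by
              conv_rhs => rw [← hφg, ← hφa]
              exact (h3.walks (hG δ κ) k1 g a c).symm
            have e2 : walks (C.adj (G κ) (C.val (G κ)) g) k2 c b =
                walks (C.adj (G (act δ κ)) (C.val (G (act δ κ))) g) k2 (φ c) b := by
              conv_rhs => rw [← hφg, ← hφb]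
              exact (h3.walks (hG δ κ) k2 g c b).symm
            rw [e1, e2]
            congr 1
            · apply ihl a (φ c) S' (act δ κ) κ' h2 hS' _ k1 hk1
              intro δ' hδ'
              obtain ⟨φ', h5, h6, h7, h8, h9⟩ := hc' δ' hδ'
              refine ⟨φ', h5, ?_⟩
              intro j
              fin_cases j
              · exact h6
              · exact h7
              · exact h9
            · apply ihl (φ c) b S' (act δ κ) κ' h2 hS' _ k2 hk2
              intro δ' hδ'
              obtain ⟨φ', h5, h6, h7, h8, h9⟩ := hc' δ' hδ'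
              refine ⟨φ', h5, ?_⟩
              intro j
              fin_cases j
              · exact h6
              · exact h9
              · exact h8
      -- the gate
      intro S κ κ' hH hS hsupp
      have hcnt : ∀ k ≤ 2 ^ m, C.cnt (G κ) (C.val (G κ)) g k =
          C.cnt (G κ') (C.val (G κ')) g k := by
        intro k hk
        unfold Ckt.cnt
        apply sum_match (autFix C ![g]) mvPair P hPadd σ
        · rintro ⟨a, b⟩
          obtain ⟨S', h1, h2⟩ := hsQ ![g, a, b, b]
          refine ⟨S', h1, fun δ hδ => ?_⟩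
          obtain ⟨φ, h3, h4⟩ := h2 δ hδ
          refine ⟨φ, ⟨h3, ?_⟩, ?_⟩
          · intro j
            fin_cases j
            exact h4 0
          · show (φ a, φ b) = (a, b)
            rw [show φ a = a from h4 1, show φ b = b from h4 2]
        · intro S' hS'
          have hlev : (n + 1) * (m + 2) = (n * (m + 2) + 1 + m) + 1 := by ring
          rw [hlev] at hH
          obtain ⟨δ, h1, h2⟩ := hP1 _ S S' κ κ' hH hS hS'
          obtain ⟨φ, h3, h4⟩ := hsupp δ h1
          refine ⟨δ, φ, ⟨h3, fun j => by fin_cases j; exact h4⟩, ?_⟩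
          rintro ⟨a, b⟩ hab
          show C.ends g a b * _ = C.ends g (φ a) (φ b) * _
          have e0 : C.ends g (φ a) (φ b) = C.ends g a b := by
            conv_lhs => rw [← h4]
            exact h3.ends g a b
          rw [e0]
          congr 1
          show walks _ k a b = walks _ k (φ a) (φ b)
          have e1 : walks (C.adj (G κ) (C.val (G κ)) g) k a b =
              walks (C.adj (G (act δ κ)) (C.val (G (act δ κ))) g) k (φ a) (φ b) := by
            conv_rhs => rw [← h4]
            exact (h3.walks (hG δ κ) k g a b).symm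
          rw [e1]
          apply wk m (φ a) (φ b) S' (act δ κ) κ' h2 hS' _ k hk
          intro δ' hδ'
          obtain ⟨φ', h5, h6⟩ := hab δ' hδ'
          have h7 : (φ' a, φ' b) = (a, b) := h6
          have h8 : φ' g = g := h5.2 0
          have i1 : φ⁻¹ g = g := by rw [Equiv.Perm.inv_eq_iff_eq]; exact h4.symm
          simp only [Prod.mk.injEq] at h7
          refine ⟨φ * φ' * φ⁻¹, ?_, ?_⟩
          · have h9 := (h3.mul h5.1).mul h3.inv
            have h10 : P δ * P δ' * (P δ)⁻¹ = P δ' := by
              rw [hcomm, mul_assoc, mul_inv_cancel, mul_one]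
            rwa [h10] at h9
          · intro j
            fin_cases j
            · show (φ * φ' * φ⁻¹) g = g
              rw [Equiv.Perm.mul_apply, Equiv.Perm.mul_apply, i1, h8, h4]
            · show (φ * φ' * φ⁻¹) (φ a) = φ a
              rw [Equiv.Perm.mul_apply, Equiv.Perm.mul_apply, p_inv_apply, h7.1]
            · show (φ * φ' * φ⁻¹) (φ b) = φ b
              rw [Equiv.Perm.mul_apply, Equiv.Perm.mul_apply, p_inv_apply, h7.2]
      rw [C.val_eq, C.val_eq]
      rcases hm with hm | hm
      · congr 1
        funext k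
        exact walks_det (C.adj (G κ) (C.val (G κ)) g) (C.adj (G κ') (C.val (G κ')) g)
          (fun e => C.ends g e.1 e.2) (fun e => C.ends g e.1 e.2)
          (fun k hk => hcnt k (by omega)) k
      · exact hm g _ _ hcnt
  exact key _ g rfl S κ κ' h hS hSg

end Pool.Agent.H870R2.LS
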