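import Pool.Agent.H870R2.LS.Defs2

set_option autoImplicit false
set_option linter.unusedSectionVars false

/-! Pushdown networks, derivation trees with and without a hole. -/

namespace Pool.Agent.H870R2.LS

/-- A nondeterministic network with a pushdown store, input variables `I` and set of nodes `Q`; the
stack symbols are nodes, too. `arc a b` is the set of arcs from `a` to `b` that do not use the
stack (`none` is always open, `some (i, c)` is open if the variable `i` has the value `c`);
`push a s b`: at the node `a` the symbol `s` may be pushed while going to `b`;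
`pop a s b`: at the node `a` the symbol `s` on top of the stack may be popped while going to `b`. -/
structure PNet (I Q : Type*) where
  arc : Q → Q → Set (Option (I × Bool))
  push : Q → Q → Q → Prop
  pop : Q → Q → Q → Prop
  src : Q
  tgt : Q

/-- There is an open arc from `a` to `b` on the input `x`. -/
def PNet.Open {I Q : Type*} (N : PNet I Q) (x : Set I) (a b : Q) : Prop :=
  none ∈ N.arc a b ∨ ∃ i c, some (i, c) ∈ N.arc a b ∧ (i ∈ x ↔ c = true)

/-- One step of the network on the input `x`; a configuration is a node together with the stack. -/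
inductive PNet.Step {I Q : Type*} (N : PNet I Q) (x : Set I) : Q × List Q → Q × List Q → Prop
  | arc (a b : Q) (st : List Q) : N.Open x a b → N.Step x (a, st) (b, st)
  | push (a s b : Q) (st : List Q) : N.push a s b → N.Step x (a, st) (b, s :: st)
  | pop (a s b : Q) (st : List Q) : N.pop a s b → N.Step x (a, s :: st) (b, st)

/-- `N.Run x n p q`: there is a computation with exactly `n` steps from `p` to `q`. -/
def PNet.Run {I Q : Type*} (N : PNet I Q) (x : Set I) : ℕ → Q × List Q → Q × List Q → Prop
  | 0, p, q => p = q
  | n + 1, p, q => ∃ p', N.Step x p p' ∧ N.Run x n p' q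

/-- The network accepts `x` in exactly `n` steps: it goes from the source node with empty stack to
the target node with empty stack. -/
def PNet.AccIn {I Q : Type*} (N : PNet I Q) (x : Set I) (n : ℕ) : Prop :=
  N.Run x n (N.src, []) (N.tgt, [])

/-- automorphisms of pushdown networks -/
structure PNet.IsAut {I Q : Type*} (N : PNet I Q) (p : Equiv.Perm I) (φ : Equiv.Perm Q) :
    Prop where
  arc : ∀ a b s, Option.map (Prod.map p id) s ∈ N.arc (φ a) (φ b) ↔ s ∈ N.arc a b
  push : ∀ a s b, N.push (φ a) (φ s) (φ b) ↔ N.push a s b
  pop : ∀ a s b, N.pop (φ a) (φ s) (φ b) ↔ N.pop a s b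
  src : φ N.src = N.src
  tgt : φ N.tgt = N.tgt

/-- The network is symmetric on the block `b` of five elements. -/
def PNet.SymOn {V Q : Type*} (N : PNet (Inp V) Q) (b : Fin 5 ↪ V) : Prop :=
  ∀ a ∈ alternatingGroup (Fin 5), ∀ p : Equiv.Perm V, (∀ c, p (b c) = b (a c)) →
    (∀ v, v ∉ Set.range b → p v = v) → ∃ φ, N.IsAut (inpPerm p) φ

/-- `Tr leaf rule n a`: a derivation tree with `n` leaves for `a`. -/
inductive Tr {F : Type*} (leaf : F → Prop) (rule : F → F → F → Prop) : ℕ → F → Prop
  | leaf (a : F) : leaf a → Tr leaf rule 1 a
  | node (a b c : F) (n m : ℕ) : rule a b c → Tr leaf rule n b → Tr leaf rule m c →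
      Tr leaf rule (n + m) a

/-- `TrH leaf rule n a p`: a derivation tree for `a` in which one leaf is the unproved fact `p`,
with `n` other leaves. -/
inductive TrH {F : Type*} (leaf : F → Prop) (rule : F → F → F → Prop) : ℕ → F → F → Prop
  | hole (a : F) : TrH leaf rule 0 a a
  | left (a b c p : F) (n m : ℕ) : rule a b c → TrH leaf rule n b p → Tr leaf rule m c →
      TrH leaf rule (n + m) a p
  | right (a b c p : F) (n m : ℕ) : rule a b c → Tr leaf rule n b → TrH leaf rule m c p →
      TrH leaf rule (n + m) a p

/-- The leaves of the derivation system of a pushdown network: facts are pairs of nodes `(a, b)`,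
meaning that `(b, [])` can be reached from `(a, [])`. -/
def pLeaf {Q : Type*} (q : Q × Q) : Prop := q.1 = q.2

/-- The rules: either an arc leads from `a` to `c`, then `(a, b)` follows from `(c, b)` (and
the leaf `(b, b)`); or `s` is pushed while going from `a` to `c` and popped while going from `d`
to `e`, then `(a, b)` follows from `(c, d)` and `(e, b)`. -/
def pRule {I Q : Type*} (N : PNet I Q) (x : Set I) (q q1 q2 : Q × Q) : Prop :=
  (N.Open x q.1 q1.1 ∧ q1.2 = q.2 ∧ q2 = (q.2, q.2)) ∨
    (∃ s, N.push q.1 s q1.1 ∧ N.pop q1.2 s q2.1 ∧ q2.2 = q.2)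

end Pool.Agent.H870R2.LS
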