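import Pool.Agent.H870R2.LS.PDefs

set_option autoImplicit false
set_option linter.unusedSectionVars false

/-! Derivation trees with a hole. -/

namespace Pool.Agent.H870R2.LS

section tree

variable {F : Type*} {leaf : F → Prop} {rule : F → F → F → Prop}

/-- SPLIT -/
theorem tr_pos {n : ℕ} {a : F} (h : Tr leaf rule n a) : 1 ≤ n := by
  induction h with
  | leaf a h => exact le_rfl
  | node a b c n m hr hb hc ihb ihc => omega

/-- SPLIT -/
theorem tr_one {a : F} (h : Tr leaf rule 1 a) : leaf a := by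
  generalize hn : 1 = n at h
  cases h with
  | leaf a h => exact h
  | node a b c n m hr hb hc =>
    have h1 := tr_pos hb
    have h2 := tr_pos hc
    omega

/-- SPLIT -/
theorem trH_zero {a p : F} (h : TrH leaf rule 0 a p) : a = p := by
  generalize hn : 0 = n at h
  cases h with
  | hole a => rfl
  | left a b c p n m hr hb hc =>
    have h2 := tr_pos hc
    omega
  | right a b c p n m hr hb hc =>
    have h2 := tr_pos hb
    omega

/-- SPLIT -/
theorem trH_comp {n m : ℕ} {a p q : F} (h : TrH leaf rule n a p) (h' : TrH leaf rule m p q) :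
    TrH leaf rule (n + m) a q := by
  induction h with
  | hole a => rw [Nat.zero_add]; exact h'
  | left a b c p n k hr hb hc ih =>
    rw [Nat.add_right_comm]
    exact TrH.left a b c q _ _ hr (ih h') hc
  | right a b c p n k hr hb hc ih =>
    rw [Nat.add_assoc]
    exact TrH.right a b c q _ _ hr hb (ih h')

/-- SPLIT -/
theorem tr_fill {n m : ℕ} {a p : F} (h : TrH leaf rule n a p) (h' : Tr leaf rule m p) :
    Tr leaf rule (n + m) a := by
  induction h with
  | hole a => rw [Nat.zero_add]; exact h'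
  | left a b c p n k hr hb hc ih =>
    rw [Nat.add_right_comm]
    exact Tr.node a b c _ _ hr (ih h') hc
  | right a b c p n k hr hb hc ih =>
    rw [Nat.add_assoc]
    exact Tr.node a b c _ _ hr hb (ih h')

theorem tr_split_aux {N : ℕ} (hN : 2 ≤ N) {n : ℕ} {a : F} (h : Tr leaf rule n a) :
    2 * N < 3 * n →
    ∃ p n1 n2, TrH leaf rule n1 a p ∧ Tr leaf rule n2 p ∧ n1 + n2 = n ∧
      3 * n2 ≤ 2 * N ∧ N ≤ 3 * n2 := by
  induction h with
  | leaf a h => intro h1; omega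
  | node a b c n m hr hb hc ihb ihc =>
    intro h1
    rcases Nat.le_total m n with hnm | hnm
    · by_cases h2 : 3 * n ≤ 2 * N
      · refine ⟨b, 0 + m, n, TrH.left a b c b 0 m hr (TrH.hole b) hc, hb, by omega, h2, by omega⟩
      · obtain ⟨p, n1, n2, g1, g2, g3, g4, g5⟩ := ihb (by omega)
        exact ⟨p, n1 + m, n2, TrH.left a b c p n1 m hr g1 hc, g2, by omega, g4, g5⟩
    · by_cases h2 : 3 * m ≤ 2 * N
      · refine ⟨c, n + 0, m, TrH.right a b c c n 0 hr hb (TrH.hole c), hc, by omega, h2, by omega⟩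
      · obtain ⟨p, n1, n2, g1, g2, g3, g4, g5⟩ := ihc (by omega)
        exact ⟨p, n + n1, n2, TrH.right a b c p n n1 hr hb g1, g2, by omega, g4, g5⟩

/-- SPLIT -/
theorem tr_split {n : ℕ} {a : F} (h : Tr leaf rule n a) (hn : 2 ≤ n) :
    ∃ p n1 n2, TrH leaf rule n1 a p ∧ Tr leaf rule n2 p ∧ n1 + n2 = n ∧
      3 * n1 ≤ 2 * n ∧ 3 * n2 ≤ 2 * n := by
  obtain ⟨p, n1, n2, g1, g2, g3, g4, g5⟩ := tr_split_aux hn h (by omega)
  exact ⟨p, n1, n2, g1, g2, g3, by omega, g4⟩

theorem trH_split_aux {N : ℕ} {n : ℕ} {a p : F} (h : TrH leaf rule n a p) :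
    N < 2 * n →
    ∃ v b c n1 n2 n3, TrH leaf rule n1 a v ∧ rule v b c ∧ n1 + n2 + n3 = n ∧
      N < 2 * (n2 + n3) ∧ 2 * n2 ≤ N ∧
      ((TrH leaf rule n2 b p ∧ Tr leaf rule n3 c) ∨
        (Tr leaf rule n3 b ∧ TrH leaf rule n2 c p)) := by
  induction h with
  | hole a => intro h; omega
  | left a b c p n m hr hb hc ih =>
    intro h
    by_cases h2 : 2 * n ≤ N
    · exact ⟨a, b, c, 0, n, m, TrH.hole a, hr, by omega, h, h2, Or.inl ⟨hb, hc⟩⟩
    · obtain ⟨v, b', c', n1, n2, n3, g1, g2, g3, g4, g5, g6⟩ := ih (by omega)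
      exact ⟨v, b', c', n1 + m, n2, n3, TrH.left a b c v n1 m hr g1 hc, g2, by omega, g4, g5, g6⟩
  | right a b c p n m hr hb hc ih =>
    intro h
    by_cases h2 : 2 * m ≤ N
    · exact ⟨a, b, c, 0, m, n, TrH.hole a, hr, by omega, by omega, h2, Or.inr ⟨hb, hc⟩⟩
    · obtain ⟨v, b', c', n1, n2, n3, g1, g2, g3, g4, g5, g6⟩ := ih (by omega)
      exact ⟨v, b', c', n + n1, n2, n3, TrH.right a b c v n n1 hr hb g1, g2, by omega, g4, g5, g6⟩

/-- SPLIT -/
theorem trH_split {n : ℕ} {a p : F} (h : TrH leaf rule n a p) (hn : 1 ≤ n) :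
    ∃ v b c n1 n2 n3, TrH leaf rule n1 a v ∧ rule v b c ∧ n1 + n2 + n3 = n ∧
      2 * n1 ≤ n ∧ 2 * n2 ≤ n ∧
      ((TrH leaf rule n2 b p ∧ Tr leaf rule n3 c) ∨
        (Tr leaf rule n3 b ∧ TrH leaf rule n2 c p)) := by
  obtain ⟨v, b', c', n1, n2, n3, g1, g2, g3, g4, g5, g6⟩ := trH_split_aux (N := n) h (by omega)
  exact ⟨v, b', c', n1, n2, n3, g1, g2, g3, by omega, g5, g6⟩

/-- SPLIT (equivariance) -/
theorem tr_map {F' : Type*} {leaf' : F' → Prop} {rule' : F' → F' → F' → Prop} (f : F → F')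
    (h1 : ∀ a, leaf a → leaf' (f a)) (h2 : ∀ a b c, rule a b c → rule' (f a) (f b) (f c))
    {n : ℕ} {a : F} (h : Tr leaf rule n a) : Tr leaf' rule' n (f a) := by
  induction h with
  | leaf a h => exact Tr.leaf _ (h1 a h)
  | node a b c n m hr hb hc ihb ihc => exact Tr.node _ _ _ _ _ (h2 _ _ _ hr) ihb ihc

/-- SPLIT (equivariance) -/
theorem trH_map {F' : Type*} {leaf' : F' → Prop} {rule' : F' → F' → F' → Prop} (f : F → F')
    (h1 : ∀ a, leaf a → leaf' (f a)) (h2 : ∀ a b c, rule a b c → rule' (f a) (f b) (f c))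
    {n : ℕ} {a p : F} (h : TrH leaf rule n a p) : TrH leaf' rule' n (f a) (f p) := by
  induction h with
  | hole a => exact TrH.hole _
  | left a b c p n m hr hb hc ih =>
    exact TrH.left _ _ _ _ _ _ (h2 _ _ _ hr) ih (tr_map f h1 h2 hc)
  | right a b c p n m hr hb hc ih =>
    exact TrH.right _ _ _ _ _ _ (h2 _ _ _ hr) (tr_map f h1 h2 hb) ih

end tree

end Pool.Agent.H870R2.LS
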