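import Pool.Agent.H870R2.LS.Arena
import Pool.Agent.H870R2.LS.PDefs
import Pool.Agent.H870R2.LS.Split

set_option autoImplicit false
set_option linter.unusedSectionVars false

/-! The game on derivation trees of pushdown networks. -/

namespace Pool.Agent.H870R2.LS

open Finset

section paut

variable {I Q : Type*} {N : PNet I Q}

theorem PNet.IsAut.one : N.IsAut 1 1 := by
  refine ⟨?_, fun _ _ _ => Iff.rfl, fun _ _ _ => Iff.rfl, rfl, rfl⟩
  intro a b s
  rcases s with _ | ⟨i, c⟩ <;> exact Iff.rfl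

theorem PNet.IsAut.mul {p p' : Equiv.Perm I} {φ φ' : Equiv.Perm Q} (h : N.IsAut p φ)
    (h' : N.IsAut p' φ') : N.IsAut (p * p') (φ * φ') := by
  refine ⟨?_, ?_, ?_, ?_, ?_⟩
  · intro a b s
    simp only [Equiv.Perm.mul_apply]
    rw [← h'.arc a b s, ← h.arc (φ' a) (φ' b)]
    rcases s with _ | ⟨i, c⟩ <;> exact Iff.rfl
  · intro a s b
    simp only [Equiv.Perm.mul_apply]
    rw [h.push, h'.push]
  · intro a s b
    simp only [Equiv.Perm.mul_apply]
    rw [h.pop, h'.pop]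
  · rw [Equiv.Perm.mul_apply, h'.src, h.src]
  · rw [Equiv.Perm.mul_apply, h'.tgt, h.tgt]

theorem PNet.IsAut.inv {p : Equiv.Perm I} {φ : Equiv.Perm Q} (h : N.IsAut p φ) :
    N.IsAut p⁻¹ φ⁻¹ := by
  refine ⟨?_, ?_, ?_, ?_, ?_⟩
  · intro a b s
    rw [← h.arc, p_apply_inv, p_apply_inv]
    have : Option.map (Prod.map p id) (Option.map (Prod.map (p⁻¹ : Equiv.Perm I) id) s) = s := by
      rcases s with _ | ⟨i, c⟩
      · rfl
      · simp [p_apply_inv]
    rw [this]
  · intro a s b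
    rw [← h.push, p_apply_inv, p_apply_inv, p_apply_inv]
  · intro a s b
    rw [← h.pop, p_apply_inv, p_apply_inv, p_apply_inv]
  · rw [Equiv.Perm.inv_eq_iff_eq]
    exact h.src.symm
  · rw [Equiv.Perm.inv_eq_iff_eq]
    exact h.tgt.symm

theorem PNet.IsAut.opn {p : Equiv.Perm I} {φ : Equiv.Perm Q} (h : N.IsAut p φ) {x x' : Set I}
    (hx : ∀ i, p i ∈ x' ↔ i ∈ x) {a b : Q} (ho : N.Open x a b) : N.Open x' (φ a) (φ b) := by
  rcases ho with h0 | ⟨i, c, h1, h2⟩
  · left
    exact (h.arc a b none).2 h0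
  · right
    refine ⟨p i, c, (h.arc a b (some (i, c))).2 h1, ?_⟩
    rw [hx]
    exact h2

theorem pRule_aut {p : Equiv.Perm I} {φ : Equiv.Perm Q} (h : N.IsAut p φ) {x x' : Set I}
    (hx : ∀ i, p i ∈ x' ↔ i ∈ x) (q q1 q2 : Q × Q) (hr : pRule N x q q1 q2) :
    pRule N x' (Prod.map φ φ q) (Prod.map φ φ q1) (Prod.map φ φ q2) := by
  rcases hr with ⟨h1, h2, h3⟩ | ⟨s, h1, h2, h3⟩
  · left
    refine ⟨h.opn hx h1, ?_, ?_⟩
    · show φ q1.2 = φ q.2
      rw [h2]
    · rw [h3]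
      rfl
  · right
    refine ⟨φ s, (h.push _ _ _).2 h1, (h.pop _ _ _).2 h2, ?_⟩
    show φ q2.2 = φ q.2
    rw [h3]

/-- the group of automorphisms of a pushdown network -/
def pAut (N : PNet I Q) : Subgroup (Equiv.Perm I × Equiv.Perm Q) where
  carrier := {q | N.IsAut q.1 q.2}
  one_mem' := PNet.IsAut.one
  mul_mem' := by
    rintro ⟨p, φ⟩ ⟨p', φ'⟩ h1 h3
    exact PNet.IsAut.mul h1 h3
  inv_mem' := by
    rintro ⟨p, φ⟩ h1
    exact PNet.IsAut.inv h1

end paut

theorem gameP {V Q : Type} [Fintype V] [Fintype Q] (N : PNet (Inp V) Q) (t : V)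
    (r : ℕ) (blk : Fin r → (Fin 5 ↪ V))
    (hd : Pairwise fun i j => Disjoint (Set.range (blk i)) (Set.range (blk j)))
    (ht : ∀ i, t ∉ Set.range (blk i)) (hs : ∀ i, N.SymOn (blk i)) (k : ℕ) (hk : 1 ≤ k)
    (hcard : Fintype.card Q < 5 ^ k) (H n : ℕ) (ei : Pla H n ↪ Fin r)
    (M : ℕ → Fin (n + 1) → Fin (n + 1) → ZMod 5) (hM : Spread H n (20 * k + 1) (20 * k + 1) M)
    (z : Pla H n) (hz0 : z.1.val = 0) (hz : z.2.2 = Fin.last n) (i : ℕ) (hH : 2 * i + 4 ≤ H)
    (m : ℕ) (hm : m * 2 ^ i ≤ 3 ^ i)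
    (htr : Tr pLeaf (pRule N (insG blk ei M t z (0, 0))) m (N.src, N.tgt)) :
    Tr pLeaf (pRule N (insG blk ei M t z (0, 1))) m (N.src, N.tgt) := by
  classical
  obtain ⟨G, hGdef⟩ : ∃ G, G = insG blk ei M t z := ⟨_, rfl⟩
  obtain ⟨P, hPdef⟩ : ∃ P, P = PG blk hd ei := ⟨_, rfl⟩
  obtain ⟨act, hact⟩ : ∃ act, act = actG M z := ⟨_, rfl⟩
  obtain ⟨Hid, hHid⟩ : ∃ Hid, Hid = HidG M z := ⟨_, rfl⟩
  obtain ⟨σ, hσ⟩ : ∃ σ, σ = 20 * k := ⟨_, rfl⟩
  have hPadd : ∀ δ δ', P (δ + δ') = P δ * P δ' := by rw [hPdef]; exact PG_add blk hd ei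
  have hG : ∀ δ κ i, P δ i ∈ G (act δ κ) ↔ i ∈ G κ := by
    rw [hPdef, hGdef, hact]
    exact insG_act blk hd ei M t z ht
  have hmono : ∀ j j' S κ κ', j' ≤ j → Hid j S κ κ' → Hid j' S κ κ' := by
    rw [hHid]
    exact HidG_mono M z
  have hP1 : ∀ j S S' κ κ', Hid (j + 1) S κ κ' → S.card ≤ σ → S'.card ≤ σ →
      ∃ δ : Pla H n → ZMod 5, (∀ v ∈ S, δ v = 0) ∧ Hid j S' (act δ κ) κ' := by
    rw [hHid, hact, hσ]
    exact HidG_step M z hM hz
  have hP0 : ∀ j S κ κ' i, Hid j S κ κ' →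
      (∀ δ : Pla H n → ZMod 5, (∀ v ∈ S, δ v = 0) → P δ i = i) → (i ∈ G κ ↔ i ∈ G κ') := by
    rw [hHid, hPdef, hGdef]
    intro j S κ κ' i
    exact HidG_var blk hd ei M t z j S κ κ' i
  have hcomm : ∀ y y', P y * P y' = P y' * P y := by
    intro y y'
    rw [← hPadd, add_comm, hPadd]
  have hconj : ∀ y y', P y * P y' * (P y)⁻¹ = P y' := by
    intro y y'
    rw [hcomm, mul_assoc, mul_inv_cancel, mul_one]
  have hsup : ∀ l : List Q, l.length ≤ 10 → ∃ S : Finset (Pla H n), S.card ≤ σ ∧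
      ∀ δ : Pla H n → ZMod 5, (∀ v ∈ S, δ v = 0) →
        ∃ φ, N.IsAut (P δ) φ ∧ ∀ a ∈ l, φ a = a := by
    intro l hl
    obtain ⟨S, h1, h2⟩ := supp_gen blk hd (pAut N) hs hcard (q := 10) (by norm_num)
      (fun j : Fin 10 => l.getD j.val N.src) ei
    refine ⟨S, by omega, ?_⟩
    intro δ hδ
    obtain ⟨φ, h3, h4⟩ := h2 δ hδ
    refine ⟨φ, by rw [hPdef]; exact h3, ?_⟩
    intro a ha
    obtain ⟨j, hj, rfl⟩ := List.mem_iff_getElem.1 ha
    have h5 := h4 ⟨j, by omega⟩
    simp only [List.getD_eq_getElem _ _ hj] at h5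
    exact h5
  have hsupI : ∀ (l : List Q) (y : Inp V), l.length ≤ 2 → ∃ S : Finset (Pla H n), S.card ≤ σ ∧
      ∀ δ : Pla H n → ZMod 5, (∀ v ∈ S, δ v = 0) → P δ y = y := by
    intro l y hl
    refine ⟨plcI blk ei y, ?_, ?_⟩
    · have := card_plcI blk hd ei y
      omega
    · intro δ hδ
      rw [hPdef]
      exact bp_plcI blk hd ei y δ hδ
  obtain ⟨Sp, hSp⟩ : ∃ Sp : Finset (Pla H n) → List Q → Prop, ∀ S T, Sp S T ↔
      ∀ δ : Pla H n → ZMod 5, (∀ v ∈ S, δ v = 0) →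
        ∃ φ, N.IsAut (P δ) φ ∧ ∀ a ∈ T, φ a = a := ⟨_, fun _ _ => Iff.rfl⟩
  have Spm : ∀ S T T', (∀ a ∈ T', a ∈ T) → Sp S T → Sp S T' := by
    intro S T T' hTT h
    rw [hSp] at h ⊢
    intro δ hδ
    obtain ⟨φ, h1, h2⟩ := h δ hδ
    exact ⟨φ, h1, fun a ha => h2 a (hTT a ha)⟩
  -- the move
  have E : ∀ (T l : List Q), l.length ≤ 10 → ∀ j S κ κ', Hid (j + 1) S κ κ' → S.card ≤ σ →
      Sp S T → ∃ δ φ S', N.IsAut (P δ) φ ∧ (∀ a ∈ T, φ a = a) ∧ S'.card ≤ σ ∧
        Hid j S' (act δ κ) κ' ∧ Sp S' (l.map φ) := by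
    intro T l hl j S κ κ' hh hS hT
    obtain ⟨S', h1, h2⟩ := hsup l hl
    obtain ⟨δ, h3, h4⟩ := hP1 j S S' κ κ' hh hS h1
    obtain ⟨φ, h5, h6⟩ := (hSp S T).1 hT δ h3
    refine ⟨δ, φ, S', h5, h6, h1, h4, ?_⟩
    rw [hSp]
    intro δ' hδ'
    obtain ⟨ψ, h7, h8⟩ := h2 δ' hδ'
    refine ⟨φ * ψ * φ⁻¹, ?_, ?_⟩
    · have h9 := (h5.mul h7).mul h5.inv
      rwa [hconj] at h9
    · intro a ha
      obtain ⟨b, hb, rfl⟩ := List.mem_map.1 ha
      rw [Equiv.Perm.mul_apply, Equiv.Perm.mul_apply, p_inv_apply, h8 b hb]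
  -- arcs
  have OT : ∀ j S κ κ' a b, Hid (j + 1) S κ κ' → S.card ≤ σ → Sp S [a, b] →
      N.Open (G κ) a b → N.Open (G κ') a b := by
    intro j S κ κ' a b hh hS hT ho
    rcases ho with h0 | ⟨y, c, h1, h2⟩
    · exact Or.inl h0
    · obtain ⟨S', h3, h4⟩ := hsupI [] y (by simp)
      obtain ⟨δ, h5, h6⟩ := hP1 j S S' κ κ' hh hS h3
      obtain ⟨φ, h7, h8⟩ := (hSp S _).1 hT δ h5
      right
      refine ⟨P δ y, c, ?_, ?_⟩
      · have h9 := (h7.arc a b (some (y, c))).2 h1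
        rwa [h8 a (by simp), h8 b (by simp)] at h9
      · rw [← hP0 j S' (act δ κ) κ' (P δ y) h6, hG]
        · exact h2
        · intro δ' hδ'
          rw [← Equiv.Perm.mul_apply, hcomm, Equiv.Perm.mul_apply, h4 δ' hδ']
  have RT : ∀ j S κ κ' (q q1 q2 : Q × Q), Hid (j + 1) S κ κ' → S.card ≤ σ →
      Sp S [q.1, q1.1] → pRule N (G κ) q q1 q2 → pRule N (G κ') q q1 q2 := by
    intro j S κ κ' q q1 q2 hh hS hT hr
    rcases hr with ⟨h1, h2⟩ | h1
    · exact Or.inl ⟨OT j S κ κ' _ _ hh hS hT h1, h2⟩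
    · exact Or.inr h1
  -- equivariance of trees
  have trE : ∀ δ φ κ m q, N.IsAut (P δ) φ → Tr pLeaf (pRule N (G κ)) m q →
      Tr pLeaf (pRule N (G (act δ κ))) m (Prod.map φ φ q) := by
    intro δ φ κ m q h1 h2
    refine tr_map (Prod.map φ φ) ?_ ?_ h2
    · intro a ha
      show φ a.1 = φ a.2
      rw [show a.1 = a.2 from ha]
    · intro a b c hr
      exact pRule_aut h1 (hG δ κ) a b c hr
  have trHE : ∀ δ φ κ m q p, N.IsAut (P δ) φ → TrH pLeaf (pRule N (G κ)) m q p →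
      TrH pLeaf (pRule N (G (act δ κ))) m (Prod.map φ φ q) (Prod.map φ φ p) := by
    intro δ φ κ m q p h1 h2
    refine trH_map (Prod.map φ φ) ?_ ?_ h2
    · intro a ha
      show φ a.1 = φ a.2
      rw [show a.1 = a.2 from ha]
    · intro a b c hr
      exact pRule_aut h1 (hG δ κ) a b c hr
  -- the two claims
  let A : ℕ → Prop := fun i => ∀ m, m * 2 ^ i ≤ 3 ^ i → ∀ S κ κ' (q : Q × Q),
    Hid (2 * i + 2) S κ κ' → S.card ≤ σ → Sp S [q.1, q.2] →
    Tr pLeaf (pRule N (G κ)) m q → Tr pLeaf (pRule N (G κ')) m q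
  let B : ℕ → Prop := fun i => ∀ m, m * 2 ^ i ≤ 3 ^ i → ∀ S κ κ' (q p : Q × Q),
    Hid (2 * i + 3) S κ κ' → S.card ≤ σ → Sp S [q.1, q.2, p.1, p.2] →
    TrH pLeaf (pRule N (G κ)) m q p → TrH pLeaf (pRule N (G κ')) m q p
  have hA0 : A 0 := by
    intro m hm S κ κ' q _ _ _ h
    have h1 := tr_pos h
    have h2 : m = 1 := by
      simp only [pow_zero, mul_one] at hm
      omega
    subst h2
    exact Tr.leaf q (tr_one h)
  have hfix : ∀ (φ : Equiv.Perm Q) (q : Q × Q), φ q.1 = q.1 → φ q.2 = q.2 →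
      Prod.map φ φ q = q := by
    intro φ q h1 h2
    exact Prod.ext h1 h2
  have hB : ∀ i, A i → (∀ i', i = i' + 1 → B i') → B i := by
    intro i hAi hBi m hm S κ κ' q p hh hS hT h
    rcases Nat.eq_zero_or_pos m with rfl | hmpos
    · rw [trH_zero h]
      exact TrH.hole p
    · obtain ⟨v, b, c, n1, n2, n3, h1, h2, h3, h4, h5, h6⟩ := trH_split h hmpos
      obtain ⟨δ, φ, S', g1, g2, g3, g4, g5⟩ := E [q.1, q.2, p.1, p.2]
        [q.1, q.2, p.1, p.2, v.1, v.2, b.1, b.2, c.1, c.2] (by simp) (2 * i + 2) S κ κ' hh hS hT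
      have fq : Prod.map φ φ q = q := hfix φ q (g2 _ (by simp)) (g2 _ (by simp))
      have fp : Prod.map φ φ p = p := hfix φ p (g2 _ (by simp)) (g2 _ (by simp))
      have hsm : ∀ (n' : ℕ) (q' p' : Q × Q), 2 * n' ≤ m →
          Sp S' [q'.1, q'.2, p'.1, p'.2] → TrH pLeaf (pRule N (G (act δ κ))) n' q' p' →
          TrH pLeaf (pRule N (G κ')) n' q' p' := by
        intro n' q' p' hn' hT' h'
        rcases i with _ | i
        · have : n' = 0 := by
            simp only [pow_zero, mul_one] at hm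
            omega
          subst this
          rw [trH_zero h']
          exact TrH.hole p'
        · refine hBi i rfl n' ?_ S' (act δ κ) κ' q' p' (hmono _ _ _ _ _ (by omega) g4) g3 hT' h'
          have e1 : 3 ^ (i + 1) = 3 * 3 ^ i := by rw [pow_succ]; ring
          have e2 : 2 ^ (i + 1) = 2 * 2 ^ i := by rw [pow_succ]; ring
          rw [e1, e2] at hm
          have h12 : 2 * n' * (2 * 2 ^ i) ≤ m * (2 * 2 ^ i) := Nat.mul_le_mul_right _ hn'
          have h13 : 2 * n' * (2 * 2 ^ i) = 4 * (n' * 2 ^ i) := by ring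
          omega
      have k1 : TrH pLeaf (pRule N (G κ')) n1 q (Prod.map φ φ v) := by
        apply hsm n1 _ _ h4
        · refine Spm _ _ _ ?_ g5
          intro a ha
          simp only [List.mem_cons, List.not_mem_nil, or_false] at ha
          simp only [List.map_cons, List.map_nil, List.mem_cons, List.not_mem_nil, or_false]
          rcases ha with rfl | rfl | rfl | rfl
          · left; exact (g2 _ (by simp)).symm
          · right; left; exact (g2 _ (by simp)).symm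
          · simp
          · simp
        · have := trHE δ φ κ n1 q v g1 h1
          rwa [fq] at this
      have k2 : pRule N (G κ') (Prod.map φ φ v) (Prod.map φ φ b) (Prod.map φ φ c) := by
        apply RT (2 * i + 1) S' (act δ κ) κ' _ _ _ g4 g3
        · refine Spm _ _ _ ?_ g5
          intro a ha
          simp only [List.mem_cons, List.not_mem_nil, or_false] at ha
          simp only [List.map_cons, List.map_nil, List.mem_cons, List.not_mem_nil, or_false]
          rcases ha with rfl | rfl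
          · simp
          · simp
        · exact pRule_aut g1 (hG δ κ) v b c h2
      have h3m : n3 * 2 ^ i ≤ 3 ^ i :=
        (Nat.mul_le_mul_right _ (by omega)).trans hm
      have hx : ∀ (d : Q × Q), d = b ∨ d = c → ∀ (n' : ℕ), n' * 2 ^ i ≤ 3 ^ i →
          Tr pLeaf (pRule N (G κ)) n' d →
          Tr pLeaf (pRule N (G κ')) n' (Prod.map φ φ d) := by
        intro d hd' n' hn' h'
        apply hAi n' hn' S' (act δ κ) κ' _ g4 g3
        · refine Spm _ _ _ ?_ g5
          intro a ha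
          simp only [List.mem_cons, List.not_mem_nil, or_false] at ha
          simp only [List.map_cons, List.map_nil, List.mem_cons, List.not_mem_nil, or_false]
          rcases hd' with rfl | rfl <;> rcases ha with rfl | rfl <;> simp
        · exact trE δ φ κ n' d g1 h'
      have hy : ∀ (d : Q × Q), d = b ∨ d = c → TrH pLeaf (pRule N (G κ)) n2 d p →
          TrH pLeaf (pRule N (G κ')) n2 (Prod.map φ φ d) p := by
        intro d hd' h'
        apply hsm n2 _ _ h5
        · refine Spm _ _ _ ?_ g5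
          intro a ha
          simp only [List.mem_cons, List.not_mem_nil, or_false] at ha
          simp only [List.map_cons, List.map_nil, List.mem_cons, List.not_mem_nil, or_false]
          rcases ha with rfl | rfl | rfl | rfl
          · rcases hd' with rfl | rfl <;> simp
          · rcases hd' with rfl | rfl <;> simp
          · right; right; left; exact (g2 _ (by simp)).symm
          · right; right; right; left; exact (g2 _ (by simp)).symm
        · have := trHE δ φ κ n2 d p g1 h'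
          rwa [fp] at this
      rcases h6 with ⟨h6, h7⟩ | ⟨h6, h7⟩
      · have h8 := TrH.left _ _ _ p n2 n3 k2 (hy b (Or.inl rfl) h6) (hx c (Or.inr rfl) n3 h3m h7)
        have h9 := trH_comp k1 h8
        have h10 : n1 + (n2 + n3) = m := by omega
        rwa [h10] at h9
      · have h8 := TrH.right _ _ _ p n3 n2 k2 (hx b (Or.inl rfl) n3 h3m h6) (hy c (Or.inr rfl) h7)
        have h9 := trH_comp k1 h8
        have h10 : n1 + (n3 + n2) = m := by omega
        rwa [h10] at h9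
  have hAs : ∀ i, A i → B i → A (i + 1) := by
    intro i hAi hBi m hm S κ κ' q hh hS hT h
    by_cases hm2 : 2 ≤ m
    · obtain ⟨p, n1, n2, h1, h2, h3, h4, h5⟩ := tr_split h hm2
      obtain ⟨δ, φ, S', g1, g2, g3, g4, g5⟩ := E [q.1, q.2]
        [q.1, q.2, p.1, p.2] (by simp) (2 * i + 3) S κ κ'
        (by rw [show 2 * i + 3 + 1 = 2 * (i + 1) + 2 by ring]; exact hh) hS hT
      have fq : Prod.map φ φ q = q := hfix φ q (g2 _ (by simp)) (g2 _ (by simp))
      have e1 : 3 ^ (i + 1) = 3 * 3 ^ i := by rw [pow_succ]; ring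
      have e2 : 2 ^ (i + 1) = 2 * 2 ^ i := by rw [pow_succ]; ring
      rw [e1, e2] at hm
      have b1 : n1 * 2 ^ i ≤ 3 ^ i := by
        have h12 : 3 * n1 * 2 ^ i ≤ 2 * m * 2 ^ i := Nat.mul_le_mul_right _ h4
        have h13 : 3 * n1 * 2 ^ i = 3 * (n1 * 2 ^ i) := by ring
        have h14 : 2 * m * 2 ^ i = m * (2 * 2 ^ i) := by ring
        omega
      have b2 : n2 * 2 ^ i ≤ 3 ^ i := by
        have h12 : 3 * n2 * 2 ^ i ≤ 2 * m * 2 ^ i := Nat.mul_le_mul_right _ h5
        have h13 : 3 * n2 * 2 ^ i = 3 * (n2 * 2 ^ i) := by ring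
        have h14 : 2 * m * 2 ^ i = m * (2 * 2 ^ i) := by ring
        omega
      have k1 : TrH pLeaf (pRule N (G κ')) n1 q (Prod.map φ φ p) := by
        apply hBi n1 b1 S' (act δ κ) κ' _ _ g4 g3
        · refine Spm _ _ _ ?_ g5
          intro a ha
          simp only [List.mem_cons, List.not_mem_nil, or_false] at ha
          simp only [List.map_cons, List.map_nil, List.mem_cons, List.not_mem_nil, or_false]
          rcases ha with rfl | rfl | rfl | rfl
          · left; exact (g2 _ (by simp)).symm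
          · right; left; exact (g2 _ (by simp)).symm
          · simp
          · simp
        · have := trHE δ φ κ n1 q p g1 h1
          rwa [fq] at this
      have k2 : Tr pLeaf (pRule N (G κ')) n2 (Prod.map φ φ p) := by
        apply hAi n2 b2 S' (act δ κ) κ' _ (hmono _ _ _ _ _ (by omega) g4) g3
        · refine Spm _ _ _ ?_ g5
          intro a ha
          simp only [List.mem_cons, List.not_mem_nil, or_false] at ha
          simp only [List.map_cons, List.map_nil, List.mem_cons, List.not_mem_nil, or_false]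
          rcases ha with rfl | rfl
          · simp
          · simp
        · exact trE δ φ κ n2 p g1 h2
      have h9 := tr_fill k1 k2
      rwa [h3] at h9
    · have h1 := tr_pos h
      have h2 : m = 1 := by omega
      subst h2
      exact Tr.leaf q (tr_one h)
  have hAB : ∀ i, A i ∧ B i := by
    intro i
    induction i with
    | zero => exact ⟨hA0, hB 0 hA0 (fun i' h => absurd h (by omega))⟩
    | succ i ih =>
      have h1 := hAs i ih.1 ih.2
      refine ⟨h1, hB (i + 1) h1 ?_⟩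
      intro i' hi'
      have : i' = i := by omega
      rw [this]
      exact ih.2
  -- the start
  have hH2 : 2 ≤ H := by omega
  obtain ⟨δ0, hδ0⟩ := HidG_start M z hz0 hz hH2
  rw [← hact, ← hHid] at hδ0
  obtain ⟨φ, hφ⟩ := sym_all_gen blk hd (pAut N) hs (gam ei δ0)
  have hφ' : N.IsAut (P δ0) φ := by rw [hPdef]; exact hφ
  rw [← hGdef] at htr ⊢
  have e1 := trE δ0 φ (0, 0) m (N.src, N.tgt) hφ' htr
  have e2 : Prod.map φ φ (N.src, N.tgt) = (N.src, N.tgt) := hfix φ _ hφ'.src hφ'.tgt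
  rw [e2] at e1
  apply (hAB i).1 m hm ∅ (act δ0 (0, 0)) (0, 1) (N.src, N.tgt)
  · exact hmono _ _ _ _ _ (by omega) hδ0
  · rw [Finset.card_empty]
    exact Nat.zero_le _
  · rw [hSp]
    intro δ _
    obtain ⟨ψ, hψ⟩ := sym_all_gen blk hd (pAut N) hs (gam ei δ)
    have hψ' : N.IsAut (P δ) ψ := by rw [hPdef]; exact hψ
    refine ⟨ψ, hψ', ?_⟩
    intro a ha
    simp only [List.mem_cons, List.not_mem_nil, or_false] at ha
    rcases ha with rfl | rfl
    · exact hψ'.src
    · exact hψ'.tgt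
  · exact e1

end Pool.Agent.H870R2.LS
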