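import Pool.Agent.H870R2.LS.Defs2

set_option autoImplicit false
set_option linter.unusedSectionVars false

/-! The hard instances (task INST). -/

namespace Pool.Agent.H870R2.LS

open Finset

section inst
variable {V : Type*} {H n : ℕ} (M : ℕ → Fin (n + 1) → Fin (n + 1) → ZMod 5)
  (el : Pla H n → ZMod 5 → V) (t : V) (z : Pla H n)

theorem inst_comb_zero (v : Pla H n) : comb M v 0 0 = 0 := by
  unfold comb
  simp

theorem inst_comb_add (v : Pla H n) (a a' b b' : ZMod 5) :
    comb M v (a + b) (a' + b') = comb M v a a' + comb M v b b' := by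
  unfold comb
  split_ifs <;> ring

theorem inst_curv_top (δ : Pla H n → ZMod 5) (v : Pla H n) (h : ¬ (v.1.val + 1 < H)) :
    Curv M δ v = δ v := by
  unfold Curv
  rw [dif_neg h, sub_zero]

theorem inst_curv_in (δ : Pla H n → ZMod 5) (v : Pla H n) (h : v.1.val + 1 < H) :
    Curv M δ v = δ v - comb M v (δ (lft v h)) (δ (rgt v h)) := by
  unfold Curv
  rw [dif_pos h]

theorem inst_yes_aux (N : ℕ) : ∀ v : Pla H n, (H - 1 - v.1.val) * (n + 2) + v.2.2.val = N →
    Der (inst M el t z 0 0) (el v 0) := by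
  induction N using Nat.strong_induction_on with
  | _ N ih =>
    intro v hv
    by_cases h : v.1.val + 1 < H
    · have hr : (H - 1 - (rgt v h).1.val) * (n + 2) + (rgt v h).2.2.val < N := by
        rw [← hv]
        show (H - 1 - (v.1.val + 1)) * (n + 2) + n < (H - 1 - v.1.val) * (n + 2) + v.2.2.val
        have e : H - 1 - v.1.val = (H - 1 - (v.1.val + 1)) + 1 := by omega
        rw [e]
        ring_nf
        omega
      have hl : (H - 1 - (lft v h).1.val) * (n + 2) + (lft v h).2.2.val < N := by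
        unfold lft
        split_ifs with h0
        · exact hr
        · rw [← hv]
          show (H - 1 - v.1.val) * (n + 2) + (v.2.2.val - 1) <
            (H - 1 - v.1.val) * (n + 2) + v.2.2.val
          have : v.2.2.val ≠ 0 := fun h1 => h0 (Fin.ext h1)
          omega
      have h1 := ih _ hl (lft v h) rfl
      have h2 := ih _ hr (rgt v h) rfl
      refine Der.rule _ _ _ ?_ h1 h2
      right; left
      refine ⟨v, h, 0, 0, ?_⟩
      rw [inst_comb_zero]
      simp
    · apply Der.ax
      left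
      exact ⟨v, h, rfl⟩

/-- INST -/
theorem inst_yes : Der (inst M el t z 0 0) t := by
  have h := inst_yes_aux M el t z _ z rfl
  refine Der.rule _ _ _ ?_ h h
  right; right
  rfl

theorem inst_no_aux (hel : ∀ v a v' a', el v a = el v' a' → v = v' ∧ a = a')
    (ht : ∀ v a, el v a ≠ t) (y : V) (h : Der (inst M el t z 0 1) y) : ∃ v, y = el v 0 := by
  induction h with
  | ax u hu =>
    rcases hu with ⟨v, _, hv⟩ | ⟨v, h, a, a', hv⟩ | hv
    · refine ⟨v, ?_⟩
      have := Sum.inl.inj hv
      simpa using this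
    · cases hv
    · cases hv
  | rule a b c hr _ _ iha ihb =>
    obtain ⟨va, hva⟩ := iha
    obtain ⟨vb, hvb⟩ := ihb
    rcases hr with ⟨v, _, hv⟩ | ⟨v, h, x, x', hv⟩ | hv
    · cases hv
    · have h1 := Sum.inr.inj hv
      have ha := congrArg Prod.fst h1
      have hb := congrArg (fun q => q.2.1) h1
      have hc := congrArg (fun q => q.2.2) h1
      simp only at ha hb hc
      have hx := (hel _ _ _ _ (hva.symm.trans ha)).2
      have hx' := (hel _ _ _ _ (hvb.symm.trans hb)).2
      refine ⟨v, ?_⟩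
      rw [hc, ← hx, ← hx', inst_comb_zero]
      simp
    · exfalso
      have h1 := Sum.inr.inj hv
      have ha := congrArg Prod.fst h1
      simp only at ha
      have hx := (hel _ _ _ _ (hva.symm.trans ha)).2
      exact absurd hx (by decide)

/-- INST -/
theorem inst_no (hel : ∀ v a v' a', el v a = el v' a' → v = v' ∧ a = a')
    (ht : ∀ v a, el v a ≠ t) : ¬ Der (inst M el t z 0 1) t := by
  intro h
  obtain ⟨v, hv⟩ := inst_no_aux M el t z hel ht t h
  exact ht v 0 hv.symm

/-- INST -/
theorem inst_act (δ : Pla H n → ZMod 5) (p : Equiv.Perm V)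
    (hp : ∀ v a, p (el v a) = el v (a + δ v)) (hpt : p t = t)
    (κ : Pla H n → ZMod 5) (κt : ZMod 5) (y : Inp V) :
    inpPerm p y ∈ inst M el t z (κ + Curv M δ) (κt + δ z) ↔ y ∈ inst M el t z κ κt := by
  have hk1 : ∀ v : Pla H n, ¬ (v.1.val + 1 < H) →
      inpPerm p (Sum.inl (el v (κ v))) = Sum.inl (el v ((κ + Curv M δ) v)) := by
    intro v hv
    show Sum.inl (p (el v (κ v))) = _
    rw [hp, Pi.add_apply, inst_curv_top M δ v hv]
  have hk2 : ∀ (v : Pla H n) (h : v.1.val + 1 < H) (a a' : ZMod 5),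
      inpPerm p (Sum.inr (el (lft v h) a, el (rgt v h) a', el v (comb M v a a' + κ v))) =
      Sum.inr (el (lft v h) (a + δ (lft v h)), el (rgt v h) (a' + δ (rgt v h)),
        el v (comb M v (a + δ (lft v h)) (a' + δ (rgt v h)) + (κ + Curv M δ) v)) := by
    intro v h a a'
    show Sum.inr (p (el (lft v h) a), p (el (rgt v h) a'), p (el v (comb M v a a' + κ v))) = _
    rw [hp, hp, hp, Pi.add_apply, inst_curv_in M δ v h, inst_comb_add]
    congr 4
    ring
  have hk3 : inpPerm p (Sum.inr (el z κt, el z κt, t)) =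
      Sum.inr (el z (κt + δ z), el z (κt + δ z), t) := by
    show Sum.inr (p (el z κt), p (el z κt), p t) = _
    rw [hp, hpt]
  constructor
  · rintro (⟨v, hv, hy⟩ | ⟨v, h, a, a', hy⟩ | hy)
    · left
      refine ⟨v, hv, ?_⟩
      rw [← hk1 v hv] at hy
      exact (inpPerm p).injective hy
    · right; left
      refine ⟨v, h, a - δ (lft v h), a' - δ (rgt v h), ?_⟩
      have h2 := hk2 v h (a - δ (lft v h)) (a' - δ (rgt v h))
      rw [sub_add_cancel, sub_add_cancel] at h2
      rw [← h2] at hy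
      exact (inpPerm p).injective hy
    · right; right
      rw [← hk3] at hy
      exact (inpPerm p).injective hy
  · rintro (⟨v, hv, hy⟩ | ⟨v, h, a, a', hy⟩ | hy)
    · left
      exact ⟨v, hv, by rw [hy, hk1 v hv]⟩
    · right; left
      exact ⟨v, h, a + δ (lft v h), a' + δ (rgt v h), by rw [hy, hk2 v h]⟩
    · right; right
      rw [hy, hk3]

theorem inst_diff_aux (κ κ' : Pla H n → ZMod 5) (κt : ZMod 5) (y : Inp V)
    (h : y ∈ inst M el t z κ κt) (h' : y ∉ inst M el t z κ' κt) :
    ∃ v a, κ v ≠ κ' v ∧ ∀ p : Equiv.Perm V, inpPerm p y = y → p (el v a) = el v a := by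
  rcases h with ⟨v, hv, hy⟩ | ⟨v, h, a, a', hy⟩ | hy
  · refine ⟨v, κ v, ?_, ?_⟩
    · intro he
      apply h'
      left
      exact ⟨v, hv, by rw [← he]; exact hy⟩
    · intro p hp
      rw [hy] at hp
      exact Sum.inl.inj hp
  · refine ⟨v, comb M v a a' + κ v, ?_, ?_⟩
    · intro he
      apply h'
      right; left
      exact ⟨v, h, a, a', by rw [← he]; exact hy⟩
    · intro p hp
      rw [hy] at hp
      exact congrArg (fun q => q.2.2) (Sum.inr.inj hp)
  · exact absurd (Or.inr (Or.inr hy)) h'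

/-- INST -/
theorem inst_diff (κ κ' : Pla H n → ZMod 5) (κt : ZMod 5) (y : Inp V)
    (h : ¬ (y ∈ inst M el t z κ κt ↔ y ∈ inst M el t z κ' κt)) :
    ∃ v a, κ v ≠ κ' v ∧ ∀ p : Equiv.Perm V, inpPerm p y = y → p (el v a) = el v a := by
  by_cases h1 : y ∈ inst M el t z κ κt
  · by_cases h2 : y ∈ inst M el t z κ' κt
    · exact absurd ⟨fun _ => h2, fun _ => h1⟩ h
    · exact inst_diff_aux M el t z κ κ' κt y h1 h2
  · by_cases h2 : y ∈ inst M el t z κ' κt
    · obtain ⟨v, a, hne, hp⟩ := inst_diff_aux M el t z κ' κ κt y h2 h1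
      exact ⟨v, a, hne.symm, hp⟩
    · exact absurd ⟨fun h3 => absurd h3 h1, fun h3 => absurd h3 h2⟩ h

end inst

end Pool.Agent.H870R2.LS
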