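import Pool.Agent.H870R2.LS.TDefs

set_option autoImplicit false
set_option linter.unusedSectionVars false

/-! Algebraic branching programs and the tree evaluation polynomial. -/

namespace Pool.Agent.H870R2.LS

open Finset MvPolynomial

/-- An algebraic branching program over `K` in the variables indexed by `I`, with set of vertices
`Q`: an acyclic graph with a source and a target whose arcs are labelled by affine forms. -/
structure ABP (I K Q : Type) [CommSemiring K] where
  /-- the constant term (`none`) and the coefficients (`some i`) of the label of the arc from the
  first to the second vertex; all of them are zero if there is no arc -/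
  coef : Q → Q → Option I → K
  /-- the source -/
  src : Q
  /-- the target -/
  tgt : Q
  /-- a numbering witnessing that the graph is acyclic -/
  rank : Q → ℕ
  acyc : ∀ a b s, coef a b s ≠ 0 → rank a < rank b

variable {I K Q : Type} [CommSemiring K]

/-- the label of an arc -/
noncomputable def ABP.lab [Fintype I] (B : ABP I K Q) (a b : Q) : MvPolynomial I K :=
  C (B.coef a b none) + ∑ i, C (B.coef a b (some i)) * X i

/-- The polynomial computed by the program: the sum over all paths from the source to the target of
the product of the labels of their arcs (all paths have fewer arcs than there are vertices). -/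
noncomputable def ABP.poly [Fintype I] [Fintype Q] [DecidableEq Q] (B : ABP I K Q) :
    MvPolynomial I K :=
  ∑ k ∈ range (Fintype.card Q), ((Matrix.of B.lab) ^ k) B.src B.tgt

/-- `φ` is an automorphism of the program extending the permutation `p` of the variables. -/
structure ABP.IsAut (B : ABP I K Q) (p : Equiv.Perm I) (φ : Equiv.Perm Q) : Prop where
  coef : ∀ a b s, B.coef (φ a) (φ b) (Option.map p s) = B.coef a b s
  src : φ B.src = B.src
  tgt : φ B.tgt = B.tgt

/-- The program is symmetric on the labels of a node of the tree: every even permutation of these
labels extends to an automorphism of the program. -/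
def ABP.SymOn {V : Type} {q : ℕ} [NeZero q] (B : ABP (Inp V) K Q) (b : ZMod q ↪ V) : Prop :=
  ∀ a ∈ alternatingGroup (ZMod q), ∀ p : Equiv.Perm V, (∀ c, p (b c) = b (a c)) →
    (∀ v, v ∉ Set.range b → p v = v) → ∃ φ, B.IsAut (inpPerm p) φ

/-- The polynomial of the label `a` of the node `v` of the tree of height `h`: the variable of the
label if `v` is a leaf, and otherwise the sum, over all labels of the children, of the product of
their polynomials and of the variable of the rule. The first argument is the height of `v`. -/
noncomputable def nodePoly (K : Type) [CommSemiring K] (h q : ℕ) [NeZero q] :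
    ℕ → ℕ → ZMod q → MvPolynomial (Inp (EEl h q)) K
  | 0, v, a => if hv : v < 2 ^ (h + 1) then X (Sum.inl (some (⟨v, hv⟩, a))) else 0
  | d + 1, v, a => if hv : 2 * v + 1 < 2 ^ (h + 1) then
      ∑ b : ZMod q, ∑ c : ZMod q, nodePoly K h q d (2 * v) b * nodePoly K h q d (2 * v + 1) c *
        X (Sum.inr (some (⟨2 * v, by omega⟩, b), some (⟨2 * v + 1, hv⟩, c),
          some (⟨v, by omega⟩, a))) else 0

/-- The tree evaluation polynomial: the sum over all labellings of the nodes of the tree of the
product of the variables of the leaves, of the rules at the inner nodes and of the rule at the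
root. -/
noncomputable def treePoly (K : Type) [CommSemiring K] (h q : ℕ) [NeZero q] :
    MvPolynomial (Inp (EEl h q)) K :=
  ∑ a : ZMod q, nodePoly K h q h 1 a *
    X (Sum.inr (some (⟨1, Nat.one_lt_two_pow (by omega)⟩, a),
      some (⟨1, Nat.one_lt_two_pow (by omega)⟩, a), none))

end Pool.Agent.H870R2.LS
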