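import Pool.Agent.H870R2.LS.Aut
import Pool.Agent.H870R2.LS.TDefs

set_option autoImplicit false
set_option linter.unusedSectionVars false

/-! Typed walks. -/

namespace Pool.Agent.H870R2.LS

open Finset

theorem anc_refl (v : ℕ) : anc v v := ⟨0, by simp⟩

theorem anc_trans {a b c : ℕ} (h : anc a b) (h' : anc b c) : anc a c := by
  obtain ⟨i, hi⟩ := h
  obtain ⟨j, hj⟩ := h'
  exact ⟨j + i, by rw [pow_add, ← Nat.div_div_eq_div_mul, hj, hi]⟩

theorem anc_comp {x y v : ℕ} (h : anc x v) (h' : anc y v) : anc x y ∨ anc y x := by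
  obtain ⟨i, hi⟩ := h
  obtain ⟨j, hj⟩ := h'
  rcases le_total i j with hij | hij
  · right
    exact ⟨j - i, by rw [← hi, Nat.div_div_eq_div_mul, ← pow_add, Nat.add_sub_cancel' hij, hj]⟩
  · left
    exact ⟨i - j, by rw [← hj, Nat.div_div_eq_div_mul, ← pow_add, Nat.add_sub_cancel' hij, hi]⟩

theorem anc_move {x y v w : ℕ} (h : anc x v) (h' : anc x w) (hy : ¬ anc x y) :
    anc y v ↔ anc y w := by
  constructor
  · intro h1
    rcases anc_comp h h1 with h2 | h2
    · exact absurd h2 hy
    · exact anc_trans h2 h'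
  · intro h1
    rcases anc_comp h' h1 with h2 | h2
    · exact absurd h2 hy
    · exact anc_trans h2 h

section typed

variable {Q Ty : Type*} [Fintype Q] [Fintype Ty]

/-- sums over lists of types of length `k` -/
def sumT (f : List Ty → ℕ) : ℕ → ℕ
  | 0 => f []
  | k + 1 => ∑ ty, sumT (fun l => f (ty :: l)) k

theorem sumT_congr {f f' : List Ty → ℕ} {k : ℕ} (h : ∀ l, l.length = k → f l = f' l) :
    sumT f k = sumT f' k := by
  induction k generalizing f f' with
  | zero => exact h [] rfl
  | succ k ih =>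
    unfold sumT
    apply Finset.sum_congr rfl
    intro ty _
    apply ih
    intro l hl
    exact h (ty :: l) (by rw [List.length_cons, hl])

theorem sumT_sum {X : Type*} (s : Finset X) (c : X → ℕ) (f : X → List Ty → ℕ) (k : ℕ) :
    sumT (fun l => ∑ x ∈ s, c x * f x l) k = ∑ x ∈ s, c x * sumT (f x) k := by
  induction k generalizing f with
  | zero => rfl
  | succ k ih =>
    unfold sumT
    calc ∑ ty, sumT (fun l => ∑ x ∈ s, c x * f x (ty :: l)) k
        = ∑ ty, ∑ x ∈ s, c x * sumT (fun l => f x (ty :: l)) k := by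
          apply Finset.sum_congr rfl
          intro ty _
          exact ih (fun x l => f x (ty :: l))
      _ = ∑ x ∈ s, c x * ∑ ty, sumT (fun l => f x (ty :: l)) k := by
          rw [Finset.sum_comm]
          apply Finset.sum_congr rfl
          intro x _
          rw [Finset.mul_sum]

open Classical in
/-- typed walk counts: walks to `b` whose arcs have the types in the list -/
noncomputable def tw (A : Ty → Q → Q → ℕ) (b : Q) : List Ty → Q → ℕ
  | [], p => if p = b then 1 else 0
  | ty :: l, p => ∑ p', A ty p p' * tw A b l p'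

theorem walks_tw (A : Q → Q → ℕ) (B : Ty → Q → Q → ℕ) (h : ∀ p p', A p p' = ∑ ty, B ty p p')
    (b : Q) (k : ℕ) (p : Q) :
    walks A k p b = sumT (fun l => tw B b l p) k := by
  classical
  induction k generalizing p with
  | zero =>
    show walks A 0 p b = tw B b [] p
    unfold walks tw
    rfl
  | succ k ih =>
    unfold sumT
    rw [walks]
    calc ∑ c, A p c * walks A k c b
        = ∑ c, ∑ ty, B ty p c * sumT (fun l => tw B b l c) k := by
          apply Finset.sum_congr rfl
          intro c _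
          rw [ih, h, Finset.sum_mul]
      _ = ∑ ty, ∑ c, B ty p c * sumT (fun l => tw B b l c) k := Finset.sum_comm
      _ = ∑ ty, sumT (fun l => tw B b (ty :: l) p) k := by
          apply Finset.sum_congr rfl
          intro ty _
          exact (sumT_sum Finset.univ (fun c => B ty p c) (fun c l => tw B b l c) k).symm

theorem tw_nil_fix (A A' : Ty → Q → Q → ℕ) (b b' : Q) (φ : Equiv.Perm Q) (hb : φ b = b') (p : Q) :
    tw A' b' [] (φ p) = tw A b [] p := by
  unfold tw
  by_cases h : p = b
  · rw [if_pos h, if_pos (by rw [h, hb])]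
  · rw [if_neg h, if_neg]
    intro h'
    apply h
    apply φ.injective
    rw [h', hb]

/-- equivariance of typed walk counts -/
theorem tw_equiv (A A' : Ty → Q → Q → ℕ) (b b' : Q) (φ : Equiv.Perm Q) (hb : φ b = b')
    (h : ∀ ty p p', A' ty (φ p) (φ p') = A ty p p') (l : List Ty) (p : Q) :
    tw A' b' l (φ p) = tw A b l p := by
  induction l generalizing p with
  | nil => exact tw_nil_fix A A' b b' φ hb p
  | cons ty l ih =>
    rw [tw, tw, ← Equiv.sum_comp φ]
    apply Finset.sum_congr rfl
    intro p' _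
    rw [ih, h]

/-- Transfer along a typed walk: `Fix t φ` says that `φ` is a lift of the `t`-th translation that
fixes `b`. -/
theorem tw_transfer (A A' : Ty → Q → Q → ℕ) (b : Q) (l : List Ty) :
    ∀ (Fix : ℕ → Equiv.Perm Q → Prop),
      (∀ t φ, Fix t φ → φ b = b) →
      (∀ t (ht : t < l.length) φ, Fix t φ → ∀ p p', A (l[t]) p p' = A' (l[t]) (φ p) (φ p')) →
      (∀ t (ht : t + 1 < l.length) φ, Fix t φ → ∀ p p', A (l[t]) p p' ≠ 0 →
        ∃ φ', Fix (t + 1) φ' ∧ φ' p' = φ p') →
      ∀ φ, Fix 0 φ → ∀ p, tw A b l p = tw A' b l (φ p) := by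
  induction l with
  | nil =>
    intro Fix h1 _ _ φ hφ p
    exact (tw_nil_fix A A' b b φ (h1 0 φ hφ) p).symm
  | cons ty l ih =>
    intro Fix h1 h2 h3 φ hφ p
    rw [tw, tw, ← Equiv.sum_comp φ (fun p' => A' ty (φ p) p' * tw A' b l p')]
    apply Finset.sum_congr rfl
    intro p' _
    have e1 : A ty p p' = A' ty (φ p) (φ p') := h2 0 (by simp) φ hφ p p'
    rw [← e1]
    by_cases h0 : A ty p p' = 0
    · rw [h0, zero_mul, zero_mul]
    · congr 1
      rcases l with _ | ⟨ty', l'⟩
      · exact (tw_nil_fix A A' b b φ (h1 0 φ hφ) p').symm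
      · obtain ⟨φ', h4, h5⟩ := h3 0 (by simp) φ hφ p p' h0
        rw [← h5]
        exact ih (fun t => Fix (t + 1)) (fun t => h1 (t + 1))
          (fun t ht => h2 (t + 1) (by simpa using ht))
          (fun t ht => h3 (t + 1) (by simpa using ht)) φ' h4 p'

end typed

section types

variable {I Q TS TR : Type} [Fintype I] [Fintype Q] [Fintype TS] [Fintype TR] [DecidableEq TS]
  [DecidableEq TR] (C : Ckt I Q) (g : Q) (spt : Q → Q → TS) (rdt : Src I Q → TR)

/-- the typed adjacency matrices of the gate `g` -/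
noncomputable def adjT (y : Set I) (b : Q) (ty : TS × TR) (p p' : Q) : ℕ :=
  if spt b p' = ty.1 then ∑ s, (if rdt s = ty.2 then
    C.wire g p p' s * (srcVal y (C.val y) s).toNat else 0) else 0

theorem adjT_sum (y : Set I) (b p p' : Q) :
    C.adj y (C.val y) g p p' = ∑ ty, adjT C g spt rdt y b ty p p' := by
  rw [Fintype.sum_prod_type, Finset.sum_eq_single (spt b p')]
  · unfold adjT
    simp only [if_true]
    rw [Finset.sum_comm]
    unfold Ckt.adj
    apply Finset.sum_congr rfl
    intro s _
    rw [Finset.sum_ite_eq, if_pos (Finset.mem_univ _)]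
  · intro S _ hS
    apply Finset.sum_eq_zero
    intro T _
    exact if_neg (fun h => hS h.symm)
  · intro h
    exact absurd (Finset.mem_univ _) h

/-- comparison of typed adjacency matrices -/
theorem adjT_map {p : Equiv.Perm I} {φ : Equiv.Perm Q} (hφ : C.IsAut p φ) (hg : φ g = g)
    (y y' : Set I) (b b' : Q) (ty : TS × TR)
    (hsp : ∀ p', spt b' (φ p') = spt b p')
    (hrd : ∀ s, rdt (srcMap p φ s) = rdt s)
    (hv : ∀ s a a', 0 < C.wire g a a' s → rdt s = ty.2 →
      srcVal y' (C.val y') (srcMap p φ s) = srcVal y (C.val y) s) (a a' : Q) :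
    adjT C g spt rdt y' b' ty (φ a) (φ a') = adjT C g spt rdt y b ty a a' := by
  unfold adjT
  rw [hsp]
  by_cases hc : spt b a' = ty.1
  · rw [if_pos hc, if_pos hc, ← Equiv.sum_comp (srcPerm p φ)]
    apply Finset.sum_congr rfl
    intro s _
    rw [srcPerm_apply, hrd]
    by_cases hc2 : rdt s = ty.2
    · rw [if_pos hc2, if_pos hc2]
      have e1 : C.wire g (φ a) (φ a') (srcMap p φ s) = C.wire g a a' s := by
        conv_lhs => rw [← hg]
        exact hφ.wire g a a' s
      rw [e1]
      by_cases hw : 0 < C.wire g a a' s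
      · rw [hv s a a' hw hc2]
      · have : C.wire g a a' s = 0 := by omega
        rw [this, zero_mul, zero_mul]
    · rw [if_neg hc2, if_neg hc2]
  · rw [if_neg hc, if_neg hc]

theorem cnt_typed (y : Set I) (k : ℕ) : C.cnt y (C.val y) g k =
    sumT (fun l => ∑ e : Q × Q, C.ends g e.1 e.2 *
      tw (adjT C g spt rdt y e.2) e.2 l e.1) k := by
  rw [sumT_sum Finset.univ (fun e : Q × Q => C.ends g e.1 e.2)
    (fun e l => tw (adjT C g spt rdt y e.2) e.2 l e.1) k]
  unfold Ckt.cnt
  apply Finset.sum_congr rfl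
  rintro ⟨a, b⟩ _
  rw [walks_tw _ _ (adjT_sum C g spt rdt y b)]

end types

end Pool.Agent.H870R2.LS
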