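import Pool.Agent.H870R2.LS.KWalk
import Pool.Agent.H870R2.LS.TWalk

set_option autoImplicit false
set_option linter.unusedSectionVars false

/-! The token game on branching programs. -/

namespace Pool.Agent.H870R2.LS

open Finset

/-- the token game on branching programs -/
theorem kgame {I K Q : Type} [CommSemiring K] [Fintype I] [Fintype Q] [DecidableEq Q]
    (B : ABP I K Q) {r q N c ρ D : ℕ}
    (hdodge : ∀ (b : ℕ) (S Rd : ℕ → Finset ℕ),
      (∀ t, (S t).card ≤ c) → (∀ t, (Rd t).card ≤ ρ) →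
      ∃ v : ℕ → ℕ, (∀ t ≤ b, v t / 2 ^ (2 * c + D) = 1 ∧ ∀ y ∈ Rd t, ¬ anc (v t) y) ∧
        (∀ t < b, ∀ y ∈ S (t + 1), (anc y (v t) ↔ anc y (v (t + 1)))))
    (P : (Fin r → ZMod q) → Equiv.Perm I) (hPadd : ∀ δ δ', P (δ + δ') = P δ * P δ')
    (Z : ℕ → Set I) (Z' : Set I) (dl : ℕ → Fin r → ZMod q)
    (hdl : ∀ v w (i : Fin r), (anc i.val v ↔ anc i.val w) → dl v i = dl w i)
    (hZ : ∀ v w, 1 ≤ v → v < N → 1 ≤ w → w < N → ∀ i, P (dl w - dl v) i ∈ Z w ↔ i ∈ Z v)
    (plc : I → Finset (Fin r)) (hplc : ∀ i, (plc i).card ≤ ρ)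
    (hplcP : ∀ δ i, plc (P δ i) = plc i)
    (hZ' : ∀ v i, 1 ≤ v → v < N → (∀ y ∈ plc i, v ≠ y.val) → (i ∈ Z v ↔ i ∈ Z'))
    (hall : ∀ δ, ∃ φ, B.IsAut (P δ) φ)
    (Sup : Q → Finset (Fin r)) (hc : ∀ p, (Sup p).card ≤ c)
    (hS : ∀ p δ, (∀ i ∈ Sup p, δ i = 0) → ∃ φ, B.IsAut (P δ) φ ∧ φ p = p)
    (hSi : ∀ p δ φ, B.IsAut (P δ) φ → Sup (φ p) = Sup p)
    (hN : 2 * 2 ^ (2 * c + D) ≤ N) (v : ℕ) (hv1 : 1 ≤ v) (hvN : v < N) :
    MvPolynomial.eval (pt K (Z v)) B.poly = MvPolynomial.eval (pt K Z') B.poly := by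
  classical
  rw [ABP.eval_poly, ABP.eval_poly]
  apply Finset.sum_congr rfl
  intro k _
  have hrd : ∀ s : Option I, ∃ T : {S : Finset (Fin r) // S.card ≤ ρ},
      (∀ i, s = some i → T.1 = plc i) ∧ (s = none → T.1 = ∅) := by
    intro s
    rcases s with _ | i
    · exact ⟨⟨∅, by rw [Finset.card_empty]; exact Nat.zero_le _⟩,
        (fun _ h => by cases h), fun _ => rfl⟩
    · refine ⟨⟨plc i, hplc i⟩, ?_, (fun h => by cases h)⟩
      intro i' h
      show plc i = plc i'
      rw [Option.some.inj h]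
  choose rdt hrd1 hrd3 using hrd
  have hri : ∀ δ s, rdt (Option.map (P δ) s) = rdt s := by
    intro δ s
    apply Subtype.ext
    rcases s with _ | i
    · rfl
    · rw [hrd1 (Option.map (P δ) (some i)) (P δ i) rfl, hrd1 (some i) i rfl, hplcP]
  let spt : Q → {S : Finset (Fin r) // S.card ≤ c} := fun p => ⟨Sup p, hc p⟩
  rw [pow_twK _ _ (adjK_sum B spt rdt (Z v)), pow_twK _ _ (adjK_sum B spt rdt Z')]
  apply sumK_congr
  intro l hlk
  rcases l with _ | ⟨ty, l0⟩
  · simp only [twK]
  · obtain ⟨l, hl⟩ : ∃ l, l = ty :: l0 := ⟨_, rfl⟩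
    rw [← hl]
    have hl0 : 0 < l.length := by rw [hl]; simp
    obtain ⟨tk, hk1, hk2⟩ := hdodge (l.length - 1)
      (fun t => if ht : t - 1 < l.length then ((l[t - 1]).1.1).map Fin.valEmbedding else ∅)
      (fun t => if ht : t < l.length then ((l[t]).2.1).map Fin.valEmbedding else ∅)
      (by
        intro t
        by_cases ht : t - 1 < l.length
        · rw [dif_pos ht, Finset.card_map]
          exact (l[t - 1]).1.2
        · rw [dif_neg ht, Finset.card_empty]
          exact Nat.zero_le _)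
      (by
        intro t
        by_cases ht : t < l.length
        · rw [dif_pos ht, Finset.card_map]
          exact (l[t]).2.2
        · rw [dif_neg ht, Finset.card_empty]
          exact Nat.zero_le _)
    have hok : ∀ t, t < l.length → 1 ≤ tk t ∧ tk t < N := by
      intro t ht
      have h4 := (hk1 t (by omega)).1
      have h5 : tk t < 2 * 2 ^ (2 * c + D) := by
        have := Nat.lt_mul_div_succ (tk t) (show 0 < 2 ^ (2 * c + D) by positivity)
        rw [h4, mul_comm] at this
        exact this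
      have h6 : 1 ≤ tk t := by
        rcases Nat.eq_zero_or_pos (tk t) with h | h
        · rw [h, Nat.zero_div] at h4
          omega
        · exact h
      exact ⟨h6, by omega⟩
    have hR : ∀ t (ht : t < l.length), ∀ y ∈ (l[t]).2.1, ¬ anc (tk t) y.val := by
      intro t ht y hy
      have h11 := (hk1 t (by omega)).2 y.val
      simp only [dif_pos ht] at h11
      exact h11 (Finset.mem_map.2 ⟨y, hy, rfl⟩)
    have hSt : ∀ t (ht : t + 1 < l.length), ∀ y ∈ (l[t]).1.1,
        (anc y.val (tk t) ↔ anc y.val (tk (t + 1))) := by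
      intro t ht y hy
      have h11 := hk2 t (by omega) y.val
      simp only [Nat.add_sub_cancel] at h11
      rw [dif_pos (show t < l.length by omega)] at h11
      exact h11 (Finset.mem_map.2 ⟨y, hy, rfl⟩)
    clear hk1 hk2
    have h00 := hok 0 hl0
    have hsp : ∀ δ ψ, B.IsAut (P δ) ψ → ∀ p, spt (ψ p) = spt p := by
      intro δ ψ hψ p
      exact Subtype.ext (hSi p δ ψ hψ)
    have htru : ∀ (δ : Fin r → ZMod q) (y y' : Set I), (∀ i, P δ i ∈ y' ↔ i ∈ y) → ∀ s,
        truK K y' (Option.map (P δ) s) = truK K y s := by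
      intro δ y y' h s
      rcases s with _ | i
      · rfl
      · show (if P δ i ∈ y' then (1 : K) else 0) = if i ∈ y then 1 else 0
        simp only [h i]
    -- first move
    have e1 : twK (adjK B spt rdt (Z v)) B.tgt l B.src =
        twK (adjK B spt rdt (Z (tk 0))) B.tgt l B.src := by
      obtain ⟨φ, hφ⟩ := hall (dl (tk 0) - dl v)
      have h := twK_equiv (adjK B spt rdt (Z v)) (adjK B spt rdt (Z (tk 0))) B.tgt B.tgt φ hφ.tgt
        (by
          intro ty p1 p2
          apply adjK_map B spt rdt hφ (Z v) (Z (tk 0)) ty (hsp _ φ hφ) (fun s => hri _ s)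
          intro s _
          exact htru _ _ _ (hZ v (tk 0) hv1 hvN h00.1 h00.2) s) l B.src
      rw [hφ.src] at h
      exact h.symm
    rw [e1]
    have h := twK_transfer (adjK B spt rdt (Z (tk 0))) (adjK B spt rdt Z') B.tgt l
      (fun t ψ => B.IsAut (P (dl (tk t) - dl (tk 0))) ψ) (fun t ψ hψ => hψ.tgt) (by
        intro t ht ψ hψ p1 p2
        refine (adjK_map B spt rdt hψ (Z (tk 0)) Z' (l[t]) (hsp _ ψ hψ) (fun s => hri _ s) ?_
          p1 p2).symm
        intro s hs
        have hy := hZ (tk 0) (tk t) h00.1 h00.2 (hok t ht).1 (hok t ht).2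
        rw [← htru _ _ _ hy s]
        rcases s with _ | i
        · rfl
        · show (if P (dl (tk t) - dl (tk 0)) i ∈ Z' then (1 : K) else 0) =
            if P (dl (tk t) - dl (tk 0)) i ∈ Z (tk t) then 1 else 0
          have hR' := hR t ht
          rw [← hs, hrd1 (some i) i rfl] at hR'
          have := hZ' (tk t) (P (dl (tk t) - dl (tk 0)) i) (hok t ht).1 (hok t ht).2 (by
            intro y hyp he
            rw [hplcP] at hyp
            apply hR' y hyp
            rw [he]
            exact anc_refl _)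
          simp only [this]) (by
        intro t ht ψ hψ p1 p2 hne
        have hs : spt p2 = (l[t]).1 := by
          by_contra hc'
          apply hne
          unfold adjK
          rw [if_neg hc']
        obtain ⟨β, hβ, hβp⟩ := hS p2 (dl (tk (t + 1)) - dl (tk t)) (by
          intro i hi
          have h2 : Sup p2 = (l[t]).1.1 := congrArg Subtype.val hs
          rw [h2] at hi
          have h4 := hSt t ht i hi
          rw [Pi.sub_apply, hdl _ _ i h4, sub_self])
        have hφβ := hψ.mul hβ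
        rw [← hPadd] at hφβ
        have e2 : dl (tk t) - dl (tk 0) + (dl (tk (t + 1)) - dl (tk t)) =
            dl (tk (t + 1)) - dl (tk 0) := by ring
        rw [e2] at hφβ
        exact ⟨ψ * β, hφβ, by rw [Equiv.Perm.mul_apply, hβp]⟩) 1 (by
        show B.IsAut (P (dl (tk 0) - dl (tk 0))) 1
        rw [sub_self]
        have h0 : P 0 = 1 := by
          have := hPadd 0 0
          rw [add_zero] at this
          exact mul_eq_left.1 this.symm
        rw [h0]
        exact ABP.IsAut.one B) B.src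
    exact h

end Pool.Agent.H870R2.LS
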