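import Pool.Agent.H870R2.LS.SupQ

set_option autoImplicit false
set_option linter.unusedSectionVars false

/-! Supports for an abstract notion of automorphism. -/

namespace Pool.Agent.H870R2.LS

open Finset

/-- a notion of automorphism: pairs of permutations of the inputs and of the nodes, closed under
composition and inverses -/
structure IsAutGroup {I Q : Type} (Aut : Equiv.Perm I → Equiv.Perm Q → Prop) : Prop where
  one : Aut 1 1
  mul : ∀ {p p' φ φ'}, Aut p φ → Aut p' φ' → Aut (p * p') (φ * φ')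
  inv : ∀ {p φ}, Aut p φ → Aut p⁻¹ φ⁻¹

/-- every even permutation of the block extends to an automorphism -/
def SymOnA {V Q : Type} {q : ℕ} [NeZero q] (Aut : Equiv.Perm (Inp V) → Equiv.Perm Q → Prop)
    (b : ZMod q ↪ V) : Prop :=
  ∀ a ∈ alternatingGroup (ZMod q), ∀ p : Equiv.Perm V, (∀ c, p (b c) = b (a c)) →
    (∀ v, v ∉ Set.range b → p v = v) → ∃ φ, Aut (inpPerm p) φ

namespace SupA

open SupQ

section stab

variable {V Q : Type} {q r : ℕ} [NeZero q]

theorem sym_allqA {Aut : Equiv.Perm (Inp V) → Equiv.Perm Q → Prop} (hA : IsAutGroup Aut) (blk : Fin r → (ZMod q ↪ V))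
    (hd : Pairwise fun i j => Disjoint (Set.range (blk i)) (Set.range (blk j)))
    (hs : ∀ i, SymOnA Aut (blk i)) (γ : Fin r → alternatingGroup (ZMod q)) :
    ∃ φ, Aut (inpPerm (bpq (blkQ blk hd) γ)) φ := by
  classical
  let H : Subgroup (Fin r → alternatingGroup (ZMod q)) :=
    { carrier := {γ | ∃ φ, Aut (inpPerm (bpq (blkQ blk hd) γ)) φ}
      one_mem' := ⟨1, by rw [inp_one]; exact hA.one⟩
      mul_mem' := by
        rintro a b ⟨φ, h1⟩ ⟨ψ, h3⟩
        exact ⟨φ * ψ, by rw [inp_mul]; exact hA.mul h1 h3⟩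
      inv_mem' := by
        rintro a ⟨φ, h1⟩
        exact ⟨φ⁻¹, by rw [inp_inv]; exact hA.inv h1⟩ }
  have hmem : γ ∈ H := by
    apply Subgroup.pi_mem_of_mulSingle_mem
    intro i
    apply hs i (γ i) (γ i).2 (bpq (blkQ blk hd) (Pi.mulSingle i (γ i)))
    · intro c
      have := bpq_apply (blkQ blk hd) (Pi.mulSingle i (γ i)) i c
      rw [Pi.mulSingle_eq_same] at this
      exact this
    · intro v hv
      exact bpq_single blk hd i (γ i) v hv
  exact hmem

/-- the stabiliser of a tuple of gates -/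
def StabA {Aut : Equiv.Perm (Inp V) → Equiv.Perm Q → Prop} (hA : IsAutGroup Aut) (E : Fin r × ZMod q ↪ V) {k : ℕ} (T : Fin k → Q) :
    Subgroup (Fin r → alternatingGroup (ZMod q)) where
  carrier := {γ | ∃ φ, Aut (inpPerm (bpq E γ)) φ ∧ ∀ j, φ (T j) = T j}
  one_mem' := ⟨1, by rw [inp_one]; exact hA.one, fun _ => rfl⟩
  mul_mem' := by
    rintro a b ⟨φ, h1, h2⟩ ⟨ψ, h3, h4⟩
    refine ⟨φ * ψ, by rw [inp_mul]; exact hA.mul h1 h3, ?_⟩
    intro j
    rw [Equiv.Perm.mul_apply, h4, h2]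
  inv_mem' := by
    rintro a ⟨φ, h1, h2⟩
    refine ⟨φ⁻¹, by rw [inp_inv]; exact hA.inv h1, ?_⟩
    intro j
    rw [Equiv.Perm.inv_eq_iff_eq]
    exact (h2 j).symm

theorem mem_StabA {Aut : Equiv.Perm (Inp V) → Equiv.Perm Q → Prop} {hA : IsAutGroup Aut} {E : Fin r × ZMod q ↪ V} {k : ℕ} {T : Fin k → Q}
    {γ : Fin r → alternatingGroup (ZMod q)} :
    γ ∈ StabA hA E T ↔ ∃ φ, Aut (inpPerm (bpq E γ)) φ ∧ ∀ j, φ (T j) = T j := Iff.rfl

theorem StabA_conj {Aut : Equiv.Perm (Inp V) → Equiv.Perm Q → Prop} {hA : IsAutGroup Aut} {E : Fin r × ZMod q ↪ V} {k : ℕ} (T : Fin k → Q)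
    {γ : Fin r → alternatingGroup (ZMod q)} {φ : Equiv.Perm Q}
    (hφ : Aut (inpPerm (bpq E γ)) φ) {γ' : Fin r → alternatingGroup (ZMod q)}
    (h : γ' ∈ StabA hA E T) : γ * γ' * γ⁻¹ ∈ StabA hA E (fun j => φ (T j)) := by
  obtain ⟨ψ, h1, h2⟩ := h
  refine ⟨φ * ψ * φ⁻¹, ?_, ?_⟩
  · rw [inp_mul, inp_mul, inp_inv]
    exact hA.mul (hA.mul hφ h1) (hA.inv hφ)
  · intro j
    rw [Equiv.Perm.mul_apply, Equiv.Perm.mul_apply, p_inv_apply, h2]

open Classical in
/-- the support of a tuple of gates -/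
noncomputable def supTA {Aut : Equiv.Perm (Inp V) → Equiv.Perm Q → Prop} (hA : IsAutGroup Aut) (E : Fin r × ZMod q ↪ V) {k : ℕ} (T : Fin k → Q) :
    Finset (Fin r) :=
  univ.filter (fun i => ∃ a : alternatingGroup (ZMod q), Pi.mulSingle i a ∉ StabA hA E T)

theorem mem_supTA {Aut : Equiv.Perm (Inp V) → Equiv.Perm Q → Prop} {hA : IsAutGroup Aut} {E : Fin r × ZMod q ↪ V} {k : ℕ} {T : Fin k → Q}
    {i : Fin r} : i ∈ supTA hA E T ↔
      ∃ a : alternatingGroup (ZMod q), Pi.mulSingle i a ∉ StabA hA E T := by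
  unfold supTA
  simp

theorem single_conjA (γ : Fin r → alternatingGroup (ZMod q)) (i : Fin r)
    (a : alternatingGroup (ZMod q)) :
    γ * Pi.mulSingle i ((γ i)⁻¹ * a * γ i) * γ⁻¹ = Pi.mulSingle i a := by
  ext1 j
  by_cases hj : j = i
  · subst hj
    rw [Pi.mul_apply, Pi.mul_apply, Pi.mulSingle_eq_same, Pi.mulSingle_eq_same, Pi.inv_apply]
    group
  · rw [Pi.mul_apply, Pi.mul_apply, Pi.mulSingle_eq_of_ne hj, Pi.mulSingle_eq_of_ne hj,
      Pi.inv_apply]
    group

theorem supTA_subset {Aut : Equiv.Perm (Inp V) → Equiv.Perm Q → Prop} {hA : IsAutGroup Aut} {E : Fin r × ZMod q ↪ V} {k : ℕ} (T : Fin k → Q)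
    {γ : Fin r → alternatingGroup (ZMod q)} {φ : Equiv.Perm Q}
    (hφ : Aut (inpPerm (bpq E γ)) φ) : supTA hA E (fun j => φ (T j)) ⊆ supTA hA E T := by
  intro i hi
  rw [mem_supTA] at hi ⊢
  obtain ⟨a, ha⟩ := hi
  refine ⟨(γ i)⁻¹ * a * γ i, fun h => ha ?_⟩
  have := StabA_conj T hφ h
  rwa [single_conjA] at this

end stab

end SupA

open SupQ SupA in
/-- SUPQ: supports of tuples of gates -/
theorem sup_existsA {V Q : Type} [Fintype Q] {q r : ℕ} [NeZero q] (hq : 5 ≤ q) (hodd : Odd q)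
    {Aut : Equiv.Perm (Inp V) → Equiv.Perm Q → Prop} (hA : IsAutGroup Aut)
    (blk : Fin r → (ZMod q ↪ V))
    (hd : Pairwise fun i j => Disjoint (Set.range (blk i)) (Set.range (blk j)))
    (hs : ∀ i, SymOnA Aut (blk i)) (m : ℕ) (hcard : Fintype.card Q < q ^ m) :
    ∃ P : (Fin r → ZMod q) → Equiv.Perm V,
      (∀ δ i c, P δ (blk i c) = blk i (c + δ i)) ∧
      (∀ δ v, (∀ i, v ∉ Set.range (blk i)) → P δ v = v) ∧
      ∀ k : ℕ, 1 ≤ k → ∃ Sup : (Fin k → Q) → Finset (Fin r),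
        (∀ T, (Sup T).card < 2 * (k * m)) ∧
        (∀ T δ, (∀ i ∈ Sup T, δ i = 0) →
          ∃ φ, Aut (inpPerm (P δ)) φ ∧ ∀ j, φ (T j) = T j) ∧
        (∀ T δ φ, Aut (inpPerm (P δ)) φ → Sup (fun j => φ (T j)) = Sup T) := by
  classical
  let ga : (Fin r → ZMod q) → (Fin r → alternatingGroup (ZMod q)) :=
    fun δ i => ⟨Equiv.addRight (δ i), trans_even hodd _⟩
  refine ⟨fun δ => bpq (blkQ blk hd) (ga δ), ?_, ?_, ?_⟩
  · intro δ i c
    have := bpq_apply (blkQ blk hd) (ga δ) i c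
    exact this
  · intro δ v hv
    apply bpq_notMem
    rintro ⟨⟨j, c⟩, h⟩
    exact hv j ⟨c, h⟩
  · intro k hk
    refine ⟨fun T => supTA hA (blkQ blk hd) T, ?_, ?_, ?_⟩
    · intro T
      choose φ hφ using sym_allqA hA blk hd hs
      have hc : Fintype.card (Fin k → Q) < q ^ (k * m) := by
        rw [Fintype.card_fun, Fintype.card_fin, mul_comm, pow_mul]
        exact Nat.pow_lt_pow_left hcard (by omega)
      obtain ⟨S, hS1, hS2⟩ := support_q hq (StabA hA (blkQ blk hd) T)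
        (fun γ => (fun j => φ γ (T j) : Fin k → Q)) (by
        intro a b hab
        refine ⟨(φ a)⁻¹ * φ b, ?_, ?_⟩
        · rw [inp_mul, inp_inv]
          exact hA.mul (hA.inv (hφ a)) (hφ b)
        · intro j
          have h1 : φ a (T j) = φ b (T j) := congrFun hab j
          rw [Equiv.Perm.mul_apply, ← h1, p_inv_apply]) (k * m) hc
      refine lt_of_le_of_lt (Finset.card_le_card ?_) hS1
      intro i hi
      rw [mem_supTA] at hi
      obtain ⟨a, ha⟩ := hi
      by_contra hcon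
      exact ha (hS2 i hcon a)
    · intro T δ hδ
      have hmem : ga δ ∈ StabA hA (blkQ blk hd) T := by
        apply Subgroup.pi_mem_of_mulSingle_mem
        intro i
        by_cases hi : i ∈ supTA hA (blkQ blk hd) T
        · have h0 : ga δ i = 1 := by
            apply Subtype.ext
            show (Equiv.addRight (δ i) : Equiv.Perm (ZMod q)) = 1
            rw [hδ i hi]
            ext1 x
            exact add_zero x
          rw [h0, Pi.mulSingle_one]
          exact Subgroup.one_mem _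
        · by_contra hcon
          exact hi (mem_supTA.2 ⟨ga δ i, hcon⟩)
      exact hmem
    · intro T δ φ hφ
      apply Finset.Subset.antisymm
      · exact supTA_subset T hφ
      · have h1 : Aut (inpPerm (bpq (blkQ blk hd) (ga δ)⁻¹)) φ⁻¹ := by
          rw [inp_inv]; exact hA.inv hφ
        have h2 := supTA_subset (hA := hA) (fun j => φ (T j)) h1
        have h3 : (fun j => φ⁻¹ (φ (T j))) = T := by
          funext j
          rw [p_inv_apply]
        rw [h3] at h2
        exact h2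

end Pool.Agent.H870R2.LS
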