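import Pool.Agent.H870R2.LS.TWalk

set_option autoImplicit false
set_option linter.unusedSectionVars false

/-! The instances of the tree evaluation problem. -/

namespace Pool.Agent.H870R2.LS

open Finset

section inst

variable {h q : ℕ}

/-- the instance with curvature `κ` and target label `τ` -/
def instZ (h : ℕ) {q : ℕ} (κ : ℕ → ZMod q) (τ : ZMod q) : Set (Inp (EEl h q)) :=
  {y | (∃ v : Fin (2 ^ (h + 1)), 2 ^ h ≤ v.val ∧ y = Sum.inl (some (v, κ v.val))) ∨
    (∃ (v vl vr : Fin (2 ^ (h + 1))) (a b : ZMod q), 1 ≤ v.val ∧ vl.val = 2 * v.val ∧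
      vr.val = 2 * v.val + 1 ∧ y = Sum.inr (some (vl, a), some (vr, b), some (v, a + b + κ v.val))) ∨
    (∃ v : Fin (2 ^ (h + 1)), v.val = 1 ∧ y = Sum.inr (some (v, τ), some (v, τ), none))}

theorem instZ_sub (κ : ℕ → ZMod q) (τ : ZMod q) : instZ h κ τ ⊆ ttmpl h q := by
  rintro y (⟨v, hv, rfl⟩ | ⟨v, vl, vr, a, b, h1, h2, h3, rfl⟩ | ⟨v, hv, rfl⟩)
  · exact Or.inl ⟨v, _, hv, rfl⟩
  · exact Or.inr (Or.inl ⟨v, vl, vr, a, b, _, h1, h2, h3, rfl⟩)
  · exact Or.inr (Or.inr ⟨v, τ, hv, rfl⟩)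

/-- translations act on the instances -/
theorem instZ_act (κ κ' D : ℕ → ZMod q) (τ τ' : ZMod q) (p : Equiv.Perm (EEl h q))
    (hp : ∀ v a, p (some (v, a)) = some (v, a + D v.val)) (hn : p none = none)
    (h1 : ∀ y, 2 ^ h ≤ y → y < 2 ^ (h + 1) → κ' y = κ y + D y)
    (h2 : ∀ y, 1 ≤ y → 2 * y + 1 < 2 ^ (h + 1) →
      κ' y = κ y + D y - (D (2 * y) + D (2 * y + 1)))
    (h3 : τ' = τ + D 1) (i : Inp (EEl h q)) :
    inpPerm p i ∈ instZ h κ' τ' ↔ i ∈ instZ h κ τ := by
  have hinv : ∀ u v a, p u = some (v, a) → u = some (v, a - D v.val) := by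
    intro u v a hu
    apply p.injective
    rw [hu, hp, sub_add_cancel]
  have hinvn : ∀ u, p u = none → u = none := by
    intro u hu
    apply p.injective
    rw [hu, hn]
  constructor
  · rintro (⟨v, hv, he⟩ | ⟨v, vl, vr, a, b, k1, k2, k3, he⟩ | ⟨v, hv, he⟩)
    · rcases i with u | ⟨u1, u2, u3⟩
      · have e1 : p u = some (v, κ' v.val) := Sum.inl.inj he
        left
        refine ⟨v, hv, ?_⟩
        rw [hinv u v _ e1, h1 v.val hv v.2, add_sub_cancel_right]
      · exact absurd he (by intro h; cases h)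
    · rcases i with u | ⟨u1, u2, u3⟩
      · exact absurd he (by intro h; cases h)
      · have e1 : (p u1, p u2, p u3) = (some (vl, a), some (vr, b), some (v, a + b + κ' v.val)) :=
          Sum.inr.inj he
        simp only [Prod.mk.injEq] at e1
        right; left
        refine ⟨v, vl, vr, a - D vl.val, b - D vr.val, k1, k2, k3, ?_⟩
        rw [hinv u1 _ _ e1.1, hinv u2 _ _ e1.2.1, hinv u3 _ _ e1.2.2,
          h2 v.val k1 (by have := vr.2; omega), k2, k3]
        congr 5
        ring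
    · rcases i with u | ⟨u1, u2, u3⟩
      · exact absurd he (by intro h; cases h)
      · have e1 : (p u1, p u2, p u3) = (some (v, τ'), some (v, τ'), none) := Sum.inr.inj he
        simp only [Prod.mk.injEq] at e1
        right; right
        refine ⟨v, hv, ?_⟩
        rw [hinv u1 _ _ e1.1, hinv u2 _ _ e1.2.1, hinvn u3 e1.2.2, h3, hv,
          add_sub_cancel_right]
  · rintro (⟨v, hv, rfl⟩ | ⟨v, vl, vr, a, b, k1, k2, k3, rfl⟩ | ⟨v, hv, rfl⟩)
    · left
      refine ⟨v, hv, ?_⟩
      show Sum.inl (p _) = _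
      rw [hp, h1 v.val hv v.2]
    · right; left
      refine ⟨v, vl, vr, a + D vl.val, b + D vr.val, k1, k2, k3, ?_⟩
      show Sum.inr (p _, p _, p _) = _
      rw [hp, hp, hp, h2 v.val k1 (by have := vr.2; omega), k2, k3]
      congr 5
      ring
    · right; right
      refine ⟨v, hv, ?_⟩
      show Sum.inr (p _, p _, p _) = _
      rw [hp, hn, h3, hv]

open Classical in
/-- the offsets of the token `v` -/
noncomputable def offs (q v y : ℕ) : ZMod q := if anc y v then 1 else 0

theorem anc_child {y v : ℕ} (hy : 1 ≤ y) : anc y v ↔ y = v ∨ anc (2 * y) v ∨ anc (2 * y + 1) v := by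
  constructor
  · rintro ⟨j, hj⟩
    rcases j with _ | j
    · left
      rw [← hj, pow_zero, Nat.div_one]
    · right
      have h1 : v / 2 ^ j / 2 = y := by
        rw [Nat.div_div_eq_div_mul, ← pow_succ, hj]
      rcases Nat.even_or_odd' (v / 2 ^ j) with ⟨c, hc | hc⟩
      · left
        exact ⟨j, by omega⟩
      · right
        exact ⟨j, by omega⟩
  · rintro (rfl | ⟨j, hj⟩ | ⟨j, hj⟩)
    · exact anc_refl _
    · exact ⟨j + 1, by rw [pow_succ, ← Nat.div_div_eq_div_mul, hj]; omega⟩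
    · exact ⟨j + 1, by rw [pow_succ, ← Nat.div_div_eq_div_mul, hj]; omega⟩

theorem anc_le {y v : ℕ} (h : anc y v) : y ≤ v := by
  obtain ⟨j, rfl⟩ := h
  exact Nat.div_le_self _ _

theorem anc_one {v : ℕ} (hv : 1 ≤ v) : anc 1 v := by
  induction v using Nat.strong_induction_on with
  | _ v ih =>
    rcases Nat.lt_or_ge v 2 with h | h
    · have : v = 1 := by omega
      rw [this]
      exact anc_refl 1
    · exact anc_trans (ih (v / 2) (by omega) (by omega)) ⟨1, by rw [pow_one]⟩

theorem not_anc_both {y v : ℕ} (hy : 1 ≤ y) : ¬ (anc (2 * y) v ∧ anc (2 * y + 1) v) := by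
  rintro ⟨h1, h2⟩
  rcases anc_comp h1 h2 with ⟨j, hj⟩ | ⟨j, hj⟩
  · rcases j with _ | j
    · rw [pow_zero, Nat.div_one] at hj
      omega
    · have h3 : (2 * y + 1) / 2 ^ (j + 1) ≤ (2 * y + 1) / 2 := by
        apply Nat.div_le_div_left _ (by norm_num)
        rw [pow_succ]
        have := Nat.one_le_two_pow (n := j)
        omega
      omega
  · have := Nat.div_le_self (2 * y) (2 ^ j)
    omega

theorem not_anc_child {y : ℕ} (hy : 1 ≤ y) : ¬ anc (2 * y) y ∧ ¬ anc (2 * y + 1) y := by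
  constructor
  · intro h
    have := anc_le h
    omega
  · intro h
    have := anc_le h
    omega

theorem offs_curv (q : ℕ) {y v : ℕ} (hy : 1 ≤ y) :
    offs q v y - (offs q v (2 * y) + offs q v (2 * y + 1)) = if y = v then 1 else 0 := by
  unfold offs
  by_cases h1 : y = v
  · subst h1
    have h2 := not_anc_child hy
    rw [if_pos (anc_refl y), if_neg h2.1, if_neg h2.2, if_pos rfl]
    ring
  · rw [if_neg h1]
    by_cases h2 : anc (2 * y) v
    · have h3 : ¬ anc (2 * y + 1) v := fun h3 => not_anc_both hy ⟨h2, h3⟩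
      rw [if_pos ((anc_child hy).2 (Or.inr (Or.inl h2))), if_pos h2, if_neg h3]
      ring
    · by_cases h3 : anc (2 * y + 1) v
      · rw [if_pos ((anc_child hy).2 (Or.inr (Or.inr h3))), if_neg h2, if_pos h3]
        ring
      · rw [if_neg (fun h4 => ?_), if_neg h2, if_neg h3]
        · ring
        · rcases (anc_child hy).1 h4 with h5 | h5 | h5
          · exact h1 h5
          · exact h2 h5
          · exact h3 h5

theorem offs_leaf (q : ℕ) {h y v : ℕ} (hy : 2 ^ h ≤ y) (hv : v < 2 ^ (h + 1)) :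
    offs q v y = if y = v then 1 else 0 := by
  have hy1 : 1 ≤ y := le_trans Nat.one_le_two_pow hy
  rw [← offs_curv q hy1]
  unfold offs
  have h1 : ¬ anc (2 * y) v := fun h => by
    have := anc_le h
    rw [pow_succ] at hv
    omega
  have h2 : ¬ anc (2 * y + 1) v := fun h => by
    have := anc_le h
    rw [pow_succ] at hv
    omega
  rw [if_neg h1, if_neg h2]
  ring

/-- the instance of the token `v` -/
noncomputable def ZZ (h q v : ℕ) : Set (Inp (EEl h q)) :=
  instZ h (fun y => if y = v then 1 else 0) 1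

/-- moving the token -/
theorem ZZ_move (v w : ℕ) (hv : 1 ≤ v) (hv' : v < 2 ^ (h + 1)) (hw : 1 ≤ w)
    (hw' : w < 2 ^ (h + 1)) (p : Equiv.Perm (EEl h q))
    (hp : ∀ (u : Fin (2 ^ (h + 1))) a, p (some (u, a)) = some (u, a + (offs q w u.val - offs q v u.val)))
    (hn : p none = none) (i : Inp (EEl h q)) : inpPerm p i ∈ ZZ h q w ↔ i ∈ ZZ h q v := by
  apply instZ_act _ _ (fun y => offs q w y - offs q v y) _ _ p hp hn
  · intro y hy hy'
    show (if y = w then (1 : ZMod q) else 0) = (if y = v then 1 else 0) +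
      (offs q w y - offs q v y)
    rw [offs_leaf q hy hw', offs_leaf q hy hv']
    ring
  · intro y hy hy'
    show (if y = w then (1 : ZMod q) else 0) = (if y = v then 1 else 0) +
      (offs q w y - offs q v y) - ((offs q w (2 * y) - offs q v (2 * y)) +
        (offs q w (2 * y + 1) - offs q v (2 * y + 1)))
    rw [← offs_curv q hy, ← offs_curv q hy]
    ring
  · show (1 : ZMod q) = 1 + (offs q w 1 - offs q v 1)
    unfold offs
    rw [if_pos (anc_one hv), if_pos (anc_one hw)]
    ring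

theorem ZZ_yes (h q : ℕ) : Der (ZZ h q 1) none := by
  have hall : ∀ (n y : ℕ) (hy : y < 2 ^ (h + 1)), 1 ≤ y → 2 ^ (h + 1) ≤ y * 2 ^ (n + 1) →
      Der (ZZ h q 1) (some (⟨y, hy⟩, if y = 1 then 1 else 0)) := by
    intro n
    induction n with
    | zero =>
      intro y hy hy1 hy2
      apply Der.ax
      left
      refine ⟨⟨y, hy⟩, ?_, rfl⟩
      show 2 ^ h ≤ y
      rw [pow_succ] at hy2
      omega
    | succ n ih =>
      intro y hy hy1 hy2
      by_cases hl : 2 ^ h ≤ y
      · apply Der.ax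
        left
        exact ⟨⟨y, hy⟩, hl, rfl⟩
      · have h3 : 2 * y + 1 < 2 ^ (h + 1) := by
          rw [pow_succ]
          omega
        have h4 : 2 ^ (h + 1) ≤ 2 * y * 2 ^ (n + 1) := by
          calc 2 ^ (h + 1) ≤ y * 2 ^ (n + 1 + 1) := hy2
            _ = 2 * y * 2 ^ (n + 1) := by rw [pow_succ 2 (n + 1)]; ring
        have h5 : 2 ^ (h + 1) ≤ (2 * y + 1) * 2 ^ (n + 1) :=
          h4.trans (Nat.mul_le_mul_right _ (by omega))
        have d1 := ih (2 * y) (by omega) (by omega) h4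
        have d2 := ih (2 * y + 1) h3 (by omega) h5
        rw [if_neg (show ¬ 2 * y = 1 by omega)] at d1
        rw [if_neg (show ¬ 2 * y + 1 = 1 by omega)] at d2
        refine Der.rule _ _ _ ?_ d1 d2
        right; left
        refine ⟨⟨y, hy⟩, ⟨2 * y, by omega⟩, ⟨2 * y + 1, h3⟩, 0, 0, hy1, rfl, rfl, ?_⟩
        show _ = Sum.inr (_, _, some (_, (0 : ZMod q) + 0 + if y = 1 then 1 else 0))
        rw [add_zero, zero_add]
  have h1 : 1 < 2 ^ (h + 1) := Nat.one_lt_two_pow (by omega)
  have d := hall h 1 h1 le_rfl (by rw [one_mul])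
  rw [if_pos rfl] at d
  refine Der.rule _ _ _ ?_ d d
  right; right
  exact ⟨⟨1, h1⟩, rfl, rfl⟩

theorem ZZ_no (h : ℕ) {q : ℕ} (hq : 5 ≤ q) : ¬ Der (instZ h (fun _ => (0 : ZMod q)) 1) none := by
  have key : ∀ y, Der (instZ h (fun _ => (0 : ZMod q)) 1) y → ∃ v, y = some (v, 0) := by
    intro y hy
    induction hy with
    | ax u hu =>
      rcases hu with ⟨v, hv, he⟩ | ⟨v, vl, vr, a, b, _, _, _, he⟩ | ⟨v, hv, he⟩
      · exact ⟨v, Sum.inl.inj he⟩
      · cases he
      · cases he
    | rule a b c hr _ _ iha ihb =>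
      rcases hr with ⟨v, hv, he⟩ | ⟨v, vl, vr, a', b', _, _, _, he⟩ | ⟨v, hv, he⟩
      · cases he
      · have e1 := Sum.inr.inj he
        simp only [Prod.mk.injEq] at e1
        obtain ⟨e2, e3, e4⟩ := e1
        obtain ⟨v1, h1⟩ := iha
        obtain ⟨v2, h2⟩ := ihb
        rw [e2] at h1
        rw [e3] at h2
        have h3 : a' = 0 := (Prod.ext_iff.1 (Option.some.inj h1)).2
        have h4 : b' = 0 := (Prod.ext_iff.1 (Option.some.inj h2)).2
        refine ⟨v, ?_⟩
        rw [e4, h3, h4]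
        simp
      · exfalso
        have e1 := Sum.inr.inj he
        simp only [Prod.mk.injEq] at e1
        obtain ⟨v1, h1⟩ := iha
        rw [e1.1] at h1
        have h3 : (1 : ZMod q) = 0 := (Prod.ext_iff.1 (Option.some.inj h1)).2
        haveI : Fact (1 < q) := ⟨by omega⟩
        exact one_ne_zero h3
  intro h
  obtain ⟨v, hv⟩ := key none h
  cases hv

end inst

end Pool.Agent.H870R2.LS
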