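import Pool.Agent.H870R2.LS.KGame
import Pool.Agent.H870R2.LS.KSup
import Pool.Agent.H870R2.LS.TArena
import Pool.Agent.H870R2.LS.Dodge

set_option autoImplicit false
set_option linter.unusedSectionVars false

/-! Lower bound for locally symmetric branching programs for the tree evaluation polynomial. -/

namespace Pool.Agent.H870R2.LS

open Finset

section evaluation

variable {K : Type} [CommSemiring K] {h q : ℕ} [NeZero q]

/-- the label of a node of the instance with curvature `κ` -/
def labK (κ : ℕ → ZMod q) : ℕ → ℕ → ZMod q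
  | 0, v => κ v
  | d + 1, v => labK κ d (2 * v) + labK κ d (2 * v + 1) + κ v

theorem nodePoly_succ (d v : ℕ) (a : ZMod q) (hv : 2 * v + 1 < 2 ^ (h + 1)) :
    nodePoly K h q (d + 1) v a =
      ∑ b : ZMod q, ∑ c : ZMod q, nodePoly K h q d (2 * v) b * nodePoly K h q d (2 * v + 1) c *
        MvPolynomial.X (Sum.inr (some (⟨2 * v, by omega⟩, b), some (⟨2 * v + 1, hv⟩, c),
          some (⟨v, by omega⟩, a))) := by
  rw [nodePoly, dif_pos hv]

theorem nodePoly_zero (v : ℕ) (a : ZMod q) (hv : v < 2 ^ (h + 1)) :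
    nodePoly K h q 0 v a = MvPolynomial.X (Sum.inl (some (⟨v, hv⟩, a))) := by
  rw [nodePoly, dif_pos hv]

theorem pt_leaf (κ : ℕ → ZMod q) (τ : ZMod q) (v : ℕ) (hv : v < 2 ^ (h + 1)) (hv2 : 2 ^ h ≤ v)
    (a : ZMod q) : pt K (instZ h κ τ) (Sum.inl (some (⟨v, hv⟩, a))) = if a = κ v then 1 else 0 := by
  unfold pt
  by_cases ha : a = κ v
  · rw [if_pos ha, if_pos]
    left
    exact ⟨⟨v, hv⟩, hv2, by rw [ha]⟩
  · rw [if_neg ha, if_neg]
    rintro (⟨y, hy, he⟩ | ⟨y, yl, yr, b, c, k1, k2, k3, he⟩ | ⟨y, hy, he⟩)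
    · apply ha
      have h1 := Option.some.inj (Sum.inl.inj he)
      have h2 : (⟨v, hv⟩ : Fin (2 ^ (h + 1))) = y := congrArg Prod.fst h1
      have h3 : a = κ y.val := congrArg Prod.snd h1
      rw [h3, ← h2]
    · cases he
    · cases he

theorem pt_rule (κ : ℕ → ZMod q) (τ : ZMod q) (v : ℕ) (hv : 2 * v + 1 < 2 ^ (h + 1))
    (hv1 : 1 ≤ v) (a b c : ZMod q) :
    pt K (instZ h κ τ) (Sum.inr (some (⟨2 * v, by omega⟩, b), some (⟨2 * v + 1, hv⟩, c),
          some (⟨v, by omega⟩, a))) = if a = b + c + κ v then 1 else 0 := by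
  unfold pt
  by_cases ha : a = b + c + κ v
  · rw [if_pos ha, if_pos]
    right; left
    refine ⟨⟨v, by omega⟩, ⟨2 * v, by omega⟩, ⟨2 * v + 1, hv⟩, b, c, hv1, rfl, rfl, ?_⟩
    rw [ha]
  · rw [if_neg ha, if_neg]
    rintro (⟨y, hy, he⟩ | ⟨y, yl, yr, b', c', k1, k2, k3, he⟩ | ⟨y, hy, he⟩)
    · cases he
    · apply ha
      have h1 := Sum.inr.inj he
      simp only [Prod.mk.injEq, Option.some.injEq] at h1
      obtain ⟨⟨-, h2⟩, ⟨-, h3⟩, h4, h5⟩ := h1
      rw [h5, ← h2, ← h3, ← h4]
    · have h1 := Sum.inr.inj he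
      simp only [Prod.mk.injEq] at h1
      cases h1.2.2

theorem pt_root (κ : ℕ → ZMod q) (τ : ZMod q) (a : ZMod q) (h1 : 1 < 2 ^ (h + 1)) :
    pt K (instZ h κ τ) (Sum.inr (some (⟨1, h1⟩, a), some (⟨1, h1⟩, a), none)) =
      if a = τ then 1 else 0 := by
  unfold pt
  by_cases ht : a = τ
  · rw [if_pos ht, if_pos]
    right; right
    exact ⟨⟨1, h1⟩, rfl, by rw [ht]⟩
  · rw [if_neg ht, if_neg]
    rintro (⟨y, hy, he⟩ | ⟨y, yl, yr, b', c', k1, k2, k3, he⟩ | ⟨y, hy, he⟩)
    · cases he
    · have h1 := Sum.inr.inj he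
      simp only [Prod.mk.injEq] at h1
      cases h1.2.2
    · apply ht
      have h1 := Sum.inr.inj he
      simp only [Prod.mk.injEq, Option.some.injEq] at h1
      exact h1.1.2

theorem sum_ite_aux (A B : ZMod q) (f : ZMod q → ZMod q → K) (g : K) (hg : f A B = g)
    (hf : ∀ b c, ¬ (b = A ∧ c = B) → f b c = 0) : ∑ b : ZMod q, ∑ c : ZMod q, f b c = g := by
  rw [Finset.sum_eq_single A]
  · rw [Finset.sum_eq_single B]
    · exact hg
    · intro c _ hc
      exact hf A c (fun h => hc h.2)
    · intro hc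
      exact absurd (Finset.mem_univ _) hc
  · intro b _ hb
    apply Finset.sum_eq_zero
    intro c _
    exact hf b c (fun h => hb h.1)
  · intro hb
    exact absurd (Finset.mem_univ _) hb

theorem eval_node (κ : ℕ → ZMod q) (τ : ZMod q) : ∀ (d v : ℕ), d ≤ h → 1 ≤ v →
    2 ^ (h - d) ≤ v → v < 2 ^ (h - d + 1) → ∀ a : ZMod q,
    MvPolynomial.eval (pt K (instZ h κ τ)) (nodePoly K h q d v a) =
      if a = labK κ d v then 1 else 0 := by
  intro d
  induction d with
  | zero =>
    intro v _ hv1 hv2 hv3 a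
    rw [Nat.sub_zero] at hv2 hv3
    rw [nodePoly_zero v a hv3, MvPolynomial.eval_X, pt_leaf κ τ v hv3 hv2]
    rfl
  | succ d ih =>
    intro v hdh hv1 hv2 hv3 a
    have e1 : h - d = h - (d + 1) + 1 := by omega
    have hv4 : 2 ^ (h - d) ≤ 2 * v := by
      rw [e1, pow_succ]; omega
    have hv5 : 2 * v + 1 < 2 ^ (h - d + 1) := by
      rw [pow_succ, e1]; omega
    have hv6 : 2 ^ (h - d + 1) ≤ 2 ^ (h + 1) := Nat.pow_le_pow_right (by norm_num) (by omega)
    have hvl : 2 * v + 1 < 2 ^ (h + 1) := by omega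
    rw [nodePoly_succ d v a hvl]
    simp only [map_sum, map_mul, MvPolynomial.eval_X]
    have h1 := fun b => ih (2 * v) (by omega) (by omega) hv4 (by omega) b
    have h2 := fun c => ih (2 * v + 1) (by omega) (by omega) (by omega) hv5 c
    have h3 := fun b c => pt_rule (K := K) κ τ v hvl hv1 a b c
    simp only [h1, h2, h3]
    apply sum_ite_aux (labK κ d (2 * v)) (labK κ d (2 * v + 1))
    · rw [if_pos rfl, if_pos rfl, one_mul, one_mul]
      rfl
    · intro b c hbc
      by_cases hb : b = labK κ d (2 * v)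
      · rw [if_neg (fun hc => hbc ⟨hb, hc⟩), mul_zero, zero_mul]
      · rw [if_neg hb, zero_mul, zero_mul]

theorem eval_tree (κ : ℕ → ZMod q) (τ : ZMod q) :
    MvPolynomial.eval (pt K (instZ h κ τ)) (treePoly K h q) =
      if τ = labK κ h 1 then 1 else 0 := by
  unfold treePoly
  simp only [map_sum, map_mul, MvPolynomial.eval_X, pt_root]
  have h1 := fun a => eval_node (K := K) κ τ h 1 le_rfl le_rfl (by rw [Nat.sub_self]; simp)
      (by rw [Nat.sub_self]; simp) a
  simp only [h1]
  rw [Finset.sum_eq_single (labK κ h 1)]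
  · rw [if_pos rfl, one_mul]
    simp only [eq_comm]
  · intro a _ ha
    rw [if_neg ha, zero_mul]
  · intro ha
    exact absurd (Finset.mem_univ _) ha

theorem labK_zero : ∀ (d v : ℕ), labK (fun _ => (0 : ZMod q)) d v = 0 := by
  intro d
  induction d with
  | zero => intro v; rfl
  | succ d ih =>
    intro v
    unfold labK
    rw [ih, ih]
    simp

theorem labK_above : ∀ (d v : ℕ), 2 ≤ v → labK (fun y => if y = 1 then (1 : ZMod q) else 0) d v = 0 := by
  intro d
  induction d with
  | zero =>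
    intro v hv
    show (if v = 1 then (1 : ZMod q) else 0) = 0
    rw [if_neg (by omega)]
  | succ d ih =>
    intro v hv
    unfold labK
    rw [ih _ (by omega), ih _ (by omega), if_neg (by omega)]
    simp

theorem labK_one (d : ℕ) : labK (fun y => if y = 1 then (1 : ZMod q) else 0) d 1 = 1 := by
  rcases d with _ | d
  · rfl
  · unfold labK
    rw [labK_above _ _ (by omega), labK_above _ _ (by omega), if_pos rfl]
    simp

end evaluation

/-- **Lower bound for the tree evaluation polynomial.** -/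
theorem abp_lower {K : Type} [CommSemiring K] [Nontrivial K] {h q R : ℕ} [NeZero q] (hq : 5 ≤ q)
    (hodd : Odd q) (hRh : R ≤ h) {Q : Type} [Fintype Q] [DecidableEq Q]
    (B : ABP (Inp (EEl h q)) K Q) (hB : ∀ κ τ, MvPolynomial.eval (pt K (instZ h κ τ)) B.poly =
      MvPolynomial.eval (pt K (instZ h κ τ)) (treePoly K h q))
    (hs : ∀ v : Fin (2 ^ (h + 1)), v.val < 2 ^ (R + 1) → B.SymOn (eblk (q := q) v))
    (m : ℕ) (hm : 1 ≤ m) (hR : 4 * m ≤ R + 1) : q ^ m ≤ Fintype.card Q := by
  classical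
  by_contra hcard
  rw [not_le] at hcard
  have hrle : 2 ^ (R + 1) ≤ 2 ^ (h + 1) := Nat.pow_le_pow_right (by norm_num) (by omega)
  let ca : Fin (2 ^ (R + 1)) → Fin (2 ^ (h + 1)) := fun i => Fin.castLE hrle i
  have hcaval : ∀ i, (ca i).val = i.val := fun i => rfl
  let blk : Fin (2 ^ (R + 1)) → (ZMod q ↪ EEl h q) := fun i => eblk (ca i)
  have hd : Pairwise fun i j => Disjoint (Set.range (blk i)) (Set.range (blk j)) := by
    intro i j hij
    rw [Set.disjoint_left]
    rintro _ ⟨a, rfl⟩ ⟨b, hb⟩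
    apply hij
    have h1 : (some (ca j, b) : EEl h q) = some (ca i, a) := hb
    have h2 : ca j = ca i := congrArg Prod.fst (Option.some.inj h1)
    exact (Fin.castLE_injective hrle h2).symm
  have hA : IsAutGroup (fun (p : Equiv.Perm (Inp (EEl h q))) (φ : Equiv.Perm Q) => B.IsAut p φ) :=
    ⟨ABP.IsAut.one B, fun h h' => h.mul h', fun h => h.inv⟩
  have hsb : ∀ i, SymOnA (fun (p : Equiv.Perm (Inp (EEl h q))) (φ : Equiv.Perm Q) =>
      B.IsAut p φ) (blk i) := fun i => hs (ca i) i.2
  obtain ⟨P0, hP1, hP2, hP3⟩ := sup_existsA hq hodd hA blk hd hsb m hcard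
  obtain ⟨SupA, a1, a2, a3⟩ := hP3 1 le_rfl
  -- the translations
  obtain ⟨ex, hex⟩ : ∃ ex : (Fin (2 ^ (R + 1)) → ZMod q) → ℕ → ZMod q, ∀ δ y,
      ex δ y = if hy : y < 2 ^ (R + 1) then δ ⟨y, hy⟩ else 0 := ⟨_, fun _ _ => rfl⟩
  have hPs : ∀ δ (v : Fin (2 ^ (h + 1))) (a : ZMod q),
      P0 δ (some (v, a)) = some (v, a + ex δ v.val) := by
    intro δ v a
    rw [hex]
    by_cases hv : v.val < 2 ^ (R + 1)
    · rw [dif_pos hv]
      have h1 := hP1 δ ⟨v.val, hv⟩ a
      have h2 : ∀ c : ZMod q, blk ⟨v.val, hv⟩ c = some (v, c) := fun c => rfl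
      rw [h2, h2] at h1
      exact h1
    · rw [dif_neg hv, add_zero]
      apply hP2
      rintro i ⟨c, hc⟩
      apply hv
      have h1 : (some (ca i, c) : EEl h q) = some (v, a) := hc
      have h2 : ca i = v := congrArg Prod.fst (Option.some.inj h1)
      rw [← h2]
      exact i.2
  have hPn : ∀ δ, P0 δ none = none := by
    intro δ
    apply hP2
    rintro i ⟨c, hc⟩
    cases hc
  have hPadd0 : ∀ δ δ', P0 (δ + δ') = P0 δ * P0 δ' := by
    intro δ δ'
    ext1 u
    rw [Equiv.Perm.mul_apply]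
    rcases u with _ | ⟨v, a⟩
    · rw [hPn, hPn, hPn]
    · rw [hPs, hPs, hPs]
      congr 2
      rw [hex, hex, hex]
      by_cases hv : v.val < 2 ^ (R + 1)
      · rw [dif_pos hv, dif_pos hv, dif_pos hv, Pi.add_apply]
        ring
      · rw [dif_neg hv, dif_neg hv, dif_neg hv]
        ring
  have hPadd : ∀ δ δ', inpPerm (P0 (δ + δ')) = inpPerm (P0 δ) * inpPerm (P0 δ') := by
    intro δ δ'
    rw [hPadd0]
    ext u
    rcases u with u | ⟨u1, u2, u3⟩ <;> rfl
  -- all translations lift
  have hall : ∀ δ, ∃ φ, B.IsAut (inpPerm (P0 δ)) φ := by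
    intro δ
    have h0 : P0 0 = 1 := by
      have := hPadd0 0 0
      rw [add_zero] at this
      exact mul_eq_left.1 this.symm
    have hone : inpPerm (P0 0) = 1 := by
      rw [h0]
      ext u
      rcases u with u | ⟨u1, u2, u3⟩ <;> rfl
    have hsing : ∀ i (a : ZMod q), ∃ φ, B.IsAut (inpPerm (P0 (Pi.single i a))) φ := by
      intro i a
      apply hsb i (Equiv.addRight a) (trans_even hodd a)
      · intro c
        rw [hP1, Pi.single_eq_same]
        rfl
      · intro v hv
        rcases v with _ | ⟨v, b⟩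
        · exact hPn _
        · rw [hPs, hex]
          by_cases hv' : v.val < 2 ^ (R + 1)
          · rw [dif_pos hv', Pi.single_eq_of_ne, add_zero]
            rintro rfl
            exact hv ⟨b, rfl⟩
          · rw [dif_neg hv', add_zero]
    have key : ∀ s : Finset (Fin (2 ^ (R + 1))),
        ∃ φ, B.IsAut (inpPerm (P0 (∑ i ∈ s, Pi.single i (δ i)))) φ := by
      intro s
      induction s using Finset.induction_on with
      | empty =>
        rw [Finset.sum_empty, hone]
        exact ⟨1, ABP.IsAut.one B⟩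
      | insert i s hi ih =>
        obtain ⟨φ, hφ⟩ := ih
        obtain ⟨ψ, hψ⟩ := hsing i (δ i)
        rw [Finset.sum_insert hi, hPadd]
        exact ⟨ψ * φ, hψ.mul hφ⟩
    have := key Finset.univ
    rwa [Finset.univ_sum_single] at this
  -- places of variables
  obtain ⟨pl, hpl⟩ : ∃ pl : Inp (EEl h q) → Option ℕ,
      (∀ v a, pl (Sum.inl (some (v, a))) = some v.val) ∧
      (∀ x y v a, pl (Sum.inr (x, y, some (v, a))) = some v.val) ∧
      (pl (Sum.inl none) = none) ∧ (∀ x y, pl (Sum.inr (x, y, none)) = none) :=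
    ⟨fun i => match i with
      | Sum.inl (some (v, _)) => some v.val
      | Sum.inr (_, _, some (v, _)) => some v.val
      | Sum.inl none => none
      | Sum.inr (_, _, none) => none, fun _ _ => rfl, fun _ _ _ _ => rfl, rfl, fun _ _ => rfl⟩
  obtain ⟨hpl1, hpl2, hpl3, hpl4⟩ := hpl
  have hplP : ∀ δ i, pl (inpPerm (P0 δ) i) = pl i := by
    intro δ i
    rcases i with u | ⟨u1, u2, u3⟩
    · show pl (Sum.inl (P0 δ u)) = pl (Sum.inl u)
      rcases u with _ | ⟨v, a⟩
      · rw [hPn]
      · rw [hPs, hpl1, hpl1]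
    · show pl (Sum.inr (P0 δ u1, P0 δ u2, P0 δ u3)) = pl (Sum.inr (u1, u2, u3))
      rcases u3 with _ | ⟨v, a⟩
      · rw [hPn, hpl4, hpl4]
      · rw [hPs, hpl2, hpl2]
  have hkey := kgame B (r := 2 ^ (R + 1)) (q := q) (N := 2 ^ (R + 1)) (c := 2 * m - 1)
    (ρ := 1) (D := 1)
    (fun b S Rd hS hR' => dodge 1 1 (by norm_num) (2 * m - 1) 1 le_rfl b S Rd hS hR')
    (fun δ => inpPerm (P0 δ)) hPadd (fun v => ZZ h q v) (instZ h (fun _ => (0 : ZMod q)) 1)
    (fun v i => offs q v i.val)
    (by
      intro v w i hi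
      show offs q v i.val = offs q w i.val
      unfold offs
      by_cases h1 : anc i.val v
      · rw [if_pos h1, if_pos (hi.1 h1)]
      · rw [if_neg h1, if_neg (fun h2 => h1 (hi.2 h2))])
    (by
      intro v w hv1 hvN hw1 hwN i
      apply ZZ_move v w hv1 (lt_of_lt_of_le hvN hrle) hw1 (lt_of_lt_of_le hwN hrle)
      · intro u a
        rw [hPs, hex]
        by_cases hu : u.val < 2 ^ (R + 1)
        · rw [dif_pos hu]
          rfl
        · rw [dif_neg hu]
          have k1 : offs q w u.val = 0 := by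
            unfold offs
            rw [if_neg]
            intro k
            have := anc_le k
            omega
          have k2 : offs q v u.val = 0 := by
            unfold offs
            rw [if_neg]
            intro k
            have := anc_le k
            omega
          rw [k1, k2, sub_zero]
      · exact hPn _)
    (fun i => Finset.univ.filter (fun y => pl i = some y.val))
    (by
      intro i
      refine Finset.card_le_one.2 ?_
      intro a ha b hb
      rw [Finset.mem_filter] at ha hb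
      have := ha.2.symm.trans hb.2
      exact Fin.ext (Option.some.inj this))
    (by
      intro δ i
      show Finset.univ.filter (fun y : Fin (2 ^ (R + 1)) => pl (inpPerm (P0 δ) i) = some y.val) =
        Finset.univ.filter (fun y : Fin (2 ^ (R + 1)) => pl i = some y.val)
      rw [hplP])
    (by
      intro v i hv1 hvN hvi
      have hpv : pl i ≠ some v := by
        intro he
        exact hvi ⟨v, hvN⟩ (Finset.mem_filter.2 ⟨Finset.mem_univ _, he⟩) rfl
      have hne : ∀ y : ℕ, pl i = some y → (if y = v then (1 : ZMod q) else 0) = 0 := by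
        intro y hy
        rw [if_neg]
        rintro rfl
        exact hpv hy
      constructor
      · rintro (⟨y, hy, rfl⟩ | ⟨y, yl, yr, a, b, k1, k2, k3, rfl⟩ | ⟨y, hy, rfl⟩)
        · left
          refine ⟨y, hy, ?_⟩
          have e1 : (if y.val = v then (1 : ZMod q) else 0) = 0 := hne y.val (hpl1 y _)
          show (Sum.inl (some (y, if y.val = v then (1 : ZMod q) else 0)) : Inp (EEl h q)) =
            Sum.inl (some (y, (0 : ZMod q)))
          rw [e1]
        · right; left
          refine ⟨y, yl, yr, a, b, k1, k2, k3, ?_⟩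
          have e1 : (if y.val = v then (1 : ZMod q) else 0) = 0 := hne y.val (hpl2 _ _ y _)
          show (Sum.inr (_, _, some (y, a + b + if y.val = v then (1 : ZMod q) else 0)) :
            Inp (EEl h q)) = Sum.inr (_, _, some (y, a + b + (0 : ZMod q)))
          rw [e1]
        · right; right
          exact ⟨y, hy, rfl⟩
      · rintro (⟨y, hy, rfl⟩ | ⟨y, yl, yr, a, b, k1, k2, k3, rfl⟩ | ⟨y, hy, rfl⟩)
        · left
          refine ⟨y, hy, ?_⟩
          have e1 : (if y.val = v then (1 : ZMod q) else 0) = 0 := hne y.val (hpl1 y _)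
          show (Sum.inl (some (y, (0 : ZMod q))) : Inp (EEl h q)) =
            Sum.inl (some (y, if y.val = v then (1 : ZMod q) else 0))
          rw [e1]
        · right; left
          refine ⟨y, yl, yr, a, b, k1, k2, k3, ?_⟩
          have e1 : (if y.val = v then (1 : ZMod q) else 0) = 0 := hne y.val (hpl2 _ _ y _)
          show (Sum.inr (_, _, some (y, a + b + (0 : ZMod q))) : Inp (EEl h q)) =
            Sum.inr (_, _, some (y, a + b + if y.val = v then (1 : ZMod q) else 0))
          rw [e1]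
        · right; right
          exact ⟨y, hy, rfl⟩)
    hall
    (fun p => SupA (fun _ => p))
    (by
      intro p
      have := a1 (fun _ => p)
      omega)
    (by
      intro p δ hδ
      obtain ⟨φ, h1, h2⟩ := a2 (fun _ => p) δ hδ
      exact ⟨φ, h1, h2 0⟩)
    (by
      intro p δ φ hφ
      exact a3 (fun _ => p) δ φ hφ)
    (by
      calc 2 * 2 ^ (2 * (2 * m - 1) + 1) ≤ 2 * 2 ^ R :=
            Nat.mul_le_mul_left _ (Nat.pow_le_pow_right (by norm_num) (by omega))
        _ = 2 ^ (R + 1) := by rw [pow_succ]; ring)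
    1 le_rfl (Nat.one_lt_two_pow (by omega))
  have hz : ZZ h q 1 = instZ h (fun y => if y = 1 then (1 : ZMod q) else 0) 1 := rfl
  have hkey2 : MvPolynomial.eval (pt K (ZZ h q 1)) B.poly =
      MvPolynomial.eval (pt K (instZ h (fun _ => (0 : ZMod q)) 1)) B.poly := hkey
  rw [hz, hB, hB, eval_tree, eval_tree, labK_one, labK_zero, if_pos rfl, if_neg] at hkey2
  · exact one_ne_zero hkey2
  · have : Fact (1 < q) := ⟨by omega⟩
    exact one_ne_zero

end Pool.Agent.H870R2.LS
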