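import Pool.Agent.H870R2.LS.KDefs
import Pool.Agent.H526R2.LS.Net

set_option autoImplicit false
set_option linter.unusedSectionVars false

/-! A small symmetric arithmetic circuit for the tree evaluation polynomial. -/

namespace Pool.Agent.H870R2.LS.KUp

open Finset MvPolynomial
open Pool.Agent.H526R2.LS

variable {h q : ℕ}

/-- the left child -/
def lc (v : Fin (2 ^ h)) : Fin (2 ^ (h + 1)) := ⟨2 * v.val, by have := v.2; rw [pow_succ]; omega⟩

/-- the right child -/
def rc (v : Fin (2 ^ h)) : Fin (2 ^ (h + 1)) :=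
  ⟨2 * v.val + 1, by have := v.2; rw [pow_succ]; omega⟩

/-- an inner node as a node -/
def up (v : Fin (2 ^ h)) : Fin (2 ^ (h + 1)) := ⟨v.val, by have := v.2; rw [pow_succ]; omega⟩

/-- the root -/
def rt (h : ℕ) : Fin (2 ^ (h + 1)) := ⟨1, Nat.one_lt_two_pow (by omega)⟩

theorem lc_val (v : Fin (2 ^ h)) : (lc v).val = 2 * v.val := rfl
theorem rc_val (v : Fin (2 ^ h)) : (rc v).val = 2 * v.val + 1 := rfl
theorem up_val (v : Fin (2 ^ h)) : (up v).val = v.val := rfl

/-- The gates: one for every label of every node, a variable and a product for every rule at an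
inner node, a variable and a product for every rule at the root, and the output. -/
abbrev Gk (h q : ℕ) : Type :=
  (Fin (2 ^ (h + 1)) × ZMod q) ⊕ ((Fin (2 ^ h) × ZMod q × ZMod q × ZMod q) ⊕
    ((Fin (2 ^ h) × ZMod q × ZMod q × ZMod q) ⊕ (ZMod q ⊕ (ZMod q ⊕ Unit))))

/-- the circuit -/
noncomputable def ck (K : Type) [CommSemiring K] (h q : ℕ) :
    Net (Inp (EEl h q)) (MvPolynomial (Inp (EEl h q)) K) Unit (Gk h q) where
  inp g := match g with
    | Sum.inl (v, a) => if 2 ^ h ≤ v.val then some (Sum.inl (some (v, a))) else none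
    | Sum.inr (Sum.inl (v, b, c, a)) => some (Sum.inr (some (lc v, b), some (rc v, c),
        some (up v, a)))
    | Sum.inr (Sum.inr (Sum.inr (Sum.inl a))) =>
        some (Sum.inr (some (rt h, a), some (rt h, a), none))
    | _ => none
  w k g := match k, g with
    | Sum.inl s, Sum.inr (Sum.inr (Sum.inl (v, b, c, a))) =>
        if 1 ≤ v.val then (if s = (lc v, b) then 1 else 0) + (if s = (rc v, c) then 1 else 0) else 0
    | Sum.inr (Sum.inl t), Sum.inr (Sum.inr (Sum.inl t')) => if t = t' then 1 else 0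
    | Sum.inr (Sum.inr (Sum.inl (v, b, c, a))), Sum.inl s => if s = (up v, a) then 1 else 0
    | Sum.inl s, Sum.inr (Sum.inr (Sum.inr (Sum.inr (Sum.inl a)))) =>
        if s = (rt h, a) then 1 else 0
    | Sum.inr (Sum.inr (Sum.inr (Sum.inl a))), Sum.inr (Sum.inr (Sum.inr (Sum.inr (Sum.inl a')))) =>
        if a = a' then 1 else 0
    | Sum.inr (Sum.inr (Sum.inr (Sum.inr (Sum.inl _)))),
        Sum.inr (Sum.inr (Sum.inr (Sum.inr (Sum.inr _)))) => 1
    | _, _ => 0
  F g m := match g with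
    | Sum.inr (Sum.inr (Sum.inl _)) => m.prod
    | Sum.inr (Sum.inr (Sum.inr (Sum.inr (Sum.inl _)))) => m.prod
    | _ => m.sum
  out _ := Sum.inr (Sum.inr (Sum.inr (Sum.inr (Sum.inr ()))))
  rank g := match g with
    | Sum.inl (v, _) => 3 * (2 ^ (h + 1) - v.val)
    | Sum.inr (Sum.inl _) => 0
    | Sum.inr (Sum.inr (Sum.inl (v, _))) => 3 * (2 ^ (h + 1) - v.val) - 1
    | Sum.inr (Sum.inr (Sum.inr (Sum.inl _))) => 0
    | Sum.inr (Sum.inr (Sum.inr (Sum.inr (Sum.inl _)))) => 3 * 2 ^ (h + 1) + 1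
    | Sum.inr (Sum.inr (Sum.inr (Sum.inr (Sum.inr _)))) => 3 * 2 ^ (h + 1) + 2
  acyc k g := by
    have hp : 2 ^ (h + 1) = 2 * 2 ^ h := by rw [pow_succ]; ring
    rcases k with ⟨u, e⟩ | ⟨v, b, c, a⟩ | ⟨v, b, c, a⟩ | a | a | ⟨⟩ <;>
      rcases g with ⟨u', e'⟩ | ⟨v', b', c', a'⟩ | ⟨v', b', c', a'⟩ | a' | a' | ⟨⟩ <;>
      intro hw <;> try exact absurd hw (Nat.lt_irrefl 0)
    · -- label to product
      have hv := v'.2
      by_cases h1 : 1 ≤ v'.val
      · by_cases h2 : (u, e) = (lc v', b')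
        · have h3 : u = lc v' := congrArg Prod.fst h2
          show 3 * (2 ^ (h + 1) - u.val) < 3 * (2 ^ (h + 1) - v'.val) - 1
          rw [h3, lc_val]
          omega
        · by_cases h3 : (u, e) = (rc v', c')
          · have h4 : u = rc v' := congrArg Prod.fst h3
            show 3 * (2 ^ (h + 1) - u.val) < 3 * (2 ^ (h + 1) - v'.val) - 1
            rw [h4, rc_val]
            omega
          · exfalso
            simp only [if_pos h1, if_neg h2, if_neg h3] at hw
            omega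
      · exfalso
        simp only [if_neg h1] at hw
        omega
    · show 3 * (2 ^ (h + 1) - u.val) < 3 * 2 ^ (h + 1) + 1
      omega
    · show 0 < 3 * (2 ^ (h + 1) - v'.val) - 1
      have hv := v'.2
      omega
    · show 3 * (2 ^ (h + 1) - v.val) - 1 < 3 * (2 ^ (h + 1) - u'.val)
      have h2 : (u', e') = (up v, a) := by
        by_contra h2
        simp only [if_neg h2] at hw
        omega
      have h3 : u' = up v := congrArg Prod.fst h2
      have hv := v.2
      rw [h3, up_val]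
      omega
    · show 0 < 3 * 2 ^ (h + 1) + 1
      omega
    · show 3 * 2 ^ (h + 1) + 1 < 3 * 2 ^ (h + 1) + 2
      omega

section value

variable {K : Type} [CommSemiring K] [NeZero q]

theorem multiset_prod {I K' O Gt : Type} [Fintype Gt] [CommSemiring K'] (N : Net I K' O Gt)
    (x : I → K') (g : Gt) : Multiset.prod (∑ k, N.w k g • ({N.val x k} : Multiset K')) =
      ∏ k, N.val x k ^ N.w k g := by
  have h1 : ∀ s : Finset Gt, Multiset.prod (∑ k ∈ s, N.w k g • ({N.val x k} : Multiset K')) =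
      ∏ k ∈ s, N.val x k ^ N.w k g := by
    intro s
    classical
    induction s using Finset.induction_on with
    | empty => simp
    | insert a s ha ih =>
      rw [Finset.sum_insert ha, Finset.prod_insert ha, Multiset.prod_add, ih, Multiset.prod_nsmul,
        Multiset.prod_singleton]
  exact h1 _

theorem multiset_sum {I K' O Gt : Type} [Fintype Gt] [CommSemiring K'] (N : Net I K' O Gt)
    (x : I → K') (g : Gt) : Multiset.sum (∑ k, N.w k g • ({N.val x k} : Multiset K')) =
      ∑ k, N.w k g • N.val x k := by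
  rw [Multiset.sum_sum]
  apply Finset.sum_congr rfl
  intro k _
  rw [Multiset.sum_nsmul, Multiset.sum_singleton]

/-- value of the product gate of a rule -/
theorem val_P (v : Fin (2 ^ h)) (hv : 1 ≤ v.val) (b c a : ZMod q) :
    (ck K h q).val X (Sum.inr (Sum.inr (Sum.inl (v, b, c, a)))) =
      (ck K h q).val X (Sum.inl (lc v, b)) * (ck K h q).val X (Sum.inl (rc v, c)) *
        X (Sum.inr (some (lc v, b), some (rc v, c), some (up v, a))) := by
  rw [Net.val_none _ _ (show (ck K h q).inp (Sum.inr (Sum.inr (Sum.inl (v, b, c, a)))) = none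
    from rfl)]
  show Multiset.prod _ = _
  rw [multiset_prod, Fintype.prod_sum_type, Fintype.prod_sum_type, Fintype.prod_sum_type]
  have h1 : ∀ s : Fin (2 ^ (h + 1)) × ZMod q, (ck K h q).val X (Sum.inl s) ^
      (ck K h q).w (Sum.inl s) (Sum.inr (Sum.inr (Sum.inl (v, b, c, a)))) =
      (if s = (lc v, b) then (ck K h q).val X (Sum.inl s) else 1) *
      (if s = (rc v, c) then (ck K h q).val X (Sum.inl s) else 1) := by
    intro s
    show (ck K h q).val X (Sum.inl s) ^ (if 1 ≤ v.val then (if s = (lc v, b) then 1 else 0) +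
      (if s = (rc v, c) then 1 else 0) else 0) = _
    rw [if_pos hv, pow_add, pow_ite, pow_ite, pow_one, pow_zero]
  have h2 : ∀ t : Fin (2 ^ h) × ZMod q × ZMod q × ZMod q,
      (ck K h q).val X (Sum.inr (Sum.inl t)) ^
      (ck K h q).w (Sum.inr (Sum.inl t)) (Sum.inr (Sum.inr (Sum.inl (v, b, c, a)))) =
      (if t = (v, b, c, a) then (ck K h q).val X (Sum.inr (Sum.inl t)) else 1) := by
    intro t
    show (ck K h q).val X (Sum.inr (Sum.inl t)) ^ (if t = (v, b, c, a) then 1 else 0) = _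
    rw [pow_ite, pow_one, pow_zero]
  have h3 : ∀ t : Fin (2 ^ h) × ZMod q × ZMod q × ZMod q,
      (ck K h q).val X (Sum.inr (Sum.inr (Sum.inl t))) ^
      (ck K h q).w (Sum.inr (Sum.inr (Sum.inl t))) (Sum.inr (Sum.inr (Sum.inl (v, b, c, a)))) =
      1 := fun t => pow_zero _
  have h4 : ∀ t : ZMod q ⊕ (ZMod q ⊕ Unit),
      (ck K h q).val X (Sum.inr (Sum.inr (Sum.inr t))) ^
      (ck K h q).w (Sum.inr (Sum.inr (Sum.inr t))) (Sum.inr (Sum.inr (Sum.inl (v, b, c, a)))) =
      1 := by
    rintro (t | t | t) <;> exact pow_zero _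
  rw [Finset.prod_congr rfl (fun s _ => h1 s), Finset.prod_congr rfl (fun s _ => h2 s),
    Finset.prod_congr rfl (fun s _ => h3 s), Finset.prod_congr rfl (fun s _ => h4 s),
    Finset.prod_mul_distrib]
  simp only [Finset.prod_ite_eq', Finset.mem_univ, if_true, Finset.prod_const_one, mul_one]
  rw [Net.val_some _ _ (show (ck K h q).inp (Sum.inr (Sum.inl (v, b, c, a))) = some
    (Sum.inr (some (lc v, b), some (rc v, c), some (up v, a))) from rfl)]

/-- value of the sum gate of a label of an inner node -/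
theorem val_S (v : Fin (2 ^ h)) (a : ZMod q) :
    (ck K h q).val X (Sum.inl (up v, a)) =
      ∑ b : ZMod q, ∑ c : ZMod q,
        (ck K h q).val X (Sum.inr (Sum.inr (Sum.inl (v, b, c, a)))) := by
  have hv := v.2
  have hup : Function.Injective (up : Fin (2 ^ h) → Fin (2 ^ (h + 1))) := by
    intro x y hxy
    have h1 : (up x).val = (up y).val := by rw [hxy]
    exact Fin.ext h1
  rw [Net.val_none _ _ (show (ck K h q).inp (Sum.inl (up v, a)) = none from by
    show (if 2 ^ h ≤ (up v).val then _ else none) = none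
    rw [if_neg]
    rw [up_val]
    omega)]
  show Multiset.sum _ = _
  rw [multiset_sum, Fintype.sum_sum_type, Fintype.sum_sum_type, Fintype.sum_sum_type]
  have h1 : ∀ s : Fin (2 ^ (h + 1)) × ZMod q, (ck K h q).w (Sum.inl s) (Sum.inl (up v, a)) •
      (ck K h q).val X (Sum.inl s) = 0 := fun s => zero_smul _ _
  have h2 : ∀ t : Fin (2 ^ h) × ZMod q × ZMod q × ZMod q,
      (ck K h q).w (Sum.inr (Sum.inl t)) (Sum.inl (up v, a)) •
      (ck K h q).val X (Sum.inr (Sum.inl t)) = 0 := fun s => zero_smul _ _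
  have h3 : ∀ (v' : Fin (2 ^ h)) (b c a' : ZMod q),
      (ck K h q).w (Sum.inr (Sum.inr (Sum.inl (v', b, c, a')))) (Sum.inl (up v, a)) •
      (ck K h q).val X (Sum.inr (Sum.inr (Sum.inl (v', b, c, a')))) =
      if v = v' then (if a = a' then
        (ck K h q).val X (Sum.inr (Sum.inr (Sum.inl (v', b, c, a')))) else 0) else 0 := by
    intro v' b c a'
    show (if ((up v, a) : Fin (2 ^ (h + 1)) × ZMod q) = (up v', a') then 1 else 0 : ℕ) • _ = _
    simp only [Prod.mk.injEq, hup.eq_iff, ite_smul, one_smul, zero_smul]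
    by_cases e1 : v = v'
    · by_cases e2 : a = a'
      · simp only [e1, e2, and_self, if_true]
      · simp only [e1, e2, and_false, if_false, if_true]
    · simp only [e1, false_and, if_false]
  have h4 : ∀ t : ZMod q ⊕ (ZMod q ⊕ Unit),
      (ck K h q).w (Sum.inr (Sum.inr (Sum.inr t))) (Sum.inl (up v, a)) •
      (ck K h q).val X (Sum.inr (Sum.inr (Sum.inr t))) = 0 := by
    rintro (t | t | t) <;> exact zero_smul _ _
  rw [Finset.sum_congr rfl (fun s _ => h1 s), Finset.sum_congr rfl (fun s _ => h2 s),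
    Finset.sum_congr rfl (fun s _ => h4 s)]
  simp only [Fintype.sum_prod_type, h3, Finset.sum_const_zero, zero_add, add_zero]
  rw [Finset.sum_eq_single v]
  · simp only [if_true, Finset.sum_ite_eq, Finset.mem_univ]
  · intro v' _ hv'
    have : ¬ (v = v') := fun e => hv' e.symm
    simp only [this, if_false, Finset.sum_const_zero]
  · intro hc
    exact absurd (Finset.mem_univ _) hc

theorem val_node : ∀ (d : ℕ) (v : Fin (2 ^ (h + 1))), d ≤ h → 1 ≤ v.val →
    2 ^ (h - d) ≤ v.val → v.val < 2 ^ (h - d + 1) → ∀ a : ZMod q,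
    (ck K h q).val X (Sum.inl (v, a)) = nodePoly K h q d v.val a := by
  intro d
  induction d with
  | zero =>
    intro v _ hv1 hv2 hv3 a
    rw [Nat.sub_zero] at hv2 hv3
    rw [Net.val_some _ _ (show (ck K h q).inp (Sum.inl (v, a)) = some (Sum.inl (some (v, a))) from
      if_pos hv2), nodePoly, dif_pos hv3]
  | succ d ih =>
    intro v hdh hv1 hv2 hv3 a
    have e1 : h - d = h - (d + 1) + 1 := by omega
    have e2 : 2 ^ (h - d) = 2 * 2 ^ (h - (d + 1)) := by rw [e1, pow_succ]; ring
    have e3 : 2 ^ (h - d + 1) = 2 * 2 ^ (h - d) := by rw [pow_succ]; ring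
    have e4 : 2 ^ (h + 1) = 2 * 2 ^ h := by rw [pow_succ]; ring
    have e5 : 2 ^ (h - (d + 1) + 1) = 2 * 2 ^ (h - (d + 1)) := by rw [pow_succ]; ring
    have hv4 : 2 ^ (h - d) ≤ 2 * v.val := by omega
    have hv5 : 2 * v.val + 1 < 2 ^ (h - d + 1) := by omega
    have hv6 : 2 ^ (h - d + 1) ≤ 2 ^ (h + 1) := Nat.pow_le_pow_right (by norm_num) (by omega)
    have hvl : 2 * v.val + 1 < 2 ^ (h + 1) := by omega
    have hvh : v.val < 2 ^ h := by omega
    obtain ⟨u, rfl⟩ : ∃ u : Fin (2 ^ h), v = up u := ⟨⟨v.val, hvh⟩, rfl⟩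
    rw [up_val] at *
    rw [nodePoly, dif_pos hvl, val_S]
    apply Finset.sum_congr rfl
    intro b _
    apply Finset.sum_congr rfl
    intro c _
    rw [val_P u (by omega), ih (lc u) (by omega) (by rw [lc_val]; omega) (by rw [lc_val]; omega)
      (by rw [lc_val]; omega), ih (rc u) (by omega) (by rw [rc_val]; omega) (by rw [rc_val]; omega)
      (by rw [rc_val]; omega)]
    rfl

theorem val_M (a : ZMod q) :
    (ck K h q).val X (Sum.inr (Sum.inr (Sum.inr (Sum.inr (Sum.inl a))))) =
      (ck K h q).val X (Sum.inl (rt h, a)) *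
        X (Sum.inr (some (rt h, a), some (rt h, a), none)) := by
  rw [Net.val_none _ _ (show (ck K h q).inp
    (Sum.inr (Sum.inr (Sum.inr (Sum.inr (Sum.inl a))))) = none from rfl)]
  show Multiset.prod _ = _
  rw [multiset_prod, Fintype.prod_sum_type, Fintype.prod_sum_type, Fintype.prod_sum_type,
    Fintype.prod_sum_type]
  have h1 : ∀ s : Fin (2 ^ (h + 1)) × ZMod q, (ck K h q).val X (Sum.inl s) ^
      (ck K h q).w (Sum.inl s) (Sum.inr (Sum.inr (Sum.inr (Sum.inr (Sum.inl a))))) =
      (if s = (rt h, a) then (ck K h q).val X (Sum.inl s) else 1) := by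
    intro s
    show (ck K h q).val X (Sum.inl s) ^ (if s = (rt h, a) then 1 else 0) = _
    rw [pow_ite, pow_one, pow_zero]
  have h2 : ∀ t : Fin (2 ^ h) × ZMod q × ZMod q × ZMod q,
      (ck K h q).val X (Sum.inr (Sum.inl t)) ^
      (ck K h q).w (Sum.inr (Sum.inl t)) (Sum.inr (Sum.inr (Sum.inr (Sum.inr (Sum.inl a))))) =
      1 := fun t => pow_zero _
  have h3 : ∀ t : Fin (2 ^ h) × ZMod q × ZMod q × ZMod q,
      (ck K h q).val X (Sum.inr (Sum.inr (Sum.inl t))) ^
      (ck K h q).w (Sum.inr (Sum.inr (Sum.inl t)))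
        (Sum.inr (Sum.inr (Sum.inr (Sum.inr (Sum.inl a))))) = 1 := fun t => pow_zero _
  have h4 : ∀ t : ZMod q,
      (ck K h q).val X (Sum.inr (Sum.inr (Sum.inr (Sum.inl t)))) ^
      (ck K h q).w (Sum.inr (Sum.inr (Sum.inr (Sum.inl t))))
        (Sum.inr (Sum.inr (Sum.inr (Sum.inr (Sum.inl a))))) =
      if t = a then (ck K h q).val X (Sum.inr (Sum.inr (Sum.inr (Sum.inl t)))) else 1 := by
    intro t
    show (ck K h q).val X (Sum.inr (Sum.inr (Sum.inr (Sum.inl t)))) ^ (if t = a then 1 else 0) = _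
    rw [pow_ite, pow_one, pow_zero]
  have h5 : ∀ t : ZMod q ⊕ Unit,
      (ck K h q).val X (Sum.inr (Sum.inr (Sum.inr (Sum.inr t)))) ^
      (ck K h q).w (Sum.inr (Sum.inr (Sum.inr (Sum.inr t))))
        (Sum.inr (Sum.inr (Sum.inr (Sum.inr (Sum.inl a))))) = 1 := by
    rintro (t | t) <;> exact pow_zero _
  rw [Finset.prod_congr rfl (fun s _ => h1 s), Finset.prod_congr rfl (fun s _ => h2 s),
    Finset.prod_congr rfl (fun s _ => h3 s), Finset.prod_congr rfl (fun s _ => h4 s),
    Finset.prod_congr rfl (fun s _ => h5 s)]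
  simp only [Finset.prod_ite_eq', Finset.mem_univ, if_true, Finset.prod_const_one, mul_one,
    one_mul]
  rw [Net.val_some _ _ (show (ck K h q).inp (Sum.inr (Sum.inr (Sum.inr (Sum.inl a)))) = some
    (Sum.inr (some (rt h, a), some (rt h, a), none)) from rfl)]

theorem val_out : (ck K h q).val X ((ck K h q).out ()) = treePoly K h q := by
  rw [Net.val_none _ _ (show (ck K h q).inp ((ck K h q).out ()) = none from rfl)]
  show Multiset.sum _ = _
  rw [multiset_sum, Fintype.sum_sum_type, Fintype.sum_sum_type, Fintype.sum_sum_type,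
    Fintype.sum_sum_type, Fintype.sum_sum_type]
  have h1 : ∀ s : Fin (2 ^ (h + 1)) × ZMod q, (ck K h q).w (Sum.inl s) ((ck K h q).out ()) •
      (ck K h q).val X (Sum.inl s) = 0 := fun s => zero_smul _ _
  have h2 : ∀ t : Fin (2 ^ h) × ZMod q × ZMod q × ZMod q,
      (ck K h q).w (Sum.inr (Sum.inl t)) ((ck K h q).out ()) •
      (ck K h q).val X (Sum.inr (Sum.inl t)) = 0 := fun s => zero_smul _ _
  have h3 : ∀ t : Fin (2 ^ h) × ZMod q × ZMod q × ZMod q,
      (ck K h q).w (Sum.inr (Sum.inr (Sum.inl t))) ((ck K h q).out ()) •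
      (ck K h q).val X (Sum.inr (Sum.inr (Sum.inl t))) = 0 := fun s => zero_smul _ _
  have h4 : ∀ t : ZMod q,
      (ck K h q).w (Sum.inr (Sum.inr (Sum.inr (Sum.inl t)))) ((ck K h q).out ()) •
      (ck K h q).val X (Sum.inr (Sum.inr (Sum.inr (Sum.inl t)))) = 0 := fun s => zero_smul _ _
  have h5 : ∀ t : Unit,
      (ck K h q).w (Sum.inr (Sum.inr (Sum.inr (Sum.inr (Sum.inr t))))) ((ck K h q).out ()) •
      (ck K h q).val X (Sum.inr (Sum.inr (Sum.inr (Sum.inr (Sum.inr t))))) = 0 :=
    fun s => zero_smul _ _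
  have h6 : ∀ t : ZMod q,
      (ck K h q).w (Sum.inr (Sum.inr (Sum.inr (Sum.inr (Sum.inl t))))) ((ck K h q).out ()) •
      (ck K h q).val X (Sum.inr (Sum.inr (Sum.inr (Sum.inr (Sum.inl t))))) =
      nodePoly K h q h 1 t * X (Sum.inr (some (rt h, t), some (rt h, t), none)) := by
    intro t
    rw [val_M, val_node h (rt h) le_rfl le_rfl (by rw [Nat.sub_self]; exact le_rfl)
      (by rw [Nat.sub_self]; show 1 < 2 ^ 1; norm_num)]
    exact one_smul _ _
  rw [Finset.sum_congr rfl (fun s _ => h1 s), Finset.sum_congr rfl (fun s _ => h2 s),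
    Finset.sum_congr rfl (fun s _ => h3 s), Finset.sum_congr rfl (fun s _ => h4 s),
    Finset.sum_congr rfl (fun s _ => h5 s), Finset.sum_congr rfl (fun s _ => h6 s)]
  simp only [Finset.sum_const_zero, zero_add, add_zero]
  rfl

end value

theorem card_Gk (h q : ℕ) [NeZero q] : Fintype.card (Gk h q) ≤ 2 ^ (h + 3) * q ^ 3 := by
  have hq : 1 ≤ q := Nat.one_le_iff_ne_zero.2 (NeZero.ne q)
  simp only [Fintype.card_sum, Fintype.card_prod, Fintype.card_fin, ZMod.card,
    Fintype.card_unit]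
  have h1 : 1 ≤ 2 ^ h := Nat.one_le_two_pow
  have h2 : q ≤ q ^ 3 := by nlinarith [Nat.pow_le_pow_left hq 2, sq_nonneg q]
  have h3 : 1 ≤ q ^ 3 := Nat.one_le_pow _ _ hq
  have e1 : 2 ^ (h + 1) = 2 * 2 ^ h := by rw [pow_succ]; ring
  have e2 : 2 ^ (h + 3) = 8 * 2 ^ h := by rw [pow_add]; ring
  rw [e1, e2]
  have h4 : 2 ^ h * q ≤ 2 ^ h * q ^ 3 := Nat.mul_le_mul_left _ h2
  have h5 : 1 * q ^ 3 ≤ 2 ^ h * q ^ 3 := Nat.mul_le_mul_right _ h1
  have h6 : 2 ^ h * (q * (q * q)) = 2 ^ h * q ^ 3 := by ring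
  rw [h6]
  nlinarith

section symmetry

variable {K : Type} [CommSemiring K]

/-- the action of a relabelling on the elements -/
def pm (g : Fin (2 ^ (h + 1)) → Equiv.Perm (ZMod q)) : EEl h q → EEl h q
  | none => none
  | some (v, a) => some (v, g v a)

/-- the action on the gates -/
def gm (g : Fin (2 ^ (h + 1)) → Equiv.Perm (ZMod q)) : Gk h q → Gk h q
  | Sum.inl (v, a) => Sum.inl (v, g v a)
  | Sum.inr (Sum.inl (v, b, c, a)) => Sum.inr (Sum.inl (v, g (lc v) b, g (rc v) c, g (up v) a))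
  | Sum.inr (Sum.inr (Sum.inl (v, b, c, a))) =>
      Sum.inr (Sum.inr (Sum.inl (v, g (lc v) b, g (rc v) c, g (up v) a)))
  | Sum.inr (Sum.inr (Sum.inr (Sum.inl a))) => Sum.inr (Sum.inr (Sum.inr (Sum.inl (g (rt h) a))))
  | Sum.inr (Sum.inr (Sum.inr (Sum.inr (Sum.inl a)))) =>
      Sum.inr (Sum.inr (Sum.inr (Sum.inr (Sum.inl (g (rt h) a)))))
  | Sum.inr (Sum.inr (Sum.inr (Sum.inr (Sum.inr a)))) =>
      Sum.inr (Sum.inr (Sum.inr (Sum.inr (Sum.inr a))))

theorem gm_inv (g : Fin (2 ^ (h + 1)) → Equiv.Perm (ZMod q)) (e : Gk h q) :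
    gm (fun v => (g v)⁻¹) (gm g e) = e := by
  rcases e with ⟨v, a⟩ | ⟨v, b, c, a⟩ | ⟨v, b, c, a⟩ | a | a | a <;> simp [gm]

theorem symm [NeZero q] (v : Fin (2 ^ (h + 1))) (a : Equiv.Perm (ZMod q))
    (p : Equiv.Perm (EEl h q))
    (hp : ∀ c, p (eblk v c) = eblk v (a c)) (hp' : ∀ u, u ∉ Set.range (eblk v) → p u = u) :
    ∃ φ, (ck K h q).IsAut (inpPerm p) 1 φ := by
  classical
  let g : Fin (2 ^ (h + 1)) → Equiv.Perm (ZMod q) := fun u => if u = v then a else 1
  have hpg : ∀ e, p e = pm g e := by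
    intro e
    rcases e with _ | ⟨u, c⟩
    · refine hp' none ?_
      rintro ⟨c, hc⟩
      simp [eblk] at hc
    · by_cases hu : u = v
      · subst hu
        have h1 := hp c
        have h2 : g u = a := if_pos rfl
        show p (eblk u c) = some (u, g u c)
        rw [h1, h2]
        rfl
      · have h1 : p (some (u, c)) = some (u, c) := by
          apply hp'
          rintro ⟨c', hc'⟩
          simp only [eblk, Function.Embedding.coeFn_mk, Option.some.injEq, Prod.mk.injEq] at hc'
          exact hu hc'.1.symm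
        have h2 : g u = 1 := if_neg hu
        rw [h1]
        simp [pm, h2]
  have hpn : p none = none := hpg none
  have hps : ∀ u c, p (some (u, c)) = some (u, g u c) := fun u c => hpg _
  clear_value g
  have hgg : (fun u => ((fun u => (g u)⁻¹) u)⁻¹) = g := by
    funext u; simp
  let φ : Equiv.Perm (Gk h q) :=
    { toFun := gm g
      invFun := gm (fun v => (g v)⁻¹)
      left_inv := gm_inv g
      right_inv := fun e => by
        have := gm_inv (fun v => (g v)⁻¹) e
        rw [hgg] at this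
        exact this }
  have hφ : ∀ x, φ x = gm g x := fun x => rfl
  refine ⟨φ, ?_, ?_, ?_, ?_⟩
  · rintro (⟨u, c⟩ | ⟨u, b, c, d⟩ | ⟨u, b, c, d⟩ | d | d | d)
    · show (if 2 ^ h ≤ u.val then some (Sum.inl (some (u, g u c))) else none) =
        Option.map (inpPerm p) (if 2 ^ h ≤ u.val then some (Sum.inl (some (u, c))) else none)
      by_cases hu : 2 ^ h ≤ u.val
      · rw [if_pos hu, if_pos hu]
        show _ = some (Sum.inl (p (some (u, c))))
        rw [hps]
      · rw [if_neg hu, if_neg hu]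
        rfl
    · show some (Sum.inr (some (lc u, g (lc u) b), some (rc u, g (rc u) c),
        some (up u, g (up u) d))) = some (Sum.inr (p (some (lc u, b)), p (some (rc u, c)),
          p (some (up u, d))))
      rw [hps, hps, hps]
    · rfl
    · show some (Sum.inr (some (rt h, g (rt h) d), some (rt h, g (rt h) d), none)) =
        some (Sum.inr (p (some (rt h, d)), p (some (rt h, d)), p none))
      rw [hps, hpn]
    · rfl
    · rfl
  · have key : ∀ (s : Fin (2 ^ (h + 1)) × ZMod q) (u : Fin (2 ^ (h + 1))) (c : ZMod q),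
        ((s.1, g s.1 s.2) = (u, g u c)) = (s = (u, c)) := by
      rintro ⟨s1, s2⟩ u c
      simp only [Prod.mk.injEq, eq_iff_iff]
      constructor
      · rintro ⟨rfl, h2⟩
        exact ⟨rfl, (g _).injective h2⟩
      · rintro ⟨rfl, rfl⟩
        exact ⟨rfl, rfl⟩
    rintro (⟨u, c⟩ | ⟨u, b, c, d⟩ | ⟨u, b, c, d⟩ | d | d | d)
      (⟨u', c'⟩ | ⟨u', b', c', d'⟩ | ⟨u', b', c', d'⟩ | d' | d' | d') <;> try rfl
    · show (if 1 ≤ u'.val then (if (u, g u c) = (lc u', g (lc u') b') then 1 else 0) +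
        (if (u, g u c) = (rc u', g (rc u') c') then 1 else 0) else 0) =
        (if 1 ≤ u'.val then (if (u, c) = (lc u', b') then 1 else 0) +
        (if (u, c) = (rc u', c') then 1 else 0) else 0)
      have k1 := key (u, c) (lc u') b'
      have k2 := key (u, c) (rc u') c'
      simp only at k1 k2
      simp only [k1, k2]
    · show (if (u, g u c) = (rt h, g (rt h) d') then 1 else 0) =
        (if (u, c) = (rt h, d') then 1 else 0)
      have k1 := key (u, c) (rt h) d'
      simp only at k1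
      simp only [k1]
    · show (if (u, g (lc u) b, g (rc u) c, g (up u) d) =
        (u', g (lc u') b', g (rc u') c', g (up u') d') then 1 else 0) =
        (if (u, b, c, d) = (u', b', c', d') then 1 else 0)
      have k : ((u, g (lc u) b, g (rc u) c, g (up u) d) =
        (u', g (lc u') b', g (rc u') c', g (up u') d')) = ((u, b, c, d) = (u', b', c', d')) := by
        simp only [Prod.mk.injEq, eq_iff_iff]
        constructor
        · rintro ⟨rfl, h2, h3, h4⟩
          exact ⟨rfl, (g _).injective h2, (g _).injective h3, (g _).injective h4⟩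
        · rintro ⟨rfl, rfl, rfl, rfl⟩
          exact ⟨rfl, rfl, rfl, rfl⟩
      simp only [k]
    · show (if (u', g u' c') = (up u, g (up u) d) then 1 else 0) =
        (if (u', c') = (up u, d) then 1 else 0)
      have k1 := key (u', c') (up u) d
      simp only at k1
      simp only [k1]
    · show (if g (rt h) d = g (rt h) d' then 1 else 0) = (if d = d' then 1 else 0)
      simp only [EmbeddingLike.apply_eq_iff_eq]
  · rintro (⟨u, c⟩ | ⟨u, b, c, d⟩ | ⟨u, b, c, d⟩ | d | d | d) <;> rfl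
  · intro o
    rfl

end symmetry

end Pool.Agent.H870R2.LS.KUp
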