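import Pool.Agent.H870R2.LS.KDefs
import Pool.Agent.H870R2.LS.Aut

set_option autoImplicit false
set_option linter.unusedSectionVars false

/-! Typed walks with weights in a commutative semiring. -/

namespace Pool.Agent.H870R2.LS

open Finset

section typed

variable {K Q Ty : Type*} [CommSemiring K] [Fintype Q] [Fintype Ty]

/-- sums over lists of types of length `k` -/
def sumK (f : List Ty → K) : ℕ → K
  | 0 => f []
  | k + 1 => ∑ ty, sumK (fun l => f (ty :: l)) k

theorem sumK_congr {f f' : List Ty → K} {k : ℕ} (h : ∀ l, l.length = k → f l = f' l) :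
    sumK f k = sumK f' k := by
  induction k generalizing f f' with
  | zero => exact h [] rfl
  | succ k ih =>
    unfold sumK
    apply Finset.sum_congr rfl
    intro ty _
    apply ih
    intro l hl
    exact h (ty :: l) (by rw [List.length_cons, hl])

theorem sumK_sum {X : Type*} (s : Finset X) (c : X → K) (f : X → List Ty → K) (k : ℕ) :
    sumK (fun l => ∑ x ∈ s, c x * f x l) k = ∑ x ∈ s, c x * sumK (f x) k := by
  induction k generalizing f with
  | zero => rfl
  | succ k ih =>
    unfold sumK
    calc ∑ ty, sumK (fun l => ∑ x ∈ s, c x * f x (ty :: l)) k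
        = ∑ ty, ∑ x ∈ s, c x * sumK (fun l => f x (ty :: l)) k := by
          apply Finset.sum_congr rfl
          intro ty _
          exact ih (fun x l => f x (ty :: l))
      _ = ∑ x ∈ s, c x * ∑ ty, sumK (fun l => f x (ty :: l)) k := by
          rw [Finset.sum_comm]
          apply Finset.sum_congr rfl
          intro x _
          rw [Finset.mul_sum]

open Classical in
/-- typed walk sums: walks to `b` whose arcs have the types in the list -/
noncomputable def twK (A : Ty → Q → Q → K) (b : Q) : List Ty → Q → K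
  | [], p => if p = b then 1 else 0
  | ty :: l, p => ∑ p', A ty p p' * twK A b l p'

theorem pow_twK [DecidableEq Q] (M : Matrix Q Q K) (B : Ty → Q → Q → K)
    (h : ∀ p p', M p p' = ∑ ty, B ty p p') (b : Q) (k : ℕ) (p : Q) :
    (M ^ k) p b = sumK (fun l => twK B b l p) k := by
  induction k generalizing p with
  | zero =>
    show (M ^ 0) p b = twK B b [] p
    unfold twK
    rw [pow_zero, Matrix.one_apply]
    by_cases hpb : p = b
    · rw [if_pos hpb, if_pos hpb]
    · rw [if_neg hpb, if_neg hpb]
  | succ k ih =>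
    unfold sumK
    rw [pow_succ', Matrix.mul_apply]
    calc ∑ c, M p c * (M ^ k) c b
        = ∑ c, ∑ ty, B ty p c * sumK (fun l => twK B b l c) k := by
          apply Finset.sum_congr rfl
          intro c _
          rw [ih, h, Finset.sum_mul]
      _ = ∑ ty, ∑ c, B ty p c * sumK (fun l => twK B b l c) k := Finset.sum_comm
      _ = ∑ ty, sumK (fun l => twK B b (ty :: l) p) k := by
          apply Finset.sum_congr rfl
          intro ty _
          exact (sumK_sum Finset.univ (fun c => B ty p c) (fun c l => twK B b l c) k).symm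

theorem twK_nil_fix (A A' : Ty → Q → Q → K) (b b' : Q) (φ : Equiv.Perm Q) (hb : φ b = b') (p : Q) :
    twK A' b' [] (φ p) = twK A b [] p := by
  unfold twK
  by_cases h : p = b
  · rw [if_pos h, if_pos (by rw [h, hb])]
  · rw [if_neg h, if_neg]
    intro h'
    apply h
    apply φ.injective
    rw [h', hb]

/-- equivariance of typed walk sums -/
theorem twK_equiv (A A' : Ty → Q → Q → K) (b b' : Q) (φ : Equiv.Perm Q) (hb : φ b = b')
    (h : ∀ ty p p', A' ty (φ p) (φ p') = A ty p p') (l : List Ty) (p : Q) :
    twK A' b' l (φ p) = twK A b l p := by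
  induction l generalizing p with
  | nil => exact twK_nil_fix A A' b b' φ hb p
  | cons ty l ih =>
    rw [twK, twK, ← Equiv.sum_comp φ]
    apply Finset.sum_congr rfl
    intro p' _
    rw [ih, h]

/-- Transfer along a typed walk: `Fix t φ` says that `φ` is a lift of the `t`-th translation that
fixes `b`. -/
theorem twK_transfer (A A' : Ty → Q → Q → K) (b : Q) (l : List Ty) :
    ∀ (Fix : ℕ → Equiv.Perm Q → Prop),
      (∀ t φ, Fix t φ → φ b = b) →
      (∀ t (ht : t < l.length) φ, Fix t φ → ∀ p p', A (l[t]) p p' = A' (l[t]) (φ p) (φ p')) →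
      (∀ t (ht : t + 1 < l.length) φ, Fix t φ → ∀ p p', A (l[t]) p p' ≠ 0 →
        ∃ φ', Fix (t + 1) φ' ∧ φ' p' = φ p') →
      ∀ φ, Fix 0 φ → ∀ p, twK A b l p = twK A' b l (φ p) := by
  induction l with
  | nil =>
    intro Fix h1 _ _ φ hφ p
    exact (twK_nil_fix A A' b b φ (h1 0 φ hφ) p).symm
  | cons ty l ih =>
    intro Fix h1 h2 h3 φ hφ p
    rw [twK, twK, ← Equiv.sum_comp φ (fun p' => A' ty (φ p) p' * twK A' b l p')]
    apply Finset.sum_congr rfl
    intro p' _
    have e1 : A ty p p' = A' ty (φ p) (φ p') := h2 0 (by simp) φ hφ p p'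
    rw [← e1]
    by_cases h0 : A ty p p' = 0
    · rw [h0, zero_mul, zero_mul]
    · congr 1
      rcases l with _ | ⟨ty', l'⟩
      · exact (twK_nil_fix A A' b b φ (h1 0 φ hφ) p').symm
      · obtain ⟨φ', h4, h5⟩ := h3 0 (by simp) φ hφ p p' h0
        rw [← h5]
        exact ih (fun t => Fix (t + 1)) (fun t => h1 (t + 1))
          (fun t ht => h2 (t + 1) (by simpa using ht))
          (fun t ht => h3 (t + 1) (by simpa using ht)) φ' h4 p'

end typed

section abp

variable {I K Q : Type} [CommSemiring K]

theorem ABP.IsAut.one (B : ABP I K Q) : B.IsAut 1 1 := by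
  refine ⟨?_, rfl, rfl⟩
  intro a b s
  rcases s with _ | s <;> rfl

theorem ABP.IsAut.mul {B : ABP I K Q} {p p' : Equiv.Perm I} {φ φ' : Equiv.Perm Q}
    (h : B.IsAut p φ) (h' : B.IsAut p' φ') : B.IsAut (p * p') (φ * φ') := by
  refine ⟨?_, ?_, ?_⟩
  · intro a b s
    have e : Option.map (p * p') s = Option.map p (Option.map p' s) := by
      rcases s with _ | s <;> rfl
    rw [e]
    exact (h.coef _ _ _).trans (h'.coef _ _ _)
  · rw [Equiv.Perm.mul_apply, h'.src, h.src]
  · rw [Equiv.Perm.mul_apply, h'.tgt, h.tgt]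

theorem ABP.IsAut.inv {B : ABP I K Q} {p : Equiv.Perm I} {φ : Equiv.Perm Q}
    (h : B.IsAut p φ) : B.IsAut p⁻¹ φ⁻¹ := by
  refine ⟨?_, ?_, ?_⟩
  · intro a b s
    have h1 := h.coef (φ⁻¹ a) (φ⁻¹ b) (Option.map (p⁻¹ : Equiv.Perm I) s)
    have e : Option.map p (Option.map (p⁻¹ : Equiv.Perm I) s) = s := by
      rcases s with _ | s
      · rfl
      · show some (p (p⁻¹ s)) = some s
        rw [p_apply_inv]
    rw [e, p_apply_inv, p_apply_inv] at h1
    exact h1.symm
  · rw [Equiv.Perm.inv_eq_iff_eq]; exact h.src.symm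
  · rw [Equiv.Perm.inv_eq_iff_eq]; exact h.tgt.symm

open Classical in
/-- the truth value of a source -/
noncomputable def truK (K : Type) [CommSemiring K] (y : Set I) : Option I → K
  | none => 1
  | some i => if i ∈ y then 1 else 0

open Classical in
/-- the adjacency matrix at a 0-1 point -/
noncomputable def ABP.mat [Fintype I] (B : ABP I K Q) (y : Set I) : Matrix Q Q K :=
  Matrix.of fun a b => ∑ s, B.coef a b s * truK K y s

open Classical in
/-- the 0-1 point -/
noncomputable def pt (K : Type) [CommSemiring K] (y : Set I) : I → K := fun i => if i ∈ y then 1 else 0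

theorem ABP.eval_poly [Fintype I] [Fintype Q] [DecidableEq Q] (B : ABP I K Q) (y : Set I) :
    MvPolynomial.eval (pt K y) B.poly =
      ∑ k ∈ range (Fintype.card Q), ((B.mat y) ^ k) B.src B.tgt := by
  unfold ABP.poly
  rw [map_sum]
  apply Finset.sum_congr rfl
  intro k _
  have h1 : ((MvPolynomial.eval (pt K y)).mapMatrix (Matrix.of B.lab)) = B.mat y := by
    ext a b
    rw [RingHom.mapMatrix_apply, Matrix.map_apply]
    show MvPolynomial.eval (pt K y) (B.lab a b) = ∑ s, B.coef a b s * truK K y s
    unfold ABP.lab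
    rw [map_add, MvPolynomial.eval_C, map_sum, Fintype.sum_option]
    congr 1
    · show _ = B.coef a b none * 1
      rw [mul_one]
    · apply Finset.sum_congr rfl
      intro i _
      rw [map_mul, MvPolynomial.eval_C, MvPolynomial.eval_X]
      rfl
  have h2 : (MvPolynomial.eval (pt K y)).mapMatrix ((Matrix.of B.lab) ^ k) = B.mat y ^ k := by
    rw [map_pow, h1]
  rw [← h2]
  rfl

variable [Fintype I] [Fintype Q] {TS TR : Type} [Fintype TS] [Fintype TR] [DecidableEq TS]
  [DecidableEq TR] (B : ABP I K Q) (spt : Q → TS) (rdt : Option I → TR)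

/-- the typed adjacency matrices -/
noncomputable def adjK (y : Set I) (ty : TS × TR) (p p' : Q) : K :=
  if spt p' = ty.1 then ∑ s, (if rdt s = ty.2 then B.coef p p' s * truK K y s else 0) else 0

theorem adjK_sum (y : Set I) (p p' : Q) :
    B.mat y p p' = ∑ ty, adjK B spt rdt y ty p p' := by
  rw [Fintype.sum_prod_type, Finset.sum_eq_single (spt p')]
  · unfold adjK
    simp only [if_true]
    rw [Finset.sum_comm]
    unfold ABP.mat
    rw [Matrix.of_apply]
    apply Finset.sum_congr rfl
    intro s _
    rw [Finset.sum_ite_eq, if_pos (Finset.mem_univ _)]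
  · intro S _ hS
    apply Finset.sum_eq_zero
    intro T _
    exact if_neg (fun h => hS h.symm)
  · intro h
    exact absurd (Finset.mem_univ _) h

/-- comparison of typed adjacency matrices -/
theorem adjK_map {p : Equiv.Perm I} {φ : Equiv.Perm Q} (hφ : B.IsAut p φ)
    (y y' : Set I) (ty : TS × TR)
    (hsp : ∀ p', spt (φ p') = spt p')
    (hrd : ∀ s, rdt (Option.map p s) = rdt s)
    (hv : ∀ s, rdt s = ty.2 → truK K y' (Option.map p s) = truK K y s) (a a' : Q) :
    adjK B spt rdt y' ty (φ a) (φ a') = adjK B spt rdt y ty a a' := by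
  unfold adjK
  rw [hsp]
  by_cases hc : spt a' = ty.1
  · rw [if_pos hc, if_pos hc, ← Equiv.sum_comp (Equiv.optionCongr p)]
    apply Finset.sum_congr rfl
    intro s _
    have e0 : (Equiv.optionCongr p) s = Option.map p s := rfl
    rw [e0, hrd]
    by_cases hc2 : rdt s = ty.2
    · rw [if_pos hc2, if_pos hc2, hφ.coef, hv s hc2]
    · rw [if_neg hc2, if_neg hc2]
  · rw [if_neg hc, if_neg hc]

end abp

end Pool.Agent.H870R2.LS
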