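import Pool.Agent.H870R2.LS.Defs2

set_option autoImplicit false
set_option linter.unusedSectionVars false

/-! Linear algebra of lies (task LIE of helper870). -/

namespace Pool.Agent.H870R2.LS

open Finset

section lie
variable {H n : ℕ} (M : ℕ → Fin (n + 1) → Fin (n + 1) → ZMod 5)

theorem Yv_zero' (e : ℕ → Fin (n + 1) → Fin (n + 1) → ZMod 5) (c : Fin (n + 1)) :
    Yv M e 0 c = e 0 c (Fin.last n) := rfl

theorem Yv_succ' (e : ℕ → Fin (n + 1) → Fin (n + 1) → ZMod 5) (i : ℕ) (c : Fin (n + 1)) :
    Yv M e (i + 1) c = e (i + 1) c (Fin.last n) +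
      ∑ c', M i c' c * (Yv M e i c' +
        ∑ b ∈ univ.filter (fun b => c ≤ b ∧ b ≠ Fin.last n), e i c' b) := rfl

/-- `Yv` is linear in the errors -/
theorem Yv_lin {ι : Type*} (s : Finset ι) (a : ι → ZMod 5)
    (E : ι → ℕ → Fin (n + 1) → Fin (n + 1) → ZMod 5) (i : ℕ) (c : Fin (n + 1)) :
    Yv M (fun i c b => ∑ v ∈ s, a v * E v i c b) i c = ∑ v ∈ s, a v * Yv M (E v) i c := by
  induction i generalizing c with
  | zero => rfl
  | succ i ih =>
    rw [Yv_succ']
    simp only [Yv_succ', ih, mul_add, Finset.mul_sum, Finset.sum_add_distrib]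
    congr 1
    rw [Finset.sum_comm (s := s), Finset.sum_comm (s := s)]
    congr 1
    · refine Finset.sum_congr rfl fun c' _ => Finset.sum_congr rfl fun v _ => ?_
      ring
    · refine Finset.sum_congr rfl fun c' _ => ?_
      rw [Finset.sum_comm]
      refine Finset.sum_congr rfl fun v _ => Finset.sum_congr rfl fun b _ => ?_
      ring

theorem ext_single (v : Pla H n) (i : ℕ) (c b : Fin (n + 1)) :
    ext (Pi.single v (1 : ZMod 5)) i c b =
      if v.1.val = i ∧ v.2.1 = c ∧ v.2.2 = b then 1 else 0 := by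
  obtain ⟨⟨i', hi'⟩, c', b'⟩ := v
  unfold ext
  split_ifs with h1 h2 h2
  · obtain ⟨h3, h4, h5⟩ := h2
    simp only at h3 h4 h5
    subst h3 h4 h5
    simp
  · rw [Pi.single_apply, if_neg]
    intro h
    apply h2
    simp only [Prod.mk.injEq, Fin.mk.injEq] at h
    exact ⟨h.1.symm, h.2.1.symm, h.2.2.symm⟩
  · exfalso
    obtain ⟨h3, -, -⟩ := h2
    simp only at h3
    omega
  · rfl

theorem ext_eq_sum (e : Pla H n → ZMod 5) :
    ext e = fun i c b => ∑ v ∈ (univ : Finset (Pla H n)), e v * ext (Pi.single v (1 : ZMod 5)) i c b := by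
  funext i c b
  simp only [ext_single]
  by_cases h : i < H
  · have h1 : ext e i c b = e (⟨i, h⟩, c, b) := by unfold ext; rw [dif_pos h]
    rw [h1, Finset.sum_eq_single (⟨i, h⟩, c, b)]
    · simp
    · rintro ⟨⟨i', hi'⟩, c', b'⟩ _ hne
      rw [if_neg, mul_zero]
      rintro ⟨h2, h3, h4⟩
      apply hne
      simp only at h2 h3 h4
      subst h2 h3 h4
      rfl
    · intro h2
      exact absurd (mem_univ _) h2
  · have h1 : ext e i c b = 0 := by unfold ext; rw [dif_neg h]
    rw [h1]
    symm
    apply Finset.sum_eq_zero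
    rintro ⟨⟨i', hi'⟩, c', b'⟩ _
    rw [if_neg, mul_zero]
    rintro ⟨h2, -, -⟩
    simp only at h2
    omega

theorem Yv_ext (e : Pla H n → ZMod 5) (i : ℕ) (c : Fin (n + 1)) :
    Yv M (ext e) i c = ∑ v, e v * Yv M (ext (Pi.single v (1 : ZMod 5))) i c := by
  conv_lhs => rw [ext_eq_sum e]
  exact Yv_lin M univ e (fun v => ext (Pi.single v (1 : ZMod 5))) i c

/-- LIE -/
theorem lie_sum (e : Pla H n → ZMod 5) (i : ℕ) (u : Fin (n + 1) → ZMod 5) :
    ∑ v, e v * Lie M i u v = ∑ c, Yv M (ext e) i c * u c := by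
  simp only [Yv_ext M e, Lie, Finset.mul_sum, Finset.sum_mul]
  rw [Finset.sum_comm]
  refine Finset.sum_congr rfl fun c _ => Finset.sum_congr rfl fun v _ => ?_
  ring

/-- no errors above row `i` -/
theorem Yv_of_zero (e : ℕ → Fin (n + 1) → Fin (n + 1) → ZMod 5) (i : ℕ)
    (h : ∀ i' < i, ∀ c b, e i' c b = 0) (c : Fin (n + 1)) : Yv M e i c = e i c (Fin.last n) := by
  induction i generalizing c with
  | zero => rfl
  | succ i ih =>
    rw [Yv_succ']
    have h1 : ∀ c', Yv M e i c' = 0 := by
      intro c'
      rw [ih (fun i' hi' => h i' (by omega)) c']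
      exact h i (by omega) _ _
    have h2 : ∀ c' b, e i c' b = 0 := h i (by omega)
    simp [h1, h2]

theorem Yv_single_row (i : ℕ) (v : Pla H n) (hv : i ≤ v.1.val) (c : Fin (n + 1)) :
    Yv M (ext (Pi.single v (1 : ZMod 5))) i c =
      if v.1.val = i ∧ v.2.1 = c ∧ v.2.2 = Fin.last n then 1 else 0 := by
  rw [Yv_of_zero, ext_single]
  intro i' hi' c b
  rw [ext_single, if_neg]
  rintro ⟨h, -, -⟩
  omega

/-- LIE -/
theorem lie_row (i : ℕ) (u : Fin (n + 1) → ZMod 5) (v : Pla H n) (hv : i ≤ v.1.val) :
    Lie M i u v = if v.1.val = i ∧ v.2.2 = Fin.last n then u v.2.1 else 0 := by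
  unfold Lie
  simp only [Yv_single_row M i v hv]
  by_cases h : v.1.val = i ∧ v.2.2 = Fin.last n
  · rw [if_pos h, Finset.sum_eq_single v.2.1]
    · rw [if_pos ⟨h.1, rfl, h.2⟩, one_mul]
    · intro c _ hc
      rw [if_neg, zero_mul]
      rintro ⟨-, h2, -⟩
      exact hc h2.symm
    · intro h2
      exact absurd (mem_univ _) h2
  · rw [if_neg h]
    apply Finset.sum_eq_zero
    intro c _
    rw [if_neg, zero_mul]
    rintro ⟨h1, -, h2⟩
    exact h ⟨h1, h2⟩

theorem Yv_step_zero (e : ℕ → Fin (n + 1) → Fin (n + 1) → ZMod 5) (j : ℕ)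
    (h1 : ∀ c, e (j + 1) c (Fin.last n) = 0) (h2 : ∀ c b, b ≠ Fin.last n → e j c b = 0)
    (c : Fin (n + 1)) : Yv M e (j + 1) c = ∑ c', M j c' c * Yv M e j c' := by
  rw [Yv_succ', h1, zero_add]
  refine Finset.sum_congr rfl fun c' _ => ?_
  have : ∑ b ∈ univ.filter (fun b => c ≤ b ∧ b ≠ Fin.last n), e j c' b = 0 := by
    apply Finset.sum_eq_zero
    intro b hb
    rw [mem_filter] at hb
    exact h2 c' b hb.2.2
  rw [this, add_zero]

/-- the first row below the error -/
theorem Yv_next (v : Pla H n) (c : Fin (n + 1)) :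
    Yv M (ext (Pi.single v (1 : ZMod 5))) (v.1.val + 1) c =
      M v.1.val v.2.1 c * (if c ≤ v.2.2 then 1 else 0) := by
  rw [Yv_succ']
  have h0 : ext (Pi.single v (1 : ZMod 5)) (v.1.val + 1) c (Fin.last n) = 0 := by
    rw [ext_single, if_neg]
    rintro ⟨h, -, -⟩
    omega
  rw [h0, zero_add, Finset.sum_eq_single v.2.1]
  · congr 1
    rw [Yv_single_row M _ v le_rfl]
    simp only [ext_single, true_and]
    by_cases hl : v.2.2 = Fin.last n
    · rw [if_pos hl, if_pos (by rw [hl]; exact Fin.le_last c), Finset.sum_eq_zero, add_zero]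
      intro b hb
      rw [mem_filter] at hb
      rw [if_neg]
      intro h
      exact hb.2.2 (h.symm.trans hl)
    · rw [if_neg hl, zero_add]
      by_cases hc : c ≤ v.2.2
      · rw [if_pos hc, Finset.sum_eq_single v.2.2]
        · rw [if_pos rfl]
        · intro b _ hb
          rw [if_neg]
          exact fun h => hb h.symm
        · intro h
          exfalso
          apply h
          rw [mem_filter]
          exact ⟨mem_univ _, hc, hl⟩
      · rw [if_neg hc]
        apply Finset.sum_eq_zero
        intro b hb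
        rw [mem_filter] at hb
        rw [if_neg]
        intro h
        apply hc
        rw [h]
        exact hb.2.1
  · intro c' _ hc'
    have h1 : Yv M (ext (Pi.single v (1 : ZMod 5))) v.1.val c' = 0 := by
      rw [Yv_single_row M _ v le_rfl, if_neg]
      rintro ⟨-, h, -⟩
      exact hc' h.symm
    have h2 : ∑ b ∈ univ.filter (fun b => c ≤ b ∧ b ≠ Fin.last n),
        ext (Pi.single v (1 : ZMod 5)) v.1.val c' b = 0 := by
      apply Finset.sum_eq_zero
      intro b _
      rw [ext_single, if_neg]
      rintro ⟨-, h, -⟩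
      exact hc' h.symm
    rw [h1, h2, add_zero, mul_zero]
  · intro h
    exact absurd (mem_univ _) h

theorem lft_fst (v : Pla H n) (h : v.1.val + 1 < H) (hb : v.2.2 ≠ 0) :
    (lft v h).1 = v.1 ∧ (lft v h).2.1 = v.2.1 ∧ (lft v h).2.2.val = v.2.2.val - 1 := by
  unfold lft
  rw [if_neg hb]
  exact ⟨rfl, rfl, rfl⟩

/-- the recursion for the propagation of an error -/
theorem Yv_pred (v : Pla H n) (h : v.1.val + 1 < H) (j : ℕ) (hj : v.1.val + 1 ≤ j)
    (c : Fin (n + 1)) :
    Yv M (ext (Pi.single v (1 : ZMod 5))) j c =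
      comb M v (Yv M (ext (Pi.single (lft v h) (1 : ZMod 5))) j c)
        (Yv M (ext (Pi.single (rgt v h) (1 : ZMod 5))) j c) := by
  induction j, hj using Nat.le_induction generalizing c with
  | base =>
    unfold comb
    rw [Yv_next]
    have hr : Yv M (ext (Pi.single (rgt v h) (1 : ZMod 5))) (v.1.val + 1) c =
        if v.2.2 = c then 1 else 0 := by
      rw [Yv_single_row M (v.1.val + 1) (rgt v h) (le_of_eq rfl)]
      by_cases hc : v.2.2 = c
      · rw [if_pos hc, if_pos ⟨rfl, hc, rfl⟩]
      · rw [if_neg hc, if_neg]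
        rintro ⟨-, h2, -⟩
        exact hc h2
    rw [hr]
    by_cases hb : v.2.2 = 0
    · rw [if_pos hb, zero_add]
      by_cases hc : c = 0
      · rw [hb, hc]; simp
      · have h1 : ¬ c ≤ v.2.2 := by
          rw [hb]
          intro h2
          exact hc (Fin.le_zero_iff.mp h2)
        rw [if_neg h1, if_neg (by rw [hb]; exact fun h2 => hc h2.symm)]
        ring
    · rw [if_neg hb]
      obtain ⟨e1, e2, e3⟩ := lft_fst v h hb
      have hl : Yv M (ext (Pi.single (lft v h) (1 : ZMod 5))) (v.1.val + 1) c =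
          M v.1.val v.2.1 c * (if c ≤ (lft v h).2.2 then 1 else 0) := by
        have := Yv_next M (lft v h) c
        rw [e1, e2] at this
        exact this
      rw [hl]
      have hb' : 0 < v.2.2.val := by
        rcases Nat.eq_zero_or_pos v.2.2.val with h0 | h0
        · exact absurd (Fin.ext h0) hb
        · exact h0
      rcases lt_trichotomy c v.2.2 with hc | hc | hc
      · have h1 : c ≤ (lft v h).2.2 := by
          rw [Fin.le_def, e3]
          have : c.val < v.2.2.val := hc
          omega
        rw [if_pos hc.le, if_pos h1, if_neg (ne_of_gt hc)]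
        ring
      · have h1 : ¬ c ≤ (lft v h).2.2 := by
          rw [Fin.le_def, e3, hc]
          omega
        rw [if_pos hc.le, if_neg h1, if_pos hc.symm, hc]
        ring
      · have h1 : ¬ c ≤ (lft v h).2.2 := by
          rw [Fin.le_def, e3]
          have : v.2.2.val < c.val := hc
          omega
        rw [if_neg (not_le.mpr hc), if_neg h1, if_neg (ne_of_lt hc)]
        ring
  | succ j hj ih =>
    have key : ∀ w : Pla H n, (w.1.val < j ∨ (w.1.val ≤ j ∧ w.2.2 = Fin.last n)) →
        Yv M (ext (Pi.single w (1 : ZMod 5))) (j + 1) c =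
          ∑ c', M j c' c * Yv M (ext (Pi.single w (1 : ZMod 5))) j c' := by
      intro w hw
      apply Yv_step_zero
      · intro c'
        rw [ext_single, if_neg]
        rintro ⟨h1, -, -⟩
        omega
      · intro c' b hb
        rw [ext_single, if_neg]
        rintro ⟨h1, -, h2⟩
        rcases hw with hw | hw
        · omega
        · exact hb (h2.symm.trans hw.2)
    rw [key v (Or.inl (by omega)), key (rgt v h) (Or.inr ⟨by simp only [rgt]; omega, rfl⟩)]
    unfold comb
    by_cases hb : v.2.2 = 0
    · rw [if_pos hb]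
      simp only [ih, comb, if_pos hb, zero_add, Finset.mul_sum]
      refine Finset.sum_congr rfl fun c' _ => ?_
      ring
    · rw [if_neg hb]
      obtain ⟨e1, e2, e3⟩ := lft_fst v h hb
      rw [key (lft v h) (Or.inl (by rw [e1]; omega))]
      simp only [ih, comb, if_neg hb, Finset.mul_sum]
      rw [← Finset.sum_add_distrib]
      refine Finset.sum_congr rfl fun c' _ => ?_
      ring

/-- LIE (for rows of the instance) -/
theorem curv_lie (i : ℕ) (hi : i < H) (u : Fin (n + 1) → ZMod 5) (v : Pla H n) :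
    Curv M (Lie M i u) v = if v.1.val = i ∧ v.2.2 = Fin.last n then u v.2.1 else 0 := by
  unfold Curv
  rcases lt_or_ge v.1.val i with hlt | hge
  · have h : v.1.val + 1 < H := by omega
    rw [dif_pos h, if_neg (by rintro ⟨h1, -⟩; omega), sub_eq_zero]
    unfold Lie
    simp only [Yv_pred M v h i hlt]
    unfold comb
    by_cases hb : v.2.2 = 0
    · simp only [if_pos hb, zero_add, Finset.mul_sum]
      refine Finset.sum_congr rfl fun c' _ => ?_
      ring
    · simp only [if_neg hb, Finset.mul_sum]
      rw [← Finset.sum_add_distrib]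
      refine Finset.sum_congr rfl fun c' _ => ?_
      ring
  · rw [lie_row M i u v hge]
    by_cases h : v.1.val + 1 < H
    · rw [dif_pos h]
      have hr : Lie M i u (rgt v h) = 0 := by
        rw [lie_row M i u (rgt v h) (by simp only [rgt]; omega), if_neg]
        rintro ⟨h1, -⟩
        simp only [rgt] at h1
        omega
      unfold comb
      rw [hr, mul_zero, add_zero]
      by_cases hb : v.2.2 = 0
      · rw [if_pos hb, sub_zero]
      · rw [if_neg hb]
        obtain ⟨e1, e2, e3⟩ := lft_fst v h hb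
        have hb' : 0 < v.2.2.val := by
          rcases Nat.eq_zero_or_pos v.2.2.val with h0 | h0
          · exact absurd (Fin.ext h0) hb
          · exact h0
        have hl : Lie M i u (lft v h) = 0 := by
          rw [lie_row M i u (lft v h) (by rw [e1]; exact hge), if_neg]
          rintro ⟨-, h2⟩
          have h3 := congrArg Fin.val h2
          rw [e3, Fin.val_last] at h3
          have := v.2.2.isLt
          omega
        rw [hl, sub_zero]
    · rw [dif_neg h, sub_zero]

theorem Lie_add (i : ℕ) (u u' : Fin (n + 1) → ZMod 5) (v : Pla H n) :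
    Lie M i (u + u') v = Lie M i u v + Lie M i u' v := by
  unfold Lie
  rw [← Finset.sum_add_distrib]
  refine Finset.sum_congr rfl fun c _ => ?_
  simp only [Pi.add_apply]
  ring

theorem Lie_smul (i : ℕ) (a : ZMod 5) (u : Fin (n + 1) → ZMod 5) (v : Pla H n) :
    Lie M i (a • u) v = a * Lie M i u v := by
  unfold Lie
  rw [Finset.mul_sum]
  refine Finset.sum_congr rfl fun c _ => ?_
  simp only [Pi.smul_apply, smul_eq_mul]
  ring

open Classical in
/-- LIE -/
theorem lie_step (σ : ℕ) (hM : Spread H n (σ + 1) (σ + 1) M) (i : ℕ) (hi : i + 1 < H)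
    (u : Fin (n + 1) → ZMod 5) (z : Pla H n) (hz : z.2.2 = Fin.last n)
    (S S' : Finset (Pla H n)) (hS : S.card ≤ σ) (hS' : S'.card ≤ σ)
    (hu : ∀ v ∈ S, v.1.val = i → u v.2.1 = 0) :
    ∃ u' : Fin (n + 1) → ZMod 5, Lie M (i + 1) u' z = Lie M i u z ∧
      (∀ v ∈ S', v.1.val = i + 1 → u' v.2.1 = 0) ∧
      ∀ v ∈ S, Lie M (i + 1) u' v = Lie M i u v := by
  haveI : Fact (Nat.Prime 5) := ⟨by norm_num⟩
  -- the submodule of reachable values
  let T : Finset (Pla H n) := insert z S
  let R : Submodule (ZMod 5) (Pla H n → ZMod 5) :=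
    { carrier := {g | ∃ u' : Fin (n + 1) → ZMod 5,
        (∀ v ∈ S', v.1.val = i + 1 → u' v.2.1 = 0) ∧
        g = fun v => if v ∈ T then Lie M (i + 1) u' v else 0}
      add_mem' := by
        rintro g g' ⟨u1, h1, rfl⟩ ⟨u2, h2, rfl⟩
        refine ⟨u1 + u2, fun v hv hvi => ?_, ?_⟩
        · rw [Pi.add_apply, h1 v hv hvi, h2 v hv hvi, add_zero]
        · funext v
          simp only [Pi.add_apply]
          split_ifs
          · rw [Lie_add]
          · rw [add_zero]
      zero_mem' := by
        refine ⟨0, fun v _ _ => rfl, ?_⟩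
        funext v
        have : Lie M (i + 1) (0 : Fin (n + 1) → ZMod 5) v = 0 := by
          unfold Lie; simp
        rw [this]; simp
      smul_mem' := by
        rintro a g ⟨u1, h1, rfl⟩
        refine ⟨a • u1, fun v hv hvi => ?_, ?_⟩
        · rw [Pi.smul_apply, h1 v hv hvi, smul_zero]
        · funext v
          simp only [Pi.smul_apply]
          split_ifs
          · rw [Lie_smul, smul_eq_mul]
          · rw [smul_zero] }
  let y : Pla H n → ZMod 5 := fun v => if v ∈ T then Lie M i u v else 0
  by_cases hy : y ∈ R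
  · obtain ⟨u', h1, h2⟩ := hy
    have h3 : ∀ v ∈ T, Lie M (i + 1) u' v = Lie M i u v := by
      intro v hv
      have := congrFun h2 v
      simp only [y, if_pos hv] at this
      exact this.symm
    exact ⟨u', h3 z (mem_insert_self _ _), h1, fun v hv => h3 v (mem_insert_of_mem hv)⟩
  · exfalso
    obtain ⟨f, hf1, hf2⟩ := Submodule.exists_le_ker_of_notMem hy
    -- coefficients of the functional
    let e : Pla H n → ZMod 5 := fun v => if v ∈ T then f (Pi.single v 1) else 0
    have hfe : ∀ g : Pla H n → ZMod 5,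
        f (fun v => if v ∈ T then g v else 0) = ∑ v, e v * g v := by
      intro g
      have h1 : (fun v => if v ∈ T then g v else 0) =
          ∑ v, (if v ∈ T then g v else 0) • (Pi.single v (1 : ZMod 5) : Pla H n → ZMod 5) := by
        funext w
        rw [Finset.sum_apply, Finset.sum_eq_single w]
        · simp
        · intro v _ hv
          simp [Pi.single_apply, hv.symm]
        · intro h2; exact absurd (mem_univ _) h2
      rw [h1, map_sum]
      refine Finset.sum_congr rfl fun v _ => ?_
      rw [map_smul, smul_eq_mul]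
      by_cases hv : v ∈ T
      · simp only [e, if_pos hv]; ring
      · simp only [e, if_neg hv]; ring
    have hcardT : T.card ≤ σ + 1 := (card_insert_le _ _).trans (by omega)
    have hecard : (univ.filter (fun v => e v ≠ 0)).card ≤ σ + 1 := by
      refine le_trans (card_le_card ?_) hcardT
      intro v hv
      rw [mem_filter] at hv
      by_contra hvT
      exact hv.2 (by simp only [e, if_neg hvT])
    -- good columns
    have hgood : ∀ c : Fin (n + 1), (∀ v ∈ S', v.1.val = i + 1 → v.2.1 ≠ c) →
        Yv M (ext e) (i + 1) c = 0 := by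
      intro c hc
      have hmem : (fun v => if v ∈ T then Lie M (i + 1) (Pi.single c (1 : ZMod 5)) v else 0) ∈ R := by
        refine ⟨Pi.single c 1, fun v hv hvi => ?_, rfl⟩
        rw [Pi.single_apply, if_neg (hc v hv hvi)]
      have h1 : f (fun v => if v ∈ T then Lie M (i + 1) (Pi.single c (1 : ZMod 5)) v else 0) = 0 :=
        hf2 hmem
      rw [hfe, lie_sum, Finset.sum_eq_single c] at h1
      · simpa using h1
      · intro c' _ hc'
        rw [Pi.single_apply, if_neg hc', mul_zero]
      · intro h2; exact absurd (mem_univ _) h2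
    have hbad : (univ.filter (fun c => Yv M (ext e) (i + 1) c ≠ 0)).card ≤ σ := by
      refine le_trans (le_trans (card_le_card ?_) (card_image_le (s := S') (f := fun v => v.2.1))) hS'
      intro c hc
      rw [mem_filter] at hc
      rw [mem_image]
      by_contra hne
      apply hc.2
      apply hgood c
      intro v hv _ hvc
      exact hne ⟨v, hv, hvc⟩
    have hne : ∑ c, Yv M (ext e) i c * u c ≠ 0 := by
      rw [← lie_sum, ← hfe]
      exact hf1
    obtain ⟨c0, -, hc0⟩ := Finset.exists_ne_zero_of_sum_ne_zero hne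
    have hY : Yv M (ext e) i c0 ≠ 0 := fun h => hc0 (by rw [h, zero_mul])
    have hU : u c0 ≠ 0 := fun h => hc0 (by rw [h, mul_zero])
    have hzero : ∀ b, b ≠ Fin.last n → ext e i c0 b = 0 := by
      intro b hb
      unfold ext
      rw [dif_pos (by omega)]
      simp only [e]
      rw [if_neg]
      intro hmem
      rcases mem_insert.mp hmem with h1 | h1
      · rw [← h1] at hz
        exact hb hz
      · exact hU (hu _ h1 rfl)
    have := hM e hecard i hi c0 hY hzero
    omega

end lie

end Pool.Agent.H870R2.LS
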