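import Pool.Agent.H526R2.LS.Apsp

set_option autoImplicit false
set_option linter.unusedSectionVars false

/-! Locally symmetric networks for matrix multiplication. -/

namespace Pool.Agent.H870R2.LS

open Finset
open Pool.Agent.H526R2.LS

section defs

variable {V K R : Type*}

/-- The input of a network which reads two matrices: the entry `(u, v)` of the first matrix is the
variable `Sum.inl (u, v)`, that of the second one the variable `Sum.inr (u, v)`; an entry `x` is
given to the network as `enc x`. -/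
def mmInput (enc : R → K) (X Y : Matrix V V R) : (V × V) ⊕ (V × V) → K :=
  Sum.elim (fun e => enc (X e.1 e.2)) (fun e => enc (Y e.1 e.2))

/-- The network multiplies the matrices `X` and `Y` correctly: for every `(u, v)` the value of the
output gate `(u, v)`, decoded by `dec`, is the entry `(u, v)` of `X * Y`. -/
def _root_.Pool.Agent.H526R2.LS.Net.Multiplies [Fintype V] [NonUnitalNonAssocSemiring R]
    {Gt : Type*} [Fintype Gt] (N : Net ((V × V) ⊕ (V × V)) K (V × V) Gt) (enc : R → K)
    (dec : K → R) (X Y : Matrix V V R) : Prop :=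
  ∀ u v, dec (N.val (mmInput enc X Y) (N.out (u, v))) = (X * Y) u v

/-- The permutation `π` of the rows of the first matrix, the permutation `ρ` of its columns and of
the rows of the second matrix and the permutation `σ` of the columns of the second matrix together
extend to an automorphism of the network. -/
def _root_.Pool.Agent.H526R2.LS.Net.MMSym {Gt : Type*}
    (N : Net ((V × V) ⊕ (V × V)) K (V × V) Gt) (π ρ σ : Equiv.Perm V) : Prop :=
  ∃ φ, N.IsAut (Equiv.sumCongr (Equiv.prodCongr π ρ) (Equiv.prodCongr ρ σ)) (Equiv.prodCongr π σ) φ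

/-- The network is symmetric on the blocks `ι (j, ·)`: every even permutation of one block, applied
simultaneously to the rows and to the columns of the two matrices and of their product, extends to
an automorphism of the network. -/
def _root_.Pool.Agent.H526R2.LS.Net.MMBlocks {B Gt : Type*} [Fintype B] [DecidableEq B] {r : ℕ}
    (N : Net ((V × V) ⊕ (V × V)) K (V × V) Gt) (ι : Fin r × B ↪ V) : Prop :=
  ∀ (j : Fin r) (σ : Equiv.Perm B), σ ∈ alternatingGroup B →
    N.MMSym (blockPerm ι j σ) (blockPerm ι j σ) (blockPerm ι j σ)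

end defs

section lower

variable {V K B R : Type*} [Fintype V] [Fintype B] [DecidableEq B] {r : ℕ}

/-- the action on the entries of two matrices -/
def twoHom (V : Type*) : Equiv.Perm V →* Equiv.Perm ((V × V) ⊕ (V × V)) :=
  (Equiv.Perm.sumCongrHom (V × V) (V × V)).comp ((pairHom V).prod (pairHom V))

theorem twoHom_inl (π : Equiv.Perm V) (x y : V) :
    twoHom V π (Sum.inl (x, y)) = Sum.inl (π x, π y) := rfl

theorem twoHom_inr (π : Equiv.Perm V) (x y : V) :
    twoHom V π (Sum.inr (x, y)) = Sum.inr (π x, π y) := rfl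

theorem twoHom_eq (π : Equiv.Perm V) :
    twoHom V π = Equiv.sumCongr (Equiv.prodCongr π π) (Equiv.prodCongr π π) := rfl

open Classical in
/-- the adjacency matrix of the layered instance -/
noncomputable def adjM [Zero R] [One R] (ι : Fin r × B ↪ V) (τ : Fin 3 ↪ Fin r) (lb : B ≃ ZMod 5)
    (c : ZMod 5 × ZMod 5) : Matrix V V R :=
  fun x y => if Arc ι τ lb c x y then 1 else 0

variable {ι : Fin r × B ↪ V} {τ : Fin 3 ↪ Fin r} {lb : B ≃ ZMod 5}

/-- the middle vertices of the paths from `u` to `v` -/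
theorem arc_path {c : ZMod 5 × ZMod 5} {b b' : B} {m : V} :
    (Arc ι τ lb c (ι (τ 0, b)) m ∧ Arc ι τ lb c m (ι (τ 2, b'))) ↔
      m = ι (τ 1, lb.symm (lb b + c.1)) ∧ lb b' = lb b + c.1 + c.2 := by
  constructor
  · rintro ⟨h1, h2⟩
    rcases h1 with ⟨d, d', e1, e2, e3⟩ | ⟨d, d', e1, e2, e3⟩
    · subst e2
      rw [arc12] at h2
      have e4 := ι.injective e1
      simp only [Prod.mk.injEq, true_and] at e4
      subst e4
      have e5 : d' = lb.symm (lb b + c.1) := by rw [← e3, Equiv.symm_apply_apply]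
      refine ⟨by rw [← e5], ?_⟩
      rw [h2, e3]
    · have := ι.injective e1
      simp only [Prod.mk.injEq] at this
      exact absurd (τ.injective this.1) (by decide)
  · rintro ⟨rfl, h⟩
    rw [arc01, arc12, Equiv.apply_symm_apply]
    exact ⟨rfl, h⟩

open Classical in
theorem adjM_mul [Semiring R] (c : ZMod 5 × ZMod 5) (b b' : B) :
    (adjM ι τ lb c * adjM ι τ lb c : Matrix V V R) (ι (τ 0, b)) (ι (τ 2, b')) =
      if lb b' = lb b + c.1 + c.2 then 1 else 0 := by
  rw [Matrix.mul_apply]
  have h : ∀ m : V, (adjM ι τ lb c : Matrix V V R) (ι (τ 0, b)) m * adjM ι τ lb c m (ι (τ 2, b')) =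
      if m = ι (τ 1, lb.symm (lb b + c.1)) then (if lb b' = lb b + c.1 + c.2 then 1 else 0)
        else 0 := by
    intro m
    unfold adjM
    by_cases h1 : Arc ι τ lb c (ι (τ 0, b)) m ∧ Arc ι τ lb c m (ι (τ 2, b'))
    · have h2 := arc_path.1 h1
      rw [if_pos h1.1, if_pos h1.2, if_pos h2.1, if_pos h2.2, one_mul]
    · have h2 : ¬ (m = ι (τ 1, lb.symm (lb b + c.1)) ∧ lb b' = lb b + c.1 + c.2) :=
        fun h => h1 (arc_path.2 h)
      have h3 : (if m = ι (τ 1, lb.symm (lb b + c.1)) then
          (if lb b' = lb b + c.1 + c.2 then (1 : R) else 0) else 0) = 0 := by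
        by_cases h4 : m = ι (τ 1, lb.symm (lb b + c.1))
        · rw [if_pos h4, if_neg (fun h5 => h2 ⟨h4, h5⟩)]
        · rw [if_neg h4]
      rw [h3]
      by_cases h4 : Arc ι τ lb c (ι (τ 0, b)) m
      · rw [if_pos h4, if_neg (fun h5 => h1 ⟨h4, h5⟩), mul_zero]
      · rw [if_neg h4, zero_mul]
  simp only [h, Finset.sum_ite_eq', Finset.mem_univ, if_true]

/-- arithmetic of the size bound -/
theorem cover_arith {x s r m : ℕ} (h1 : x ≤ r.choose 3) (hr : r ≤ m)
    (h2 : x ≤ s * (2 * Nat.log 5 s + 1).choose 3) :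
    6 * x ≤ s * (6 * Nat.log 5 m + 5) ^ 3 := by
  have hch : ∀ a : ℕ, 6 * a.choose 3 ≤ a ^ 3 := by
    intro a
    have := Nat.descFactorial_le_pow a 3
    rw [Nat.descFactorial_eq_factorial_mul_choose] at this
    exact this
  rcases Nat.lt_or_ge (m ^ 3) s with h | h
  · calc 6 * x ≤ 6 * r.choose 3 := Nat.mul_le_mul_left _ h1
      _ ≤ r ^ 3 := hch r
      _ ≤ m ^ 3 := Nat.pow_le_pow_left hr 3
      _ ≤ s * 1 := by omega
      _ ≤ s * (6 * Nat.log 5 m + 5) ^ 3 := Nat.mul_le_mul_left _ (Nat.one_le_pow _ _ (by omega))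
  · have hlog : Nat.log 5 s ≤ 3 * Nat.log 5 m + 2 := by
      have h3 : Nat.log 5 s ≤ Nat.log 5 (m ^ 3) := Nat.log_mono_right h
      have h4 : m ^ 3 < 5 ^ (3 * Nat.log 5 m + 3) := by
        have h5 : m < 5 ^ (Nat.log 5 m + 1) := Nat.lt_pow_succ_log_self (by norm_num) m
        calc m ^ 3 < (5 ^ (Nat.log 5 m + 1)) ^ 3 := Nat.pow_lt_pow_left h5 (by norm_num)
          _ = 5 ^ (3 * Nat.log 5 m + 3) := by rw [← pow_mul]; ring_nf
      have h5 : Nat.log 5 (m ^ 3) < 3 * Nat.log 5 m + 3 := by
        rcases Nat.eq_zero_or_pos (m ^ 3) with h6 | h6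
        · rw [h6]; simp
        · exact Nat.log_lt_of_lt_pow (by omega) h4
      omega
    calc 6 * x ≤ 6 * (s * (2 * Nat.log 5 s + 1).choose 3) := Nat.mul_le_mul_left _ h2
      _ = s * (6 * (2 * Nat.log 5 s + 1).choose 3) := by ring
      _ ≤ s * (2 * Nat.log 5 s + 1) ^ 3 := Nat.mul_le_mul_left _ (hch _)
      _ ≤ s * (6 * Nat.log 5 m + 5) ^ 3 :=
        Nat.mul_le_mul_left _ (Nat.pow_le_pow_left (by omega) 3)

open Classical in
theorem mm_lower [Semiring R] [Nontrivial R] (hB : Fintype.card B = 5)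
    (enc : R → K) (dec : K → R) (ι : Fin r × B ↪ V) {Ω : Type*} [Fintype Ω]
    (p : Ω → ℝ) (hp : ∀ ω, 0 ≤ p ω) (hp1 : ∑ ω, p ω = 1) (Gt : Ω → Type*)
    [∀ ω, Fintype (Gt ω)] (N : ∀ ω, Net ((V × V) ⊕ (V × V)) K (V × V) (Gt ω))
    (hsym : ∀ ω, (N ω).MMBlocks ι) (ε : ℝ) (hε : 2 * ε ≤ 1)
    (herr : ∀ X : Matrix V V R, (∀ u v, X u v = 0 ∨ X u v = 1) →
      ∑ ω with ¬ (N ω).Multiplies enc dec X X, p ω ≤ ε) :
    (1 - 2 * ε) * ((r - 2 : ℕ) : ℝ) ^ 3 ≤ (∑ ω, p ω * (Fintype.card (Gt ω) : ℝ)) *
      ((6 * Nat.log 5 (Fintype.card V) + 5 : ℕ) : ℝ) ^ 3 := by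
  have hB5 : 5 ≤ Fintype.card B := by omega
  have hS : ∀ ω, (N ω).SymAll ((twoHom V).comp (actV ι)) ((pairHom V).comp (actV ι)) := by
    intro ω j a
    obtain ⟨φ, hφ⟩ := hsym ω j a a.2
    refine ⟨φ, ?_⟩
    rw [MonoidHom.comp_apply, MonoidHom.comp_apply, actV_single, twoHom_eq]
    exact hφ
  have hlbB : Nonempty (B ≃ ZMod 5) := by
    rw [← Fintype.card_eq, hB]
    rfl
  obtain ⟨lb⟩ := hlbB
  have hmain := random_cover (X := {X : Matrix V V R // ∀ u v, X u v = 0 ∨ X u v = 1}) p hp hp1
    (fun ω x => ¬ (N ω).Multiplies enc dec x.1 x.1)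
    ε (fun G => by convert herr G.1 G.2) r 3
    (fun ω => (N ω).covered ((twoHom V).comp (actV ι)) ((pairHom V).comp (actV ι)) 3) ?_
  swap
  · intro A hA
    obtain ⟨τ, hτ⟩ := exists_enum hA
    have hval : ∀ c, ∀ u v, (adjM ι τ lb c : Matrix V V R) u v = 0 ∨
        (adjM ι τ lb c : Matrix V V R) u v = 1 := by
      intro c u v
      unfold adjM
      by_cases h : Arc ι τ lb c u v
      · rw [if_pos h]; exact Or.inr rfl
      · rw [if_neg h]; exact Or.inl rfl
    refine ⟨⟨adjM ι τ lb (0, 0), hval _⟩, ⟨adjM ι τ lb (0, 1), hval _⟩, ?_⟩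
    intro ω hω
    let X : ZMod 5 × ZMod 5 → (V × V) ⊕ (V × V) → K := fun c =>
      mmInput enc (adjM ι τ lb c : Matrix V V R) (adjM ι τ lb c)
    have hent : ∀ t c c', Same t c c' → ∀ x y : V,
        ((actV ι (relt τ lb t 1) x, actV ι (relt τ lb t 1) y) : V × V) = (x, y) →
        (adjM ι τ lb c : Matrix V V R) x y = adjM ι τ lb c' x y := by
      intro t c c' hc x y h5
      have hc' : Same t c' c := ⟨fun h => (hc.1 h).symm, fun h => (hc.2 h).symm⟩
      have hiff : Arc ι τ lb c x y ↔ Arc ι τ lb c' x y := by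
        constructor
        · intro h2
          by_contra h3
          exact arc_moved hc h2 h3 h5
        · intro h2
          by_contra h3
          exact arc_moved hc' h2 h3 h5
      unfold adjM
      simp only [hiff]
    have hact : ∀ t a c, ∀ x y : V,
        (adjM ι τ lb (shift t a c) : Matrix V V R) (actV ι (relt τ lb t a) x)
          (actV ι (relt τ lb t a) y) = adjM ι τ lb c x y := by
      intro t a c x y
      unfold adjM
      simp only [arc_act c t a x y]
    have h1 := (N ω).core ((twoHom V).comp (actV ι)) ((pairHom V).comp (actV ι))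
      (fun t : Fin 3 => fac (alternatingGroup B) (τ t)) (fun t => inferInstance) X Same (by
        rintro t (⟨x, y⟩ | ⟨x, y⟩) c c' hc he
        · have h4 := he _ (relt_mem (τ := τ) (lb := lb) t 1)
          have h5 := Sum.inl_injective h4
          exact congrArg enc (hent t c c' hc x y h5)
        · have h4 := he _ (relt_mem (τ := τ) (lb := lb) t 1)
          have h5 := Sum.inr_injective h4
          exact congrArg enc (hent t c c' hc x y h5)) (by
        intro t u htu c c' h
        obtain ⟨a, ha⟩ := same_step htu h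
        refine ⟨relt τ lb t a, relt_mem t a, shift t a c, ?_, ha⟩
        rintro (⟨x, y⟩ | ⟨x, y⟩)
        · exact congrArg enc (hact t a c x y)
        · exact congrArg enc (hact t a c x y))
      (fun g => not_covered hA hω τ hτ g)
    -- the distinguished output
    let u : V := ι (τ 0, lb.symm 0)
    let v : V := ι (τ 2, lb.symm 0)
    have hfix : (N ω).Fixed ((twoHom V).comp (actV ι)) ((pairHom V).comp (actV ι))
        (fac (alternatingGroup B) (τ 1)) ((N ω).out (u, v)) := by
      apply fixed_out (hS ω)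
      rintro γ ⟨a, rfl⟩
      show ((actV ι (Pi.mulSingle (τ 1) a) u, actV ι (Pi.mulSingle (τ 1) a) v) : V × V) = (u, v)
      have h2 : ∀ s : Fin 3, s ≠ 1 → ∀ b, actV ι (Pi.mulSingle (τ 1) a) (ι (τ s, b)) = ι (τ s, b) := by
        intro s hs b
        rw [actV_mk, Pi.mulSingle_eq_of_ne (fun h => hs (τ.injective h))]
        rfl
      rw [h2 0 (by decide), h2 2 (by decide)]
    have h2 := h1 _ 1 hfix (0, 0) (0, 1) ⟨fun h => absurd h (by decide), fun h => absurd h (by decide)⟩
    by_contra hcon
    push Not at hcon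
    obtain ⟨h3, h4⟩ := hcon
    have h5 := h3 u v
    have h6 := h4 u v
    have h7 : (adjM ι τ lb (0, 0) * adjM ι τ lb (0, 0) : Matrix V V R) u v =
        (adjM ι τ lb (0, 1) * adjM ι τ lb (0, 1) : Matrix V V R) u v := by
      rw [← h5, ← h6]
      exact congrArg dec h2
    rw [adjM_mul, adjM_mul, Equiv.apply_symm_apply, if_pos (by simp), if_neg] at h7
    · exact one_ne_zero h7
    · simp only [add_zero, zero_add]
      decide
  · have hr : r ≤ Fintype.card V := by
      have h := Fintype.card_le_of_embedding ι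
      rw [Fintype.card_prod, Fintype.card_fin, hB] at h
      omega
    have hcov : ∀ ω, 6 * ((N ω).covered ((twoHom V).comp (actV ι))
        ((pairHom V).comp (actV ι)) 3).card ≤
        Fintype.card (Gt ω) * (6 * Nat.log 5 (Fintype.card V) + 5) ^ 3 := by
      intro ω
      exact cover_arith (by
        have h := Finset.card_filter_le (s := Finset.powersetCard 3 (Finset.univ : Finset (Fin r)))
          (p := fun A => ∃ g, A ⊆ (N ω).moved ((twoHom V).comp (actV ι))
            ((pairHom V).comp (actV ι)) g)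
        rw [Finset.card_powersetCard, Finset.card_univ, Fintype.card_fin] at h
        exact le_trans (le_of_eq (by unfold Net.covered; congr!)) h) hr
        ((hS ω).card_covered (alt_index hB5) (alt_perfect hB5) 3)
    have h6 : (((r - 2 : ℕ) : ℝ)) ^ 3 ≤ 6 * (r.choose 3 : ℝ) := by
      have := Nat.pow_sub_le_descFactorial r 3
      rw [Nat.descFactorial_eq_factorial_mul_choose] at this
      have e : r + 1 - 3 = r - 2 := by omega
      rw [e] at this
      exact_mod_cast this
    calc (1 - 2 * ε) * ((r - 2 : ℕ) : ℝ) ^ 3 ≤ (1 - 2 * ε) * (6 * (r.choose 3 : ℝ)) :=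
          mul_le_mul_of_nonneg_left h6 (by linarith)
      _ = 6 * ((1 - 2 * ε) * (r.choose 3 : ℝ)) := by ring
      _ ≤ 6 * ∑ ω, p ω * (((N ω).covered ((twoHom V).comp (actV ι))
        ((pairHom V).comp (actV ι)) 3).card : ℝ) := mul_le_mul_of_nonneg_left hmain (by norm_num)
      _ = ∑ ω, p ω * ((6 * ((N ω).covered ((twoHom V).comp (actV ι))
        ((pairHom V).comp (actV ι)) 3).card : ℕ) : ℝ) := by
          rw [Finset.mul_sum]
          apply Finset.sum_congr rfl
          intro ω _
          push_cast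
          ring
      _ ≤ ∑ ω, p ω * ((Fintype.card (Gt ω) * (6 * Nat.log 5 (Fintype.card V) + 5) ^ 3 : ℕ) : ℝ) := by
          apply Finset.sum_le_sum
          intro ω _
          apply mul_le_mul_of_nonneg_left _ (hp ω)
          exact_mod_cast hcov ω
      _ = _ := by
          rw [Finset.sum_mul]
          apply Finset.sum_congr rfl
          intro ω _
          push_cast
          ring

end lower

section upper

variable (V R : Type) [Fintype V] [DecidableEq V] [CommSemiring R]

/-- gates: the input gates, one product gate for every triple of indices, and one sum gate for every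
entry of the product -/
abbrev MG : Type := ((V × V) ⊕ (V × V)) ⊕ ((V × V × V) ⊕ (V × V))

/-- the trivial network -/
def mmNet : Net ((V × V) ⊕ (V × V)) R (V × V) (MG V) where
  inp g := match g with
    | Sum.inl e => some e
    | Sum.inr _ => none
  w h g := match h, g with
    | Sum.inl (Sum.inl c), Sum.inr (Sum.inl t) => if c = (t.1, t.2.1) then 1 else 0
    | Sum.inl (Sum.inr c), Sum.inr (Sum.inl t) => if c = (t.2.1, t.2.2) then 1 else 0
    | Sum.inr (Sum.inl t), Sum.inr (Sum.inr o) => if o = (t.1, t.2.2) then 1 else 0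
    | _, _ => 0
  F g m := match g with
    | Sum.inr (Sum.inl _) => m.prod
    | _ => m.sum
  out o := Sum.inr (Sum.inr o)
  rank g := match g with
    | Sum.inl _ => 0
    | Sum.inr (Sum.inl _) => 1
    | Sum.inr (Sum.inr _) => 2
  acyc h g := by
    rcases h with (c | c) | s | s <;> rcases g with (c' | c') | s' | s' <;> simp

theorem mmNet_val_triple (X Y : Matrix V V R) (i j k : V) :
    (mmNet V R).val (mmInput id X Y) (Sum.inr (Sum.inl (i, j, k))) = X i j * Y j k := by
  rw [Net.val_none _ _ (show (mmNet V R).inp (Sum.inr (Sum.inl (i, j, k))) = none from rfl)]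
  have hm : ∑ h, (mmNet V R).w h (Sum.inr (Sum.inl (i, j, k))) •
      ({(mmNet V R).val (mmInput id X Y) h} : Multiset R) =
      {X i j} + {Y j k} := by
    rw [Fintype.sum_sum_type, Fintype.sum_sum_type]
    have h2 : ∑ h : (V × V × V) ⊕ (V × V), (mmNet V R).w (Sum.inr h) (Sum.inr (Sum.inl (i, j, k))) •
        ({(mmNet V R).val (mmInput id X Y) (Sum.inr h)} : Multiset R) = 0 := by
      apply Finset.sum_eq_zero
      intro h _
      have : (mmNet V R).w (Sum.inr h) (Sum.inr (Sum.inl (i, j, k))) = 0 := by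
        rcases h with h | h <;> rfl
      rw [this, zero_smul]
    rw [h2, add_zero]
    have h3 : ∀ c : V × V, (mmNet V R).w (Sum.inl (Sum.inl c)) (Sum.inr (Sum.inl (i, j, k))) •
        ({(mmNet V R).val (mmInput id X Y) (Sum.inl (Sum.inl c))} : Multiset R) =
        (if c = (i, j) then {X c.1 c.2} else 0) := by
      intro c
      rw [Net.val_some _ _ (show (mmNet V R).inp (Sum.inl (Sum.inl c)) = some (Sum.inl c) from rfl)]
      show (if c = (i, j) then 1 else 0 : ℕ) • ({X c.1 c.2} : Multiset R) = _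
      simp only [ite_smul, one_smul, zero_smul]
    have h4 : ∀ c : V × V, (mmNet V R).w (Sum.inl (Sum.inr c)) (Sum.inr (Sum.inl (i, j, k))) •
        ({(mmNet V R).val (mmInput id X Y) (Sum.inl (Sum.inr c))} : Multiset R) =
        (if c = (j, k) then {Y c.1 c.2} else 0) := by
      intro c
      rw [Net.val_some _ _ (show (mmNet V R).inp (Sum.inl (Sum.inr c)) = some (Sum.inr c) from rfl)]
      show (if c = (j, k) then 1 else 0 : ℕ) • ({Y c.1 c.2} : Multiset R) = _
      simp only [ite_smul, one_smul, zero_smul]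
    simp only [h3, h4, Finset.sum_ite_eq', Finset.mem_univ, if_true]
  rw [hm]
  show Multiset.prod ({X i j} + {Y j k} : Multiset R) = _
  rw [Multiset.prod_add, Multiset.prod_singleton, Multiset.prod_singleton]

theorem mmNet_ok (X Y : Matrix V V R) : (mmNet V R).Multiplies id id X Y := by
  intro u v
  show (mmNet V R).val (mmInput id X Y) (Sum.inr (Sum.inr (u, v))) = _
  rw [Net.val_none _ _ (show (mmNet V R).inp (Sum.inr (Sum.inr (u, v))) = none from rfl)]
  show Multiset.sum (∑ h, (mmNet V R).w h (Sum.inr (Sum.inr (u, v))) • _) = _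
  rw [Multiset.sum_sum, Fintype.sum_sum_type, Fintype.sum_sum_type (α₁ := V × V × V)]
  have h1 : ∑ h : (V × V) ⊕ (V × V), Multiset.sum ((mmNet V R).w (Sum.inl h)
      (Sum.inr (Sum.inr (u, v))) • ({(mmNet V R).val (mmInput id X Y) (Sum.inl h)} : Multiset R)) = 0 := by
    apply Finset.sum_eq_zero
    intro h _
    have : (mmNet V R).w (Sum.inl h) (Sum.inr (Sum.inr (u, v))) = 0 := by
      rcases h with h | h <;> rfl
    rw [this, zero_smul, Multiset.sum_zero]
  have h2 : ∑ h : V × V, Multiset.sum ((mmNet V R).w (Sum.inr (Sum.inr h))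
      (Sum.inr (Sum.inr (u, v))) •
      ({(mmNet V R).val (mmInput id X Y) (Sum.inr (Sum.inr h))} : Multiset R)) = 0 := by
    apply Finset.sum_eq_zero
    intro h _
    have : (mmNet V R).w (Sum.inr (Sum.inr h)) (Sum.inr (Sum.inr (u, v))) = 0 := rfl
    rw [this, zero_smul, Multiset.sum_zero]
  rw [h1, h2, zero_add, add_zero, Fintype.sum_prod_type, Matrix.mul_apply]
  have h3 : ∀ i : V, ∑ jk : V × V, Multiset.sum ((mmNet V R).w (Sum.inr (Sum.inl (i, jk)))
      (Sum.inr (Sum.inr (u, v))) •
      ({(mmNet V R).val (mmInput id X Y) (Sum.inr (Sum.inl (i, jk)))} : Multiset R)) =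
      if u = i then ∑ j, X i j * Y j v else 0 := by
    intro i
    rw [Fintype.sum_prod_type]
    by_cases hu : u = i
    · rw [if_pos hu]
      apply Finset.sum_congr rfl
      intro j _
      have h4 : ∀ k : V, Multiset.sum ((mmNet V R).w (Sum.inr (Sum.inl (i, j, k)))
          (Sum.inr (Sum.inr (u, v))) •
          ({(mmNet V R).val (mmInput id X Y) (Sum.inr (Sum.inl (i, j, k)))} : Multiset R)) =
          if v = k then X i j * Y j k else 0 := by
        intro k
        rw [mmNet_val_triple]
        show Multiset.sum ((if ((u, v) : V × V) = (i, k) then 1 else 0 : ℕ) • _) = _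
        simp only [Prod.mk.injEq, hu, true_and, ite_smul, one_smul, zero_smul]
        split_ifs
        · rw [Multiset.sum_singleton]
        · rw [Multiset.sum_zero]
      simp only [h4, Finset.sum_ite_eq, Finset.mem_univ, if_true]
    · rw [if_neg hu]
      apply Finset.sum_eq_zero
      intro j _
      apply Finset.sum_eq_zero
      intro k _
      show Multiset.sum ((if ((u, v) : V × V) = (i, k) then 1 else 0 : ℕ) • _) = 0
      rw [if_neg (fun h => hu (congrArg Prod.fst h)), zero_smul, Multiset.sum_zero]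
  simp only [h3, Finset.sum_ite_eq, Finset.mem_univ, if_true]

/-- action on the gates -/
def mmPerm (π ρ σ : Equiv.Perm V) : Equiv.Perm (MG V) :=
  Equiv.sumCongr (Equiv.sumCongr (Equiv.prodCongr π ρ) (Equiv.prodCongr ρ σ))
    (Equiv.sumCongr (Equiv.prodCongr π (Equiv.prodCongr ρ σ)) (Equiv.prodCongr π σ))

theorem mmNet_sym (π ρ σ : Equiv.Perm V) : (mmNet V R).MMSym π ρ σ := by
  refine ⟨mmPerm V π ρ σ, ?_, ?_, ?_, ?_⟩
  · intro g
    rcases g with e | s | _ <;> rfl
  · intro h g
    rcases h with (⟨a, b⟩ | ⟨a, b⟩) | ⟨i, j, k⟩ | ⟨a, b⟩ <;>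
      rcases g with (⟨a', b'⟩ | ⟨a', b'⟩) | ⟨i', j', k'⟩ | ⟨a', b'⟩ <;> try rfl
    · show (if ((π a, ρ b) : V × V) = (π i', ρ j') then 1 else 0) =
        (if ((a, b) : V × V) = (i', j') then 1 else 0)
      simp only [Prod.mk.injEq, EmbeddingLike.apply_eq_iff_eq]
    · show (if ((ρ a, σ b) : V × V) = (ρ j', σ k') then 1 else 0) =
        (if ((a, b) : V × V) = (j', k') then 1 else 0)
      simp only [Prod.mk.injEq, EmbeddingLike.apply_eq_iff_eq]
    · show (if ((π a', σ b') : V × V) = (π i, σ k) then 1 else 0) =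
        (if ((a', b') : V × V) = (i, k) then 1 else 0)
      simp only [Prod.mk.injEq, EmbeddingLike.apply_eq_iff_eq]
  · intro g
    rcases g with e | s | _ <;> rfl
  · intro o
    rfl

theorem card_MG : Fintype.card (MG V) = Fintype.card V ^ 3 + 3 * Fintype.card V ^ 2 := by
  simp only [Fintype.card_sum, Fintype.card_prod]
  ring

end upper

end Pool.Agent.H870R2.LS
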