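import Pool.Agent.H870R2.LS.Defs2

set_option autoImplicit false
set_option linter.unusedSectionVars false

/-! Existence of matrices that spread errors, by counting. -/

namespace Pool.Agent.H870R2.LS

open Finset

/-- functions with at most `K` nonzero values -/
private def few (X : Type) [Fintype X] [DecidableEq X] (K : ℕ) : Finset (X → ZMod 5) :=
  univ.filter (fun e => (univ.filter (fun v => e v ≠ 0)).card ≤ K)

private theorem mem_few {X : Type} [Fintype X] [DecidableEq X] {K : ℕ} {e : X → ZMod 5} :
    e ∈ few X K ↔ (univ.filter (fun v => e v ≠ 0)).card ≤ K := by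
  simp [few]

private theorem card_few (X : Type) [Fintype X] [DecidableEq X] [Nonempty X] (K : ℕ) :
    (few X K).card ≤ (5 * Fintype.card X) ^ K := by
  classical
  induction K with
  | zero =>
    rw [pow_zero, Finset.card_le_one]
    have h0 : ∀ e ∈ few X 0, e = 0 := by
      intro e he
      rw [mem_few, Nat.le_zero, Finset.card_eq_zero] at he
      funext v
      by_contra hv
      have : v ∈ univ.filter (fun v => e v ≠ 0) := by simpa using hv
      rw [he] at this
      simp at this
    intro a ha b hb
    rw [h0 a ha, h0 b hb]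
  | succ K ih =>
    have hsub : few X (K + 1) ⊆ ((univ : Finset X) ×ˢ (univ : Finset (ZMod 5)) ×ˢ few X K).image
        (fun q => Function.update q.2.2 q.1 q.2.1) := by
      intro e he
      rw [mem_few] at he
      rw [Finset.mem_image]
      by_cases hx : ∃ x, e x ≠ 0
      · obtain ⟨x, hx⟩ := hx
        refine ⟨(x, e x, Function.update e x 0), ?_, ?_⟩
        · simp only [Finset.mem_product, Finset.mem_univ, true_and]
          rw [mem_few]
          have hlt : (univ.filter (fun v => Function.update e x 0 v ≠ 0)).card <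
              (univ.filter (fun v => e v ≠ 0)).card := by
            apply Finset.card_lt_card
            rw [Finset.ssubset_iff_of_subset]
            · refine ⟨x, by simpa using hx, by simp⟩
            · intro v hv
              simp only [Finset.mem_filter, Finset.mem_univ, true_and] at hv ⊢
              by_cases hvx : v = x
              · subst hvx; exact hx
              · rwa [Function.update_of_ne hvx] at hv
          omega
        · simp
      · push Not at hx
        obtain ⟨x⟩ := (inferInstance : Nonempty X)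
        refine ⟨(x, 0, 0), ?_, ?_⟩
        · simp only [Finset.mem_product, Finset.mem_univ, true_and]
          rw [mem_few]
          simp
        · funext v
          by_cases hvx : v = x
          · subst hvx; simp [hx]
          · simp [Function.update_of_ne hvx, hx]
    calc (few X (K + 1)).card ≤ _ := Finset.card_le_card hsub
      _ ≤ ((univ : Finset X) ×ˢ (univ : Finset (ZMod 5)) ×ˢ few X K).card := Finset.card_image_le
      _ = Fintype.card X * (5 * (few X K).card) := by
          rw [Finset.card_product, Finset.card_product, Finset.card_univ, Finset.card_univ,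
            ZMod.card]
      _ ≤ Fintype.card X * (5 * (5 * Fintype.card X) ^ K) := by gcongr
      _ = (5 * Fintype.card X) ^ (K + 1) := by ring

private theorem Yv_congr {n : ℕ} {M M' : ℕ → Fin (n + 1) → Fin (n + 1) → ZMod 5}
    (e : ℕ → Fin (n + 1) → Fin (n + 1) → ZMod 5) (i : ℕ) (h : ∀ j < i, M j = M' j) :
    Yv M e i = Yv M' e i := by
  induction i with
  | zero => rfl
  | succ i ih =>
    have h1 := ih (fun j hj => h j (by omega))
    have h2 := h i (by omega)
    funext c
    simp only [Yv]
    rw [h1, h2]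

/-- number of matrices with a bad next row, for one error pattern -/
private theorem card_bad_one {n : ℕ} (θ : ℕ) (c0 : Fin (n + 1)) (y : ZMod 5) (hy : y ≠ 0)
    (g : Fin (n + 1) → ZMod 5) (h : Fin (n + 1) → Fin (n + 1) → ZMod 5)
    (hc0 : ∀ c, h c0 c = y) :
    (univ.filter (fun X : Fin (n + 1) → Fin (n + 1) → ZMod 5 =>
      (univ.filter (fun c => g c + ∑ c', X c' c * h c' c ≠ 0)).card < θ)).card ≤
      (5 * (n + 1)) ^ θ * (5 ^ (n + 1)) ^ n := by
  classical
  have : Fact (Nat.Prime 5) := ⟨by norm_num⟩
  let Z : (Fin (n + 1) → Fin (n + 1) → ZMod 5) → Fin (n + 1) → ZMod 5 :=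
    fun X c => g c + ∑ c', X c' c * h c' c
  let Φ : (Fin (n + 1) → Fin (n + 1) → ZMod 5) → (Fin (n + 1) → Fin (n + 1) → ZMod 5) :=
    fun X => Function.update X c0 (Z X)
  have hinj : Function.Injective Φ := by
    intro X X' hXX
    have hother : ∀ c', c' ≠ c0 → X c' = X' c' := by
      intro c' hc'
      have := congrFun hXX c'
      simpa [Φ, Function.update_of_ne hc'] using this
    have hZ : Z X = Z X' := by
      have := congrFun hXX c0
      simpa [Φ] using this
    funext c'
    by_cases hc' : c' = c0
    · subst hc'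
      funext c
      have h1 := congrFun hZ c
      simp only [Z] at h1
      rw [← Finset.add_sum_erase univ _ (Finset.mem_univ c'),
        ← Finset.add_sum_erase univ (fun c'' => X' c'' c * h c'' c) (Finset.mem_univ c')] at h1
      have h2 : ∑ x ∈ univ.erase c', X x c * h x c = ∑ x ∈ univ.erase c', X' x c * h x c := by
        apply Finset.sum_congr rfl
        intro x hx
        rw [hother x (Finset.ne_of_mem_erase hx)]
      rw [h2] at h1
      have h3 : X c' c * h c' c = X' c' c * h c' c := by
        have := add_left_cancel h1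
        exact add_right_cancel this
      rw [hc0 c] at h3
      exact mul_right_cancel₀ hy h3
    · exact hother c' hc'
  have hsub : (univ.filter (fun X : Fin (n + 1) → Fin (n + 1) → ZMod 5 =>
      (univ.filter (fun c => g c + ∑ c', X c' c * h c' c ≠ 0)).card < θ)).image Φ ⊆
      Fintype.piFinset (fun c' : Fin (n + 1) => if c' = c0 then few (Fin (n + 1)) θ else univ) := by
    intro X' hX'
    rw [Finset.mem_image] at hX'
    obtain ⟨X, hX, rfl⟩ := hX'
    simp only [Finset.mem_filter, Finset.mem_univ, true_and] at hX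
    rw [Fintype.mem_piFinset]
    intro c'
    by_cases hc' : c' = c0
    · subst hc'
      simp only [if_true]
      rw [mem_few]
      simp only [Φ, Function.update_self, Z]
      exact hX.le
    · simp [hc']
  calc _ = ((univ.filter (fun X : Fin (n + 1) → Fin (n + 1) → ZMod 5 =>
      (univ.filter (fun c => g c + ∑ c', X c' c * h c' c ≠ 0)).card < θ)).image Φ).card :=
        (Finset.card_image_of_injective _ hinj).symm
    _ ≤ _ := Finset.card_le_card hsub
    _ = ∏ c' : Fin (n + 1), (if c' = c0 then few (Fin (n + 1)) θ else univ).card :=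
        Fintype.card_piFinset _
    _ = (few (Fin (n + 1)) θ).card * ∏ c' ∈ univ.erase c0,
          (if c' = c0 then few (Fin (n + 1)) θ else univ).card := by
        rw [← Finset.mul_prod_erase univ _ (Finset.mem_univ c0)]
        simp
    _ = (few (Fin (n + 1)) θ).card * ∏ c' ∈ (univ : Finset (Fin (n + 1))).erase c0,
          5 ^ (n + 1) := by
        congr 1
        apply Finset.prod_congr rfl
        intro c' hc'
        rw [if_neg (Finset.ne_of_mem_erase hc'), Finset.card_univ]
        simp [ZMod.card]
    _ = (few (Fin (n + 1)) θ).card * (5 ^ (n + 1)) ^ n := by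
        rw [Finset.prod_const, Finset.card_erase_of_mem (Finset.mem_univ _), Finset.card_univ,
          Fintype.card_fin, Nat.add_sub_cancel]
    _ ≤ (5 * (n + 1)) ^ θ * (5 ^ (n + 1)) ^ n := by
        have := card_few (Fin (n + 1)) θ
        rw [Fintype.card_fin] at this
        gcongr

/-- one good matrix -/
private theorem exists_good (H n K θ s : ℕ) (hH : 0 < H)
    (hs : 5 * (H * (n + 1) * (n + 1)) ≤ 5 ^ s) (hn : s * (K + θ) < n + 1) (i : ℕ)
    (M : ℕ → Fin (n + 1) → Fin (n + 1) → ZMod 5) :
    ∃ X : Fin (n + 1) → Fin (n + 1) → ZMod 5, ∀ e ∈ few (Pla H n) K, ∀ c0,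
      Yv M (ext e) i c0 ≠ 0 → (∀ b, b ≠ Fin.last n → ext e i c0 b = 0) →
      θ ≤ (univ.filter (fun c => ext e (i + 1) c (Fin.last n) +
        ∑ c', X c' c * (Yv M (ext e) i c' +
          ∑ b ∈ univ.filter (fun b => c ≤ b ∧ b ≠ Fin.last n), ext e i c' b) ≠ 0)).card := by
  classical
  have : Nonempty (Pla H n) := ⟨(⟨0, hH⟩, 0, 0)⟩
  by_contra hcon
  push Not at hcon
  let B : (Pla H n → ZMod 5) → Finset (Fin (n + 1) → Fin (n + 1) → ZMod 5) := fun e =>
    if ∃ c0, Yv M (ext e) i c0 ≠ 0 ∧ (∀ b, b ≠ Fin.last n → ext e i c0 b = 0) then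
      univ.filter (fun X => (univ.filter (fun c => ext e (i + 1) c (Fin.last n) +
        ∑ c', X c' c * (Yv M (ext e) i c' +
          ∑ b ∈ univ.filter (fun b => c ≤ b ∧ b ≠ Fin.last n), ext e i c' b) ≠ 0)).card < θ)
    else ∅
  have hB : ∀ e, (B e).card ≤ (5 * (n + 1)) ^ θ * (5 ^ (n + 1)) ^ n := by
    intro e
    by_cases hc : ∃ c0, Yv M (ext e) i c0 ≠ 0 ∧ (∀ b, b ≠ Fin.last n → ext e i c0 b = 0)
    · simp only [B, if_pos hc]
      obtain ⟨c0, hc1, hc2⟩ := hc
      refine card_bad_one θ c0 (Yv M (ext e) i c0) hc1 (fun c => ext e (i + 1) c (Fin.last n))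
        (fun c' c => Yv M (ext e) i c' +
          ∑ b ∈ univ.filter (fun b => c ≤ b ∧ b ≠ Fin.last n), ext e i c' b) ?_
      intro c
      have : ∑ b ∈ univ.filter (fun b => c ≤ b ∧ b ≠ Fin.last n), ext e i c0 b = 0 := by
        apply Finset.sum_eq_zero
        intro b hb
        exact hc2 b (Finset.mem_filter.mp hb).2.2
      simp only [this, add_zero]
    · simp only [B, if_neg hc]
      simp
  have hcover : (univ : Finset (Fin (n + 1) → Fin (n + 1) → ZMod 5)) ⊆
      (few (Pla H n) K).biUnion B := by
    intro X _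
    obtain ⟨e, he, c0, h1, h2, h3⟩ := hcon X
    rw [Finset.mem_biUnion]
    refine ⟨e, he, ?_⟩
    have hc : ∃ c0, Yv M (ext e) i c0 ≠ 0 ∧ (∀ b, b ≠ Fin.last n → ext e i c0 b = 0) :=
      ⟨c0, h1, h2⟩
    simp only [B, if_pos hc, Finset.mem_filter, Finset.mem_univ, true_and]
    exact h3
  have hcard := (Finset.card_le_card hcover).trans (Finset.card_biUnion_le_card_mul _ _ _
    (fun e _ => hB e))
  have hfew := card_few (Pla H n) K
  have hcardP : Fintype.card (Pla H n) = H * ((n + 1) * (n + 1)) := by simp [Pla]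
  rw [hcardP] at hfew
  have hcardM : (univ : Finset (Fin (n + 1) → Fin (n + 1) → ZMod 5)).card =
      5 ^ ((n + 1) * (n + 1)) := by
    rw [Finset.card_univ]
    simp [ZMod.card, pow_mul]
  rw [hcardM] at hcard
  have h5w : 5 * (n + 1) ≤ 5 ^ s := by
    refine le_trans ?_ hs
    have : n + 1 ≤ H * (n + 1) * (n + 1) := by
      have h1 : 1 ≤ H * (n + 1) := Nat.mul_pos hH (Nat.succ_pos n)
      calc n + 1 = 1 * (n + 1) := (one_mul _).symm
        _ ≤ H * (n + 1) * (n + 1) := Nat.mul_le_mul_right _ h1
    omega
  have h5P : 5 * (H * ((n + 1) * (n + 1))) ≤ 5 ^ s := by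
    rw [← mul_assoc H]; exact hs
  have hbound : (few (Pla H n) K).card * ((5 * (n + 1)) ^ θ * (5 ^ (n + 1)) ^ n) ≤
      5 ^ (s * (K + θ) + (n + 1) * n) := by
    calc (few (Pla H n) K).card * ((5 * (n + 1)) ^ θ * (5 ^ (n + 1)) ^ n)
        ≤ (5 ^ s) ^ K * ((5 ^ s) ^ θ * (5 ^ (n + 1)) ^ n) := by
          gcongr
          exact hfew.trans (Nat.pow_le_pow_left h5P K)
      _ = 5 ^ (s * (K + θ) + (n + 1) * n) := by
          rw [← pow_mul, ← pow_mul, ← pow_mul, ← pow_add, ← pow_add]
          congr 1
          ring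
  have hlt : 5 ^ (s * (K + θ) + (n + 1) * n) < 5 ^ ((n + 1) * (n + 1)) := by
    apply Nat.pow_lt_pow_right (by norm_num)
    have : (n + 1) * (n + 1) = (n + 1) + (n + 1) * n := by ring
    omega
  omega

/-- MAT -/
theorem exists_spread (H n K θ s : ℕ) (hH : 0 < H)
    (hs : 5 * (H * (n + 1) * (n + 1)) ≤ 5 ^ s) (hn : s * (K + θ) < n + 1) :
    ∃ M, Spread H n K θ M := by
  classical
  suffices h : ∀ l : ℕ, ∃ M : ℕ → Fin (n + 1) → Fin (n + 1) → ZMod 5,
      ∀ e ∈ few (Pla H n) K, ∀ i < l, ∀ c0, Yv M (ext e) i c0 ≠ 0 →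
        (∀ b, b ≠ Fin.last n → ext e i c0 b = 0) →
        θ ≤ (univ.filter (fun c => Yv M (ext e) (i + 1) c ≠ 0)).card by
    obtain ⟨M, hM⟩ := h H
    refine ⟨M, ?_⟩
    intro e he i hi c0 h1 h2
    exact hM e (mem_few.mpr he) i (by omega) c0 h1 h2
  intro l
  induction l with
  | zero => exact ⟨fun _ _ _ => 0, fun e _ i hi => absurd hi (by omega)⟩
  | succ l ih =>
    obtain ⟨M, hM⟩ := ih
    obtain ⟨X, hX⟩ := exists_good H n K θ s hH hs hn l M
    refine ⟨Function.update M l X, ?_⟩
    intro e he i hi c0 h1 h2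
    have hupd : ∀ j < l, Function.update M l X j = M j := fun j hj =>
      Function.update_of_ne (by omega) _ _
    by_cases hil : i = l
    · subst hil
      have hY : Yv (Function.update M i X) (ext e) i = Yv M (ext e) i :=
        Yv_congr _ _ hupd
      rw [hY] at h1
      have := hX e he c0 h1 h2
      simp only [Yv, hY, Function.update_self]
      exact this
    · have hi' : i < l := by omega
      have hY : Yv (Function.update M l X) (ext e) i = Yv M (ext e) i :=
        Yv_congr _ _ (fun j hj => hupd j (by omega))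
      have hY1 : Yv (Function.update M l X) (ext e) (i + 1) = Yv M (ext e) (i + 1) :=
        Yv_congr _ _ (fun j hj => hupd j (by omega))
      rw [hY] at h1
      rw [hY1]
      exact hM e he i hi' c0 h1 h2

end Pool.Agent.H870R2.LS
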