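import Pool.Agent.H870R2.LS.Defs2

set_option autoImplicit false
set_option linter.unusedSectionVars false

/-! Task NET: every switching network is a circuit with one gate. -/

namespace Pool.Agent.H870R2.LS

open Finset

theorem net_walks_pos {Q : Type*} [Fintype Q] (A : Q → Q → ℕ) (a b : Q) :
    (∃ k, 0 < walks A k a b) ↔ Relation.ReflTransGen (fun c d => 0 < A c d) a b := by
  classical
  constructor
  · rintro ⟨k, hk⟩
    induction k generalizing a with
    | zero =>
      unfold walks at hk
      by_cases h : a = b
      · subst h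
        exact Relation.ReflTransGen.refl
      · rw [if_neg h] at hk
        exact absurd hk (lt_irrefl 0)
    | succ k ih =>
      unfold walks at hk
      obtain ⟨c, _, hc⟩ := Finset.sum_pos_iff.1 hk
      have h1 : 0 < A a c := Nat.pos_of_mul_pos_right hc
      have h2 : 0 < walks A k c b := Nat.pos_of_mul_pos_left hc
      exact Relation.ReflTransGen.head h1 (ih c h2)
  · intro h
    induction h using Relation.ReflTransGen.head_induction_on with
    | refl =>
      refine ⟨0, ?_⟩
      unfold walks
      rw [if_pos rfl]
      exact Nat.one_pos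
    | head h1 _ ih =>
      obtain ⟨k, hk⟩ := ih
      refine ⟨k + 1, ?_⟩
      unfold walks
      exact Finset.sum_pos_iff.2 ⟨_, Finset.mem_univ _, Nat.mul_pos h1 hk⟩

open Classical in
/-- the circuit with one gate -/
noncomputable def netCkt {V Q : Type} (N : SNet (Inp V) Q) : Ckt (Inp V) Q where
  wire := fun g a b s =>
    if g = N.src ∧ ∃ s0 ∈ N.arc a b, s = Option.map Sum.inl s0 then 1 else 0
  ends := fun g a b => if g = N.src ∧ a = N.src ∧ b = N.tgt then 1 else 0
  F := fun g S => decide (g = N.src ∧ ∃ k, 0 < S k)
  out := N.src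
  rank := fun _ => 0
  acyc := by
    intro g a b h hw
    exfalso
    by_cases hc : g = N.src ∧ ∃ s0 ∈ N.arc a b, some (Sum.inr h) = Option.map Sum.inl s0
    · obtain ⟨_, s0, _, hs⟩ := hc
      rcases s0 with _ | s0
      · simp at hs
      · simp at hs
    · rw [if_neg hc] at hw
      exact absurd hw (lt_irrefl 0)

theorem net_adj {V Q : Type} [Fintype V] [Fintype Q] (N : SNet (Inp V) Q) (x : Set (Inp V))
    (v : Q → Bool) (a b : Q) : 0 < (netCkt N).adj x v N.src a b ↔ N.Open x a b := by
  classical
  unfold Ckt.adj SNet.Open
  rw [Finset.sum_pos_iff]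
  constructor
  · rintro ⟨s, _, hs⟩
    have h1 : 0 < (netCkt N).wire N.src a b s := Nat.pos_of_mul_pos_right hs
    have h2 : 0 < (srcVal x v s).toNat := Nat.pos_of_mul_pos_left hs
    have h3 : ∃ s0 ∈ N.arc a b, s = Option.map Sum.inl s0 := by
      by_contra hc
      simp only [netCkt] at h1
      rw [if_neg (fun h => hc h.2)] at h1
      exact absurd h1 (lt_irrefl 0)
    obtain ⟨s0, hs0, rfl⟩ := h3
    rcases s0 with _ | ⟨i, c⟩
    · exact Or.inl hs0
    · right
      refine ⟨i, c, hs0, ?_⟩
      by_contra hc
      have : srcVal x v (Option.map Sum.inl (some (i, c)) : Src (Inp V) Q) = false := by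
        simp only [Option.map_some, srcVal]
        exact decide_eq_false hc
      rw [this] at h2
      exact absurd h2 (lt_irrefl 0)
  · intro h
    rcases h with h | ⟨i, c, h, hx⟩
    · refine ⟨none, Finset.mem_univ _, ?_⟩
      have h1 : (netCkt N).wire N.src a b none = 1 := by
        simp only [netCkt]
        exact if_pos ⟨trivial, none, h, rfl⟩
      rw [h1]
      simp [srcVal]
    · refine ⟨some (Sum.inl (i, c)), Finset.mem_univ _, ?_⟩
      have h1 : (netCkt N).wire N.src a b (some (Sum.inl (i, c))) = 1 := by
        simp only [netCkt]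
        exact if_pos ⟨trivial, some (i, c), h, rfl⟩
      have h2 : srcVal x v (some (Sum.inl (i, c)) : Src (Inp V) Q) = true := by
        simp only [srcVal]
        exact decide_eq_true hx
      rw [h1, h2]
      simp

theorem net_cnt {V Q : Type} [Fintype V] [Fintype Q] (N : SNet (Inp V) Q) (x : Set (Inp V))
    (v : Q → Bool) (k : ℕ) :
    (netCkt N).cnt x v N.src k = walks ((netCkt N).adj x v N.src) k N.src N.tgt := by
  classical
  unfold Ckt.cnt
  rw [Finset.sum_eq_single (N.src, N.tgt)]
  · simp [netCkt]
  · rintro ⟨a, b⟩ _ hne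
    have h0 : (netCkt N).ends N.src a b = 0 := by
      simp only [netCkt]
      apply if_neg
      rintro ⟨_, h1, h2⟩
      exact hne (by rw [h1, h2])
    rw [h0, zero_mul]
  · intro h
    exact absurd (Finset.mem_univ _) h

theorem net_ckt {V Q : Type} [Fintype V] [Fintype Q] (N : SNet (Inp V) Q) :
    ∃ C : Ckt (Inp V) Q, C.out = N.src ∧ C.rank C.out = 0 ∧
      (∀ x, C.val x C.out = true ↔ N.Acc x) ∧
      ∀ (p : Equiv.Perm (Inp V)) (φ : Equiv.Perm Q), N.IsAut p φ → C.IsAut p φ := by
  classical
  refine ⟨netCkt N, rfl, rfl, ?_, ?_⟩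
  · intro x
    have h1 : (netCkt N).out = N.src := rfl
    rw [h1, Ckt.val_eq]
    have h2 : ∀ S : ℕ → ℕ, (netCkt N).F N.src S = true ↔ ∃ k, 0 < S k := by
      intro S
      simp [netCkt]
    rw [h2]
    simp only [net_cnt]
    rw [net_walks_pos]
    unfold SNet.Acc
    have h3 : (fun c d => 0 < (netCkt N).adj x ((netCkt N).val x) N.src c d) = N.Open x := by
      funext c d
      exact propext (net_adj N x _ c d)
    rw [h3]
  · intro p φ h
    have hsrc : ∀ g, φ g = N.src ↔ g = N.src := by
      intro g
      constructor
      · intro hg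
        apply φ.injective
        rw [hg, h.src]
      · intro hg
        rw [hg, h.src]
    have htgt : ∀ g, φ g = N.tgt ↔ g = N.tgt := by
      intro g
      constructor
      · intro hg
        apply φ.injective
        rw [hg, h.tgt]
      · intro hg
        rw [hg, h.tgt]
    refine ⟨?_, ?_, ?_, ?_⟩
    · intro g a b s
      simp only [netCkt]
      congr 1
      apply propext
      rw [hsrc g]
      apply and_congr_right
      intro _
      have hkey : ∀ (s0 : Option (Inp V × Bool)),
          srcMap p φ (Option.map Sum.inl s0 : Src (Inp V) Q)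
            = Option.map Sum.inl (Option.map (Prod.map p id) s0) := by
        intro s0
        rcases s0 with _ | s0
        · rfl
        · rfl
      constructor
      · rintro ⟨s1, hs1, he⟩
        obtain ⟨s0, rfl⟩ : ∃ s0, s1 = Option.map (Prod.map p id) s0 := by
          refine ⟨Option.map (Prod.map p.symm id) s1, ?_⟩
          rcases s1 with _ | ⟨i, c⟩
          · rfl
          · simp
        refine ⟨s0, (h.arc a b s0).1 hs1, ?_⟩
        rw [← hkey] at he
        have hinj : Function.Injective (srcMap p φ : Src (Inp V) Q → Src (Inp V) Q) := by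
          unfold srcMap
          apply Option.map_injective
          apply Function.Injective.sumMap
          · exact p.injective.prodMap Function.injective_id
          · exact φ.injective
        exact hinj he
      · rintro ⟨s0, hs0, rfl⟩
        exact ⟨_, (h.arc a b s0).2 hs0, hkey s0⟩
    · intro g a b
      simp only [netCkt]
      rw [hsrc g, hsrc a, htgt b]
    · intro g
      funext S
      simp only [netCkt]
      rw [hsrc g]
    · exact h.src

end Pool.Agent.H870R2.LS
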