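import Pool.Agent.H870R2.LS.Game
import Pool.Agent.H870R2.LS.Mat
import Pool.Agent.H870R2.LS.LieL
import Pool.Agent.H870R2.LS.Inst
import Pool.Agent.H870R2.LS.SymN
import Pool.Agent.H870R2.LS.NetC
import Pool.Agent.H545R2.Support

set_option autoImplicit false
set_option linter.unusedSectionVars false

/-! Locally symmetric circuits for path systems are large. -/

namespace Pool.Agent.H870R2.LS

open Finset Pool.Agent.H545R2

/-- rotation of a block -/
def rotP (a : Fin 5) : Equiv.Perm (Fin 5) := Equiv.addRight a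

theorem rotP_sign : ∀ a, Equiv.Perm.sign (rotP a) = 1 := by
  unfold rotP
  decide

/-- rotation of a block as an even permutation -/
def rot (a : ZMod 5) : alternatingGroup (Fin 5) := ⟨rotP a, rotP_sign a⟩

theorem rot_apply (a c : ZMod 5) : ((rot a : alternatingGroup (Fin 5)) : Equiv.Perm (Fin 5)) c =
    (c + a : ZMod 5) := rfl

theorem rot_zero : rot 0 = 1 := by
  apply Subtype.ext
  ext1 c
  show (c + 0 : Fin 5) = c
  rw [add_zero]

theorem rot_add (a b : ZMod 5) : rot (a + b) = rot a * rot b := by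
  have h : ∀ c : ZMod 5, c + (a + b) = (c + b) + a := fun c => by ring
  apply Subtype.ext
  ext1 c
  exact h c

section setup

variable {V Q : Type} {r : ℕ} (blk : Fin r → (Fin 5 ↪ V))
  (hd : Pairwise fun i j => Disjoint (Set.range (blk i)) (Set.range (blk j)))

/-- the even permutations given by a translation -/
noncomputable def gam {W : Type} (ei : W ↪ Fin r) (δ : W → ZMod 5) :
    Fin r → alternatingGroup (Fin 5) :=
  Function.extend ei (fun v => rot (δ v)) 1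

theorem gam_apply {W : Type} (ei : W ↪ Fin r) (δ : W → ZMod 5) (v : W) :
    gam ei δ (ei v) = rot (δ v) := ei.injective.extend_apply _ _ v

theorem gam_notMem {W : Type} (ei : W ↪ Fin r) (δ : W → ZMod 5) (j : Fin r)
    (h : ¬ ∃ v, ei v = j) : gam ei δ j = 1 := Function.extend_apply' _ _ j h

theorem gam_add {W : Type} (ei : W ↪ Fin r) (δ δ' : W → ZMod 5) :
    gam ei (δ + δ') = gam ei δ * gam ei δ' := by
  ext1 j
  rw [Pi.mul_apply]
  by_cases hj : ∃ v, ei v = j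
  · obtain ⟨v, rfl⟩ := hj
    rw [gam_apply, gam_apply, gam_apply, Pi.add_apply, rot_add]
  · rw [gam_notMem ei _ j hj, gam_notMem ei _ j hj, gam_notMem ei _ j hj, one_mul]

theorem sym_all (C : Ckt (Inp V) Q) (hsym : ∀ i, C.SymOn (blk i))
    (γ : Fin r → alternatingGroup (Fin 5)) :
    ∃ φ, C.IsAut (inpPerm (bp (blkE blk hd) γ)) φ := by
  classical
  have hone : inpPerm (bp (blkE blk hd) (1 : Fin r → alternatingGroup (Fin 5))) = 1 := by
    have h1 : inpPerm (bp (blkE blk hd) (1 : Fin r → alternatingGroup (Fin 5))) *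
        inpPerm (bp (blkE blk hd) (1 : Fin r → alternatingGroup (Fin 5))) =
        inpPerm (bp (blkE blk hd) (1 : Fin r → alternatingGroup (Fin 5))) := by
      rw [← SN.inpPerm_mul, ← SN.bp_mul, mul_one]
    exact mul_eq_left.1 h1
  let H : Subgroup (Fin r → alternatingGroup (Fin 5)) :=
    { carrier := {γ | ∃ φ, C.IsAut (inpPerm (bp (blkE blk hd) γ)) φ}
      one_mem' := ⟨1, by rw [hone]; exact Ckt.IsAut.one⟩
      mul_mem' := by
        rintro a b ⟨φ, h1⟩ ⟨ψ, h3⟩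
        exact ⟨φ * ψ, by rw [SN.bp_mul, SN.inpPerm_mul]; exact h1.mul h3⟩
      inv_mem' := by
        rintro a ⟨φ, h1⟩
        refine ⟨φ⁻¹, ?_⟩
        have h2 : inpPerm (bp (blkE blk hd) a⁻¹) = (inpPerm (bp (blkE blk hd) a))⁻¹ := by
          rw [eq_inv_iff_mul_eq_one, ← SN.inpPerm_mul, ← SN.bp_mul, inv_mul_cancel, hone]
        rw [h2]
        exact h1.inv }
  have hmem : γ ∈ H := by
    apply Subgroup.pi_mem_of_mulSingle_mem
    intro i
    apply hsym i (γ i) (γ i).2 (bp (blkE blk hd) (Pi.mulSingle i (γ i)))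
    · intro c
      have := SN.bp_apply (blkE blk hd) (Pi.mulSingle i (γ i)) i c
      rw [Pi.mulSingle_eq_same] at this
      exact this
    · intro v hv
      exact SN.blkE_range blk hd i (γ i) v hv
  exact hmem

/-- The support of a tuple of gates. -/
theorem supp_tuple [Fintype Q] (C : Ckt (Inp V) Q) (hsym : ∀ i, C.SymOn (blk i)) {q k : ℕ}
    (hcard : Fintype.card Q < 5 ^ k) (hk : 1 ≤ q) (T : Fin q → Q) {W : Type} [Fintype W]
    [DecidableEq W] (ei : W ↪ Fin r) :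
    ∃ S : Finset W, S.card < 2 * (q * k) ∧ ∀ δ : W → ZMod 5, (∀ v ∈ S, δ v = 0) →
      ∃ φ, C.IsAut (inpPerm (bp (blkE blk hd) (gam ei δ))) φ ∧ ∀ j, φ (T j) = T j := by
  classical
  have hone : inpPerm (bp (blkE blk hd) (1 : Fin r → alternatingGroup (Fin 5))) = 1 := by
    have h1 : inpPerm (bp (blkE blk hd) (1 : Fin r → alternatingGroup (Fin 5))) *
        inpPerm (bp (blkE blk hd) (1 : Fin r → alternatingGroup (Fin 5))) =
        inpPerm (bp (blkE blk hd) (1 : Fin r → alternatingGroup (Fin 5))) := by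
      rw [← SN.inpPerm_mul, ← SN.bp_mul, mul_one]
    exact mul_eq_left.1 h1
  have hinv : ∀ a, inpPerm (bp (blkE blk hd) a⁻¹) = (inpPerm (bp (blkE blk hd) a))⁻¹ := by
    intro a
    rw [eq_inv_iff_mul_eq_one, ← SN.inpPerm_mul, ← SN.bp_mul, inv_mul_cancel, hone]
  let H : Subgroup (Fin r → alternatingGroup (Fin 5)) :=
    { carrier := {γ | ∃ φ, C.IsAut (inpPerm (bp (blkE blk hd) γ)) φ ∧ ∀ j, φ (T j) = T j}
      one_mem' := ⟨1, by rw [hone]; exact Ckt.IsAut.one, fun _ => rfl⟩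
      mul_mem' := by
        rintro a b ⟨φ, h1, h2⟩ ⟨ψ, h3, h4⟩
        refine ⟨φ * ψ, by rw [SN.bp_mul, SN.inpPerm_mul]; exact h1.mul h3, ?_⟩
        intro j
        rw [Equiv.Perm.mul_apply, h4, h2]
      inv_mem' := by
        rintro a ⟨φ, h1, h2⟩
        refine ⟨φ⁻¹, by rw [hinv]; exact h1.inv, ?_⟩
        intro j
        rw [Equiv.Perm.inv_eq_iff_eq]
        exact (h2 j).symm }
  choose φ hφ using sym_all blk hd C hsym
  have hc : Fintype.card (Fin q → Q) < 5 ^ (q * k) := by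
    rw [Fintype.card_fun, Fintype.card_fin, mul_comm, pow_mul]
    exact Nat.pow_lt_pow_left hcard (by omega)
  obtain ⟨S, hS1, hS2⟩ := support_A5 H (fun γ => (fun j => φ γ (T j) : Fin q → Q)) (by
    intro a b hab
    refine ⟨(φ a)⁻¹ * φ b, ?_, ?_⟩
    · rw [SN.bp_mul, SN.inpPerm_mul, hinv]
      exact (hφ a).inv.mul (hφ b)
    · intro j
      have h1 : φ a (T j) = φ b (T j) := congrFun hab j
      rw [Equiv.Perm.mul_apply, ← h1, p_inv_apply]) (q * k) hc
  refine ⟨Finset.univ.filter (fun v => ei v ∈ S), ?_, ?_⟩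
  · refine lt_of_le_of_lt ?_ hS1
    apply Finset.card_le_card_of_injOn ei
    · intro b hb
      simpa using hb
    · exact ei.injective.injOn
  · intro δ hδ
    have hmem : gam ei δ ∈ H := by
      apply Subgroup.pi_mem_of_mulSingle_mem
      intro j
      by_cases hj : j ∈ S
      · have : gam ei δ j = 1 := by
          by_cases hjb : ∃ b, ei b = j
          · obtain ⟨b, rfl⟩ := hjb
            rw [gam_apply, hδ b (by simpa using hj), rot_zero]
          · exact gam_notMem ei δ j hjb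
        rw [this, Pi.mulSingle_one]
        exact H.one_mem
      · exact hS2 j hj _
    exact hmem

/-- The places whose block contains `u`. -/
noncomputable def plc {W : Type} [Fintype W] (ei : W ↪ Fin r) (u : V) : Finset W :=
  haveI := Classical.decPred (fun v => u ∈ Set.range (blk (ei v)))
  Finset.univ.filter (fun v => u ∈ Set.range (blk (ei v)))

theorem mem_plc {W : Type} [Fintype W] (ei : W ↪ Fin r) (u : V) (v : W) :
    v ∈ plc blk ei u ↔ u ∈ Set.range (blk (ei v)) := by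
  unfold plc
  simp

include hd in
theorem card_plc {W : Type} [Fintype W] (ei : W ↪ Fin r) (u : V) : (plc blk ei u).card ≤ 1 := by
  rw [Finset.card_le_one]
  intro a ha b hb
  rw [mem_plc] at ha hb
  by_contra hne
  have : ei a ≠ ei b := fun h => hne (ei.injective h)
  exact Set.disjoint_left.1 (hd this) ha hb

theorem bp_plc {W : Type} [Fintype W] (ei : W ↪ Fin r) (u : V) (δ : W → ZMod 5)
    (h : ∀ v ∈ plc blk ei u, δ v = 0) : bp (blkE blk hd) (gam ei δ) u = u := by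
  by_cases hu : u ∈ Set.range (blkE blk hd)
  · obtain ⟨⟨j, c⟩, rfl⟩ := hu
    rw [SN.bp_apply]
    by_cases hj : ∃ v, ei v = j
    · obtain ⟨v, rfl⟩ := hj
      rw [gam_apply, h v ((mem_plc blk ei _ v).2 ⟨c, rfl⟩), rot_zero]
      rfl
    · rw [gam_notMem ei δ j hj]
      rfl
  · exact SN.bp_notMem _ _ hu

/-- The places that a variable touches. -/
noncomputable def plcI {W : Type} [Fintype W] [DecidableEq W] (ei : W ↪ Fin r) :
    Inp V → Finset W
  | Sum.inl u => plc blk ei u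
  | Sum.inr (a, b, c) => plc blk ei a ∪ plc blk ei b ∪ plc blk ei c

include hd in
theorem card_plcI {W : Type} [Fintype W] [DecidableEq W] (ei : W ↪ Fin r) (i : Inp V) :
    (plcI blk ei i).card ≤ 3 := by
  rcases i with u | ⟨a, b, c⟩
  · exact (card_plc blk hd ei u).trans (by norm_num)
  · have h1 := card_plc blk hd ei a
    have h2 := card_plc blk hd ei b
    have h3 := card_plc blk hd ei c
    have h4 := Finset.card_union_le (plc blk ei a) (plc blk ei b)
    have h5 := Finset.card_union_le (plc blk ei a ∪ plc blk ei b) (plc blk ei c)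
    show (plc blk ei a ∪ plc blk ei b ∪ plc blk ei c).card ≤ 3
    omega

theorem bp_plcI {W : Type} [Fintype W] [DecidableEq W] (ei : W ↪ Fin r) (i : Inp V)
    (δ : W → ZMod 5) (h : ∀ v ∈ plcI blk ei i, δ v = 0) :
    inpPerm (bp (blkE blk hd) (gam ei δ)) i = i := by
  rcases i with u | ⟨a, b, c⟩
  · show Sum.inl (bp (blkE blk hd) (gam ei δ) u) = _
    rw [bp_plc blk hd ei u δ h]
  · show Sum.inr (bp (blkE blk hd) (gam ei δ) a, bp (blkE blk hd) (gam ei δ) b,
      bp (blkE blk hd) (gam ei δ) c) = _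
    rw [bp_plc blk hd ei a δ fun v hv => h v (Finset.mem_union_left _ (Finset.mem_union_left _ hv)),
      bp_plc blk hd ei b δ fun v hv => h v (Finset.mem_union_left _ (Finset.mem_union_right _ hv)),
      bp_plc blk hd ei c δ fun v hv => h v (Finset.mem_union_right _ hv)]

end setup

theorem comb_sub {H n : ℕ} (M : ℕ → Fin (n + 1) → Fin (n + 1) → ZMod 5) (v : Pla H n)
    (a a' b b' : ZMod 5) : comb M v (a - b) (a' - b') = comb M v a a' - comb M v b b' := by
  unfold comb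
  split_ifs <;> ring

theorem Curv_sub {H n : ℕ} (M : ℕ → Fin (n + 1) → Fin (n + 1) → ZMod 5)
    (δ δ' : Pla H n → ZMod 5) : Curv M (δ - δ') = Curv M δ - Curv M δ' := by
  funext v
  rw [Pi.sub_apply]
  unfold Curv
  by_cases h : v.1.val + 1 < H
  · rw [dif_pos h, dif_pos h, dif_pos h, Pi.sub_apply, Pi.sub_apply, Pi.sub_apply, comb_sub]
    ring
  · rw [dif_neg h, dif_neg h, dif_neg h, Pi.sub_apply]
    ring

/-- **Core.** -/
theorem core {V Q : Type} [Fintype V] [Fintype Q] (C : Ckt (Inp V) Q) (t : V)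
    (hC : ∀ x, C.val x C.out = true ↔ Der x t) (r : ℕ) (blk : Fin r → (Fin 5 ↪ V))
    (hd : Pairwise fun i j => Disjoint (Set.range (blk i)) (Set.range (blk j)))
    (ht : ∀ i, t ∉ Set.range (blk i)) (hs : ∀ i, C.SymOn (blk i)) (k : ℕ) (hk : 1 ≤ k)
    (hcard : Fintype.card Q < 5 ^ k) (m : ℕ)
    (hm : 2 * Fintype.card Q ≤ 2 ^ m ∨
      ∀ g N N', (∀ j ≤ 2 ^ m, N j = N' j) → C.F g N = C.F g N')
    (H n s : ℕ) (hH : (C.rank C.out + 1) * (m + 2) + 2 ≤ H)
    (hr : H * (n + 1) * (n + 1) ≤ r)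
    (hs5 : 5 * (H * (n + 1) * (n + 1)) ≤ 5 ^ s) (hn : s * (16 * k + 2) < n + 1) : False := by
  classical
  obtain ⟨M, hM⟩ := exists_spread H n (8 * k + 1) (8 * k + 1) s (by omega) hs5 (by
    have : 8 * k + 1 + (8 * k + 1) = 16 * k + 2 := by ring
    rw [this]
    exact hn)
  obtain ⟨ei⟩ : Nonempty (Pla H n ↪ Fin r) := by
    apply Function.Embedding.nonempty_of_card_le
    simp only [Pla, Fintype.card_prod, Fintype.card_fin]
    rw [← mul_assoc]
    exact hr
  let z : Pla H n := (⟨0, by omega⟩, 0, Fin.last n)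
  let el : Pla H n → ZMod 5 → V := fun v a => blk (ei v) (a : Fin 5)
  have hel : ∀ v a v' a', el v a = el v' a' → v = v' ∧ a = a' := by
    intro v a v' a' h
    by_cases hv : v = v'
    · subst hv
      exact ⟨rfl, (blk (ei v)).injective h⟩
    · exfalso
      have : ei v ≠ ei v' := fun h' => hv (ei.injective h')
      exact Set.disjoint_left.1 (hd this) ⟨a, rfl⟩ ⟨a', h.symm⟩
  have helt : ∀ v a, el v a ≠ t := fun v a h => ht (ei v) ⟨a, h⟩
  let pV : (Pla H n → ZMod 5) → Equiv.Perm V := fun δ => bp (blkE blk hd) (gam ei δ)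
  have hpV : ∀ δ v a, pV δ (el v a) = el v (a + δ v) := by
    intro δ v a
    show bp (blkE blk hd) (gam ei δ) (blkE blk hd (ei v, a)) = _
    rw [SN.bp_apply, gam_apply]
    rfl
  have hpt : ∀ δ, pV δ t = t := fun δ => SN.bp_fix blk hd _ t ht
  let P : (Pla H n → ZMod 5) → Equiv.Perm (Inp V) := fun δ => inpPerm (pV δ)
  have hPadd : ∀ δ δ', P (δ + δ') = P δ * P δ' := by
    intro δ δ'
    show inpPerm (bp (blkE blk hd) (gam ei (δ + δ'))) = _
    rw [gam_add, SN.bp_mul, SN.inpPerm_mul]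
  let Cfg := (Pla H n → ZMod 5) × ZMod 5
  let act : (Pla H n → ZMod 5) → Cfg → Cfg := fun δ κ => (κ.1 + Curv M δ, κ.2 + δ z)
  let G : Cfg → Set (Inp V) := fun κ => inst M el t z κ.1 κ.2
  have hG : ∀ δ κ i, P δ i ∈ G (act δ κ) ↔ i ∈ G κ := by
    intro δ κ i
    exact inst_act M el t z δ (pV δ) (hpV δ) (hpt δ) κ.1 κ.2 i
  let Hid : ℕ → Finset (Pla H n) → Cfg → Cfg → Prop := fun j S κ κ' =>
    ∃ (i : ℕ) (u : Fin (n + 1) → ZMod 5), i + j + 2 ≤ H ∧ Lie M i u z = 1 ∧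
      (∀ v ∈ S, v.1.val = i → u v.2.1 = 0) ∧
      κ'.1 = κ.1 - Curv M (Lie M i u) ∧ κ'.2 = κ.2
  have hmono : ∀ j j' S κ κ', j' ≤ j → Hid j S κ κ' → Hid j' S κ κ' := by
    rintro j j' S κ κ' hj ⟨i, u, h1, h2⟩
    exact ⟨i, u, by omega, h2⟩
  have hP1 : ∀ j S S' κ κ', Hid (j + 1) S κ κ' → S.card ≤ 8 * k → S'.card ≤ 8 * k →
      ∃ δ : Pla H n → ZMod 5, (∀ v ∈ S, δ v = 0) ∧ Hid j S' (act δ κ) κ' := by
    rintro j S S' κ κ' ⟨i, u, h1, h2, h3, h4, h5⟩ hS hS'
    obtain ⟨u', h6, h7, h8⟩ := lie_step M (8 * k) hM i (by omega) u z rfl S S' hS hS' h3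
    obtain ⟨δ, hδ⟩ : ∃ δ : Pla H n → ZMod 5, δ = Lie M (i + 1) u' - Lie M i u := ⟨_, rfl⟩
    refine ⟨δ, ?_, i + 1, u', by omega, by rw [h6, h2], h7, ?_, ?_⟩
    · intro v hv
      rw [hδ, Pi.sub_apply, h8 v hv, sub_self]
    · show κ'.1 = κ.1 + Curv M δ - Curv M (Lie M (i + 1) u')
      rw [h4, hδ, Curv_sub]
      ring
    · show κ'.2 = κ.2 + δ z
      rw [h5, hδ, Pi.sub_apply, h6, sub_self, add_zero]
  have hP0 : ∀ j S κ κ' i, Hid j S κ κ' →
      (∀ δ : Pla H n → ZMod 5, (∀ v ∈ S, δ v = 0) → P δ i = i) → (i ∈ G κ ↔ i ∈ G κ') := by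
    rintro j S κ κ' y ⟨i, u, h1, h2, h3, h4, h5⟩ hfix
    by_contra hcon
    have hcon' : ¬ (y ∈ inst M el t z κ.1 κ.2 ↔ y ∈ inst M el t z κ'.1 κ.2) := by
      rw [← h5]
      intro h
      apply hcon
      show y ∈ inst M el t z κ.1 κ.2 ↔ y ∈ inst M el t z κ'.1 κ'.2
      rw [← h5]
      exact h
    obtain ⟨v, a, hne, hp⟩ := inst_diff M el t z κ.1 κ'.1 κ.2 y hcon'
    have hc : Curv M (Lie M i u) v ≠ 0 := by
      intro h
      apply hne
      rw [h4, Pi.sub_apply, h, sub_zero]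
    rw [curv_lie M i (by omega) u v] at hc
    have hvS : v ∉ S := by
      intro hv
      apply hc
      by_cases h : v.1.val = i ∧ v.2.2 = Fin.last n
      · rw [if_pos h, h3 v hv h.1]
      · rw [if_neg h]
    have h6 := hp (pV (Pi.single v 1)) (hfix (Pi.single v 1) (by
      intro v' hv'
      rw [Pi.single_eq_of_ne]
      rintro rfl
      exact hvS hv'))
    rw [hpV, Pi.single_eq_same] at h6
    have h7 := (hel _ _ _ _ h6).2
    have h8 : (1 : ZMod 5) = 0 := by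
      have : a + 1 - a = a - a := by rw [h7]
      simpa using this
    exact absurd h8 (by decide)
  have hsQ : ∀ T : Fin 4 → Q, ∃ S : Finset (Pla H n), S.card ≤ 8 * k ∧
      ∀ δ : Pla H n → ZMod 5, (∀ v ∈ S, δ v = 0) →
        ∃ φ, C.IsAut (P δ) φ ∧ ∀ j, φ (T j) = T j := by
    intro T
    obtain ⟨S, h1, h2⟩ := supp_tuple blk hd C hs hcard (by norm_num) T ei
    exact ⟨S, by omega, h2⟩
  have hsI : ∀ (T : Fin 3 → Q) (i : Inp V), ∃ S : Finset (Pla H n), S.card ≤ 8 * k ∧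
      ∀ δ : Pla H n → ZMod 5, (∀ v ∈ S, δ v = 0) →
        (∃ φ, C.IsAut (P δ) φ ∧ ∀ j, φ (T j) = T j) ∧ P δ i = i := by
    intro T i
    obtain ⟨S, h1, h2⟩ := supp_tuple blk hd C hs hcard (by norm_num) T ei
    refine ⟨S ∪ plcI blk ei i, ?_, ?_⟩
    · have h3 := Finset.card_union_le S (plcI blk ei i)
      have h4 := card_plcI blk hd ei i
      omega
    · intro δ hδ
      refine ⟨h2 δ fun v hv => hδ v (Finset.mem_union_left _ hv), ?_⟩
      exact bp_plcI blk hd ei i δ fun v hv => hδ v (Finset.mem_union_right _ hv)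
  have hall : ∀ δ : Pla H n → ZMod 5, ∃ φ, C.IsAut (P δ) φ ∧ φ C.out = C.out := by
    intro δ
    obtain ⟨φ, hφ⟩ := sym_all blk hd C hs (gam ei δ)
    exact ⟨φ, hφ, hφ.out⟩
  -- the two instances
  let κ0 : Cfg := (0, 0)
  let κ1 : Cfg := (0, 1)
  let δ0 : Pla H n → ZMod 5 := Lie M 0 (Pi.single 0 1)
  have hδz : δ0 z = 1 := by
    show Lie M 0 (Pi.single 0 1) z = 1
    rw [lie_row M 0 _ z (Nat.zero_le _), if_pos ⟨rfl, rfl⟩]
    exact Pi.single_eq_same _ _
  obtain ⟨φ, hφ, hφo⟩ := hall δ0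
  have e1 : C.val (G (act δ0 κ0)) C.out = C.val (G κ0) C.out := by
    have := hφ.val (hG δ0 κ0) C.out
    rwa [hφo] at this
  have e2 : C.val (G (act δ0 κ0)) C.out = C.val (G κ1) C.out := by
    apply game C G P hPadd act hG Hid hmono (8 * k) hP1 hP0 hsQ hsI m hm C.out ∅ (act δ0 κ0) κ1
    · refine ⟨0, Pi.single 0 1, by omega, hδz, ?_, ?_, ?_⟩
      · intro v hv
        exact absurd hv (Finset.notMem_empty _)
      · show (0 : Pla H n → ZMod 5) = 0 + Curv M δ0 - Curv M δ0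
        rw [zero_add, sub_self]
      · show (1 : ZMod 5) = 0 + δ0 z
        rw [hδz, zero_add]
    · rw [Finset.card_empty]
      exact Nat.zero_le _
    · intro δ _
      exact hall δ
  have y0 : C.val (G κ0) C.out = true := (hC _).2 (inst_yes M el t z)
  rw [← e1, e2] at y0
  exact inst_no M el t z hel helt ((hC _).1 y0)

/-- **Lower bound for circuits with walk-counting gates.** -/
theorem lower {V Q : Type} [Fintype V] [Fintype Q] (C : Ckt (Inp V) Q) (t : V)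
    (hC : ∀ x, C.val x C.out = true ↔ Der x t) (r : ℕ) (blk : Fin r → (Fin 5 ↪ V))
    (hd : Pairwise fun i j => Disjoint (Set.range (blk i)) (Set.range (blk j)))
    (ht : ∀ i, t ∉ Set.range (blk i)) (hs : ∀ i, C.SymOn (blk i)) (k : ℕ) (hk : 1 ≤ k)
    (hr : 3000 * (C.rank C.out + 1) * k ^ 3 * (Nat.log 5 r + 2) ^ 2 ≤ r) :
    5 ^ k ≤ Fintype.card Q := by
  by_contra hcard
  rw [not_le] at hcard
  obtain ⟨s, hsdef⟩ : ∃ s, s = Nat.log 5 r + 2 := ⟨_, rfl⟩
  rw [← hsdef] at hr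
  obtain ⟨R, hR⟩ : ∃ R, R = C.rank C.out + 1 := ⟨_, rfl⟩
  rw [← hR] at hr
  have hR1 : 1 ≤ R := by omega
  have hs2 : 2 ≤ s := by omega
  have h1 : R * (3 * k + 1 + 2) + 2 ≤ 8 * (R * k) := by nlinarith
  have h2 : s * (16 * k + 2) + 1 ≤ 19 * (k * s) := by nlinarith
  have h3 : (R * (3 * k + 1 + 2) + 2) * (s * (16 * k + 2) + 1) * (s * (16 * k + 2) + 1) ≤ r := by
    calc (R * (3 * k + 1 + 2) + 2) * (s * (16 * k + 2) + 1) * (s * (16 * k + 2) + 1)
        ≤ (8 * (R * k)) * (19 * (k * s)) * (19 * (k * s)) :=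
          Nat.mul_le_mul (Nat.mul_le_mul h1 h2) h2
      _ = 2888 * (R * k ^ 3 * s ^ 2) := by ring
      _ ≤ 3000 * (R * k ^ 3 * s ^ 2) := Nat.mul_le_mul_right _ (by norm_num)
      _ = 3000 * R * k ^ 3 * s ^ 2 := by ring
      _ ≤ r := hr
  have hlt : r < 5 ^ (Nat.log 5 r + 1) := Nat.lt_pow_succ_log_self (by norm_num) r
  refine core C t hC r blk hd ht hs k hk hcard (3 * k + 1) (Or.inl ?_)
    (R * (3 * k + 1 + 2) + 2) (s * (16 * k + 2)) s (by rw [hR]) h3 ?_ (Nat.lt_succ_self _)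
  · have h4 : (5 : ℕ) ^ k ≤ 8 ^ k := Nat.pow_le_pow_left (by norm_num) k
    have h5 : (2 : ℕ) ^ (3 * k + 1) = 8 ^ k * 2 := by
      rw [pow_succ, pow_mul]
      norm_num
    rw [h5]
    omega
  · calc 5 * ((R * (3 * k + 1 + 2) + 2) * (s * (16 * k + 2) + 1) * (s * (16 * k + 2) + 1))
        ≤ 5 * 5 ^ (Nat.log 5 r + 1) := Nat.mul_le_mul_left _ (h3.trans hlt.le)
      _ = 5 ^ s := by rw [hsdef, pow_succ 5 (Nat.log 5 r + 1)]; ring

/-- **Lower bound for circuits with counting gates.** -/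
theorem lower_count {V Q : Type} [Fintype V] [Fintype Q] (C : Ckt (Inp V) Q) (t : V)
    (hF : ∀ g N N', N 1 = N' 1 → C.F g N = C.F g N')
    (hC : ∀ x, C.val x C.out = true ↔ Der x t) (r : ℕ) (blk : Fin r → (Fin 5 ↪ V))
    (hd : Pairwise fun i j => Disjoint (Set.range (blk i)) (Set.range (blk j)))
    (ht : ∀ i, t ∉ Set.range (blk i)) (hs : ∀ i, C.SymOn (blk i)) (k : ℕ) (hk : 1 ≤ k)
    (hr : 1500 * (C.rank C.out + 1) * k ^ 2 * (Nat.log 5 r + 2) ^ 2 ≤ r) :
    5 ^ k ≤ Fintype.card Q := by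
  by_contra hcard
  rw [not_le] at hcard
  obtain ⟨s, hsdef⟩ : ∃ s, s = Nat.log 5 r + 2 := ⟨_, rfl⟩
  rw [← hsdef] at hr
  obtain ⟨R, hR⟩ : ∃ R, R = C.rank C.out + 1 := ⟨_, rfl⟩
  rw [← hR] at hr
  have hR1 : 1 ≤ R := by omega
  have hs2 : 2 ≤ s := by omega
  have h1 : R * (0 + 2) + 2 ≤ 4 * R := by omega
  have h2 : s * (16 * k + 2) + 1 ≤ 19 * (k * s) := by nlinarith
  have h3 : (R * (0 + 2) + 2) * (s * (16 * k + 2) + 1) * (s * (16 * k + 2) + 1) ≤ r := by
    calc (R * (0 + 2) + 2) * (s * (16 * k + 2) + 1) * (s * (16 * k + 2) + 1)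
        ≤ (4 * R) * (19 * (k * s)) * (19 * (k * s)) :=
          Nat.mul_le_mul (Nat.mul_le_mul h1 h2) h2
      _ = 1444 * (R * k ^ 2 * s ^ 2) := by ring
      _ ≤ 1500 * (R * k ^ 2 * s ^ 2) := Nat.mul_le_mul_right _ (by norm_num)
      _ = 1500 * R * k ^ 2 * s ^ 2 := by ring
      _ ≤ r := hr
  have hlt : r < 5 ^ (Nat.log 5 r + 1) := Nat.lt_pow_succ_log_self (by norm_num) r
  refine core C t hC r blk hd ht hs k hk hcard 0 (Or.inr ?_)
    (R * (0 + 2) + 2) (s * (16 * k + 2)) s (by rw [hR]) h3 ?_ (Nat.lt_succ_self _)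
  · intro g N N' h
    exact hF g N N' (h 1 (by norm_num))
  · calc 5 * ((R * (0 + 2) + 2) * (s * (16 * k + 2) + 1) * (s * (16 * k + 2) + 1))
        ≤ 5 * 5 ^ (Nat.log 5 r + 1) := Nat.mul_le_mul_left _ (h3.trans hlt.le)
      _ = 5 ^ s := by rw [hsdef, pow_succ 5 (Nat.log 5 r + 1)]; ring

/-- **Lower bound for switching networks.** -/
theorem lower_net {V Q : Type} [Fintype V] [Fintype Q] (N : SNet (Inp V) Q) (t : V)
    (hN : ∀ x, N.Acc x ↔ Der x t) (r : ℕ) (blk : Fin r → (Fin 5 ↪ V))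
    (hd : Pairwise fun i j => Disjoint (Set.range (blk i)) (Set.range (blk j)))
    (ht : ∀ i, t ∉ Set.range (blk i)) (hs : ∀ i, N.SymOn (blk i)) (k : ℕ) (hk : 1 ≤ k)
    (hr : 3000 * k ^ 3 * (Nat.log 5 r + 2) ^ 2 ≤ r) :
    5 ^ k ≤ Fintype.card Q := by
  obtain ⟨C, h1, h2, h3, h4⟩ := net_ckt N
  apply lower C t (fun x => (h3 x).trans (hN x)) r blk hd ht _ k hk
  · rw [h2, zero_add, mul_one]
    exact hr
  · intro i a ha p hp hp'
    obtain ⟨φ, hφ⟩ := hs i a ha p hp hp'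
    exact ⟨φ, h4 _ φ hφ⟩

end Pool.Agent.H870R2.LS
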