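import Pool.Agent.H870R2.LS.FDefs
import Pool.Agent.H870R2.LS.GameF
import Pool.Agent.H870R2.LS.Arena

set_option autoImplicit false
set_option linter.unusedSectionVars false

/-! Formulas and circuits of fan-out at most four for path systems. -/

namespace Pool.Agent.H870R2.LS

open Finset Pool.Agent.H545R2

theorem Ckt.IsAut.pow {I Q : Type*} {C : Ckt I Q} {p : Equiv.Perm I} {φ : Equiv.Perm Q}
    (h : C.IsAut p φ) (j : ℕ) : C.IsAut (p ^ j) (φ ^ j) := by
  induction j with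
  | zero => rw [pow_zero, pow_zero]; exact Ckt.IsAut.one
  | succ j ih => rw [pow_succ, pow_succ]; exact ih.mul h

/-- A permutation that maps a set of at most four elements to itself: its twelfth power is the
identity on the set. -/
theorem pow_twelve {Q : Type*} [Finite Q] (φ : Equiv.Perm Q) (A : Set Q) (hA : A.ncard ≤ 4)
    (hφ : ∀ g ∈ A, φ g ∈ A) {g : Q} (hg : g ∈ A) : (φ ^ 12) g = g := by
  classical
  have hmem : ∀ j : ℕ, (φ ^ j) g ∈ A := by
    intro j
    induction j with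
    | zero => exact hg
    | succ j ih =>
      rw [pow_succ', Equiv.Perm.mul_apply]
      exact hφ _ ih
  have hfin : A.Finite := Set.toFinite A
  obtain ⟨i, hi, j, hj, hij, he⟩ : ∃ i ∈ Finset.range 5, ∃ j ∈ Finset.range 5, i ≠ j ∧
      (φ ^ i) g = (φ ^ j) g := by
    apply Finset.exists_ne_map_eq_of_card_lt_of_maps_to (t := hfin.toFinset)
    · rw [← Set.ncard_eq_toFinset_card A hfin, Finset.card_range]
      omega
    · intro i _
      simpa using hmem i
  -- we may assume `i < j`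
  have main : ∀ i j : ℕ, i < j → j < 5 → (φ ^ i) g = (φ ^ j) g → (φ ^ 12) g = g := by
    intro i j hlt hj he
    obtain ⟨c, rfl⟩ : ∃ c, j = i + c := ⟨j - i, by omega⟩
    have h1 : (φ ^ c) g = g := by
      apply (φ ^ i).injective
      rw [← Equiv.Perm.mul_apply, ← pow_add]
      exact he.symm
    obtain ⟨d, hd⟩ : ∃ d, 12 = c * d := by
      have hc0 : 0 < c := by omega
      have hc4 : c < 5 := by omega
      interval_cases c
      · exact ⟨12, rfl⟩
      · exact ⟨6, rfl⟩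
      · exact ⟨4, rfl⟩
      · exact ⟨3, rfl⟩
    rw [hd, pow_mul]
    have h2 : ∀ d : ℕ, ((φ ^ c) ^ d) g = g := by
      intro d
      induction d with
      | zero => rfl
      | succ d ih => rw [pow_succ', Equiv.Perm.mul_apply, ih, h1]
    exact h2 d
  rcases lt_or_gt_of_ne hij with h | h
  · exact main i j h (Finset.mem_range.1 hj) he
  · exact main j i h (Finset.mem_range.1 hi) he.symm

section supp

variable {I Q W : Type*} [Fintype W] (C : Ckt I Q)
  (P : (W → ZMod 5) → Equiv.Perm I)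

open Classical in
/-- The least support of a gate. -/
noncomputable def mins (g : Q) : Finset W :=
  Finset.univ.filter (fun v => ¬ ∀ a : ZMod 5, ∃ φ, C.IsAut (P (Pi.single v a)) φ ∧ φ g = g)

open Classical in
theorem notMem_mins {g : Q} {v : W} (h : v ∉ mins C P g) (a : ZMod 5) :
    ∃ φ, C.IsAut (P (Pi.single v a)) φ ∧ φ g = g := by
  by_contra hcon
  apply h
  unfold mins
  rw [Finset.mem_filter]
  refine ⟨Finset.mem_univ _, ?_⟩
  intro h'
  exact hcon (h' a)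

open Classical in
theorem mins_sub {g : Q} {S : Finset W}
    (h : ∀ δ : W → ZMod 5, (∀ v ∈ S, δ v = 0) → ∃ φ, C.IsAut (P δ) φ ∧ φ g = g) :
    mins C P g ⊆ S := by
  intro v hv
  unfold mins at hv
  rw [Finset.mem_filter] at hv
  by_contra hvS
  apply hv.2
  intro a
  apply h
  intro w hw
  rw [Pi.single_eq_of_ne]
  rintro rfl
  exact hvS hw

variable (hPadd : ∀ δ δ', P (δ + δ') = P δ * P δ')

include hPadd in
theorem P_zero : P 0 = 1 := by
  have := hPadd 0 0
  rw [add_zero] at this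
  exact mul_eq_left.1 this.symm

include hPadd in
theorem P_nsmul (j : ℕ) (δ : W → ZMod 5) : P (j • δ) = P δ ^ j := by
  induction j with
  | zero => rw [zero_smul, pow_zero, P_zero P hPadd]
  | succ j ih => rw [succ_nsmul, hPadd, ih, pow_succ]

include hPadd in
open Classical in
theorem mins_supp (g : Q) (δ : W → ZMod 5) (hδ : ∀ v ∈ mins C P g, δ v = 0) :
    ∃ φ, C.IsAut (P δ) φ ∧ φ g = g := by
  have key : ∀ s : Finset W,
      ∃ φ, C.IsAut (P (∑ i ∈ s, Pi.single i (δ i))) φ ∧ φ g = g := by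
    intro s
    induction s using Finset.induction_on with
    | empty =>
      rw [Finset.sum_empty, P_zero P hPadd]
      exact ⟨1, Ckt.IsAut.one, rfl⟩
    | insert i s hi ih =>
      obtain ⟨φ, hφ, hφg⟩ := ih
      obtain ⟨ψ, hψ, hψg⟩ : ∃ ψ, C.IsAut (P (Pi.single i (δ i))) ψ ∧ ψ g = g := by
        by_cases h : i ∈ mins C P g
        · rw [hδ i h, Pi.single_zero, P_zero P hPadd]
          exact ⟨1, Ckt.IsAut.one, rfl⟩
        · exact notMem_mins C P h _
      rw [Finset.sum_insert hi, hPadd]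
      exact ⟨ψ * φ, hψ.mul hφ, by rw [Equiv.Perm.mul_apply, hφg, hψg]⟩
  have := key Finset.univ
  rwa [Finset.univ_sum_single] at this

include hPadd in
theorem mins_move (δ : W → ZMod 5) (φ : Equiv.Perm Q) (g : Q) (h : C.IsAut (P δ) φ) :
    mins C P (φ g) = mins C P g := by
  classical
  have hcomm : ∀ y y', P y * P y' = P y' * P y := by
    intro y y'
    rw [← hPadd, add_comm, hPadd]
  have key : ∀ (δ : W → ZMod 5) (φ : Equiv.Perm Q) (g : Q), C.IsAut (P δ) φ →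
      mins C P (φ g) ⊆ mins C P g := by
    intro δ φ g h
    apply mins_sub
    intro δ' hδ'
    obtain ⟨ψ, h1, h2⟩ := mins_supp C P hPadd g δ' hδ'
    refine ⟨φ * ψ * φ⁻¹, ?_, ?_⟩
    · have h9 := (h.mul h1).mul h.inv
      have h10 : P δ * P δ' * (P δ)⁻¹ = P δ' := by
        rw [hcomm, mul_assoc, mul_inv_cancel, mul_one]
      rwa [h10] at h9
    · rw [Equiv.Perm.mul_apply, Equiv.Perm.mul_apply, p_inv_apply, h2]
  apply Finset.Subset.antisymm (key δ φ g h)
  have hinv : C.IsAut (P (-δ)) φ⁻¹ := by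
    have h1 : P (-δ) = (P δ)⁻¹ := by
      rw [eq_inv_iff_mul_eq_one, ← hPadd, neg_add_cancel, P_zero P hPadd]
    rw [h1]
    exact h.inv
  have := key (-δ) φ⁻¹ (φ g) hinv
  rwa [p_inv_apply] at this

include hPadd in
theorem mins_mono [Finite Q] (hf : C.FanOut 4) (g a b h : Q)
    (hw : 0 < C.wire g a b (some (Sum.inr h))) : mins C P g ⊆ mins C P h := by
  classical
  apply mins_sub
  intro δ hδ
  obtain ⟨φ, h1, h2⟩ := mins_supp C P hPadd h δ hδ
  refine ⟨φ ^ 36, ?_, ?_⟩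
  · have h3 := h1.pow 36
    rw [← P_nsmul P hPadd] at h3
    have h4 : (36 : ℕ) • δ = δ := by
      funext v
      rw [Pi.smul_apply, nsmul_eq_mul]
      have : ((36 : ℕ) : ZMod 5) = 1 := by decide
      rw [this, one_mul]
    rwa [h4] at h3
  · have h5 : (φ ^ 12) g = g := by
      apply pow_twelve φ {g | ∃ a b, 0 < C.wire g a b (some (Sum.inr h))} (hf h)
      · rintro g' ⟨a', b', hw'⟩
        refine ⟨φ a', φ b', ?_⟩
        have h6 := h1.wire g' a' b' (some (Sum.inr h))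
        have h7 : srcMap (P δ) φ (some (Sum.inr h)) = some (Sum.inr h) := by
          show some (Sum.inr (φ h)) = some (Sum.inr h)
          rw [h2]
        rw [h7] at h6
        rw [h6]
        exact hw'
      · exact ⟨a, b, hw⟩
    have h8 : φ ^ 36 = φ ^ 12 * (φ ^ 12 * φ ^ 12) := by
      rw [← pow_add, ← pow_add]
    rw [h8, Equiv.Perm.mul_apply, Equiv.Perm.mul_apply, h5, h5, h5]

end supp

theorem Curv_add {H n : ℕ} (M : ℕ → Fin (n + 1) → Fin (n + 1) → ZMod 5)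
    (δ δ' : Pla H n → ZMod 5) : Curv M (δ + δ') = Curv M δ + Curv M δ' := by
  have h0 : Curv M (0 : Pla H n → ZMod 5) = 0 := by
    have := Curv_sub M (0 : Pla H n → ZMod 5) 0
    rw [sub_self, sub_self] at this
    exact this
  have h1 : δ + δ' = δ - (0 - δ') := by
    rw [zero_sub, sub_neg_eq_add]
  rw [h1, Curv_sub, Curv_sub, h0, zero_sub, sub_neg_eq_add]

/-- **Core for fan-out at most four.** -/
theorem core_valF {V Q : Type} [Fintype V] [Fintype Q] (C : Ckt (Inp V) Q) (hf : C.FanOut 4)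
    (t : V) (r : ℕ) (blk : Fin r → (Fin 5 ↪ V))
    (hd : Pairwise fun i j => Disjoint (Set.range (blk i)) (Set.range (blk j)))
    (ht : ∀ i, t ∉ Set.range (blk i)) (hs : ∀ i, C.SymOn (blk i)) (k : ℕ) (hk : 1 ≤ k)
    (hcard : Fintype.card Q < 5 ^ k) (m : ℕ)
    (hm : 2 * Fintype.card Q ≤ 2 ^ m ∨
      ∀ g N N', (∀ j ≤ 2 ^ m, N j = N' j) → C.F g N = C.F g N')
    (H n s : ℕ) (hH : (2 * k + 1) * (m + 2) + 2 ≤ H) (ei : Pla H n ↪ Fin r)
    (hs5 : 5 * (H * (n + 1) * (n + 1)) ≤ 5 ^ s) (hn : s * (16 * k + 2) < n + 1)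
    (z : Pla H n) (hz0 : z.1.val = 0) (hz : z.2.2 = Fin.last n) :
    ∃ M : ℕ → Fin (n + 1) → Fin (n + 1) → ZMod 5,
      C.val (insG blk ei M t z (0, 0)) C.out = C.val (insG blk ei M t z (0, 1)) C.out := by
  classical
  obtain ⟨M, hM⟩ := exists_spread H n (8 * k + 1) (8 * k + 1) s (by omega) hs5 (by
    have : 8 * k + 1 + (8 * k + 1) = 16 * k + 2 := by ring
    rw [this]
    exact hn)
  refine ⟨M, ?_⟩
  have hsQ : ∀ T : Fin 4 → Q, ∃ S : Finset (Pla H n), S.card ≤ 8 * k ∧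
      ∀ δ : Pla H n → ZMod 5, (∀ v ∈ S, δ v = 0) →
        ∃ φ, C.IsAut (PG blk hd ei δ) φ ∧ ∀ j, φ (T j) = T j := by
    intro T
    obtain ⟨S, h1, h2⟩ := supp_tuple blk hd C hs hcard (by norm_num) T ei
    exact ⟨S, by omega, h2⟩
  have hsI : ∀ (T : Fin 3 → Q) (i : Inp V), ∃ S : Finset (Pla H n), S.card ≤ 8 * k ∧
      ∀ δ : Pla H n → ZMod 5, (∀ v ∈ S, δ v = 0) →
        (∃ φ, C.IsAut (PG blk hd ei δ) φ ∧ ∀ j, φ (T j) = T j) ∧ PG blk hd ei δ i = i := by
    intro T i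
    obtain ⟨S, h1, h2⟩ := supp_tuple blk hd C hs hcard (by norm_num) T ei
    refine ⟨S ∪ plcI blk ei i, ?_, ?_⟩
    · have h3 := Finset.card_union_le S (plcI blk ei i)
      have h4 := card_plcI blk hd ei i
      omega
    · intro δ hδ
      refine ⟨h2 δ fun v hv => hδ v (Finset.mem_union_left _ hv), ?_⟩
      exact bp_plcI blk hd ei i δ fun v hv => hδ v (Finset.mem_union_right _ hv)
  have hall : ∀ δ : Pla H n → ZMod 5, ∃ φ, C.IsAut (PG blk hd ei δ) φ ∧ φ C.out = C.out := by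
    intro δ
    obtain ⟨φ, hφ⟩ := sym_all blk hd C hs (gam ei δ)
    exact ⟨φ, hφ, hφ.out⟩
  have hH2 : 2 ≤ H := by omega
  obtain ⟨δ0, hδ0⟩ := HidG_start M z hz0 hz hH2
  obtain ⟨φ, hφ, hφo⟩ := hall δ0
  have e1 : C.val (insG blk ei M t z (actG M z δ0 (0, 0))) C.out =
      C.val (insG blk ei M t z (0, 0)) C.out := by
    have := hφ.val (insG_act blk hd ei M t z ht δ0 (0, 0)) C.out
    rwa [hφo] at this
  rw [← e1]
  have hPadd := PG_add blk hd ei
  have hT1 : ∀ g, (mins C (PG blk hd ei) g).card ≤ 2 * k := by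
    intro g
    obtain ⟨S, h1, h2⟩ := supp_tuple blk hd C hs hcard (le_refl 1) ![g] ei
    have h3 : mins C (PG blk hd ei) g ⊆ S := by
      apply mins_sub
      intro δ hδ
      obtain ⟨φ, h4, h5⟩ := h2 δ hδ
      exact ⟨φ, h4, h5 0⟩
    have := Finset.card_le_card h3
    omega
  have hout : mins C (PG blk hd ei) C.out = ∅ := by
    apply Finset.subset_empty.1
    apply mins_sub
    intro δ _
    exact hall δ
  apply gameF C (insG blk ei M t z) (PG blk hd ei) hPadd (actG M z)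
    (by
      intro δ δ' κ
      unfold actG
      rw [Curv_add, Pi.add_apply]
      refine Prod.ext ?_ ?_
      · show κ.1 + (Curv M δ + Curv M δ') = κ.1 + Curv M δ' + Curv M δ
        ring
      · show κ.2 + (δ z + δ' z) = κ.2 + δ' z + δ z
        ring)
    (insG_act blk hd ei M t z ht) (HidG M z) (HidG_mono M z)
    (by
      rintro j S S' κ κ' hSS ⟨i, u, h1, h2, h3, h4⟩
      exact ⟨i, u, h1, h2, fun v hv => h3 v (hSS hv), h4⟩)
    (8 * k)
    (HidG_step M z hM hz) (fun j S κ κ' i => HidG_var blk hd ei M t z j S κ κ' i) hsQ hsI m hm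
    (mins C (PG blk hd ei)) (2 * k) hT1 (by omega) (mins_supp C _ hPadd)
    (fun g S h => mins_sub C _ h) (fun g a b h => mins_mono C _ hPadd hf g a b h)
    (fun δ φ g h => mins_move C _ hPadd δ φ g h)
    C.out (actG M z δ0 (0, 0)) (0, 1)
  rw [hout, Finset.card_empty]
  exact HidG_mono M z _ _ _ _ _ (by
    rw [Nat.sub_zero]
    omega) hδ0

/-- **Core for derivability.** -/
theorem coreF {V Q : Type} [Fintype V] [Fintype Q] (C : Ckt (Inp V) Q) (hf : C.FanOut 4) (t : V)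
    (hC : ∀ x, C.val x C.out = true ↔ Der x t) (r : ℕ) (blk : Fin r → (Fin 5 ↪ V))
    (hd : Pairwise fun i j => Disjoint (Set.range (blk i)) (Set.range (blk j)))
    (ht : ∀ i, t ∉ Set.range (blk i)) (hs : ∀ i, C.SymOn (blk i)) (k : ℕ) (hk : 1 ≤ k)
    (hcard : Fintype.card Q < 5 ^ k) (m : ℕ)
    (hm : 2 * Fintype.card Q ≤ 2 ^ m ∨
      ∀ g N N', (∀ j ≤ 2 ^ m, N j = N' j) → C.F g N = C.F g N')
    (H n s : ℕ) (hH : (2 * k + 1) * (m + 2) + 2 ≤ H)
    (hr : H * (n + 1) * (n + 1) ≤ r)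
    (hs5 : 5 * (H * (n + 1) * (n + 1)) ≤ 5 ^ s) (hn : s * (16 * k + 2) < n + 1) : False := by
  obtain ⟨ei⟩ : Nonempty (Pla H n ↪ Fin r) := by
    apply Function.Embedding.nonempty_of_card_le
    simp only [Pla, Fintype.card_prod, Fintype.card_fin]
    rw [← mul_assoc]
    exact hr
  let z : Pla H n := (⟨0, by omega⟩, 0, Fin.last n)
  obtain ⟨M, hM⟩ := core_valF C hf t r blk hd ht hs k hk hcard m hm H n s hH ei hs5 hn z rfl rfl
  have h1 : C.val (insG blk ei M t z (0, 0)) C.out = true := (hC _).2 (insG_yes _ _ _ _ _)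
  rw [hM, hC] at h1
  exact insG_no blk ei M t z hd ht h1

/-- **Lower bound for circuits with walk-counting gates and fan-out at most four.** -/
theorem lowerF {V Q : Type} [Fintype V] [Fintype Q] (C : Ckt (Inp V) Q) (hf : C.FanOut 4)
    (t : V)
    (hC : ∀ x, C.val x C.out = true ↔ Der x t) (r : ℕ) (blk : Fin r → (Fin 5 ↪ V))
    (hd : Pairwise fun i j => Disjoint (Set.range (blk i)) (Set.range (blk j)))
    (ht : ∀ i, t ∉ Set.range (blk i)) (hs : ∀ i, C.SymOn (blk i)) (k : ℕ) (hk : 1 ≤ k)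
    (hr : 8000 * k ^ 4 * (Nat.log 5 r + 2) ^ 2 ≤ r) :
    5 ^ k ≤ Fintype.card Q := by
  by_contra hcard
  rw [not_le] at hcard
  obtain ⟨s, hsdef⟩ : ∃ s, s = Nat.log 5 r + 2 := ⟨_, rfl⟩
  rw [← hsdef] at hr
  have hs2 : 2 ≤ s := by omega
  have h1 : (2 * k + 1) * (3 * k + 1 + 2) + 2 ≤ 20 * k ^ 2 := by nlinarith
  have h2 : s * (16 * k + 2) + 1 ≤ 19 * (k * s) := by nlinarith
  have h3 : ((2 * k + 1) * (3 * k + 1 + 2) + 2) * (s * (16 * k + 2) + 1) *
      (s * (16 * k + 2) + 1) ≤ r := by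
    calc ((2 * k + 1) * (3 * k + 1 + 2) + 2) * (s * (16 * k + 2) + 1) * (s * (16 * k + 2) + 1)
        ≤ (20 * k ^ 2) * (19 * (k * s)) * (19 * (k * s)) :=
          Nat.mul_le_mul (Nat.mul_le_mul h1 h2) h2
      _ = 7220 * (k ^ 4 * s ^ 2) := by ring
      _ ≤ 8000 * (k ^ 4 * s ^ 2) := Nat.mul_le_mul_right _ (by norm_num)
      _ = 8000 * k ^ 4 * s ^ 2 := by ring
      _ ≤ r := hr
  have hlt : r < 5 ^ (Nat.log 5 r + 1) := Nat.lt_pow_succ_log_self (by norm_num) r
  refine coreF C hf t hC r blk hd ht hs k hk hcard (3 * k + 1) (Or.inl ?_)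
    ((2 * k + 1) * (3 * k + 1 + 2) + 2) (s * (16 * k + 2)) s (le_refl _) h3 ?_
    (Nat.lt_succ_self _)
  · have h4 : (5 : ℕ) ^ k ≤ 8 ^ k := Nat.pow_le_pow_left (by norm_num) k
    have h5 : (2 : ℕ) ^ (3 * k + 1) = 8 ^ k * 2 := by
      rw [pow_succ, pow_mul]
      norm_num
    rw [h5]
    omega
  · calc 5 * (((2 * k + 1) * (3 * k + 1 + 2) + 2) * (s * (16 * k + 2) + 1) *
          (s * (16 * k + 2) + 1))
        ≤ 5 * 5 ^ (Nat.log 5 r + 1) := Nat.mul_le_mul_left _ (h3.trans hlt.le)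
      _ = 5 ^ s := by rw [hsdef, pow_succ 5 (Nat.log 5 r + 1)]; ring

/-- **Lower bound for circuits with counting gates and fan-out at most four.** -/
theorem lowerF_count {V Q : Type} [Fintype V] [Fintype Q] (C : Ckt (Inp V) Q)
    (hf : C.FanOut 4) (t : V)
    (hF : ∀ g N N', N 1 = N' 1 → C.F g N = C.F g N')
    (hC : ∀ x, C.val x C.out = true ↔ Der x t) (r : ℕ) (blk : Fin r → (Fin 5 ↪ V))
    (hd : Pairwise fun i j => Disjoint (Set.range (blk i)) (Set.range (blk j)))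
    (ht : ∀ i, t ∉ Set.range (blk i)) (hs : ∀ i, C.SymOn (blk i)) (k : ℕ) (hk : 1 ≤ k)
    (hr : 3000 * k ^ 3 * (Nat.log 5 r + 2) ^ 2 ≤ r) :
    5 ^ k ≤ Fintype.card Q := by
  by_contra hcard
  rw [not_le] at hcard
  obtain ⟨s, hsdef⟩ : ∃ s, s = Nat.log 5 r + 2 := ⟨_, rfl⟩
  rw [← hsdef] at hr
  have hs2 : 2 ≤ s := by omega
  have h1 : (2 * k + 1) * (0 + 2) + 2 ≤ 8 * k := by omega
  have h2 : s * (16 * k + 2) + 1 ≤ 19 * (k * s) := by nlinarith
  have h3 : ((2 * k + 1) * (0 + 2) + 2) * (s * (16 * k + 2) + 1) *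
      (s * (16 * k + 2) + 1) ≤ r := by
    calc ((2 * k + 1) * (0 + 2) + 2) * (s * (16 * k + 2) + 1) * (s * (16 * k + 2) + 1)
        ≤ (8 * k) * (19 * (k * s)) * (19 * (k * s)) :=
          Nat.mul_le_mul (Nat.mul_le_mul h1 h2) h2
      _ = 2888 * (k ^ 3 * s ^ 2) := by ring
      _ ≤ 3000 * (k ^ 3 * s ^ 2) := Nat.mul_le_mul_right _ (by norm_num)
      _ = 3000 * k ^ 3 * s ^ 2 := by ring
      _ ≤ r := hr
  have hlt : r < 5 ^ (Nat.log 5 r + 1) := Nat.lt_pow_succ_log_self (by norm_num) r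
  refine coreF C hf t hC r blk hd ht hs k hk hcard 0 (Or.inr ?_)
    ((2 * k + 1) * (0 + 2) + 2) (s * (16 * k + 2)) s (le_refl _) h3 ?_ (Nat.lt_succ_self _)
  · intro g N N' h
    exact hF g N N' (h 1 (by norm_num))
  · calc 5 * (((2 * k + 1) * (0 + 2) + 2) * (s * (16 * k + 2) + 1) * (s * (16 * k + 2) + 1))
        ≤ 5 * 5 ^ (Nat.log 5 r + 1) := Nat.mul_le_mul_left _ (h3.trans hlt.le)
      _ = 5 ^ s := by rw [hsdef, pow_succ 5 (Nat.log 5 r + 1)]; ring

end Pool.Agent.H870R2.LS
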