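import Pool.Agent.H870R2.LS.PDefs

set_option autoImplicit false

/-! Runs of pushdown networks versus derivation trees. -/

namespace Pool.Agent.H870R2.LS

namespace RunTrX

variable {I Q : Type*} (N : PNet I Q) (x : Set I)

theorem step_inv {p p' : Q × List Q} (h : N.Step x p p') :
    (N.Open x p.1 p'.1 ∧ p'.2 = p.2) ∨ (∃ s, N.push p.1 s p'.1 ∧ p'.2 = s :: p.2) ∨
      (∃ s, N.pop p.1 s p'.1 ∧ p.2 = s :: p'.2) := by
  cases h with
  | arc a b st ho => exact Or.inl ⟨ho, rfl⟩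
  | push a s b st ho => exact Or.inr (Or.inl ⟨s, ho, rfl⟩)
  | pop a s b st ho => exact Or.inr (Or.inr ⟨s, ho, rfl⟩)

theorem step_lift {p p' : Q × List Q} (h : N.Step x p p') (st0 : List Q) :
    N.Step x (p.1, p.2 ++ st0) (p'.1, p'.2 ++ st0) := by
  cases h with
  | arc a b st ho => exact PNet.Step.arc a b _ ho
  | push a s b st ho => exact PNet.Step.push a s b _ ho
  | pop a s b st ho => exact PNet.Step.pop a s b _ ho

theorem run_lift (n : ℕ) : ∀ (p p' : Q × List Q), N.Run x n p p' → ∀ st0 : List Q,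
    N.Run x n (p.1, p.2 ++ st0) (p'.1, p'.2 ++ st0) := by
  induction n with
  | zero =>
    intro p p' h st0
    have h' : p = p' := h
    subst h'
    exact rfl
  | succ n ih =>
    intro p p' h st0
    obtain ⟨r, h1, h2⟩ := h
    exact ⟨_, step_lift N x h1 st0, ih r p' h2 st0⟩

theorem run_trans (n : ℕ) : ∀ (m : ℕ) (p q r : Q × List Q), N.Run x n p q → N.Run x m q r →
    N.Run x (n + m) p r := by
  induction n with
  | zero =>
    intro m p q r h1 h2
    have h' : p = q := h1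
    subst h'
    rw [Nat.zero_add]
    exact h2
  | succ n ih =>
    intro m p q r h1 h2
    obtain ⟨s, h3, h4⟩ := h1
    rw [Nat.succ_add]
    exact ⟨s, h3, ih m s q r h4 h2⟩

theorem decomp (s : Q) (st0 : List Q) (b : Q) (st1 : List Q) (hl : st1.length ≤ st0.length)
    (n : ℕ) : ∀ (c : Q) (st : List Q), N.Run x n (c, st ++ s :: st0) (b, st1) →
      ∃ n1 n2 d e, n1 + 1 + n2 = n ∧ N.Run x n1 (c, st) (d, []) ∧ N.pop d s e ∧
        N.Run x n2 (e, st0) (b, st1) := by
  induction n with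
  | zero =>
    intro c st h
    have h' : (c, st ++ s :: st0) = (b, st1) := h
    have h2 := congrArg (fun p : Q × List Q => p.2.length) h'
    simp only [List.length_append, List.length_cons] at h2
    omega
  | succ n ih =>
    intro c st h
    obtain ⟨⟨p, l⟩, h1, h2⟩ := h
    rcases step_inv N x h1 with ⟨ho, hst⟩ | ⟨s', ho, hst⟩ | ⟨s', ho, hst⟩
    · simp only at hst ho
      subst hst
      obtain ⟨n1, n2, d, e, hn, hr1, hp, hr2⟩ := ih p st h2
      exact ⟨n1 + 1, n2, d, e, by omega, ⟨_, PNet.Step.arc c p st ho, hr1⟩, hp, hr2⟩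
    · simp only at hst ho
      subst hst
      obtain ⟨n1, n2, d, e, hn, hr1, hp, hr2⟩ := ih p (s' :: st) h2
      exact ⟨n1 + 1, n2, d, e, by omega, ⟨_, PNet.Step.push c s' p st ho, hr1⟩, hp, hr2⟩
    · simp only at hst ho
      cases st with
      | nil =>
        rw [List.nil_append, List.cons.injEq] at hst
        obtain ⟨h3, h4⟩ := hst
        subst h3
        subst h4
        exact ⟨0, n, c, p, by omega, rfl, ho, h2⟩
      | cons s2 st2 =>
        rw [List.cons_append, List.cons.injEq] at hst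
        obtain ⟨h3, h4⟩ := hst
        subst h3
        subst h4
        obtain ⟨n1, n2, d, e, hn, hr1, hp, hr2⟩ := ih p st2 h2
        exact ⟨n1 + 1, n2, d, e, by omega, ⟨_, PNet.Step.pop c s2 p st2 ho, hr1⟩, hp, hr2⟩

end RunTrX

open RunTrX

/-- PDA -/
theorem run_tr {I Q : Type*} (N : PNet I Q) (x : Set I) (n : ℕ) (a b : Q)
    (h : N.Run x n (a, []) (b, [])) :
    ∃ m ≤ n + 1, Tr pLeaf (pRule N x) m (a, b) := by
  induction n using Nat.strong_induction_on generalizing a b with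
  | _ n ih =>
    cases n with
    | zero =>
      have h' : (a, ([] : List Q)) = (b, []) := h
      have h2 : a = b := congrArg Prod.fst h'
      exact ⟨1, le_rfl, Tr.leaf _ h2⟩
    | succ n =>
      obtain ⟨⟨p, l⟩, h1, h2⟩ := h
      rcases step_inv N x h1 with ⟨ho, hst⟩ | ⟨s', ho, hst⟩ | ⟨s', ho, hst⟩
      · simp only at hst ho
        subst hst
        obtain ⟨m, hm, ht⟩ := ih n (Nat.lt_succ_self n) p b h2
        exact ⟨m + 1, by omega, Tr.node (a, b) (p, b) (b, b) m 1 (Or.inl ⟨ho, rfl, rfl⟩) ht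
          (Tr.leaf _ rfl)⟩
      · simp only at hst ho
        subst hst
        obtain ⟨n1, n2, d, e, hn, hr1, hp, hr2⟩ :=
          decomp N x s' [] b [] le_rfl n p [] h2
        obtain ⟨m1, hm1, ht1⟩ := ih n1 (by omega) p d hr1
        obtain ⟨m2, hm2, ht2⟩ := ih n2 (by omega) e b hr2
        exact ⟨m1 + m2, by omega, Tr.node (a, b) (p, d) (e, b) m1 m2
          (Or.inr ⟨s', ho, hp, rfl⟩) ht1 ht2⟩
      · simp at hst

/-- PDA -/
theorem tr_run {I Q : Type*} (N : PNet I Q) (x : Set I) (m : ℕ) (q : Q × Q)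
    (h : Tr pLeaf (pRule N x) m q) : ∃ n, N.Run x n (q.1, []) (q.2, []) := by
  induction h with
  | leaf a h =>
    have h' : a.1 = a.2 := h
    refine ⟨0, ?_⟩
    rw [h']
    exact rfl
  | node a b c n m hr hb hc ihb ihc =>
    rcases hr with ⟨ho, h1, h2⟩ | ⟨s, hpush, hpop, h2⟩
    · obtain ⟨k, hk⟩ := ihb
      rw [h1] at hk
      exact ⟨k + 1, ⟨_, PNet.Step.arc _ _ _ ho, hk⟩⟩
    · obtain ⟨k1, hk1⟩ := ihb
      obtain ⟨k2, hk2⟩ := ihc
      rw [h2] at hk2
      have hl := run_lift N x k1 _ _ hk1 [s]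
      have h3 : N.Run x (k2 + 1) (b.2, [s]) (a.2, []) :=
        ⟨_, PNet.Step.pop _ _ _ _ hpop, hk2⟩
      have h4 := run_trans N x k1 (k2 + 1) _ _ _ hl h3
      exact ⟨k1 + (k2 + 1) + 1, ⟨_, PNet.Step.push _ _ _ _ hpush, h4⟩⟩

end Pool.Agent.H870R2.LS
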