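import Pool.Agent.H870R2.LS.GameP
import Pool.Agent.H870R2.LS.RunTr

set_option autoImplicit false
set_option linter.unusedSectionVars false

/-! The lower bound for pushdown networks. -/

namespace Pool.Agent.H870R2.LS

open Finset

/-- **Lower bound for pushdown networks.** -/
theorem lower_pda {V Q : Type} [Fintype V] [Fintype Q] (N : PNet (Inp V) Q) (t : V)
    (hN : ∀ x, (∃ n, N.AccIn x n) ↔ Der x t) (T : ℕ)
    (hT : ∀ x, Der x t → ∃ n ≤ T, N.AccIn x n) (r : ℕ) (blk : Fin r → (Fin 5 ↪ V))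
    (hd : Pairwise fun i j => Disjoint (Set.range (blk i)) (Set.range (blk j)))
    (ht : ∀ i, t ∉ Set.range (blk i)) (hs : ∀ i, N.SymOn (blk i)) (k : ℕ) (hk : 1 ≤ k)
    (hr : 15000 * (Nat.log 2 T + 1) * k ^ 2 * (Nat.log 5 r + 2) ^ 2 ≤ r) :
    5 ^ k ≤ Fintype.card Q := by
  classical
  by_contra hcard
  rw [not_le] at hcard
  obtain ⟨s, hsdef⟩ : ∃ s, s = Nat.log 5 r + 2 := ⟨_, rfl⟩
  rw [← hsdef] at hr
  obtain ⟨L, hL⟩ : ∃ L, L = Nat.log 2 T + 1 := ⟨_, rfl⟩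
  rw [← hL] at hr
  have hL1 : 1 ≤ L := by omega
  have hs2 : 2 ≤ s := by omega
  obtain ⟨n, hn⟩ : ∃ n, n = s * (40 * k + 2) := ⟨_, rfl⟩
  obtain ⟨H, hH⟩ : ∃ H, H = 2 * (2 * L) + 4 := ⟨_, rfl⟩
  have h1 : H ≤ 8 * L := by omega
  have h2 : n + 1 ≤ 43 * (k * s) := by
    rw [hn]
    nlinarith
  have h3 : H * (n + 1) * (n + 1) ≤ r := by
    calc H * (n + 1) * (n + 1)
        ≤ (8 * L) * (43 * (k * s)) * (43 * (k * s)) :=
          Nat.mul_le_mul (Nat.mul_le_mul h1 h2) h2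
      _ = 14792 * (L * k ^ 2 * s ^ 2) := by ring
      _ ≤ 15000 * (L * k ^ 2 * s ^ 2) := Nat.mul_le_mul_right _ (by norm_num)
      _ = 15000 * L * k ^ 2 * s ^ 2 := by ring
      _ ≤ r := hr
  have hlt : r < 5 ^ (Nat.log 5 r + 1) := Nat.lt_pow_succ_log_self (by norm_num) r
  have hs5 : 5 * (H * (n + 1) * (n + 1)) ≤ 5 ^ s := by
    calc 5 * (H * (n + 1) * (n + 1)) ≤ 5 * 5 ^ (Nat.log 5 r + 1) :=
          Nat.mul_le_mul_left _ (h3.trans hlt.le)
      _ = 5 ^ s := by rw [hsdef, pow_succ 5 (Nat.log 5 r + 1)]; ring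
  obtain ⟨M, hM⟩ := exists_spread H n (20 * k + 1) (20 * k + 1) s (by omega) hs5 (by
    have : 20 * k + 1 + (20 * k + 1) = 40 * k + 2 := by ring
    rw [this, ← hn]
    exact Nat.lt_succ_self _)
  have hcardP : Fintype.card (Pla H n) ≤ Fintype.card (Fin r) := by
    rw [Fintype.card_fin]
    show Fintype.card (Fin H × Fin (n + 1) × Fin (n + 1)) ≤ r
    rw [Fintype.card_prod, Fintype.card_prod, Fintype.card_fin, Fintype.card_fin, ← mul_assoc]
    exact h3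
  obtain ⟨ei⟩ : Nonempty (Pla H n ↪ Fin r) := Function.Embedding.nonempty_of_card_le hcardP
  obtain ⟨z, hz0, hz⟩ : ∃ z : Pla H n, z.1.val = 0 ∧ z.2.2 = Fin.last n :=
    ⟨(⟨0, by omega⟩, 0, Fin.last n), rfl, rfl⟩
  have hyes : Der (insG blk ei M t z (0, 0)) t := insG_yes blk ei M t z
  obtain ⟨n0, hn0, hacc⟩ := hT _ hyes
  obtain ⟨m, hm, htr⟩ := run_tr N _ n0 N.src N.tgt hacc
  have hTlt : T < 2 ^ L := by
    rw [hL]
    exact Nat.lt_pow_succ_log_self (by norm_num) T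
  have hm3 : m * 2 ^ (2 * L) ≤ 3 ^ (2 * L) := by
    have h5 : m ≤ 2 ^ L := by omega
    calc m * 2 ^ (2 * L) ≤ 2 ^ L * 2 ^ (2 * L) := Nat.mul_le_mul_right _ h5
      _ = 8 ^ L := by
        rw [← pow_add, show L + 2 * L = 3 * L by ring, pow_mul]
        norm_num
      _ ≤ 9 ^ L := Nat.pow_le_pow_left (by norm_num) L
      _ = 3 ^ (2 * L) := by
        rw [pow_mul]
        norm_num
  have h6 := gameP N t r blk hd ht hs k hk hcard H n ei M hM z hz0 hz (2 * L) (by omega) m hm3 htr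
  obtain ⟨n1, hn1⟩ := tr_run N _ m (N.src, N.tgt) h6
  exact insG_no blk ei M t z hd ht ((hN _).1 ⟨n1, hn1⟩)

end Pool.Agent.H870R2.LS
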