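import Pool.Agent.H870R2.LS.TemR

set_option autoImplicit false
set_option linter.unusedSectionVars false

/-! The lower bound for the template function, final form. -/

namespace Pool.Agent.H870R2.LS

theorem tem_final {Q : Type} [Fintype Q] (H n : ℕ) (h : 0 < H) (C : Ckt (Inp (TEl H n)) Q)
    (hC : ∀ x, C.val x C.out = true ↔ Tem H n h x) (R : ℕ) (hRH : R ≤ H)
    (hs : ∀ v : Pla H n, v.1.val < R → C.SymOn (tblk v)) (k : ℕ) (hk : 1 ≤ k)
    (hn : (Nat.log 5 (H * (n + 1) * (n + 1)) + 2) * (16 * k + 2) ≤ n)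
    (hR : 3 * (C.rank C.out + 1) * (k + 1) + 2 ≤ R ∨
      (∀ g N N', N 1 = N' 1 → C.F g N = C.F g N') ∧ 2 * (C.rank C.out + 1) + 2 ≤ R) :
    5 ^ k ≤ Fintype.card Q := by
  by_contra hcard
  rw [not_le] at hcard
  have hs5 : 5 * (H * (n + 1) * (n + 1)) ≤ 5 ^ (Nat.log 5 (H * (n + 1) * (n + 1)) + 2) := by
    have h1 : H * (n + 1) * (n + 1) < 5 ^ (Nat.log 5 (H * (n + 1) * (n + 1)) + 1) :=
      Nat.lt_pow_succ_log_self (by norm_num) _
    rw [pow_succ 5 (Nat.log 5 (H * (n + 1) * (n + 1)) + 1)]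
    omega
  rcases hR with hR | ⟨hF, hR⟩
  · refine tem_lowerR H n h C hC R hRH hs k hk hcard (3 * k + 1) (Or.inl ?_) _ ?_ hs5 (by omega)
    · have h4 : (5 : ℕ) ^ k ≤ 8 ^ k := Nat.pow_le_pow_left (by norm_num) k
      have h5 : (2 : ℕ) ^ (3 * k + 1) = 8 ^ k * 2 := by
        rw [pow_succ, pow_mul]
        norm_num
      rw [h5]
      omega
    · calc (C.rank C.out + 1) * (3 * k + 1 + 2) + 2 = 3 * (C.rank C.out + 1) * (k + 1) + 2 := by
            ring
        _ ≤ R := hR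
  · refine tem_lowerR H n h C hC R hRH hs k hk hcard 0 (Or.inr ?_) _ ?_ hs5 (by omega)
    · intro g N N' hN
      exact hF g N N' (hN 1 (by norm_num))
    · omega

end Pool.Agent.H870R2.LS
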