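import Pool.Agent.H870R2.LS.SCUp

set_option autoImplicit false
set_option linter.unusedSectionVars false

/-! Shallow layered circuits for the template function (task NCUP, helper25). -/

namespace Pool.Agent.H870R2.LS

namespace NCUp

/-- The gates. `V i c e`: label `e` is derivable at the last place of the chain `(i, c)`;
`PO i c l j a e`: relation between the labels at the places `j 2^l` and `(j + 1) 2^l`;
`TA`, `PA`: AND gates for the levels `0` and `l + 1`; `IO i c l e`: label `e` is derivable at the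
first place (delayed); `IA`, `IB`: AND gates for the levels `0` and `l + 1`. -/
inductive Gate (H p : ℕ) : Type
  | V (i : Fin H) (c : Fin (2 ^ p + 1)) (e : ZMod 5)
  | PO (i : Fin H) (c : Fin (2 ^ p + 1)) (l : Fin (p + 1)) (j : Fin (2 ^ p)) (a e : ZMod 5)
  | TA (i : Fin H) (c : Fin (2 ^ p + 1)) (j : Fin (2 ^ p)) (a f e : ZMod 5)
  | PA (i : Fin H) (c : Fin (2 ^ p + 1)) (l : Fin p) (j : Fin (2 ^ p)) (a f e : ZMod 5)
  | IO (i : Fin H) (c : Fin (2 ^ p + 1)) (l : Fin (p + 1)) (e : ZMod 5)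
  | IA (i : Fin H) (c : Fin (2 ^ p + 1)) (a b e : ZMod 5)
  | IB (i : Fin H) (c : Fin (2 ^ p + 1)) (l : Fin p) (e : ZMod 5)
  | VA (i : Fin H) (c : Fin (2 ^ p + 1)) (a e : ZMod 5)
  | OA (e : ZMod 5)
  | out

variable {H p : ℕ}

/-- codes -/
abbrev Cd (H p : ℕ) : Type :=
  (Fin H × Fin (2 ^ p + 1) × ZMod 5) ⊕
  (Fin H × Fin (2 ^ p + 1) × Fin (p + 1) × Fin (2 ^ p) × ZMod 5 × ZMod 5) ⊕
  (Fin H × Fin (2 ^ p + 1) × Fin (2 ^ p) × ZMod 5 × ZMod 5 × ZMod 5) ⊕
  (Fin H × Fin (2 ^ p + 1) × Fin p × Fin (2 ^ p) × ZMod 5 × ZMod 5 × ZMod 5) ⊕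
  (Fin H × Fin (2 ^ p + 1) × Fin (p + 1) × ZMod 5) ⊕
  (Fin H × Fin (2 ^ p + 1) × ZMod 5 × ZMod 5 × ZMod 5) ⊕
  (Fin H × Fin (2 ^ p + 1) × Fin p × ZMod 5) ⊕
  (Fin H × Fin (2 ^ p + 1) × ZMod 5 × ZMod 5) ⊕ ZMod 5 ⊕ Unit

/-- code of a gate -/
def code : Gate H p → Cd H p
  | .V i c e => .inl (i, c, e)
  | .PO i c l j a e => .inr (.inl (i, c, l, j, a, e))
  | .TA i c j a f e => .inr (.inr (.inl (i, c, j, a, f, e)))
  | .PA i c l j a f e => .inr (.inr (.inr (.inl (i, c, l, j, a, f, e))))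
  | .IO i c l e => .inr (.inr (.inr (.inr (.inl (i, c, l, e)))))
  | .IA i c a b e => .inr (.inr (.inr (.inr (.inr (.inl (i, c, a, b, e))))))
  | .IB i c l e => .inr (.inr (.inr (.inr (.inr (.inr (.inl (i, c, l, e)))))))
  | .VA i c a e => .inr (.inr (.inr (.inr (.inr (.inr (.inr (.inl (i, c, a, e))))))))
  | .OA e => .inr (.inr (.inr (.inr (.inr (.inr (.inr (.inr (.inl e))))))))
  | .out => .inr (.inr (.inr (.inr (.inr (.inr (.inr (.inr (.inr ()))))))))

theorem code_inj : Function.Injective (code : Gate H p → Cd H p) := by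
  intro g g' h
  cases g <;> cases g' <;> simp_all [code]

noncomputable instance : Fintype (Gate H p) := Fintype.ofInjective code code_inj

theorem card_le (h : 0 < H) :
    Fintype.card (Gate H p) ≤ 1000 * (p + 1) * H * (2 ^ p + 1) ^ 2 := by
  refine (Fintype.card_le_of_injective code code_inj).trans ?_
  simp only [Fintype.card_sum, Fintype.card_prod, Fintype.card_fin, ZMod.card, Fintype.card_unit]
  set n := 2 ^ p with hn
  have h1 : 1 ≤ H * (n + 1) := Nat.one_le_iff_ne_zero.2 (by positivity)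
  have h2 : H * (n + 1) ≤ H * (n + 1) * (n + 1) := Nat.le_mul_of_pos_right _ (by positivity)
  have h3 : H * (n + 1) * (n + 1) ≤ H * (n + 1) * (n + 1) * (p + 1) :=
    Nat.le_mul_of_pos_right _ (by positivity)
  have h4 : H * (n + 1) * (p + 1) ≤ H * (n + 1) * (n + 1) * (p + 1) :=
    Nat.mul_le_mul_right _ h2
  have h5 : H * (n + 1) * p ≤ H * (n + 1) * (p + 1) := Nat.mul_le_mul_left _ (Nat.le_succ p)
  have h6 : H * (n + 1) * n * (p + 1) ≤ H * (n + 1) * (n + 1) * (p + 1) :=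
    Nat.mul_le_mul_right _ (Nat.mul_le_mul_left _ (Nat.le_succ n))
  have h7 : H * (n + 1) * n ≤ H * (n + 1) * (n + 1) := Nat.mul_le_mul_left _ (Nat.le_succ n)
  have h8 : H * (n + 1) * n * p ≤ H * (n + 1) * n * (p + 1) :=
    Nat.mul_le_mul_left _ (Nat.le_succ p)
  have e : 1000 * (p + 1) * H * (n + 1) ^ 2 = 1000 * (H * (n + 1) * (n + 1) * (p + 1)) := by ring
  rw [e]
  have e1 : H * ((n + 1) * 5) = 5 * (H * (n + 1)) := by ring
  have e2 : H * ((n + 1) * ((p + 1) * (n * (5 * 5)))) = 25 * (H * (n + 1) * n * (p + 1)) := by ring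
  have e3 : H * ((n + 1) * (n * (5 * (5 * 5)))) = 125 * (H * (n + 1) * n) := by ring
  have e4 : H * ((n + 1) * (p * (n * (5 * (5 * 5))))) = 125 * (H * (n + 1) * n * p) := by ring
  have e5 : H * ((n + 1) * ((p + 1) * 5)) = 5 * (H * (n + 1) * (p + 1)) := by ring
  have e6 : H * ((n + 1) * (5 * (5 * 5))) = 125 * (H * (n + 1)) := by ring
  have e7 : H * ((n + 1) * (p * 5)) = 5 * (H * (n + 1) * p) := by ring
  have e8 : H * ((n + 1) * (5 * 5)) = 25 * (H * (n + 1)) := by ring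
  rw [e1, e2, e3, e4, e5, e6, e7, e8]
  omega

/-- base layer of the row `i` -/
def bs (H p i : ℕ) : ℕ := (H - 1 - i) * (2 * p + 4)

theorem bs_succ {i : ℕ} (h : i + 1 < H) : bs H p i = bs H p (i + 1) + (2 * p + 4) := by
  unfold bs
  obtain ⟨m, hm⟩ : ∃ m, H - 1 - i = m + 1 := ⟨H - 1 - i - 1, by omega⟩
  have hm' : H - 1 - (i + 1) = m := by omega
  rw [hm, hm']
  ring

theorem bs_le (h : 0 < H) (i : ℕ) : bs H p i + (2 * p + 4) ≤ (2 * p + 4) * H := by
  unfold bs
  have h1 : (H - 1 - i) * (2 * p + 4) ≤ (H - 1) * (2 * p + 4) := Nat.mul_le_mul_right _ (by omega)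
  obtain ⟨m, rfl⟩ : ∃ m, H = m + 1 := ⟨H - 1, by omega⟩
  have h2 : (2 * p + 4) * (m + 1) = m * (2 * p + 4) + (2 * p + 4) := by ring
  rw [h2]
  simp only [Nat.add_sub_cancel] at h1 ⊢
  omega

/-- layers -/
def lay : Gate H p → ℕ
  | .V i _ _ => bs H p i.val
  | .PO i _ l _ _ _ => bs H p (i.val + 1) + 2 * l.val + 2
  | .TA i _ _ _ _ _ => bs H p (i.val + 1) + 1
  | .PA i _ l _ _ _ _ => bs H p (i.val + 1) + 2 * l.val + 3
  | .IO i _ l _ => bs H p (i.val + 1) + 2 * l.val + 2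
  | .IA i _ _ _ _ => bs H p (i.val + 1) + 1
  | .IB i _ l _ => bs H p (i.val + 1) + 2 * l.val + 3
  | .VA i _ _ _ => bs H p (i.val + 1) + 2 * p + 3
  | .OA _ => bs H p 0 + 1
  | .out => bs H p 0 + 2

/-- types of the gates -/
def cj : Gate H p → Bool
  | .V _ _ _ => false
  | .PO _ _ _ _ _ _ => false
  | .TA _ _ _ _ _ _ => true
  | .PA _ _ _ _ _ _ _ => true
  | .IO _ _ _ _ => false
  | .IA _ _ _ _ _ => true
  | .IB _ _ _ _ => true
  | .VA _ _ _ _ => true
  | .OA _ => true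
  | .out => false

/-- the variable of a rule -/
abbrev ru {V : Type*} (a b c : V) {Q : Type*} : Src (Inp V) Q := some (Sum.inl (Sum.inr (a, b, c), true))

/-- the inputs of the gates -/
def ins (h : 0 < H) : Gate H p → Set (Src (Inp (TEl H (2 ^ p))) (Gate H p))
  | .V i c e => {s |
      (¬ (i.val + 1 < H) ∧ s = some (Sum.inl (Sum.inl (some ((i, c, Fin.last _), e)), true))) ∨
      (i.val + 1 < H ∧ ∃ a, s = some (Sum.inr (.VA i c a e)))}
  | .PO i c l j a e => {s |
      (l = 0 ∧ i.val + 1 < H ∧ ∃ f, s = some (Sum.inr (.TA i c j a f e))) ∨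
      (∃ l' : Fin p, l = l'.succ ∧ 2 * j.val + 1 < 2 ^ p ∧
        ∃ f, s = some (Sum.inr (.PA i c l' j a f e)))}
  | .TA i c j a f e => {s | ∃ hi : i.val + 1 < H,
      s = ru (some ((i, c, j.castSucc), a)) (some ((⟨i.val + 1, hi⟩, j.succ, Fin.last _), f))
        (some ((i, c, j.succ), e)) ∨
      s = some (Sum.inr (.V ⟨i.val + 1, hi⟩ j.succ f))}
  | .PA i c l j a f e => {s | ∃ hj : 2 * j.val + 1 < 2 ^ p,
      s = some (Sum.inr (.PO i c l.castSucc ⟨2 * j.val, by omega⟩ a f)) ∨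
      s = some (Sum.inr (.PO i c l.castSucc ⟨2 * j.val + 1, hj⟩ f e))}
  | .IO i c l e => {s |
      (l = 0 ∧ i.val + 1 < H ∧ ∃ a b, s = some (Sum.inr (.IA i c a b e))) ∨
      (∃ l' : Fin p, l = l'.succ ∧ s = some (Sum.inr (.IB i c l' e)))}
  | .IA i c a b e => {s | ∃ hi : i.val + 1 < H,
      s = ru (some ((⟨i.val + 1, hi⟩, 0, Fin.last _), a)) (some ((⟨i.val + 1, hi⟩, 0, Fin.last _), b))
        (some ((i, c, 0), e)) ∨
      s = some (Sum.inr (.V ⟨i.val + 1, hi⟩ 0 a)) ∨ s = some (Sum.inr (.V ⟨i.val + 1, hi⟩ 0 b))}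
  | .IB i c l e => {s | s = some (Sum.inr (.IO i c l.castSucc e))}
  | .VA i c a e => {s | s = some (Sum.inr (.IO i c (Fin.last _) a)) ∨
      s = some (Sum.inr (.PO i c (Fin.last _) ⟨0, Nat.two_pow_pos p⟩ a e))}
  | .OA e => {s | s = ru (some (rootP H (2 ^ p) h, e)) (some (rootP H (2 ^ p) h, e)) none ∨
      s = some (Sum.inr (.V ⟨0, h⟩ 0 e))}
  | .out => {s | ∃ e, s = some (Sum.inr (.OA e))}

/-- the circuit -/
def ck (H p : ℕ) (h : 0 < H) : LCkt (Inp (TEl H (2 ^ p))) (Gate H p) where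
  conj := cj
  ins := ins h
  lay := lay
  out := .out
  layered := by
    intro g q hg
    cases g with
    | V i c e =>
      rcases hg with ⟨_, hs⟩ | ⟨hi, a, hs⟩
      · simp at hs
      · simp only [Option.some.injEq, Sum.inr.injEq] at hs
        subst hs
        have := bs_succ (p := p) hi
        simp only [lay]
        omega
    | PO i c l j a e =>
      rcases hg with ⟨rfl, hi, f, hs⟩ | ⟨l', rfl, hj, f, hs⟩
      · simp only [Option.some.injEq, Sum.inr.injEq] at hs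
        subst hs
        simp [lay]
      · simp only [Option.some.injEq, Sum.inr.injEq] at hs
        subst hs
        simp only [lay, Fin.val_succ]
        omega
    | TA i c j a f e =>
      obtain ⟨hi, hs | hs⟩ := hg
      · simp at hs
      · simp only [Option.some.injEq, Sum.inr.injEq] at hs
        subst hs
        simp only [lay]
    | PA i c l j a f e =>
      obtain ⟨hj, hs | hs⟩ := hg
      · simp only [Option.some.injEq, Sum.inr.injEq] at hs
        subst hs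
        simp only [lay, Fin.val_castSucc]
      · simp only [Option.some.injEq, Sum.inr.injEq] at hs
        subst hs
        simp only [lay, Fin.val_castSucc]
    | IO i c l e =>
      rcases hg with ⟨rfl, hi, a, b, hs⟩ | ⟨l', rfl, hs⟩
      · simp only [Option.some.injEq, Sum.inr.injEq] at hs
        subst hs
        simp [lay]
      · simp only [Option.some.injEq, Sum.inr.injEq] at hs
        subst hs
        simp only [lay, Fin.val_succ]
        omega
    | IA i c a b e =>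
      obtain ⟨hi, hs | hs | hs⟩ := hg
      · simp at hs
      · simp only [Option.some.injEq, Sum.inr.injEq] at hs
        subst hs
        simp only [lay]
      · simp only [Option.some.injEq, Sum.inr.injEq] at hs
        subst hs
        simp only [lay]
    | IB i c l e =>
      have hs : some (Sum.inr q) = some (Sum.inr (Gate.IO i c l.castSucc e)) := hg
      simp only [Option.some.injEq, Sum.inr.injEq] at hs
      subst hs
      simp only [lay, Fin.val_castSucc]
    | VA i c a e =>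
      rcases hg with hs | hs
      · simp only [Option.some.injEq, Sum.inr.injEq] at hs
        subst hs
        simp only [lay, Fin.val_last]
      · simp only [Option.some.injEq, Sum.inr.injEq] at hs
        subst hs
        simp only [lay, Fin.val_last]
    | OA e =>
      rcases hg with hs | hs
      · simp at hs
      · simp only [Option.some.injEq, Sum.inr.injEq] at hs
        subst hs
        simp only [lay]
    | out =>
      obtain ⟨a, hs⟩ := hg
      simp only [Option.some.injEq, Sum.inr.injEq] at hs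
      subst hs
      simp only [lay]

theorem lay_le (h : 0 < H) (g : Gate H p) : lay g ≤ (2 * p + 6) * H := by
  have h0 : (2 * p + 6) * H = (2 * p + 4) * H + 2 * H := by ring
  rw [h0]
  cases g with
  | V i c e => have := bs_le (p := p) h i.val; simp only [lay]; omega
  | PO i c l j a e =>
    have := bs_le (p := p) h (i.val + 1)
    have := l.isLt
    simp only [lay]; omega
  | TA i c j a f e => have := bs_le (p := p) h (i.val + 1); simp only [lay]; omega
  | PA i c l j a f e =>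
    have := bs_le (p := p) h (i.val + 1)
    have := l.isLt
    simp only [lay]; omega
  | IO i c l e =>
    have := bs_le (p := p) h (i.val + 1)
    have := l.isLt
    simp only [lay]; omega
  | IA i c a b e => have := bs_le (p := p) h (i.val + 1); simp only [lay]; omega
  | IB i c l e =>
    have := bs_le (p := p) h (i.val + 1)
    have := l.isLt
    simp only [lay]; omega
  | VA i c a e => have := bs_le (p := p) h (i.val + 1); simp only [lay]; omega
  | OA e => have := bs_le (p := p) h 0; simp only [lay]; omega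
  | out => have := bs_le (p := p) h 0; simp only [lay]; omega

theorem fan_in (h : 0 < H) (g : Gate H p) : (ins h g).ncard ≤ 25 := by
  cases g with
  | V i c e =>
    by_cases hi : i.val + 1 < H
    · refine (SCUp.ncard_le_of_range (fun z : ZMod 5 => (some (Sum.inr (Gate.VA i c z e)) :
        Src (Inp (TEl H (2 ^ p))) (Gate H p))) _ ?_).trans ?_
      · rintro s (⟨h', _⟩ | ⟨_, a, rfl⟩)
        · exact absurd hi h'
        · exact ⟨a, rfl⟩
      · simp [ZMod.card]
    · refine (SCUp.ncard_le_of_range (fun _ : Unit =>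
        (some (Sum.inl (Sum.inl (some ((i, c, Fin.last _), e)), true)) :
        Src (Inp (TEl H (2 ^ p))) (Gate H p))) _ ?_).trans ?_
      · rintro s (⟨_, rfl⟩ | ⟨h', _⟩)
        · exact ⟨(), rfl⟩
        · exact absurd h' hi
      · simp
  | PO i c l j a e =>
    refine (SCUp.ncard_le_of_range (fun z : ZMod 5 ⊕ (ZMod 5 × Unit) =>
      Sum.elim (fun f => (some (Sum.inr (Gate.TA i c j a f e)) :
        Src (Inp (TEl H (2 ^ p))) (Gate H p)))
        (fun f => if hl : ∃ l' : Fin p, l = l'.succ then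
          some (Sum.inr (Gate.PA i c hl.choose j a f.1 e)) else none) z) _ ?_).trans ?_
    · rintro s (⟨_, _, f, rfl⟩ | ⟨l', hl', _, f, rfl⟩)
      · exact ⟨Sum.inl f, rfl⟩
      · refine ⟨Sum.inr (f, ()), ?_⟩
        have hl : ∃ l' : Fin p, l = l'.succ := ⟨l', hl'⟩
        simp only [Sum.elim_inr, dif_pos hl]
        have h1 : hl.choose = l' := by
          have := hl.choose_spec
          exact Fin.succ_injective _ (this.symm.trans hl')
        rw [h1]
    · simp [ZMod.card]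
  | TA i c j a f e =>
    by_cases hi : i.val + 1 < H
    · refine (SCUp.ncard_le_of_range (fun z : Fin 2 =>
        (![ru (some ((i, c, j.castSucc), a)) (some ((⟨i.val + 1, hi⟩, j.succ, Fin.last _), f))
        (some ((i, c, j.succ), e)), some (Sum.inr (Gate.V ⟨i.val + 1, hi⟩ j.succ f))] z :
        Src (Inp (TEl H (2 ^ p))) (Gate H p))) _ ?_).trans ?_
      · rintro s ⟨_, rfl | rfl⟩
        · exact ⟨0, rfl⟩
        · exact ⟨1, rfl⟩
      · simp
    · have : ins h (Gate.TA i c j a f e) = ∅ := by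
        ext s
        simp only [Set.mem_empty_iff_false, iff_false]
        rintro ⟨hi', _⟩
        exact hi hi'
      rw [this]
      simp
  | PA i c l j a f e =>
    by_cases hj : 2 * j.val + 1 < 2 ^ p
    · refine (SCUp.ncard_le_of_range (fun z : Fin 2 =>
        (![some (Sum.inr (Gate.PO i c l.castSucc ⟨2 * j.val, by omega⟩ a f)),
          some (Sum.inr (Gate.PO i c l.castSucc ⟨2 * j.val + 1, hj⟩ f e))] z :
        Src (Inp (TEl H (2 ^ p))) (Gate H p))) _ ?_).trans ?_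
      · rintro s ⟨_, rfl | rfl⟩
        · exact ⟨0, rfl⟩
        · exact ⟨1, rfl⟩
      · simp
    · have : ins h (Gate.PA i c l j a f e) = ∅ := by
        ext s
        simp only [Set.mem_empty_iff_false, iff_false]
        rintro ⟨hj', _⟩
        exact hj hj'
      rw [this]
      simp
  | IO i c l e =>
    by_cases hl0 : l = 0
    · refine (SCUp.ncard_le_of_range (fun z : ZMod 5 × ZMod 5 =>
        (some (Sum.inr (Gate.IA i c z.1 z.2 e)) :
        Src (Inp (TEl H (2 ^ p))) (Gate H p))) _ ?_).trans ?_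
      · rintro s (⟨_, _, a, b, rfl⟩ | ⟨l', hl', rfl⟩)
        · exact ⟨(a, b), rfl⟩
        · rw [hl0] at hl'
          exact absurd hl'.symm (Fin.succ_ne_zero l')
      · simp [ZMod.card]
    · obtain ⟨l1, hl1⟩ := Fin.exists_succ_eq.2 hl0
      refine (SCUp.ncard_le_of_range (fun _ : Unit =>
        (some (Sum.inr (Gate.IB i c l1 e)) :
        Src (Inp (TEl H (2 ^ p))) (Gate H p))) _ ?_).trans ?_
      · rintro s (⟨h', _⟩ | ⟨l', hl', rfl⟩)
        · exact absurd h' hl0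
        · refine ⟨(), ?_⟩
          rw [← hl1] at hl'
          rw [Fin.succ_injective _ hl']
      · simp
  | IA i c a b e =>
    by_cases hi : i.val + 1 < H
    · refine (SCUp.ncard_le_of_range (fun z : Fin 3 =>
        (![ru (some ((⟨i.val + 1, hi⟩, 0, Fin.last _), a))
          (some ((⟨i.val + 1, hi⟩, 0, Fin.last _), b)) (some ((i, c, 0), e)),
          some (Sum.inr (Gate.V ⟨i.val + 1, hi⟩ 0 a)),
          some (Sum.inr (Gate.V ⟨i.val + 1, hi⟩ 0 b))] z :
        Src (Inp (TEl H (2 ^ p))) (Gate H p))) _ ?_).trans ?_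
      · rintro s ⟨_, rfl | rfl | rfl⟩
        · exact ⟨0, rfl⟩
        · exact ⟨1, rfl⟩
        · exact ⟨2, rfl⟩
      · simp
    · have : ins h (Gate.IA i c a b e) = ∅ := by
        ext s
        simp only [Set.mem_empty_iff_false, iff_false]
        rintro ⟨hi', _⟩
        exact hi hi'
      rw [this]
      simp
  | IB i c l e =>
    refine (SCUp.ncard_le_of_range (fun _ : Unit =>
        (some (Sum.inr (Gate.IO i c l.castSucc e)) :
        Src (Inp (TEl H (2 ^ p))) (Gate H p))) _ ?_).trans ?_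
    · rintro s rfl
      exact ⟨(), rfl⟩
    · simp
  | VA i c a e =>
    refine (SCUp.ncard_le_of_range (fun z : Fin 2 =>
        (![some (Sum.inr (.IO i c (Fin.last _) a)),
          some (Sum.inr (.PO i c (Fin.last _) ⟨0, Nat.two_pow_pos p⟩ a e))] z :
        Src (Inp (TEl H (2 ^ p))) (Gate H p))) _ ?_).trans ?_
    · rintro s (rfl | rfl)
      · exact ⟨0, rfl⟩
      · exact ⟨1, rfl⟩
    · simp
  | OA e =>
    refine (SCUp.ncard_le_of_range (fun z : Fin 2 =>
        (![ru (some (rootP H (2 ^ p) h, e)) (some (rootP H (2 ^ p) h, e)) none,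
          some (Sum.inr (.V ⟨0, h⟩ 0 e))] z :
        Src (Inp (TEl H (2 ^ p))) (Gate H p))) _ ?_).trans ?_
    · rintro s (rfl | rfl)
      · exact ⟨0, rfl⟩
      · exact ⟨1, rfl⟩
    · simp
  | out =>
    refine (SCUp.ncard_le_of_range (fun z : ZMod 5 =>
        (some (Sum.inr (.OA z)) : Src (Inp (TEl H (2 ^ p))) (Gate H p))) _ ?_).trans ?_
    · rintro s ⟨a, rfl⟩
      exact ⟨a, rfl⟩
    · simp [ZMod.card]

/-! ### correctness -/

section sem
variable (h : 0 < H) (x : Set (Inp (TEl H (2 ^ p))))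

/-- derivable labels -/
abbrev D (v : Pla H (2 ^ p)) (a : ZMod 5) : Prop := Der (x ∩ tmpl H (2 ^ p) h) (some (v, a))

/-- one step of the chain -/
def one (i : Fin H) (c : Fin (2 ^ p + 1)) (j : ℕ) (a e : ZMod 5) : Prop :=
  ∃ (hi : i.val + 1 < H) (hj : j < 2 ^ p) (f : ZMod 5),
    Sum.inr (some ((i, c, Fin.castSucc ⟨j, hj⟩), a),
      some ((⟨i.val + 1, hi⟩, Fin.succ ⟨j, hj⟩, Fin.last _), f),
      some ((i, c, Fin.succ ⟨j, hj⟩), e)) ∈ x ∧
    D h x (⟨i.val + 1, hi⟩, Fin.succ ⟨j, hj⟩, Fin.last _) f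

/-- several steps of the chain -/
def rel (i : Fin H) (c : Fin (2 ^ p + 1)) (b : ℕ) : ℕ → ZMod 5 → ZMod 5 → Prop
  | 0, a, e => a = e
  | m + 1, a, e => ∃ f, rel i c b m a f ∧ one h x i c (b + m) f e

theorem rel_add (i : Fin H) (c : Fin (2 ^ p + 1)) (b m m' : ℕ) (a e : ZMod 5) :
    rel h x i c b (m + m') a e ↔ ∃ f, rel h x i c b m a f ∧ rel h x i c (b + m) m' f e := by
  induction m' generalizing e with
  | zero =>
    constructor
    · intro h1
      exact ⟨e, h1, rfl⟩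
    · rintro ⟨f, h1, rfl⟩
      exact h1
  | succ m' ih =>
    constructor
    · rintro ⟨f, h1, h2⟩
      obtain ⟨f', h3, h4⟩ := (ih f).1 h1
      refine ⟨f', h3, f, h4, ?_⟩
      rw [add_assoc]
      exact h2
    · rintro ⟨f', h3, f, h4, h5⟩
      refine ⟨f, (ih f).2 ⟨f', h3, h4⟩, ?_⟩
      rw [add_assoc] at h5
      exact h5

theorem rel_oob (i : Fin H) (c : Fin (2 ^ p + 1)) (b m : ℕ) (a e : ZMod 5)
    (hm : 0 < m) (hb : 2 ^ p < b + m) : ¬ rel h x i c b m a e := by
  obtain ⟨m, rfl⟩ : ∃ m', m = m' + 1 := ⟨m - 1, by omega⟩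
  rintro ⟨f, _, _, hj, _⟩
  omega

theorem rel_one (i : Fin H) (c : Fin (2 ^ p + 1)) (b : ℕ) (a e : ZMod 5) :
    rel h x i c b 1 a e ↔ one h x i c b a e := by
  constructor
  · rintro ⟨f, h1, h2⟩
    obtain rfl : a = f := h1
    exact h2
  · intro h2
    exact ⟨a, rfl, h2⟩

theorem lft_succ (i : Fin H) (c : Fin (2 ^ p + 1)) (j : Fin (2 ^ p)) (hi : i.val + 1 < H) :
    lft ((i, c, j.succ) : Pla H (2 ^ p)) hi = (i, c, j.castSucc) := by
  unfold lft
  rw [if_neg (Fin.succ_ne_zero j)]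
  rfl

theorem lft_zero (i : Fin H) (c : Fin (2 ^ p + 1)) (hi : i.val + 1 < H) :
    lft ((i, c, 0) : Pla H (2 ^ p)) hi = (⟨i.val + 1, hi⟩, 0, Fin.last _) := by
  unfold lft
  rw [if_pos rfl]
  rfl

theorem der_succ (i : Fin H) (c : Fin (2 ^ p + 1)) (j : Fin (2 ^ p)) (hi : i.val + 1 < H)
    (e : ZMod 5) : D h x (i, c, j.succ) e ↔ ∃ a, D h x (i, c, j.castSucc) a ∧
      one h x i c j.val a e := by
  have := SCUp.der_high h x (i, c, j.succ) hi e
  rw [lft_succ i c j hi] at this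
  show Der _ _ ↔ _
  rw [this]
  constructor
  · rintro ⟨a, b, h1, h2, h3⟩
    exact ⟨a, h2, hi, j.isLt, b, h1, h3⟩
  · rintro ⟨a, h2, _, hj, b, h1, h3⟩
    exact ⟨a, b, h1, h2, h3⟩

theorem der_zero (i : Fin H) (c : Fin (2 ^ p + 1)) (hi : i.val + 1 < H)
    (e : ZMod 5) : D h x (i, c, 0) e ↔ ∃ a b,
      Sum.inr (some ((⟨i.val + 1, hi⟩, 0, Fin.last _), a), some ((⟨i.val + 1, hi⟩, 0, Fin.last _), b),
        some ((i, c, 0), e)) ∈ x ∧ D h x (⟨i.val + 1, hi⟩, 0, Fin.last _) a ∧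
        D h x (⟨i.val + 1, hi⟩, 0, Fin.last _) b := by
  have := SCUp.der_high h x (i, c, 0) hi e
  rw [lft_zero i c hi] at this
  exact this

theorem chain (i : Fin H) (c : Fin (2 ^ p + 1)) (hi : i.val + 1 < H) (m : ℕ)
    (hm : m < 2 ^ p + 1) (e : ZMod 5) :
    D h x (i, c, ⟨m, hm⟩) e ↔ ∃ a, D h x (i, c, 0) a ∧ rel h x i c 0 m a e := by
  induction m generalizing e with
  | zero =>
    constructor
    · intro h1
      exact ⟨e, h1, rfl⟩
    · rintro ⟨a, h1, rfl⟩
      exact h1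
  | succ m ih =>
    have h1 := der_succ h x i c ⟨m, by omega⟩ hi e
    have h2 : (Fin.succ ⟨m, by omega⟩ : Fin (2 ^ p + 1)) = ⟨m + 1, hm⟩ := rfl
    rw [h2] at h1
    rw [h1]
    constructor
    · rintro ⟨f, h3, h4⟩
      obtain ⟨a, h5, h6⟩ := (ih (by omega) f).1 h3
      refine ⟨a, h5, f, h6, ?_⟩
      rw [zero_add]
      exact h4
    · rintro ⟨a, h5, f, h6, h4⟩
      rw [zero_add] at h4
      exact ⟨f, (ih (by omega) f).2 ⟨a, h5, h6⟩, h4⟩

/-- the meaning of the gates -/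
def Sem : Gate H p → Prop
  | .V i c e => D h x (i, c, Fin.last _) e
  | .PO i c l j a e => rel h x i c (j.val * 2 ^ l.val) (2 ^ l.val) a e
  | .TA i c j a f e => ∀ hi : i.val + 1 < H,
      Sum.inr (some ((i, c, j.castSucc), a), some ((⟨i.val + 1, hi⟩, j.succ, Fin.last _), f),
        some ((i, c, j.succ), e)) ∈ x ∧ D h x (⟨i.val + 1, hi⟩, j.succ, Fin.last _) f
  | .PA i c l j a f e => ∀ _ : 2 * j.val + 1 < 2 ^ p,
      rel h x i c (2 * j.val * 2 ^ l.val) (2 ^ l.val) a f ∧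
      rel h x i c ((2 * j.val + 1) * 2 ^ l.val) (2 ^ l.val) f e
  | .IO i c _ e => i.val + 1 < H ∧ D h x (i, c, 0) e
  | .IA i c a b e => ∀ hi : i.val + 1 < H,
      Sum.inr (some ((⟨i.val + 1, hi⟩, 0, Fin.last _), a), some ((⟨i.val + 1, hi⟩, 0, Fin.last _), b),
        some ((i, c, 0), e)) ∈ x ∧ D h x (⟨i.val + 1, hi⟩, 0, Fin.last _) a ∧
        D h x (⟨i.val + 1, hi⟩, 0, Fin.last _) b
  | .IB i c _ e => i.val + 1 < H ∧ D h x (i, c, 0) e
  | .VA i c a e => (i.val + 1 < H ∧ D h x (i, c, 0) a) ∧ rel h x i c (0 * 2 ^ p) (2 ^ p) a e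
  | .OA e => Sum.inr (some (rootP H (2 ^ p) h, e), some (rootP H (2 ^ p) h, e), none) ∈ x ∧
      D h x (rootP H (2 ^ p) h) e
  | .out => Der (x ∩ tmpl H (2 ^ p) h) none

theorem val_sem (g : Gate H p) : (ck H p h).Val x g ↔ Sem h x g := by
  apply SCUp.val_unique
  intro g
  cases g with
  | V i c e =>
    show D h x (i, c, Fin.last _) e ↔ ∃ s ∈ ins h (Gate.V i c e), SrcTrue x (Sem h x) s
    constructor
    · intro hd
      by_cases hi : i.val + 1 < H
      · obtain ⟨a, h1, h2⟩ := (chain h x i c hi (2 ^ p) (Nat.lt_succ_self _) e).1 hd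
        refine ⟨_, Or.inr ⟨hi, a, rfl⟩, ?_⟩
        refine ⟨⟨hi, h1⟩, ?_⟩
        rw [zero_mul]
        exact h2
      · refine ⟨_, Or.inl ⟨hi, rfl⟩, ?_⟩
        have := (SCUp.der_low h x (i, c, Fin.last _) hi e).1 hd
        simpa [SrcTrue] using this
    · rintro ⟨s, hs, ht⟩
      rcases hs with ⟨hi, rfl⟩ | ⟨hi, a, rfl⟩
      · refine (SCUp.der_low h x (i, c, Fin.last _) hi e).2 ?_
        simpa [SrcTrue] using ht
      · obtain ⟨⟨_, h1⟩, h2⟩ := ht
        rw [zero_mul] at h2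
        exact (chain h x i c hi (2 ^ p) (Nat.lt_succ_self _) e).2 ⟨a, h1, h2⟩
  | PO i c l j a e =>
    show rel h x i c (j.val * 2 ^ l.val) (2 ^ l.val) a e ↔
      ∃ s ∈ ins h (Gate.PO i c l j a e), SrcTrue x (Sem h x) s
    rcases Fin.eq_zero_or_eq_succ l with rfl | ⟨l', rfl⟩
    · have e0 : j.val * 2 ^ (0 : Fin (p + 1)).val = j.val := by simp
      have e1 : 2 ^ (0 : Fin (p + 1)).val = 1 := by simp
      rw [e0, e1, rel_one]
      constructor
      · rintro ⟨hi, hj, f, h1, h2⟩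
        exact ⟨_, Or.inl ⟨rfl, hi, f, rfl⟩, fun _ => ⟨h1, h2⟩⟩
      · rintro ⟨s, hs, ht⟩
        rcases hs with ⟨_, hi, f, rfl⟩ | ⟨l', hl', _⟩
        · obtain ⟨h1, h2⟩ := ht hi
          exact ⟨hi, j.isLt, f, h1, h2⟩
        · exact absurd hl'.symm (Fin.succ_ne_zero l')
    · have e1 : 2 ^ (l'.succ).val = 2 ^ l'.val + 2 ^ l'.val := by
        rw [Fin.val_succ, pow_succ]; ring
      have e0 : j.val * 2 ^ (l'.succ).val = 2 * j.val * 2 ^ l'.val := by
        rw [Fin.val_succ, pow_succ]; ring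
      have e2 : 2 * j.val * 2 ^ l'.val + 2 ^ l'.val = (2 * j.val + 1) * 2 ^ l'.val := by ring
      have hpos : 1 ≤ 2 ^ l'.val := Nat.one_le_two_pow
      rw [e0, e1]
      constructor
      · intro hr
        by_cases hj : 2 * j.val + 1 < 2 ^ p
        · obtain ⟨f, h1, h2⟩ := (rel_add h x i c _ _ _ a e).1 hr
          rw [e2] at h2
          exact ⟨_, Or.inr ⟨l', rfl, hj, f, rfl⟩, fun _ => ⟨h1, h2⟩⟩
        · exfalso
          refine rel_oob h x i c _ _ a e ?_ ?_ hr
          · omega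
          · have h3 : (2 * j.val + 2) * 1 ≤ (2 * j.val + 2) * 2 ^ l'.val := Nat.mul_le_mul_left _ hpos
            have h4 : 2 * j.val * 2 ^ l'.val + (2 ^ l'.val + 2 ^ l'.val) =
              (2 * j.val + 2) * 2 ^ l'.val := by ring
            rw [h4]
            omega
      · rintro ⟨s, hs, ht⟩
        rcases hs with ⟨hl', _⟩ | ⟨l1, hl', hj, f, rfl⟩
        · exact absurd hl' (Fin.succ_ne_zero l')
        · obtain rfl : l' = l1 := Fin.succ_injective _ hl'
          obtain ⟨h1, h2⟩ := ht hj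
          refine (rel_add h x i c _ _ _ a e).2 ⟨f, h1, ?_⟩
          rw [e2]
          exact h2
  | TA i c j a f e =>
    show (∀ hi : i.val + 1 < H, _) ↔ ∀ s ∈ ins h (Gate.TA i c j a f e), SrcTrue x (Sem h x) s
    constructor
    · rintro hall s ⟨hi, rfl | rfl⟩
      · simpa [SrcTrue] using (hall hi).1
      · exact (hall hi).2
    · intro hall hi
      refine ⟨?_, hall _ ⟨hi, Or.inr rfl⟩⟩
      have := hall _ ⟨hi, Or.inl rfl⟩
      simpa [SrcTrue] using this
  | PA i c l j a f e =>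
    show (∀ hj : 2 * j.val + 1 < 2 ^ p, _) ↔
      ∀ s ∈ ins h (Gate.PA i c l j a f e), SrcTrue x (Sem h x) s
    constructor
    · rintro hall s ⟨hj, rfl | rfl⟩
      · exact (hall hj).1
      · exact (hall hj).2
    · intro hall hj
      exact ⟨hall _ ⟨hj, Or.inl rfl⟩, hall _ ⟨hj, Or.inr rfl⟩⟩
  | IO i c l e =>
    show (i.val + 1 < H ∧ D h x (i, c, 0) e) ↔
      ∃ s ∈ ins h (Gate.IO i c l e), SrcTrue x (Sem h x) s
    rcases Fin.eq_zero_or_eq_succ l with rfl | ⟨l', rfl⟩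
    · constructor
      · rintro ⟨hi, hd⟩
        obtain ⟨a, b, h1, h2, h3⟩ := (der_zero h x i c hi e).1 hd
        exact ⟨_, Or.inl ⟨rfl, hi, a, b, rfl⟩, fun _ => ⟨h1, h2, h3⟩⟩
      · rintro ⟨s, hs, ht⟩
        rcases hs with ⟨_, hi, a, b, rfl⟩ | ⟨l', hl', _⟩
        · exact ⟨hi, (der_zero h x i c hi e).2 ⟨a, b, ht hi⟩⟩
        · exact absurd hl'.symm (Fin.succ_ne_zero l')
    · constructor
      · rintro hd
        exact ⟨_, Or.inr ⟨l', rfl, rfl⟩, hd⟩
      · rintro ⟨s, hs, ht⟩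
        rcases hs with ⟨hl', _⟩ | ⟨l1, hl', rfl⟩
        · exact absurd hl' (Fin.succ_ne_zero l')
        · exact ht
  | IA i c a b e =>
    show (∀ hi : i.val + 1 < H, _) ↔ ∀ s ∈ ins h (Gate.IA i c a b e), SrcTrue x (Sem h x) s
    constructor
    · rintro hall s ⟨hi, rfl | rfl | rfl⟩
      · simpa [SrcTrue] using (hall hi).1
      · exact (hall hi).2.1
      · exact (hall hi).2.2
    · intro hall hi
      refine ⟨?_, hall _ ⟨hi, Or.inr (Or.inl rfl)⟩, hall _ ⟨hi, Or.inr (Or.inr rfl)⟩⟩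
      have := hall _ ⟨hi, Or.inl rfl⟩
      simpa [SrcTrue] using this
  | IB i c l e =>
    show (i.val + 1 < H ∧ D h x (i, c, 0) e) ↔
      ∀ s ∈ ins h (Gate.IB i c l e), SrcTrue x (Sem h x) s
    constructor
    · rintro hd s rfl
      exact hd
    · intro hall
      exact hall _ rfl
  | VA i c a e =>
    show ((i.val + 1 < H ∧ D h x (i, c, 0) a) ∧ rel h x i c (0 * 2 ^ p) (2 ^ p) a e) ↔
      ∀ s ∈ ins h (Gate.VA i c a e), SrcTrue x (Sem h x) s
    constructor
    · rintro hall s (rfl | rfl)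
      · exact hall.1
      · exact hall.2
    · intro hall
      exact ⟨hall _ (Or.inl rfl), hall _ (Or.inr rfl)⟩
  | OA e =>
    show (_ ∧ _) ↔ ∀ s ∈ ins h (Gate.OA e), SrcTrue x (Sem h x) s
    constructor
    · rintro hall s (rfl | rfl)
      · simpa [SrcTrue] using hall.1
      · exact hall.2
    · intro hall
      refine ⟨?_, hall _ (Or.inr rfl)⟩
      have := hall _ (Or.inl rfl)
      simpa [SrcTrue] using this
  | out =>
    show Der (x ∩ tmpl H (2 ^ p) h) none ↔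
      ∃ s ∈ ins h Gate.out, SrcTrue x (Sem h x) s
    rw [SCUp.der_none]
    constructor
    · rintro ⟨a, h1, h2⟩
      exact ⟨_, ⟨a, rfl⟩, h1, h2⟩
    · rintro ⟨s, ⟨a, rfl⟩, ht⟩
      exact ⟨a, ht⟩

end sem

/-! ### automorphisms -/

/-- relabelling of the place `(i, c, m)` -/
def gn (g : Pla H (2 ^ p) → Equiv.Perm (ZMod 5)) (i : Fin H) (c : Fin (2 ^ p + 1)) (m : ℕ) :
    Equiv.Perm (ZMod 5) :=
  if h : m < 2 ^ p + 1 then g (i, c, ⟨m, h⟩) else 1

/-- relabelling of the right predecessor -/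
def gR (g : Pla H (2 ^ p) → Equiv.Perm (ZMod 5)) (i : Fin H) (m : Fin (2 ^ p + 1)) :
    Equiv.Perm (ZMod 5) :=
  if h : i.val + 1 < H then g (⟨i.val + 1, h⟩, m, Fin.last _) else 1

/-- the action on the gates -/
def gmap (h : 0 < H) (g : Pla H (2 ^ p) → Equiv.Perm (ZMod 5)) : Gate H p → Gate H p
  | .V i c e => .V i c (g (i, c, Fin.last _) e)
  | .PO i c l j a e => .PO i c l j (gn g i c (j.val * 2 ^ l.val) a)
      (gn g i c ((j.val + 1) * 2 ^ l.val) e)
  | .TA i c j a f e => .TA i c j (g (i, c, j.castSucc) a) (gR g i j.succ f) (g (i, c, j.succ) e)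
  | .PA i c l j a f e => .PA i c l j (gn g i c (2 * j.val * 2 ^ l.val) a)
      (gn g i c ((2 * j.val + 1) * 2 ^ l.val) f) (gn g i c ((2 * j.val + 1 + 1) * 2 ^ l.val) e)
  | .IO i c l e => .IO i c l (g (i, c, 0) e)
  | .IA i c a b e => .IA i c (gR g i 0 a) (gR g i 0 b) (g (i, c, 0) e)
  | .IB i c l e => .IB i c l (g (i, c, 0) e)
  | .VA i c a e => .VA i c (g (i, c, 0) a) (g (i, c, Fin.last _) e)
  | .OA e => .OA (g (rootP H (2 ^ p) h) e)
  | .out => .out

theorem gn_inv (g : Pla H (2 ^ p) → Equiv.Perm (ZMod 5)) (i : Fin H) (c : Fin (2 ^ p + 1)) (m : ℕ) :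
    gn (fun v => (g v)⁻¹) i c m = (gn g i c m)⁻¹ := by
  unfold gn
  split_ifs <;> simp

theorem gR_inv (g : Pla H (2 ^ p) → Equiv.Perm (ZMod 5)) (i : Fin H) (m : Fin (2 ^ p + 1)) :
    gR (fun v => (g v)⁻¹) i m = (gR g i m)⁻¹ := by
  unfold gR
  split_ifs <;> simp

theorem gmap_inv (h : 0 < H) (g : Pla H (2 ^ p) → Equiv.Perm (ZMod 5)) (e : Gate H p) :
    gmap h (fun v => (g v)⁻¹) (gmap h g e) = e := by
  cases e <;> simp [gmap, gn_inv, gR_inv]

theorem srcMap_inv (h : 0 < H) (g : Pla H (2 ^ p) → Equiv.Perm (ZMod 5))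
    (s : Src (Inp (TEl H (2 ^ p))) (Gate H p)) :
    srcMap (SCUp.imap (fun v => (g v)⁻¹)) (gmap h (fun v => (g v)⁻¹))
      (srcMap (SCUp.imap g) (gmap h g) s) = s := by
  rcases s with _ | ⟨i, c⟩ | q
  · rfl
  · simp [srcMap, SCUp.imap_inv]
  · simp [srcMap, gmap_inv]

theorem gn_eq (g : Pla H (2 ^ p) → Equiv.Perm (ZMod 5)) (i : Fin H) (c : Fin (2 ^ p + 1)) (m : ℕ)
    (b : Fin (2 ^ p + 1)) (hb : m = b.val) : gn g i c m = g (i, c, b) := by
  subst hb
  unfold gn
  rw [dif_pos b.isLt]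

theorem gR_eq (g : Pla H (2 ^ p) → Equiv.Perm (ZMod 5)) (i : Fin H) (m : Fin (2 ^ p + 1))
    (hi : i.val + 1 < H) : gR g i m = g (⟨i.val + 1, hi⟩, m, Fin.last _) := by
  unfold gR
  rw [dif_pos hi]

theorem gmap_ins (h : 0 < H) (g : Pla H (2 ^ p) → Equiv.Perm (ZMod 5)) (q : Gate H p)
    (s : Src (Inp (TEl H (2 ^ p))) (Gate H p)) (hs : s ∈ ins h q) :
    srcMap (SCUp.imap g) (gmap h g) s ∈ ins h (gmap h g q) := by
  cases q with
  | V i c e =>
    rcases hs with ⟨hi, rfl⟩ | ⟨hi, a, rfl⟩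
    · exact Or.inl ⟨hi, rfl⟩
    · exact Or.inr ⟨hi, _, rfl⟩
  | PO i c l j a e =>
    rcases hs with ⟨rfl, hi, f, rfl⟩ | ⟨l', rfl, hj, f, rfl⟩
    · refine Or.inl ⟨rfl, hi, gR g i j.succ f, ?_⟩
      have e1 := gn_eq g i c (j.val * 2 ^ (0 : Fin (p + 1)).val) j.castSucc (by simp)
      have e2 := gn_eq g i c ((j.val + 1) * 2 ^ (0 : Fin (p + 1)).val) j.succ (by simp)
      rw [e1, e2]
      rfl
    · refine Or.inr ⟨l', rfl, hj, gn g i c ((2 * j.val + 1) * 2 ^ l'.val) f, ?_⟩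
      have e1 : j.val * 2 ^ (l'.succ).val = 2 * j.val * 2 ^ l'.val := by
        rw [Fin.val_succ, pow_succ]; ring
      have e2 : (j.val + 1) * 2 ^ (l'.succ).val = (2 * j.val + 1 + 1) * 2 ^ l'.val := by
        rw [Fin.val_succ, pow_succ]; ring
      rw [e1, e2]
      rfl
  | TA i c j a f e =>
    obtain ⟨hi, rfl | rfl⟩ := hs
    · refine ⟨hi, Or.inl ?_⟩
      rw [gR_eq g i j.succ hi]
      rfl
    · refine ⟨hi, Or.inr ?_⟩
      rw [gR_eq g i j.succ hi]
      rfl
  | PA i c l j a f e =>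
    obtain ⟨hj, rfl | rfl⟩ := hs
    · exact ⟨hj, Or.inl rfl⟩
    · exact ⟨hj, Or.inr rfl⟩
  | IO i c l e =>
    rcases hs with ⟨rfl, hi, a, b, rfl⟩ | ⟨l', rfl, rfl⟩
    · exact Or.inl ⟨rfl, hi, _, _, rfl⟩
    · exact Or.inr ⟨l', rfl, rfl⟩
  | IA i c a b e =>
    obtain ⟨hi, rfl | rfl | rfl⟩ := hs
    · refine ⟨hi, Or.inl ?_⟩
      rw [gR_eq g i 0 hi]
      rfl
    · refine ⟨hi, Or.inr (Or.inl ?_)⟩
      rw [gR_eq g i 0 hi]
      rfl
    · refine ⟨hi, Or.inr (Or.inr ?_)⟩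
      rw [gR_eq g i 0 hi]
      rfl
  | IB i c l e =>
    obtain rfl := hs
    rfl
  | VA i c a e =>
    rcases hs with rfl | rfl
    · exact Or.inl rfl
    · refine Or.inr ?_
      have e1 := gn_eq g i c (0 * 2 ^ (Fin.last p).val) 0 (by simp)
      have e2 := gn_eq g i c ((0 + 1) * 2 ^ (Fin.last p).val) (Fin.last _) (by simp)
      show some (Sum.inr (Gate.PO i c (Fin.last p) ⟨0, Nat.two_pow_pos p⟩
        (gn g i c (0 * 2 ^ (Fin.last p).val) a) (gn g i c ((0 + 1) * 2 ^ (Fin.last p).val) e))) = _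
      rw [e1, e2]
  | OA e =>
    rcases hs with rfl | rfl
    · exact Or.inl rfl
    · exact Or.inr rfl
  | out =>
    obtain ⟨a, rfl⟩ := hs
    exact ⟨_, rfl⟩

theorem aut (h : 0 < H) (v : Pla H (2 ^ p)) (a : Equiv.Perm (Fin 5))
    (p' : Equiv.Perm (TEl H (2 ^ p)))
    (hp : ∀ c, p' (tblk v c) = tblk v (a c)) (hp' : ∀ u, u ∉ Set.range (tblk v) → p' u = u) :
    ∃ φ, (ck H p h).IsAut (inpPerm p') φ := by
  classical
  let g : Pla H (2 ^ p) → Equiv.Perm (ZMod 5) :=
    fun u => if u = v then (a : Equiv.Perm (Fin 5)) else 1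
  have hpg : ∀ e, p' e = SCUp.pmap g e := by
    intro e
    rcases e with _ | ⟨u, c⟩
    · refine hp' none ?_
      rintro ⟨c, hc⟩
      simp [tblk] at hc
    · by_cases hu : u = v
      · subst hu
        have h1 := hp c
        have h2 : g u = (a : Equiv.Perm (Fin 5)) := if_pos rfl
        show p' (tblk u c) = some (u, g u c)
        rw [h1, h2]
        rfl
      · have h1 : p' (some (u, c)) = some (u, c) := by
          apply hp'
          rintro ⟨c', hc'⟩
          have hc2 : (some (v, (c' : ZMod 5)) : TEl H (2 ^ p)) = some (u, c) := hc'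
          exact hu (congrArg Prod.fst (Option.some.inj hc2)).symm
        have h2 : g u = 1 := if_neg hu
        rw [h1]
        simp [SCUp.pmap, h2]
  have hpi : (⇑(inpPerm p')) = SCUp.imap g := by
    funext e
    rcases e with u | ⟨b, c, d⟩
    · simp [inpPerm, SCUp.imap, hpg]
    · simp [inpPerm, SCUp.imap, hpg]
  have hgg : (fun u => ((fun u => (g u)⁻¹) u)⁻¹) = g := by
    funext u; simp
  let φ : Equiv.Perm (Gate H p) :=
    { toFun := gmap h g
      invFun := gmap h (fun v => (g v)⁻¹)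
      left_inv := gmap_inv h g
      right_inv := fun e => by
        have := gmap_inv h (fun v => (g v)⁻¹) e
        rw [hgg] at this
        exact this }
  have hφ : (⇑φ) = gmap h g := rfl
  refine ⟨φ, ?_, ?_, ?_, ?_⟩
  · intro q
    cases q <;> rfl
  · intro q s
    rw [hpi, hφ]
    constructor
    · intro hs
      have := gmap_ins h (fun v => (g v)⁻¹) _ _ hs
      rw [srcMap_inv, gmap_inv] at this
      exact this
    · exact gmap_ins h g q s
  · intro q
    cases q <;> rfl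
  · rfl

end NCUp

/-- NCUP: shallow layered circuits for the template function -/
theorem nc_upper (H p : ℕ) (h : 0 < H) :
    ∃ (Q : Type) (_ : Fintype Q) (C : LCkt (Inp (TEl H (2 ^ p))) Q),
      (∀ x, C.Val x C.out ↔ Tem H (2 ^ p) h x) ∧
      (∀ g, (C.ins g).ncard ≤ 25) ∧
      (∀ g, C.lay g ≤ (2 * p + 6) * H) ∧
      Fintype.card Q ≤ 1000 * (p + 1) * H * (2 ^ p + 1) ^ 2 ∧
      (∀ (v : Pla H (2 ^ p)) (a : Equiv.Perm (Fin 5)) (p' : Equiv.Perm (TEl H (2 ^ p))),
        (∀ c, p' (tblk v c) = tblk v (a c)) → (∀ u, u ∉ Set.range (tblk v) → p' u = u) →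
        ∃ φ, C.IsAut (inpPerm p') φ) :=
  ⟨NCUp.Gate H p, inferInstance, NCUp.ck H p h, fun x => NCUp.val_sem h x _, NCUp.fan_in h,
    NCUp.lay_le h, NCUp.card_le h, NCUp.aut h⟩

end Pool.Agent.H870R2.LS
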