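import Pool.Agent.H522R2.LS.PerEval2

set_option autoImplicit false
set_option linter.unusedSectionVars false

/-! Codeword selections: definitions. -/

namespace Pool.Agent.H870R2.PC

open Finset H522R2.LS

variable {N : ℕ} {Δ : Type} [Fintype Δ] [DecidableEq Δ]

/-- the choice `u i s` of a codeword at each vertex is consistent -/
def Cons (ρ : Fin 3 → Equiv.Perm (Fin N)) (u : Fin N → Bool → Fin 4) : Prop :=
  ∀ i t, lab (u i false) t = lab (u (ρ t i) true) t

/-- the matching `σ` selects the codewords `u` -/
def Sel (σ : Equiv.Perm (Pos N Δ)) (u : Fin N → Bool → Fin 4) : Prop :=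
  ∀ i s a, cnt s i a σ = if a = u i s then 0 else 3

end Pool.Agent.H870R2.PC
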