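import Pool.Agent.H522R2.LS.Final
import Pool.Agent.H870R2.LS.PCDefs

set_option autoImplicit false
set_option linter.unusedSectionVars false

/-! A matrix with entries 0 and 1: the weights `1, 2, 4` are replaced by auxiliary positions. -/

namespace Pool.Agent.H870R2.PC

open Finset BigOperators H522R2.LS

/-- Positions (rows and columns), see `H522R2.LS.Pos`; the positions `aux` produce the weights. -/
inductive Pos2 (N : ℕ) (Δ : Type)
  | blk (i : Fin N) (s : Bool) (j : Fin 3) (a : Fin 4)
  | aux (i : Fin N) (s : Bool) (l : Fin 4) (a : Fin 4)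
  | host (i : Fin N) (l : Fin 4)
  | dum (δ : Δ)
  deriving DecidableEq, Fintype

/-- the copy to which an auxiliary position belongs -/
def own : Fin 4 → Fin 3 := ![1, 2, 2, 2]

variable {N : ℕ} {Δ : Type}

/-- the nonzero entries -/
def Adj2 (ρ : Fin 3 → Equiv.Perm (Fin N)) (b : Fin N → Fin 3 → ZMod 2) :
    Pos2 N Δ → Pos2 N Δ → Prop
  | .blk i false _ a, .blk i' false _ a' => i = i' ∧ a = a'
  | .blk i true _ a, .blk i' true _ a' => i = i' ∧ a = a'
  | .blk i true t a, .blk i' false t' a' => t = t' ∧ ρ t i' = i ∧ lab a' t + b i' t = lab a t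
  | .blk i false _ _, .host i' l => i = i' ∧ l ≠ 3
  | .host i l, .blk i' true _ _ => i = i' ∧ l ≠ 3
  | .host i l, .host i' l' => i = i' ∧ l = 3 ∧ l' = 3
  | .dum δ, .dum δ' => δ = δ'
  | .aux i s l a, .aux i' s' l' a' => i = i' ∧ s = s' ∧ l = l' ∧ a = a'
  | .blk i false j a, .aux i' false l a' => i = i' ∧ a = a' ∧ j = own l
  | .aux i false _ a, .blk i' false _ a' => i = i' ∧ a = a'
  | .blk i true _ a, .aux i' true _ a' => i = i' ∧ a = a'
  | .aux i true l a, .blk i' true j a' => i = i' ∧ a = a' ∧ j = own l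
  | _, _ => False

open Classical in
/-- the matrix with weights `1, c, c ^ 2` -/
noncomputable def wn (c : ℕ) (ρ : Fin 3 → Equiv.Perm (Fin N)) (b : Fin N → Fin 3 → ZMod 2)
    (x y : Pos N Δ) : ℕ := if Adj ρ b x y then c ^ ex x y else 0

open Classical in
/-- the matrix with entries 0 and 1 -/
noncomputable def w2 (ρ : Fin 3 → Equiv.Perm (Fin N)) (b : Fin N → Fin 3 → ZMod 2)
    (x y : Pos2 N Δ) : ℕ := if Adj2 ρ b x y then 1 else 0

end Pool.Agent.H870R2.PC
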