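import Pool.Agent.H870R2.LS.P2Defs

set_option autoImplicit false
set_option linter.unusedSectionVars false

/-! Statements only (task file). -/

namespace Pool.Agent.H870R2.PC

open Finset BigOperators H522R2.LS

/-- ELIM -/
theorem per_elim {X Z : Type} [Fintype X] [DecidableEq X] [Fintype Z] [DecidableEq Z] (x : Z → X)
    (M : X → X → ℕ) (c : Z → X → ℕ) (B : X ⊕ Z → X ⊕ Z → ℕ)
    (h11 : ∀ a b, B (Sum.inl a) (Sum.inl b) = M a b)
    (h12 : ∀ a z, B (Sum.inl a) (Sum.inr z) = if a = x z then 1 else 0)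
    (h21 : ∀ z b, B (Sum.inr z) (Sum.inl b) = c z b)
    (h22 : ∀ z z', B (Sum.inr z) (Sum.inr z') = if z = z' then 1 else 0) :
    ∑ σ : Equiv.Perm (X ⊕ Z), ∏ u, B u (σ u) =
      ∑ τ : Equiv.Perm X, ∏ a, (M a (τ a) + ∑ z, if x z = a then c z (τ a) else 0) := sorry

variable {N : ℕ} {Δ : Type} [Fintype Δ] [DecidableEq Δ]

/-- EVAL (may use per_elim) -/
theorem per_w2 (ρ : Fin 3 → Equiv.Perm (Fin N)) (b : Fin N → Fin 3 → ZMod 2) :
    ∑ σ : Equiv.Perm (Pos2 N Δ), ∏ x, w2 ρ b x (σ x) =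
      ∑ σ : Equiv.Perm (Pos N Δ), ∏ x, wn 2 ρ b x (σ x) := sorry

end Pool.Agent.H870R2.PC
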