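import Pool.Agent.H870R2.LS.PCDefs

set_option autoImplicit false
set_option linter.unusedSectionVars false

/-! Statements only (task file). -/

namespace Pool.Agent.H870R2.PC

open Finset H522R2.LS

variable {N : ℕ} {Δ : Type} [Fintype Δ] [DecidableEq Δ]

open Classical in
/-- CONS -/
theorem card_cons (ρ : Fin 3 → Equiv.Perm (Fin N)) :
    ∃ k, (univ.filter (fun u : Fin N → Bool → Fin 4 => Cons ρ u)).card = 2 ^ k := sorry

/-- GSEL -/
theorem good_sel (ρ : Fin 3 → Equiv.Perm (Fin N)) (σ : Equiv.Perm (Pos N Δ)) (hg : Good3 σ)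
    (hA : ∀ x, Adj ρ (fun _ _ => 0) x (σ x)) : ∃ u, Cons ρ u ∧ Sel σ u := sorry

open Classical in
/-- CLE -/
theorem sel_le (ρ : Fin 3 → Equiv.Perm (Fin N)) (u : Fin N → Bool → Fin 4) (hu : Cons ρ u) :
    (univ.filter (fun σ : Equiv.Perm (Pos N Δ) =>
      Sel σ u ∧ ∀ x, Adj ρ (fun _ _ => 0) x (σ x))).card ≤ 6 ^ (8 * N) := sorry

open Classical in
/-- CGE -/
theorem sel_ge (ρ : Fin 3 → Equiv.Perm (Fin N)) (u : Fin N → Bool → Fin 4) (hu : Cons ρ u) :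
    6 ^ (8 * N) ≤ (univ.filter (fun σ : Equiv.Perm (Pos N Δ) =>
      Sel σ u ∧ ∀ x, Adj ρ (fun _ _ => 0) x (σ x))).card := sorry

end Pool.Agent.H870R2.PC
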