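import Pool.Agent.H870R2.LS.PCDefs

set_option autoImplicit false
set_option linter.unusedSectionVars false

/-! CONS: the number of consistent codeword choices is a power of `2`. -/

namespace Pool.Agent.H870R2.PC

open Finset H522R2.LS

variable {N : ℕ} {Δ : Type} [Fintype Δ] [DecidableEq Δ]

namespace ConsAux

/-- the space of the consistent labelings -/
def W (ρ : Fin 3 → Equiv.Perm (Fin N)) :
    Submodule (ZMod 2) (Fin N → Bool → Fin 3 → ZMod 2) where
  carrier := {x | (∀ i s, ∑ t, x i s t = 0) ∧ ∀ i t, x i false t = x (ρ t i) true t}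
  add_mem' := by
    rintro x y ⟨hx1, hx2⟩ ⟨hy1, hy2⟩
    refine ⟨fun i s => ?_, fun i t => ?_⟩
    · simp only [Pi.add_apply, Finset.sum_add_distrib, hx1, hy1, add_zero]
    · simp only [Pi.add_apply, hx2, hy2]
  zero_mem' := ⟨fun i s => by simp, fun i t => rfl⟩
  smul_mem' := by
    rintro c x ⟨hx1, hx2⟩
    refine ⟨fun i s => ?_, fun i t => ?_⟩
    · simp only [Pi.smul_apply, ← Finset.smul_sum, hx1, smul_zero]
    · simp only [Pi.smul_apply, hx2]

theorem lab_inj' : Function.Injective lab := by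
  decide

theorem lab_surj' (x : Fin 3 → ZMod 2) (hx : ∑ t, x t = 0) : ∃ a, lab a = x := by
  revert x; decide

end ConsAux

open ConsAux

open Classical in
/-- CONS -/
theorem card_cons (ρ : Fin 3 → Equiv.Perm (Fin N)) :
    ∃ k, (univ.filter (fun u : Fin N → Bool → Fin 4 => Cons ρ u)).card = 2 ^ k := by
  have : Fintype (W ρ) := Fintype.ofFinite _
  refine ⟨Module.finrank (ZMod 2) (W ρ), ?_⟩
  have h1 : Fintype.card (W ρ) = 2 ^ Module.finrank (ZMod 2) (W ρ) := by
    rw [Module.card_eq_pow_finrank (K := ZMod 2), ZMod.card]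
  rw [← h1, ← Fintype.card_subtype]
  let F : {u : Fin N → Bool → Fin 4 // Cons ρ u} → W ρ := fun u =>
    ⟨fun i s => lab (u.1 i s), fun i s => lab_sum _, fun i t => u.2 i t⟩
  refine Fintype.card_of_bijective (f := F) ⟨?_, ?_⟩
  · intro u v h
    apply Subtype.ext
    funext i s
    apply lab_inj'
    exact congrFun (congrFun (congrArg Subtype.val h) i) s
  · rintro ⟨x, hx1, hx2⟩
    choose u hu using fun i s => lab_surj' (x i s) (hx1 i s)
    refine ⟨⟨u, fun i t => ?_⟩, ?_⟩
    · rw [hu, hu]
      exact hx2 i t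
    · apply Subtype.ext
      funext i s
      exact hu i s

end Pool.Agent.H870R2.PC
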