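import Pool.Agent.H870R2.LS.PCDefs

set_option autoImplicit false
set_option linter.unusedSectionVars false

/-! Lower bound for the number of matchings selecting a given consistent choice of codewords. -/

namespace Pool.Agent.H870R2.PC

open Finset H522R2.LS

variable {N : ℕ} {Δ : Type} [Fintype Δ] [DecidableEq Δ]

/-- the matching selecting `u` with parameters `p` -/
def sg (ρ : Fin 3 → Equiv.Perm (Fin N)) (u : Fin N → Bool → Fin 4)
    (p : Fin N → Bool → Fin 4 → Equiv.Perm (Fin 3)) : Equiv.Perm (Pos N Δ) where
  toFun x := match x with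
    | .blk i false j a =>
        if a = u i false then .host i (up (p i false a j)) else .blk i false (p i false a j) a
    | .blk i true j a =>
        if a = u i true then .blk ((ρ j).symm i) false j (u ((ρ j).symm i) false)
        else .blk i true (p i true a j) a
    | .host i l => if l = 3 then .host i 3 else .blk i true (p i true (u i true) (dn l)) (u i true)
    | .dum δ => .dum δ
  invFun x := match x with
    | .blk i false j a =>
        if a = u i false then .blk (ρ j i) true j (u (ρ j i) true)
        else .blk i false ((p i false a).symm j) a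
    | .blk i true j a =>
        if a = u i true then .host i (up ((p i true a).symm j))
        else .blk i true ((p i true a).symm j) a
    | .host i l =>
        if l = 3 then .host i 3 else .blk i false ((p i false (u i false)).symm (dn l)) (u i false)
    | .dum δ => .dum δ
  left_inv x := by
    rcases x with ⟨i, s, j, a⟩ | ⟨i, l⟩ | δ
    · cases s
      · by_cases h : a = u i false
        · subst h
          simp [up_ne, dn_up]
        · simp [h]
      · by_cases h : a = u i true
        · subst h
          simp
        · simp [h]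
    · by_cases h : l = 3
      · subst h; simp
      · simp [h, up_dn l h]
    · rfl
  right_inv x := by
    rcases x with ⟨i, s, j, a⟩ | ⟨i, l⟩ | δ
    · cases s
      · by_cases h : a = u i false
        · subst h
          simp
        · simp [h]
      · by_cases h : a = u i true
        · subst h
          simp [up_ne, dn_up]
        · simp [h]
    · by_cases h : l = 3
      · subst h; simp
      · simp [h, up_dn l h]
    · rfl

section

variable (ρ : Fin 3 → Equiv.Perm (Fin N)) (u : Fin N → Bool → Fin 4)
  (p : Fin N → Bool → Fin 4 → Equiv.Perm (Fin 3))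

lemma sg_ff {i : Fin N} {j : Fin 3} {a : Fin 4} (h : a = u i false) :
    sg ρ u p (.blk i false j a : Pos N Δ) = .host i (up (p i false a j)) := by
  simp [sg, h]

lemma sg_fn {i : Fin N} {j : Fin 3} {a : Fin 4} (h : a ≠ u i false) :
    sg ρ u p (.blk i false j a : Pos N Δ) = .blk i false (p i false a j) a := by
  simp [sg, h]

lemma sg_tt {i : Fin N} {j : Fin 3} {a : Fin 4} (h : a = u i true) :
    sg ρ u p (.blk i true j a : Pos N Δ) =
      .blk ((ρ j).symm i) false j (u ((ρ j).symm i) false) := by
  simp [sg, h]

lemma sg_tn {i : Fin N} {j : Fin 3} {a : Fin 4} (h : a ≠ u i true) :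
    sg ρ u p (.blk i true j a : Pos N Δ) = .blk i true (p i true a j) a := by
  simp [sg, h]

lemma sg_host3 {i : Fin N} : sg ρ u p (.host i 3 : Pos N Δ) = .host i 3 := by
  simp [sg]

lemma sg_host {i : Fin N} {l : Fin 4} (h : l ≠ 3) :
    sg ρ u p (.host i l : Pos N Δ) = .blk i true (p i true (u i true) (dn l)) (u i true) := by
  simp [sg, h]

lemma sg_dum {δ : Δ} : sg ρ u p (.dum δ : Pos N Δ) = .dum δ := rfl

lemma sg_symm_tt {i : Fin N} {j : Fin 3} {a : Fin 4} (h : a = u i true) :
    (sg ρ u p).symm (.blk i true j a : Pos N Δ) = .host i (up ((p i true a).symm j)) := by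
  simp [sg, h]

lemma sg_symm_tn {i : Fin N} {j : Fin 3} {a : Fin 4} (h : a ≠ u i true) :
    (sg ρ u p).symm (.blk i true j a : Pos N Δ) = .blk i true ((p i true a).symm j) a := by
  simp [sg, h]

lemma sg_adj (hu : Cons ρ u) (x : Pos N Δ) : Adj ρ (fun _ _ => 0) x (sg ρ u p x) := by
  rcases x with ⟨i, s, j, a⟩ | ⟨i, l⟩ | δ
  · cases s
    · by_cases h : a = u i false
      · rw [sg_ff ρ u p h]
        exact ⟨rfl, up_ne _⟩
      · rw [sg_fn ρ u p h]
        exact ⟨rfl, rfl⟩
    · by_cases h : a = u i true
      · rw [sg_tt ρ u p h, h]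
        refine ⟨rfl, by simp, ?_⟩
        have h1 := hu ((ρ j).symm i) j
        rw [Equiv.apply_symm_apply] at h1
        rw [h1, add_zero]
      · rw [sg_tn ρ u p h]
        exact ⟨rfl, rfl⟩
  · by_cases h : l = 3
    · subst h
      rw [sg_host3 ρ u p]
      exact ⟨rfl, rfl, rfl⟩
    · rw [sg_host ρ u p h]
      exact ⟨rfl, h⟩
  · exact rfl

lemma sg_sel : Sel (sg ρ u p : Equiv.Perm (Pos N Δ)) u := by
  intro i s a
  unfold cnt
  by_cases h : a = u i s
  · rw [if_pos h]
    have : (univ.filter (fun j : Fin 3 =>
        isB (part s (sg ρ u p) (.blk i s j a : Pos N Δ)) = true)) = ∅ := by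
      apply Finset.filter_false_of_mem
      intro j _
      cases s
      · show ¬ isB (sg ρ u p (.blk i false j a : Pos N Δ)) = true
        rw [sg_ff ρ u p h]
        simp [isB]
      · show ¬ isB ((sg ρ u p).symm (.blk i true j a : Pos N Δ)) = true
        rw [sg_symm_tt ρ u p h]
        simp [isB]
    rw [this, Finset.card_empty]
  · rw [if_neg h]
    have : (univ.filter (fun j : Fin 3 =>
        isB (part s (sg ρ u p) (.blk i s j a : Pos N Δ)) = true)) = univ := by
      apply Finset.filter_true_of_mem
      intro j _
      cases s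
      · show isB (sg ρ u p (.blk i false j a : Pos N Δ)) = true
        rw [sg_fn ρ u p h]
        rfl
      · show isB ((sg ρ u p).symm (.blk i true j a : Pos N Δ)) = true
        rw [sg_symm_tn ρ u p h]
        rfl
    rw [this]
    rfl

end

lemma up_inj : Function.Injective up := Function.LeftInverse.injective (g := dn) dn_up

lemma sg_inj (ρ : Fin 3 → Equiv.Perm (Fin N)) (u : Fin N → Bool → Fin 4) :
    Function.Injective (fun p => (sg ρ u p : Equiv.Perm (Pos N Δ))) := by
  intro p p' e
  have e' : ∀ x : Pos N Δ, sg ρ u p x = sg ρ u p' x := fun x =>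
    congrArg (fun σ : Equiv.Perm (Pos N Δ) => σ x) e
  funext i s a
  ext1 j
  cases s
  · have h1 := e' (.blk i false j a)
    by_cases h : a = u i false
    · rw [sg_ff ρ u p h, sg_ff ρ u p' h] at h1
      simp only [Pos.host.injEq, true_and] at h1
      exact up_inj h1
    · rw [sg_fn ρ u p h, sg_fn ρ u p' h] at h1
      simp only [Pos.blk.injEq, true_and, and_true] at h1
      exact h1
  · by_cases h : a = u i true
    · have h1 := e' (.host i (up j))
      rw [sg_host ρ u p (up_ne j), sg_host ρ u p' (up_ne j), dn_up] at h1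
      simp only [Pos.blk.injEq, true_and, and_true] at h1
      rw [h]
      exact h1
    · have h1 := e' (.blk i true j a)
      rw [sg_tn ρ u p h, sg_tn ρ u p' h] at h1
      simp only [Pos.blk.injEq, true_and, and_true] at h1
      exact h1

open Classical in
/-- CGE -/
theorem sel_ge (ρ : Fin 3 → Equiv.Perm (Fin N)) (u : Fin N → Bool → Fin 4) (hu : Cons ρ u) :
    6 ^ (8 * N) ≤ (univ.filter (fun σ : Equiv.Perm (Pos N Δ) =>
      Sel σ u ∧ ∀ x, Adj ρ (fun _ _ => 0) x (σ x))).card := by
  have h1 : Fintype.card (Fin N → Bool → Fin 4 → Equiv.Perm (Fin 3)) = 6 ^ (8 * N) := by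
    have h6 : Fintype.card (Equiv.Perm (Fin 3)) = 6 := by
      rw [Fintype.card_perm, Fintype.card_fin]
      rfl
    rw [Fintype.card_fun, Fintype.card_fun, Fintype.card_fun, h6, Fintype.card_fin,
      Fintype.card_bool, Fintype.card_fin, ← pow_mul, ← pow_mul]
    congr 1
    ring
  rw [← h1, ← Finset.card_univ]
  refine Finset.card_le_card_of_injOn (fun p => sg ρ u p) ?_ ((sg_inj ρ u).injOn)
  intro p _
  simp only [Finset.coe_filter, Finset.mem_univ, true_and, Set.mem_ofPred_eq]
  exact ⟨sg_sel ρ u p, sg_adj ρ u p hu⟩

end Pool.Agent.H870R2.PC
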