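import Pool.Agent.H870R2.LS.PCDefs

set_option autoImplicit false
set_option linter.unusedSectionVars false

/-! At most `6^(8N)` matchings select a given choice of codewords. -/

namespace Pool.Agent.H870R2.PC

open Finset H522R2.LS

variable {N : ℕ} {Δ : Type} [Fintype Δ] [DecidableEq Δ]

lemma CLE_up_inj : ∀ j k : Fin 3, up j = up k → j = k := by decide

lemma CLE_part_inj (s : Bool) (σ : Equiv.Perm (Pos N Δ)) (x y : Pos N Δ)
    (h : part s σ x = part s σ y) : x = y := by
  cases s
  · exact σ.injective h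
  · exact σ.symm.injective h

lemma CLE_data (ρ : Fin 3 → Equiv.Perm (Fin N)) (u : Fin N → Bool → Fin 4)
    (σ : Equiv.Perm (Pos N Δ)) (hS : Sel σ u) (hA : ∀ x, Adj ρ (fun _ _ => 0) x (σ x))
    (v : Fin N × Bool × Fin 4) :
    ∃ f : Equiv.Perm (Fin 3), ∀ j, part v.2.1 σ (.blk v.1 v.2.1 j v.2.2) =
      if v.2.2 = u v.1 v.2.1 then .host v.1 (up (f j)) else .blk v.1 v.2.1 (f j) v.2.2 := by
  obtain ⟨i, s, a⟩ := v
  have hA' : ∀ z, Adj ρ (fun _ _ => 0) (σ.symm z) z := by
    intro z
    have := hA (σ.symm z)
    rwa [Equiv.apply_symm_apply] at this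
  have h1 : ∀ j, ∃ g : Fin 3, part s σ (.blk i s j a) =
      if a = u i s then .host i (up g) else .blk i s g a := by
    intro j
    have hc := hS i s a
    by_cases ha : a = u i s
    · rw [if_pos ha] at hc
      simp only [if_pos ha]
      have hb : ¬ isB (part s σ (.blk i s j a)) = true := by
        intro hb
        unfold cnt at hc
        rw [Finset.card_eq_zero] at hc
        have : j ∈ (univ.filter (fun j : Fin 3 => isB (part s σ (.blk i s j a)) = true)) := by
          simp [hb]
        rw [hc] at this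
        simp at this
      clear hc ha
      cases s
      · have h2 := hA (.blk i false j a)
        change ∃ g, σ (.blk i false j a) = _
        change ¬ isB (σ (.blk i false j a)) = true at hb
        rcases hz : σ (.blk i false j a) with ⟨i', s', j', a'⟩ | ⟨i', l'⟩ | δ'
        · rw [hz] at hb; exact absurd rfl hb
        · rw [hz] at h2
          obtain ⟨rfl, hl⟩ := h2
          exact ⟨dn l', by rw [up_dn l' hl]⟩
        · rw [hz] at h2; exact absurd h2 (fun h => h)
      · have h2 := hA' (.blk i true j a)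
        change ∃ g, σ.symm (.blk i true j a) = _
        change ¬ isB (σ.symm (.blk i true j a)) = true at hb
        rcases hz : σ.symm (.blk i true j a) with ⟨i', s', j', a'⟩ | ⟨i', l'⟩ | δ'
        · rw [hz] at hb; exact absurd rfl hb
        · rw [hz] at h2
          obtain ⟨rfl, hl⟩ := h2
          exact ⟨dn l', by rw [up_dn l' hl]⟩
        · rw [hz] at h2; exact absurd h2 (fun h => h)
    · rw [if_neg ha] at hc
      simp only [if_neg ha]
      have hb : isB (part s σ (.blk i s j a)) = true := by
        unfold cnt at hc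
        have h3 : (univ.filter (fun j : Fin 3 => isB (part s σ (.blk i s j a)) = true)) = univ := by
          apply Finset.eq_univ_of_card
          rw [hc]; rfl
        have h4 : j ∈ (univ.filter (fun j : Fin 3 => isB (part s σ (.blk i s j a)) = true)) := by
          rw [h3]; exact Finset.mem_univ _
        exact (Finset.mem_filter.mp h4).2
      clear hc ha
      cases s
      · have h2 := hA (.blk i false j a)
        change ∃ g, σ (.blk i false j a) = _
        change isB (σ (.blk i false j a)) = true at hb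
        rcases hz : σ (.blk i false j a) with ⟨i', s', j', a'⟩ | ⟨i', l'⟩ | δ'
        · rw [hz] at h2
          cases s'
          · obtain ⟨rfl, rfl⟩ := h2
            exact ⟨j', rfl⟩
          · exact absurd h2 (fun h => h)
        · rw [hz] at hb; exact absurd hb (by simp [isB])
        · rw [hz] at hb; exact absurd hb (by simp [isB])
      · have h2 := hA' (.blk i true j a)
        change ∃ g, σ.symm (.blk i true j a) = _
        change isB (σ.symm (.blk i true j a)) = true at hb
        rcases hz : σ.symm (.blk i true j a) with ⟨i', s', j', a'⟩ | ⟨i', l'⟩ | δ'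
        · rw [hz] at h2
          cases s'
          · exact absurd h2 (fun h => h)
          · obtain ⟨rfl, rfl⟩ := h2
            exact ⟨j', rfl⟩
        · rw [hz] at hb; exact absurd hb (by simp [isB])
        · rw [hz] at hb; exact absurd hb (by simp [isB])
  choose g hg using h1
  have hinj : Function.Injective g := by
    intro j1 j2 e
    have h5 : part s σ (.blk i s j1 a) = part s σ (.blk i s j2 a) := by
      rw [hg j1, hg j2, e]
    have h6 := CLE_part_inj s σ _ _ h5
    simp only [Pos.blk.injEq] at h6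
    exact h6.2.2.1
  exact ⟨Equiv.ofBijective g (Finite.injective_iff_bijective.mp hinj), fun j => hg j⟩

lemma CLE_inj (ρ : Fin 3 → Equiv.Perm (Fin N)) (u : Fin N → Bool → Fin 4)
    (σ σ' : Equiv.Perm (Pos N Δ)) (hA : ∀ x, Adj ρ (fun _ _ => 0) x (σ x))
    (hA' : ∀ x, Adj ρ (fun _ _ => 0) x (σ' x)) (f : Fin N × Bool × Fin 4 → Equiv.Perm (Fin 3))
    (hf : ∀ v : Fin N × Bool × Fin 4, ∀ j, part v.2.1 σ (.blk v.1 v.2.1 j v.2.2) =
      if v.2.2 = u v.1 v.2.1 then .host v.1 (up (f v j)) else .blk v.1 v.2.1 (f v j) v.2.2)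
    (hf' : ∀ v : Fin N × Bool × Fin 4, ∀ j, part v.2.1 σ' (.blk v.1 v.2.1 j v.2.2) =
      if v.2.2 = u v.1 v.2.1 then .host v.1 (up (f v j)) else .blk v.1 v.2.1 (f v j) v.2.2) :
    σ = σ' := by
  have hF : ∀ i j a, σ (.blk i false j a) = σ' (.blk i false j a) := fun i j a =>
    (hf (i, false, a) j).trans (hf' (i, false, a) j).symm
  have hT : ∀ i j a, σ.symm (.blk i true j a) = σ'.symm (.blk i true j a) := fun i j a =>
    (hf (i, true, a) j).trans (hf' (i, true, a) j).symm
  have hT1 : ∀ x i j a, σ x = .blk i true j a → σ' x = .blk i true j a := by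
    intro x i j a h
    have h1 : x = σ'.symm (.blk i true j a) := by rw [← hT, ← h, Equiv.symm_apply_apply]
    rw [h1, Equiv.apply_symm_apply]
  have hT2 : ∀ x i j a, σ' x = .blk i true j a → σ x = .blk i true j a := by
    intro x i j a h
    have h1 : x = σ.symm (.blk i true j a) := by rw [hT, ← h, Equiv.symm_apply_apply]
    rw [h1, Equiv.apply_symm_apply]
  have hU : ∀ τ : Equiv.Perm (Pos N Δ),
      (∀ v : Fin N × Bool × Fin 4, ∀ j, part v.2.1 τ (.blk v.1 v.2.1 j v.2.2) =
      if v.2.2 = u v.1 v.2.1 then .host v.1 (up (f v j)) else .blk v.1 v.2.1 (f v j) v.2.2) →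
      ∀ i t a i' t' a', τ (.blk i true t a) = .blk i' false t' a' → a' = u i' false := by
    intro τ hτ i t a i' t' a' h
    by_contra hne
    have h1 := hτ (i', false, a') ((f (i', false, a')).symm t')
    simp only [Equiv.apply_symm_apply] at h1
    rw [if_neg hne] at h1
    have h2 : τ (.blk i' false ((f (i', false, a')).symm t') a') = .blk i' false t' a' := h1
    rw [← h] at h2
    have h3 := τ.injective h2
    simp at h3
  refine Equiv.ext fun x => ?_
  rcases x with ⟨i, s, t, a⟩ | ⟨i, l⟩ | δ
  · cases s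
    · exact hF i t a
    · have h1 := hA (.blk i true t a)
      have h2 := hA' (.blk i true t a)
      rcases hz : σ (.blk i true t a) with ⟨i', s', j', a'⟩ | ⟨i', l'⟩ | δ'
      · cases s'
        · rcases hz' : σ' (.blk i true t a) with ⟨i'', s'', j'', a''⟩ | ⟨i'', l''⟩ | δ''
          · cases s''
            · have h3 := hU σ hf _ _ _ _ _ _ hz
              have h4 := hU σ' hf' _ _ _ _ _ _ hz'
              rw [hz] at h1
              rw [hz'] at h2
              obtain ⟨h11, h12, -⟩ := h1
              obtain ⟨h21, h22, -⟩ := h2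
              have h5 : i' = i'' := (ρ t).injective (h12.trans h22.symm)
              subst h5
              rw [h3, h4, ← h11, ← h21]
            · have := hT2 _ _ _ _ hz'
              rw [hz] at this
              exact this
          · rw [hz'] at h2; exact absurd h2 (fun h => h)
          · rw [hz'] at h2; exact absurd h2 (fun h => h)
        · exact (hT1 _ _ _ _ hz).symm
      · rw [hz] at h1; exact absurd h1 (fun h => h)
      · rw [hz] at h1; exact absurd h1 (fun h => h)
  · have h1 := hA (.host i l)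
    have h2 := hA' (.host i l)
    rcases hz : σ (.host i l) with ⟨i', s', j', a'⟩ | ⟨i', l'⟩ | δ'
    · cases s'
      · rw [hz] at h1; exact absurd h1 (fun h => h)
      · exact (hT1 _ _ _ _ hz).symm
    · rw [hz] at h1
      obtain ⟨rfl, rfl, rfl⟩ := h1
      rcases hz' : σ' (.host i 3) with ⟨i'', s'', j'', a''⟩ | ⟨i'', l''⟩ | δ''
      · cases s''
        · rw [hz'] at h2; exact absurd h2 (fun h => h)
        · rw [hz'] at h2; exact absurd rfl h2.2
      · rw [hz'] at h2
        obtain ⟨rfl, -, rfl⟩ := h2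
        rfl
      · rw [hz'] at h2; exact absurd h2 (fun h => h)
    · rw [hz] at h1; exact absurd h1 (fun h => h)
  · have h1 := hA (.dum δ)
    have h2 := hA' (.dum δ)
    rcases hz : σ (.dum δ) with ⟨i', s', j', a'⟩ | ⟨i', l'⟩ | δ'
    · rw [hz] at h1; cases s' <;> exact absurd h1 (fun h => h)
    · rw [hz] at h1; exact absurd h1 (fun h => h)
    · rw [hz] at h1
      rcases hz' : σ' (.dum δ) with ⟨i'', s'', j'', a''⟩ | ⟨i'', l''⟩ | δ''
      · rw [hz'] at h2; cases s'' <;> exact absurd h2 (fun h => h)
      · rw [hz'] at h2; exact absurd h2 (fun h => h)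
      · rw [hz'] at h2
        have e1 : δ = δ' := h1
        have e2 : δ = δ'' := h2
        rw [← e1, ← e2]

open Classical in
/-- CLE -/
theorem sel_le (ρ : Fin 3 → Equiv.Perm (Fin N)) (u : Fin N → Bool → Fin 4) (hu : Cons ρ u) :
    (univ.filter (fun σ : Equiv.Perm (Pos N Δ) =>
      Sel σ u ∧ ∀ x, Adj ρ (fun _ _ => 0) x (σ x))).card ≤ 6 ^ (8 * N) := by
  have hcard : Fintype.card (Fin N × Bool × Fin 4 → Equiv.Perm (Fin 3)) = 6 ^ (8 * N) := by
    rw [Fintype.card_fun, Fintype.card_perm, Fintype.card_prod, Fintype.card_prod]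
    simp only [Fintype.card_fin, Fintype.card_bool]
    rw [show N * (2 * 4) = 8 * N by ring]
    rfl
  rw [← hcard, ← Finset.card_univ]
  have hD : ∀ σ : Equiv.Perm (Pos N Δ), ∃ F : Fin N × Bool × Fin 4 → Equiv.Perm (Fin 3),
      (Sel σ u ∧ ∀ x, Adj ρ (fun _ _ => 0) x (σ x)) →
      ∀ v : Fin N × Bool × Fin 4, ∀ j, part v.2.1 σ (.blk v.1 v.2.1 j v.2.2) =
      if v.2.2 = u v.1 v.2.1 then .host v.1 (up (F v j)) else .blk v.1 v.2.1 (F v j) v.2.2 := by
    intro σ
    by_cases h : Sel σ u ∧ ∀ x, Adj ρ (fun _ _ => 0) x (σ x)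
    · choose F hF using CLE_data ρ u σ h.1 h.2
      exact ⟨F, fun _ => hF⟩
    · exact ⟨fun _ => 1, fun h' => absurd h' h⟩
  choose D hD using hD
  refine Finset.card_le_card_of_injOn D (fun _ _ => Finset.mem_univ _) ?_
  intro σ hσ σ' hσ' e
  have h1 := (Finset.mem_filter.mp (Finset.mem_coe.mp hσ)).2
  have h2 := (Finset.mem_filter.mp (Finset.mem_coe.mp hσ')).2
  have h3 := hD σ h1
  have h4 := hD σ' h2
  rw [← e] at h4
  exact CLE_inj ρ u σ σ' h1.2 h2.2 (D σ) h3 h4

end Pool.Agent.H870R2.PC
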