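import Pool.Agent.H870R2.LS.PCDefs

set_option autoImplicit false
set_option linter.unusedSectionVars false

/-! A good matching selects a consistent choice of codewords. -/

namespace Pool.Agent.H870R2.PC

open Finset H522R2.LS

variable {N : ℕ} {Δ : Type} [Fintype Δ] [DecidableEq Δ]

namespace GSEL

theorem selA (ρ : Fin 3 → Equiv.Perm (Fin N)) (σ : Equiv.Perm (Pos N Δ)) (hg : Good3 σ)
    (hA : ∀ x, Adj ρ (fun _ _ => 0) x (σ x)) (i : Fin N) :
    ∃ c : Fin 4, (∀ j, isB (part false σ (.blk i false j c)) = false) ∧
      ∀ a, a ≠ c → ∀ j, isB (part false σ (.blk i false j a)) = true := by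
  have hA' : ∀ z, Adj ρ (fun _ _ => 0) (σ.symm z) z := by
    intro z
    have := hA (σ.symm z)
    rwa [Equiv.apply_symm_apply] at this
  have h1 := hA' (.host i 0)
  rcases hx : σ.symm (.host i 0) with ⟨i', s', j', c⟩ | ⟨i', l'⟩ | δ'
  · rw [hx] at h1
    cases s'
    · obtain ⟨rfl, _⟩ := h1
      have hx' : σ (.blk i' false j' c) = .host i' 0 := by
        rw [← hx, Equiv.apply_symm_apply]
      refine ⟨c, ?_, ?_⟩
      · rcases good_cases hg false i' c with h | h
        · exfalso
          have h2 : isB (σ (.blk i' false j' c)) = true := h j'
          rw [hx'] at h2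
          exact absurd h2 (by simp [isB])
        · exact h
      · intro a hac
        rcases good_cases hg false i' a with h | h
        · exact h
        · exfalso
          have h2 : ∀ j, ∃ f : Fin 4, f ≠ 3 ∧ σ (.blk i' false j a) = .host i' f := by
            intro j
            have h3 := hA (.blk i' false j a)
            have h4 : isB (σ (.blk i' false j a)) = false := h j
            rcases hz : σ (.blk i' false j a) with ⟨i1, s1, j1, a1⟩ | ⟨i1, l1⟩ | δ1
            · rw [hz] at h4; exact absurd h4 (by simp [isB])
            · rw [hz] at h3
              obtain ⟨rfl, h5⟩ := h3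
              exact ⟨l1, h5, rfl⟩
            · rw [hz] at h3; exact absurd h3 (fun h => h)
          choose f hf3 hf using h2
          have hinj : Function.Injective f := by
            intro j1 j2 e
            have h5 : σ (.blk i' false j1 a) = σ (.blk i' false j2 a) := by
              rw [hf j1, hf j2, e]
            have h6 := σ.injective h5
            simp only [Pos.blk.injEq] at h6
            exact h6.2.2.1
          obtain ⟨j, hj⟩ := inj_zero f hinj hf3
          have h7 := hf j
          rw [hj, ← hx'] at h7
          have h8 := σ.injective h7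
          simp only [Pos.blk.injEq] at h8
          exact hac h8.2.2.2
    · exact absurd h1 (fun h => h)
  · rw [hx] at h1
    exact absurd h1.2.2 (by decide)
  · rw [hx] at h1
    exact absurd h1 (fun h => h)

theorem selB (ρ : Fin 3 → Equiv.Perm (Fin N)) (σ : Equiv.Perm (Pos N Δ)) (hg : Good3 σ)
    (hA : ∀ x, Adj ρ (fun _ _ => 0) x (σ x)) (i : Fin N) :
    ∃ c : Fin 4, (∀ j, isB (part true σ (.blk i true j c)) = false) ∧
      ∀ a, a ≠ c → ∀ j, isB (part true σ (.blk i true j a)) = true := by
  have hA' : ∀ z, Adj ρ (fun _ _ => 0) (σ.symm z) z := by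
    intro z
    have := hA (σ.symm z)
    rwa [Equiv.apply_symm_apply] at this
  have h1 := hA (.host i 0)
  rcases hz : σ (.host i 0) with ⟨i', s', j', c⟩ | ⟨i', l'⟩ | δ'
  · rw [hz] at h1
    cases s'
    · exact absurd h1 (fun h => h)
    · obtain ⟨rfl, _⟩ := h1
      have hz' : σ.symm (.blk i true j' c) = .host i 0 := by
        rw [← hz, Equiv.symm_apply_apply]
      refine ⟨c, ?_, ?_⟩
      · rcases good_cases hg true i c with h | h
        · exfalso
          have h2 : isB (σ.symm (.blk i true j' c)) = true := h j'
          rw [hz'] at h2
          exact absurd h2 (by simp [isB])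
        · exact h
      · intro a hac
        rcases good_cases hg true i a with h | h
        · exact h
        · exfalso
          have h2 : ∀ j, ∃ f : Fin 4, f ≠ 3 ∧ σ.symm (.blk i true j a) = .host i f := by
            intro j
            have h3 := hA' (.blk i true j a)
            have h4 : isB (σ.symm (.blk i true j a)) = false := h j
            rcases hx : σ.symm (.blk i true j a) with ⟨i1, s1, j1, a1⟩ | ⟨i1, l1⟩ | δ1
            · rw [hx] at h4; exact absurd h4 (by simp [isB])
            · rw [hx] at h3
              obtain ⟨rfl, h5⟩ := h3
              exact ⟨l1, h5, rfl⟩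
            · rw [hx] at h3; exact absurd h3 (fun h => h)
          choose f hf3 hf using h2
          have hinj : Function.Injective f := by
            intro j1 j2 e
            have h5 : σ.symm (.blk i true j1 a) = σ.symm (.blk i true j2 a) := by
              rw [hf j1, hf j2, e]
            have h6 := σ.symm.injective h5
            simp only [Pos.blk.injEq] at h6
            exact h6.2.2.1
          obtain ⟨j, hj⟩ := inj_zero f hinj hf3
          have h7 := hf j
          rw [hj, ← hz'] at h7
          have h8 := σ.symm.injective h7
          simp only [Pos.blk.injEq] at h8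
          exact hac h8.2.2.2
  · rw [hz] at h1
    exact absurd h1.2.1 (by decide)
  · rw [hz] at h1
    exact absurd h1 (fun h => h)

end GSEL

/-- GSEL -/
theorem good_sel (ρ : Fin 3 → Equiv.Perm (Fin N)) (σ : Equiv.Perm (Pos N Δ)) (hg : Good3 σ)
    (hA : ∀ x, Adj ρ (fun _ _ => 0) x (σ x)) : ∃ u, Cons ρ u ∧ Sel σ u := by
  have hA' : ∀ z, Adj ρ (fun _ _ => 0) (σ.symm z) z := by
    intro z
    have := hA (σ.symm z)
    rwa [Equiv.apply_symm_apply] at this
  have hall : ∀ (i : Fin N) (s : Bool), ∃ c : Fin 4,
      (∀ j, isB (part s σ (.blk i s j c)) = false) ∧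
      ∀ a, a ≠ c → ∀ j, isB (part s σ (.blk i s j a)) = true := by
    intro i s
    cases s
    · exact GSEL.selA ρ σ hg hA i
    · exact GSEL.selB ρ σ hg hA i
  choose u hu1 hu2 using hall
  refine ⟨u, ?_, ?_⟩
  · intro i t
    have h1 := hA' (.blk i false t (u i false))
    rcases hx : σ.symm (.blk i false t (u i false)) with ⟨i', s', j', a'⟩ | ⟨i', l'⟩ | δ'
    · have hx' : σ (.blk i' s' j' a') = .blk i false t (u i false) := by
        rw [← hx, Equiv.apply_symm_apply]
      rw [hx] at h1
      cases s'
      · obtain ⟨rfl, rfl⟩ := h1
        exfalso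
        have h2 : isB (σ (.blk i' false j' (u i' false))) = false := hu1 i' false j'
        rw [hx'] at h2
        exact absurd h2 (by simp [isB])
      · obtain ⟨rfl, rfl, h2⟩ := h1
        have h3 : a' = u (ρ j' i) true := by
          by_contra hne
          have h4 : ∀ j, ∃ g : Fin 3, σ.symm (.blk (ρ j' i) true j a') =
              .blk (ρ j' i) true g a' := by
            intro j
            have h5 := hA' (.blk (ρ j' i) true j a')
            have h6 : isB (σ.symm (.blk (ρ j' i) true j a')) = true := hu2 (ρ j' i) true a' hne j
            rcases hy : σ.symm (.blk (ρ j' i) true j a') with ⟨i1, s1, j1, a1⟩ | ⟨i1, l1⟩ | δ1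
            · rw [hy] at h5
              cases s1
              · exact absurd h5 (fun h => h)
              · obtain ⟨h7, h8⟩ := h5
                subst h8
                rw [h7]
                exact ⟨j1, rfl⟩
            · rw [hy] at h6; exact absurd h6 (by simp [isB])
            · rw [hy] at h6; exact absurd h6 (by simp [isB])
          choose g hgg using h4
          have hinj : Function.Injective g := by
            intro j1 j2 e
            have h5 : σ.symm (.blk (ρ j' i) true j1 a') = σ.symm (.blk (ρ j' i) true j2 a') := by
              rw [hgg j1, hgg j2, e]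
            have h6 := σ.symm.injective h5
            simp only [Pos.blk.injEq] at h6
            exact h6.2.2.1
          obtain ⟨j, hj⟩ := (Finite.injective_iff_surjective.mp hinj) j'
          have h7 := hgg j
          rw [hj, Equiv.symm_apply_eq, hx'] at h7
          simp at h7
        rw [← h3, ← h2]
        exact (add_zero _).symm
    · rw [hx] at h1
      exact absurd h1 (fun h => h)
    · rw [hx] at h1
      exact absurd h1 (fun h => h)
  · intro i s a
    unfold cnt
    by_cases h : a = u i s
    · rw [if_pos h, h, Finset.card_eq_zero]
      apply Finset.filter_false_of_mem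
      intro j _ h2
      rw [hu1 i s j] at h2
      exact absurd h2 (by simp)
    · rw [if_neg h, Finset.filter_true_of_mem (fun j _ => hu2 i s a h j)]
      simp

end Pool.Agent.H870R2.PC
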