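import Pool.Agent.H870R2.LS.P2Defs

set_option autoImplicit false
set_option linter.unusedSectionVars false

/-! Task ELIM: elimination of auxiliary rows and columns of a permanent. -/

namespace Pool.Agent.H870R2.PC

open Finset BigOperators H522R2.LS

namespace Elim

/-- the permanent of a transported matrix -/
theorem per_congr {α β : Type} [Fintype α] [DecidableEq α] [Fintype β] [DecidableEq β]
    (e : α ≃ β) (B : β → β → ℕ) :
    ∑ σ : Equiv.Perm α, ∏ a, B (e a) (e (σ a)) = ∑ σ : Equiv.Perm β, ∏ b, B b (σ b) := by
  rw [← Equiv.sum_comp e.permCongr]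
  refine Finset.sum_congr rfl fun σ _ => ?_
  rw [← Equiv.prod_comp e]
  refine Finset.prod_congr rfl fun a _ => ?_
  rw [Equiv.permCongr_apply, Equiv.symm_apply_apply]

/-- one auxiliary position -/
theorem per_option {Y : Type} [Fintype Y] [DecidableEq Y] (x0 : Y) (B : Option Y → Option Y → ℕ)
    (h00 : B none none = 1) (h10 : ∀ y, B (some y) none = if y = x0 then 1 else 0) :
    ∑ σ : Equiv.Perm (Option Y), ∏ u, B u (σ u) =
      ∑ τ : Equiv.Perm Y, ∏ y, (B (some y) (some (τ y)) +
        if y = x0 then B none (some (τ y)) else 0) := by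
  rw [← Equiv.sum_comp Equiv.Perm.decomposeOption.symm, Fintype.sum_prod_type,
    Fintype.sum_option]
  have h1 : ∀ τ : Equiv.Perm Y,
      ∏ u, B u ((Equiv.Perm.decomposeOption.symm (none, τ)) u) =
        ∏ y, B (some y) (some (τ y)) := by
    intro τ
    rw [Fintype.prod_option]
    simp [h00]
  have h2 : ∀ (b : Y) (τ : Equiv.Perm Y),
      ∏ u, B u ((Equiv.Perm.decomposeOption.symm (some b, τ)) u) =
        if τ x0 = b then B none (some (τ x0)) * ∏ y ∈ univ.erase x0, B (some y) (some (τ y))
          else 0 := by
    intro b τ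
    rw [Fintype.prod_option]
    have e1 : (Equiv.Perm.decomposeOption.symm (some b, τ)) none = some b := by
      simp
    have e2 : ∀ y, (Equiv.Perm.decomposeOption.symm (some b, τ)) (some y) =
        if τ y = b then none else some (τ y) := by
      intro y
      by_cases h : τ y = b
      · rw [if_pos h]
        simp [h]
      · rw [if_neg h]
        simp only [Equiv.Perm.decomposeOption_symm_apply, Equiv.Perm.coe_mul, Function.comp_apply,
          Equiv.optionCongr_apply, Option.map_some]
        exact Equiv.swap_apply_of_ne_of_ne (by simp) (by simpa using h)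
    rw [e1]
    simp only [e2]
    by_cases h : τ x0 = b
    · rw [if_pos h, ← Finset.mul_prod_erase _ _ (Finset.mem_univ x0), if_pos h, h10, if_pos rfl,
        one_mul, h]
      congr 1
      refine Finset.prod_congr rfl fun y hy => ?_
      rw [if_neg]
      intro h'
      rw [Finset.mem_erase] at hy
      exact hy.1 (τ.injective (h'.trans h.symm))
    · rw [if_neg h]
      apply mul_eq_zero_of_right
      apply Finset.prod_eq_zero (Finset.mem_univ (τ.symm b))
      rw [Equiv.apply_symm_apply, if_pos rfl, h10, if_neg]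
      intro h'
      apply h
      rw [← h', Equiv.apply_symm_apply]
  simp only [h1, h2]
  rw [Finset.sum_comm, ← Finset.sum_add_distrib]
  refine Finset.sum_congr rfl fun τ _ => ?_
  rw [Finset.sum_ite_eq, if_pos (Finset.mem_univ _)]
  rw [← Finset.mul_prod_erase univ (fun y => B (some y) (some (τ y))) (Finset.mem_univ x0),
    ← Finset.mul_prod_erase univ (fun y => B (some y) (some (τ y)) +
      if y = x0 then B none (some (τ y)) else 0) (Finset.mem_univ x0), if_pos rfl, add_mul]
  congr 1
  · congr 1
    refine Finset.prod_congr rfl fun y hy => ?_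
    rw [Finset.mem_erase] at hy
    rw [if_neg hy.1, add_zero]
  · congr 1
    refine Finset.prod_congr rfl fun y hy => ?_
    rw [Finset.mem_erase] at hy
    rw [if_neg hy.1, add_zero]

/-- the positions with one auxiliary position separated -/
def eo (X Z : Type) : X ⊕ Option Z ≃ Option (X ⊕ Z) where
  toFun u := match u with
    | Sum.inl a => some (Sum.inl a)
    | Sum.inr none => none
    | Sum.inr (some z) => some (Sum.inr z)
  invFun u := match u with
    | none => Sum.inr none
    | some (Sum.inl a) => Sum.inl a
    | some (Sum.inr z) => Sum.inr (some z)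
  left_inv u := by rcases u with a | _ | z <;> rfl
  right_inv u := by rcases u with _ | a | z <;> rfl

/-- the statement for a type of auxiliary positions -/
def St (X : Type) [Fintype X] [DecidableEq X] (Z : Type) : Prop :=
  ∀ [Fintype Z] [DecidableEq Z] (x : Z → X) (M : X → X → ℕ) (c : Z → X → ℕ)
    (B : X ⊕ Z → X ⊕ Z → ℕ)
    (_ : ∀ a b, B (Sum.inl a) (Sum.inl b) = M a b)
    (_ : ∀ a z, B (Sum.inl a) (Sum.inr z) = if a = x z then 1 else 0)
    (_ : ∀ z b, B (Sum.inr z) (Sum.inl b) = c z b)
    (_ : ∀ z z', B (Sum.inr z) (Sum.inr z') = if z = z' then 1 else 0),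
    ∑ σ : Equiv.Perm (X ⊕ Z), ∏ u, B u (σ u) =
      ∑ τ : Equiv.Perm X, ∏ a, (M a (τ a) + ∑ z, if x z = a then c z (τ a) else 0)

theorem st_equiv {X : Type} [Fintype X] [DecidableEq X] {α β : Type} (e : α ≃ β)
    (h : St X α) : St X β := by
  classical
  intro _ _ x M c B h11 h12 h21 h22
  let _ : Fintype α := Fintype.ofEquiv β e.symm
  have h1 := per_congr (Equiv.sumCongr (Equiv.refl X) e) B
  rw [← h1]
  have h2 := h (x ∘ e) M (fun z => c (e z))
    (fun u v => B (Equiv.sumCongr (Equiv.refl X) e u) (Equiv.sumCongr (Equiv.refl X) e v))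
    (fun a b => h11 a b) (fun a z => h12 a (e z)) (fun z b => h21 (e z) b)
    (fun z z' => by
      show B (Sum.inr (e z)) (Sum.inr (e z')) = _
      rw [h22]
      by_cases hz : z = z'
      · rw [if_pos hz, if_pos (by rw [hz])]
      · rw [if_neg hz, if_neg (fun h' => hz (e.injective h'))])
  rw [h2]
  refine Finset.sum_congr rfl fun τ _ => Finset.prod_congr rfl fun a _ => ?_
  rw [← Equiv.sum_comp e]
  rfl

theorem st_empty (X : Type) [Fintype X] [DecidableEq X] : St X PEmpty := by
  intro _ _ x M c B h11 _ _ _
  have h1 := per_congr (Equiv.sumEmpty X PEmpty).symm B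
  rw [← h1]
  refine Finset.sum_congr rfl fun τ _ => Finset.prod_congr rfl fun a _ => ?_
  simp only [Equiv.sumEmpty_symm_apply, h11]
  simp

theorem st_option {X : Type} [Fintype X] [DecidableEq X] {Z : Type} [Fintype Z]
    (h : St X Z) : St X (Option Z) := by
  classical
  intro inst1 inst2 x M c B h11 h12 h21 h22
  have h1 := per_congr (eo X Z).symm B
  have hi : inst1 = instFintypeOption := Subsingleton.elim _ _
  subst hi
  rw [← h1, per_option (Sum.inl (x none))
    (fun u v => B ((eo X Z).symm u) ((eo X Z).symm v))]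
  · have h2 := h (fun z => x (some z)) (fun a b => M a b + if a = x none then c none b else 0)
      (fun z => c (some z))
      (fun u v => B ((eo X Z).symm (some u)) ((eo X Z).symm (some v)) +
        if u = Sum.inl (x none) then B ((eo X Z).symm none) ((eo X Z).symm (some v)) else 0)
      (fun a b => by
        show B (Sum.inl a) (Sum.inl b) + (if (Sum.inl a : X ⊕ Z) = Sum.inl (x none) then
          B (Sum.inr none) (Sum.inl b) else 0) = _
        rw [h11, h21]
        simp only [Sum.inl.injEq])
      (fun a z => by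
        show B (Sum.inl a) (Sum.inr (some z)) + (if (Sum.inl a : X ⊕ Z) = Sum.inl (x none) then
          B (Sum.inr none) (Sum.inr (some z)) else 0) = _
        rw [h12, h22]
        simp)
      (fun z b => by
        show B (Sum.inr (some z)) (Sum.inl b) + (if (Sum.inr z : X ⊕ Z) = Sum.inl (x none) then
          B (Sum.inr none) (Sum.inl b) else 0) = _
        rw [h21]
        simp)
      (fun z z' => by
        show B (Sum.inr (some z)) (Sum.inr (some z')) + (if (Sum.inr z : X ⊕ Z) = Sum.inl (x none)
          then B (Sum.inr none) (Sum.inr (some z')) else 0) = _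
        rw [h22]
        simp)
    rw [h2]
    refine Finset.sum_congr rfl fun τ _ => Finset.prod_congr rfl fun a _ => ?_
    rw [Fintype.sum_option, ← add_assoc]
    congr 2
    by_cases ha : a = x none
    · rw [if_pos ha, if_pos ha.symm]
    · rw [if_neg ha, if_neg (fun h' => ha h'.symm)]
  · show B (Sum.inr none) (Sum.inr none) = 1
    rw [h22, if_pos rfl]
  · rintro (a | z)
    · show B (Sum.inl a) (Sum.inr none) = _
      rw [h12]
      simp only [Sum.inl.injEq]
    · show B (Sum.inr (some z)) (Sum.inr none) = _
      rw [h22]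
      simp

end Elim

/-- ELIM -/
theorem per_elim {X Z : Type} [Fintype X] [DecidableEq X] [Fintype Z] [DecidableEq Z] (x : Z → X)
    (M : X → X → ℕ) (c : Z → X → ℕ) (B : X ⊕ Z → X ⊕ Z → ℕ)
    (h11 : ∀ a b, B (Sum.inl a) (Sum.inl b) = M a b)
    (h12 : ∀ a z, B (Sum.inl a) (Sum.inr z) = if a = x z then 1 else 0)
    (h21 : ∀ z b, B (Sum.inr z) (Sum.inl b) = c z b)
    (h22 : ∀ z z', B (Sum.inr z) (Sum.inr z') = if z = z' then 1 else 0) :
    ∑ σ : Equiv.Perm (X ⊕ Z), ∏ u, B u (σ u) =
      ∑ τ : Equiv.Perm X, ∏ a, (M a (τ a) + ∑ z, if x z = a then c z (τ a) else 0) := by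
  have key : Elim.St X Z := Finite.induction_empty_option (P := fun Z => Elim.St X Z)
    (fun e h => Elim.st_equiv e h) (Elim.st_empty X) (fun h => Elim.st_option h) Z
  exact key x M c B h11 h12 h21 h22

end Pool.Agent.H870R2.PC
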