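import Pool.Agent.H870R2.LS.P2Defs
import Pool.Agent.H870R2.LS.PElim

set_option autoImplicit false
set_option linter.unusedSectionVars false

/-! Task EVAL: the 0-1 matrix has the same permanent as the weighted one. -/

namespace Pool.Agent.H870R2.PC

open Finset BigOperators H522R2.LS

namespace Eval3

variable {N : ℕ} {Δ : Type}

/-- the old positions -/
def emb : Pos N Δ → Pos2 N Δ
  | .blk i s j a => .blk i s j a
  | .host i l => .host i l
  | .dum δ => .dum δ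

/-- the auxiliary positions of one kind -/
abbrev Zt (N : ℕ) : Type := Fin N × Fin 4 × Fin 4

/-- all positions -/
def ev (N : ℕ) (Δ : Type) : (Pos N Δ ⊕ Zt N) ⊕ Zt N ≃ Pos2 N Δ where
  toFun u := match u with
    | Sum.inl (Sum.inl p) => emb p
    | Sum.inl (Sum.inr z) => .aux z.1 true z.2.1 z.2.2
    | Sum.inr z => .aux z.1 false z.2.1 z.2.2
  invFun u := match u with
    | .blk i s j a => Sum.inl (Sum.inl (.blk i s j a))
    | .host i l => Sum.inl (Sum.inl (.host i l))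
    | .dum δ => Sum.inl (Sum.inl (.dum δ))
    | .aux i true l a => Sum.inl (Sum.inr (i, l, a))
    | .aux i false l a => Sum.inr (i, l, a)
  left_inv u := by
    rcases u with (p | z) | z
    · cases p <;> rfl
    · rfl
    · rfl
  right_inv u := by
    rcases u with ⟨i, s, j, a⟩ | ⟨i, s, l, a⟩ | ⟨i, l⟩ | δ
    · rfl
    · cases s <;> rfl
    · rfl
    · rfl

theorem transpose {α : Type} [Fintype α] [DecidableEq α] (B : α → α → ℕ) :
    ∑ σ : Equiv.Perm α, ∏ a, B a (σ a) = ∑ σ : Equiv.Perm α, ∏ a, B (σ a) a := by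
  rw [← Equiv.sum_comp (Equiv.inv (Equiv.Perm α))]
  refine Finset.sum_congr rfl fun σ _ => ?_
  rw [← Equiv.prod_comp σ]
  refine Finset.prod_congr rfl fun a _ => ?_
  simp

theorem sum_z {N : ℕ} (i : Fin N) (j : Fin 3) (a : Fin 4) (f : Fin N → Fin 4 → Fin 4 → ℕ) :
    (∑ z : Zt N, if z.1 = i ∧ own z.2.1 = j ∧ z.2.2 = a then f z.1 z.2.1 z.2.2 else 0) =
      ∑ l : Fin 4, if own l = j then f i l a else 0 := by
  rw [Fintype.sum_prod_type, Finset.sum_eq_single i]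
  · rw [Fintype.sum_prod_type]
    refine Finset.sum_congr rfl fun l _ => ?_
    simp only [true_and]
    rw [Finset.sum_eq_single a]
    · by_cases h : own l = j
      · simp [h]
      · simp [h]
    · intro b _ hb
      rw [if_neg (fun h => hb h.2)]
    · intro h
      exact absurd (Finset.mem_univ _) h
  · intro i' _ hi'
    apply Finset.sum_eq_zero
    intro y _
    rw [if_neg (fun h => hi' h.1)]
  · intro h
    exact absurd (Finset.mem_univ _) h

theorem sum_own (j : Fin 3) (C : Prop) [Decidable C] :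
    (if C then 1 else 0) + (∑ l : Fin 4, if own l = j then (if C then 1 else 0) else 0) =
      if C then 2 ^ (j : ℕ) else 0 := by
  by_cases h : C
  · simp only [if_pos h]
    fin_cases j <;> decide
  · simp only [if_neg h]
    simp

variable [Fintype Δ] [DecidableEq Δ]

theorem w2_of {ρ : Fin 3 → Equiv.Perm (Fin N)} {b : Fin N → Fin 3 → ZMod 2} {x y : Pos2 N Δ}
    (P : Prop) [Decidable P] (h : Adj2 ρ b x y ↔ P) : w2 ρ b x y = if P then 1 else 0 := by
  unfold w2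
  by_cases hP : P
  · rw [if_pos (h.2 hP), if_pos hP]
  · rw [if_neg (fun h' => hP (h.1 h')), if_neg hP]

theorem w2_zero {ρ : Fin 3 → Equiv.Perm (Fin N)} {b : Fin N → Fin 3 → ZMod 2} {x y : Pos2 N Δ}
    (h : ¬ Adj2 ρ b x y) : w2 ρ b x y = 0 := by
  unfold w2
  rw [if_neg h]

theorem adj_emb (ρ : Fin 3 → Equiv.Perm (Fin N)) (b : Fin N → Fin 3 → ZMod 2) (p q : Pos N Δ) :
    Adj2 ρ b (emb p) (emb q) ↔ Adj ρ b p q := by
  rcases p with ⟨i, s, j, a⟩ | ⟨i, l⟩ | δ <;> rcases q with ⟨i', s', j', a'⟩ | ⟨i', l'⟩ | δ'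
  · cases s <;> cases s' <;> exact Iff.rfl
  · cases s <;> exact Iff.rfl
  · cases s <;> exact Iff.rfl
  · cases s' <;> exact Iff.rfl
  · exact Iff.rfl
  · exact Iff.rfl
  · cases s' <;> exact Iff.rfl
  · exact Iff.rfl
  · exact Iff.rfl

theorem wn_of {ρ : Fin 3 → Equiv.Perm (Fin N)} {b : Fin N → Fin 3 → ZMod 2} {p q : Pos N Δ}
    (P : Prop) [Decidable P] (h : Adj ρ b p q ↔ P) :
    wn 2 ρ b p q = if P then 2 ^ ex p q else 0 := by
  unfold wn
  by_cases hP : P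
  · rw [if_pos (h.2 hP), if_pos hP]
  · rw [if_neg (fun h' => hP (h.1 h')), if_neg hP]

theorem w2_emb {ρ : Fin 3 → Equiv.Perm (Fin N)} {b : Fin N → Fin 3 → ZMod 2} {p q : Pos N Δ}
    (h : ex p q = 0) : w2 ρ b (emb p) (emb q) = wn 2 ρ b p q := by
  classical
  rw [w2_of (Adj ρ b p q) (adj_emb ρ b p q), wn_of (Adj ρ b p q) Iff.rfl, h, pow_zero]

theorem a_ff (ρ : Fin 3 → Equiv.Perm (Fin N)) (b : Fin N → Fin 3 → ZMod 2) (i i' : Fin N)
    (l a a' : Fin 4) (j' : Fin 3) :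
    w2 ρ b (Pos2.aux i false l a : Pos2 N Δ) (emb (Pos.blk i' false j' a')) =
      if i = i' ∧ a = a' then 1 else 0 := w2_of _ Iff.rfl

theorem a_ft (ρ : Fin 3 → Equiv.Perm (Fin N)) (b : Fin N → Fin 3 → ZMod 2) (i i' : Fin N)
    (l a a' : Fin 4) (j' : Fin 3) :
    w2 ρ b (Pos2.aux i false l a : Pos2 N Δ) (emb (Pos.blk i' true j' a')) = 0 :=
  w2_zero fun h => h

theorem a_fh (ρ : Fin 3 → Equiv.Perm (Fin N)) (b : Fin N → Fin 3 → ZMod 2) (i i' : Fin N)
    (l a l' : Fin 4) :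
    w2 ρ b (Pos2.aux i false l a : Pos2 N Δ) (emb (Pos.host i' l')) = 0 :=
  w2_zero fun h => h

theorem a_fd (ρ : Fin 3 → Equiv.Perm (Fin N)) (b : Fin N → Fin 3 → ZMod 2) (i : Fin N)
    (l a : Fin 4) (δ : Δ) :
    w2 ρ b (Pos2.aux i false l a : Pos2 N Δ) (emb (Pos.dum δ)) = 0 :=
  w2_zero fun h => h

theorem b_tt (ρ : Fin 3 → Equiv.Perm (Fin N)) (b : Fin N → Fin 3 → ZMod 2) (i i' : Fin N)
    (l a a' : Fin 4) (j : Fin 3) :
    w2 ρ b (emb (Pos.blk i true j a)) (Pos2.aux i' true l a' : Pos2 N Δ) =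
      if i = i' ∧ a = a' then 1 else 0 := w2_of _ Iff.rfl

theorem b_ft (ρ : Fin 3 → Equiv.Perm (Fin N)) (b : Fin N → Fin 3 → ZMod 2) (i i' : Fin N)
    (l a a' : Fin 4) (j : Fin 3) :
    w2 ρ b (emb (Pos.blk i false j a)) (Pos2.aux i' true l a' : Pos2 N Δ) = 0 :=
  w2_zero fun h => h

theorem b_ht (ρ : Fin 3 → Equiv.Perm (Fin N)) (b : Fin N → Fin 3 → ZMod 2) (i i' : Fin N)
    (l a l' : Fin 4) :
    w2 ρ b (emb (Pos.host i l')) (Pos2.aux i' true l a : Pos2 N Δ) = 0 :=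
  w2_zero fun h => h

theorem b_dt (ρ : Fin 3 → Equiv.Perm (Fin N)) (b : Fin N → Fin 3 → ZMod 2) (i' : Fin N)
    (l a : Fin 4) (δ : Δ) :
    w2 ρ b (emb (Pos.dum δ)) (Pos2.aux i' true l a : Pos2 N Δ) = 0 :=
  w2_zero fun h => h

theorem key (ρ : Fin 3 → Equiv.Perm (Fin N)) (b : Fin N → Fin 3 → ZMod 2) (p q : Pos N Δ) :
    (w2 ρ b (emb p) (emb q) +
      (∑ z : Zt N, if (Pos.blk z.1 false (own z.2.1) z.2.2 : Pos N Δ) = p then
        w2 ρ b (Pos2.aux z.1 false z.2.1 z.2.2) (emb q) else 0)) +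
      (∑ z : Zt N, if (Pos.blk z.1 true (own z.2.1) z.2.2 : Pos N Δ) = q then
        w2 ρ b (emb p) (Pos2.aux z.1 true z.2.1 z.2.2) else 0) = wn 2 ρ b p q := by
  rcases p with ⟨i, s, j, a⟩ | ⟨i, l⟩ | δ <;> rcases q with ⟨i', s', j', a'⟩ | ⟨i', l'⟩ | δ'
  · cases s <;> cases s'
    · have e1 : (∑ z : Zt N, if (Pos.blk z.1 false (own z.2.1) z.2.2 : Pos N Δ) =
          Pos.blk i false j a then
            w2 ρ b (Pos2.aux z.1 false z.2.1 z.2.2 : Pos2 N Δ) (emb (Pos.blk i' false j' a'))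
              else 0) =
          ∑ l : Fin 4, if own l = j then (if i = i' ∧ a = a' then 1 else 0) else 0 := by
        rw [← sum_z i j a (fun i l a => if i = i' ∧ a = a' then 1 else 0)]
        refine Finset.sum_congr rfl fun z _ => ?_
        rw [a_ff]
        simp
      have e2 : (∑ z : Zt N, if (Pos.blk z.1 true (own z.2.1) z.2.2 : Pos N Δ) =
          Pos.blk i' false j' a' then
            w2 ρ b (emb (Pos.blk i false j a)) (Pos2.aux z.1 true z.2.1 z.2.2 : Pos2 N Δ)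
              else 0) = 0 := by
        simp
      rw [e1, e2, add_zero, w2_of (i = i' ∧ a = a') Iff.rfl, wn_of (i = i' ∧ a = a') Iff.rfl]
      exact sum_own j _
    · rw [w2_emb rfl]
      simp [a_ft, b_ft]
    · rw [w2_emb rfl]
      simp
    · have e1 : (∑ z : Zt N, if (Pos.blk z.1 true (own z.2.1) z.2.2 : Pos N Δ) =
          Pos.blk i' true j' a' then
            w2 ρ b (emb (Pos.blk i true j a)) (Pos2.aux z.1 true z.2.1 z.2.2 : Pos2 N Δ)
              else 0) =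
          ∑ l : Fin 4, if own l = j' then (if i = i' ∧ a = a' then 1 else 0) else 0 := by
        rw [← sum_z i' j' a' (fun i' l a' => if i = i' ∧ a = a' then 1 else 0)]
        refine Finset.sum_congr rfl fun z _ => ?_
        rw [b_tt]
        simp
      have e2 : (∑ z : Zt N, if (Pos.blk z.1 false (own z.2.1) z.2.2 : Pos N Δ) =
          Pos.blk i true j a then
            w2 ρ b (Pos2.aux z.1 false z.2.1 z.2.2 : Pos2 N Δ) (emb (Pos.blk i' true j' a'))
              else 0) = 0 := by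
        simp
      rw [e1, e2, add_zero, w2_of (i = i' ∧ a = a') Iff.rfl, wn_of (i = i' ∧ a = a') Iff.rfl]
      exact sum_own j' _
  · cases s
    · rw [w2_emb rfl]
      simp [a_fh]
    · rw [w2_emb rfl]
      simp
  · cases s
    · rw [w2_emb rfl]
      simp [a_fd]
    · rw [w2_emb rfl]
      simp
  · cases s'
    · rw [w2_emb rfl]
      simp
    · rw [w2_emb rfl]
      simp [b_ht]
  · rw [w2_emb rfl]
    simp
  · rw [w2_emb rfl]
    simp
  · cases s'
    · rw [w2_emb rfl]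
      simp
    · rw [w2_emb rfl]
      simp [b_dt]
  · rw [w2_emb rfl]
    simp
  · rw [w2_emb rfl]
    simp

/-- the first elimination: the entries in the columns of the auxiliary positions -/
theorem col1 (ρ : Fin 3 → Equiv.Perm (Fin N)) (b : Fin N → Fin 3 → ZMod 2)
    (u : Pos N Δ ⊕ Zt N) (z : Zt N) :
    w2 ρ b (ev N Δ (Sum.inl u)) (ev N Δ (Sum.inr z)) =
      if u = Sum.inl (Pos.blk z.1 false (own z.2.1) z.2.2) then 1 else 0 := by
  apply w2_of
  rcases u with p | z'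
  · rcases p with ⟨i, s, j, a⟩ | ⟨i, l⟩ | δ
    · cases s
      · show (i = z.1 ∧ a = z.2.2 ∧ j = own z.2.1) ↔ _
        simp only [Sum.inl.injEq, Pos.blk.injEq, true_and]
        tauto
      · show False ↔ _
        simp
    · show False ↔ _
      simp
    · show False ↔ _
      simp
  · show (z'.1 = z.1 ∧ true = false ∧ z'.2.1 = z.2.1 ∧ z'.2.2 = z.2.2) ↔ _
    simp

theorem diag1 (ρ : Fin 3 → Equiv.Perm (Fin N)) (b : Fin N → Fin 3 → ZMod 2) (z z' : Zt N) :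
    w2 ρ b (ev N Δ (Sum.inr z)) (ev N Δ (Sum.inr z')) = if z = z' then 1 else 0 := by
  apply w2_of
  show (z.1 = z'.1 ∧ false = false ∧ z.2.1 = z'.2.1 ∧ z.2.2 = z'.2.2) ↔ _
  rw [Prod.ext_iff, Prod.ext_iff]
  simp

theorem row2 (ρ : Fin 3 → Equiv.Perm (Fin N)) (b : Fin N → Fin 3 → ZMod 2) (p : Pos N Δ)
    (z : Zt N) :
    w2 ρ b (Pos2.aux z.1 true z.2.1 z.2.2 : Pos2 N Δ) (emb p) =
      if p = Pos.blk z.1 true (own z.2.1) z.2.2 then 1 else 0 := by
  apply w2_of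
  rcases p with ⟨i, s, j, a⟩ | ⟨i, l⟩ | δ
  · cases s
    · show False ↔ _
      simp
    · show (z.1 = i ∧ z.2.2 = a ∧ j = own z.2.1) ↔ _
      simp only [Pos.blk.injEq, true_and]
      constructor
      · rintro ⟨h1, h2, h3⟩
        exact ⟨h1.symm, h3, h2.symm⟩
      · rintro ⟨h1, h2, h3⟩
        exact ⟨h1.symm, h3.symm, h2⟩
  · show False ↔ _
    simp
  · show False ↔ _
    simp

theorem diag2 (ρ : Fin 3 → Equiv.Perm (Fin N)) (b : Fin N → Fin 3 → ZMod 2) (z z' : Zt N) :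
    w2 ρ b (Pos2.aux z'.1 true z'.2.1 z'.2.2 : Pos2 N Δ) (Pos2.aux z.1 true z.2.1 z.2.2) =
      if z = z' then 1 else 0 := by
  apply w2_of
  show (z'.1 = z.1 ∧ true = true ∧ z'.2.1 = z.2.1 ∧ z'.2.2 = z.2.2) ↔ _
  rw [Prod.ext_iff, Prod.ext_iff]
  simp only [true_and]
  constructor
  · rintro ⟨h1, h2, h3⟩
    exact ⟨h1.symm, h2.symm, h3.symm⟩
  · rintro ⟨h1, h2, h3⟩
    exact ⟨h1.symm, h2.symm, h3.symm⟩

theorem mixed (ρ : Fin 3 → Equiv.Perm (Fin N)) (b : Fin N → Fin 3 → ZMod 2) (z z' : Zt N) :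
    w2 ρ b (Pos2.aux z'.1 false z'.2.1 z'.2.2 : Pos2 N Δ) (Pos2.aux z.1 true z.2.1 z.2.2) = 0 := by
  apply w2_zero
  show ¬ (z'.1 = z.1 ∧ false = true ∧ z'.2.1 = z.2.1 ∧ z'.2.2 = z.2.2)
  simp

end Eval3

variable {N : ℕ} {Δ : Type} [Fintype Δ] [DecidableEq Δ]

open Eval3 in
/-- EVAL -/
theorem per_w2 (ρ : Fin 3 → Equiv.Perm (Fin N)) (b : Fin N → Fin 3 → ZMod 2) :
    ∑ σ : Equiv.Perm (Pos2 N Δ), ∏ x, w2 ρ b x (σ x) =
      ∑ σ : Equiv.Perm (Pos N Δ), ∏ x, wn 2 ρ b x (σ x) := by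
  rw [← Elim.per_congr (ev N Δ) (w2 ρ b)]
  rw [per_elim (X := Pos N Δ ⊕ Zt N) (Z := Zt N)
    (fun z => Sum.inl (Pos.blk z.1 false (own z.2.1) z.2.2))
    (fun u v => w2 ρ b (ev N Δ (Sum.inl u)) (ev N Δ (Sum.inl v)))
    (fun z v => w2 ρ b (ev N Δ (Sum.inr z)) (ev N Δ (Sum.inl v)))
    (fun u v => w2 ρ b (ev N Δ u) (ev N Δ v)) (fun _ _ => rfl) (col1 ρ b) (fun _ _ => rfl)
    (diag1 ρ b)]
  rw [transpose (fun u v : Pos N Δ ⊕ Zt N => w2 ρ b (ev N Δ (Sum.inl u)) (ev N Δ (Sum.inl v)) +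
      ∑ z : Zt N, if (Sum.inl (Pos.blk z.1 false (own z.2.1) z.2.2) : Pos N Δ ⊕ Zt N) = u then
        w2 ρ b (ev N Δ (Sum.inr z)) (ev N Δ (Sum.inl v)) else 0)]
  have h := per_elim (X := Pos N Δ) (Z := Zt N)
      (fun z => Pos.blk z.1 true (own z.2.1) z.2.2)
      (fun q p => w2 ρ b (emb p) (emb q) +
        ∑ z : Zt N, if (Pos.blk z.1 false (own z.2.1) z.2.2 : Pos N Δ) = p then
          w2 ρ b (Pos2.aux z.1 false z.2.1 z.2.2) (emb q) else 0)
      (fun z p => w2 ρ b (emb p) (Pos2.aux z.1 true z.2.1 z.2.2))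
      (fun v u : Pos N Δ ⊕ Zt N => w2 ρ b (ev N Δ (Sum.inl u)) (ev N Δ (Sum.inl v)) +
        ∑ z : Zt N, if (Sum.inl (Pos.blk z.1 false (own z.2.1) z.2.2) : Pos N Δ ⊕ Zt N) = u then
          w2 ρ b (ev N Δ (Sum.inr z)) (ev N Δ (Sum.inl v)) else 0)
      (fun q p => by
        show w2 ρ b (emb p) (emb q) + _ = _
        congr 1
        refine Finset.sum_congr rfl fun z _ => ?_
        simp only [Sum.inl.injEq]
        rfl)
      (fun p z => by
        show w2 ρ b (Pos2.aux z.1 true z.2.1 z.2.2 : Pos2 N Δ) (emb p) + _ = _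
        rw [row2]
        simp)
      (fun z p => by
        show w2 ρ b (emb p) (Pos2.aux z.1 true z.2.1 z.2.2 : Pos2 N Δ) + _ = _
        rw [Finset.sum_eq_zero, add_zero]
        intro z' _
        show (if _ then w2 ρ b (Pos2.aux z'.1 false z'.2.1 z'.2.2 : Pos2 N Δ)
          (Pos2.aux z.1 true z.2.1 z.2.2) else 0) = 0
        rw [mixed, ite_self])
      (fun z z' => by
        show w2 ρ b (Pos2.aux z'.1 true z'.2.1 z'.2.2 : Pos2 N Δ)
          (Pos2.aux z.1 true z.2.1 z.2.2) + _ = _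
        rw [diag2]
        simp)
  rw [h, transpose (fun q p => (w2 ρ b (emb p) (emb q) +
        ∑ z : Zt N, if (Pos.blk z.1 false (own z.2.1) z.2.2 : Pos N Δ) = p then
          w2 ρ b (Pos2.aux z.1 false z.2.1 z.2.2) (emb q) else 0) +
        ∑ z : Zt N, if (Pos.blk z.1 true (own z.2.1) z.2.2 : Pos N Δ) = q then
          w2 ρ b (emb p) (Pos2.aux z.1 true z.2.1 z.2.2) else 0)]
  refine Finset.sum_congr rfl fun τ _ => Finset.prod_congr rfl fun p _ => ?_
  exact key ρ b p (τ p)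

end Pool.Agent.H870R2.PC
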