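import Pool.Agent.H870R2.LS.PMain2
import Pool.Agent.H870R2.LS.PCcons
import Pool.Agent.H870R2.LS.PCsel
import Pool.Agent.H870R2.LS.PCle
import Pool.Agent.H870R2.LS.PCge
import Pool.Agent.H870R2.LS.PElim
import Pool.Agent.H870R2.LS.PEval3

set_option autoImplicit false
set_option linter.unusedSectionVars false

/-! The permanent of matrices with entries 0 and 1, modulo 7. -/

namespace Pool.Agent.H870R2.PC

open Finset BigOperators H522R2.LS

variable {K Ω : Type} [Fintype Ω] [DecidableEq Ω] {N : ℕ} {Δ : Type} [Fintype Δ] [DecidableEq Δ]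

theorem sel_unique {σ : Equiv.Perm (Pos N Δ)} {u u' : Fin N → Bool → Fin 4} (h : Sel σ u)
    (h' : Sel σ u') : u = u' := by
  funext i s
  have h1 := h i s (u i s)
  rw [h' i s (u i s), if_pos rfl] at h1
  by_contra hne
  rw [if_neg hne] at h1
  omega

theorem sel_good {σ : Equiv.Perm (Pos N Δ)} {u : Fin N → Bool → Fin 4} (h : Sel σ u) :
    Good3 σ := by
  intro s i a
  rw [h i s a]
  split_ifs
  · exact dvd_zero 3
  · exact dvd_refl 3

open Classical in
theorem card_good (ρ : Fin 3 → Equiv.Perm (Fin N)) : ∃ k,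
    (univ.filter (fun σ : Equiv.Perm (Pos N Δ) =>
      Good3 σ ∧ ∀ x, Adj ρ (fun _ _ => 0) x (σ x))).card = 2 ^ k * 6 ^ (8 * N) := by
  obtain ⟨k, hk⟩ := card_cons ρ
  refine ⟨k, ?_⟩
  have h1 : (univ.filter (fun σ : Equiv.Perm (Pos N Δ) =>
      Good3 σ ∧ ∀ x, Adj ρ (fun _ _ => 0) x (σ x))) =
      (univ.filter (fun u : Fin N → Bool → Fin 4 => Cons ρ u)).biUnion (fun u =>
        univ.filter (fun σ : Equiv.Perm (Pos N Δ) =>
          Sel σ u ∧ ∀ x, Adj ρ (fun _ _ => 0) x (σ x))) := by
    ext σ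
    simp only [Finset.mem_filter, Finset.mem_univ, true_and, Finset.mem_biUnion]
    constructor
    · rintro ⟨h1, h2⟩
      obtain ⟨u, h3, h4⟩ := good_sel ρ σ h1 h2
      exact ⟨u, h3, h4, h2⟩
    · rintro ⟨u, _, h4, h2⟩
      exact ⟨sel_good h4, h2⟩
  rw [h1, Finset.card_biUnion]
  · rw [Finset.sum_congr rfl (fun u hu => ?_), Finset.sum_const, hk, smul_eq_mul]
    exact le_antisymm (sel_le ρ u (Finset.mem_filter.1 hu).2)
      (sel_ge ρ u (Finset.mem_filter.1 hu).2)
  · intro u _ u' _ hne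
    rw [Function.onFun, Finset.disjoint_left]
    intro σ hσ hσ'
    exact hne (sel_unique (Finset.mem_filter.1 hσ).2.1 (Finset.mem_filter.1 hσ').2.1)

instance : Fact (Nat.Prime 7) := ⟨by norm_num⟩

theorem two_cube : (((2 : ℕ) : ZMod 7)) ^ 3 = 1 := by decide

theorem two_ne : (((2 : ℕ) : ZMod 7)) ≠ 1 := by decide

/-- The permanent of the untwisted matrix is not divisible by 7. -/
theorem untwisted7 (ρ : Fin 3 → Equiv.Perm (Fin N)) :
    ∑ σ : Equiv.Perm (Pos N Δ), term (((2 : ℕ) : ZMod 7)) ρ (fun _ _ => 0) σ ≠ 0 := by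
  classical
  rw [sum_good _ two_cube two_ne]
  have h : ∀ σ : Equiv.Perm (Pos N Δ), (if Good3 σ then
      term (((2 : ℕ) : ZMod 7)) ρ (fun _ _ => 0) σ else 0)
      = if Good3 σ ∧ ∀ x, Adj ρ (fun _ _ => 0) x (σ x) then 1 else 0 := by
    intro σ
    by_cases h1 : Good3 σ
    · rw [if_pos h1]
      by_cases h2 : ∀ x, Adj ρ (fun _ _ => 0) x (σ x)
      · rw [if_pos ⟨h1, h2⟩, term_one _ two_cube ρ _ σ h1 h2]
      · rw [if_neg (fun h => h2 h.2), term_zero _ ρ _ σ h2]
    · rw [if_neg h1, if_neg (fun h => h1 h.1)]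
  rw [Finset.sum_congr rfl (fun σ _ => h σ), Finset.sum_boole]
  obtain ⟨k, hk⟩ := card_good (Δ := Δ) ρ
  intro h0
  have h1 : (((2 ^ k * 6 ^ (8 * N) : ℕ)) : ZMod 7) = 0 := by
    rw [← hk]
    convert h0 using 3
  rw [ZMod.natCast_eq_zero_iff] at h1
  rcases (Nat.Prime.dvd_mul (by norm_num)).1 h1 with h2 | h2
  · have := Nat.Prime.dvd_of_dvd_pow (by norm_num) h2
    omega
  · have := Nat.Prime.dvd_of_dvd_pow (by norm_num) h2
    omega

theorem wn_cast (L : Type) [Field L] (c : ℕ) (ρ : Fin 3 → Equiv.Perm (Fin N))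
    (b : Fin N → Fin 3 → ZMod 2) (x y : Pos N Δ) : ((wn c ρ b x y : ℕ) : L) = wt (c : L) ρ b x y := by
  unfold wn wt
  split_ifs
  · rw [Nat.cast_pow]
  · rw [Nat.cast_zero]

theorem perN_w2 (e : Pos2 N Δ ≃ Ω) (ρ : Fin 3 → Equiv.Perm (Fin N))
    (b : Fin N → Fin 3 → ZMod 2) :
    ((perN (fun v : Ω × Ω => w2 ρ b (e.symm v.1) (e.symm v.2)) : ℕ) : ZMod 7)
      = ∑ σ : Equiv.Perm (Pos N Δ), term (((2 : ℕ) : ZMod 7)) ρ b σ := by
  have h1 : perN (fun v : Ω × Ω => w2 ρ b (e.symm v.1) (e.symm v.2)) =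
      ∑ σ : Equiv.Perm (Pos2 N Δ), ∏ x, w2 ρ b x (σ x) := by
    unfold perN
    rw [← Equiv.sum_comp e.permCongr]
    refine Finset.sum_congr rfl (fun σ _ => ?_)
    rw [← Equiv.prod_comp e]
    refine Finset.prod_congr rfl (fun x _ => ?_)
    simp [Equiv.permCongr_apply]
  rw [h1, per_w2, Nat.cast_sum]
  unfold term
  refine Finset.sum_congr rfl (fun σ _ => ?_)
  rw [Nat.cast_prod]
  refine Finset.prod_congr rfl (fun x _ => ?_)
  rw [wn_cast]

theorem w2_small (ρ : Fin 3 → Equiv.Perm (Fin N)) (b : Fin N → Fin 3 → ZMod 2) (x y : Pos2 N Δ) :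
    w2 ρ b x y = 0 ∨ w2 ρ b x y = 1 := by
  unfold w2
  split_ifs
  · exact Or.inr rfl
  · exact Or.inl rfl

theorem core_per2 (π : Equiv.Perm (Fin N))
    (hπ : ∀ U : Finset (Fin N), N ≤ 3 * U.card → 3 * U.card ≤ 2 * N →
      N / 60 < (Pool.Agent.Helper600R2.bd (finRotate N) U).card ∨
      N / 60 < (Pool.Agent.Helper600R2.bd π U).card)
    (k : ℕ) (hN : 2 ≤ N) (hk : 480 * k ≤ N) (e : Pos2 N Δ ≃ Ω) (C : PNet (Ω × Ω) K) {acc : Set K}
    (hval : C.Decides acc {A | ∀ v, A v = 0 ∨ A v = 1} (fun A => 7 ∣ perN A))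
    (hsym : ∀ g : Ix2 N → A4, C.SymmUnder (diag (FF2 e g))) : 2 ^ k ≤ Fintype.card C.G := by
  by_contra hlt
  push Not at hlt
  obtain ⟨i, hi⟩ := core_eq2 π hπ k hN hk e C hsym hlt
  have h1 := hval (fun v => w2 (rho π) (tw i) (e.symm v.1) (e.symm v.2))
    (fun v => w2_small _ _ _ _)
  have h2 := hval (fun v => w2 (rho π) (fun _ _ => 0) (e.symm v.1) (e.symm v.2))
    (fun v => w2_small _ _ _ _)
  rw [hi, h2] at h1
  have h3 := perN_w2 e (rho π) (fun _ _ => 0)
  have h4 := perN_w2 e (rho π) (tw i)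
  have h5 : ∑ k, ∑ t, tw i k t ≠ 0 := by
    have : ∀ k : Fin N, ∑ t, tw i k t = if k = i then 1 else 0 := by
      intro k
      rw [Finset.sum_eq_single 0]
      · simp [tw]
      · intro t _ ht
        simp [tw, ht]
      · simp
    rw [Finset.sum_congr rfl (fun k _ => this k)]
    simp
  have h6 := per_twisted (N := N) (Δ := Δ) _ two_cube two_ne (rho π) (tw i) h5
  rw [h6, ZMod.natCast_eq_zero_iff] at h4
  have h7 := (ZMod.natCast_eq_zero_iff _ _).2 (h1.2 h4)
  exact untwisted7 (N := N) (Δ := Δ) (rho π) (h3.symm.trans h7)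

/-- the identification of the positions with the indices -/
theorem exists_equiv2 {r N : ℕ} (β : Fin r × Fin 4 ↪ Ω) (J : (Ix2 N ⊕ Fin N) ↪ Fin r) :
    ∃ e : Pos2 N {x : Ω // ∀ v a, β (J v, a) ≠ x} ≃ Ω,
      (∀ i s j a, e (.blk i s j a) = β (J (Sum.inl (i, s, Sum.inl j)), a)) ∧
      (∀ i s l a, e (.aux i s l a) = β (J (Sum.inl (i, s, Sum.inr l)), a)) ∧
      (∀ i l, e (.host i l) = β (J (Sum.inr i), l)) ∧ ∀ δ, e (.dum δ) = δ.1 := by
  classical
  let f : Pos2 N {x : Ω // ∀ v a, β (J v, a) ≠ x} → Ω := fun x => match x with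
    | .blk i s j a => β (J (Sum.inl (i, s, Sum.inl j)), a)
    | .aux i s l a => β (J (Sum.inl (i, s, Sum.inr l)), a)
    | .host i l => β (J (Sum.inr i), l)
    | .dum δ => δ.1
  have hinj : Function.Injective f := by
    intro x y h
    rcases x with ⟨i, s, j, a⟩ | ⟨i, s, j, a⟩ | ⟨i, l⟩ | δ <;>
      rcases y with ⟨i', s', j', a'⟩ | ⟨i', s', j', a'⟩ | ⟨i', l'⟩ | δ'
    · have h1 := β.injective h
      rw [Prod.mk.injEq] at h1
      have h2 := J.injective h1.1
      simp only [Sum.inl.injEq, Sum.inr.injEq, Prod.mk.injEq] at h2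
      obtain ⟨rfl, rfl, rfl⟩ := h2
      rw [h1.2]
    · have h1 := β.injective h
      rw [Prod.mk.injEq] at h1
      have h2 := J.injective h1.1
      simp at h2
    · have h1 := β.injective h
      rw [Prod.mk.injEq] at h1
      have h2 := J.injective h1.1
      simp at h2
    · exact absurd h (δ'.2 _ _)
    · have h1 := β.injective h
      rw [Prod.mk.injEq] at h1
      have h2 := J.injective h1.1
      simp at h2
    · have h1 := β.injective h
      rw [Prod.mk.injEq] at h1
      have h2 := J.injective h1.1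
      simp only [Sum.inl.injEq, Sum.inr.injEq, Prod.mk.injEq] at h2
      obtain ⟨rfl, rfl, rfl⟩ := h2
      rw [h1.2]
    · have h1 := β.injective h
      rw [Prod.mk.injEq] at h1
      have h2 := J.injective h1.1
      simp at h2
    · exact absurd h (δ'.2 _ _)
    · have h1 := β.injective h
      rw [Prod.mk.injEq] at h1
      have h2 := J.injective h1.1
      simp at h2
    · have h1 := β.injective h
      rw [Prod.mk.injEq] at h1
      have h2 := J.injective h1.1
      simp at h2
    · have h1 := β.injective h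
      rw [Prod.mk.injEq] at h1
      have h2 := J.injective h1.1
      simp only [Sum.inr.injEq] at h2
      subst h2
      rw [h1.2]
    · exact absurd h (δ'.2 _ _)
    · exact absurd h.symm (δ.2 _ _)
    · exact absurd h.symm (δ.2 _ _)
    · exact absurd h.symm (δ.2 _ _)
    · have : δ = δ' := Subtype.ext h
      rw [this]
  have hsurj : Function.Surjective f := by
    intro x
    by_cases h : ∀ v a, β (J v, a) ≠ x
    · exact ⟨.dum ⟨x, h⟩, rfl⟩
    · push Not at h
      obtain ⟨v, a, h⟩ := h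
      rcases v with ⟨i, s, j | l⟩ | i
      · exact ⟨.blk i s j a, h⟩
      · exact ⟨.aux i s l a, h⟩
      · exact ⟨.host i a, h⟩
  exact ⟨Equiv.ofBijective f ⟨hinj, hsurj⟩, fun _ _ _ _ => rfl, fun _ _ _ _ => rfl,
    fun _ _ => rfl, fun _ => rfl⟩

/-- the group of the block permutations under which the circuit is symmetric -/
def symG2 {N : ℕ} {Δ : Type} [Fintype Δ] [DecidableEq Δ] (e : Pos2 N Δ ≃ Ω) (C : PNet (Ω × Ω) K) :
    Subgroup (Ix2 N → A4) where
  carrier := {g | C.SymmUnder (diag (FF2 e g))}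
  one_mem' := by
    show C.SymmUnder _
    exact ⟨1, by rw [FF2_one, diag_one]; exact PNet.IsAut.one C⟩
  mul_mem' := by
    intro g g' h h'
    have h1 : C.SymmUnder (diag (FF2 e g)) := h
    have h2 : C.SymmUnder (diag (FF2 e g')) := h'
    obtain ⟨p, hp⟩ := h1
    obtain ⟨q, hq⟩ := h2
    show C.SymmUnder _
    exact ⟨p * q, by rw [FF2_mul, diag_mul]; exact hp.mul hq⟩
  inv_mem' := by
    intro g h
    have h1 : C.SymmUnder (diag (FF2 e g)) := h
    obtain ⟨p, hp⟩ := h1
    show C.SymmUnder _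
    refine ⟨p⁻¹, hp.inv ?_⟩
    intro x
    have h1 : diag (FF2 e g⁻¹) (diag (FF2 e g) x) = diag (FF2 e g⁻¹ * FF2 e g) x := rfl
    rw [h1, ← FF2_mul, inv_mul_cancel, FF2_one]
    rfl

theorem lower_net2 {r : ℕ} (β : Fin r × Fin 4 ↪ Ω) (C : PNet (Ω × Ω) K)
    {acc : Set K}
    (hval : C.Decides acc {A | ∀ v, A v = 0 ∨ A v = 1} (fun A => 7 ∣ perN A))
    (hsym : ∀ (v : Fin r) (x y z : Fin 4), x ≠ y → y ≠ z → x ≠ z →
      C.SymmUnder (diag (cyc (β (v, x)) (β (v, y)) (β (v, z))))) :
    2 ^ (r / 7200) ≤ Fintype.card C.G := by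
  classical
  by_cases hN : r / 15 < 480
  · have : r / 7200 = 0 := by omega
    rw [this, pow_zero]
    exact Fintype.card_pos_iff.mpr ⟨C.out⟩
  · push Not at hN
    obtain ⟨N, hNdef⟩ : ∃ N, N = r / 15 := ⟨_, rfl⟩
    rw [← hNdef] at hN
    obtain ⟨π, hπ⟩ := Pool.Agent.Helper600R2.exists_expander (n := N) (by omega)
    have hcard : Fintype.card (Ix2 N ⊕ Fin N) ≤ Fintype.card (Fin r) := by
      simp only [Fintype.card_sum, Fintype.card_prod, Fintype.card_fin, Fintype.card_bool]
      omega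
    obtain ⟨J⟩ := Function.Embedding.nonempty_of_card_le hcard
    obtain ⟨e, he1, he1', he2, he3⟩ := exists_equiv2 β J
    have hall : ∀ g : Ix2 N → A4, g ∈ symG2 e C := by
      intro g
      apply Subgroup.pi_mem_of_mulSingle_mem
      intro v
      obtain ⟨a, ha⟩ := g v
      induction ha using Subgroup.closure_induction with
      | mem a ha' =>
        obtain ⟨x, y, z, h1, h2, h3, rfl⟩ := ha'
        show C.SymmUnder (diag (FF2 e (Pi.mulSingle v ⟨cyc x y z, _⟩)))
        have key : FF2 e (Pi.mulSingle v ⟨cyc x y z, Subgroup.subset_closure ⟨x, y, z, h1, h2, h3, rfl⟩⟩)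
            = cyc (β (J (Sum.inl v), x)) (β (J (Sum.inl v), y)) (β (J (Sum.inl v), z)) := by
          ext w
          obtain ⟨p, rfl⟩ := e.surjective w
          unfold FF2
          rw [Equiv.permCongr_apply, Equiv.symm_apply_apply]
          rcases p with ⟨i, s, j, b⟩ | ⟨i, s, j, b⟩ | ⟨i, l⟩ | δ
          · by_cases hv : (i, s, Sum.inl j) = v
            · subst hv
              have hf : Function.Injective (fun a : Fin 4 => β (J (Sum.inl (i, s, Sum.inl j)), a)) := by
                intro a a' haa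
                have := β.injective haa
                exact (Prod.mk.inj this).2
              have h4 := cyc_inj (fun a : Fin 4 => β (J (Sum.inl (i, s, Sum.inl j)), a)) hf x y z b
              show e (.blk i s j (((Pi.mulSingle (i, s, Sum.inl j) ⟨cyc x y z, _⟩ : Ix2 N → A4)
                (i, s, Sum.inl j) : Equiv.Perm (Fin 4)) b)) = _
              rw [Pi.mulSingle_eq_same, he1, he1]
              exact h4.symm
            · have hne : ∀ a : Fin 4, e (.blk i s j b) ≠ β (J (Sum.inl v), a) := by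
                intro a haa
                rw [he1] at haa
                have h5 := (Prod.mk.inj (β.injective haa)).1
                exact hv (Sum.inl.inj (J.injective h5))
              show e (.blk i s j (((Pi.mulSingle v ⟨cyc x y z, _⟩ : Ix2 N → A4)
                (i, s, Sum.inl j) : Equiv.Perm (Fin 4)) b)) = _
              rw [Pi.mulSingle_eq_of_ne hv, cyc_ne _ _ _ _ (hne x) (hne y) (hne z)]
              rfl
          · by_cases hv : (i, s, Sum.inr j) = v
            · subst hv
              have hf : Function.Injective (fun a : Fin 4 => β (J (Sum.inl (i, s, Sum.inr j)), a)) := by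
                intro a a' haa
                have := β.injective haa
                exact (Prod.mk.inj this).2
              have h4 := cyc_inj (fun a : Fin 4 => β (J (Sum.inl (i, s, Sum.inr j)), a)) hf x y z b
              show e (.aux i s j (((Pi.mulSingle (i, s, Sum.inr j) ⟨cyc x y z, _⟩ : Ix2 N → A4)
                (i, s, Sum.inr j) : Equiv.Perm (Fin 4)) b)) = _
              rw [Pi.mulSingle_eq_same, he1', he1']
              exact h4.symm
            · have hne : ∀ a : Fin 4, e (.aux i s j b) ≠ β (J (Sum.inl v), a) := by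
                intro a haa
                rw [he1'] at haa
                have h5 := (Prod.mk.inj (β.injective haa)).1
                exact hv (Sum.inl.inj (J.injective h5))
              show e (.aux i s j (((Pi.mulSingle v ⟨cyc x y z, _⟩ : Ix2 N → A4)
                (i, s, Sum.inr j) : Equiv.Perm (Fin 4)) b)) = _
              rw [Pi.mulSingle_eq_of_ne hv, cyc_ne _ _ _ _ (hne x) (hne y) (hne z)]
              rfl
          · have hne : ∀ a : Fin 4, e (.host i l) ≠ β (J (Sum.inl v), a) := by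
              intro a haa
              rw [he2] at haa
              have h5 := J.injective (Prod.mk.inj (β.injective haa)).1
              simp at h5
            rw [cyc_ne _ _ _ _ (hne x) (hne y) (hne z)]
            rfl
          · have hne : ∀ a : Fin 4, e (.dum δ) ≠ β (J (Sum.inl v), a) := by
              intro a haa
              rw [he3] at haa
              exact δ.2 _ _ haa.symm
            rw [cyc_ne _ _ _ _ (hne x) (hne y) (hne z)]
            rfl
        have h6 := hsym (J (Sum.inl v)) x y z h1 h2 h3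
        rw [← key] at h6
        exact h6
      | one =>
        have : (Pi.mulSingle v (⟨1, Subgroup.one_mem _⟩ : A4) : Ix2 N → A4) = 1 := Pi.mulSingle_one v
        rw [this]
        exact Subgroup.one_mem _
      | mul a b ha hb iha ihb =>
        have e0 : (⟨a * b, Subgroup.mul_mem _ ha hb⟩ : A4) = (⟨a, ha⟩ : A4) * (⟨b, hb⟩ : A4) := rfl
        rw [e0, Pi.mulSingle_mul]
        exact Subgroup.mul_mem _ iha ihb
      | inv a ha iha =>
        have e0 : (⟨a⁻¹, Subgroup.inv_mem _ ha⟩ : A4) = (⟨a, ha⟩ : A4)⁻¹ := rfl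
        rw [e0, Pi.mulSingle_inv]
        exact Subgroup.inv_mem _ iha
    have hmain := core_per2 π hπ (r / 7200) (by omega) (by omega) e C hval (fun g => hall g)
    exact hmain

end Pool.Agent.H870R2.PC
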