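import Pool.Agent.H870R2.LS.PNet
import Pool.Agent.H870R2.LS.P2Defs

set_option autoImplicit false
set_option linter.unusedSectionVars false

/-! Locally symmetric networks cannot tell the twisted 0-1 matrices from the untwisted one (after
helper522's proof for arithmetic circuits). -/

namespace Pool.Agent.H870R2.PC

open Finset BigOperators H522R2.LS

variable {K Ω : Type} [Fintype Ω] [DecidableEq Ω] {N : ℕ} {Δ : Type} [Fintype Δ] [DecidableEq Δ]

/-- blocks -/
abbrev Ix2 (N : ℕ) : Type := Fin N × Bool × (Fin 3 ⊕ Fin 4)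

/-- blockwise action -/
def act2 (g : Ix2 N → Equiv.Perm (Fin 4)) : Equiv.Perm (Pos2 N Δ) where
  toFun x := match x with
    | .blk i s j a => .blk i s j (g (i, s, Sum.inl j) a)
    | .aux i s l a => .aux i s l (g (i, s, Sum.inr l) a)
    | .host i l => .host i l
    | .dum δ => .dum δ
  invFun x := match x with
    | .blk i s j a => .blk i s j ((g (i, s, Sum.inl j)).symm a)
    | .aux i s l a => .aux i s l ((g (i, s, Sum.inr l)).symm a)
    | .host i l => .host i l
    | .dum δ => .dum δ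
  left_inv x := by cases x <;> simp
  right_inv x := by cases x <;> simp

theorem act2_one : act2 (Δ := Δ) (1 : Ix2 N → Equiv.Perm (Fin 4)) = 1 := by
  ext x; cases x <;> rfl

theorem act2_mul (g h : Ix2 N → Equiv.Perm (Fin 4)) :
    act2 (Δ := Δ) (g * h) = act2 g * act2 h := by
  ext x; cases x <;> rfl

theorem w2_gauge (ρ : Fin 3 → Equiv.Perm (Fin N)) (b b' : Fin N → Fin 3 → ZMod 2)
    (τ : Fin N → Bool → Fin 3)
    (hb : ∀ i t, b i t = b' i t + fl (τ i false) t + fl (τ (ρ t i) true) t)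
    (x y : Pos2 N Δ) :
    w2 ρ b' (act2 (fun v => flp (τ v.1 v.2.1)) x) (act2 (fun v => flp (τ v.1 v.2.1)) y)
      = w2 ρ b x y := by
  have hadj : Adj2 ρ b' (act2 (fun v => flp (τ v.1 v.2.1)) x) (act2 (fun v => flp (τ v.1 v.2.1)) y)
      ↔ Adj2 ρ b x y := by
    rcases x with ⟨i, s, j, a⟩ | ⟨i, s, j, a⟩ | ⟨i, l⟩ | δ <;>
      rcases y with ⟨i', s', j', a'⟩ | ⟨i', s', j', a'⟩ | ⟨i', l'⟩ | δ'
    · rcases s with _ | _ <;> rcases s' with _ | _
      · show (i = i' ∧ flp (τ i false) a = flp (τ i' false) a') ↔ (i = i' ∧ a = a')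
        constructor
        · rintro ⟨rfl, h⟩; exact ⟨rfl, (flp _).injective h⟩
        · rintro ⟨rfl, rfl⟩; exact ⟨rfl, rfl⟩
      · exact Iff.rfl
      · show (j = j' ∧ ρ j i' = i ∧ lab (flp (τ i' false) a') j + b' i' j
            = lab (flp (τ i true) a) j) ↔ (j = j' ∧ ρ j i' = i ∧ lab a' j + b i' j = lab a j)
        have h2 : ∀ u v w x y : ZMod 2, (u + x + v = w + y) ↔ (u + (v + x + y) = w) := by decide
        constructor
        · rintro ⟨rfl, rfl, h⟩
          refine ⟨rfl, rfl, ?_⟩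
          rw [lab_flp, lab_flp] at h
          rw [hb i' j]
          exact (h2 _ _ _ _ _).mp h
        · rintro ⟨rfl, rfl, h⟩
          refine ⟨rfl, rfl, ?_⟩
          rw [lab_flp, lab_flp]
          rw [hb i' j] at h
          exact (h2 _ _ _ _ _).mpr h
      · show (i = i' ∧ flp (τ i true) a = flp (τ i' true) a') ↔ (i = i' ∧ a = a')
        constructor
        · rintro ⟨rfl, h⟩; exact ⟨rfl, (flp _).injective h⟩
        · rintro ⟨rfl, rfl⟩; exact ⟨rfl, rfl⟩
    · rcases s with _ | _ <;> rcases s' with _ | _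
      · show (i = i' ∧ flp (τ i false) a = flp (τ i' false) a' ∧ j = own j') ↔
          (i = i' ∧ a = a' ∧ j = own j')
        constructor
        · rintro ⟨rfl, h, h'⟩; exact ⟨rfl, (flp _).injective h, h'⟩
        · rintro ⟨rfl, rfl, h'⟩; exact ⟨rfl, rfl, h'⟩
      · exact Iff.rfl
      · exact Iff.rfl
      · show (i = i' ∧ flp (τ i true) a = flp (τ i' true) a') ↔ (i = i' ∧ a = a')
        constructor
        · rintro ⟨rfl, h⟩; exact ⟨rfl, (flp _).injective h⟩
        · rintro ⟨rfl, rfl⟩; exact ⟨rfl, rfl⟩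
    · cases s <;> exact Iff.rfl
    · cases s <;> exact Iff.rfl
    · rcases s with _ | _ <;> rcases s' with _ | _
      · show (i = i' ∧ flp (τ i false) a = flp (τ i' false) a') ↔ (i = i' ∧ a = a')
        constructor
        · rintro ⟨rfl, h⟩; exact ⟨rfl, (flp _).injective h⟩
        · rintro ⟨rfl, rfl⟩; exact ⟨rfl, rfl⟩
      · exact Iff.rfl
      · exact Iff.rfl
      · show (i = i' ∧ flp (τ i true) a = flp (τ i' true) a' ∧ j' = own j) ↔
          (i = i' ∧ a = a' ∧ j' = own j)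
        constructor
        · rintro ⟨rfl, h, h'⟩; exact ⟨rfl, (flp _).injective h, h'⟩
        · rintro ⟨rfl, rfl, h'⟩; exact ⟨rfl, rfl, h'⟩
    · show (i = i' ∧ s = s' ∧ j = j' ∧ flp (τ i s) a = flp (τ i' s') a') ↔
        (i = i' ∧ s = s' ∧ j = j' ∧ a = a')
      constructor
      · rintro ⟨rfl, rfl, rfl, h⟩; exact ⟨rfl, rfl, rfl, (flp _).injective h⟩
      · rintro ⟨rfl, rfl, rfl, rfl⟩; exact ⟨rfl, rfl, rfl, rfl⟩
    · cases s <;> exact Iff.rfl
    · cases s <;> exact Iff.rfl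
    · cases s' <;> exact Iff.rfl
    · cases s' <;> exact Iff.rfl
    · exact Iff.rfl
    · exact Iff.rfl
    · cases s' <;> exact Iff.rfl
    · cases s' <;> exact Iff.rfl
    · exact Iff.rfl
    · exact Iff.rfl
  unfold w2
  by_cases h : Adj2 ρ b x y
  · rw [if_pos h, if_pos (hadj.mpr h)]
  · rw [if_neg h, if_neg (fun h' => h (hadj.mp h'))]

/-- the permutation of `Ω` given by even permutations of the blocks -/
def FF2 (e : Pos2 N Δ ≃ Ω) (g : Ix2 N → A4) : Equiv.Perm Ω :=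
  e.permCongr (act2 (fun v => (g v : Equiv.Perm (Fin 4))))

theorem FF2_one (e : Pos2 N Δ ≃ Ω) : FF2 e 1 = 1 := by
  have h : act2 (Δ := Δ) (fun v : Ix2 N => ((1 : Ix2 N → A4) v : Equiv.Perm (Fin 4))) = 1 :=
    act2_one
  unfold FF2
  rw [h]
  ext x
  simp [Equiv.permCongr_apply]

theorem FF2_mul (e : Pos2 N Δ ≃ Ω) (g h : Ix2 N → A4) : FF2 e (g * h) = FF2 e g * FF2 e h := by
  have h1 : act2 (Δ := Δ) (fun v : Ix2 N => ((g * h) v : Equiv.Perm (Fin 4)))
      = act2 (fun v => (g v : Equiv.Perm (Fin 4))) * act2 (fun v => (h v : Equiv.Perm (Fin 4))) :=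
    act2_mul _ _
  unfold FF2
  rw [h1]
  ext x
  simp [Equiv.permCongr_apply]

/-- the permutations fixing a gate -/
def SS2 (e : Pos2 N Δ ≃ Ω) (C : PNet (Ω × Ω) K) (h : C.G) : Subgroup (Ix2 N → A4) where
  carrier := {g | ∃ p, C.IsAut p (diag (FF2 e g)) ∧ p h = h}
  one_mem' := ⟨1, by rw [FF2_one, diag_one]; exact PNet.IsAut.one C, rfl⟩
  mul_mem' := by
    rintro g g' ⟨p, hp, hp'⟩ ⟨q, hq, hq'⟩
    refine ⟨p * q, ?_, ?_⟩
    · rw [FF2_mul, diag_mul]; exact hp.mul hq
    · rw [Equiv.Perm.mul_apply, hq', hp']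
  inv_mem' := by
    rintro g ⟨p, hp, hp'⟩
    refine ⟨p⁻¹, hp.inv ?_, ?_⟩
    · intro x
      have h1 : diag (FF2 e g⁻¹) (diag (FF2 e g) x) = diag (FF2 e g⁻¹ * FF2 e g) x := rfl
      rw [h1, ← FF2_mul, inv_mul_cancel, FF2_one]
      rfl
    · rw [Equiv.Perm.inv_eq_iff_eq, hp']

theorem mem_SS2 (e : Pos2 N Δ ≃ Ω) (C : PNet (Ω × Ω) K) (h : C.G) (g : Ix2 N → A4) :
    g ∈ SS2 e C h ↔ ∃ p, C.IsAut p (diag (FF2 e g)) ∧ p h = h := Iff.rfl

open Classical in
/-- the bad blocks of a gate -/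
noncomputable def II2 (e : Pos2 N Δ ≃ Ω) (C : PNet (Ω × Ω) K) (h : C.G) : Finset (Ix2 N) :=
  univ.filter (fun v => ¬ ∀ a b : A4, Pi.mulSingle v (a * b * a⁻¹ * b⁻¹) ∈ SS2 e C h)

theorem notMem_II2 (e : Pos2 N Δ ≃ Ω) (C : PNet (Ω × Ω) K) (h : C.G) (v : Ix2 N) :
    v ∉ II2 e C h ↔ ∀ a b : A4, Pi.mulSingle v (a * b * a⁻¹ * b⁻¹) ∈ SS2 e C h := by
  unfold II2
  simp

theorem isAut_inv2 (e : Pos2 N Δ ≃ Ω) (C : PNet (Ω × Ω) K) (g : Ix2 N → A4) (p : Equiv.Perm C.G)
    (hp : C.IsAut p (diag (FF2 e g))) : C.IsAut p⁻¹ (diag (FF2 e g⁻¹)) := by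
  refine hp.inv ?_
  intro x
  have h1 : diag (FF2 e g⁻¹) (diag (FF2 e g) x) = diag (FF2 e g⁻¹ * FF2 e g) x := rfl
  rw [h1, ← FF2_mul, inv_mul_cancel, FF2_one]
  rfl

theorem II_sub2 (e : Pos2 N Δ ≃ Ω) (C : PNet (Ω × Ω) K) (h : C.G) (g : Ix2 N → A4) (p : Equiv.Perm C.G)
    (hp : C.IsAut p (diag (FF2 e g))) : II2 e C (p h) ⊆ II2 e C h := by
  intro v hv
  by_contra hcon
  apply (notMem_II2 e C (p h) v).mpr _ hv
  rw [notMem_II2] at hcon
  intro a b
  have h1 := hcon ((g v)⁻¹ * a * g v) ((g v)⁻¹ * b * g v)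
  obtain ⟨q, hq, hqh⟩ := h1
  have h2 : Pi.mulSingle v (a * b * a⁻¹ * b⁻¹) = g * Pi.mulSingle v
      (((g v)⁻¹ * a * g v) * ((g v)⁻¹ * b * g v) * ((g v)⁻¹ * a * g v)⁻¹ * ((g v)⁻¹ * b * g v)⁻¹) * g⁻¹ := by
    funext w
    simp only [Pi.mul_apply, Pi.inv_apply]
    by_cases hw : w = v
    · subst hw
      rw [Pi.mulSingle_eq_same, Pi.mulSingle_eq_same]
      group
    · rw [Pi.mulSingle_eq_of_ne hw, Pi.mulSingle_eq_of_ne hw]
      group
  rw [h2]
  refine ⟨p * q * p⁻¹, ?_, ?_⟩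
  · rw [FF2_mul, FF2_mul, diag_mul, diag_mul]
    exact (hp.mul hq).mul (isAut_inv2 e C g p hp)
  · rw [Equiv.Perm.mul_apply, Equiv.Perm.mul_apply]
    have : p⁻¹ (p h) = h := by simp
    rw [this, hqh]

theorem II_inv2 (e : Pos2 N Δ ≃ Ω) (C : PNet (Ω × Ω) K) (h : C.G) (g : Ix2 N → A4) (p : Equiv.Perm C.G)
    (hp : C.IsAut p (diag (FF2 e g))) : II2 e C (p h) = II2 e C h := by
  apply Finset.Subset.antisymm (II_sub2 e C h g p hp)
  have h1 := II_sub2 e C (p h) g⁻¹ p⁻¹ (isAut_inv2 e C g p hp)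
  have : p⁻¹ (p h) = h := by simp
  rwa [this] at h1

/-- bad vertices -/
noncomputable def DD2 (e : Pos2 N Δ ≃ Ω) (C : PNet (Ω × Ω) K) (h : C.G) : Finset (Fin N) :=
  (II2 e C h).image Prod.fst

theorem notMem_DD2 (e : Pos2 N Δ ≃ Ω) (C : PNet (Ω × Ω) K) (h : C.G) (i : Fin N) (hi : i ∉ DD2 e C h)
    (s : Bool) (j : Fin 3 ⊕ Fin 4) (a b : A4) : Pi.mulSingle (i, s, j) (a * b * a⁻¹ * b⁻¹) ∈ SS2 e C h := by
  have : (i, s, j) ∉ II2 e C h := by
    intro hm
    exact hi (Finset.mem_image.mpr ⟨_, hm, rfl⟩)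
  exact (notMem_II2 e C h _).mp this a b

theorem card_DD2 (e : Pos2 N Δ ≃ Ω) (C : PNet (Ω × Ω) K) (hsym : ∀ g : Ix2 N → A4, C.SymmUnder (diag (FF2 e g)))
    (k : ℕ) (hk : Fintype.card C.G < 2 ^ k) (h : C.G) : (DD2 e C h).card ≤ 2 * k := by
  classical
  have hsym' : ∀ g : Ix2 N → A4, ∃ p, C.IsAut p (diag (FF2 e g)) :=
    fun g => hsym g
  choose q hq using hsym'
  obtain ⟨I, hI, hI2⟩ := support (SS2 e C h) (fun g => q g h) (by
    intro g g' hgg
    refine ⟨(q g)⁻¹ * q g', ?_, ?_⟩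
    · rw [FF2_mul, diag_mul]
      exact (isAut_inv2 e C g (q g) (hq g)).mul (hq g')
    · rw [Equiv.Perm.mul_apply, Equiv.Perm.inv_eq_iff_eq]
      exact hgg.symm) k hk
  refine le_trans Finset.card_image_le (le_trans (Finset.card_le_card ?_) hI)
  intro v hv
  by_contra hcon
  exact (notMem_II2 e C h v).mpr (hI2 v hcon) hv

/-- the gauge element of a move from `i` to `j` of type `t` is available -/
theorem move_one2 (e : Pos2 N Δ ≃ Ω) (C : PNet (Ω × Ω) K) (h : C.G)
    (ρ : Fin 3 → Equiv.Perm (Fin N)) (h0 : ρ 0 = 1) (i j : Fin N) (t : Fin 3) (hij : ρ t i = j)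
    (hi : i ∉ DD2 e C h) (hj : j ∉ DD2 e C h) :
    ∃ g ∈ SS2 e C h, ∀ v : Ω × Ω, w2 ρ (tw i) (e.symm (diag (FF2 e g) v).1) (e.symm (diag (FF2 e g) v).2)
      = w2 ρ (tw j) (e.symm v.1) (e.symm v.2) := by
  classical
  obtain ⟨a, b, hab⟩ := flp_comm t
  obtain ⟨a0, b0, hab0⟩ := flp_comm 0
  have hflp0 : flp 0 = 1 := rfl
  let τ : Fin N → Bool → Fin 3 := fun k s => if s = false then (if k = i then t else 0)
    else (if k = j then t else 0)
  let g : Ix2 N → A4 := fun v => if (v.2.1 = false ∧ v.1 = i) ∨ (v.2.1 = true ∧ v.1 = j)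
    then a * b * a⁻¹ * b⁻¹ else 1
  have hg : ∀ v, (g v : Equiv.Perm (Fin 4)) = flp (τ v.1 v.2.1) := by
    rintro ⟨k, s, j'⟩
    simp only [g, τ]
    cases s
    · by_cases hk : k = i
      · simp only [hk, and_self, true_or, if_true]
        exact hab
      · simp [hk, hflp0]
    · by_cases hk : k = j
      · simp only [hk, and_self, or_true, if_true]
        simpa using hab
      · simp [hk, hflp0]
  refine ⟨g, ?_, ?_⟩
  · apply Subgroup.pi_mem_of_mulSingle_mem
    rintro ⟨k, s, j'⟩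
    by_cases hc : (s = false ∧ k = i) ∨ (s = true ∧ k = j)
    · have : g (k, s, j') = a * b * a⁻¹ * b⁻¹ := if_pos hc
      rw [this]
      rcases hc with ⟨_, rfl⟩ | ⟨_, rfl⟩
      · exact notMem_DD2 e C h k hi s j' a b
      · exact notMem_DD2 e C h k hj s j' a b
    · have : g (k, s, j') = 1 := if_neg hc
      rw [this, Pi.mulSingle_one]
      exact Subgroup.one_mem _
  · intro v
    have hgg : (fun v => (g v : Equiv.Perm (Fin 4))) = (fun v : Ix2 N => flp (τ v.1 v.2.1)) := funext hg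
    have h1 : ∀ x : Ω, e.symm (FF2 e g x) = act2 (fun v : Ix2 N => flp (τ v.1 v.2.1)) (e.symm x) := by
      intro x
      unfold FF2
      rw [hgg, Equiv.permCongr_apply, Equiv.symm_apply_apply]
    show w2 ρ (tw i) (e.symm (FF2 e g v.1)) (e.symm (FF2 e g v.2)) = _
    rw [h1, h1]
    apply w2_gauge
    intro k t'
    have h2 : τ k false = if k = i then t else 0 := by simp [τ]
    have h3 : τ (ρ t' k) true = if ρ t' k = j then t else 0 := by simp [τ]
    rw [h2, h3]
    exact tw_move ρ h0 i j t hij k t'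

theorem move_all2 (e : Pos2 N Δ ≃ Ω) (C : PNet (Ω × Ω) K) (h : C.G)
    (π : Equiv.Perm (Fin N)) (i j : Fin N) (hij : Relation.EqvGen (adj π (DD2 e C h)) i j) :
    ∃ g ∈ SS2 e C h, ∀ v : Ω × Ω,
      w2 (rho π) (tw i) (e.symm (diag (FF2 e g) v).1) (e.symm (diag (FF2 e g) v).2)
      = w2 (rho π) (tw j) (e.symm v.1) (e.symm v.2) := by
  induction hij with
  | rel i j hij =>
    obtain ⟨h1, h2, t, h3⟩ := hij
    exact move_one2 e C h (rho π) rfl i j t h3 h1 h2
  | refl i =>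
    refine ⟨1, Subgroup.one_mem _, fun v => ?_⟩
    rw [FF2_one]
    rfl
  | symm i j _ ih =>
    obtain ⟨g, hg, h1⟩ := ih
    refine ⟨g⁻¹, Subgroup.inv_mem _ hg, fun v => ?_⟩
    rw [← h1]
    have h2 : diag (FF2 e g) (diag (FF2 e g⁻¹) v) = v := by
      have : diag (FF2 e g) (diag (FF2 e g⁻¹) v) = diag (FF2 e g * FF2 e g⁻¹) v := rfl
      rw [this, ← FF2_mul, mul_inv_cancel, FF2_one]
      rfl
    rw [h2]
  | trans i j k _ _ ih1 ih2 =>
    obtain ⟨g, hg, h1⟩ := ih1
    obtain ⟨g', hg', h2⟩ := ih2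
    refine ⟨g * g', Subgroup.mul_mem _ hg hg', fun v => ?_⟩
    rw [FF2_mul, ← h2, ← h1]
    rfl


/-- **Core.** -/
theorem core_eq2 (π : Equiv.Perm (Fin N))
    (hπ : ∀ U : Finset (Fin N), N ≤ 3 * U.card → 3 * U.card ≤ 2 * N →
      N / 60 < (Pool.Agent.Helper600R2.bd (finRotate N) U).card ∨
      N / 60 < (Pool.Agent.Helper600R2.bd π U).card)
    (k : ℕ) (hN : 2 ≤ N) (hk : 480 * k ≤ N) (e : Pos2 N Δ ≃ Ω) (C : PNet (Ω × Ω) K)
    (hsym : ∀ g : Ix2 N → A4, C.SymmUnder (diag (FF2 e g))) (hlt : Fintype.card C.G < 2 ^ k) :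
    ∃ i : Fin N, C.val (fun v => w2 (rho π) (tw i) (e.symm v.1) (e.symm v.2)) C.out =
      C.val (fun v => w2 (rho π) (fun _ _ => 0) (e.symm v.1) (e.symm v.2)) C.out := by
  classical
  have hcard := card_DD2 e C hsym k hlt
  let M : Fin N → (Ω × Ω) → ℕ :=
    fun i v => w2 (rho π) (tw i) (e.symm v.1) (e.symm v.2)
  let M0 : (Ω × Ω) → ℕ :=
    fun v => w2 (rho π) (fun _ _ => 0) (e.symm v.1) (e.symm v.2)
  have hne : ∀ g h, (core π (DD2 e C g ∪ DD2 e C h)).Nonempty := by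
    intro g h
    apply core_nonempty (by omega) π hπ
    have h1 := Finset.card_union_le (DD2 e C g) (DD2 e C h)
    have h2 := hcard g
    have h3 := hcard h
    omega
  have hgame := pgame C M M0 (DD2 e C) (core π) hne (fun g h => core_mono π _ _)
    (by
      intro g i hi i' hi'
      obtain ⟨g0, ⟨p, hp, hpg⟩, h1⟩ := move_all2 e C g π i i' (core_conn π _ i i' hi hi')
      refine ⟨p, _, hp, hpg, ?_, ?_⟩
      · intro h
        unfold DD2
        rw [II_inv2 e C h g0 p hp]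
      · funext v
        exact h1 v)
    (by
      intro g x hx i hi
      have hiD := core_notMem hN π _ i hi
      by_contra hne
      have h1 : ∃ a a', x = (e (.blk i true 0 a), e (.blk i false 0 a')) := by
        by_contra hcon
        apply hne
        show w2 (rho π) (tw i) (e.symm x.1) (e.symm x.2)
          = w2 (rho π) (fun _ _ => 0) (e.symm x.1) (e.symm x.2)
        have hadj : Adj2 (rho π) (tw i) (e.symm x.1) (e.symm x.2)
            ↔ Adj2 (rho π) (fun _ _ => 0) (e.symm x.1) (e.symm x.2) := by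
          rcases hx1 : e.symm x.1 with ⟨i1, s1, j1, a1⟩ | ⟨i1, s1, m1, a1⟩ | ⟨i1, l1⟩ | δ1 <;>
            rcases hx2 : e.symm x.2 with ⟨i2, s2, j2, a2⟩ | ⟨i2, s2, m2, a2⟩ | ⟨i2, l2⟩ | δ2
          · rcases s1 with _ | _ <;> rcases s2 with _ | _
            · exact Iff.rfl
            · exact Iff.rfl
            · show (j1 = j2 ∧ rho π j1 i2 = i1 ∧ lab a2 j1 + tw i i2 j1 = lab a1 j1)
                ↔ (j1 = j2 ∧ rho π j1 i2 = i1 ∧ lab a2 j1 + 0 = lab a1 j1)
              by_cases hc : i2 = i ∧ j1 = 0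
              · obtain ⟨rfl, rfl⟩ := hc
                constructor
                · rintro ⟨h1, h2, _⟩
                  exfalso
                  apply hcon
                  refine ⟨a1, a2, ?_⟩
                  have h3 : i1 = i2 := by rw [← h2]; rfl
                  rw [Equiv.symm_apply_eq] at hx1 hx2
                  rw [Prod.ext_iff]
                  exact ⟨by rw [hx1, h3], by rw [hx2, ← h1]⟩
                · rintro ⟨h1, h2, _⟩
                  exfalso
                  apply hcon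
                  refine ⟨a1, a2, ?_⟩
                  have h3 : i1 = i2 := by rw [← h2]; rfl
                  rw [Equiv.symm_apply_eq] at hx1 hx2
                  rw [Prod.ext_iff]
                  exact ⟨by rw [hx1, h3], by rw [hx2, ← h1]⟩
              · have : tw i i2 j1 = 0 := if_neg hc
                rw [this]
            · exact Iff.rfl
          · cases s1 <;> cases s2 <;> exact Iff.rfl
          · cases s1 <;> exact Iff.rfl
          · cases s1 <;> exact Iff.rfl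
          · cases s1 <;> cases s2 <;> exact Iff.rfl
          · exact Iff.rfl
          · cases s1 <;> exact Iff.rfl
          · cases s1 <;> exact Iff.rfl
          · cases s2 <;> exact Iff.rfl
          · cases s2 <;> exact Iff.rfl
          · exact Iff.rfl
          · exact Iff.rfl
          · cases s2 <;> exact Iff.rfl
          · cases s2 <;> exact Iff.rfl
          · exact Iff.rfl
          · exact Iff.rfl
        unfold w2
        by_cases h : Adj2 (rho π) (tw i) (e.symm x.1) (e.symm x.2)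
        · rw [if_pos h, if_pos (hadj.mp h)]
        · rw [if_neg h, if_neg (fun h' => h (hadj.mpr h'))]
      obtain ⟨a, a', rfl⟩ := h1
      obtain ⟨c', d, hcd⟩ := flp_comm 1
      obtain ⟨p, hp, hpg⟩ := notMem_DD2 e C g i hiD false (Sum.inl 0) c' d
      have h2 := hp.inp g
      rw [hpg, hx] at h2
      simp only [Option.map_some, Option.some.injEq, H522R2.LS.diag, Prod.mk.injEq] at h2
      have h3 := h2.2
      unfold FF2 at h3
      rw [Equiv.permCongr_apply, Equiv.symm_apply_apply] at h3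
      have h4 := e.injective h3
      have h5 : act2 (fun v => ((Pi.mulSingle (i, false, Sum.inl 0) (c' * d * c'⁻¹ * d⁻¹) : Ix2 N → A4) v :
          Equiv.Perm (Fin 4))) (.blk i false 0 a' : Pos2 N Δ) = .blk i false 0 (flp 1 a') := by
        show Pos2.blk i false 0 (((Pi.mulSingle (i, false, Sum.inl 0) (c' * d * c'⁻¹ * d⁻¹) : Ix2 N → A4) (i, false, Sum.inl 0) :
          Equiv.Perm (Fin 4)) a') = _
        rw [Pi.mulSingle_eq_same, hcd]
      rw [h5] at h4
      simp only [Pos2.blk.injEq] at h4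
      have h6 : ∀ a' : Fin 4, a' ≠ flp 1 a' := by decide
      exact h6 a' h4.2.2.2)
  obtain ⟨i, hi⟩ := hne C.out C.out
  rw [Finset.union_self] at hi
  exact ⟨i, hgame (C.rk C.out) C.out rfl i hi⟩

end Pool.Agent.H870R2.PC
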