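import Pool.Agent.H522R2.LS.Final
import Pool.Agent.H870R2.LS.PCDefs

set_option autoImplicit false
set_option linter.unusedSectionVars false

/-! Networks of arbitrary multiset gates that read a matrix of natural numbers. -/

namespace Pool.Agent.H870R2.PC

open Finset BigOperators H522R2.LS

variable {σ K : Type}

/-- A network that reads the natural numbers `A : σ → ℕ`: an acyclic network (certified by `rk`) with
`wires g h` wires from the gate `h` to the gate `g`; the gates hold values in any set `K`; each gate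
`g` computes an arbitrary function `F g` of at most one number `A x` (where `inp g = some x`) and of
the multiset of the values on the wires to it. -/
structure PNet (σ K : Type) where
  G : Type
  [fG : Fintype G]
  [dG : DecidableEq G]
  inp : G → Option σ
  wires : G → G → ℕ
  F : G → Option ℕ → Multiset K → K
  rk : G → ℕ
  rk_lt : ∀ g h, wires g h ≠ 0 → rk h < rk g
  out : G

attribute [instance] PNet.fG PNet.dG

/-- the value of a gate -/
noncomputable def PNet.val (C : PNet σ K) (A : σ → ℕ) (g : C.G) : K :=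
  C.F g ((C.inp g).map A) (∑ h : {h // C.wires g h ≠ 0}, C.wires g h.1 • {C.val A h.1})
termination_by C.rk g
decreasing_by exact C.rk_lt g h.1 h.2

/-- The network decides the property `P` on the inputs in `S`: `P A` holds if and only if the value of
the output gate is in `acc`. -/
def PNet.Decides (C : PNet σ K) (acc : Set K) (S : Set (σ → ℕ)) (P : (σ → ℕ) → Prop) : Prop :=
  ∀ A ∈ S, (C.val A C.out ∈ acc ↔ P A)

/-- `π` is an automorphism of the network that extends the map `f` of the input numbers. -/
structure PNet.IsAut (C : PNet σ K) (π : Equiv.Perm C.G) (f : σ → σ) : Prop where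
  out : π C.out = C.out
  wires : ∀ g h, C.wires (π g) (π h) = C.wires g h
  inp : ∀ g, C.inp (π g) = (C.inp g).map f
  F : ∀ g, C.F (π g) = C.F g

/-- The network is symmetric under the map `f` of the input numbers. -/
def PNet.SymmUnder (C : PNet σ K) (f : σ → σ) : Prop := ∃ π, C.IsAut π f

/-- the permanent -/
def perN {Ω : Type} [Fintype Ω] [DecidableEq Ω] (A : Ω × Ω → ℕ) : ℕ :=
  ∑ π : Equiv.Perm Ω, ∏ x, A (x, π x)

theorem PNet.val_eq (C : PNet σ K) (A : σ → ℕ) (g : C.G) :
    C.val A g = C.F g ((C.inp g).map A) (∑ h, C.wires g h • {C.val A h}) := by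
  rw [PNet.val]
  congr 1
  rw [← Finset.sum_subtype (univ.filter (fun h => C.wires g h ≠ 0)) (by simp)
    (fun h => C.wires g h • ({C.val A h} : Multiset K))]
  rw [Finset.sum_filter]
  refine Finset.sum_congr rfl (fun x _ => ?_)
  by_cases hx : C.wires g x = 0
  · simp [hx]
  · simp [hx]

theorem PNet.IsAut.one (C : PNet σ K) : C.IsAut 1 id := by
  refine ⟨rfl, fun _ _ => rfl, fun g => ?_, fun _ => rfl⟩
  simp only [Equiv.Perm.coe_one, id]
  rcases C.inp g <;> rfl

theorem PNet.IsAut.mul {C : PNet σ K} {π π' : Equiv.Perm C.G} {f f' : σ → σ} (h : C.IsAut π f)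
    (h' : C.IsAut π' f') : C.IsAut (π * π') (f ∘ f') := by
  refine ⟨?_, ?_, ?_, ?_⟩
  · rw [Equiv.Perm.mul_apply, h'.out, h.out]
  · intro g g'
    rw [Equiv.Perm.mul_apply, Equiv.Perm.mul_apply, h.wires, h'.wires]
  · intro g
    rw [Equiv.Perm.mul_apply, h.inp, h'.inp]
    rcases C.inp g <;> rfl
  · intro g
    rw [Equiv.Perm.mul_apply, h.F, h'.F]

theorem PNet.IsAut.inv {C : PNet σ K} {π : Equiv.Perm C.G} {f f' : σ → σ} (h : C.IsAut π f)
    (hf : ∀ x, f' (f x) = x) : C.IsAut π⁻¹ f' := by
  refine ⟨?_, ?_, ?_, ?_⟩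
  · rw [Equiv.Perm.inv_eq_iff_eq, h.out]
  · intro g g'
    rw [← h.wires]
    simp
  · intro g
    have h1 := h.inp (π⁻¹ g)
    have h2 : π (π⁻¹ g) = g := by simp
    rw [h2] at h1
    rw [h1]
    rcases C.inp (π⁻¹ g) with _ | x
    · rfl
    · simp only [Option.map_some, hf]
  · intro g
    have h1 := h.F (π⁻¹ g)
    have h2 : π (π⁻¹ g) = g := by simp
    rw [h2] at h1
    exact h1.symm

theorem PNet.val_aut {C : PNet σ K} {π : Equiv.Perm C.G} {f : σ → σ} (h : C.IsAut π f)
    (A : σ → ℕ) : ∀ (n : ℕ) (g : C.G), C.rk g = n → C.val A (π g) = C.val (A ∘ f) g := by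
  intro n
  induction n using Nat.strong_induction_on with
  | _ n ih =>
    intro g hg
    rw [C.val_eq, C.val_eq (A ∘ f), h.F, h.inp, ← Equiv.sum_comp π]
    congr 1
    · rcases C.inp g <;> rfl
    · refine Finset.sum_congr rfl (fun x _ => ?_)
      rw [h.wires]
      by_cases hx : C.wires g x = 0
      · rw [hx, zero_smul, zero_smul]
      · rw [ih (C.rk x) (hg ▸ C.rk_lt g x hx) x rfl]

/-- The game (see helper522's `game` for arithmetic circuits). -/
theorem pgame {H : Type} [DecidableEq H] (C : PNet σ K) (M : H → σ → ℕ) (M0 : σ → ℕ)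
    (D : C.G → Finset H) (core : Finset H → Finset H)
    (hne : ∀ g h, (core (D g ∪ D h)).Nonempty)
    (hmono : ∀ g h, core (D g ∪ D h) ⊆ core (D g))
    (hmove : ∀ g, ∀ i ∈ core (D g), ∀ i' ∈ core (D g), ∃ (π : Equiv.Perm C.G) (f : σ → σ),
      C.IsAut π f ∧ π g = g ∧ (∀ h, D (π h) = D h) ∧ M i ∘ f = M i')
    (hin : ∀ g x, C.inp g = some x → ∀ i ∈ core (D g), M i x = M0 x) :
    ∀ (n : ℕ) (g : C.G), C.rk g = n → ∀ i ∈ core (D g), C.val (M i) g = C.val M0 g := by
  classical
  intro n
  induction n using Nat.strong_induction_on with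
  | _ n ih =>
    intro g hg i hi
    have hfib : ∀ J ∈ univ.image D, ∃ (π : Equiv.Perm C.G), π g = g ∧
        (∀ g h, C.wires (π g) (π h) = C.wires g h) ∧ (∀ h, D (π h) = D h) ∧
        ∀ h, D h = J → C.wires g h ≠ 0 → C.val (M i) (π h) = C.val M0 h := by
      intro J hJ
      obtain ⟨h0, _, rfl⟩ := Finset.mem_image.mp hJ
      obtain ⟨i', hi'⟩ := hne g h0
      obtain ⟨π, f, hπ, hg1, hD, hM⟩ := hmove g i hi i' (hmono g h0 hi')
      refine ⟨π, hg1, hπ.wires, hD, ?_⟩
      intro h hh hw
      rw [PNet.val_aut hπ (M i) _ h rfl, hM]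
      refine ih (C.rk h) (hg ▸ C.rk_lt g h hw) h rfl i' ?_
      rw [hh]
      have := hmono h0 g
      rw [Finset.union_comm] at this
      exact this hi'
    rw [C.val_eq, C.val_eq M0]
    congr 1
    · rcases hx : C.inp g with _ | x
      · rfl
      · simp only [Option.map_some, hin g x hx i hi]
    · rw [← Finset.sum_fiberwise_of_maps_to (s := univ) (t := univ.image D) (g := D)
          (fun x hx => Finset.mem_image_of_mem D hx),
        ← Finset.sum_fiberwise_of_maps_to (s := univ) (t := univ.image D) (g := D)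
          (fun x hx => Finset.mem_image_of_mem D hx)]
      refine Finset.sum_congr rfl (fun J hJ => ?_)
      obtain ⟨π, hπg, hπw, hπD, hπ⟩ := hfib J hJ
      symm
      refine Finset.sum_bij (fun h _ => π h) ?_ ?_ ?_ ?_
      · intro h hh
        rw [Finset.mem_filter] at hh ⊢
        exact ⟨Finset.mem_univ _, by rw [hπD]; exact hh.2⟩
      · intro h _ h' _ e
        exact π.injective e
      · intro h hh
        rw [Finset.mem_filter] at hh
        refine ⟨π.symm h, ?_, by simp⟩
        rw [Finset.mem_filter]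
        refine ⟨Finset.mem_univ _, ?_⟩
        rw [← hπD]
        simpa using hh.2
      · intro h hh
        rw [Finset.mem_filter] at hh
        have hw : C.wires g (π h) = C.wires g h := by
          conv_lhs => rw [← hπg]
          exact hπw g h
        rw [hw]
        by_cases hx : C.wires g h = 0
        · rw [hx, zero_smul, zero_smul]
        · rw [hπ h hh.2 hx]

end Pool.Agent.H870R2.PC
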