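import Pool.Agent.H522R2.LS.Edges
import Pool.Agent.H870R2.LS.PNet

set_option autoImplicit false
set_option linter.unusedSectionVars false

/-! Making a network symmetric. -/

namespace Pool.Agent.H870R2.PC

open Finset BigOperators H522R2.LS

variable {K Ω : Type} [Fintype Ω] [DecidableEq Ω] {r : ℕ}

theorem perN_inv (π : Equiv.Perm Ω) (A : Ω × Ω → ℕ) :
    perN (A ∘ H522R2.LS.diag π) = perN A := by
  unfold perN
  rw [← Equiv.sum_comp (MulAut.conj π).toEquiv (fun τ => ∏ x, A (x, τ x))]
  refine Finset.sum_congr rfl (fun τ _ => ?_)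
  rw [← Equiv.prod_comp π (fun x => A (x, (MulAut.conj π).toEquiv τ x))]
  refine Finset.prod_congr rfl (fun x _ => ?_)
  simp [H522R2.LS.diag, MulAut.conj_apply]

open Classical in
/-- the symmetrised network -/
noncomputable def symN (β : Fin r × Fin 4 ↪ Ω) (C : PNet (Ω × Ω) K) : PNet (Ω × Ω) K where
  G := ((Fin r → Equiv.Perm (Fin 4)) × C.G) ⊕ Unit
  inp x := match x with
    | Sum.inl (g, h) => (C.inp h).map (H522R2.LS.diag (bp β g))
    | Sum.inr _ => none
  F x := match x with
    | Sum.inl (_, h) => C.F h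
    | Sum.inr _ => fun o m => if h : ∃ k, k ∈ m then h.choose else C.F C.out o m
  wires x y := match x, y with
    | Sum.inl (g, h), Sum.inl (g', h') => if g = g' then C.wires h h' else 0
    | Sum.inr _, Sum.inl (_, h) => if h = C.out then 1 else 0
    | _, _ => 0
  rk x := match x with
    | Sum.inl (_, h) => C.rk h
    | Sum.inr _ => C.rk C.out + 1
  rk_lt x y h := by
    rcases x with ⟨g, x⟩ | t <;> rcases y with ⟨g', y⟩ | t'
    · simp only at h ⊢
      by_cases hg : g = g'
      · rw [if_pos hg] at h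
        exact C.rk_lt x y h
      · rw [if_neg hg] at h
        exact absurd rfl h
    · exact absurd rfl h
    · simp only at h ⊢
      by_cases hy : y = C.out
      · subst hy
        exact Nat.lt_succ_self _
      · exact absurd (if_neg hy) h
    · exact absurd rfl h
  out := Sum.inr ()

theorem symN_val (β : Fin r × Fin 4 ↪ Ω) (C : PNet (Ω × Ω) K) (A : Ω × Ω → ℕ)
    (g : Fin r → Equiv.Perm (Fin 4)) : ∀ (n : ℕ) (h : C.G), C.rk h = n →
      (symN β C).val A (Sum.inl (g, h)) = C.val (A ∘ H522R2.LS.diag (bp β g)) h := by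
  classical
  intro n
  induction n using Nat.strong_induction_on with
  | _ n ih =>
    intro h hn
    rw [PNet.val_eq, PNet.val_eq C]
    show C.F h _ _ = C.F h _ _
    congr 1
    · show ((C.inp h).map (H522R2.LS.diag (bp β g))).map A = _
      rcases C.inp h <;> rfl
    · show ∑ y : ((Fin r → Equiv.Perm (Fin 4)) × C.G) ⊕ Unit,
        (symN β C).wires (Sum.inl (g, h)) y • ({(symN β C).val A y} : Multiset K) = _
      rw [Fintype.sum_sum_type, Fintype.sum_prod_type]
      have h1 : ∑ y : Unit, (symN β C).wires (Sum.inl (g, h)) (Sum.inr y) •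
          ({(symN β C).val A (Sum.inr y)} : Multiset K) = 0 := by
        refine Finset.sum_eq_zero (fun y _ => ?_)
        show 0 • _ = _
        rw [zero_smul]
      rw [h1, add_zero, Finset.sum_eq_single g]
      · refine Finset.sum_congr rfl (fun x _ => ?_)
        have hw : (symN β C).wires (Sum.inl (g, h)) (Sum.inl (g, x)) = C.wires h x := if_pos rfl
        rw [hw]
        by_cases hx : C.wires h x = 0
        · rw [hx, zero_smul, zero_smul]
        · rw [ih (C.rk x) (hn ▸ C.rk_lt h x hx) x rfl]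
      · intro g' _ hg'
        refine Finset.sum_eq_zero (fun x _ => ?_)
        have hw : (symN β C).wires (Sum.inl (g, h)) (Sum.inl (g', x)) = 0 := if_neg (Ne.symm hg')
        rw [hw, zero_smul]
      · intro h'; exact absurd (Finset.mem_univ _) h'

theorem symN_F_out (β : Fin r × Fin 4 ↪ Ω) (C : PNet (Ω × Ω) K) (o : Option ℕ) (k : K) (n : ℕ)
    (hn : 0 < n) : (symN β C).F (symN β C).out o (n • ({k} : Multiset K)) = k := by
  classical
  have hex : ∃ k', k' ∈ n • ({k} : Multiset K) :=
    ⟨k, Multiset.mem_nsmul.2 ⟨by omega, Multiset.mem_singleton_self k⟩⟩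
  show (if h : ∃ k', k' ∈ n • ({k} : Multiset K) then h.choose else _) = k
  rw [dif_pos hex]
  exact Multiset.mem_singleton.1 (Multiset.mem_of_mem_nsmul hex.choose_spec)

theorem symN_out (β : Fin r × Fin 4 ↪ Ω) (C : PNet (Ω × Ω) K) (A : Ω × Ω → ℕ) (k : K)
    (h : ∀ g, C.val (A ∘ H522R2.LS.diag (bp β g)) C.out = k) :
    (symN β C).val A (symN β C).out = k := by
  classical
  rw [PNet.val_eq]
  have h1 : ∑ y, (symN β C).wires (symN β C).out y • ({(symN β C).val A y} : Multiset K) =
      (24 ^ r) • ({k} : Multiset K) := by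
    show ∑ y : ((Fin r → Equiv.Perm (Fin 4)) × C.G) ⊕ Unit,
        (symN β C).wires (Sum.inr ()) y • ({(symN β C).val A y} : Multiset K) = _
    rw [Fintype.sum_sum_type, Fintype.sum_prod_type]
    have h1 : ∑ y : Unit, (symN β C).wires (Sum.inr ()) (Sum.inr y) •
        ({(symN β C).val A (Sum.inr y)} : Multiset K) = 0 := by
      refine Finset.sum_eq_zero (fun y _ => ?_)
      show 0 • _ = _
      rw [zero_smul]
    have h2 : ∀ g : Fin r → Equiv.Perm (Fin 4), ∑ x : C.G,
        (symN β C).wires (Sum.inr ()) (Sum.inl (g, x)) •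
        ({(symN β C).val A (Sum.inl (g, x))} : Multiset K) = {k} := by
      intro g
      rw [Finset.sum_eq_single C.out]
      · have hw : (symN β C).wires (Sum.inr ()) (Sum.inl (g, C.out)) = 1 := if_pos rfl
        rw [hw, one_smul, symN_val β C A g _ C.out rfl, h g]
      · intro x _ hx
        have hw : (symN β C).wires (Sum.inr ()) (Sum.inl (g, x)) = 0 := if_neg hx
        rw [hw, zero_smul]
      · intro h'; exact absurd (Finset.mem_univ _) h'
    rw [h1, add_zero, Finset.sum_congr rfl (fun g _ => h2 g), Finset.sum_const, Finset.card_univ,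
      card_blocks]
  rw [h1]
  exact symN_F_out β C _ k _ (by positivity)

theorem symN_symm (β : Fin r × Fin 4 ↪ Ω) (C : PNet (Ω × Ω) K)
    (g0 : Fin r → Equiv.Perm (Fin 4)) : (symN β C).SymmUnder (H522R2.LS.diag (bp β g0)) := by
  classical
  refine ⟨Equiv.sumCongr (Equiv.prodCongr (Equiv.mulLeft g0) (Equiv.refl _)) (Equiv.refl _),
    rfl, ?_, ?_, ?_⟩
  · rintro (⟨g, h⟩ | t) (⟨g', h'⟩ | t')
    · show (if g0 * g = g0 * g' then C.wires h h' else 0) = if g = g' then C.wires h h' else 0
      simp only [mul_right_inj]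
    · rfl
    · rfl
    · rfl
  · rintro (⟨g, h⟩ | t)
    · show (C.inp h).map (H522R2.LS.diag (bp β (g0 * g))) =
        ((C.inp h).map (H522R2.LS.diag (bp β g))).map (H522R2.LS.diag (bp β g0))
      rw [bp_mul, diag_mul]
      rcases C.inp h <;> rfl
    · rfl
  · rintro (⟨g, h⟩ | t)
    · rfl
    · rfl

theorem symN_card (β : Fin r × Fin 4 ↪ Ω) (C : PNet (Ω × Ω) K) :
    Fintype.card (symN β C).G = 24 ^ r * Fintype.card C.G + 1 := by
  show Fintype.card (((Fin r → Equiv.Perm (Fin 4)) × C.G) ⊕ Unit) = _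
  rw [Fintype.card_sum, Fintype.card_prod, card_blocks, Fintype.card_unit]

theorem exists_symm (β : Fin r × Fin 4 ↪ Ω) (C : PNet (Ω × Ω) K) (enc : ℕ → K)
    (S : Set (Ω × Ω → ℕ)) (hS : ∀ A ∈ S, ∀ π, A ∘ H522R2.LS.diag π ∈ S)
    (hC : ∀ A ∈ S, C.val A C.out = enc (perN A)) :
    ∃ C' : PNet (Ω × Ω) K, (∀ A ∈ S, C'.val A C'.out = enc (perN A)) ∧
      (∀ g : Equiv.Perm Ω, Preserves β g → C'.SymmUnder (H522R2.LS.diag g)) ∧
      Fintype.card C'.G = 24 ^ r * Fintype.card C.G + 1 ∧
      (∀ g', g' ≠ C'.out → ∃ g, C'.F g' = C.F g) ∧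
      ∀ (o : Option ℕ) (k : K) (n : ℕ), 0 < n → C'.F C'.out o (n • ({k} : Multiset K)) = k := by
  refine ⟨symN β C, ?_, ?_, symN_card β C, ?_, symN_F_out β C⟩
  · intro A hA
    refine symN_out β C A _ (fun g => ?_)
    rw [hC _ (hS A hA _), perN_inv]
  · intro g hg
    obtain ⟨g0, rfl⟩ := exists_bp β g hg
    exact symN_symm β C g0
  · rintro (⟨g, h⟩ | t) hne
    · exact ⟨h, rfl⟩
    · exact absurd rfl hne

end Pool.Agent.H870R2.PC
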