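import Pool.Agent.H870R2.LS.PDefs

set_option autoImplicit false
set_option linter.unusedSectionVars false

/-! UPP: a symmetric pushdown network of quadratic size for path systems. -/

namespace Pool.Agent.H870R2.LS

namespace Upp

variable {V : Type}

/-- nodes: `D u` (prove `u`), `G a b` (prove `a`, then `b`), `ok` -/
abbrev PQ (V : Type) : Type := V ⊕ (V × V) ⊕ Unit

abbrev D (u : V) : PQ V := Sum.inl u
abbrev G (a b : V) : PQ V := Sum.inr (Sum.inl (a, b))
abbrev ok : PQ V := Sum.inr (Sum.inr ())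

def pArc : PQ V → PQ V → Set (Option (Inp V × Bool))
  | Sum.inl u, Sum.inr (Sum.inr _) => {some (Sum.inl u, true)}
  | Sum.inl u, Sum.inr (Sum.inl (a, b)) => {some (Sum.inr (a, b, u), true)}
  | _, _ => ∅

def pPush : PQ V → PQ V → PQ V → Prop
  | Sum.inr (Sum.inl (a, b)), Sum.inl s, Sum.inl c => s = b ∧ c = a
  | _, _, _ => False

def pPop : PQ V → PQ V → PQ V → Prop
  | Sum.inr (Sum.inr _), Sum.inl s, Sum.inl c => s = c
  | _, _, _ => False

/-- The pushdown network. -/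
def net (t : V) : PNet (Inp V) (PQ V) where
  arc := pArc
  push := pPush
  pop := pPop
  src := D t
  tgt := ok

theorem open_iff (t : V) (x : Set (Inp V)) (a b : PQ V) :
    (net t).Open x a b ↔ (∃ u, a = D u ∧ b = ok ∧ Sum.inl u ∈ x) ∨
      (∃ u v w, a = D u ∧ b = G v w ∧ Sum.inr (v, w, u) ∈ x) := by
  unfold PNet.Open net
  rcases a with u | ⟨v, w⟩ | ⟨⟩ <;> rcases b with u' | ⟨v', w'⟩ | ⟨⟩ <;> simp [pArc]

theorem push_iff (t : V) (a s b : PQ V) :
    (net t).push a s b ↔ ∃ v w, a = G v w ∧ s = D w ∧ b = D v := by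
  unfold net
  rcases a with u | ⟨v, w⟩ | ⟨⟩ <;> rcases b with u' | ⟨v', w'⟩ | ⟨⟩ <;>
    rcases s with u'' | ⟨v'', w''⟩ | ⟨⟩ <;> simp [pPush]

theorem pop_iff (t : V) (a s b : PQ V) :
    (net t).pop a s b ↔ ∃ v, a = ok ∧ s = D v ∧ b = D v := by
  unfold net
  rcases a with u | ⟨v, w⟩ | ⟨⟩ <;> rcases b with u' | ⟨v', w'⟩ | ⟨⟩ <;>
    rcases s with u'' | ⟨v'', w''⟩ | ⟨⟩ <;> simp [pPop, eq_comm]

/-- The invariant. -/
def Inv (x : Set (Inp V)) (c : PQ V × List (PQ V)) : Prop :=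
  (∀ s ∈ c.2, ∃ b, s = D b ∧ Der x b) ∧
    (c.1 = ok ∨ (∃ u, c.1 = D u ∧ Der x u) ∨ (∃ a b, c.1 = G a b ∧ Der x a ∧ Der x b))

theorem inv_step (t : V) (x : Set (Inp V)) {c c' : PQ V × List (PQ V)}
    (h : (net t).Step x c c') (h' : Inv x c') : Inv x c := by
  cases h with
  | arc a b st ho =>
    rw [open_iff] at ho
    refine ⟨h'.1, ?_⟩
    rcases ho with ⟨u, rfl, rfl, hu⟩ | ⟨u, v, w, rfl, rfl, hu⟩
    · exact Or.inr (Or.inl ⟨u, rfl, Der.ax u hu⟩)
    · obtain ⟨-, h2⟩ := h'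
      simp only [Sum.inr.injEq, Sum.inl.injEq, Prod.mk.injEq, reduceCtorEq, false_and,
        exists_false, false_or] at h2
      obtain ⟨a, b, ⟨rfl, rfl⟩, ha, hb⟩ := h2
      exact Or.inr (Or.inl ⟨u, rfl, Der.rule _ _ _ hu ha hb⟩)
  | push a s b st hp =>
    rw [push_iff] at hp
    obtain ⟨v, w, rfl, rfl, rfl⟩ := hp
    obtain ⟨h1, h2⟩ := h'
    simp only [Sum.inl.injEq, reduceCtorEq, false_and, exists_false, or_false,
      false_or] at h2
    obtain ⟨u, rfl, hu⟩ := h2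
    obtain ⟨b, hb, hb'⟩ := h1 (D w) (by simp)
    have hwb : w = b := Sum.inl.inj hb
    subst hwb
    exact ⟨fun s hs => h1 s (List.mem_cons_of_mem _ hs), Or.inr (Or.inr ⟨v, w, rfl, hu, hb'⟩)⟩
  | pop a s b st hp =>
    rw [pop_iff] at hp
    obtain ⟨v, rfl, rfl, rfl⟩ := hp
    obtain ⟨h1, h2⟩ := h'
    simp only [Sum.inl.injEq, reduceCtorEq, false_and, exists_false, or_false,
      false_or] at h2
    obtain ⟨u, rfl, hu⟩ := h2
    refine ⟨fun s hs => ?_, Or.inl rfl⟩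
    rcases List.mem_cons.1 hs with rfl | hs
    · exact ⟨v, rfl, hu⟩
    · exact h1 s hs

theorem inv_run (t : V) (x : Set (Inp V)) (n : ℕ) {c c' : PQ V × List (PQ V)}
    (h : (net t).Run x n c c') (h' : Inv x c') : Inv x c := by
  induction n generalizing c with
  | zero =>
    have : c = c' := h
    rw [this]; exact h'
  | succ n ih =>
    obtain ⟨c'', h1, h2⟩ := h
    exact inv_step t x h1 (ih h2)

theorem run_trans {I Q : Type} (N : PNet I Q) (x : Set I) (n m : ℕ) {p q r : Q × List Q}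
    (h : N.Run x n p q) (h' : N.Run x m q r) : N.Run x (n + m) p r := by
  induction n generalizing p with
  | zero =>
    have : p = q := h
    rw [this, Nat.zero_add]; exact h'
  | succ n ih =>
    obtain ⟨p', h1, h2⟩ := h
    have := ih h2
    rw [Nat.add_right_comm]
    exact ⟨p', h1, this⟩

theorem run_one {I Q : Type} (N : PNet I Q) (x : Set I) {p q : Q × List Q}
    (h : N.Step x p q) : N.Run x 1 p q := ⟨q, h, rfl⟩

theorem complete (t : V) (x : Set (Inp V)) {u : V} (h : Der x u) :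
    ∀ st, ∃ n, (net t).Run x n (D u, st) (ok, st) := by
  induction h with
  | ax u hu =>
    intro st
    refine ⟨1, run_one _ _ (PNet.Step.arc _ _ _ ?_)⟩
    rw [open_iff]
    exact Or.inl ⟨u, rfl, rfl, hu⟩
  | rule a b c hr _ _ iha ihb =>
    intro st
    obtain ⟨n, hn⟩ := iha (D b :: st)
    obtain ⟨m, hm⟩ := ihb st
    have s1 : (net t).Step x (D c, st) (G a b, st) := PNet.Step.arc _ _ _ (by
      rw [open_iff]
      exact Or.inr ⟨c, a, b, rfl, rfl, hr⟩)
    have s2 : (net t).Step x (G a b, st) (D a, D b :: st) := PNet.Step.push _ _ _ _ (by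
      rw [push_iff]
      exact ⟨a, b, rfl, rfl, rfl⟩)
    have s3 : (net t).Step x (ok, D b :: st) (D b, st) := PNet.Step.pop _ _ _ _ (by
      rw [pop_iff]
      exact ⟨b, rfl, rfl, rfl⟩)
    exact ⟨_, run_trans _ _ _ _ (run_one _ _ s1) (run_trans _ _ _ _ (run_one _ _ s2)
      (run_trans _ _ _ _ hn (run_trans _ _ _ _ (run_one _ _ s3) hm)))⟩

/-- The action on the nodes. -/
def act (p : Equiv.Perm V) : Equiv.Perm (PQ V) :=
  Equiv.sumCongr p (Equiv.sumCongr (Equiv.prodCongr p p) (Equiv.refl Unit))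

theorem isAut (t : V) (p : Equiv.Perm V) (hp : p t = t) :
    (net t).IsAut (inpPerm p) (act p) where
  arc := by
    intro a b s
    rcases a with u | ⟨v, w⟩ | ⟨⟩ <;> rcases b with u' | ⟨v', w'⟩ | ⟨⟩ <;>
      rcases s with _ | ⟨i | ⟨i1, i2, i3⟩, c⟩ <;>
      simp [net, pArc, act, inpPerm]
  push := by
    intro a s b
    rcases a with u | ⟨v, w⟩ | ⟨⟩ <;> rcases b with u' | ⟨v', w'⟩ | ⟨⟩ <;>
      rcases s with u'' | ⟨v'', w''⟩ | ⟨⟩ <;> simp [net, pPush, act]
  pop := by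
    intro a s b
    rcases a with u | ⟨v, w⟩ | ⟨⟩ <;> rcases b with u' | ⟨v', w'⟩ | ⟨⟩ <;>
      rcases s with u'' | ⟨v'', w''⟩ | ⟨⟩ <;> simp [net, pPop, act]
  src := by simp [net, act, hp]
  tgt := by simp [net, act]

end Upp

open Upp

/-- UPP -/
theorem pda_poly {V : Type} [Fintype V] (t : V) :
    ∃ (Q : Type) (_ : Fintype Q) (N : PNet (Inp V) Q),
      (∀ x, (∃ n, N.AccIn x n) ↔ Der x t) ∧
      (∀ p : Equiv.Perm V, p t = t → ∃ φ, N.IsAut (inpPerm p) φ) ∧
      Fintype.card Q ≤ (Fintype.card V + 1) ^ 2 := by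
  refine ⟨PQ V, inferInstance, net t, ?_, fun p hp => ⟨act p, isAut t p hp⟩, ?_⟩
  · intro x
    constructor
    · rintro ⟨n, hn⟩
      have h1 := inv_run t x n hn ⟨by simp, Or.inl rfl⟩
      obtain ⟨-, h2⟩ := h1
      simp only [net, Sum.inl.injEq, reduceCtorEq, false_and, exists_false, or_false,
        false_or] at h2
      obtain ⟨u, rfl, hu⟩ := h2
      exact hu
    · intro h
      exact complete t x h []
  · simp only [Fintype.card_sum, Fintype.card_prod, Fintype.card_unit]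
    nlinarith

end Pool.Agent.H870R2.LS
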