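import Pool.Agent.H870R2.LS.Defs2

set_option autoImplicit false
set_option linter.unusedSectionVars false

/-! Derivability in path systems by symmetric circuits of polynomial size. -/

namespace Pool.Agent.H870R2.LS

open Finset

section polysec

variable {V : Type} [Fintype V]

/-- the elements derivable in `j` rounds -/
def St (x : Set (Inp V)) : ℕ → Set V
  | 0 => {u | Sum.inl u ∈ x}
  | j + 1 => {u | Sum.inl u ∈ x ∨ ∃ a b, Sum.inr (a, b, u) ∈ x ∧ a ∈ St x j ∧ b ∈ St x j}

theorem St_sub_der (x : Set (Inp V)) : ∀ j u, u ∈ St x j → Der x u := by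
  intro j
  induction j with
  | zero => intro u hu; exact Der.ax u hu
  | succ j ih =>
    intro u hu
    rcases hu with hu | ⟨a, b, hr, ha, hb⟩
    · exact Der.ax u hu
    · exact Der.rule a b u hr (ih a ha) (ih b hb)

theorem St_mono_step (x : Set (Inp V)) : ∀ j, St x j ⊆ St x (j + 1) := by
  intro j
  induction j with
  | zero => intro u hu; exact Or.inl hu
  | succ j ih =>
    intro u hu
    rcases hu with hu | ⟨a, b, hr, ha, hb⟩
    · exact Or.inl hu
    · exact Or.inr ⟨a, b, hr, ih ha, ih hb⟩

theorem St_stable (x : Set (Inp V)) (j : ℕ) (h : St x (j + 1) = St x j) :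
    ∀ k, St x (j + k) = St x j := by
  intro k
  induction k with
  | zero => rfl
  | succ k ih =>
    have h1 : St x (j + (k + 1)) = {u | Sum.inl u ∈ x ∨ ∃ a b, Sum.inr (a, b, u) ∈ x ∧
      a ∈ St x (j + k) ∧ b ∈ St x (j + k)} := rfl
    rw [h1, ih]
    exact h

theorem St_card (x : Set (Inp V)) (j : ℕ) (h : ∀ i < j, St x (i + 1) ≠ St x i) :
    j ≤ (St x j).ncard := by
  induction j with
  | zero => exact Nat.zero_le _
  | succ j ih =>
    have h1 := ih (fun i hi => h i (by omega))
    have h2 : (St x j).ncard < (St x (j + 1)).ncard := by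
      apply Set.ncard_lt_ncard
      · exact (St_mono_step x j).ssubset_of_ne (h j (by omega)).symm
      · exact Set.toFinite _
    omega

theorem St_closed (x : Set (Inp V)) :
    St x (Fintype.card V + 1) = St x (Fintype.card V) := by
  by_cases h : ∀ i < Fintype.card V + 1, St x (i + 1) ≠ St x i
  · have h1 := St_card x _ h
    have h2 : (St x (Fintype.card V + 1)).ncard ≤ Fintype.card V := by
      rw [← Nat.card_eq_fintype_card]
      exact Set.ncard_le_card _
    omega
  · push Not at h
    obtain ⟨i, hi, he⟩ := h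
    obtain ⟨k, hk⟩ := Nat.exists_eq_add_of_le (Nat.lt_succ_iff.1 hi)
    have h1 := St_stable x i he k
    have h2 := St_stable x i he (k + 1)
    rw [hk, h1]
    exact h2

theorem St_iff (x : Set (Inp V)) (u : V) : u ∈ St x (Fintype.card V) ↔ Der x u := by
  constructor
  · exact St_sub_der x _ u
  · intro h
    induction h with
    | ax u hu =>
      rw [← St_closed x]
      exact Or.inl hu
    | rule a b c hr _ _ iha ihb =>
      rw [← St_closed x]
      exact Or.inr ⟨a, b, hr, iha, ihb⟩

open Classical in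
/-- the multiplicities of the inputs of the gates -/
noncomputable def pm {n : ℕ} (g : Fin (n + 1) × Inp V) :
    Src (Inp V) (Fin (n + 1) × Inp V) → ℕ
  | none => 0
  | some (Sum.inl (i, b)) => if i = g.2 ∧ b = true then 1 else 0
  | some (Sum.inr (j', Sum.inr (_, _, c))) =>
      if j' = g.1 ∧ g.1.val ≠ 0 ∧ g.2 = Sum.inl c then 1 else 0
  | some (Sum.inr (j', Sum.inl d)) => if j'.val + 1 = g.1.val then
      ((if ∃ b c, g.2 = Sum.inr (d, b, c) then 1 else 0) +
        (if ∃ a c, g.2 = Sum.inr (a, d, c) then 1 else 0)) else 0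

/-- the rank -/
def prk {n : ℕ} : Fin (n + 1) × Inp V → ℕ
  | (j, Sum.inl _) => 2 * j.val
  | (j, Sum.inr _) => 2 * j.val - 1

theorem pm_rank {n : ℕ} (g h : Fin (n + 1) × Inp V) (hh : 0 < pm g (some (Sum.inr h))) :
    prk h < prk g := by
  obtain ⟨j, w⟩ := g
  obtain ⟨j', w'⟩ := h
  rcases w' with d | ⟨a, b, c⟩
  · unfold pm at hh
    simp only at hh
    split_ifs at hh with h1 h2 h3 h4
    · obtain ⟨b, c, rfl⟩ := h2
      simp only [prk]; omega
    · obtain ⟨b, c, rfl⟩ := h2
      simp only [prk]; omega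
    · obtain ⟨b, c, rfl⟩ := h4
      simp only [prk]; omega
    · omega
    · omega
  · unfold pm at hh
    simp only at hh
    split_ifs at hh with h1
    · obtain ⟨rfl, h2, rfl⟩ := h1
      simp only [prk]; omega
    · omega

open Classical in
/-- the circuit -/
noncomputable def pC (t : V) : Ckt (Inp V) (Fin (Fintype.card V + 1) × Inp V) where
  wire := fun g a b s => if a = g ∧ b = g then pm g s else 0
  ends := fun g a b => if a = g ∧ b = g then 1 else 0
  F := fun g N => match g.2 with
    | Sum.inl _ => decide (1 ≤ N 1)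
    | Sum.inr _ => decide (3 ≤ N 1)
  out := (Fin.last _, Sum.inl t)
  rank := prk
  acyc := by
    intro g a b h hh
    split_ifs at hh with h1
    · exact pm_rank g h hh
    · omega

theorem pC_cnt (t : V) (x : Set (Inp V)) (v : Fin (Fintype.card V + 1) × Inp V → Bool)
    (g : Fin (Fintype.card V + 1) × Inp V) :
    (pC t).cnt x v g 1 = ∑ s, pm g s * (srcVal x v s).toNat := by
  classical
  unfold Ckt.cnt
  rw [Finset.sum_eq_single (g, g)]
  · have h1 : (pC t).ends g g g = 1 := by simp [pC]
    have h2 : ∀ A : Fin (Fintype.card V + 1) × Inp V → Fin (Fintype.card V + 1) × Inp V → ℕ,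
        walks A 1 g g = A g g := by
      intro A
      simp [walks]
    simp only [h1, h2, one_mul]
    unfold Ckt.adj
    apply Finset.sum_congr rfl
    intro s _
    simp [pC]
  · rintro ⟨a, b⟩ _ hne
    have : (pC t).ends g a b = 0 := by
      simp only [pC]
      rw [if_neg]
      rintro ⟨rfl, rfl⟩
      exact hne rfl
    simp [this]
  · intro h; exact absurd (Finset.mem_univ _) h

theorem pC_lit (x : Set (Inp V)) (v : Fin (Fintype.card V + 1) × Inp V → Bool)
    (g : Fin (Fintype.card V + 1) × Inp V) :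
    ∑ i : Inp V × Bool, pm g (some (Sum.inl i)) * (srcVal x v (some (Sum.inl i))).toNat =
      (srcVal x v (some (Sum.inl (g.2, true)))).toNat := by
  classical
  rw [Finset.sum_eq_single (g.2, true)]
  · simp [pm]
  · rintro ⟨i, b⟩ _ hne
    have : pm g (some (Sum.inl (i, b))) = 0 := by
      simp only [pm]
      rw [if_neg]
      rintro ⟨rfl, rfl⟩
      exact hne rfl
    rw [this, zero_mul]
  · intro h; exact absurd (Finset.mem_univ _) h

theorem pC_val_D (t : V) (x : Set (Inp V)) (j : Fin (Fintype.card V + 1)) (u : V) :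
    (pC t).val x (j, Sum.inl u) = true ↔ (Sum.inl u ∈ x ∨ (j.val ≠ 0 ∧ ∃ a b,
      (pC t).val x (j, Sum.inr (a, b, u)) = true)) := by
  classical
  rw [Ckt.val_eq]
  have hF : ∀ N, (pC t).F (j, Sum.inl u) N = decide (1 ≤ N 1) := fun N => rfl
  rw [hF, decide_eq_true_iff, pC_cnt, Fintype.sum_option, Fintype.sum_sum_type, pC_lit]
  have h0 : pm (j, (Sum.inl u : Inp V)) (none : Src (Inp V) (Fin (Fintype.card V + 1) × Inp V)) = 0 := rfl
  rw [h0, zero_mul, zero_add]
  constructor
  · intro h
    by_cases hu : Sum.inl u ∈ x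
    · exact Or.inl hu
    · right
      have h1 : (srcVal x ((pC t).val x) (some (Sum.inl (Sum.inl u, true)))).toNat = 0 := by
        simp [srcVal, hu]
      rw [h1, zero_add] at h
      obtain ⟨q, _, hq⟩ := Finset.exists_ne_zero_of_sum_ne_zero (by omega : (∑ a₂, pm (j, (Sum.inl u : Inp V)) (some (Sum.inr a₂)) *
        (srcVal x ((pC t).val x) (some (Sum.inr a₂))).toNat) ≠ 0)
      obtain ⟨j', w⟩ := q
      have hq1 : pm (j, (Sum.inl u : Inp V)) (some (Sum.inr (j', w))) ≠ 0 := left_ne_zero_of_mul hq
      have hq2 := right_ne_zero_of_mul hq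
      rcases w with d | ⟨a, b, c⟩
      · exfalso
        apply hq1
        simp [pm]
      · simp only [pm] at hq1
        split_ifs at hq1 with h3
        · obtain ⟨rfl, h4, h5⟩ := h3
          refine ⟨h4, a, b, ?_⟩
          have h6 := Sum.inl.inj h5
          subst h6
          simp only [srcVal] at hq2
          cases hv : (pC t).val x (j', Sum.inr (a, b, u))
          · rw [hv] at hq2; simp at hq2
          · rfl
        · exact absurd rfl hq1
  · rintro (hu | ⟨hj, a, b, hab⟩)
    · have h1 : (srcVal x ((pC t).val x) (some (Sum.inl (Sum.inl u, true)))).toNat = 1 := by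
        simp [srcVal, hu]
      rw [h1]; omega
    · have h2 : 1 ≤ pm (j, (Sum.inl u : Inp V)) (some (Sum.inr (j, Sum.inr (a, b, u)))) *
        (srcVal x ((pC t).val x) (some (Sum.inr (j, Sum.inr (a, b, u))))).toNat := by
        simp only [pm, srcVal, hab]
        simp [hj]
      have h3 := Finset.single_le_sum (f := fun q => pm (j, (Sum.inl u : Inp V)) (some (Sum.inr q)) *
        (srcVal x ((pC t).val x) (some (Sum.inr q))).toNat) (fun _ _ => Nat.zero_le _)
        (Finset.mem_univ (j, Sum.inr (a, b, u)))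
      omega

theorem pC_val_R (t : V) (x : Set (Inp V)) (j : ℕ) (hj : j + 1 < Fintype.card V + 1) (a b c : V) :
    (pC t).val x (⟨j + 1, hj⟩, Sum.inr (a, b, c)) = true ↔ (Sum.inr (a, b, c) ∈ x ∧
      (pC t).val x (⟨j, by omega⟩, Sum.inl a) = true ∧
      (pC t).val x (⟨j, by omega⟩, Sum.inl b) = true) := by
  classical
  rw [Ckt.val_eq]
  have hF : ∀ N, (pC t).F (⟨j + 1, hj⟩, Sum.inr (a, b, c)) N = decide (3 ≤ N 1) := fun N => rfl
  rw [hF, decide_eq_true_iff, pC_cnt, Fintype.sum_option, Fintype.sum_sum_type, pC_lit]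
  have h0 : pm ((⟨j + 1, hj⟩ : Fin (Fintype.card V + 1)), (Sum.inr (a, b, c) : Inp V))
    (none : Src (Inp V) (Fin (Fintype.card V + 1) × Inp V)) = 0 := rfl
  rw [h0, zero_mul, zero_add]
  have h1 : (∑ q, pm ((⟨j + 1, hj⟩ : Fin (Fintype.card V + 1)), (Sum.inr (a, b, c) : Inp V))
      (some (Sum.inr q)) * (srcVal x ((pC t).val x) (some (Sum.inr q))).toNat) =
      ((pC t).val x (⟨j, by omega⟩, Sum.inl a)).toNat +
      ((pC t).val x (⟨j, by omega⟩, Sum.inl b)).toNat := by
    rw [Fintype.sum_prod_type, Finset.sum_eq_single (⟨j, by omega⟩ : Fin (Fintype.card V + 1))]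
    · rw [Fintype.sum_sum_type]
      have h2 : ∑ q : V × V × V, pm ((⟨j + 1, hj⟩ : Fin (Fintype.card V + 1)), (Sum.inr (a, b, c) : Inp V))
          (some (Sum.inr (⟨j, by omega⟩, Sum.inr q))) *
          (srcVal x ((pC t).val x) (some (Sum.inr (⟨j, by omega⟩, Sum.inr q)))).toNat = 0 := by
        apply Finset.sum_eq_zero
        rintro ⟨a', b', c'⟩ _
        simp [pm]
      rw [h2, add_zero]
      have h3 : ∀ d : V, pm ((⟨j + 1, hj⟩ : Fin (Fintype.card V + 1)), (Sum.inr (a, b, c) : Inp V))
          (some (Sum.inr (⟨j, by omega⟩, Sum.inl d))) =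
          (if a = d then 1 else 0) + (if b = d then 1 else 0) := by
        intro d
        simp only [pm, if_true]
        congr 1
        · congr 1
          simp
        · congr 1
          simp
      simp only [h3, add_mul, Finset.sum_add_distrib, ite_mul, one_mul, zero_mul,
        Finset.sum_ite_eq, Finset.mem_univ, if_true, srcVal]
    · intro j' _ hne
      apply Finset.sum_eq_zero
      rintro (d | ⟨a', b', c'⟩) _
      · have : ¬ (j'.val + 1 = j + 1) := by
          intro h
          apply hne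
          apply Fin.ext
          simp only
          omega
        have h4 : pm ((⟨j + 1, hj⟩ : Fin (Fintype.card V + 1)), (Sum.inr (a, b, c) : Inp V))
            (some (Sum.inr (j', Sum.inl d))) = 0 := by
          simp only [pm]
          rw [if_neg this]
        rw [h4, zero_mul]
      · simp [pm]
    · intro h; exact absurd (Finset.mem_univ _) h
  rw [h1]
  by_cases hx : Sum.inr (a, b, c) ∈ x <;>
  cases ha : (pC t).val x (⟨j, by omega⟩, Sum.inl a) <;>
  cases hb : (pC t).val x (⟨j, by omega⟩, Sum.inl b) <;>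
  simp [srcVal, hx]

theorem pC_val (t : V) (x : Set (Inp V)) (j : ℕ) (hj : j < Fintype.card V + 1) (u : V) :
    (pC t).val x (⟨j, hj⟩, Sum.inl u) = true ↔ u ∈ St x j := by
  induction j generalizing u with
  | zero =>
    rw [pC_val_D]
    simp [St]
  | succ j ih =>
    rw [pC_val_D]
    simp only [pC_val_R, ih (by omega)]
    simp [St]

theorem pC_aut (t : V) (p : Equiv.Perm V) (hp : p t = t) :
    (pC t).IsAut (inpPerm p) (Equiv.prodCongr (Equiv.refl _) (inpPerm p)) := by
  classical
  have hinj : ∀ (w w' : Inp V), inpPerm p w = inpPerm p w' ↔ w = w' :=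
    fun w w' => (inpPerm p).injective.eq_iff
  have hl : ∀ c : V, inpPerm p (Sum.inl c) = Sum.inl (p c) := fun c => rfl
  have hr : ∀ a b c : V, inpPerm p (Sum.inr (a, b, c)) = Sum.inr (p a, p b, p c) :=
    fun a b c => rfl
  refine ⟨?_, ?_, ?_, ?_⟩
  · intro g a b s
    simp only [pC]
    have h1 : ((Equiv.prodCongr (Equiv.refl (Fin (Fintype.card V + 1))) (inpPerm p)) a =
      (Equiv.prodCongr (Equiv.refl _) (inpPerm p)) g ∧
      (Equiv.prodCongr (Equiv.refl _) (inpPerm p)) b =
      (Equiv.prodCongr (Equiv.refl _) (inpPerm p)) g) ↔ (a = g ∧ b = g) := by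
      simp only [EmbeddingLike.apply_eq_iff_eq]
    simp only [h1]
    congr 1
    obtain ⟨j, w⟩ := g
    rcases s with _ | ⟨i, c⟩ | ⟨j', w'⟩
    · rfl
    · simp only [srcMap, Option.map, Sum.map, pm, Equiv.prodCongr_apply, Prod.map]
      simp only [Sum.elim_inl, Function.comp, Prod.map, hinj, id]
    · rcases w' with d | ⟨a', b', c'⟩
      · simp only [srcMap, Option.map, Sum.map, Sum.elim_inr, Function.comp,
          Equiv.prodCongr_apply, Prod.map, hl, Equiv.refl_apply, pm]
        have e1 : (∃ b c, inpPerm p w = Sum.inr (p d, b, c)) ↔ (∃ b c, w = Sum.inr (d, b, c)) := by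
          constructor
          · rintro ⟨b, c, h⟩
            refine ⟨p.symm b, p.symm c, ?_⟩
            rw [← hinj, h, hr]
            simp
          · rintro ⟨b, c, rfl⟩
            exact ⟨p b, p c, rfl⟩
        have e2 : (∃ a c, inpPerm p w = Sum.inr (a, p d, c)) ↔ (∃ a c, w = Sum.inr (a, d, c)) := by
          constructor
          · rintro ⟨b, c, h⟩
            refine ⟨p.symm b, p.symm c, ?_⟩
            rw [← hinj, h, hr]
            simp
          · rintro ⟨b, c, rfl⟩
            exact ⟨p b, p c, rfl⟩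
        simp only [e1, e2]
      · simp only [srcMap, Option.map, Sum.map, Sum.elim_inr, Function.comp,
          Equiv.prodCongr_apply, Prod.map, hr, Equiv.refl_apply, pm]
        have e1 : (inpPerm p w = Sum.inl (p c')) ↔ (w = Sum.inl c') := by
          rw [← hl, hinj]
        simp only [e1]
  · intro g a b
    simp only [pC]
    simp only [EmbeddingLike.apply_eq_iff_eq]
  · rintro ⟨j, (u | ⟨a, b, c⟩)⟩
    · rfl
    · rfl
  · show (Fin.last _, inpPerm p (Sum.inl t)) = (Fin.last _, Sum.inl t)
    rw [hl, hp]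

end polysec

/-- POLY -/
theorem poly {V : Type} [Fintype V] (t : V) :
    ∃ (Q : Type) (_ : Fintype Q) (C : Ckt (Inp V) Q),
      (∀ x, C.val x C.out = true ↔ Der x t) ∧
      (∀ g N N', N 1 = N' 1 → C.F g N = C.F g N') ∧
      (∀ p : Equiv.Perm V, p t = t → ∃ φ, C.IsAut (inpPerm p) φ) ∧
      Fintype.card Q ≤ (Fintype.card V + 1) ^ 4 ∧ C.rank C.out ≤ 2 * Fintype.card V := by
  refine ⟨Fin (Fintype.card V + 1) × Inp V, inferInstance, pC t, ?_, ?_, ?_, ?_, ?_⟩
  · intro x
    have h := pC_val t x (Fintype.card V) (by omega) t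
    rw [St_iff] at h
    exact h
  · rintro ⟨j, (u | ⟨a, b, c⟩)⟩ N N' h
    · simp only [pC, h]
    · simp only [pC, h]
  · intro p hp
    exact ⟨_, pC_aut t p hp⟩
  · simp only [Fintype.card_prod, Fintype.card_sum, Fintype.card_fin]
    have : (Fintype.card V + 1) ^ 4 = (Fintype.card V + 1) * (Fintype.card V + 1) ^ 3 := by ring
    rw [this]
    apply Nat.mul_le_mul_left
    nlinarith [Nat.zero_le (Fintype.card V)]
  · show prk (Fin.last _, Sum.inl t) ≤ _
    simp [prk]

end Pool.Agent.H870R2.LS
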