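import Pool.Agent.H870R2.LS.SCDefs

set_option autoImplicit false
set_option linter.unusedSectionVars false

/-! Layered circuits of width `O(n)` for the template function. -/

namespace Pool.Agent.H870R2.LS

theorem SCUp.srcTrue_congr {I Q : Type*} {x : Set I} {v v' : Q → Prop} (s : Src I Q)
    (h : ∀ q, s = some (Sum.inr q) → (v q ↔ v' q)) : SrcTrue x v s ↔ SrcTrue x v' s := by
  rcases s with _ | ⟨i, c⟩ | q
  · exact Iff.rfl
  · exact Iff.rfl
  · exact h q rfl

theorem SCUp.val_iff {I Q : Type*} (C : LCkt I Q) (x : Set I) (g : Q) :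
    C.Val x g ↔ (if C.conj g = true then ∀ s ∈ C.ins g, SrcTrue x (C.Val x) s
      else ∃ s ∈ C.ins g, SrcTrue x (C.Val x) s) := by
  have key : ∀ s ∈ C.ins g, (SrcTrue x (fun h => ∃ _ : C.lay h < C.lay g, C.Val x h) s ↔
      SrcTrue x (C.Val x) s) := by
    intro s hs
    apply SCUp.srcTrue_congr
    rintro q rfl
    have := C.layered g q hs
    constructor
    · rintro ⟨_, h⟩; exact h
    · intro h; exact ⟨by omega, h⟩
  rw [LCkt.Val]
  split_ifs with h
  · exact forall₂_congr key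
  · constructor
    · rintro ⟨s, hs, h'⟩; exact ⟨s, hs, (key s hs).1 h'⟩
    · rintro ⟨s, hs, h'⟩; exact ⟨s, hs, (key s hs).2 h'⟩

/-- a function on the gates that satisfies the recursion is the value function -/
theorem SCUp.val_unique {I Q : Type*} (C : LCkt I Q) (x : Set I) (S : Q → Prop)
    (hS : ∀ g, S g ↔ (if C.conj g = true then ∀ s ∈ C.ins g, SrcTrue x S s
      else ∃ s ∈ C.ins g, SrcTrue x S s)) (g : Q) : C.Val x g ↔ S g := by
  induction hN : C.lay g using Nat.strong_induction_on generalizing g with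
  | _ N ih =>
    subst hN
    have key : ∀ s ∈ C.ins g, (SrcTrue x (C.Val x) s ↔ SrcTrue x S s) := by
      intro s hs
      apply SCUp.srcTrue_congr
      rintro q rfl
      have := C.layered g q hs
      exact ih (C.lay q) (by omega) q rfl
    rw [SCUp.val_iff, hS g]
    split_ifs with h
    · exact forall₂_congr key
    · constructor
      · rintro ⟨s, hs, h'⟩; exact ⟨s, hs, (key s hs).1 h'⟩
      · rintro ⟨s, hs, h'⟩; exact ⟨s, hs, (key s hs).2 h'⟩

namespace SCUp

variable {H n : ℕ}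

/-- the time at which a place is computed -/
def tt (v : Pla H n) : ℕ := (H - 1 - v.1.val) * (n + 1) + v.2.2.val

theorem tt_lft (v : Pla H n) (h : v.1.val + 1 < H) : tt (lft v h) + 1 = tt v := by
  obtain ⟨m, hm⟩ : ∃ m, H - 1 - v.1.val = m + 1 := ⟨H - 1 - v.1.val - 1, by omega⟩
  have hm' : H - 1 - (v.1.val + 1) = m := by omega
  unfold lft
  split_ifs with h0
  · simp only [tt, rgt, hm, hm', Fin.val_last, h0, Fin.val_zero]
    ring
  · have : v.2.2.val ≠ 0 := fun h => h0 (Fin.ext h)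
    simp only [tt]
    omega

theorem tt_rgt (v : Pla H n) (h : v.1.val + 1 < H) : tt (rgt v h) + v.2.2.val + 1 = tt v := by
  obtain ⟨m, hm⟩ : ∃ m, H - 1 - v.1.val = m + 1 := ⟨H - 1 - v.1.val - 1, by omega⟩
  have hm' : H - 1 - (v.1.val + 1) = m := by omega
  simp only [tt, rgt, hm, hm', Fin.val_last]
  ring

/-- registers: a place and an age; only the last places of the rows get older than `0` -/
abbrev RG (H n : ℕ) := {p : Pla H n × Fin (2 * n + 1) //
  p.2 = 0 ∨ (p.1.2.2 = Fin.last n ∧ 0 < p.1.1.val)}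

/-- the gates: registers with a label, AND gates for the rules, AND gates for the final rules,
output -/
abbrev Gt (H n : ℕ) :=
  (RG H n × ZMod 5) ⊕ (Pla H n × ZMod 5 × ZMod 5 × ZMod 5) ⊕ ZMod 5 ⊕ Unit

/-- fresh register -/
def r0 (v : Pla H n) : RG H n := ⟨(v, 0), Or.inl rfl⟩

/-- the register of the right predecessor -/
def rr (v : Pla H n) (h : v.1.val + 1 < H) : RG H n :=
  ⟨(rgt v h, ⟨2 * v.2.2.val, by omega⟩), Or.inr ⟨rfl, Nat.succ_pos _⟩⟩

/-- the layers -/
def lay (h : 0 < H) : Gt H n → ℕ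
  | Sum.inl (p, _) => 2 * tt p.1.1 + 1 + p.1.2.val
  | Sum.inr (Sum.inl (v, _)) => 2 * tt v
  | Sum.inr (Sum.inr (Sum.inl _)) => 2 * tt (rootP H n h) + 2
  | Sum.inr (Sum.inr (Sum.inr _)) => 2 * tt (rootP H n h) + 3

/-- the types of the gates -/
def cj : Gt H n → Bool
  | Sum.inl _ => false
  | Sum.inr (Sum.inl _) => true
  | Sum.inr (Sum.inr (Sum.inl _)) => true
  | Sum.inr (Sum.inr (Sum.inr _)) => false

/-- the inputs of the gates -/
def ins (h : 0 < H) : Gt H n → Set (Src (Inp (TEl H n)) (Gt H n))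
  | Sum.inl (p, c) => {s |
      (p.1.2 = 0 ∧ ¬ (p.1.1.1.val + 1 < H) ∧ s = some (Sum.inl (Sum.inl (some (p.1.1, c)), true))) ∨
      (p.1.2 = 0 ∧ (p.1.1.1.val + 1 < H) ∧
        ∃ a b, s = some (Sum.inr (Sum.inr (Sum.inl (p.1.1, a, b, c))))) ∨
      (∃ q : RG H n, q.1.1 = p.1.1 ∧ q.1.2.val + 1 = p.1.2.val ∧
        s = some (Sum.inr (Sum.inl (q, c))))}
  | Sum.inr (Sum.inl (v, a, b, c)) => {s | ∃ h : v.1.val + 1 < H,
      s = some (Sum.inl (Sum.inr (some (lft v h, a), some (rgt v h, b), some (v, c)), true)) ∨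
      s = some (Sum.inr (Sum.inl (r0 (lft v h), a))) ∨
      s = some (Sum.inr (Sum.inl (rr v h, b)))}
  | Sum.inr (Sum.inr (Sum.inl a)) => {s |
      s = some (Sum.inl (Sum.inr (some (rootP H n h, a), some (rootP H n h, a), none), true)) ∨
      s = some (Sum.inr (Sum.inl (r0 (rootP H n h), a)))}
  | Sum.inr (Sum.inr (Sum.inr _)) => {s | ∃ a, s = some (Sum.inr (Sum.inr (Sum.inr (Sum.inl a))))}

/-- the circuit -/
def ck (h : 0 < H) : LCkt (Inp (TEl H n)) (Gt H n) where
  conj := cj
  ins := ins h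
  lay := lay h
  out := Sum.inr (Sum.inr (Sum.inr ()))
  layered := by
    rintro (⟨p, c⟩ | ⟨v, a, b, c⟩ | a | u) g hg
    · rcases hg with ⟨_, _, hs⟩ | ⟨h1, _, a, b, hs⟩ | ⟨q, h1, h2, hs⟩
      · simp at hs
      · simp only [Option.some.injEq, Sum.inr.injEq] at hs
        subst hs
        simp [lay, h1]
      · simp only [Option.some.injEq, Sum.inr.injEq] at hs
        subst hs
        simp only [lay, h1]
        omega
    · obtain ⟨hv, hs | hs | hs⟩ := hg
      · simp at hs
      · simp only [Option.some.injEq, Sum.inr.injEq] at hs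
        subst hs
        have := tt_lft v hv
        simp only [lay, r0, Fin.val_zero]
        omega
      · simp only [Option.some.injEq, Sum.inr.injEq] at hs
        subst hs
        have := tt_rgt v hv
        simp only [lay, rr]
        omega
    · rcases hg with hs | hs
      · simp at hs
      · simp only [Option.some.injEq, Sum.inr.injEq] at hs
        subst hs
        simp only [lay, r0, Fin.val_zero]
    · obtain ⟨a, hs⟩ := hg
      simp only [Option.some.injEq, Sum.inr.injEq] at hs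
      subst hs
      simp only [lay]

/-! ### correctness -/

section sem
variable (h : 0 < H) (x : Set (Inp (TEl H n)))

theorem der_low (v : Pla H n) (hv : ¬ (v.1.val + 1 < H)) (a : ZMod 5) :
    Der (x ∩ tmpl H n h) (some (v, a)) ↔ Sum.inl (some (v, a)) ∈ x := by
  constructor
  · intro hd
    cases hd with
    | ax _ hu => exact hu.1
    | rule b c _ hr _ _ =>
      exfalso
      rcases hr.2 with ⟨w, a', _, h'⟩ | ⟨w, hw, a', b', c', h'⟩ | ⟨a', h'⟩
      · simp at h'
      · simp only [Sum.inr.injEq, Prod.mk.injEq, Option.some.injEq] at h'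
        obtain ⟨_, _, rfl, _⟩ := h'
        exact hv hw
      · simp at h'
  · intro hx
    exact Der.ax _ ⟨hx, Or.inl ⟨v, a, hv, rfl⟩⟩

theorem der_high (v : Pla H n) (hv : v.1.val + 1 < H) (c : ZMod 5) :
    Der (x ∩ tmpl H n h) (some (v, c)) ↔ ∃ a b : ZMod 5,
      Sum.inr (some (lft v hv, a), some (rgt v hv, b), some (v, c)) ∈ x ∧
      Der (x ∩ tmpl H n h) (some (lft v hv, a)) ∧ Der (x ∩ tmpl H n h) (some (rgt v hv, b)) := by
  constructor
  · intro hd
    cases hd with
    | ax _ hu =>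
      exfalso
      rcases hu.2 with ⟨w, a', hw, h'⟩ | ⟨w, hw, a', b', c', h'⟩ | ⟨a', h'⟩
      · simp only [Sum.inl.injEq, Option.some.injEq, Prod.mk.injEq] at h'
        obtain ⟨rfl, _⟩ := h'
        exact hw hv
      · simp at h'
      · simp at h'
    | rule b c _ hr h1 h2 =>
      rcases hr.2 with ⟨w, a', _, h'⟩ | ⟨w, hw, a', b', c', h'⟩ | ⟨a', h'⟩
      · simp at h'
      · simp only [Sum.inr.injEq, Prod.mk.injEq, Option.some.injEq] at h'
        obtain ⟨rfl, rfl, rfl, rfl⟩ := h'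
        exact ⟨a', b', hr.1, h1, h2⟩
      · simp at h'
  · rintro ⟨a, b, hx, h1, h2⟩
    exact Der.rule _ _ _ ⟨hx, Or.inr (Or.inl ⟨v, hv, a, b, c, rfl⟩)⟩ h1 h2

theorem der_none : Der (x ∩ tmpl H n h) none ↔ ∃ a : ZMod 5,
      Sum.inr (some (rootP H n h, a), some (rootP H n h, a), none) ∈ x ∧
      Der (x ∩ tmpl H n h) (some (rootP H n h, a)) := by
  constructor
  · intro hd
    cases hd with
    | ax _ hu =>
      exfalso
      rcases hu.2 with ⟨w, a', hw, h'⟩ | ⟨w, hw, a', b', c', h'⟩ | ⟨a', h'⟩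
      · simp at h'
      · simp at h'
      · simp at h'
    | rule b c _ hr h1 h2 =>
      rcases hr.2 with ⟨w, a', _, h'⟩ | ⟨w, hw, a', b', c', h'⟩ | ⟨a', h'⟩
      · simp at h'
      · simp at h'
      · simp only [Sum.inr.injEq, Prod.mk.injEq] at h'
        obtain ⟨rfl, rfl, _⟩ := h'
        exact ⟨a', hr.1, h1⟩
  · rintro ⟨a, hx, h1⟩
    exact Der.rule _ _ _ ⟨hx, Or.inr (Or.inr ⟨a, rfl⟩)⟩ h1 h1

/-- the meaning of the gates -/
def Sem : Gt H n → Prop
  | Sum.inl (p, c) => Der (x ∩ tmpl H n h) (some (p.1.1, c))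
  | Sum.inr (Sum.inl (v, a, b, c)) => ∀ hv : v.1.val + 1 < H,
      Sum.inr (some (lft v hv, a), some (rgt v hv, b), some (v, c)) ∈ x ∧
      Der (x ∩ tmpl H n h) (some (lft v hv, a)) ∧ Der (x ∩ tmpl H n h) (some (rgt v hv, b))
  | Sum.inr (Sum.inr (Sum.inl a)) =>
      Sum.inr (some (rootP H n h, a), some (rootP H n h, a), none) ∈ x ∧
      Der (x ∩ tmpl H n h) (some (rootP H n h, a))
  | Sum.inr (Sum.inr (Sum.inr _)) => Der (x ∩ tmpl H n h) none

theorem val_sem (g : Gt H n) : (ck h).Val x g ↔ Sem h x g := by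
  apply SCUp.val_unique
  rintro (⟨p, c⟩ | ⟨v, a, b, c⟩ | a | u)
  · show Der (x ∩ tmpl H n h) (some (p.1.1, c)) ↔
      ∃ s ∈ ins h (Sum.inl (p, c)), SrcTrue x (Sem h x) s
    constructor
    · intro hd
      by_cases hk : p.1.2 = 0
      · by_cases hv : p.1.1.1.val + 1 < H
        · obtain ⟨a, b, h1, h2, h3⟩ := (der_high h x _ hv c).1 hd
          refine ⟨_, Or.inr (Or.inl ⟨hk, hv, a, b, rfl⟩), ?_⟩
          exact fun _ => ⟨h1, h2, h3⟩
        · refine ⟨_, Or.inl ⟨hk, hv, rfl⟩, ?_⟩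
          have := (der_low h x _ hv c).1 hd
          simpa [SrcTrue] using this
      · have hlast := p.2.resolve_left hk
        have hk' : p.1.2.val ≠ 0 := fun h => hk (Fin.ext h)
        refine ⟨_, Or.inr (Or.inr ⟨⟨(p.1.1, ⟨p.1.2.val - 1, by omega⟩), Or.inr hlast⟩, rfl, ?_, rfl⟩), ?_⟩
        · simp only
          omega
        · exact hd
    · rintro ⟨s, hs, ht⟩
      rcases hs with ⟨_, hv, rfl⟩ | ⟨h1, hv, a, b, rfl⟩ | ⟨q, h1, h2, rfl⟩
      · rw [der_low h x _ hv c]
        simpa [SrcTrue] using ht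
      · rw [der_high h x _ hv c]
        exact ⟨a, b, ht hv⟩
      · rw [← h1]
        exact ht
  · show (∀ hv : v.1.val + 1 < H,
      Sum.inr (some (lft v hv, a), some (rgt v hv, b), some (v, c)) ∈ x ∧
      Der (x ∩ tmpl H n h) (some (lft v hv, a)) ∧ Der (x ∩ tmpl H n h) (some (rgt v hv, b))) ↔
      ∀ s ∈ ins h (Sum.inr (Sum.inl (v, a, b, c))), SrcTrue x (Sem h x) s
    constructor
    · rintro hall s ⟨hv, rfl | rfl | rfl⟩
      · simpa [SrcTrue] using (hall hv).1
      · exact (hall hv).2.1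
      · exact (hall hv).2.2
    · intro hall hv
      refine ⟨?_, hall _ ⟨hv, Or.inr (Or.inl rfl)⟩, hall _ ⟨hv, Or.inr (Or.inr rfl)⟩⟩
      have := hall _ ⟨hv, Or.inl rfl⟩
      simpa [SrcTrue] using this
  · show (Sum.inr (some (rootP H n h, a), some (rootP H n h, a), none) ∈ x ∧
      Der (x ∩ tmpl H n h) (some (rootP H n h, a))) ↔
      ∀ s ∈ ins h (Sum.inr (Sum.inr (Sum.inl a))), SrcTrue x (Sem h x) s
    constructor
    · rintro hall s (rfl | rfl)
      · simpa [SrcTrue] using hall.1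
      · exact hall.2
    · intro hall
      refine ⟨?_, hall _ (Or.inr rfl)⟩
      have := hall _ (Or.inl rfl)
      simpa [SrcTrue] using this
  · show Der (x ∩ tmpl H n h) none ↔
      ∃ s ∈ ins h (Sum.inr (Sum.inr (Sum.inr u))), SrcTrue x (Sem h x) s
    rw [der_none]
    constructor
    · rintro ⟨a, h1, h2⟩
      exact ⟨_, ⟨a, rfl⟩, h1, h2⟩
    · rintro ⟨s, ⟨a, rfl⟩, ht⟩
      exact ⟨a, ht⟩

end sem

/-! ### sizes -/

theorem ncard_le_of_range {α β : Type*} [Fintype α] (f : α → β) (s : Set β)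
    (hs : ∀ b ∈ s, ∃ a, f a = b) : s.ncard ≤ Fintype.card α := by
  classical
  have h1 : s ⊆ ((Finset.univ.image f : Finset β) : Set β) := by
    intro b hb
    obtain ⟨a, rfl⟩ := hs b hb
    simp
  calc s.ncard ≤ ((Finset.univ.image f : Finset β) : Set β).ncard :=
        Set.ncard_le_ncard h1 (Finset.finite_toSet _)
    _ = (Finset.univ.image f).card := Set.ncard_coe_finset _
    _ ≤ Fintype.card α := Finset.card_image_le

theorem fan_in (h : 0 < H) (g : Gt H n) : (ins h g).ncard ≤ 25 := by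
  rcases g with ⟨p, c⟩ | ⟨v, a, b, c⟩ | a | u
  · by_cases hk : p.1.2 = 0
    · by_cases hv : p.1.1.1.val + 1 < H
      · have := ncard_le_of_range (fun z : ZMod 5 × ZMod 5 =>
          (some (Sum.inr (Sum.inr (Sum.inl (p.1.1, z.1, z.2, c)))) :
            Src (Inp (TEl H n)) (Gt H n))) (ins h (Sum.inl (p, c))) (by
            rintro s (⟨_, hv', _⟩ | ⟨_, _, a, b, rfl⟩ | ⟨q, _, h2, _⟩)
            · exact absurd hv hv'
            · exact ⟨(a, b), rfl⟩
            · rw [hk] at h2; simp at h2)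
        refine this.trans ?_
        simp [ZMod.card]
      · have := ncard_le_of_range (fun _ : Unit =>
          (some (Sum.inl (Sum.inl (some (p.1.1, c)), true)) :
            Src (Inp (TEl H n)) (Gt H n))) (ins h (Sum.inl (p, c))) (by
            rintro s (⟨_, _, rfl⟩ | ⟨_, hv', _⟩ | ⟨q, _, h2, _⟩)
            · exact ⟨(), rfl⟩
            · exact absurd hv' hv
            · rw [hk] at h2; simp at h2)
        refine this.trans ?_
        simp
    · have hlast := p.2.resolve_left hk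
      have hk' : p.1.2.val ≠ 0 := fun h => hk (Fin.ext h)
      have := ncard_le_of_range (fun _ : Unit =>
          (some (Sum.inr (Sum.inl ((⟨(p.1.1, ⟨p.1.2.val - 1, by omega⟩), Or.inr hlast⟩ : RG H n),
            c))) : Src (Inp (TEl H n)) (Gt H n))) (ins h (Sum.inl (p, c))) (by
            rintro s (⟨h', _, _⟩ | ⟨h', _, _⟩ | ⟨q, h1, h2, rfl⟩)
            · exact absurd h' hk
            · exact absurd h' hk
            · refine ⟨(), ?_⟩
              simp only [Option.some.injEq, Sum.inr.injEq, Sum.inl.injEq, Prod.mk.injEq, and_true]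
              apply Subtype.ext
              apply Prod.ext
              · exact h1.symm
              · apply Fin.ext
                simp only
                omega)
      refine this.trans ?_
      simp
  · by_cases hv : v.1.val + 1 < H
    · have := ncard_le_of_range (fun z : Fin 3 =>
          (![some (Sum.inl (Sum.inr (some (lft v hv, a), some (rgt v hv, b), some (v, c)), true)),
            some (Sum.inr (Sum.inl (r0 (lft v hv), a))),
            some (Sum.inr (Sum.inl (rr v hv, b)))] z :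
            Src (Inp (TEl H n)) (Gt H n))) (ins h (Sum.inr (Sum.inl (v, a, b, c)))) (by
            rintro s ⟨_, rfl | rfl | rfl⟩
            · exact ⟨0, rfl⟩
            · exact ⟨1, rfl⟩
            · exact ⟨2, rfl⟩)
      refine this.trans ?_
      simp
    · have : ins h (Sum.inr (Sum.inl (v, a, b, c))) = ∅ := by
        ext s
        simp only [Set.mem_empty_iff_false, iff_false]
        rintro ⟨hv', _⟩
        exact hv hv'
      rw [this]
      simp
  · have := ncard_le_of_range (fun z : Fin 2 =>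
          (![some (Sum.inl (Sum.inr (some (rootP H n h, a), some (rootP H n h, a), none), true)),
            some (Sum.inr (Sum.inl (r0 (rootP H n h), a)))] z :
            Src (Inp (TEl H n)) (Gt H n))) (ins h (Sum.inr (Sum.inr (Sum.inl a)))) (by
            rintro s (rfl | rfl)
            · exact ⟨0, rfl⟩
            · exact ⟨1, rfl⟩)
    refine this.trans ?_
    simp
  · have := ncard_le_of_range (fun z : ZMod 5 =>
          (some (Sum.inr (Sum.inr (Sum.inr (Sum.inl z)))) :
            Src (Inp (TEl H n)) (Gt H n))) (ins h (Sum.inr (Sum.inr (Sum.inr u)))) (by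
            rintro s ⟨a, rfl⟩
            exact ⟨a, rfl⟩)
    refine this.trans ?_
    simp [ZMod.card]

/-- code of a gate inside its layer -/
abbrev Cd (n : ℕ) := (Fin (n + 1) × ZMod 5 × Bool) ⊕ (Fin (n + 1) × ZMod 5 × ZMod 5 × ZMod 5) ⊕
  ZMod 5 ⊕ Unit

/-- code of a gate inside its layer -/
def code : Gt H n → Cd n
  | Sum.inl (p, c) => Sum.inl (p.1.1.2.1, c, decide (p.1.1.2.2 = Fin.last n))
  | Sum.inr (Sum.inl (v, a, b, c)) => Sum.inr (Sum.inl (v.2.1, a, b, c))
  | Sum.inr (Sum.inr (Sum.inl a)) => Sum.inr (Sum.inr (Sum.inl a))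
  | Sum.inr (Sum.inr (Sum.inr _)) => Sum.inr (Sum.inr (Sum.inr ()))

theorem mul_add_inj {w a a' b b' : ℕ} (hb : b < w) (hb' : b' < w)
    (h : a * w + b = a' * w + b') : a = a' ∧ b = b' := by
  have hw : 0 < w := by omega
  have h1 : (a * w + b) / w = a := by
    rw [mul_comm, Nat.mul_add_div hw, Nat.div_eq_of_lt hb, add_zero]
  have h2 : (a' * w + b') / w = a' := by
    rw [mul_comm, Nat.mul_add_div hw, Nat.div_eq_of_lt hb', add_zero]
  have h3 : a = a' := by rw [← h1, ← h2, h]
  subst h3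
  exact ⟨rfl, by omega⟩

theorem tt_inj {v v' : Pla H n} (h : tt v = tt v') (hc : v.2.1 = v'.2.1) : v = v' := by
  obtain ⟨h1, h2⟩ := mul_add_inj v.2.2.isLt v'.2.2.isLt h
  have h3 := v.1.isLt
  have h4 := v'.1.isLt
  apply Prod.ext
  · apply Fin.ext; omega
  · apply Prod.ext
    · exact hc
    · exact Fin.ext h2

theorem code_inj (h : 0 < H) (g g' : Gt H n) (hl : lay h g = lay h g') (hc : code g = code g') :
    g = g' := by
  rcases g with ⟨p, c⟩ | ⟨v, a, b, c⟩ | a | u <;> rcases g' with ⟨p', c'⟩ | ⟨v', a', b', c'⟩ | a' | u'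
  any_goals simp [code] at hc
  · obtain ⟨h1, rfl, h2⟩ := hc
    simp only [lay] at hl
    have key : p.1 = p'.1 := by
      by_cases hlast : p.1.1.2.2 = Fin.last n
      · have hlast' := h2.1 hlast
        have e1 : tt p.1.1 = (H - 1 - p.1.1.1.val) * (n + 1) + n := by
          unfold tt; rw [hlast, Fin.val_last]
        have e2 : tt p'.1.1 = (H - 1 - p'.1.1.1.val) * (n + 1) + n := by
          unfold tt; rw [hlast', Fin.val_last]
        have h3 : (H - 1 - p.1.1.1.val) * (2 * n + 2) + p.1.2.val =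
            (H - 1 - p'.1.1.1.val) * (2 * n + 2) + p'.1.2.val := by
          have e3 : (H - 1 - p.1.1.1.val) * (2 * n + 2) = 2 * ((H - 1 - p.1.1.1.val) * (n + 1)) := by
            ring
          have e4 : (H - 1 - p'.1.1.1.val) * (2 * n + 2) =
            2 * ((H - 1 - p'.1.1.1.val) * (n + 1)) := by ring
          rw [e3, e4]
          omega
        obtain ⟨h4, h5⟩ := mul_add_inj (by omega) (by omega) h3
        apply Prod.ext
        · apply tt_inj _ h1
          rw [e1, e2, h4]
        · exact Fin.ext h5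
      · have hlast' : ¬ (p'.1.1.2.2 = Fin.last n) := fun h => hlast (h2.2 h)
        have k1 : p.1.2 = 0 := p.2.resolve_right (fun h => hlast h.1)
        have k2 : p'.1.2 = 0 := p'.2.resolve_right (fun h => hlast' h.1)
        rw [k1, k2] at hl
        apply Prod.ext
        · apply tt_inj _ h1
          omega
        · rw [k1, k2]
    rw [Subtype.ext key]
  · obtain ⟨h1, rfl, rfl, rfl⟩ := hc
    simp only [lay] at hl
    rw [tt_inj (by omega) h1]
  · rw [hc]
  · rfl

theorem width (h : 0 < H) (j : ℕ) : {g : Gt H n | lay h g = j}.ncard ≤ 150 * (n + 1) := by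
  have h1 : {g : Gt H n | lay h g = j}.ncard ≤ (Set.univ : Set (Cd n)).ncard := by
    refine Set.ncard_le_ncard_of_injOn code (fun _ _ => Set.mem_univ _) ?_ Set.finite_univ
    intro g hg g' hg' hc
    exact code_inj h g g' (by rw [hg, hg']) hc
  refine h1.trans ?_
  rw [Set.ncard_univ, Nat.card_eq_fintype_card]
  simp only [Fintype.card_sum, Fintype.card_prod, Fintype.card_fin, ZMod.card, Fintype.card_bool,
    Fintype.card_unit]
  omega

theorem lay_le (h : 0 < H) (g : Gt H n) : lay h g ≤ 2 * H * (n + 1) + 2 := by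
  have h0 : ∀ v : Pla H n, 2 * tt v + (2 * n - 2 * v.2.2.val) + 2 ≤ 2 * H * (n + 1) := by
    intro v
    have h1 : (H - 1 - v.1.val) * (n + 1) + (n + 1) ≤ H * (n + 1) := by
      rw [← Nat.succ_mul]
      apply Nat.mul_le_mul_right
      have := v.1.isLt
      omega
    have h2 := v.2.2.isLt
    have e : 2 * H * (n + 1) = 2 * (H * (n + 1)) := by ring
    rw [e]
    unfold tt
    omega
  rcases g with ⟨p, c⟩ | ⟨v, a, b, c⟩ | a | u
  · have h1 := h0 p.1.1
    have h2 := p.1.2.isLt
    simp only [lay]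
    rcases p.2 with h3 | h3
    · rw [h3]
      simp only [Fin.val_zero]
      omega
    · have h4 := p.1.1.1.isLt
      obtain ⟨m, hm⟩ : ∃ m, H = m + 2 := ⟨H - 2, by omega⟩
      have h5 : H - 1 - p.1.1.1.val ≤ m := by omega
      have h6 : (H - 1 - p.1.1.1.val) * (n + 1) ≤ m * (n + 1) := Nat.mul_le_mul_right _ h5
      have h7 : tt p.1.1 = (H - 1 - p.1.1.1.val) * (n + 1) + n := by
        unfold tt; rw [h3.1, Fin.val_last]
      have h8 : 2 * H * (n + 1) = 2 * (m * (n + 1)) + 4 * (n + 1) := by rw [hm]; ring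
      omega
  · have h1 := h0 v
    simp only [lay]
    omega
  · have h1 := h0 (rootP H n h)
    simp only [lay]
    omega
  · have h1 := h0 (rootP H n h)
    simp only [lay]
    omega

/-! ### automorphisms -/

/-- the action of relabellings on the elements -/
def pmap (g : Pla H n → Equiv.Perm (ZMod 5)) : TEl H n → TEl H n
  | none => none
  | some (v, a) => some (v, g v a)

/-- the action on the variables -/
def imap (g : Pla H n → Equiv.Perm (ZMod 5)) : Inp (TEl H n) → Inp (TEl H n) :=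
  Sum.map (pmap g) (Prod.map (pmap g) (Prod.map (pmap g) (pmap g)))

/-- relabelling of the left predecessor -/
def gl (g : Pla H n → Equiv.Perm (ZMod 5)) (v : Pla H n) : Equiv.Perm (ZMod 5) :=
  if h : v.1.val + 1 < H then g (lft v h) else 1

/-- relabelling of the right predecessor -/
def gr (g : Pla H n → Equiv.Perm (ZMod 5)) (v : Pla H n) : Equiv.Perm (ZMod 5) :=
  if h : v.1.val + 1 < H then g (rgt v h) else 1

/-- the action on the gates -/
def gmap (h : 0 < H) (g : Pla H n → Equiv.Perm (ZMod 5)) : Gt H n → Gt H n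
  | Sum.inl (p, c) => Sum.inl (p, g p.1.1 c)
  | Sum.inr (Sum.inl (v, a, b, c)) => Sum.inr (Sum.inl (v, gl g v a, gr g v b, g v c))
  | Sum.inr (Sum.inr (Sum.inl a)) => Sum.inr (Sum.inr (Sum.inl (g (rootP H n h) a)))
  | Sum.inr (Sum.inr (Sum.inr u)) => Sum.inr (Sum.inr (Sum.inr u))

theorem pmap_inv (g : Pla H n → Equiv.Perm (ZMod 5)) (e : TEl H n) :
    pmap (fun v => (g v)⁻¹) (pmap g e) = e := by
  rcases e with _ | ⟨v, a⟩
  · rfl
  · simp [pmap]

theorem imap_inv (g : Pla H n → Equiv.Perm (ZMod 5)) (e : Inp (TEl H n)) :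
    imap (fun v => (g v)⁻¹) (imap g e) = e := by
  rcases e with u | ⟨a, b, c⟩
  · simp [imap, pmap_inv]
  · simp [imap, pmap_inv]

theorem gmap_inv (h : 0 < H) (g : Pla H n → Equiv.Perm (ZMod 5)) (e : Gt H n) :
    gmap h (fun v => (g v)⁻¹) (gmap h g e) = e := by
  rcases e with ⟨p, c⟩ | ⟨v, a, b, c⟩ | a | u
  · simp [gmap]
  · have h1 : gl (fun v => (g v)⁻¹) v = (gl g v)⁻¹ := by
      unfold gl
      split_ifs <;> simp
    have h2 : gr (fun v => (g v)⁻¹) v = (gr g v)⁻¹ := by
      unfold gr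
      split_ifs <;> simp
    simp [gmap, h1, h2]
  · simp [gmap]
  · simp [gmap]

theorem srcMap_inv (h : 0 < H) (g : Pla H n → Equiv.Perm (ZMod 5))
    (s : Src (Inp (TEl H n)) (Gt H n)) :
    srcMap (imap (fun v => (g v)⁻¹)) (gmap h (fun v => (g v)⁻¹)) (srcMap (imap g) (gmap h g) s) =
      s := by
  rcases s with _ | ⟨i, c⟩ | q
  · rfl
  · simp [srcMap, imap_inv]
  · simp [srcMap, gmap_inv]

theorem gmap_ins (h : 0 < H) (g : Pla H n → Equiv.Perm (ZMod 5)) (q : Gt H n)
    (s : Src (Inp (TEl H n)) (Gt H n)) (hs : s ∈ ins h q) :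
    srcMap (imap g) (gmap h g) s ∈ ins h (gmap h g q) := by
  rcases q with ⟨p, c⟩ | ⟨v, a, b, c⟩ | a | u
  · rcases hs with ⟨hk, hv, rfl⟩ | ⟨hk, hv, a, b, rfl⟩ | ⟨q, h1, h2, rfl⟩
    · exact Or.inl ⟨hk, hv, rfl⟩
    · exact Or.inr (Or.inl ⟨hk, hv, gl g p.1.1 a, gr g p.1.1 b, rfl⟩)
    · refine Or.inr (Or.inr ⟨q, h1, h2, ?_⟩)
      simp [srcMap, gmap, h1]
  · obtain ⟨hv, rfl | rfl | rfl⟩ := hs
    · refine ⟨hv, Or.inl ?_⟩
      simp [srcMap, imap, pmap, gl, gr, hv]
    · refine ⟨hv, Or.inr (Or.inl ?_)⟩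
      simp [srcMap, gmap, gl, hv, r0]
    · refine ⟨hv, Or.inr (Or.inr ?_)⟩
      simp [srcMap, gmap, gr, hv, rr]
  · rcases hs with rfl | rfl
    · exact Or.inl rfl
    · exact Or.inr rfl
  · obtain ⟨a, rfl⟩ := hs
    exact ⟨_, rfl⟩

theorem aut (h : 0 < H) (v : Pla H n) (a : Equiv.Perm (Fin 5)) (p : Equiv.Perm (TEl H n))
    (hp : ∀ c, p (tblk v c) = tblk v (a c)) (hp' : ∀ u, u ∉ Set.range (tblk v) → p u = u) :
    ∃ φ, (ck h).IsAut (inpPerm p) φ := by
  classical
  let g : Pla H n → Equiv.Perm (ZMod 5) := fun u => if u = v then (a : Equiv.Perm (Fin 5)) else 1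
  have hpg : ∀ e, p e = pmap g e := by
    intro e
    rcases e with _ | ⟨u, c⟩
    · refine hp' none ?_
      rintro ⟨c, hc⟩
      simp [tblk] at hc
    · by_cases hu : u = v
      · subst hu
        have h1 := hp c
        have h2 : g u = (a : Equiv.Perm (Fin 5)) := if_pos rfl
        show p (tblk u c) = some (u, g u c)
        rw [h1, h2]
        rfl
      · have h1 : p (some (u, c)) = some (u, c) := by
          apply hp'
          rintro ⟨c', hc'⟩
          simp only [tblk, Function.Embedding.coeFn_mk, Option.some.injEq, Prod.mk.injEq] at hc'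
          exact hu hc'.1.symm
        have h2 : g u = 1 := if_neg hu
        rw [h1]
        simp [pmap, h2]
  have hpi : (⇑(inpPerm p)) = imap g := by
    funext e
    rcases e with u | ⟨b, c, d⟩
    · simp [inpPerm, imap, hpg]
    · simp [inpPerm, imap, hpg]
  have hgg : (fun u => ((fun u => (g u)⁻¹) u)⁻¹) = g := by
    funext u; simp
  let φ : Equiv.Perm (Gt H n) :=
    { toFun := gmap h g
      invFun := gmap h (fun v => (g v)⁻¹)
      left_inv := gmap_inv h g
      right_inv := fun e => by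
        have := gmap_inv h (fun v => (g v)⁻¹) e
        rw [hgg] at this
        exact this }
  have hφ : (⇑φ) = gmap h g := rfl
  refine ⟨φ, ?_, ?_, ?_, ?_⟩
  · rintro (⟨q, c⟩ | ⟨v, a, b, c⟩ | a | u) <;> rfl
  · intro q s
    rw [hpi, hφ]
    constructor
    · intro hs
      have := gmap_ins h (fun v => (g v)⁻¹) _ _ hs
      rw [srcMap_inv, gmap_inv] at this
      exact this
    · exact gmap_ins h g q s
  · rintro (⟨q, c⟩ | ⟨v, a, b, c⟩ | a | u) <;> rfl
  · rfl

end SCUp

/-- SCUP: layered circuits of width `O(n)` for the template function -/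
theorem sc_upper (H n : ℕ) (h : 0 < H) :
    ∃ (Q : Type) (_ : Fintype Q) (C : LCkt (Inp (TEl H n)) Q),
      (∀ x, C.Val x C.out ↔ Tem H n h x) ∧
      (∀ g, (C.ins g).ncard ≤ 25) ∧
      (∀ j, {g | C.lay g = j}.ncard ≤ 150 * (n + 1)) ∧
      (∀ g, C.lay g ≤ 2 * H * (n + 1) + 2) ∧
      (∀ (v : Pla H n) (a : Equiv.Perm (Fin 5)) (p : Equiv.Perm (TEl H n)),
        (∀ c, p (tblk v c) = tblk v (a c)) → (∀ u, u ∉ Set.range (tblk v) → p u = u) →
        ∃ φ, C.IsAut (inpPerm p) φ) :=
  ⟨SCUp.Gt H n, inferInstance, SCUp.ck h, fun x => SCUp.val_sem h x _, SCUp.fan_in h,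
    SCUp.width h, SCUp.lay_le h, SCUp.aut h⟩

end Pool.Agent.H870R2.LS
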