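import Pool.Agent.H870R2.LS.PNet

set_option autoImplicit false
set_option linter.unusedSectionVars false

/-! Monotone 2-CNFs: the instances. -/

namespace Pool.Agent.H870R2.PC

open Finset BigOperators H522R2.LS

/-- The number of satisfying assignments of the monotone 2-CNF with the clauses `x ∨ y` for all `x`,
`y` with `A (x, y) = 1`. -/
def sat2 {Ω : Type} [Fintype Ω] [DecidableEq Ω] (A : Ω × Ω → ℕ) : ℕ :=
  Fintype.card {f : Ω → Bool // ∀ x y, A (x, y) = 1 → f x = true ∨ f y = true}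

/-- Variables: `cw i s a` codeword `a` at the vertex `(i, s)`, `tok i l` two variables for each vertex,
`dum` dummies. -/
inductive Pos3 (N : ℕ) (Δ : Type)
  | cw (i : Fin N) (s : Bool) (a : Fin 4)
  | tok (i : Fin N) (l : Fin 4)
  | dum (δ : Δ)
  deriving DecidableEq, Fintype

/-- the vertex to which a token belongs -/
def side : Fin 4 → Bool := ![false, false, true, true]

variable {N : ℕ} {Δ : Type}

/-- the clauses -/
def Ed (ρ : Fin 3 → Equiv.Perm (Fin N)) (b : Fin N → Fin 3 → ZMod 2) :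
    Pos3 N Δ → Pos3 N Δ → Prop
  | .cw i false a, .cw i' false a' => i = i' ∧ a ≠ a'
  | .cw i true a, .cw i' true a' => i = i' ∧ a ≠ a'
  | .cw i true a, .cw i' false a' => ∃ t, ρ t i' = i ∧ lab a' t + b i' t ≠ lab a t
  | .cw i' false a', .cw i true a => ∃ t, ρ t i' = i ∧ lab a' t + b i' t ≠ lab a t
  | .cw i s _, .tok i' l => i = i' ∧ side l = s
  | .tok i' l, .cw i s _ => i = i' ∧ side l = s
  | .tok i l, .tok i' l' => i = i' ∧ side l = side l' ∧ l ≠ l'
  | _, _ => False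

open Classical in
/-- the matrix of the clauses -/
noncomputable def w3 (ρ : Fin 3 → Equiv.Perm (Fin N)) (b : Fin N → Fin 3 → ZMod 2)
    (x y : Pos3 N Δ) : ℕ := if Ed ρ b x y then 1 else 0

theorem Ed_symm (ρ : Fin 3 → Equiv.Perm (Fin N)) (b : Fin N → Fin 3 → ZMod 2)
    (x y : Pos3 N Δ) (h : Ed ρ b x y) : Ed ρ b y x := by
  rcases x with ⟨i, s, a⟩ | ⟨i, l⟩ | δ <;> rcases y with ⟨i', s', a'⟩ | ⟨i', l'⟩ | δ'
  · cases s <;> cases s'
    · exact ⟨h.1.symm, h.2.symm⟩
    · exact h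
    · exact h
    · exact ⟨h.1.symm, h.2.symm⟩
  · cases s <;> exact h
  · cases s <;> exact h
  · cases s' <;> exact h
  · exact ⟨h.1.symm, h.2.1.symm, h.2.2.symm⟩
  · exact h
  · cases s' <;> exact h
  · exact h
  · exact h

theorem Ed_irrefl (ρ : Fin 3 → Equiv.Perm (Fin N)) (b : Fin N → Fin 3 → ZMod 2)
    (x : Pos3 N Δ) : ¬ Ed ρ b x x := by
  rcases x with ⟨i, s, a⟩ | ⟨i, l⟩ | δ
  · cases s
    · exact fun h => h.2 rfl
    · exact fun h => h.2 rfl
  · exact fun h => h.2.2 rfl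
  · exact fun h => h

end Pool.Agent.H870R2.PC
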