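import Pool.Agent.H870R2.LS.SDefs

set_option autoImplicit false
set_option linter.unusedSectionVars false

/-! The number of satisfying assignments of the 2-CNFs, modulo 3. -/

namespace Pool.Agent.H870R2.PC

open Finset BigOperators H522R2.LS

variable {N : ℕ} {Δ : Type} [Fintype Δ] [DecidableEq Δ]

/-- consistent choices of codewords -/
def ConsB (ρ : Fin 3 → Equiv.Perm (Fin N)) (b : Fin N → Fin 3 → ZMod 2)
    (u : Fin N → Bool → Fin 4) : Prop :=
  ∀ i t, lab (u i false) t + b i t = lab (u (ρ t i) true) t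

/-- independent sets -/
def OK (ρ : Fin 3 → Equiv.Perm (Fin N)) (b : Fin N → Fin 3 → ZMod 2) (g : Pos3 N Δ → Bool) : Prop :=
  ∀ x y, Ed ρ b x y → ¬ (g x = true ∧ g y = true)

/-- the conditions on the codewords -/
def ok1 (ρ : Fin 3 → Equiv.Perm (Fin N)) (b : Fin N → Fin 3 → ZMod 2)
    (c : Fin N → Bool → Fin 4 → Bool) : Prop :=
  (∀ i s a a', a ≠ a' → ¬ (c i s a = true ∧ c i s a' = true)) ∧
  ∀ i t a a', lab a' t + b i t ≠ lab a t → ¬ (c (ρ t i) true a = true ∧ c i false a' = true)

/-- the conditions on the tokens of one index -/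
def okT (e : Bool → Bool) (k : Fin 4 → Bool) : Prop :=
  (∀ l, k l = true → e (side l) = false) ∧
  ∀ l l', side l = side l' → l ≠ l' → ¬ (k l = true ∧ k l' = true)

instance (e : Bool → Bool) (k : Fin 4 → Bool) : Decidable (okT e k) := by
  unfold okT; infer_instance

/-- is a codeword selected? -/
def ne1 (c : Fin N → Bool → Fin 4 → Bool) (i : Fin N) (s : Bool) : Bool :=
  decide (∃ a, c i s a = true)

theorem okT_count (e : Bool → Bool) :
    (∑ k : Fin 4 → Bool, (if okT e k then (1 : ZMod 3) else 0)) = if ∀ s, e s = true then 1 else 0 := by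
  revert e
  decide

/-- splitting an assignment -/
def splitG (N : ℕ) (Δ : Type) : (Pos3 N Δ → Bool) ≃
    (Fin N → Bool → Fin 4 → Bool) × (Fin N → Fin 4 → Bool) × (Δ → Bool) where
  toFun g := (fun i s a => g (.cw i s a), fun i l => g (.tok i l), fun δ => g (.dum δ))
  invFun p x := match x with
    | .cw i s a => p.1 i s a
    | .tok i l => p.2.1 i l
    | .dum δ => p.2.2 δ
  left_inv g := by funext x; cases x <;> rfl
  right_inv p := rfl

theorem ok_iff (ρ : Fin 3 → Equiv.Perm (Fin N)) (b : Fin N → Fin 3 → ZMod 2)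
    (c : Fin N → Bool → Fin 4 → Bool) (k : Fin N → Fin 4 → Bool) (d : Δ → Bool) :
    OK ρ b ((splitG N Δ).symm (c, k, d)) ↔ ok1 ρ b c ∧ ∀ i, okT (ne1 c i) (k i) := by
  constructor
  · intro h
    refine ⟨⟨?_, ?_⟩, ?_⟩
    · intro i s a a' ha
      cases s
      · exact h (.cw i false a) (.cw i false a') ⟨rfl, ha⟩
      · exact h (.cw i true a) (.cw i true a') ⟨rfl, ha⟩
    · intro i t a a' ha
      exact h (.cw (ρ t i) true a) (.cw i false a') ⟨t, rfl, ha⟩
    · intro i
      refine ⟨?_, ?_⟩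
      · intro l hl
        unfold ne1
        rw [decide_eq_false_iff_not]
        rintro ⟨a, ha⟩
        have hed : Ed ρ b (.cw i (side l) a : Pos3 N Δ) (.tok i l) := by
          rcases hs : side l with _ | _
          · exact ⟨rfl, hs⟩
          · exact ⟨rfl, hs⟩
        exact h _ _ hed ⟨ha, hl⟩
      · intro l l' hs hl
        exact h (.tok i l) (.tok i l') ⟨rfl, hs, hl⟩
  · rintro ⟨⟨h1, h2⟩, h3⟩ x y hxy ⟨hx, hy⟩
    have h4 : ∀ (i : Fin N) (s : Bool) (a l : Fin 4), side l = s → c i s a = true →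
        k i l = true → False := by
      intro i s a l hs ha hl
      have h5 := (h3 i).1 l hl
      unfold ne1 at h5
      rw [decide_eq_false_iff_not] at h5
      exact h5 ⟨a, by rw [hs]; exact ha⟩
    rcases x with ⟨i, s, a⟩ | ⟨i, l⟩ | δ <;> rcases y with ⟨i', s', a'⟩ | ⟨i', l'⟩ | δ'
    · cases s <;> cases s'
      · obtain ⟨rfl, h⟩ := hxy
        exact h1 i false a a' h ⟨hx, hy⟩
      · obtain ⟨t, rfl, h⟩ := hxy
        exact h2 i t a' a h ⟨hy, hx⟩
      · obtain ⟨t, rfl, h⟩ := hxy
        exact h2 i' t a a' h ⟨hx, hy⟩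
      · obtain ⟨rfl, h⟩ := hxy
        exact h1 i true a a' h ⟨hx, hy⟩
    · have h5 : i = i' ∧ side l' = s := by cases s <;> exact hxy
      obtain ⟨rfl, h6⟩ := h5
      exact h4 i s a l' h6 hx hy
    · cases s <;> exact hxy
    · have h5 : i' = i ∧ side l = s' := by cases s' <;> exact hxy
      obtain ⟨rfl, h6⟩ := h5
      exact h4 i' s' a' l h6 hy hx
    · obtain ⟨rfl, h5, h6⟩ := hxy
      exact (h3 i).2 l l' h5 h6 ⟨hx, hy⟩
    · exact hxy
    · cases s' <;> exact hxy
    · exact hxy
    · exact hxy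

open Classical in
theorem count_ok (ρ : Fin 3 → Equiv.Perm (Fin N)) (b : Fin N → Fin 3 → ZMod 2) :
    ((Fintype.card {g : Pos3 N Δ → Bool // OK ρ b g} : ℕ) : ZMod 3) =
      2 ^ Fintype.card Δ * ∑ c : Fin N → Bool → Fin 4 → Bool,
        (if ok1 ρ b c ∧ ∀ i s, ne1 c i s = true then 1 else 0) := by
  rw [Fintype.card_subtype, ← Finset.sum_boole, ← Equiv.sum_comp (splitG N Δ).symm,
    Fintype.sum_prod_type, Finset.mul_sum]
  refine Finset.sum_congr rfl (fun c _ => ?_)
  rw [Fintype.sum_prod_type]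
  have h1 : ∀ (k : Fin N → Fin 4 → Bool) (d : Δ → Bool),
      (if OK ρ b ((splitG N Δ).symm (c, k, d)) then (1 : ZMod 3) else 0) =
      (if ok1 ρ b c then 1 else 0) * ∏ i, (if okT (ne1 c i) (k i) then (1 : ZMod 3) else 0) := by
    intro k d
    by_cases hc : ok1 ρ b c
    · rw [if_pos hc, one_mul]
      by_cases hk : ∀ i, okT (ne1 c i) (k i)
      · rw [if_pos ((ok_iff ρ b c k d).2 ⟨hc, hk⟩)]
        symm
        exact Finset.prod_eq_one (fun i _ => if_pos (hk i))
      · rw [if_neg (fun h => hk ((ok_iff ρ b c k d).1 h).2)]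
        push Not at hk
        obtain ⟨i, hi⟩ := hk
        symm
        exact Finset.prod_eq_zero (Finset.mem_univ i) (if_neg hi)
    · rw [if_neg hc, zero_mul, if_neg (fun h => hc ((ok_iff ρ b c k d).1 h).1)]
  simp only [h1]
  have h2 : ∀ k : Fin N → Fin 4 → Bool,
      ∑ _d : Δ → Bool, (if ok1 ρ b c then (1 : ZMod 3) else 0) *
        ∏ i, (if okT (ne1 c i) (k i) then (1 : ZMod 3) else 0) =
      2 ^ Fintype.card Δ * ((if ok1 ρ b c then (1 : ZMod 3) else 0) *
        ∏ i, (if okT (ne1 c i) (k i) then (1 : ZMod 3) else 0)) := by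
    intro k
    rw [Finset.sum_const, Finset.card_univ, Fintype.card_fun, Fintype.card_bool, nsmul_eq_mul,
      Nat.cast_pow]
    rfl
  simp only [h2]
  rw [← Finset.mul_sum, ← Finset.mul_sum]
  congr 1
  have h3 : ∑ k : Fin N → Fin 4 → Bool, ∏ i, (if okT (ne1 c i) (k i) then (1 : ZMod 3) else 0) =
      ∏ i, ∑ k : Fin 4 → Bool, (if okT (ne1 c i) k then (1 : ZMod 3) else 0) := by
    rw [Finset.prod_univ_sum, Fintype.piFinset_univ]
  rw [h3]
  simp only [okT_count]
  by_cases hc : ok1 ρ b c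
  · rw [if_pos hc, one_mul]
    by_cases hn : ∀ i s, ne1 c i s = true
    · rw [if_pos ⟨hc, hn⟩]
      exact Finset.prod_eq_one (fun i _ => if_pos (hn i))
    · rw [if_neg (fun h => hn h.2)]
      push Not at hn
      obtain ⟨i, s, hi⟩ := hn
      exact Finset.prod_eq_zero (Finset.mem_univ i) (if_neg (fun h => hi (h s)))
  · rw [if_neg hc, zero_mul, if_neg (fun h => hc h.1)]

/-- the indicator of a choice -/
def ind (u : Fin N → Bool → Fin 4) : Fin N → Bool → Fin 4 → Bool := fun i s a => decide (a = u i s)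

theorem exists_ind (ρ : Fin 3 → Equiv.Perm (Fin N)) (b : Fin N → Fin 3 → ZMod 2)
    (c : Fin N → Bool → Fin 4 → Bool) :
    (ok1 ρ b c ∧ ∀ i s, ne1 c i s = true) ↔ ∃ u, ConsB ρ b u ∧ ind u = c := by
  constructor
  · rintro ⟨⟨h1, h2⟩, h3⟩
    have h4 : ∀ i s, ∃ a, c i s a = true := by
      intro i s
      have := h3 i s
      unfold ne1 at this
      exact of_decide_eq_true this
    choose u hu using h4
    refine ⟨u, ?_, ?_⟩
    · intro i t
      by_contra hne
      exact h2 i t _ _ hne ⟨hu _ _, hu _ _⟩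
    · funext i s a
      unfold ind
      by_cases ha : a = u i s
      · rw [ha, hu i s]; simp
      · rw [decide_eq_false ha]
        by_contra hc
        have hc' : c i s a = true := by
          cases h : c i s a
          · exact absurd h.symm hc
          · rfl
        exact h1 i s a _ ha ⟨hc', hu i s⟩
  · rintro ⟨u, hu, rfl⟩
    refine ⟨⟨?_, ?_⟩, ?_⟩
    · rintro i s a a' ha ⟨h1, h2⟩
      exact ha ((of_decide_eq_true h1).trans (of_decide_eq_true h2).symm)
    · rintro i t a a' ha ⟨h1, h2⟩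
      apply ha
      rw [of_decide_eq_true h1, of_decide_eq_true h2]
      exact hu i t
    · intro i s
      unfold ne1 ind
      exact decide_eq_true ⟨u i s, decide_eq_true rfl⟩

theorem ind_inj : Function.Injective (ind : (Fin N → Bool → Fin 4) → _) := by
  intro u u' h
  funext i s
  have h1 : ind u i s (u i s) = true := decide_eq_true rfl
  rw [h] at h1
  exact of_decide_eq_true h1

open Classical in
theorem count_cons (ρ : Fin 3 → Equiv.Perm (Fin N)) (b : Fin N → Fin 3 → ZMod 2) :
    ((Fintype.card {g : Pos3 N Δ → Bool // OK ρ b g} : ℕ) : ZMod 3) =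
      2 ^ Fintype.card Δ *
        ((univ.filter (fun u : Fin N → Bool → Fin 4 => ConsB ρ b u)).card : ZMod 3) := by
  rw [count_ok, Finset.sum_boole]
  congr 2
  symm
  rw [← Finset.card_image_of_injective _ ind_inj]
  congr 1
  ext c
  simp only [Finset.mem_image, Finset.mem_filter, Finset.mem_univ, true_and]
  exact (exists_ind ρ b c).symm

/-- no consistent choice for a nonzero total twist -/
theorem no_cons (ρ : Fin 3 → Equiv.Perm (Fin N)) (b : Fin N → Fin 3 → ZMod 2)
    (hb : ∑ i, ∑ t, b i t ≠ 0) (u : Fin N → Bool → Fin 4) : ¬ ConsB ρ b u := by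
  intro h
  apply hb
  have h1 : ∑ i, ∑ t, (lab (u i false) t + b i t) = ∑ i, ∑ t, lab (u (ρ t i) true) t :=
    Finset.sum_congr rfl (fun i _ => Finset.sum_congr rfl (fun t _ => h i t))
  have h2 : ∑ i, ∑ t, lab (u (ρ t i) true) t = 0 := by
    rw [Finset.sum_comm]
    have h3 : ∀ t, ∑ i, lab (u (ρ t i) true) t = ∑ i, lab (u i true) t :=
      fun t => Equiv.sum_comp (ρ t) (fun i => lab (u i true) t)
    rw [Finset.sum_congr rfl (fun t _ => h3 t), Finset.sum_comm]
    exact Finset.sum_eq_zero (fun i _ => lab_sum (u i true))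
  rw [h2] at h1
  simp only [Finset.sum_add_distrib] at h1
  rw [Finset.sum_eq_zero (fun i _ => lab_sum (u i false)), zero_add] at h1
  exact h1

end Pool.Agent.H870R2.PC
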