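import Pool.Agent.H870R2.LS.SMain
import Pool.Agent.H870R2.LS.SEval
import Pool.Agent.H870R2.LS.PSym
import Pool.Agent.H870R2.LS.PCcons

set_option autoImplicit false
set_option linter.unusedSectionVars false

/-! The number of satisfying assignments of monotone 2-CNFs, modulo 3. -/

namespace Pool.Agent.H870R2.PC

open Finset BigOperators H522R2.LS

variable {K Ω : Type} [Fintype Ω] [DecidableEq Ω] {N : ℕ} {Δ : Type} [Fintype Δ] [DecidableEq Δ]

/-- Monotone 2-CNFs in which every variable is in at most 11 clauses: `A (x, y) = A (y, x) = 1` if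
`x ∨ y` is a clause, 0 otherwise; `x ≠ y` in every clause. -/
def Mon2 (Ω : Type) [Fintype Ω] : Set (Ω × Ω → ℕ) :=
  {A | (∀ v, A v = 0 ∨ A v = 1) ∧ (∀ x y, A (x, y) = A (y, x)) ∧ (∀ x, A (x, x) = 0) ∧
    ∀ x, (univ.filter (fun y => A (x, y) = 1)).card ≤ 11}

theorem w3_one {ρ : Fin 3 → Equiv.Perm (Fin N)} {b : Fin N → Fin 3 → ZMod 2} {x y : Pos3 N Δ} :
    w3 ρ b x y = 1 ↔ Ed ρ b x y := by
  unfold w3
  split_ifs with h
  · exact ⟨fun _ => h, fun _ => rfl⟩
  · exact ⟨fun h' => absurd h' (by norm_num), fun h' => absurd h' h⟩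

theorem lab_two : ∀ (t : Fin 3) (β γ : ZMod 2),
    (univ.filter (fun a' : Fin 4 => lab a' t + β ≠ γ)).card ≤ 2 := by decide

theorem lab_two' : ∀ (t : Fin 3) (β γ : ZMod 2),
    (univ.filter (fun a' : Fin 4 => γ + β ≠ lab a' t)).card ≤ 2 := by decide

theorem side_two : ∀ s : Bool, (univ.filter (fun l : Fin 4 => side l = s)).card ≤ 2 := by decide

theorem ne_three : ∀ a : Fin 4, (univ.filter (fun a' : Fin 4 => a ≠ a')).card ≤ 3 := by decide

theorem side_one : ∀ l : Fin 4, (univ.filter (fun l' : Fin 4 => side l = side l' ∧ l ≠ l')).card ≤ 1 := by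
  decide

open Classical in
/-- the degrees are at most 11 -/
theorem degree_le (ρ : Fin 3 → Equiv.Perm (Fin N)) (b : Fin N → Fin 3 → ZMod 2) (x : Pos3 N Δ) :
    (univ.filter (fun y => Ed ρ b x y)).card ≤ 11 := by
  rcases x with ⟨i, s, a⟩ | ⟨i, l⟩ | δ
  · have h3 : ∀ f : Fin 3 → Finset (Pos3 N Δ), (∀ t, (f t).card ≤ 2) →
        (univ.biUnion f).card ≤ 6 := by
      intro f hf
      refine (Finset.card_biUnion_le).trans ?_
      refine (Finset.sum_le_sum (fun t _ => hf t)).trans ?_
      simp
    cases s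
    · have hsub : univ.filter (fun y : Pos3 N Δ => Ed ρ b (.cw i false a) y) ⊆
          ((univ.filter (fun a' : Fin 4 => a ≠ a')).image (fun a' => Pos3.cw i false a') ∪
          (univ.filter (fun l : Fin 4 => side l = false)).image (fun l => Pos3.tok i l)) ∪
          univ.biUnion (fun t : Fin 3 => (univ.filter (fun a' : Fin 4 =>
            lab a t + b i t ≠ lab a' t)).image (fun a' => Pos3.cw (ρ t i) true a')) := by
        intro y hy
        have hy' := (Finset.mem_filter.1 hy).2
        rcases y with ⟨i', s', a'⟩ | ⟨i', l'⟩ | δ'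
        · cases s'
          · obtain ⟨rfl, h⟩ := hy'
            exact Finset.mem_union_left _ (Finset.mem_union_left _
              (Finset.mem_image.2 ⟨a', Finset.mem_filter.2 ⟨Finset.mem_univ _, h⟩, rfl⟩))
          · obtain ⟨t, rfl, h⟩ := hy'
            exact Finset.mem_union_right _ (Finset.mem_biUnion.2 ⟨t, Finset.mem_univ _,
              Finset.mem_image.2 ⟨a', Finset.mem_filter.2 ⟨Finset.mem_univ _, h⟩, rfl⟩⟩)
        · obtain ⟨rfl, h⟩ := hy'
          exact Finset.mem_union_left _ (Finset.mem_union_right _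
              (Finset.mem_image.2 ⟨l', Finset.mem_filter.2 ⟨Finset.mem_univ _, h⟩, rfl⟩))
        · exact absurd hy' (fun h => h)
      refine (Finset.card_le_card hsub).trans ?_
      refine (Finset.card_union_le _ _).trans ?_
      have e1 := Finset.card_union_le
        ((univ.filter (fun a' : Fin 4 => a ≠ a')).image (fun a' => (Pos3.cw i false a' : Pos3 N Δ)))
        ((univ.filter (fun l : Fin 4 => side l = false)).image (fun l => Pos3.tok i l))
      have e2 := (Finset.card_image_le (s := univ.filter (fun a' : Fin 4 => a ≠ a'))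
        (f := fun a' => (Pos3.cw i false a' : Pos3 N Δ))).trans (ne_three a)
      have e3 := (Finset.card_image_le (s := univ.filter (fun l : Fin 4 => side l = false))
        (f := fun l => (Pos3.tok i l : Pos3 N Δ))).trans (side_two false)
      have e4 := h3 (fun t : Fin 3 => (univ.filter (fun a' : Fin 4 =>
            lab a t + b i t ≠ lab a' t)).image (fun a' => Pos3.cw (ρ t i) true a'))
            (fun t => (Finset.card_image_le).trans (lab_two' t (b i t) (lab a t)))
      omega
    · have hsub : univ.filter (fun y : Pos3 N Δ => Ed ρ b (.cw i true a) y) ⊆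
          ((univ.filter (fun a' : Fin 4 => a ≠ a')).image (fun a' => Pos3.cw i true a') ∪
          (univ.filter (fun l : Fin 4 => side l = true)).image (fun l => Pos3.tok i l)) ∪
          univ.biUnion (fun t : Fin 3 => (univ.filter (fun a' : Fin 4 =>
            lab a' t + b ((ρ t).symm i) t ≠ lab a t)).image
              (fun a' => Pos3.cw ((ρ t).symm i) false a')) := by
        intro y hy
        have hy' := (Finset.mem_filter.1 hy).2
        rcases y with ⟨i', s', a'⟩ | ⟨i', l'⟩ | δ'
        · cases s'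
          · obtain ⟨t, rfl, h⟩ := hy'
            refine Finset.mem_union_right _ (Finset.mem_biUnion.2 ⟨t, Finset.mem_univ _,
              Finset.mem_image.2 ⟨a', Finset.mem_filter.2 ⟨Finset.mem_univ _, ?_⟩, ?_⟩⟩)
            · rw [Equiv.symm_apply_apply]; exact h
            · rw [Equiv.symm_apply_apply]
          · obtain ⟨rfl, h⟩ := hy'
            exact Finset.mem_union_left _ (Finset.mem_union_left _
              (Finset.mem_image.2 ⟨a', Finset.mem_filter.2 ⟨Finset.mem_univ _, h⟩, rfl⟩))
        · obtain ⟨rfl, h⟩ := hy'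
          exact Finset.mem_union_left _ (Finset.mem_union_right _
              (Finset.mem_image.2 ⟨l', Finset.mem_filter.2 ⟨Finset.mem_univ _, h⟩, rfl⟩))
        · exact absurd hy' (fun h => h)
      refine (Finset.card_le_card hsub).trans ?_
      refine (Finset.card_union_le _ _).trans ?_
      have e1 := Finset.card_union_le
        ((univ.filter (fun a' : Fin 4 => a ≠ a')).image (fun a' => (Pos3.cw i true a' : Pos3 N Δ)))
        ((univ.filter (fun l : Fin 4 => side l = true)).image (fun l => Pos3.tok i l))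
      have e2 := (Finset.card_image_le (s := univ.filter (fun a' : Fin 4 => a ≠ a'))
        (f := fun a' => (Pos3.cw i true a' : Pos3 N Δ))).trans (ne_three a)
      have e3 := (Finset.card_image_le (s := univ.filter (fun l : Fin 4 => side l = true))
        (f := fun l => (Pos3.tok i l : Pos3 N Δ))).trans (side_two true)
      have e4 := h3 (fun t : Fin 3 => (univ.filter (fun a' : Fin 4 =>
            lab a' t + b ((ρ t).symm i) t ≠ lab a t)).image
              (fun a' => Pos3.cw ((ρ t).symm i) false a'))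
            (fun t => (Finset.card_image_le).trans (lab_two t (b ((ρ t).symm i) t) (lab a t)))
      omega
  · have hsub : univ.filter (fun y : Pos3 N Δ => Ed ρ b (.tok i l) y) ⊆
          (univ : Finset (Fin 4)).image (fun a' => Pos3.cw i (side l) a') ∪
          (univ.filter (fun l' : Fin 4 => side l = side l' ∧ l ≠ l')).image
            (fun l => Pos3.tok i l) := by
      intro y hy
      have hy' := (Finset.mem_filter.1 hy).2
      rcases y with ⟨i', s', a'⟩ | ⟨i', l'⟩ | δ'
      · have h5 : i' = i ∧ side l = s' := by cases s' <;> exact hy'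
        obtain ⟨rfl, h⟩ := h5
        subst h
        exact Finset.mem_union_left _ (Finset.mem_image.2 ⟨a', Finset.mem_univ _, rfl⟩)
      · obtain ⟨rfl, h⟩ := hy'
        exact Finset.mem_union_right _
              (Finset.mem_image.2 ⟨l', Finset.mem_filter.2 ⟨Finset.mem_univ _, h⟩, rfl⟩)
      · exact absurd hy' (fun h => h)
    refine (Finset.card_le_card hsub).trans ?_
    refine (Finset.card_union_le _ _).trans ?_
    have e2 := (Finset.card_image_le (s := (univ : Finset (Fin 4)))
        (f := fun a' => (Pos3.cw i (side l) a' : Pos3 N Δ)))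
    have e3 := (Finset.card_image_le (s := univ.filter (fun l' : Fin 4 => side l = side l' ∧ l ≠ l'))
        (f := fun l => (Pos3.tok i l : Pos3 N Δ))).trans (side_one l)
    have e4 : (univ : Finset (Fin 4)).card = 4 := by simp
    omega
  · have : univ.filter (fun y : Pos3 N Δ => Ed ρ b (.dum δ) y) = ∅ := by
      apply Finset.filter_false_of_mem
      intro y _ h
      rcases y with ⟨i', s', a'⟩ | ⟨i', l'⟩ | δ' <;> exact h
    rw [this]
    simp

theorem mem_Mon2 (e : Pos3 N Δ ≃ Ω) (ρ : Fin 3 → Equiv.Perm (Fin N))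
    (b : Fin N → Fin 3 → ZMod 2) :
    (fun v : Ω × Ω => w3 ρ b (e.symm v.1) (e.symm v.2)) ∈ Mon2 Ω := by
  classical
  refine ⟨?_, ?_, ?_, ?_⟩
  · intro v
    show w3 _ _ _ _ = 0 ∨ w3 _ _ _ _ = 1
    unfold w3
    split_ifs
    · exact Or.inr rfl
    · exact Or.inl rfl
  · intro x y
    show w3 _ _ _ _ = w3 _ _ _ _
    unfold w3
    by_cases h : Ed ρ b (e.symm x) (e.symm y)
    · rw [if_pos h, if_pos (Ed_symm _ _ _ _ h)]
    · rw [if_neg h, if_neg (fun h' => h (Ed_symm _ _ _ _ h'))]
  · intro x
    exact if_neg (Ed_irrefl _ _ _)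
  · intro x
    refine le_trans ?_ (degree_le ρ b (e.symm x))
    refine Finset.card_le_card_of_injOn e.symm ?_ e.symm.injective.injOn
    intro y hy
    have hy' := (Finset.mem_filter.1 hy).2
    exact Finset.mem_filter.2 ⟨Finset.mem_univ _, w3_one.1 hy'⟩

theorem sat2_w3 (e : Pos3 N Δ ≃ Ω) (ρ : Fin 3 → Equiv.Perm (Fin N))
    (b : Fin N → Fin 3 → ZMod 2) [Fintype {g : Pos3 N Δ → Bool // OK ρ b g}] :
    sat2 (fun v : Ω × Ω => w3 ρ b (e.symm v.1) (e.symm v.2)) =
      Fintype.card {g : Pos3 N Δ → Bool // OK ρ b g} := by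
  unfold sat2
  refine Fintype.card_congr ?_
  refine
    { toFun := fun f => ⟨fun p => ! f.1 (e p), ?_⟩
      invFun := fun g => ⟨fun x => ! g.1 (e.symm x), ?_⟩
      left_inv := ?_
      right_inv := ?_ }
  · intro x y hxy ⟨h1, h2⟩
    have h3 := f.2 (e x) (e y) (by
      show w3 ρ b (e.symm (e x)) (e.symm (e y)) = 1
      rw [Equiv.symm_apply_apply, Equiv.symm_apply_apply]
      exact w3_one.2 hxy)
    have h1' : (! f.1 (e x)) = true := h1
    have h2' : (! f.1 (e y)) = true := h2
    rcases h3 with h3 | h3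
    · rw [h3] at h1'; exact absurd h1' (by decide)
    · rw [h3] at h2'; exact absurd h2' (by decide)
  · intro x y hxy
    have h3 := g.2 _ _ (w3_one.1 hxy)
    cases h4 : g.1 (e.symm x)
    · left; simp [h4]
    · right
      cases h5 : g.1 (e.symm y)
      · simp [h5]
      · exact absurd ⟨h4, h5⟩ h3
  · intro f
    apply Subtype.ext
    funext x
    simp
  · intro g
    apply Subtype.ext
    funext x
    simp

instance : Fact (Nat.Prime 3) := ⟨by norm_num⟩

theorem pow_two_ne (n : ℕ) : (2 : ZMod 3) ^ n ≠ 0 := pow_ne_zero n (by decide)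

theorem core_sat (π : Equiv.Perm (Fin N))
    (hπ : ∀ U : Finset (Fin N), N ≤ 3 * U.card → 3 * U.card ≤ 2 * N →
      N / 60 < (Pool.Agent.Helper600R2.bd (finRotate N) U).card ∨
      N / 60 < (Pool.Agent.Helper600R2.bd π U).card)
    (k : ℕ) (hN : 2 ≤ N) (hk : 480 * k ≤ N) (e : Pos3 N Δ ≃ Ω) (C : PNet (Ω × Ω) K) {acc : Set K}
    (hval : C.Decides acc (Mon2 Ω) (fun A => 3 ∣ sat2 A))
    (hsym : ∀ g : Ix3 N → A4, C.SymmUnder (H522R2.LS.diag (FF3 e g))) :
    2 ^ k ≤ Fintype.card C.G := by
  classical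
  by_contra hlt
  push Not at hlt
  obtain ⟨i, hi⟩ := core_eq3 π hπ k hN hk e C hsym hlt
  have h1 := hval _ (mem_Mon2 e (rho π) (tw i))
  have h2 := hval _ (mem_Mon2 e (rho π) (fun _ _ => 0))
  rw [hi, h2] at h1
  have h3 : 3 ∣ sat2 (fun v : Ω × Ω => w3 (rho π) (tw i) (e.symm v.1) (e.symm v.2)) := by
    rw [sat2_w3, ← ZMod.natCast_eq_zero_iff, count_cons]
    have h5 : ∑ k, ∑ t, tw i k t ≠ 0 := by
      have : ∀ k : Fin N, ∑ t, tw i k t = if k = i then 1 else 0 := by
        intro k
        rw [Finset.sum_eq_single 0]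
        · simp [tw]
        · intro t _ ht
          simp [tw, ht]
        · simp
      rw [Finset.sum_congr rfl (fun k _ => this k)]
      simp
    have h6 : (univ.filter (fun u : Fin N → Bool → Fin 4 => ConsB (rho π) (tw i) u)) = ∅ :=
      Finset.filter_false_of_mem (fun u _ => no_cons (rho π) (tw i) h5 u)
    rw [h6, Finset.card_empty, Nat.cast_zero, mul_zero]
  have h4 : 3 ∣ sat2 (fun v : Ω × Ω => w3 (rho π) (fun _ _ => 0) (e.symm v.1) (e.symm v.2)) :=
    h1.2 h3
  rw [sat2_w3, ← ZMod.natCast_eq_zero_iff, count_cons] at h4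
  obtain ⟨k', hk'⟩ := card_cons (rho π)
  have h7 : (univ.filter (fun u : Fin N → Bool → Fin 4 => ConsB (rho π) (fun _ _ => 0) u)).card =
      2 ^ k' := by
    rw [← hk']
    congr 1
    ext u
    simp only [Finset.mem_filter, Finset.mem_univ, true_and]
    unfold ConsB Cons
    simp only [add_zero]
  rw [h7, Nat.cast_pow] at h4
  have h8 : ((2 : ℕ) : ZMod 3) = 2 := rfl
  rw [h8, ← pow_add] at h4
  exact pow_two_ne _ h4

theorem sat2_inv (π : Equiv.Perm Ω) (A : Ω × Ω → ℕ) :
    sat2 (A ∘ H522R2.LS.diag π) = sat2 A := by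
  unfold sat2
  refine Fintype.card_congr ?_
  refine
    { toFun := fun f => ⟨fun x => f.1 (π.symm x), ?_⟩
      invFun := fun f => ⟨fun x => f.1 (π x), ?_⟩
      left_inv := ?_
      right_inv := ?_ }
  · intro x y hxy
    refine f.2 (π.symm x) (π.symm y) ?_
    show A (π (π.symm x), π (π.symm y)) = 1
    rw [Equiv.apply_symm_apply, Equiv.apply_symm_apply]
    exact hxy
  · intro x y hxy
    exact f.2 (π x) (π y) hxy
  · intro f
    apply Subtype.ext
    funext x
    simp
  · intro f
    apply Subtype.ext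
    funext x
    simp

theorem Mon2_closed (A : Ω × Ω → ℕ) (hA : A ∈ Mon2 Ω) (π : Equiv.Perm Ω) :
    A ∘ H522R2.LS.diag π ∈ Mon2 Ω := by
  obtain ⟨h1, h2, h3, h4⟩ := hA
  refine ⟨fun v => h1 _, fun x y => h2 _ _, fun x => h3 _, fun x => ?_⟩
  refine le_trans ?_ (h4 (π x))
  refine Finset.card_le_card_of_injOn π ?_ π.injective.injOn
  intro y hy
  exact Finset.mem_filter.2 ⟨Finset.mem_univ _, (Finset.mem_filter.1 hy).2⟩

theorem exists_symm_sat {r : ℕ} (β : Fin r × Fin 4 ↪ Ω) (C : PNet (Ω × Ω) K) (enc : ℕ → K)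
    (hC : ∀ A ∈ Mon2 Ω, C.val A C.out = enc (sat2 A)) :
    ∃ C' : PNet (Ω × Ω) K, (∀ A ∈ Mon2 Ω, C'.val A C'.out = enc (sat2 A)) ∧
      (∀ g : Equiv.Perm Ω, Preserves β g → C'.SymmUnder (H522R2.LS.diag g)) ∧
      Fintype.card C'.G = 24 ^ r * Fintype.card C.G + 1 ∧
      (∀ g', g' ≠ C'.out → ∃ g, C'.F g' = C.F g) ∧
      ∀ (o : Option ℕ) (k : K) (n : ℕ), 0 < n → C'.F C'.out o (n • ({k} : Multiset K)) = k := by
  refine ⟨symN β C, ?_, ?_, symN_card β C, ?_, symN_F_out β C⟩
  · intro A hA
    refine symN_out β C A _ (fun g => ?_)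
    rw [hC _ (Mon2_closed A hA _), sat2_inv]
  · intro g hg
    obtain ⟨g0, rfl⟩ := exists_bp β g hg
    exact symN_symm β C g0
  · rintro (⟨g, h⟩ | t) hne
    · exact ⟨h, rfl⟩
    · exact absurd rfl hne

/-- the identification of the positions with the indices -/
theorem exists_equiv3 {r N : ℕ} (β : Fin r × Fin 4 ↪ Ω) (J : (Ix3 N ⊕ Fin N) ↪ Fin r) :
    ∃ e : Pos3 N {x : Ω // ∀ v a, β (J v, a) ≠ x} ≃ Ω,
      (∀ i s a, e (.cw i s a) = β (J (Sum.inl (i, s)), a)) ∧
      (∀ i l, e (.tok i l) = β (J (Sum.inr i), l)) ∧ ∀ δ, e (.dum δ) = δ.1 := by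
  classical
  let f : Pos3 N {x : Ω // ∀ v a, β (J v, a) ≠ x} → Ω := fun x => match x with
    | .cw i s a => β (J (Sum.inl (i, s)), a)
    | .tok i l => β (J (Sum.inr i), l)
    | .dum δ => δ.1
  have hinj : Function.Injective f := by
    intro x y h
    rcases x with ⟨i, s, a⟩ | ⟨i, l⟩ | δ <;> rcases y with ⟨i', s', a'⟩ | ⟨i', l'⟩ | δ'
    · have h1 := β.injective h
      rw [Prod.mk.injEq] at h1
      have h2 := J.injective h1.1
      simp only [Sum.inl.injEq, Prod.mk.injEq] at h2
      obtain ⟨rfl, rfl⟩ := h2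
      rw [h1.2]
    · have h1 := β.injective h
      rw [Prod.mk.injEq] at h1
      have h2 := J.injective h1.1
      simp at h2
    · exact absurd h (δ'.2 _ _)
    · have h1 := β.injective h
      rw [Prod.mk.injEq] at h1
      have h2 := J.injective h1.1
      simp at h2
    · have h1 := β.injective h
      rw [Prod.mk.injEq] at h1
      have h2 := J.injective h1.1
      simp only [Sum.inr.injEq] at h2
      subst h2
      rw [h1.2]
    · exact absurd h (δ'.2 _ _)
    · exact absurd h.symm (δ.2 _ _)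
    · exact absurd h.symm (δ.2 _ _)
    · have : δ = δ' := Subtype.ext h
      rw [this]
  have hsurj : Function.Surjective f := by
    intro x
    by_cases h : ∀ v a, β (J v, a) ≠ x
    · exact ⟨.dum ⟨x, h⟩, rfl⟩
    · push Not at h
      obtain ⟨v, a, h⟩ := h
      rcases v with ⟨i, s⟩ | i
      · exact ⟨.cw i s a, h⟩
      · exact ⟨.tok i a, h⟩
  exact ⟨Equiv.ofBijective f ⟨hinj, hsurj⟩, fun _ _ _ => rfl, fun _ _ => rfl, fun _ => rfl⟩

/-- the group of the block permutations under which the circuit is symmetric -/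
def symG3 {N : ℕ} {Δ : Type} [Fintype Δ] [DecidableEq Δ] (e : Pos3 N Δ ≃ Ω) (C : PNet (Ω × Ω) K) :
    Subgroup (Ix3 N → A4) where
  carrier := {g | C.SymmUnder (diag (FF3 e g))}
  one_mem' := by
    show C.SymmUnder _
    exact ⟨1, by rw [FF3_one, diag_one]; exact PNet.IsAut.one C⟩
  mul_mem' := by
    intro g g' h h'
    have h1 : C.SymmUnder (diag (FF3 e g)) := h
    have h2 : C.SymmUnder (diag (FF3 e g')) := h'
    obtain ⟨p, hp⟩ := h1
    obtain ⟨q, hq⟩ := h2
    show C.SymmUnder _
    exact ⟨p * q, by rw [FF3_mul, diag_mul]; exact hp.mul hq⟩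
  inv_mem' := by
    intro g h
    have h1 : C.SymmUnder (diag (FF3 e g)) := h
    obtain ⟨p, hp⟩ := h1
    show C.SymmUnder _
    refine ⟨p⁻¹, hp.inv ?_⟩
    intro x
    have h1 : diag (FF3 e g⁻¹) (diag (FF3 e g) x) = diag (FF3 e g⁻¹ * FF3 e g) x := rfl
    rw [h1, ← FF3_mul, inv_mul_cancel, FF3_one]
    rfl

theorem lower_sat {r : ℕ} (β : Fin r × Fin 4 ↪ Ω) (C : PNet (Ω × Ω) K)
    {acc : Set K}
    (hval : C.Decides acc (Mon2 Ω) (fun A => 3 ∣ sat2 A))
    (hsym : ∀ (v : Fin r) (x y z : Fin 4), x ≠ y → y ≠ z → x ≠ z →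
      C.SymmUnder (diag (cyc (β (v, x)) (β (v, y)) (β (v, z))))) :
    2 ^ (r / 1440) ≤ Fintype.card C.G := by
  classical
  by_cases hN : r / 3 < 480
  · have : r / 1440 = 0 := by omega
    rw [this, pow_zero]
    exact Fintype.card_pos_iff.mpr ⟨C.out⟩
  · push Not at hN
    obtain ⟨N, hNdef⟩ : ∃ N, N = r / 3 := ⟨_, rfl⟩
    rw [← hNdef] at hN
    obtain ⟨π, hπ⟩ := Pool.Agent.Helper600R2.exists_expander (n := N) (by omega)
    have hcard : Fintype.card (Ix3 N ⊕ Fin N) ≤ Fintype.card (Fin r) := by
      simp only [Fintype.card_sum, Fintype.card_prod, Fintype.card_fin, Fintype.card_bool]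
      omega
    obtain ⟨J⟩ := Function.Embedding.nonempty_of_card_le hcard
    obtain ⟨e, he1, he2, he3⟩ := exists_equiv3 β J
    have hall : ∀ g : Ix3 N → A4, g ∈ symG3 e C := by
      intro g
      apply Subgroup.pi_mem_of_mulSingle_mem
      intro v
      obtain ⟨a, ha⟩ := g v
      induction ha using Subgroup.closure_induction with
      | mem a ha' =>
        obtain ⟨x, y, z, h1, h2, h3, rfl⟩ := ha'
        show C.SymmUnder (diag (FF3 e (Pi.mulSingle v ⟨cyc x y z, _⟩)))
        have key : FF3 e (Pi.mulSingle v ⟨cyc x y z, Subgroup.subset_closure ⟨x, y, z, h1, h2, h3, rfl⟩⟩)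
            = cyc (β (J (Sum.inl v), x)) (β (J (Sum.inl v), y)) (β (J (Sum.inl v), z)) := by
          ext w
          obtain ⟨p, rfl⟩ := e.surjective w
          unfold FF3
          rw [Equiv.permCongr_apply, Equiv.symm_apply_apply]
          rcases p with ⟨i, s, b⟩ | ⟨i, l⟩ | δ
          · by_cases hv : (i, s) = v
            · subst hv
              have hf : Function.Injective (fun a : Fin 4 => β (J (Sum.inl (i, s)), a)) := by
                intro a a' haa
                have := β.injective haa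
                exact (Prod.mk.inj this).2
              have h4 := cyc_inj (fun a : Fin 4 => β (J (Sum.inl (i, s)), a)) hf x y z b
              show e (.cw i s (((Pi.mulSingle (i, s) ⟨cyc x y z, _⟩ : Ix3 N → A4)
                (i, s) : Equiv.Perm (Fin 4)) b)) = _
              rw [Pi.mulSingle_eq_same, he1, he1]
              exact h4.symm
            · have hne : ∀ a : Fin 4, e (.cw i s b) ≠ β (J (Sum.inl v), a) := by
                intro a haa
                rw [he1] at haa
                have h5 := (Prod.mk.inj (β.injective haa)).1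
                exact hv (Sum.inl.inj (J.injective h5))
              show e (.cw i s (((Pi.mulSingle v ⟨cyc x y z, _⟩ : Ix3 N → A4)
                (i, s) : Equiv.Perm (Fin 4)) b)) = _
              rw [Pi.mulSingle_eq_of_ne hv, cyc_ne _ _ _ _ (hne x) (hne y) (hne z)]
              rfl
          · have hne : ∀ a : Fin 4, e (.tok i l) ≠ β (J (Sum.inl v), a) := by
              intro a haa
              rw [he2] at haa
              have h5 := J.injective (Prod.mk.inj (β.injective haa)).1
              simp at h5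
            rw [cyc_ne _ _ _ _ (hne x) (hne y) (hne z)]
            rfl
          · have hne : ∀ a : Fin 4, e (.dum δ) ≠ β (J (Sum.inl v), a) := by
              intro a haa
              rw [he3] at haa
              exact δ.2 _ _ haa.symm
            rw [cyc_ne _ _ _ _ (hne x) (hne y) (hne z)]
            rfl
        have h6 := hsym (J (Sum.inl v)) x y z h1 h2 h3
        rw [← key] at h6
        exact h6
      | one =>
        have : (Pi.mulSingle v (⟨1, Subgroup.one_mem _⟩ : A4) : Ix3 N → A4) = 1 := Pi.mulSingle_one v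
        rw [this]
        exact Subgroup.one_mem _
      | mul a b ha hb iha ihb =>
        have e0 : (⟨a * b, Subgroup.mul_mem _ ha hb⟩ : A4) = (⟨a, ha⟩ : A4) * (⟨b, hb⟩ : A4) := rfl
        rw [e0, Pi.mulSingle_mul]
        exact Subgroup.mul_mem _ iha ihb
      | inv a ha iha =>
        have e0 : (⟨a⁻¹, Subgroup.inv_mem _ ha⟩ : A4) = (⟨a, ha⟩ : A4)⁻¹ := rfl
        rw [e0, Pi.mulSingle_inv]
        exact Subgroup.inv_mem _ iha
    have hmain := core_sat π hπ (r / 1440) (by omega) (by omega) e C hval (fun g => hall g)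
    exact hmain

end Pool.Agent.H870R2.PC
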