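import Pool.Agent.H870R2.LS.SDefs

set_option autoImplicit false
set_option linter.unusedSectionVars false

/-! Locally symmetric networks cannot tell the twisted 2-CNFs from the untwisted one. -/

namespace Pool.Agent.H870R2.PC

open Finset BigOperators H522R2.LS

variable {K Ω : Type} [Fintype Ω] [DecidableEq Ω] {N : ℕ} {Δ : Type} [Fintype Δ] [DecidableEq Δ]

/-- blocks -/
abbrev Ix3 (N : ℕ) : Type := Fin N × Bool

/-- blockwise action -/
def act3 (g : Ix3 N → Equiv.Perm (Fin 4)) : Equiv.Perm (Pos3 N Δ) where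
  toFun x := match x with
    | .cw i s a => .cw i s (g (i, s) a)
    | .tok i l => .tok i l
    | .dum δ => .dum δ
  invFun x := match x with
    | .cw i s a => .cw i s ((g (i, s)).symm a)
    | .tok i l => .tok i l
    | .dum δ => .dum δ
  left_inv x := by cases x <;> simp
  right_inv x := by cases x <;> simp

theorem act3_one : act3 (Δ := Δ) (1 : Ix3 N → Equiv.Perm (Fin 4)) = 1 := by
  ext x; cases x <;> rfl

theorem act3_mul (g h : Ix3 N → Equiv.Perm (Fin 4)) :
    act3 (Δ := Δ) (g * h) = act3 g * act3 h := by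
  ext x; cases x <;> rfl

theorem w3_gauge (ρ : Fin 3 → Equiv.Perm (Fin N)) (b b' : Fin N → Fin 3 → ZMod 2)
    (τ : Fin N → Bool → Fin 3)
    (hb : ∀ i t, b i t = b' i t + fl (τ i false) t + fl (τ (ρ t i) true) t)
    (x y : Pos3 N Δ) :
    w3 ρ b' (act3 (fun v => flp (τ v.1 v.2)) x) (act3 (fun v => flp (τ v.1 v.2)) y)
      = w3 ρ b x y := by
  have hin : ∀ (i : Fin N) (s : Bool) (i' : Fin N) (a a' : Fin 4),
      (i = i' ∧ flp (τ i s) a ≠ flp (τ i' s) a') ↔ (i = i' ∧ a ≠ a') := by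
    intro i s i' a a'
    constructor
    · rintro ⟨rfl, h⟩; exact ⟨rfl, fun h' => h (by rw [h'])⟩
    · rintro ⟨rfl, h⟩; exact ⟨rfl, fun h' => h ((flp _).injective h')⟩
  have hcr : ∀ (i i' : Fin N) (a a' : Fin 4),
      (∃ t, ρ t i' = i ∧ lab (flp (τ i' false) a') t + b' i' t ≠ lab (flp (τ i true) a) t) ↔
      (∃ t, ρ t i' = i ∧ lab a' t + b i' t ≠ lab a t) := by
    intro i i' a a'
    have h2 : ∀ u v w x y : ZMod 2, (u + x + v = w + y) ↔ (u + (v + x + y) = w) := by decide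
    refine exists_congr fun t => ?_
    constructor
    · rintro ⟨rfl, h⟩
      refine ⟨rfl, fun h' => h ?_⟩
      rw [lab_flp, lab_flp]
      rw [hb i' t] at h'
      exact (h2 _ _ _ _ _).mpr h'
    · rintro ⟨rfl, h⟩
      refine ⟨rfl, fun h' => h ?_⟩
      rw [lab_flp, lab_flp] at h'
      rw [hb i' t]
      exact (h2 _ _ _ _ _).mp h'
  have hadj : Ed ρ b' (act3 (fun v => flp (τ v.1 v.2)) x) (act3 (fun v => flp (τ v.1 v.2)) y)
      ↔ Ed ρ b x y := by
    rcases x with ⟨i, s, a⟩ | ⟨i, l⟩ | δ <;> rcases y with ⟨i', s', a'⟩ | ⟨i', l'⟩ | δ'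
    · cases s <;> cases s'
      · exact hin i false i' a a'
      · exact hcr i' i a' a
      · exact hcr i i' a a'
      · exact hin i true i' a a'
    · cases s <;> exact Iff.rfl
    · cases s <;> exact Iff.rfl
    · cases s' <;> exact Iff.rfl
    · exact Iff.rfl
    · exact Iff.rfl
    · cases s' <;> exact Iff.rfl
    · exact Iff.rfl
    · exact Iff.rfl
  unfold w3
  by_cases h : Ed ρ b x y
  · rw [if_pos h, if_pos (hadj.mpr h)]
  · rw [if_neg h, if_neg (fun h' => h (hadj.mp h'))]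

/-- the permutation of `Ω` given by even permutations of the blocks -/
def FF3 (e : Pos3 N Δ ≃ Ω) (g : Ix3 N → A4) : Equiv.Perm Ω :=
  e.permCongr (act3 (fun v => (g v : Equiv.Perm (Fin 4))))

theorem FF3_one (e : Pos3 N Δ ≃ Ω) : FF3 e 1 = 1 := by
  have h : act3 (Δ := Δ) (fun v : Ix3 N => ((1 : Ix3 N → A4) v : Equiv.Perm (Fin 4))) = 1 :=
    act3_one
  unfold FF3
  rw [h]
  ext x
  simp [Equiv.permCongr_apply]

theorem FF3_mul (e : Pos3 N Δ ≃ Ω) (g h : Ix3 N → A4) : FF3 e (g * h) = FF3 e g * FF3 e h := by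
  have h1 : act3 (Δ := Δ) (fun v : Ix3 N => ((g * h) v : Equiv.Perm (Fin 4)))
      = act3 (fun v => (g v : Equiv.Perm (Fin 4))) * act3 (fun v => (h v : Equiv.Perm (Fin 4))) :=
    act3_mul _ _
  unfold FF3
  rw [h1]
  ext x
  simp [Equiv.permCongr_apply]

/-- the permutations fixing a gate -/
def SS3 (e : Pos3 N Δ ≃ Ω) (C : PNet (Ω × Ω) K) (h : C.G) : Subgroup (Ix3 N → A4) where
  carrier := {g | ∃ p, C.IsAut p (diag (FF3 e g)) ∧ p h = h}
  one_mem' := ⟨1, by rw [FF3_one, diag_one]; exact PNet.IsAut.one C, rfl⟩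
  mul_mem' := by
    rintro g g' ⟨p, hp, hp'⟩ ⟨q, hq, hq'⟩
    refine ⟨p * q, ?_, ?_⟩
    · rw [FF3_mul, diag_mul]; exact hp.mul hq
    · rw [Equiv.Perm.mul_apply, hq', hp']
  inv_mem' := by
    rintro g ⟨p, hp, hp'⟩
    refine ⟨p⁻¹, hp.inv ?_, ?_⟩
    · intro x
      have h1 : diag (FF3 e g⁻¹) (diag (FF3 e g) x) = diag (FF3 e g⁻¹ * FF3 e g) x := rfl
      rw [h1, ← FF3_mul, inv_mul_cancel, FF3_one]
      rfl
    · rw [Equiv.Perm.inv_eq_iff_eq, hp']

theorem mem_SS3 (e : Pos3 N Δ ≃ Ω) (C : PNet (Ω × Ω) K) (h : C.G) (g : Ix3 N → A4) :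
    g ∈ SS3 e C h ↔ ∃ p, C.IsAut p (diag (FF3 e g)) ∧ p h = h := Iff.rfl

open Classical in
/-- the bad blocks of a gate -/
noncomputable def II3 (e : Pos3 N Δ ≃ Ω) (C : PNet (Ω × Ω) K) (h : C.G) : Finset (Ix3 N) :=
  univ.filter (fun v => ¬ ∀ a b : A4, Pi.mulSingle v (a * b * a⁻¹ * b⁻¹) ∈ SS3 e C h)

theorem notMem_II3 (e : Pos3 N Δ ≃ Ω) (C : PNet (Ω × Ω) K) (h : C.G) (v : Ix3 N) :
    v ∉ II3 e C h ↔ ∀ a b : A4, Pi.mulSingle v (a * b * a⁻¹ * b⁻¹) ∈ SS3 e C h := by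
  unfold II3
  simp

theorem isAut_inv3 (e : Pos3 N Δ ≃ Ω) (C : PNet (Ω × Ω) K) (g : Ix3 N → A4) (p : Equiv.Perm C.G)
    (hp : C.IsAut p (diag (FF3 e g))) : C.IsAut p⁻¹ (diag (FF3 e g⁻¹)) := by
  refine hp.inv ?_
  intro x
  have h1 : diag (FF3 e g⁻¹) (diag (FF3 e g) x) = diag (FF3 e g⁻¹ * FF3 e g) x := rfl
  rw [h1, ← FF3_mul, inv_mul_cancel, FF3_one]
  rfl

theorem II_sub3 (e : Pos3 N Δ ≃ Ω) (C : PNet (Ω × Ω) K) (h : C.G) (g : Ix3 N → A4) (p : Equiv.Perm C.G)
    (hp : C.IsAut p (diag (FF3 e g))) : II3 e C (p h) ⊆ II3 e C h := by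
  intro v hv
  by_contra hcon
  apply (notMem_II3 e C (p h) v).mpr _ hv
  rw [notMem_II3] at hcon
  intro a b
  have h1 := hcon ((g v)⁻¹ * a * g v) ((g v)⁻¹ * b * g v)
  obtain ⟨q, hq, hqh⟩ := h1
  have h2 : Pi.mulSingle v (a * b * a⁻¹ * b⁻¹) = g * Pi.mulSingle v
      (((g v)⁻¹ * a * g v) * ((g v)⁻¹ * b * g v) * ((g v)⁻¹ * a * g v)⁻¹ * ((g v)⁻¹ * b * g v)⁻¹) * g⁻¹ := by
    funext w
    simp only [Pi.mul_apply, Pi.inv_apply]
    by_cases hw : w = v
    · subst hw
      rw [Pi.mulSingle_eq_same, Pi.mulSingle_eq_same]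
      group
    · rw [Pi.mulSingle_eq_of_ne hw, Pi.mulSingle_eq_of_ne hw]
      group
  rw [h2]
  refine ⟨p * q * p⁻¹, ?_, ?_⟩
  · rw [FF3_mul, FF3_mul, diag_mul, diag_mul]
    exact (hp.mul hq).mul (isAut_inv3 e C g p hp)
  · rw [Equiv.Perm.mul_apply, Equiv.Perm.mul_apply]
    have : p⁻¹ (p h) = h := by simp
    rw [this, hqh]

theorem II_inv3 (e : Pos3 N Δ ≃ Ω) (C : PNet (Ω × Ω) K) (h : C.G) (g : Ix3 N → A4) (p : Equiv.Perm C.G)
    (hp : C.IsAut p (diag (FF3 e g))) : II3 e C (p h) = II3 e C h := by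
  apply Finset.Subset.antisymm (II_sub3 e C h g p hp)
  have h1 := II_sub3 e C (p h) g⁻¹ p⁻¹ (isAut_inv3 e C g p hp)
  have : p⁻¹ (p h) = h := by simp
  rwa [this] at h1

/-- bad vertices -/
noncomputable def DD3 (e : Pos3 N Δ ≃ Ω) (C : PNet (Ω × Ω) K) (h : C.G) : Finset (Fin N) :=
  (II3 e C h).image Prod.fst

theorem notMem_DD3 (e : Pos3 N Δ ≃ Ω) (C : PNet (Ω × Ω) K) (h : C.G) (i : Fin N) (hi : i ∉ DD3 e C h)
    (s : Bool) (a b : A4) : Pi.mulSingle (i, s) (a * b * a⁻¹ * b⁻¹) ∈ SS3 e C h := by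
  have : (i, s) ∉ II3 e C h := by
    intro hm
    exact hi (Finset.mem_image.mpr ⟨_, hm, rfl⟩)
  exact (notMem_II3 e C h _).mp this a b

theorem card_DD3 (e : Pos3 N Δ ≃ Ω) (C : PNet (Ω × Ω) K) (hsym : ∀ g : Ix3 N → A4, C.SymmUnder (diag (FF3 e g)))
    (k : ℕ) (hk : Fintype.card C.G < 2 ^ k) (h : C.G) : (DD3 e C h).card ≤ 2 * k := by
  classical
  have hsym' : ∀ g : Ix3 N → A4, ∃ p, C.IsAut p (diag (FF3 e g)) :=
    fun g => hsym g
  choose q hq using hsym'
  obtain ⟨I, hI, hI2⟩ := support (SS3 e C h) (fun g => q g h) (by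
    intro g g' hgg
    refine ⟨(q g)⁻¹ * q g', ?_, ?_⟩
    · rw [FF3_mul, diag_mul]
      exact (isAut_inv3 e C g (q g) (hq g)).mul (hq g')
    · rw [Equiv.Perm.mul_apply, Equiv.Perm.inv_eq_iff_eq]
      exact hgg.symm) k hk
  refine le_trans Finset.card_image_le (le_trans (Finset.card_le_card ?_) hI)
  intro v hv
  by_contra hcon
  exact (notMem_II3 e C h v).mpr (hI2 v hcon) hv

/-- the gauge element of a move from `i` to `j` of type `t` is available -/
theorem move_one3 (e : Pos3 N Δ ≃ Ω) (C : PNet (Ω × Ω) K) (h : C.G)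
    (ρ : Fin 3 → Equiv.Perm (Fin N)) (h0 : ρ 0 = 1) (i j : Fin N) (t : Fin 3) (hij : ρ t i = j)
    (hi : i ∉ DD3 e C h) (hj : j ∉ DD3 e C h) :
    ∃ g ∈ SS3 e C h, ∀ v : Ω × Ω, w3 ρ (tw i) (e.symm (diag (FF3 e g) v).1) (e.symm (diag (FF3 e g) v).2)
      = w3 ρ (tw j) (e.symm v.1) (e.symm v.2) := by
  classical
  obtain ⟨a, b, hab⟩ := flp_comm t
  obtain ⟨a0, b0, hab0⟩ := flp_comm 0
  have hflp0 : flp 0 = 1 := rfl
  let τ : Fin N → Bool → Fin 3 := fun k s => if s = false then (if k = i then t else 0)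
    else (if k = j then t else 0)
  let g : Ix3 N → A4 := fun v => if (v.2 = false ∧ v.1 = i) ∨ (v.2 = true ∧ v.1 = j)
    then a * b * a⁻¹ * b⁻¹ else 1
  have hg : ∀ v, (g v : Equiv.Perm (Fin 4)) = flp (τ v.1 v.2) := by
    rintro ⟨k, s⟩
    simp only [g, τ]
    cases s
    · by_cases hk : k = i
      · simp only [hk, and_self, true_or, if_true]
        exact hab
      · simp [hk, hflp0]
    · by_cases hk : k = j
      · simp only [hk, and_self, or_true, if_true]
        simpa using hab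
      · simp [hk, hflp0]
  refine ⟨g, ?_, ?_⟩
  · apply Subgroup.pi_mem_of_mulSingle_mem
    rintro ⟨k, s⟩
    by_cases hc : (s = false ∧ k = i) ∨ (s = true ∧ k = j)
    · have : g (k, s) = a * b * a⁻¹ * b⁻¹ := if_pos hc
      rw [this]
      rcases hc with ⟨_, rfl⟩ | ⟨_, rfl⟩
      · exact notMem_DD3 e C h k hi s a b
      · exact notMem_DD3 e C h k hj s a b
    · have : g (k, s) = 1 := if_neg hc
      rw [this, Pi.mulSingle_one]
      exact Subgroup.one_mem _
  · intro v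
    have hgg : (fun v => (g v : Equiv.Perm (Fin 4))) = (fun v : Ix3 N => flp (τ v.1 v.2)) := funext hg
    have h1 : ∀ x : Ω, e.symm (FF3 e g x) = act3 (fun v : Ix3 N => flp (τ v.1 v.2)) (e.symm x) := by
      intro x
      unfold FF3
      rw [hgg, Equiv.permCongr_apply, Equiv.symm_apply_apply]
    show w3 ρ (tw i) (e.symm (FF3 e g v.1)) (e.symm (FF3 e g v.2)) = _
    rw [h1, h1]
    apply w3_gauge
    intro k t'
    have h2 : τ k false = if k = i then t else 0 := by simp [τ]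
    have h3 : τ (ρ t' k) true = if ρ t' k = j then t else 0 := by simp [τ]
    rw [h2, h3]
    exact tw_move ρ h0 i j t hij k t'

theorem move_all3 (e : Pos3 N Δ ≃ Ω) (C : PNet (Ω × Ω) K) (h : C.G)
    (π : Equiv.Perm (Fin N)) (i j : Fin N) (hij : Relation.EqvGen (adj π (DD3 e C h)) i j) :
    ∃ g ∈ SS3 e C h, ∀ v : Ω × Ω,
      w3 (rho π) (tw i) (e.symm (diag (FF3 e g) v).1) (e.symm (diag (FF3 e g) v).2)
      = w3 (rho π) (tw j) (e.symm v.1) (e.symm v.2) := by
  induction hij with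
  | rel i j hij =>
    obtain ⟨h1, h2, t, h3⟩ := hij
    exact move_one3 e C h (rho π) rfl i j t h3 h1 h2
  | refl i =>
    refine ⟨1, Subgroup.one_mem _, fun v => ?_⟩
    rw [FF3_one]
    rfl
  | symm i j _ ih =>
    obtain ⟨g, hg, h1⟩ := ih
    refine ⟨g⁻¹, Subgroup.inv_mem _ hg, fun v => ?_⟩
    rw [← h1]
    have h2 : diag (FF3 e g) (diag (FF3 e g⁻¹) v) = v := by
      have : diag (FF3 e g) (diag (FF3 e g⁻¹) v) = diag (FF3 e g * FF3 e g⁻¹) v := rfl
      rw [this, ← FF3_mul, mul_inv_cancel, FF3_one]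
      rfl
    rw [h2]
  | trans i j k _ _ ih1 ih2 =>
    obtain ⟨g, hg, h1⟩ := ih1
    obtain ⟨g', hg', h2⟩ := ih2
    refine ⟨g * g', Subgroup.mul_mem _ hg hg', fun v => ?_⟩
    rw [FF3_mul, ← h2, ← h1]
    rfl


/-- **Core.** -/
theorem core_eq3 (π : Equiv.Perm (Fin N))
    (hπ : ∀ U : Finset (Fin N), N ≤ 3 * U.card → 3 * U.card ≤ 2 * N →
      N / 60 < (Pool.Agent.Helper600R2.bd (finRotate N) U).card ∨
      N / 60 < (Pool.Agent.Helper600R2.bd π U).card)
    (k : ℕ) (hN : 2 ≤ N) (hk : 480 * k ≤ N) (e : Pos3 N Δ ≃ Ω) (C : PNet (Ω × Ω) K)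
    (hsym : ∀ g : Ix3 N → A4, C.SymmUnder (diag (FF3 e g))) (hlt : Fintype.card C.G < 2 ^ k) :
    ∃ i : Fin N, C.val (fun v => w3 (rho π) (tw i) (e.symm v.1) (e.symm v.2)) C.out =
      C.val (fun v => w3 (rho π) (fun _ _ => 0) (e.symm v.1) (e.symm v.2)) C.out := by
  classical
  have hcard := card_DD3 e C hsym k hlt
  let M : Fin N → (Ω × Ω) → ℕ :=
    fun i v => w3 (rho π) (tw i) (e.symm v.1) (e.symm v.2)
  let M0 : (Ω × Ω) → ℕ :=
    fun v => w3 (rho π) (fun _ _ => 0) (e.symm v.1) (e.symm v.2)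
  have hne : ∀ g h, (core π (DD3 e C g ∪ DD3 e C h)).Nonempty := by
    intro g h
    apply core_nonempty (by omega) π hπ
    have h1 := Finset.card_union_le (DD3 e C g) (DD3 e C h)
    have h2 := hcard g
    have h3 := hcard h
    omega
  have hgame := pgame C M M0 (DD3 e C) (core π) hne (fun g h => core_mono π _ _)
    (by
      intro g i hi i' hi'
      obtain ⟨g0, ⟨p, hp, hpg⟩, h1⟩ := move_all3 e C g π i i' (core_conn π _ i i' hi hi')
      refine ⟨p, _, hp, hpg, ?_, ?_⟩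
      · intro h
        unfold DD3
        rw [II_inv3 e C h g0 p hp]
      · funext v
        exact h1 v)
    (by
      intro g x hx i hi
      have hiD := core_notMem hN π _ i hi
      by_contra hne
      have h1 : ∃ a a', x = (e (.cw i true a), e (.cw i false a')) ∨
          x = (e (.cw i false a'), e (.cw i true a)) := by
        by_contra hcon
        apply hne
        show w3 (rho π) (tw i) (e.symm x.1) (e.symm x.2)
          = w3 (rho π) (fun _ _ => 0) (e.symm x.1) (e.symm x.2)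
        have hcr : ∀ (i1 i2 : Fin N) (a1 a2 : Fin 4), ¬ (i1 = i ∧ i2 = i) →
            ((∃ t, rho π t i2 = i1 ∧ lab a2 t + tw i i2 t ≠ lab a1 t) ↔
              ∃ t, rho π t i2 = i1 ∧ lab a2 t + 0 ≠ lab a1 t) := by
          intro i1 i2 a1 a2 hnn
          refine exists_congr fun t => ?_
          by_cases hc : i2 = i ∧ t = 0
          · obtain ⟨rfl, rfl⟩ := hc
            have h3 : rho π 0 i2 = i2 := rfl
            rw [h3]
            constructor
            · rintro ⟨h4, _⟩; exact absurd ⟨h4.symm, rfl⟩ hnn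
            · rintro ⟨h4, _⟩; exact absurd ⟨h4.symm, rfl⟩ hnn
          · have : tw i i2 t = 0 := if_neg hc
            rw [this]
        have hadj : Ed (rho π) (tw i) (e.symm x.1) (e.symm x.2)
            ↔ Ed (rho π) (fun _ _ => 0) (e.symm x.1) (e.symm x.2) := by
          rcases hx1 : e.symm x.1 with ⟨i1, s1, a1⟩ | ⟨i1, l1⟩ | δ1 <;>
            rcases hx2 : e.symm x.2 with ⟨i2, s2, a2⟩ | ⟨i2, l2⟩ | δ2
          · rcases s1 with _ | _ <;> rcases s2 with _ | _
            · exact Iff.rfl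
            · refine hcr i2 i1 a2 a1 ?_
              rintro ⟨rfl, rfl⟩
              refine hcon ⟨a2, a1, Or.inr ?_⟩
              rw [Equiv.symm_apply_eq] at hx1 hx2
              rw [Prod.ext_iff]
              exact ⟨hx1, hx2⟩
            · refine hcr i1 i2 a1 a2 ?_
              rintro ⟨rfl, rfl⟩
              refine hcon ⟨a1, a2, Or.inl ?_⟩
              rw [Equiv.symm_apply_eq] at hx1 hx2
              rw [Prod.ext_iff]
              exact ⟨hx1, hx2⟩
            · exact Iff.rfl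
          · cases s1 <;> exact Iff.rfl
          · cases s1 <;> exact Iff.rfl
          · cases s2 <;> exact Iff.rfl
          · exact Iff.rfl
          · exact Iff.rfl
          · cases s2 <;> exact Iff.rfl
          · exact Iff.rfl
          · exact Iff.rfl
        unfold w3
        by_cases h : Ed (rho π) (tw i) (e.symm x.1) (e.symm x.2)
        · rw [if_pos h, if_pos (hadj.mp h)]
        · rw [if_neg h, if_neg (fun h' => h (hadj.mpr h'))]
      obtain ⟨a, a', h1⟩ := h1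
      obtain ⟨c', d, hcd⟩ := flp_comm 1
      obtain ⟨p, hp, hpg⟩ := notMem_DD3 e C g i hiD false c' d
      have h2 := hp.inp g
      rw [hpg, hx] at h2
      simp only [Option.map_some, Option.some.injEq, H522R2.LS.diag] at h2
      have h3 : e (.cw i false a') =
          FF3 e (Pi.mulSingle (i, false) (c' * d * c'⁻¹ * d⁻¹)) (e (.cw i false a')) := by
        rcases h1 with rfl | rfl
        · exact (Prod.mk.inj h2).2
        · exact (Prod.mk.inj h2).1
      unfold FF3 at h3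
      rw [Equiv.permCongr_apply, Equiv.symm_apply_apply] at h3
      have h4 := e.injective h3
      have h5 : act3 (fun v => ((Pi.mulSingle (i, false) (c' * d * c'⁻¹ * d⁻¹) : Ix3 N → A4) v :
          Equiv.Perm (Fin 4))) (.cw i false a' : Pos3 N Δ) = .cw i false (flp 1 a') := by
        show Pos3.cw i false (((Pi.mulSingle (i, false) (c' * d * c'⁻¹ * d⁻¹) : Ix3 N → A4)
          (i, false) : Equiv.Perm (Fin 4)) a') = _
        rw [Pi.mulSingle_eq_same, hcd]
      rw [h5] at h4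
      simp only [Pos3.cw.injEq] at h4
      have h6 : ∀ a' : Fin 4, a' ≠ flp 1 a' := by decide
      exact h6 a' h4.2.2)
  obtain ⟨i, hi⟩ := hne C.out C.out
  rw [Finset.union_self] at hi
  exact ⟨i, hgame (C.rk C.out) C.out rfl i hi⟩

end Pool.Agent.H870R2.PC
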