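import Pool.Agent.H870R2.LS.Defs2

set_option autoImplicit false
set_option linter.unusedSectionVars false

/-! Blueprint (statements only) for the local symmetry theorem for path systems. -/

namespace Pool.Agent.H870R2.LS.Stub

open Finset

section walk
variable {Q : Type*} [Fintype Q]

/-- WALK -/
theorem walks_add (A : Q → Q → ℕ) (k l : ℕ) (a b : Q) :
    walks A (k + l) a b = ∑ c, walks A k a c * walks A l c b := by
  sorry

/-- WALK -/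
theorem walks_det (A A' : Q → Q → ℕ) (e e' : Q × Q → ℕ)
    (h : ∀ k < 2 * Fintype.card Q, ∑ q : Q × Q, e q * walks A k q.1 q.2 =
      ∑ q : Q × Q, e' q * walks A' k q.1 q.2) (k : ℕ) :
    ∑ q : Q × Q, e q * walks A k q.1 q.2 = ∑ q : Q × Q, e' q * walks A' k q.1 q.2 := by
  sorry

/-- WALK -/
theorem walks_pos (A : Q → Q → ℕ) (a b : Q) :
    (∃ k, 0 < walks A k a b) ↔ Relation.ReflTransGen (fun c d => 0 < A c d) a b := by
  sorry

end walk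

/-- MAT -/
theorem exists_spread (H n K θ s : ℕ) (hH : 0 < H)
    (hs : 5 * (H * (n + 1) * (n + 1)) ≤ 5 ^ s) (hn : s * (K + θ) < n + 1) :
    ∃ M, Spread H n K θ M := by
  sorry

section lie
variable {H n : ℕ} (M : ℕ → Fin (n + 1) → Fin (n + 1) → ZMod 5)

/-- LIE -/
theorem lie_sum (e : Pla H n → ZMod 5) (i : ℕ) (u : Fin (n + 1) → ZMod 5) :
    ∑ v, e v * Lie M i u v = ∑ c, Yv M (ext e) i c * u c := by
  sorry

/-- LIE -/
theorem lie_row (i : ℕ) (u : Fin (n + 1) → ZMod 5) (v : Pla H n) (hv : i ≤ v.1.val) :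
    Lie M i u v = if v.1.val = i ∧ v.2.2 = Fin.last n then u v.2.1 else 0 := by
  sorry

/-- LIE -/
theorem curv_lie (i : ℕ) (u : Fin (n + 1) → ZMod 5) (v : Pla H n) :
    Curv M (Lie M i u) v = if v.1.val = i ∧ v.2.2 = Fin.last n then u v.2.1 else 0 := by
  sorry

/-- LIE -/
theorem lie_step (σ : ℕ) (hM : Spread H n (σ + 1) (σ + 1) M) (i : ℕ) (hi : i + 1 < H)
    (u : Fin (n + 1) → ZMod 5) (z : Pla H n) (hz : z.2.2 = Fin.last n)
    (S S' : Finset (Pla H n)) (hS : S.card ≤ σ) (hS' : S'.card ≤ σ)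
    (hu : ∀ v ∈ S, v.1.val = i → u v.2.1 = 0) :
    ∃ u' : Fin (n + 1) → ZMod 5, Lie M (i + 1) u' z = Lie M i u z ∧
      (∀ v ∈ S', v.1.val = i + 1 → u' v.2.1 = 0) ∧
      ∀ v ∈ S, Lie M (i + 1) u' v = Lie M i u v := by
  sorry

end lie

section inst
variable {V : Type*} {H n : ℕ} (M : ℕ → Fin (n + 1) → Fin (n + 1) → ZMod 5)
  (el : Pla H n → ZMod 5 → V) (t : V) (z : Pla H n)

/-- INST -/
theorem inst_yes : Der (inst M el t z 0 0) t := by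
  sorry

/-- INST -/
theorem inst_no (hel : ∀ v a v' a', el v a = el v' a' → v = v' ∧ a = a')
    (ht : ∀ v a, el v a ≠ t) : ¬ Der (inst M el t z 0 1) t := by
  sorry

/-- INST -/
theorem inst_act (δ : Pla H n → ZMod 5) (p : Equiv.Perm V)
    (hp : ∀ v a, p (el v a) = el v (a + δ v)) (hpt : p t = t)
    (κ : Pla H n → ZMod 5) (κt : ZMod 5) (y : Inp V) :
    inpPerm p y ∈ inst M el t z (κ + Curv M δ) (κt + δ z) ↔ y ∈ inst M el t z κ κt := by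
  sorry

/-- INST -/
theorem inst_diff (κ κ' : Pla H n → ZMod 5) (κt : ZMod 5) (y : Inp V)
    (h : ¬ (y ∈ inst M el t z κ κt ↔ y ∈ inst M el t z κ' κt)) :
    ∃ v a, κ v ≠ κ' v ∧ ∀ p : Equiv.Perm V, inpPerm p y = y → p (el v a) = el v a := by
  sorry

end inst

/-- SYM -/
theorem symmetrize {V Q : Type} [Fintype V] [Fintype Q] (C : Ckt (Inp V) Q) (t : V)
    (hC : ∀ x, C.val x C.out = true ↔ Der x t) (r : ℕ) (blk : Fin r → (Fin 5 ↪ V))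
    (hd : Pairwise fun i j => Disjoint (Set.range (blk i)) (Set.range (blk j)))
    (ht : ∀ i, t ∉ Set.range (blk i)) :
    ∃ (Q' : Type) (_ : Fintype Q') (C' : Ckt (Inp V) Q'),
      (∀ x, C'.val x C'.out = true ↔ Der x t) ∧ (∀ i, C'.SymOn (blk i)) ∧
      Fintype.card Q' = 60 ^ r * Fintype.card Q + 1 ∧ C'.rank C'.out = C.rank C.out + 1 := by
  sorry

/-- SYMN -/
theorem symmetrize_net {V Q : Type} [Fintype V] [Fintype Q] (N : SNet (Inp V) Q) (t : V)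
    (hN : ∀ x, N.Acc x ↔ Der x t) (r : ℕ) (blk : Fin r → (Fin 5 ↪ V))
    (hd : Pairwise fun i j => Disjoint (Set.range (blk i)) (Set.range (blk j)))
    (ht : ∀ i, t ∉ Set.range (blk i)) :
    ∃ (Q' : Type) (_ : Fintype Q') (N' : SNet (Inp V) Q'),
      (∀ x, N'.Acc x ↔ Der x t) ∧ (∀ i, N'.SymOn (blk i)) ∧
      Fintype.card Q' = 60 ^ r * Fintype.card Q + 2 := by
  sorry

/-- POLY -/
theorem poly {V : Type} [Fintype V] (t : V) :
    ∃ (Q : Type) (_ : Fintype Q) (C : Ckt (Inp V) Q),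
      (∀ x, C.val x C.out = true ↔ Der x t) ∧
      (∀ g N N', N 1 = N' 1 → C.F g N = C.F g N') ∧
      (∀ p : Equiv.Perm V, p t = t → ∃ φ, C.IsAut (inpPerm p) φ) ∧
      Fintype.card Q ≤ (Fintype.card V + 1) ^ 4 ∧ C.rank C.out ≤ 2 * Fintype.card V := by
  sorry

/-- NET: every switching network is a circuit with one gate -/
theorem net_ckt {V Q : Type} [Fintype V] [Fintype Q] (N : SNet (Inp V) Q) :
    ∃ C : Ckt (Inp V) Q, C.out = N.src ∧ C.rank C.out = 0 ∧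
      (∀ x, C.val x C.out = true ↔ N.Acc x) ∧
      ∀ (p : Equiv.Perm (Inp V)) (φ : Equiv.Perm Q), N.IsAut p φ → C.IsAut p φ := by
  sorry

/-- GAME -/
theorem game {I Q W Cfg : Type*} [Fintype I] [Fintype Q] (C : Ckt I Q) (G : Cfg → Set I)
    (P : (W → ZMod 5) → Equiv.Perm I) (hPadd : ∀ δ δ', P (δ + δ') = P δ * P δ')
    (act : (W → ZMod 5) → Cfg → Cfg) (hG : ∀ δ κ i, P δ i ∈ G (act δ κ) ↔ i ∈ G κ)
    (Hid : ℕ → Finset W → Cfg → Cfg → Prop)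
    (hmono : ∀ j j' S κ κ', j' ≤ j → Hid j S κ κ' → Hid j' S κ κ') (σ : ℕ)
    (hP1 : ∀ j S S' κ κ', Hid (j + 1) S κ κ' → S.card ≤ σ → S'.card ≤ σ →
      ∃ δ : W → ZMod 5, (∀ v ∈ S, δ v = 0) ∧ Hid j S' (act δ κ) κ')
    (hP0 : ∀ j S κ κ' i, Hid j S κ κ' →
      (∀ δ : W → ZMod 5, (∀ v ∈ S, δ v = 0) → P δ i = i) → (i ∈ G κ ↔ i ∈ G κ'))
    (hsQ : ∀ T : Fin 4 → Q, ∃ S : Finset W, S.card ≤ σ ∧ ∀ δ : W → ZMod 5,
      (∀ v ∈ S, δ v = 0) → ∃ φ, C.IsAut (P δ) φ ∧ ∀ j, φ (T j) = T j)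
    (hsI : ∀ (T : Fin 3 → Q) (i : I), ∃ S : Finset W, S.card ≤ σ ∧ ∀ δ : W → ZMod 5,
      (∀ v ∈ S, δ v = 0) → (∃ φ, C.IsAut (P δ) φ ∧ ∀ j, φ (T j) = T j) ∧ P δ i = i)
    (m : ℕ) (hm : 2 * Fintype.card Q ≤ 2 ^ m ∨
      ∀ g N N', (∀ j ≤ 2 ^ m, N j = N' j) → C.F g N = C.F g N')
    (g : Q) (S : Finset W) (κ κ' : Cfg) (h : Hid ((C.rank g + 1) * (m + 2)) S κ κ')
    (hS : S.card ≤ σ)
    (hSg : ∀ δ : W → ZMod 5, (∀ v ∈ S, δ v = 0) → ∃ φ, C.IsAut (P δ) φ ∧ φ g = g) :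
    C.val (G κ) g = C.val (G κ') g := by
  sorry

/-- MAIN -/
theorem lower {V Q : Type} [Fintype V] [Fintype Q] (C : Ckt (Inp V) Q) (t : V)
    (hC : ∀ x, C.val x C.out = true ↔ Der x t) (r : ℕ) (blk : Fin r → (Fin 5 ↪ V))
    (hd : Pairwise fun i j => Disjoint (Set.range (blk i)) (Set.range (blk j)))
    (ht : ∀ i, t ∉ Set.range (blk i)) (hs : ∀ i, C.SymOn (blk i)) (k : ℕ) (hk : 1 ≤ k)
    (hr : 3000 * (C.rank C.out + 1) * k ^ 3 * (Nat.log 5 r + 2) ^ 2 ≤ r) :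
    5 ^ k ≤ Fintype.card Q := by
  sorry

/-- MAIN: circuits of counting gates -/
theorem lower_count {V Q : Type} [Fintype V] [Fintype Q] (C : Ckt (Inp V) Q) (t : V)
    (hF : ∀ g N N', N 1 = N' 1 → C.F g N = C.F g N')
    (hC : ∀ x, C.val x C.out = true ↔ Der x t) (r : ℕ) (blk : Fin r → (Fin 5 ↪ V))
    (hd : Pairwise fun i j => Disjoint (Set.range (blk i)) (Set.range (blk j)))
    (ht : ∀ i, t ∉ Set.range (blk i)) (hs : ∀ i, C.SymOn (blk i)) (k : ℕ) (hk : 1 ≤ k)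
    (hr : 1500 * (C.rank C.out + 1) * k ^ 2 * (Nat.log 5 r + 2) ^ 2 ≤ r) :
    5 ^ k ≤ Fintype.card Q := by
  sorry

end Pool.Agent.H870R2.LS.Stub
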