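import Pool.Agent.H870R2.LS.PDefs
import Pool.Agent.H870R2.LS.SCDefs

set_option autoImplicit false
set_option linter.unusedSectionVars false

/-! Blueprint 2 (statements only): pushdown networks; small width circuits. -/

namespace Pool.Agent.H870R2.LS.Stub2

section tree
variable {F : Type*} {leaf : F → Prop} {rule : F → F → F → Prop}

/-- SPLIT -/
theorem tr_pos {n : ℕ} {a : F} (h : Tr leaf rule n a) : 1 ≤ n := by
  sorry

/-- SPLIT -/
theorem tr_one {a : F} (h : Tr leaf rule 1 a) : leaf a := by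
  sorry

/-- SPLIT -/
theorem trH_zero {a p : F} (h : TrH leaf rule 0 a p) : a = p := by
  sorry

/-- SPLIT -/
theorem trH_comp {n m : ℕ} {a p q : F} (h : TrH leaf rule n a p) (h' : TrH leaf rule m p q) :
    TrH leaf rule (n + m) a q := by
  sorry

/-- SPLIT -/
theorem tr_fill {n m : ℕ} {a p : F} (h : TrH leaf rule n a p) (h' : Tr leaf rule m p) :
    Tr leaf rule (n + m) a := by
  sorry

/-- SPLIT -/
theorem tr_split {n : ℕ} {a : F} (h : Tr leaf rule n a) (hn : 2 ≤ n) :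
    ∃ p n1 n2, TrH leaf rule n1 a p ∧ Tr leaf rule n2 p ∧ n1 + n2 = n ∧
      3 * n1 ≤ 2 * n ∧ 3 * n2 ≤ 2 * n := by
  sorry

/-- SPLIT -/
theorem trH_split {n : ℕ} {a p : F} (h : TrH leaf rule n a p) (hn : 1 ≤ n) :
    ∃ v b c n1 n2 n3, TrH leaf rule n1 a v ∧ rule v b c ∧ n1 + n2 + n3 = n ∧
      2 * n1 ≤ n ∧ 2 * n2 ≤ n ∧
      ((TrH leaf rule n2 b p ∧ Tr leaf rule n3 c) ∨
        (Tr leaf rule n3 b ∧ TrH leaf rule n2 c p)) := by
  sorry

/-- SPLIT (equivariance) -/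
theorem tr_map {F' : Type*} {leaf' : F' → Prop} {rule' : F' → F' → F' → Prop} (f : F → F')
    (h1 : ∀ a, leaf a → leaf' (f a)) (h2 : ∀ a b c, rule a b c → rule' (f a) (f b) (f c))
    {n : ℕ} {a : F} (h : Tr leaf rule n a) : Tr leaf' rule' n (f a) := by
  sorry

/-- SPLIT (equivariance) -/
theorem trH_map {F' : Type*} {leaf' : F' → Prop} {rule' : F' → F' → F' → Prop} (f : F → F')
    (h1 : ∀ a, leaf a → leaf' (f a)) (h2 : ∀ a b c, rule a b c → rule' (f a) (f b) (f c))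
    {n : ℕ} {a p : F} (h : TrH leaf rule n a p) : TrH leaf' rule' n (f a) (f p) := by
  sorry

end tree

/-- PDA -/
theorem run_tr {I Q : Type*} (N : PNet I Q) (x : Set I) (n : ℕ) (a b : Q)
    (h : N.Run x n (a, []) (b, [])) :
    ∃ m ≤ n + 1, Tr pLeaf (pRule N x) m (a, b) := by
  sorry

/-- PDA -/
theorem tr_run {I Q : Type*} (N : PNet I Q) (x : Set I) (m : ℕ) (q : Q × Q)
    (h : Tr pLeaf (pRule N x) m q) : ∃ n, N.Run x n (q.1, []) (q.2, []) := by
  sorry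

/-- UPP -/
theorem pda_poly {V : Type} [Fintype V] (t : V) :
    ∃ (Q : Type) (_ : Fintype Q) (N : PNet (Inp V) Q),
      (∀ x, (∃ n, N.AccIn x n) ↔ Der x t) ∧
      (∀ p : Equiv.Perm V, p t = t → ∃ φ, N.IsAut (inpPerm p) φ) ∧
      Fintype.card Q ≤ (Fintype.card V + 1) ^ 2 := by
  sorry

/-- SYMP -/
theorem symmetrize_pda {V Q : Type} [Fintype V] [Fintype Q] (N : PNet (Inp V) Q) (t : V)
    (hN : ∀ x, (∃ n, N.AccIn x n) ↔ Der x t) (r : ℕ) (blk : Fin r → (Fin 5 ↪ V))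
    (hd : Pairwise fun i j => Disjoint (Set.range (blk i)) (Set.range (blk j)))
    (ht : ∀ i, t ∉ Set.range (blk i)) :
    ∃ (Q' : Type) (_ : Fintype Q') (N' : PNet (Inp V) Q'),
      (∀ x, (∃ n, N'.AccIn x n) ↔ Der x t) ∧
      (∀ x n, N.AccIn x n → N'.AccIn x (n + 2)) ∧ (∀ i, N'.SymOn (blk i)) ∧
      Fintype.card Q' = 60 ^ r * Fintype.card Q + 2 := by
  sorry

/-- SCUP: layered circuits of width `O(n)` for the template function -/
theorem sc_upper (H n : ℕ) (h : 0 < H) :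
    ∃ (Q : Type) (_ : Fintype Q) (C : LCkt (Inp (TEl H n)) Q),
      (∀ x, C.Val x C.out ↔ Tem H n h x) ∧
      (∀ g, (C.ins g).ncard ≤ 25) ∧
      (∀ j, {g | C.lay g = j}.ncard ≤ 150 * (n + 1)) ∧
      (∀ g, C.lay g ≤ 2 * H * (n + 1) + 2) ∧
      (∀ (v : Pla H n) (a : Equiv.Perm (Fin 5)) (p : Equiv.Perm (TEl H n)),
        (∀ c, p (tblk v c) = tblk v (a c)) → (∀ u, u ∉ Set.range (tblk v) → p u = u) →
        ∃ φ, C.IsAut (inpPerm p) φ) := by
  sorry

end Pool.Agent.H870R2.LS.Stub2
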