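import Pool.Agent.H870R2.LS.TDefs

set_option autoImplicit false
set_option linter.unusedSectionVars false

/-! Blueprint 3 (statements only): tree evaluation, shallow circuits. -/

namespace Pool.Agent.H870R2.LS.Stub3

/-- DODGE -/
theorem dodge (ρ D : ℕ) (hD : ρ < 2 ^ D) (c x : ℕ) (hx : 1 ≤ x) (b : ℕ) (S Rd : ℕ → Finset ℕ)
    (hS : ∀ t, (S t).card ≤ c) (hR : ∀ t, (Rd t).card ≤ ρ) :
    ∃ v : ℕ → ℕ, (∀ t ≤ b, v t / 2 ^ (2 * c + D) = x ∧ ∀ y ∈ Rd t, ¬ anc (v t) y) ∧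
      (∀ t < b, ∀ y ∈ S (t + 1), (anc y (v t) ↔ anc y (v (t + 1)))) := by
  sorry

/-- SUPQ -/
theorem trans_even {q : ℕ} [NeZero q] (hq : Odd q) (a : ZMod q) :
    (Equiv.addRight a : Equiv.Perm (ZMod q)) ∈ alternatingGroup (ZMod q) := by
  sorry

/-- SUPQ: subgroups of small index of a power of `A_q` contain almost all factors -/
theorem support_q {q r : ℕ} [NeZero q] (hq : 5 ≤ q)
    (H : Subgroup (Fin r → alternatingGroup (ZMod q))) {Gt : Type*} [Fintype Gt]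
    (F : (Fin r → alternatingGroup (ZMod q)) → Gt) (hF : ∀ γ γ', F γ = F γ' → γ⁻¹ * γ' ∈ H)
    (m : ℕ) (hm : Fintype.card Gt < q ^ m) :
    ∃ S : Finset (Fin r), S.card < 2 * m ∧ ∀ j ∉ S, ∀ a, Pi.mulSingle j a ∈ H := by
  sorry

/-- SUPQ: supports of tuples of gates -/
theorem sup_exists {V Q : Type} [Fintype Q] {q r : ℕ} [NeZero q] (hq : 5 ≤ q) (hodd : Odd q)
    (C : Ckt (Inp V) Q) (blk : Fin r → (ZMod q ↪ V))
    (hd : Pairwise fun i j => Disjoint (Set.range (blk i)) (Set.range (blk j)))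
    (hs : ∀ i, C.SymOnT (blk i)) (m : ℕ) (hcard : Fintype.card Q < q ^ m) :
    ∃ P : (Fin r → ZMod q) → Equiv.Perm V,
      (∀ δ i c, P δ (blk i c) = blk i (c + δ i)) ∧
      (∀ δ v, (∀ i, v ∉ Set.range (blk i)) → P δ v = v) ∧
      ∀ k : ℕ, 1 ≤ k → ∃ Sup : (Fin k → Q) → Finset (Fin r),
        (∀ T, (Sup T).card < 2 * (k * m)) ∧
        (∀ T δ, (∀ i ∈ Sup T, δ i = 0) →
          ∃ φ, C.IsAut (inpPerm (P δ)) φ ∧ ∀ j, φ (T j) = T j) ∧
        (∀ T δ φ, C.IsAut (inpPerm (P δ)) φ → Sup (fun j => φ (T j)) = Sup T) := by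
  sorry

/-- TREEUP: semi-unbounded circuits of depth `2 h + 2` for tree evaluation -/
theorem tree_upper (h q : ℕ) [NeZero q] :
    ∃ (Q : Type) (_ : Fintype Q) (C : LCkt (Inp (EEl h q)) Q),
      (∀ x, C.Val x C.out ↔ TreeDer h q x) ∧
      (∀ g, C.conj g = true → (C.ins g).ncard ≤ 3) ∧
      (∀ g, C.lay g ≤ 2 * h + 2) ∧
      Fintype.card Q ≤ 2 ^ (h + 3) * q ^ 3 ∧
      (∀ (v : Fin (2 ^ (h + 1))) (a : Equiv.Perm (ZMod q)) (p : Equiv.Perm (EEl h q)),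
        (∀ c, p (eblk v c) = eblk v (a c)) → (∀ u, u ∉ Set.range (eblk v) → p u = u) →
        ∃ φ, C.IsAut (inpPerm p) φ) := by
  sorry

/-- TREENET: nondeterministic networks with `(2 q) ^ (h + 1) + 2` nodes for tree evaluation -/
theorem tree_net (h q : ℕ) [NeZero q] :
    ∃ (Q : Type) (_ : Fintype Q) (N : SNet (Inp (EEl h q)) Q),
      (∀ x, N.Acc x ↔ TreeDer h q x) ∧
      Fintype.card Q ≤ (2 * q) ^ (h + 1) + 2 ∧
      (∀ (v : Fin (2 ^ (h + 1))) (a : Equiv.Perm (ZMod q)) (p : Equiv.Perm (EEl h q)),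
        (∀ c, p (eblk v c) = eblk v (a c)) → (∀ u, u ∉ Set.range (eblk v) → p u = u) →
        ∃ φ, N.IsAut (inpPerm p) φ) := by
  sorry

/-- NCUP: shallow layered circuits for the template function -/
theorem nc_upper (H p : ℕ) (h : 0 < H) :
    ∃ (Q : Type) (_ : Fintype Q) (C : LCkt (Inp (TEl H (2 ^ p))) Q),
      (∀ x, C.Val x C.out ↔ Tem H (2 ^ p) h x) ∧
      (∀ g, (C.ins g).ncard ≤ 25) ∧
      (∀ g, C.lay g ≤ (2 * p + 6) * H) ∧
      Fintype.card Q ≤ 1000 * (p + 1) * H * (2 ^ p + 1) ^ 2 ∧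
      (∀ (v : Pla H (2 ^ p)) (a : Equiv.Perm (Fin 5)) (p' : Equiv.Perm (TEl H (2 ^ p))),
        (∀ c, p' (tblk v c) = tblk v (a c)) → (∀ u, u ∉ Set.range (tblk v) → p' u = u) →
        ∃ φ, C.IsAut (inpPerm p') φ) := by
  sorry

end Pool.Agent.H870R2.LS.Stub3
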