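import Pool.Agent.H870R2.LS.Defs2

set_option autoImplicit false
set_option linter.unusedSectionVars false

/-! Symmetrisation of circuits whose gates count walks. -/

namespace Pool.Agent.H870R2.LS.SC

open Finset

section abstract

variable {I Q D : Type} [Fintype I] [Fintype Q] [Group D] [Fintype D]

open Classical in
/-- wires of the symmetrised circuit -/
noncomputable def wireS (C : Ckt I Q) (act : D →* Equiv.Perm I) :
    Option (D × Q) → Option (D × Q) → Option (D × Q) → Src I (Option (D × Q)) → ℕ
  | some (γ, g), some (γ1, a), some (γ2, b), s => if γ1 = γ ∧ γ2 = γ then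
      (match s with
        | none => C.wire g a b none
        | some (Sum.inl (i, c)) => C.wire g a b (some (Sum.inl ((act γ).symm i, c)))
        | some (Sum.inr (some (γ3, h))) => if γ3 = γ then C.wire g a b (some (Sum.inr h)) else 0
        | some (Sum.inr none) => 0) else 0
  | none, none, none, s => match s with
        | some (Sum.inr (some (_, h))) => if h = C.out then 1 else 0
        | _ => 0
  | _, _, _, _ => 0

open Classical in
/-- ends of the symmetrised circuit -/
noncomputable def endsS (C : Ckt I Q) : Option (D × Q) → Option (D × Q) → Option (D × Q) → ℕ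
  | some (γ, g), some (γ1, a), some (γ2, b) => if γ1 = γ ∧ γ2 = γ then C.ends g a b else 0
  | none, none, none => 1
  | _, _, _ => 0

/-- ranks of the symmetrised circuit -/
def rankS (C : Ckt I Q) : Option (D × Q) → ℕ
  | some (_, g) => C.rank g
  | none => C.rank C.out + 1

/-- gate functions of the symmetrised circuit -/
def FS (C : Ckt I Q) : Option (D × Q) → (ℕ → ℕ) → Bool
  | some (_, g) => C.F g
  | none => fun N => decide (0 < N 1)

/-- the symmetrised circuit -/
noncomputable def symC (C : Ckt I Q) (act : D →* Equiv.Perm I) : Ckt I (Option (D × Q)) where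
  wire := wireS C act
  ends := endsS C
  F := FS C
  out := none
  rank := rankS C
  acyc := by
    classical
    rintro (_ | ⟨γ, g⟩) (_ | ⟨γ1, a⟩) (_ | ⟨γ2, b⟩) (_ | ⟨γ3, h⟩) hw
    · exact absurd hw (lt_irrefl _)
    · by_cases h1 : h = C.out
      · show C.rank h < C.rank C.out + 1
        rw [h1]; exact Nat.lt_succ_self _
      · exact absurd hw (by simp [wireS, h1])
    · exact absurd hw (lt_irrefl _)
    · exact absurd hw (lt_irrefl _)
    · exact absurd hw (lt_irrefl _)
    · exact absurd hw (lt_irrefl _)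
    · exact absurd hw (lt_irrefl _)
    · exact absurd hw (lt_irrefl _)
    · exact absurd hw (lt_irrefl _)
    · exact absurd hw (lt_irrefl _)
    · exact absurd hw (lt_irrefl _)
    · exact absurd hw (lt_irrefl _)
    · exact absurd hw (lt_irrefl _)
    · exact absurd hw (lt_irrefl _)
    · exact absurd hw (by simp [wireS])
    · by_cases h1 : γ1 = γ ∧ γ2 = γ
      · by_cases h2 : γ3 = γ
        · have hw' : 0 < wireS C act (some (γ, g)) (some (γ1, a)) (some (γ2, b))
            (some (Sum.inr (some (γ3, h)))) := hw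
          rw [wireS, if_pos h1, if_pos h2] at hw'
          exact C.acyc _ _ _ _ hw'
        · exact absurd hw (by simp [wireS, h2])
      · exact absurd hw (by simp [wireS, h1])

variable (C : Ckt I Q) (act : D →* Equiv.Perm I)

lemma sum_src {I' Q' : Type} [Fintype I'] [Fintype Q'] (f : Src I' Q' → ℕ) :
    ∑ s, f s = f none + (∑ i : I', ∑ c : Bool, f (some (Sum.inl (i, c))) + ∑ h : Q', f (some (Sum.inr h))) := by
  rw [Fintype.sum_option, Fintype.sum_sum_type, Fintype.sum_prod_type]

lemma adj_some (x : Set I) (v : Option (D × Q) → Bool) (γ : D) (g a b : Q) :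
    (symC C act).adj x v (some (γ, g)) (some (γ, a)) (some (γ, b)) =
      C.adj ((act γ) ⁻¹' x) (fun h => v (some (γ, h))) g a b := by
  classical
  unfold Ckt.adj
  rw [sum_src, sum_src]
  have h1 : (symC C act).wire (some (γ, g)) (some (γ, a)) (some (γ, b)) none = C.wire g a b none := by
    show (if γ = γ ∧ γ = γ then C.wire g a b none else 0) = _
    rw [if_pos ⟨rfl, rfl⟩]
  rw [h1]
  congr 1
  congr 1
  · rw [← Equiv.sum_comp (act γ)]
    refine Finset.sum_congr rfl fun i _ => Finset.sum_congr rfl fun c _ => ?_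
    have h2 : (symC C act).wire (some (γ, g)) (some (γ, a)) (some (γ, b))
        (some (Sum.inl (act γ i, c))) = C.wire g a b (some (Sum.inl (i, c))) := by
      show (if γ = γ ∧ γ = γ then C.wire g a b (some (Sum.inl ((act γ).symm (act γ i), c))) else 0) = _
      rw [if_pos ⟨rfl, rfl⟩, Equiv.symm_apply_apply]
    rw [h2]
    rfl
  · rw [Fintype.sum_option, Fintype.sum_prod_type]
    have h3 : (symC C act).wire (some (γ, g)) (some (γ, a)) (some (γ, b)) (some (Sum.inr none)) = 0 := by
      show (if γ = γ ∧ γ = γ then 0 else 0) = 0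
      rw [ite_self]
    rw [h3, zero_mul, zero_add, Finset.sum_eq_single γ]
    · refine Finset.sum_congr rfl fun h _ => ?_
      have h2 : (symC C act).wire (some (γ, g)) (some (γ, a)) (some (γ, b))
          (some (Sum.inr (some (γ, h)))) = C.wire g a b (some (Sum.inr h)) := by
        show (if γ = γ ∧ γ = γ then (if γ = γ then C.wire g a b (some (Sum.inr h)) else 0) else 0) = _
        rw [if_pos ⟨rfl, rfl⟩, if_pos rfl]
      rw [h2]
      rfl
    · intro γ3 _ hne
      refine Finset.sum_eq_zero fun h _ => ?_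
      have h2 : (symC C act).wire (some (γ, g)) (some (γ, a)) (some (γ, b))
          (some (Sum.inr (some (γ3, h)))) = 0 := by
        show (if γ = γ ∧ γ = γ then (if γ3 = γ then C.wire g a b (some (Sum.inr h)) else 0) else 0) = _
        rw [if_pos ⟨rfl, rfl⟩, if_neg hne]
      rw [h2, zero_mul]
    · intro h
      exact absurd (Finset.mem_univ _) h

lemma adj_some_other (x : Set I) (v : Option (D × Q) → Bool) (γ γ2 : D) (g a b : Q) (h : γ2 ≠ γ) :
    (symC C act).adj x v (some (γ, g)) (some (γ, a)) (some (γ2, b)) = 0 := by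
  classical
  unfold Ckt.adj
  refine Finset.sum_eq_zero fun s _ => ?_
  have h1 : (symC C act).wire (some (γ, g)) (some (γ, a)) (some (γ2, b)) s = 0 := by
    exact if_neg (fun h' => h h'.2)
  rw [h1, zero_mul]

lemma adj_some_none (x : Set I) (v : Option (D × Q) → Bool) (γ : D) (g a : Q) :
    (symC C act).adj x v (some (γ, g)) (some (γ, a)) none = 0 := by
  classical
  unfold Ckt.adj
  refine Finset.sum_eq_zero fun s _ => ?_
  have h1 : (symC C act).wire (some (γ, g)) (some (γ, a)) none s = 0 := rfl
  rw [h1, zero_mul]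

lemma walks_zero {Q' : Type} [Fintype Q'] (A : Q' → Q' → ℕ) (a : Q') : walks A 0 a a = 1 := by
  unfold walks
  exact if_pos rfl

lemma walks_zero_ne {Q' : Type} [Fintype Q'] (A : Q' → Q' → ℕ) (a b : Q') (h : a ≠ b) :
    walks A 0 a b = 0 := by
  unfold walks
  exact if_neg h

lemma walks_some (x : Set I) (v : Option (D × Q) → Bool) (γ : D) (g : Q) (k : ℕ) (a b : Q) :
    walks ((symC C act).adj x v (some (γ, g))) k (some (γ, a)) (some (γ, b)) =
      walks (C.adj ((act γ) ⁻¹' x) (fun h => v (some (γ, h))) g) k a b := by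
  classical
  induction k generalizing a with
  | zero =>
    by_cases h : a = b
    · rw [h, walks_zero, walks_zero]
    · rw [walks_zero_ne _ _ _ h, walks_zero_ne _ _ _ (fun h' => h (by simpa using h'))]
  | succ k ih =>
    show ∑ c, (symC C act).adj x v (some (γ, g)) (some (γ, a)) c * walks _ k c (some (γ, b)) =
      ∑ c, C.adj ((act γ) ⁻¹' x) (fun h => v (some (γ, h))) g a c * walks _ k c b
    rw [Fintype.sum_option, adj_some_none, zero_mul, zero_add, Fintype.sum_prod_type,
      Finset.sum_eq_single γ]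
    · refine Finset.sum_congr rfl fun c _ => ?_
      rw [ih, adj_some]
    · intro γ2 _ hne
      refine Finset.sum_eq_zero fun c _ => ?_
      rw [adj_some_other C act x v γ γ2 g a c hne, zero_mul]
    · intro h
      exact absurd (Finset.mem_univ _) h

lemma cnt_some (x : Set I) (v : Option (D × Q) → Bool) (γ : D) (g : Q) :
    (symC C act).cnt x v (some (γ, g)) =
      C.cnt ((act γ) ⁻¹' x) (fun h => v (some (γ, h))) g := by
  classical
  funext k
  unfold Ckt.cnt
  rw [Fintype.sum_prod_type, Fintype.sum_prod_type, Fintype.sum_option, Fintype.sum_prod_type]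
  have h0 : ∑ e2, (symC C act).ends (some (γ, g)) none e2 *
      walks ((symC C act).adj x v (some (γ, g))) k none e2 = 0 := by
    refine Finset.sum_eq_zero fun e2 _ => ?_
    have : (symC C act).ends (some (γ, g)) none e2 = 0 := rfl
    rw [this, zero_mul]
  rw [h0, zero_add, Finset.sum_eq_single γ]
  · refine Finset.sum_congr rfl fun a _ => ?_
    rw [Fintype.sum_option, Fintype.sum_prod_type]
    have h1 : (symC C act).ends (some (γ, g)) (some (γ, a)) none = 0 := rfl
    rw [h1, zero_mul, zero_add, Finset.sum_eq_single γ]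
    · refine Finset.sum_congr rfl fun b _ => ?_
      have h2 : (symC C act).ends (some (γ, g)) (some (γ, a)) (some (γ, b)) = C.ends g a b :=
        if_pos ⟨rfl, rfl⟩
      rw [h2, walks_some]
    · intro γ2 _ hne
      refine Finset.sum_eq_zero fun b _ => ?_
      have h2 : (symC C act).ends (some (γ, g)) (some (γ, a)) (some (γ2, b)) = 0 :=
        if_neg (fun h => hne h.2)
      rw [h2, zero_mul]
    · intro h
      exact absurd (Finset.mem_univ _) h
  · intro γ1 _ hne
    refine Finset.sum_eq_zero fun a _ => ?_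
    rw [Fintype.sum_option, Fintype.sum_prod_type]
    have h1 : (symC C act).ends (some (γ, g)) (some (γ1, a)) none = 0 := rfl
    rw [h1, zero_mul, zero_add]
    refine Finset.sum_eq_zero fun γ2 _ => Finset.sum_eq_zero fun b _ => ?_
    have h2 : (symC C act).ends (some (γ, g)) (some (γ1, a)) (some (γ2, b)) = 0 :=
      if_neg (fun h => hne h.1)
    rw [h2, zero_mul]
  · intro h
    exact absurd (Finset.mem_univ _) h

lemma val_some (x : Set I) (γ : D) :
    ∀ (k : ℕ) (g : Q), C.rank g = k →
      (symC C act).val x (some (γ, g)) = C.val ((act γ) ⁻¹' x) g := by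
  intro k
  induction k using Nat.strong_induction_on with
  | _ k ih =>
    intro g hg
    rw [Ckt.val_eq, Ckt.val_eq, cnt_some]
    show C.F g _ = C.F g _
    congr 1
    funext l
    unfold Ckt.cnt
    rw [C.adj_congr ((act γ) ⁻¹' x) (v := fun h => (symC C act).val x (some (γ, h)))
      (v' := C.val ((act γ) ⁻¹' x)) g]
    intro q hq
    exact ih (C.rank q) (by omega) q rfl

lemma cnt_none (x : Set I) (v : Option (D × Q) → Bool) :
    (symC C act).cnt x v none 1 = ∑ γ : D, (v (some (γ, C.out))).toNat := by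
  classical
  unfold Ckt.cnt
  rw [Fintype.sum_prod_type, Finset.sum_eq_single none, Finset.sum_eq_single none]
  · have h1 : (symC C act).ends none none none = 1 := rfl
    rw [h1, one_mul]
    show ∑ c, (symC C act).adj x v none none c * walks _ 0 c none = _
    rw [Finset.sum_eq_single none]
    · rw [walks_zero, mul_one]
      unfold Ckt.adj
      rw [sum_src]
      have h2 : (symC C act).wire none none none none = 0 := rfl
      have h3 : ∑ i : I, ∑ c : Bool, (symC C act).wire none none none (some (Sum.inl (i, c))) *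
          (srcVal x v (some (Sum.inl (i, c)))).toNat = 0 := by
        refine Finset.sum_eq_zero fun i _ => Finset.sum_eq_zero fun c _ => ?_
        have : (symC C act).wire none none none (some (Sum.inl (i, c))) = 0 := rfl
        rw [this, zero_mul]
      rw [h2, zero_mul, h3, zero_add, zero_add, Fintype.sum_option]
      have h4 : (symC C act).wire none none none (some (Sum.inr none)) = 0 := rfl
      rw [h4, zero_mul, zero_add, Fintype.sum_prod_type]
      refine Finset.sum_congr rfl fun γ _ => ?_
      rw [Finset.sum_eq_single C.out]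
      · have h5 : (symC C act).wire none none none (some (Sum.inr (some (γ, C.out)))) = 1 := if_pos rfl
        rw [h5, one_mul]
        rfl
      · intro h _ hne
        have h5 : (symC C act).wire none none none (some (Sum.inr (some (γ, h)))) = 0 := if_neg hne
        rw [h5, zero_mul]
      · intro h
        exact absurd (Finset.mem_univ _) h
    · intro c _ hc
      rw [walks_zero_ne _ _ _ hc, mul_zero]
    · intro h
      exact absurd (Finset.mem_univ _) h
  · intro b _ hb
    rcases b with _ | ⟨γ, b⟩
    · exact absurd rfl hb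
    · have h1 : (symC C act).ends none none (some (γ, b)) = 0 := rfl
      rw [h1, zero_mul]
  · intro h
    exact absurd (Finset.mem_univ _) h
  · intro a _ ha
    refine Finset.sum_eq_zero fun b _ => ?_
    rcases a with _ | ⟨γ, a⟩
    · exact absurd rfl ha
    · have h1 : (symC C act).ends none (some (γ, a)) b = 0 := rfl
      rw [h1, zero_mul]
  · intro h
    exact absurd (Finset.mem_univ _) h

lemma val_out (x : Set I) : (symC C act).val x (symC C act).out = true ↔
    ∃ γ : D, C.val ((act γ) ⁻¹' x) C.out = true := by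
  have h0 : (symC C act).out = none := rfl
  rw [h0, Ckt.val_eq]
  show decide (0 < (symC C act).cnt x _ none 1) = true ↔ _
  rw [cnt_none, decide_eq_true_iff, Finset.sum_pos_iff]
  constructor
  · rintro ⟨γ, _, h⟩
    refine ⟨γ, ?_⟩
    rw [val_some C act x γ _ _ rfl] at h
    rcases hv : C.val ((act γ) ⁻¹' x) C.out
    · rw [hv] at h
      exact absurd h (by decide)
    · rfl
  · rintro ⟨γ, h⟩
    refine ⟨γ, Finset.mem_univ _, ?_⟩
    rw [val_some C act x γ _ _ rfl, h]
    decide

lemma symC_aut (δ : D) : ∃ φ, (symC C act).IsAut (act δ) φ := by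
  classical
  refine ⟨Equiv.optionCongr ((Equiv.mulLeft δ).prodCongr (Equiv.refl Q)), ?_, ?_, ?_, rfl⟩
  · rintro (_ | ⟨γ, g⟩) (_ | ⟨γ1, a⟩) (_ | ⟨γ2, b⟩) s
    · rcases s with _ | ⟨i, c⟩ | _ | ⟨γ3, h⟩ <;> rfl
    all_goals try rfl
    show (if δ * γ1 = δ * γ ∧ δ * γ2 = δ * γ then _ else 0) = if γ1 = γ ∧ γ2 = γ then _ else 0
    by_cases h12 : γ1 = γ ∧ γ2 = γ
    · rw [if_pos h12, if_pos (by rw [h12.1, h12.2]; exact ⟨rfl, rfl⟩)]
      rcases s with _ | ⟨i, c⟩ | _ | ⟨γ3, h⟩
      · rfl
      · show C.wire g a b (some (Sum.inl ((act (δ * γ)).symm (act δ i), c))) =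
          C.wire g a b (some (Sum.inl ((act γ).symm i, c)))
        have : (act (δ * γ)).symm (act δ i) = (act γ).symm i := by
          rw [Equiv.symm_apply_eq, map_mul]
          show act δ i = act δ (act γ ((act γ).symm i))
          rw [Equiv.apply_symm_apply]
        rw [this]
      · rfl
      · show (if δ * γ3 = δ * γ then C.wire g a b (some (Sum.inr h)) else 0) =
          if γ3 = γ then C.wire g a b (some (Sum.inr h)) else 0
        by_cases h3 : γ3 = γ
        · rw [if_pos h3, if_pos (by rw [h3])]
        · rw [if_neg h3, if_neg (fun h' => h3 (mul_left_cancel h'))]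
    · rw [if_neg h12, if_neg (fun h' => h12 ⟨mul_left_cancel h'.1, mul_left_cancel h'.2⟩)]
  · rintro (_ | ⟨γ, g⟩) (_ | ⟨γ1, a⟩) (_ | ⟨γ2, b⟩)
    all_goals try rfl
    show (if δ * γ1 = δ * γ ∧ δ * γ2 = δ * γ then C.ends g a b else 0) =
      if γ1 = γ ∧ γ2 = γ then C.ends g a b else 0
    by_cases h12 : γ1 = γ ∧ γ2 = γ
    · rw [if_pos h12, if_pos (by rw [h12.1, h12.2]; exact ⟨rfl, rfl⟩)]
    · rw [if_neg h12, if_neg (fun h' => h12 ⟨mul_left_cancel h'.1, mul_left_cancel h'.2⟩)]
  · rintro (_ | ⟨γ, g⟩) <;> rfl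

end abstract

section bp

variable {V : Type} {r : ℕ} (blk : Fin r × Fin 5 ↪ V)

theorem bp_apply (γ : Fin r → alternatingGroup (Fin 5)) (b : Fin r) (c : Fin 5) :
    bp blk γ (blk (b, c)) = blk (b, (γ b : Equiv.Perm (Fin 5)) c) := by
  unfold bp
  rw [Equiv.Perm.viaEmbedding_apply]
  rfl

theorem bp_notMem (γ : Fin r → alternatingGroup (Fin 5)) {v : V} (hv : v ∉ Set.range blk) :
    bp blk γ v = v :=
  Equiv.Perm.viaEmbedding_apply_of_notMem _ _ _ hv

theorem bp_mul (γ γ' : Fin r → alternatingGroup (Fin 5)) :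
    bp blk (γ * γ') = bp blk γ * bp blk γ' := by
  ext v
  rw [Equiv.Perm.mul_apply]
  by_cases hv : v ∈ Set.range blk
  · obtain ⟨⟨b, c⟩, rfl⟩ := hv
    rw [bp_apply, bp_apply, bp_apply]
    rfl
  · rw [bp_notMem blk _ hv, bp_notMem blk _ hv, bp_notMem blk _ hv]

theorem bp_one : bp blk (1 : Fin r → alternatingGroup (Fin 5)) = 1 := by
  ext v
  by_cases hv : v ∈ Set.range blk
  · obtain ⟨⟨b, c⟩, rfl⟩ := hv
    rw [bp_apply]
    rfl
  · rw [bp_notMem blk _ hv]
    rfl

theorem inpPerm_mul (p p' : Equiv.Perm V) : inpPerm (p * p') = inpPerm p * inpPerm p' := by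
  ext x
  rcases x with u | ⟨a, b, c⟩ <;> rfl

theorem inpPerm_one : inpPerm (1 : Equiv.Perm V) = 1 := by
  ext x
  rcases x with u | ⟨a, b, c⟩ <;> rfl

/-- the action of the block permutations on the variables -/
noncomputable def bact : (Fin r → alternatingGroup (Fin 5)) →* Equiv.Perm (Inp V) where
  toFun γ := inpPerm (bp blk γ)
  map_one' := by rw [bp_one, inpPerm_one]
  map_mul' γ γ' := by rw [bp_mul, inpPerm_mul]

theorem der_perm_of (p : Equiv.Perm V) (x : Set (Inp V)) (u : V) (h : Der (inpPerm p ⁻¹' x) u) :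
    Der x (p u) := by
  induction h with
  | ax u hu => exact Der.ax _ hu
  | rule a b c hr _ _ iha ihb => exact Der.rule _ _ _ hr iha ihb

theorem der_perm (p : Equiv.Perm V) (x : Set (Inp V)) (u : V) :
    Der (inpPerm p ⁻¹' x) u ↔ Der x (p u) := by
  constructor
  · exact der_perm_of p x u
  · intro h
    have h1 : inpPerm p⁻¹ ⁻¹' (inpPerm p ⁻¹' x) = x := by
      ext y
      show inpPerm p (inpPerm p⁻¹ y) ∈ x ↔ y ∈ x
      have h2 : inpPerm p (inpPerm p⁻¹ y) = y := by
        rw [← Equiv.Perm.mul_apply, ← inpPerm_mul, mul_inv_cancel, inpPerm_one]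
        rfl
      rw [h2]
    have h3 := der_perm_of p⁻¹ (inpPerm p ⁻¹' x) (p u) (by rw [h1]; exact h)
    have h4 : p⁻¹ (p u) = u := Equiv.symm_apply_apply p u
    rw [h4] at h3
    exact h3

end bp

end Pool.Agent.H870R2.LS.SC

namespace Pool.Agent.H870R2.LS

open Finset SC

/-- SYM -/
theorem symmetrize {V Q : Type} [Fintype V] [Fintype Q] (C : Ckt (Inp V) Q) (t : V)
    (hC : ∀ x, C.val x C.out = true ↔ Der x t) (r : ℕ) (blk : Fin r → (Fin 5 ↪ V))
    (hd : Pairwise fun i j => Disjoint (Set.range (blk i)) (Set.range (blk j)))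
    (ht : ∀ i, t ∉ Set.range (blk i)) :
    ∃ (Q' : Type) (_ : Fintype Q') (C' : Ckt (Inp V) Q'),
      (∀ x, C'.val x C'.out = true ↔ Der x t) ∧ (∀ i, C'.SymOn (blk i)) ∧
      Fintype.card Q' = 60 ^ r * Fintype.card Q + 1 ∧ C'.rank C'.out = C.rank C.out + 1 := by
  classical
  have ht' : t ∉ Set.range (blkE blk hd) := by
    rintro ⟨⟨i, c⟩, h⟩
    exact ht i ⟨c, h⟩
  refine ⟨Option ((Fin r → alternatingGroup (Fin 5)) × Q), inferInstance,
    symC C (bact (blkE blk hd)), ?_, ?_, ?_, rfl⟩
  · intro x
    rw [val_out]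
    constructor
    · rintro ⟨γ, h⟩
      have h1 := (hC _).1 h
      have h2 := (der_perm (bp (blkE blk hd) γ) x t).1 h1
      rwa [bp_notMem _ γ ht'] at h2
    · intro h
      refine ⟨1, ?_⟩
      rw [map_one]
      exact (hC _).2 h
  · intro i a ha p hp1 hp2
    have hpe : p = bp (blkE blk hd) (Pi.mulSingle i ⟨a, ha⟩) := by
      ext v
      by_cases hv : v ∈ Set.range (blkE blk hd)
      · obtain ⟨⟨j, c⟩, rfl⟩ := hv
        rw [bp_apply]
        show p (blk j c) = blk j (((Pi.mulSingle i (⟨a, ha⟩ : alternatingGroup (Fin 5)) :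
          Fin r → alternatingGroup (Fin 5)) j : Equiv.Perm (Fin 5)) c)
        by_cases hij : j = i
        · subst hij
          rw [Pi.mulSingle_eq_same]
          exact hp1 c
        · rw [Pi.mulSingle_eq_of_ne hij]
          apply hp2
          intro hc
          exact Set.disjoint_left.1 (hd hij) ⟨c, rfl⟩ hc
      · rw [bp_notMem _ _ hv]
        apply hp2
        rintro ⟨c, rfl⟩
        exact hv ⟨(i, c), rfl⟩
    rw [hpe]
    exact symC_aut C (bact (blkE blk hd)) _
  · have h60 : Fintype.card (alternatingGroup (Fin 5)) = 60 := by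
      have h1 := two_mul_card_alternatingGroup (α := Fin 5)
      rw [Fintype.card_perm, Fintype.card_fin] at h1
      have h2 : Nat.factorial 5 = 120 := by decide
      omega
    rw [Fintype.card_option, Fintype.card_prod, Fintype.card_fun, h60, Fintype.card_fin]

end Pool.Agent.H870R2.LS
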