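import Pool.Agent.H870R2.LS.SymC
import Pool.Agent.H870R2.LS.MainF

set_option autoImplicit false
set_option linter.unusedSectionVars false

/-! Symmetrisation keeps the fan-out. -/

namespace Pool.Agent.H870R2.LS

open Finset SC

theorem symC_fanout {I Q D : Type} [Fintype I] [Fintype Q] [Group D] [Fintype D]
    (C : Ckt I Q) (act : D →* Equiv.Perm I) (f : ℕ) (hf : C.FanOut f)
    (hout : C.feeds C.out < f) : (symC C act).FanOut f := by
  classical
  intro h
  unfold Ckt.feeds
  rcases h with _ | ⟨γ, h⟩
  · have he : {g | ∃ a b, 0 < (symC C act).wire g a b (some (Sum.inr none))} = ∅ := by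
      ext g
      constructor
      · rintro ⟨a, b, hw⟩
        exfalso
        rcases g with _ | ⟨γ, g⟩ <;> rcases a with _ | ⟨γ1, a⟩ <;> rcases b with _ | ⟨γ2, b⟩
        · exact absurd hw (lt_irrefl _)
        · exact absurd hw (lt_irrefl _)
        · exact absurd hw (lt_irrefl _)
        · exact absurd hw (lt_irrefl _)
        · exact absurd hw (lt_irrefl _)
        · exact absurd hw (lt_irrefl _)
        · exact absurd hw (lt_irrefl _)
        · have hw' : 0 < (if γ1 = γ ∧ γ2 = γ then (0 : ℕ) else 0) := hw
          rw [ite_self] at hw'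
          exact absurd hw' (lt_irrefl _)
      · intro h
        exact absurd h (Set.notMem_empty _)
    rw [he, Set.ncard_empty]
    exact Nat.zero_le _
  · have hsub : {g | ∃ a b, 0 < (symC C act).wire g a b (some (Sum.inr (some (γ, h))))} ⊆
        (fun g => (some (γ, g) : Option (D × Q))) ''
          {g | ∃ a b, 0 < C.wire g a b (some (Sum.inr h))} ∪
        (if h = C.out then {none} else ∅) := by
      rintro g ⟨a, b, hw⟩
      rcases g with _ | ⟨γ0, g⟩ <;> rcases a with _ | ⟨γ1, a⟩ <;> rcases b with _ | ⟨γ2, b⟩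
      · right
        have hw' : 0 < (if h = C.out then 1 else 0 : ℕ) := hw
        by_cases h1 : h = C.out
        · rw [if_pos h1]
          exact rfl
        · rw [if_neg h1] at hw'
          exact absurd hw' (lt_irrefl _)
      · exact absurd hw (lt_irrefl _)
      · exact absurd hw (lt_irrefl _)
      · exact absurd hw (lt_irrefl _)
      · exact absurd hw (lt_irrefl _)
      · exact absurd hw (lt_irrefl _)
      · exact absurd hw (lt_irrefl _)
      · left
        have hw' : 0 < (if γ1 = γ0 ∧ γ2 = γ0 then
            (if γ = γ0 then C.wire g a b (some (Sum.inr h)) else 0) else 0 : ℕ) := hw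
        by_cases h1 : γ1 = γ0 ∧ γ2 = γ0
        · rw [if_pos h1] at hw'
          by_cases h2 : γ = γ0
          · rw [if_pos h2] at hw'
            exact ⟨g, ⟨a, b, hw'⟩, by rw [h2]⟩
          · rw [if_neg h2] at hw'
            exact absurd hw' (lt_irrefl _)
        · rw [if_neg h1] at hw'
          exact absurd hw' (lt_irrefl _)
    have h1 := Set.ncard_le_ncard hsub (Set.toFinite _)
    have h2 := Set.ncard_union_le ((fun g => (some (γ, g) : Option (D × Q))) ''
          {g | ∃ a b, 0 < C.wire g a b (some (Sum.inr h))})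
        (if h = C.out then {none} else ∅)
    have h3 := Set.ncard_image_le (f := fun g => (some (γ, g) : Option (D × Q)))
      (Set.toFinite {g | ∃ a b, 0 < C.wire g a b (some (Sum.inr h))})
    have h4 : {g | ∃ a b, 0 < C.wire g a b (some (Sum.inr h))}.ncard ≤ f := hf h
    by_cases h5 : h = C.out
    · rw [if_pos h5] at h1 h2
      rw [Set.ncard_singleton] at h2
      have h6 : {g | ∃ a b, 0 < C.wire g a b (some (Sum.inr h))}.ncard < f := by
        rw [h5]
        exact hout
      omega
    · rw [if_neg h5] at h1 h2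
      rw [Set.ncard_empty] at h2
      omega

/-- Symmetrisation. -/
theorem symmetrizeF {V Q : Type} [Fintype V] [Fintype Q] (C : Ckt (Inp V) Q) (t : V)
    (hC : ∀ x, C.val x C.out = true ↔ Der x t) (f : ℕ) (hf : C.FanOut f)
    (hout : C.feeds C.out < f) (r : ℕ) (blk : Fin r → (Fin 5 ↪ V))
    (hd : Pairwise fun i j => Disjoint (Set.range (blk i)) (Set.range (blk j)))
    (ht : ∀ i, t ∉ Set.range (blk i)) :
    ∃ (Q' : Type) (_ : Fintype Q') (C' : Ckt (Inp V) Q'),
      (∀ x, C'.val x C'.out = true ↔ Der x t) ∧ C'.FanOut f ∧ (∀ i, C'.SymOn (blk i)) ∧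
      Fintype.card Q' = 60 ^ r * Fintype.card Q + 1 := by
  classical
  have ht' : t ∉ Set.range (blkE blk hd) := by
    rintro ⟨⟨i, c⟩, h⟩
    exact ht i ⟨c, h⟩
  refine ⟨Option ((Fin r → alternatingGroup (Fin 5)) × Q), inferInstance,
    symC C (bact (blkE blk hd)), ?_, symC_fanout C _ f hf hout, ?_, ?_⟩
  · intro x
    rw [val_out]
    constructor
    · rintro ⟨γ, h⟩
      have h1 := (hC _).1 h
      have h2 := (der_perm (bp (blkE blk hd) γ) x t).1 h1
      rwa [bp_notMem _ γ ht'] at h2
    · intro h
      refine ⟨1, ?_⟩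
      rw [map_one]
      exact (hC _).2 h
  · intro i a ha p hp1 hp2
    have hpe : p = bp (blkE blk hd) (Pi.mulSingle i ⟨a, ha⟩) := by
      ext v
      by_cases hv : v ∈ Set.range (blkE blk hd)
      · obtain ⟨⟨j, c⟩, rfl⟩ := hv
        rw [bp_apply]
        show p (blk j c) = blk j (((Pi.mulSingle i (⟨a, ha⟩ : alternatingGroup (Fin 5)) :
          Fin r → alternatingGroup (Fin 5)) j : Equiv.Perm (Fin 5)) c)
        by_cases hij : j = i
        · subst hij
          rw [Pi.mulSingle_eq_same]
          exact hp1 c
        · rw [Pi.mulSingle_eq_of_ne hij]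
          apply hp2
          intro hc
          exact Set.disjoint_left.1 (hd hij) ⟨c, rfl⟩ hc
      · rw [bp_notMem _ _ hv]
        apply hp2
        rintro ⟨c, rfl⟩
        exact hv ⟨(i, c), rfl⟩
    rw [hpe]
    exact symC_aut C (bact (blkE blk hd)) _
  · have h60 : Fintype.card (alternatingGroup (Fin 5)) = 60 := by
      have h1 := two_mul_card_alternatingGroup (α := Fin 5)
      rw [Fintype.card_perm, Fintype.card_fin] at h1
      have h2 : Nat.factorial 5 = 120 := by decide
      omega
    rw [Fintype.card_option, Fintype.card_prod, Fintype.card_fun, h60, Fintype.card_fin]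

end Pool.Agent.H870R2.LS
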