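import Pool.Agent.H870R2.LS.PDefs
import Pool.Agent.H870R2.LS.SymN

set_option autoImplicit false
set_option linter.unusedSectionVars false

/-! Symmetrisation of pushdown networks. -/

namespace Pool.Agent.H870R2.LS

open Finset

namespace SPN

open SN

theorem run_append {I Q : Type*} (N : PNet I Q) (x : Set I) {n m : ℕ} {p q q' : Q × List Q}
    (h : N.Run x n p q) (h' : N.Run x m q q') : N.Run x (n + m) p q' := by
  induction n generalizing p with
  | zero =>
    have : p = q := h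
    subst this
    simpa using h'
  | succ n ih =>
    obtain ⟨p', hp, hr⟩ := h
    rw [Nat.add_right_comm]
    exact ⟨p', hp, ih hr⟩

theorem run_one {I Q : Type*} (N : PNet I Q) (x : Set I) {p q : Q × List Q}
    (h : N.Step x p q) : N.Run x 1 p q := ⟨q, h, rfl⟩

theorem run_tail {I Q : Type*} (N : PNet I Q) (x : Set I) {n : ℕ} {p q q' : Q × List Q}
    (h : N.Run x n p q) (h' : N.Step x q q') : N.Run x (n + 1) p q' :=
  run_append N x h (run_one N x h')

variable {V Q : Type} {r : ℕ}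

/-- the symmetrised network -/
noncomputable def symP (N : PNet (Inp V) Q) (blk : Fin r × Fin 5 ↪ V) : PNet (Inp V) (SQ Q r) where
  arc := (symN ⟨N.arc, N.src, N.tgt⟩ blk).arc
  push := fun x s y => match x, s, y with
    | Sum.inl (γ, a), Sum.inl (γ', c), Sum.inl (γ'', b) => γ = γ' ∧ γ = γ'' ∧ N.push a c b
    | _, _, _ => False
  pop := fun x s y => match x, s, y with
    | Sum.inl (γ, a), Sum.inl (γ', c), Sum.inl (γ'', b) => γ = γ' ∧ γ = γ'' ∧ N.pop a c b
    | _, _, _ => False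
  src := Sum.inr false
  tgt := Sum.inr true

variable (N : PNet (Inp V) Q) (blk : Fin r × Fin 5 ↪ V)

theorem open_ll (x : Set (Inp V)) (γ γ' : Fin r → alternatingGroup (Fin 5)) (a b : Q) :
    (symP N blk).Open x (Sum.inl (γ, a)) (Sum.inl (γ', b)) ↔
      γ = γ' ∧ N.Open (inpPerm (bp blk γ) ⁻¹' x) a b :=
  SN.open_ll ⟨N.arc, N.src, N.tgt⟩ blk x γ γ' a b

theorem open_rl (x : Set (Inp V)) (γ : Fin r → alternatingGroup (Fin 5)) (b : Q) :
    (symP N blk).Open x (Sum.inr false) (Sum.inl (γ, b)) ↔ b = N.src :=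
  SN.open_rl ⟨N.arc, N.src, N.tgt⟩ blk x γ b

theorem open_lr (x : Set (Inp V)) (γ : Fin r → alternatingGroup (Fin 5)) (a : Q) :
    (symP N blk).Open x (Sum.inl (γ, a)) (Sum.inr true) ↔ a = N.tgt :=
  SN.open_lr ⟨N.arc, N.src, N.tgt⟩ blk x γ a

theorem not_open_rr (x : Set (Inp V)) (b b' : Bool) :
    ¬ (symP N blk).Open x (Sum.inr b) (Sum.inr b') := by
  cases b <;> cases b' <;> rintro (h | ⟨i, c, h, _⟩) <;> exact h

theorem not_open_lf (x : Set (Inp V)) (c : (Fin r → alternatingGroup (Fin 5)) × Q) :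
    ¬ (symP N blk).Open x (Sum.inl c) (Sum.inr false) := by
  obtain ⟨γ, a⟩ := c
  rintro (h | ⟨i, c, h, _⟩) <;> exact h

theorem not_open_t (x : Set (Inp V)) (w : SQ Q r) :
    ¬ (symP N blk).Open x (Sum.inr true) w := by
  rcases w with ⟨γ, a⟩ | b
  · rintro (h | ⟨i, c, h, _⟩) <;> exact h
  · exact not_open_rr N blk x _ _

/-- the copy `γ` of a stack -/
def cp (γ : Fin r → alternatingGroup (Fin 5)) (st : List Q) : List (SQ Q r) :=
  st.map (fun q => Sum.inl (γ, q))

/-- invariant of the computations -/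
def Inv (x : Set (Inp V)) (c : SQ Q r × List (SQ Q r)) : Prop :=
  c = (Sum.inr false, []) ∨
  (∃ γ a st, c = (Sum.inl (γ, a), cp γ st) ∧
    ∃ n, N.Run (inpPerm (bp blk γ) ⁻¹' x) n (N.src, []) (a, st)) ∨
  (∃ γ st, c = (Sum.inr true, cp γ st) ∧
    ∃ n, N.Run (inpPerm (bp blk γ) ⁻¹' x) n (N.src, []) (N.tgt, st))

theorem inv_step (x : Set (Inp V)) (c c' : SQ Q r × List (SQ Q r))
    (hc : Inv N blk x c) (h : (symP N blk).Step x c c') : Inv N blk x c' := by
  rcases hc with rfl | ⟨γ, a, st, rfl, n, hn⟩ | ⟨γ, st, rfl, n, hn⟩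
  · rcases h with ⟨_, w, _, ho⟩ | ⟨_, s, w, _, hp⟩ | _
    · rcases w with ⟨γ, b⟩ | w
      · rw [open_rl] at ho
        subst ho
        exact Or.inr (Or.inl ⟨γ, N.src, [], rfl, 0, rfl⟩)
      · exact absurd ho (not_open_rr N blk x _ _)
    · exact hp.elim
  · generalize hst : cp γ st = st' at h
    rcases h with ⟨_, w, _, ho⟩ | ⟨_, s, w, _, hp⟩ | ⟨_, s, w, _, hp⟩
    · rcases w with ⟨γ', b⟩ | w
      · rw [open_ll] at ho
        obtain ⟨rfl, ho⟩ := ho
        subst hst
        exact Or.inr (Or.inl ⟨γ, b, st, rfl, n + 1, run_tail N _ hn (PNet.Step.arc _ _ _ ho)⟩)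
      · cases w
        · exact absurd ho (not_open_lf N blk x _)
        · rw [open_lr] at ho
          subst ho
          subst hst
          exact Or.inr (Or.inr ⟨γ, st, rfl, n, hn⟩)
    · rcases s with ⟨γ', c⟩ | s
      · rcases w with ⟨γ'', b⟩ | w
        · obtain ⟨rfl, rfl, hp⟩ := hp
          subst hst
          exact Or.inr (Or.inl ⟨γ, b, c :: st, rfl, n + 1,
            run_tail N _ hn (PNet.Step.push _ _ _ _ hp)⟩)
        · exact hp.elim
      · exact hp.elim
    · rcases s with ⟨γ', c⟩ | s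
      · rcases w with ⟨γ'', b⟩ | w
        · obtain ⟨rfl, rfl, hp⟩ := hp
          rcases st with _ | ⟨c0, st0⟩
          · simp [cp] at hst
          · simp only [cp, List.map_cons, List.cons.injEq, Sum.inl.injEq, Prod.mk.injEq, true_and]
              at hst
            obtain ⟨rfl, rfl⟩ := hst
            exact Or.inr (Or.inl ⟨γ, b, st0, rfl, n + 1,
              run_tail N _ hn (PNet.Step.pop _ _ _ _ hp)⟩)
        · exact hp.elim
      · exact hp.elim
  · generalize hst : cp γ st = st' at h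
    rcases h with ⟨_, w, _, ho⟩ | ⟨_, s, w, _, hp⟩ | ⟨_, s, w, _, hp⟩
    · exact absurd ho (not_open_t N blk x _)
    · exact hp.elim
    · exact hp.elim

theorem inv_run (x : Set (Inp V)) (n : ℕ) (c c' : SQ Q r × List (SQ Q r))
    (hc : Inv N blk x c) (h : (symP N blk).Run x n c c') : Inv N blk x c' := by
  induction n generalizing c with
  | zero =>
    have : c = c' := h
    rwa [← this]
  | succ n ih =>
    obtain ⟨p, hp, hr⟩ := h
    exact ih p (inv_step N blk x c p hc hp) hr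

theorem acc_of (x : Set (Inp V)) (n : ℕ) (h : (symP N blk).AccIn x n) :
    ∃ γ m, N.AccIn (inpPerm (bp blk γ) ⁻¹' x) m := by
  have h1 := inv_run N blk x n _ _ (Or.inl rfl) h
  rcases h1 with h1 | ⟨γ, a, st, h1, _⟩ | ⟨γ, st, h1, m, hm⟩
  · exact absurd (Prod.ext_iff.1 h1).1 (by simp [symP])
  · exact absurd (Prod.ext_iff.1 h1).1 (by simp [symP])
  · have h2 := (Prod.ext_iff.1 h1).2
    have h3 : st = [] := by
      simpa [cp] using h2.symm
    subst h3
    exact ⟨γ, m, hm⟩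

theorem step_copy (x : Set (Inp V)) (γ : Fin r → alternatingGroup (Fin 5)) (c c' : Q × List Q)
    (h : N.Step (inpPerm (bp blk γ) ⁻¹' x) c c') :
    (symP N blk).Step x (Sum.inl (γ, c.1), cp γ c.2) (Sum.inl (γ, c'.1), cp γ c'.2) := by
  rcases h with ⟨a, b, st, ho⟩ | ⟨a, s, b, st, hp⟩ | ⟨a, s, b, st, hp⟩
  · exact PNet.Step.arc _ _ _ ((open_ll N blk x γ γ a b).2 ⟨rfl, ho⟩)
  · exact PNet.Step.push _ (Sum.inl (γ, s)) _ _ ⟨rfl, rfl, hp⟩
  · exact PNet.Step.pop _ (Sum.inl (γ, s)) _ _ ⟨rfl, rfl, hp⟩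

theorem run_copy (x : Set (Inp V)) (γ : Fin r → alternatingGroup (Fin 5)) (n : ℕ)
    (c c' : Q × List Q) (h : N.Run (inpPerm (bp blk γ) ⁻¹' x) n c c') :
    (symP N blk).Run x n (Sum.inl (γ, c.1), cp γ c.2) (Sum.inl (γ, c'.1), cp γ c'.2) := by
  induction n generalizing c with
  | zero =>
    have : c = c' := h
    rw [this]
    rfl
  | succ n ih =>
    obtain ⟨p, hp, hr⟩ := h
    exact ⟨_, step_copy N blk x γ c p hp, ih p hr⟩

theorem acc_copy (x : Set (Inp V)) (γ : Fin r → alternatingGroup (Fin 5)) (n : ℕ)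
    (h : N.AccIn (inpPerm (bp blk γ) ⁻¹' x) n) : (symP N blk).AccIn x (n + 2) := by
  have h1 := run_copy N blk x γ n _ _ h
  have h2 : (symP N blk).Step x (Sum.inl (γ, N.tgt), []) (Sum.inr true, []) :=
    PNet.Step.arc _ _ _ ((open_lr N blk x γ _).2 rfl)
  have h3 := run_tail _ x h1 h2
  exact ⟨_, PNet.Step.arc _ _ _ ((open_rl N blk x γ _).2 rfl), h3⟩

theorem bp_one : bp blk (1 : Fin r → alternatingGroup (Fin 5)) = 1 := by
  have h := bp_mul blk 1 1
  rw [mul_one] at h
  exact (mul_eq_left.1 h.symm)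

theorem pre_one (x : Set (Inp V)) :
    inpPerm (bp blk (1 : Fin r → alternatingGroup (Fin 5))) ⁻¹' x = x := by
  rw [bp_one]
  ext i
  rcases i with u | ⟨a, b, c⟩ <;> rfl

theorem sym_on (blk : Fin r → (Fin 5 ↪ V))
    (hd : Pairwise fun i j => Disjoint (Set.range (blk i)) (Set.range (blk j))) (i : Fin r) :
    (symP N (blkE blk hd)).SymOn (blk i) := by
  classical
  intro a ha p hp hp'
  set δ : Fin r → alternatingGroup (Fin 5) := Pi.mulSingle i ⟨a, ha⟩ with hδ
  have hpδ : p = bp (blkE blk hd) δ := by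
    ext v
    by_cases h : v ∈ Set.range (blk i)
    · obtain ⟨c, rfl⟩ := h
      rw [hp]
      have := bp_apply (blkE blk hd) δ i c
      rw [hδ, Pi.mulSingle_eq_same] at this
      exact this.symm
    · rw [hp' v h, hδ, blkE_range blk hd i _ v h]
  let φ : Equiv.Perm (SQ Q r) :=
    Equiv.sumCongr (Equiv.prodCongr (Equiv.mulLeft δ) (Equiv.refl _)) (Equiv.refl _)
  have hnone : ∀ s : Option (Inp V × Bool),
      Option.map (Prod.map (inpPerm p) id) s = none ↔ s = none := by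
    intro s
    exact Option.map_eq_none_iff
  refine ⟨φ, ?_, ?_, ?_, rfl, rfl⟩
  · rintro (⟨γ, g⟩ | _ | _) (⟨γ', h⟩ | _ | _) s
    · show (δ * γ = δ * γ' ∧ ∃ s0 ∈ N.arc g h, Option.map (Prod.map (inpPerm p) id) s =
        Option.map (Prod.map (inpPerm (bp (blkE blk hd) (δ * γ))) id) s0) ↔
        (γ = γ' ∧ ∃ s0 ∈ N.arc g h, s = Option.map (Prod.map (inpPerm (bp (blkE blk hd) γ)) id) s0)
      rw [mul_right_inj]
      have hinj : Function.Injective
          (Option.map (Prod.map (inpPerm p) (id : Bool → Bool))) :=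
        Option.map_injective (Function.Injective.prodMap (inpPerm p).injective Function.injective_id)
      have h1 : ∀ s0 : Option (Inp V × Bool),
          Option.map (Prod.map (inpPerm (bp (blkE blk hd) (δ * γ))) id) s0 =
          Option.map (Prod.map (inpPerm p) id)
            (Option.map (Prod.map (inpPerm (bp (blkE blk hd) γ)) id) s0) := by
        intro s0
        rw [Option.map_map, bp_mul, inpPerm_mul, ← hpδ]
        rfl
      simp only [h1, hinj.eq_iff]
    · exact Iff.rfl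
    · show (g = N.tgt ∧ Option.map (Prod.map (inpPerm p) id) s = none) ↔ (g = N.tgt ∧ s = none)
      rw [hnone]
    · show (h = N.src ∧ Option.map (Prod.map (inpPerm p) id) s = none) ↔ (h = N.src ∧ s = none)
      rw [hnone]
    · exact Iff.rfl
    · exact Iff.rfl
    · exact Iff.rfl
    · exact Iff.rfl
    · exact Iff.rfl
  · rintro (⟨γ, g⟩ | _) (⟨γ', c⟩ | _) (⟨γ'', h⟩ | _)
    · show (δ * γ = δ * γ' ∧ δ * γ = δ * γ'' ∧ N.push g c h) ↔ (γ = γ' ∧ γ = γ'' ∧ N.push g c h)
      rw [mul_right_inj, mul_right_inj]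
    all_goals exact Iff.rfl
  · rintro (⟨γ, g⟩ | _) (⟨γ', c⟩ | _) (⟨γ'', h⟩ | _)
    · show (δ * γ = δ * γ' ∧ δ * γ = δ * γ'' ∧ N.pop g c h) ↔ (γ = γ' ∧ γ = γ'' ∧ N.pop g c h)
      rw [mul_right_inj, mul_right_inj]
    all_goals exact Iff.rfl

end SPN

/-- SYMP -/
theorem symmetrize_pda {V Q : Type} [Fintype V] [Fintype Q] (N : PNet (Inp V) Q) (t : V)
    (hN : ∀ x, (∃ n, N.AccIn x n) ↔ Der x t) (r : ℕ) (blk : Fin r → (Fin 5 ↪ V))
    (hd : Pairwise fun i j => Disjoint (Set.range (blk i)) (Set.range (blk j)))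
    (ht : ∀ i, t ∉ Set.range (blk i)) :
    ∃ (Q' : Type) (_ : Fintype Q') (N' : PNet (Inp V) Q'),
      (∀ x, (∃ n, N'.AccIn x n) ↔ Der x t) ∧
      (∀ x n, N.AccIn x n → N'.AccIn x (n + 2)) ∧ (∀ i, N'.SymOn (blk i)) ∧
      Fintype.card Q' = 60 ^ r * Fintype.card Q + 2 := by
  have h2 : ∀ x n, N.AccIn x n → (SPN.symP N (blkE blk hd)).AccIn x (n + 2) := by
    intro x n h
    apply SPN.acc_copy N (blkE blk hd) x 1 n
    rw [SPN.pre_one]
    exact h
  refine ⟨SN.SQ Q r, inferInstance, SPN.symP N (blkE blk hd), ?_, h2, ?_, SN.card_SQ⟩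
  · intro x
    constructor
    · rintro ⟨n, hn⟩
      obtain ⟨γ, m, hm⟩ := SPN.acc_of N (blkE blk hd) x n hn
      have h3 := (hN _).1 ⟨m, hm⟩
      rw [SN.der_iff, SN.bp_fix blk hd γ t ht] at h3
      exact h3
    · intro h
      obtain ⟨n, hn⟩ := (hN x).2 h
      exact ⟨n + 2, h2 x n hn⟩
  · intro i
    exact SPN.sym_on N blk hd i

end Pool.Agent.H870R2.LS
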