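import Pool.Agent.H870R2.LS.SymC
import Pool.Agent.H870R2.LS.SCDefs

set_option autoImplicit false
set_option linter.unusedSectionVars false

/-! Symmetrisation of circuits for arbitrary invariant functions, and for the template function. -/

namespace Pool.Agent.H870R2.LS

open Finset SC

theorem symmetrize_fun {V Q : Type} [Fintype V] [Fintype Q] (C : Ckt (Inp V) Q)
    (f : Set (Inp V) → Prop) (hC : ∀ x, C.val x C.out = true ↔ f x) (r : ℕ)
    (blk : Fin r → (Fin 5 ↪ V))
    (hd : Pairwise fun i j => Disjoint (Set.range (blk i)) (Set.range (blk j)))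
    (hf : ∀ γ x, f (inpPerm (bp (blkE blk hd) γ) ⁻¹' x) ↔ f x) :
    ∃ (Q' : Type) (_ : Fintype Q') (C' : Ckt (Inp V) Q'),
      (∀ x, C'.val x C'.out = true ↔ f x) ∧ (∀ i, C'.SymOn (blk i)) ∧
      Fintype.card Q' = 60 ^ r * Fintype.card Q + 1 ∧ C'.rank C'.out = C.rank C.out + 1 := by
  classical
  refine ⟨Option ((Fin r → alternatingGroup (Fin 5)) × Q), inferInstance,
    symC C (bact (blkE blk hd)), ?_, ?_, ?_, rfl⟩
  · intro x
    rw [val_out]
    constructor
    · rintro ⟨γ, h⟩
      exact (hf γ x).1 ((hC _).1 h)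
    · intro h
      refine ⟨1, ?_⟩
      rw [map_one]
      exact (hC _).2 h
  · intro i a ha p hp1 hp2
    have hpe : p = bp (blkE blk hd) (Pi.mulSingle i ⟨a, ha⟩) := by
      ext v
      by_cases hv : v ∈ Set.range (blkE blk hd)
      · obtain ⟨⟨j, c⟩, rfl⟩ := hv
        rw [bp_apply]
        show p (blk j c) = blk j (((Pi.mulSingle i (⟨a, ha⟩ : alternatingGroup (Fin 5)) :
          Fin r → alternatingGroup (Fin 5)) j : Equiv.Perm (Fin 5)) c)
        by_cases hij : j = i
        · subst hij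
          rw [Pi.mulSingle_eq_same]
          exact hp1 c
        · rw [Pi.mulSingle_eq_of_ne hij]
          apply hp2
          intro hc
          exact Set.disjoint_left.1 (hd hij) ⟨c, rfl⟩ hc
      · rw [bp_notMem _ _ hv]
        apply hp2
        rintro ⟨c, rfl⟩
        exact hv ⟨(i, c), rfl⟩
    rw [hpe]
    exact symC_aut C (bact (blkE blk hd)) _
  · have h60 : Fintype.card (alternatingGroup (Fin 5)) = 60 := by
      have h1 := two_mul_card_alternatingGroup (α := Fin 5)
      rw [Fintype.card_perm, Fintype.card_fin] at h1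
      have h2 : Nat.factorial 5 = 120 := by decide
      omega
    rw [Fintype.card_option, Fintype.card_prod, Fintype.card_fun, h60, Fintype.card_fin]

/-- a permutation of the elements that fixes the places and the target preserves the template -/
theorem tmpl_perm {H n : ℕ} (h : 0 < H) (p : Equiv.Perm (TEl H n)) (g : Pla H n → ZMod 5 → ZMod 5)
    (hp : ∀ v a, p (some (v, a)) = some (v, g v a)) (hn : p none = none)
    (hr : ∀ v a, ∃ b, g v b = a) (y : Inp (TEl H n)) :
    inpPerm p y ∈ tmpl H n h ↔ y ∈ tmpl H n h := by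
  have hinv : ∀ u v a, p u = some (v, a) → ∃ b, u = some (v, b) ∧ g v b = a := by
    intro u v a hu
    obtain ⟨b, hb⟩ := hr v a
    refine ⟨b, p.injective ?_, hb⟩
    rw [hu, hp, hb]
  have hinvn : ∀ u, p u = none → u = none := by
    intro u hu
    apply p.injective
    rw [hu, hn]
  constructor
  · rintro (⟨v, a, hv, he⟩ | ⟨v, hv, a, b, c, he⟩ | ⟨a, he⟩)
    · rcases y with u | ⟨u1, u2, u3⟩
      · have h1 : p u = some (v, a) := Sum.inl.inj he
        obtain ⟨b, rfl, _⟩ := hinv u v a h1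
        exact Or.inl ⟨v, b, hv, rfl⟩
      · exact absurd he (by intro h; cases h)
    · rcases y with u | ⟨u1, u2, u3⟩
      · exact absurd he (by intro h; cases h)
      · have h1 : (p u1, p u2, p u3) = (some (lft v hv, a), some (rgt v hv, b), some (v, c)) :=
          Sum.inr.inj he
        simp only [Prod.mk.injEq] at h1
        obtain ⟨a', rfl, _⟩ := hinv u1 _ _ h1.1
        obtain ⟨b', rfl, _⟩ := hinv u2 _ _ h1.2.1
        obtain ⟨c', rfl, _⟩ := hinv u3 _ _ h1.2.2
        exact Or.inr (Or.inl ⟨v, hv, a', b', c', rfl⟩)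
    · rcases y with u | ⟨u1, u2, u3⟩
      · exact absurd he (by intro h; cases h)
      · have h1 : (p u1, p u2, p u3) =
            (some (rootP H n h, a), some (rootP H n h, a), none) := Sum.inr.inj he
        simp only [Prod.mk.injEq] at h1
        have h2 : u1 = u2 := p.injective (h1.1.trans h1.2.1.symm)
        subst h2
        obtain ⟨a', rfl, _⟩ := hinv u1 _ _ h1.1
        obtain rfl := hinvn u3 h1.2.2
        exact Or.inr (Or.inr ⟨a', rfl⟩)
  · rintro (⟨v, a, hv, rfl⟩ | ⟨v, hv, a, b, c, rfl⟩ | ⟨a, rfl⟩)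
    · exact Or.inl ⟨v, g v a, hv, congrArg Sum.inl (hp v a)⟩
    · refine Or.inr (Or.inl ⟨v, hv, g (lft v hv) a, g (rgt v hv) b, g v c, ?_⟩)
      show Sum.inr (p (some (lft v hv, a)), p (some (rgt v hv, b)), p (some (v, c))) = _
      rw [hp, hp, hp]
    · refine Or.inr (Or.inr ⟨g (rootP H n h) a, ?_⟩)
      show Sum.inr (p (some (rootP H n h, a)), p (some (rootP H n h, a)), p none) = _
      rw [hp, hn]

/-- the template function is invariant under such permutations -/
theorem Tem_perm {H n : ℕ} (h : 0 < H) (p : Equiv.Perm (TEl H n)) (g : Pla H n → ZMod 5 → ZMod 5)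
    (hp : ∀ v a, p (some (v, a)) = some (v, g v a)) (hn : p none = none)
    (hr : ∀ v a, ∃ b, g v b = a) (x : Set (Inp (TEl H n))) :
    Tem H n h (inpPerm p ⁻¹' x) ↔ Tem H n h x := by
  unfold Tem
  have h1 : inpPerm p ⁻¹' x ∩ tmpl H n h = inpPerm p ⁻¹' (x ∩ tmpl H n h) := by
    ext y
    show (inpPerm p y ∈ x ∧ y ∈ tmpl H n h) ↔ (inpPerm p y ∈ x ∧ inpPerm p y ∈ tmpl H n h)
    rw [tmpl_perm h p g hp hn hr y]
  rw [h1, der_perm, hn]

/-- **Every circuit for the template function can be made symmetric on the blocks of a set of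
places.** -/
theorem symmetrize_tem {Q : Type} [Fintype Q] (H n : ℕ) (h : 0 < H)
    (C : Ckt (Inp (TEl H n)) Q) (hC : ∀ x, C.val x C.out = true ↔ Tem H n h x)
    (S : Finset (Pla H n)) :
    ∃ (Q' : Type) (_ : Fintype Q') (C' : Ckt (Inp (TEl H n)) Q'),
      (∀ x, C'.val x C'.out = true ↔ Tem H n h x) ∧ (∀ v ∈ S, C'.SymOn (tblk v)) ∧
      Fintype.card Q' = 60 ^ S.card * Fintype.card Q + 1 ∧
      C'.rank C'.out = C.rank C.out + 1 := by
  classical
  let e : {v // v ∈ S} ≃ Fin S.card := S.equivFin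
  let blk : Fin S.card → (Fin 5 ↪ TEl H n) := fun i => tblk (e.symm i).1
  have hd : Pairwise fun i j => Disjoint (Set.range (blk i)) (Set.range (blk j)) := by
    intro i j hij
    rw [Set.disjoint_left]
    rintro _ ⟨a, rfl⟩ ⟨b, hb⟩
    apply hij
    have h1 : (some ((e.symm j).1, (b : ZMod 5)) : TEl H n) =
        some ((e.symm i).1, (a : ZMod 5)) := hb
    have h2 : (e.symm j).1 = (e.symm i).1 := congrArg Prod.fst (Option.some.inj h1)
    exact (e.symm.injective (Subtype.ext h2)).symm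
  obtain ⟨Q', hQ', C', h1, h2, h3, h4⟩ := symmetrize_fun C (Tem H n h) hC S.card blk hd (by
    intro γ x
    have hin : ∀ (w : {v // v ∈ S}) (a : ZMod 5),
        (some (w.1, a) : TEl H n) = blkE blk hd (e w, (a : Fin 5)) := by
      intro w a
      show _ = (some ((e.symm (e w)).1, (a : ZMod 5)) : TEl H n)
      rw [Equiv.symm_apply_apply]
    refine Tem_perm h (bp (blkE blk hd) γ) (fun v a => if hv : v ∈ S then
      ((γ (e ⟨v, hv⟩) : Equiv.Perm (Fin 5)) (a : Fin 5) : ZMod 5) else a) ?_ ?_ ?_ x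
    · intro v a
      by_cases hv : v ∈ S
      · rw [dif_pos hv, hin ⟨v, hv⟩ a, bp_apply]
        exact (hin ⟨v, hv⟩ _).symm
      · rw [dif_neg hv]
        apply bp_notMem
        rintro ⟨⟨i, c⟩, hic⟩
        apply hv
        have h5 : (some ((e.symm i).1, (c : ZMod 5)) : TEl H n) = some (v, a) := hic
        have h6 : (e.symm i).1 = v := congrArg Prod.fst (Option.some.inj h5)
        rw [← h6]
        exact (e.symm i).2
    · apply bp_notMem
      rintro ⟨⟨i, c⟩, hic⟩
      have h5 : (some ((e.symm i).1, (c : ZMod 5)) : TEl H n) = none := hic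
      cases h5
    · intro v a
      by_cases hv : v ∈ S
      · refine ⟨((γ (e ⟨v, hv⟩) : Equiv.Perm (Fin 5)).symm (a : Fin 5) : ZMod 5), ?_⟩
        rw [dif_pos hv]
        exact Equiv.apply_symm_apply (γ (e ⟨v, hv⟩) : Equiv.Perm (Fin 5)) a
      · exact ⟨a, by rw [dif_neg hv]⟩)
  refine ⟨Q', hQ', C', h1, ?_, h3, h4⟩
  intro v hv
  have h5 := h2 (e ⟨v, hv⟩)
  have h6 : blk (e ⟨v, hv⟩) = tblk v := by
    show tblk (e.symm (e ⟨v, hv⟩)).1 = tblk v
    rw [Equiv.symm_apply_apply]
  rwa [h6] at h5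

end Pool.Agent.H870R2.LS
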