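import Pool.Agent.H870R2.LS.TWalk

set_option autoImplicit false
set_option linter.unusedSectionVars false

/-! The game with a token on a binary tree. -/

namespace Pool.Agent.H870R2.LS

open Finset

/-- Comparison of the counts of a gate: for every list of types there is a sequence of tokens. -/
theorem cnt_eq_of {I Q TS TR : Type} [Fintype I] [Fintype Q] [Fintype TS] [Fintype TR]
    [DecidableEq TS] [DecidableEq TR] (C : Ckt I Q) (g : Q) (spt : Q → Q → TS)
    (rdt : Src I Q → TR) (y y' : Set I)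
    (h : ∀ l : List (TS × TR), l ≠ [] → ∃ (y0 : Set I) (p : Equiv.Perm I) (φ : Equiv.Perm Q)
      (Lft : ℕ → Equiv.Perm I),
      C.IsAut p φ ∧ φ g = g ∧ (∀ i, p i ∈ y0 ↔ i ∈ y) ∧
      (∀ b p', spt (φ b) (φ p') = spt b p') ∧ (∀ s, rdt (srcMap p φ s) = rdt s) ∧
      Lft 0 = 1 ∧
      (∀ t (_ : t < l.length) ψ, C.IsAut (Lft t) ψ → ψ g = g →
        (∀ b p', spt (ψ b) (ψ p') = spt b p') ∧ (∀ s, rdt (srcMap (Lft t) ψ s) = rdt s)) ∧
      (∀ t (ht : t < l.length) ψ, C.IsAut (Lft t) ψ → ψ g = g →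
        ∀ s a a', 0 < C.wire g a a' s → rdt s = (l[t]).2 →
          srcVal y' (C.val y') (srcMap (Lft t) ψ s) = srcVal y0 (C.val y0) s) ∧
      (∀ t (ht : t + 1 < l.length) ψ b p', C.IsAut (Lft t) ψ → ψ g = g → ψ b = b →
        spt b p' = (l[t]).1 → ∃ ψ', C.IsAut (Lft (t + 1)) ψ' ∧ ψ' g = g ∧ ψ' b = b ∧
          ψ' p' = ψ p')) (k : ℕ) :
    C.cnt y (C.val y) g k = C.cnt y' (C.val y') g k := by
  rw [cnt_typed C g spt rdt y k, cnt_typed C g spt rdt y' k]
  apply sumT_congr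
  intro l hl
  rcases l with _ | ⟨ty, l0⟩
  · simp only [tw]
  · obtain ⟨y0, p, φ, Lft, h1, h2, h3, h4, h5, h6, h7, h8, h9⟩ := h (ty :: l0) (by simp)
    generalize ty :: l0 = l at h7 h8 h9
    have e1 : ∑ e : Q × Q, C.ends g e.1 e.2 * tw (adjT C g spt rdt y e.2) e.2 l e.1 =
        ∑ e : Q × Q, C.ends g e.1 e.2 * tw (adjT C g spt rdt y0 e.2) e.2 l e.1 := by
      rw [← Equiv.sum_comp (Equiv.prodCongr φ φ)
        (fun e : Q × Q => C.ends g e.1 e.2 * tw (adjT C g spt rdt y0 e.2) e.2 l e.1)]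
      apply Finset.sum_congr rfl
      rintro ⟨a, b⟩ _
      show C.ends g a b * tw (adjT C g spt rdt y b) b l a =
        C.ends g (φ a) (φ b) * tw (adjT C g spt rdt y0 (φ b)) (φ b) l (φ a)
      rw [tw_equiv (adjT C g spt rdt y b) (adjT C g spt rdt y0 (φ b)) b (φ b) φ rfl]
      · congr 1
        have := h1.ends g a b
        rw [h2] at this
        exact this.symm
      · intro ty p1 p2
        apply adjT_map C g spt rdt h1 h2 y y0 b (φ b) ty (fun p' => h4 b p') h5
        intro s _ _ _ _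
        exact srcVal_equiv h3 s (fun q _ => h1.val h3 q)
    rw [e1]
    apply Finset.sum_congr rfl
    rintro ⟨a, b⟩ _
    show C.ends g a b * tw (adjT C g spt rdt y0 b) b l a =
      C.ends g a b * tw (adjT C g spt rdt y' b) b l a
    congr 1
    refine tw_transfer (adjT C g spt rdt y0 b) (adjT C g spt rdt y' b) b l
      (fun t ψ => C.IsAut (Lft t) ψ ∧ ψ g = g ∧ ψ b = b) (fun t ψ hψ => hψ.2.2) ?_ ?_ 1 ?_ a
    · rintro t ht ψ ⟨k1, k2, k3⟩ p1 p2
      obtain ⟨k4, k5⟩ := h7 t ht ψ k1 k2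
      refine (adjT_map C g spt rdt k1 k2 y0 y' b b (l[t]) ?_ k5 ?_ p1 p2).symm
      · intro p'
        have := k4 b p'
        rwa [k3] at this
      · intro s a1 a2 hw hs
        exact h8 t ht ψ k1 k2 s a1 a2 hw hs
    · rintro t ht ψ ⟨k1, k2, k3⟩ p1 p2 hne
      have hs : spt b p2 = (l[t]).1 := by
        by_contra hc
        apply hne
        unfold adjT
        rw [if_neg hc]
      obtain ⟨ψ', k4, k5, k6, k7⟩ := h9 t ht ψ b p2 k1 k2 k3 hs
      exact ⟨ψ', ⟨k4, k5, k6⟩, k7⟩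
    · refine ⟨?_, rfl, rfl⟩
      rw [h6]
      exact Ckt.IsAut.one

/-- the token game on circuits with walk-counting gates -/
theorem tgame {I Q : Type} [Fintype I] [Fintype Q] (C : Ckt I Q) {r q N c ρ D : ℕ}
    (hdodge : ∀ (x : ℕ), 1 ≤ x → ∀ (b : ℕ) (S Rd : ℕ → Finset ℕ),
      (∀ t, (S t).card ≤ c) → (∀ t, (Rd t).card ≤ ρ) →
      ∃ v : ℕ → ℕ, (∀ t ≤ b, v t / 2 ^ (2 * c + D) = x ∧ ∀ y ∈ Rd t, ¬ anc (v t) y) ∧
        (∀ t < b, ∀ y ∈ S (t + 1), (anc y (v t) ↔ anc y (v (t + 1)))))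
    (P : (Fin r → ZMod q) → Equiv.Perm I) (hPadd : ∀ δ δ', P (δ + δ') = P δ * P δ')
    (Z : ℕ → Set I) (Z' : Set I) (dl : ℕ → Fin r → ZMod q)
    (hdl : ∀ v w (i : Fin r), (anc i.val v ↔ anc i.val w) → dl v i = dl w i)
    (hZ : ∀ v w, 1 ≤ v → v < N → 1 ≤ w → w < N → ∀ i, P (dl w - dl v) i ∈ Z w ↔ i ∈ Z v)
    (plc : I → Finset (Fin r)) (hplc : ∀ i, (plc i).card ≤ ρ)
    (hplcP : ∀ δ i, plc (P δ i) = plc i)
    (hZ' : ∀ v i, 1 ≤ v → v < N → (∀ y ∈ plc i, v ≠ y.val) → (i ∈ Z v ↔ i ∈ Z'))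
    (Sup1 : Q → Finset (Fin r)) (h1c : ∀ g, (Sup1 g).card ≤ ρ)
    (h1 : ∀ g δ, (∀ i ∈ Sup1 g, δ i = 0) → ∃ φ, C.IsAut (P δ) φ ∧ φ g = g)
    (h1i : ∀ g δ φ, C.IsAut (P δ) φ → Sup1 (φ g) = Sup1 g)
    (Sup3 : Q → Q → Q → Finset (Fin r)) (h3c : ∀ g b p, (Sup3 g b p).card ≤ c)
    (h3 : ∀ g b p δ, (∀ i ∈ Sup3 g b p, δ i = 0) →
      ∃ φ, C.IsAut (P δ) φ ∧ φ g = g ∧ φ b = b ∧ φ p = p)
    (h3i : ∀ g b p δ φ, C.IsAut (P δ) φ → Sup3 (φ g) (φ b) (φ p) = Sup3 g b p) :
    ∀ (n : ℕ) (g : Q), C.rank g = n → ∀ x, 1 ≤ x → (x + 1) * 2 ^ ((n + 1) * (2 * c + D)) ≤ N →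
      (∀ y ∈ Sup1 g, ¬ anc x y.val) → ∀ v, anc x v → v < N → C.val (Z v) g = C.val Z' g := by
  classical
  intro n
  induction n using Nat.strong_induction_on with
  | _ n ih =>
    intro g hg x hx hN hgx v hxv hvN
    have hv1 : 1 ≤ v := by
      obtain ⟨j, hj⟩ := hxv
      rcases Nat.eq_zero_or_pos v with rfl | h
      · rw [Nat.zero_div] at hj
        omega
      · exact h
    rw [C.val_eq, C.val_eq]
    congr 1
    funext k
    obtain ⟨TS, hTS⟩ : ∃ TS, TS = {S : Finset (Fin r) // S.card ≤ c} := ⟨_, rfl⟩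
    obtain ⟨TR, hTR⟩ : ∃ TR, TR = {S : Finset (Fin r) // S.card ≤ ρ} := ⟨_, rfl⟩
    have hrd : ∀ s : Src I Q, ∃ T : {S : Finset (Fin r) // S.card ≤ ρ},
        (∀ i c, s = some (Sum.inl (i, c)) → T.1 = plc i) ∧
        (∀ h, s = some (Sum.inr h) → T.1 = Sup1 h) ∧ (s = none → T.1 = ∅) := by
      intro s
      rcases s with _ | ⟨i, c⟩ | h
      · exact ⟨⟨∅, by rw [Finset.card_empty]; exact Nat.zero_le _⟩,
          (fun _ _ h => by cases h), (fun _ h => by cases h), fun _ => rfl⟩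
      · refine ⟨⟨plc i, hplc i⟩, ?_, (fun _ h => by cases h), (fun h => by cases h)⟩
        intro i' c' h
        have h2 := Sum.inl.inj (Option.some.inj h)
        have h3 : i = i' := (Prod.ext_iff.1 h2).1
        show plc i = plc i'
        rw [h3]
      · refine ⟨⟨Sup1 h, h1c h⟩, (fun _ _ h => by cases h), ?_, (fun h => by cases h)⟩
        intro h' he
        have h3 : h = h' := Sum.inr.inj (Option.some.inj he)
        show Sup1 h = Sup1 h'
        rw [h3]
    choose rdt hrd1 hrd2 hrd3 using hrd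
    have hri : ∀ δ φ s, C.IsAut (P δ) φ → rdt (srcMap (P δ) φ s) = rdt s := by
      intro δ φ s hφ
      apply Subtype.ext
      rcases s with _ | ⟨i, c⟩ | h
      · rfl
      · rw [hrd1 (srcMap (P δ) φ (some (Sum.inl (i, c)))) (P δ i) c rfl,
          hrd1 (some (Sum.inl (i, c))) i c rfl, hplcP]
      · rw [hrd2 (srcMap (P δ) φ (some (Sum.inr h))) (φ h) rfl,
          hrd2 (some (Sum.inr h)) h rfl, h1i h δ φ hφ]
    apply cnt_eq_of (TS := {S : Finset (Fin r) // S.card ≤ c})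
      (TR := {S : Finset (Fin r) // S.card ≤ ρ}) C g (fun b p => ⟨Sup3 g b p, h3c g b p⟩) rdt
    intro l hl
    have hl0 : 0 < l.length := List.length_pos_iff.2 hl
    obtain ⟨tk, hk1, hk2⟩ := hdodge x hx (l.length - 1)
      (fun t => if ht : t - 1 < l.length then ((l[t - 1]).1.1).map Fin.valEmbedding else ∅)
      (fun t => if ht : t < l.length then ((l[t]).2.1).map Fin.valEmbedding else ∅)
      (by
        intro t
        by_cases ht : t - 1 < l.length
        · rw [dif_pos ht, Finset.card_map]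
          exact (l[t - 1]).1.2
        · rw [dif_neg ht, Finset.card_empty]
          exact Nat.zero_le _)
      (by
        intro t
        by_cases ht : t < l.length
        · rw [dif_pos ht, Finset.card_map]
          exact (l[t]).2.2
        · rw [dif_neg ht, Finset.card_empty]
          exact Nat.zero_le _)
    have hok : ∀ t, t < l.length → 1 ≤ tk t ∧ tk t < N ∧
        (tk t + 1) * 2 ^ (n * (2 * c + D)) ≤ N ∧ anc x (tk t) := by
      intro t ht
      have h4 := (hk1 t (by omega)).1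
      have h5 : tk t < (x + 1) * 2 ^ (2 * c + D) := by
        have := Nat.lt_mul_div_succ (tk t) (show 0 < 2 ^ (2 * c + D) by positivity)
        rw [h4, mul_comm] at this
        exact this
      have h6 : 1 ≤ tk t := by
        rcases Nat.eq_zero_or_pos (tk t) with h | h
        · rw [h, Nat.zero_div] at h4
          omega
        · exact h
      have h7 : (tk t + 1) * 2 ^ (n * (2 * c + D)) ≤ N := by
        calc (tk t + 1) * 2 ^ (n * (2 * c + D))
            ≤ ((x + 1) * 2 ^ (2 * c + D)) * 2 ^ (n * (2 * c + D)) :=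
              Nat.mul_le_mul_right _ h5
          _ = (x + 1) * 2 ^ ((n + 1) * (2 * c + D)) := by
              rw [mul_assoc, ← pow_add]
              congr 2
              ring
          _ ≤ N := hN
      have h8 : tk t < N := by
        have h9 : 1 ≤ 2 ^ (n * (2 * c + D)) := Nat.one_le_two_pow
        have h10 : (tk t + 1) * 1 ≤ (tk t + 1) * 2 ^ (n * (2 * c + D)) :=
          Nat.mul_le_mul_left _ h9
        omega
      exact ⟨h6, h8, h7, ⟨2 * c + D, h4⟩⟩
    have hR : ∀ t (ht : t < l.length), ∀ y ∈ (l[t]).2.1, ¬ anc (tk t) y.val := by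
      intro t ht y hy
      have h11 := (hk1 t (by omega)).2 y.val
      simp only [dif_pos ht] at h11
      exact h11 (Finset.mem_map.2 ⟨y, hy, rfl⟩)
    have hS : ∀ t (ht : t + 1 < l.length), ∀ y ∈ (l[t]).1.1,
        (anc y.val (tk t) ↔ anc y.val (tk (t + 1))) := by
      intro t ht y hy
      have h11 := hk2 t (by omega) y.val
      simp only [Nat.add_sub_cancel] at h11
      rw [dif_pos (show t < l.length by omega)] at h11
      exact h11 (Finset.mem_map.2 ⟨y, hy, rfl⟩)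
    clear hk1 hk2
    have h00 := hok 0 hl0
    obtain ⟨φ, hφ, hφg⟩ := h1 g (dl (tk 0) - dl v) (by
      intro i hi
      have h4 := anc_move hxv h00.2.2.2 (hgx i hi)
      rw [Pi.sub_apply, hdl _ _ i h4, sub_self])
    have hsp : ∀ δ ψ b p, C.IsAut (P δ) ψ → ψ g = g → Sup3 g (ψ b) (ψ p) = Sup3 g b p := by
      intro δ ψ b p hψ hψg
      have := h3i g b p δ ψ hψ
      rwa [hψg] at this
    refine ⟨Z (tk 0), P (dl (tk 0) - dl v), φ, fun t => P (dl (tk t) - dl (tk 0)), hφ, hφg,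
      hZ v (tk 0) hv1 hvN h00.1 h00.2.1, ?_, fun s => hri _ φ s hφ, ?_, ?_, ?_, ?_⟩
    · intro b p'
      exact Subtype.ext (hsp _ φ b p' hφ hφg)
    · show P (dl (tk 0) - dl (tk 0)) = 1
      rw [sub_self]
      have := hPadd 0 0
      rw [add_zero] at this
      exact mul_eq_left.1 this.symm
    · intro t _ ψ hψ hψg
      exact ⟨fun b p' => Subtype.ext (hsp _ ψ b p' hψ hψg), fun s => hri _ ψ s hψ⟩
    · intro t ht ψ hψ hψg s a a' hw hs
      have hy : ∀ i, P (dl (tk t) - dl (tk 0)) i ∈ Z (tk t) ↔ i ∈ Z (tk 0) :=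
        hZ (tk 0) (tk t) h00.1 h00.2.1 (hok t ht).1 (hok t ht).2.1
      rw [← srcVal_equiv hy s (fun h _ => hψ.val hy h)]
      have hc3 : rdt (srcMap (P (dl (tk t) - dl (tk 0))) ψ s) = (l[t]).2 := by
        rw [hri _ ψ s hψ, hs]
      have hw2 : 0 < C.wire g (ψ a) (ψ a') (srcMap (P (dl (tk t) - dl (tk 0))) ψ s) := by
        have := hψ.wire g a a' s
        rw [hψg] at this
        rw [this]
        exact hw
      obtain ⟨s', hs'⟩ : ∃ s', s' = srcMap (P (dl (tk t) - dl (tk 0))) ψ s := ⟨_, rfl⟩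
      have hR' := hR t ht
      rw [← hc3] at hR'
      show srcVal Z' (C.val Z') (srcMap (P (dl (tk t) - dl (tk 0))) ψ s) =
        srcVal (Z (tk t)) (C.val (Z (tk t))) (srcMap (P (dl (tk t) - dl (tk 0))) ψ s)
      rw [← hs'] at hR' hw2 ⊢
      rcases s' with _ | ⟨i, cc⟩ | h
      · simp only [srcVal]
      · rw [hrd1 _ i cc rfl] at hR'
        unfold srcVal
        rw [decide_eq_decide]
        have := hZ' (tk t) i (hok t ht).1 (hok t ht).2.1 (by
          intro y hyp he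
          apply hR' y hyp
          rw [he]
          exact anc_refl _)
        rw [this]
      · rw [hrd2 _ h rfl] at hR'
        have hrk : C.rank h < C.rank g := C.acyc _ _ _ _ hw2
        unfold srcVal
        symm
        apply ih (C.rank h) (by omega) h rfl (tk t) (hok t ht).1 _ hR' (tk t) (anc_refl _)
          (hok t ht).2.1
        refine le_trans (Nat.mul_le_mul_left _ ?_) (hok t ht).2.2.1
        apply Nat.pow_le_pow_right (by norm_num)
        exact Nat.mul_le_mul_right _ (by omega)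
    · intro t ht ψ b p' hψ hψg hψb hs
      obtain ⟨β, hβ, hβg, hβb, hβp⟩ := h3 g b p' (dl (tk (t + 1)) - dl (tk t)) (by
        intro i hi
        have h2 : Sup3 g b p' = (l[t]).1.1 := congrArg Subtype.val hs
        rw [h2] at hi
        have h4 := hS t ht i hi
        rw [Pi.sub_apply, hdl _ _ i h4, sub_self])
      have hφβ := hψ.mul hβ
      rw [← hPadd] at hφβ
      have e2 : dl (tk t) - dl (tk 0) + (dl (tk (t + 1)) - dl (tk t)) =
          dl (tk (t + 1)) - dl (tk 0) := by ring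
      rw [e2] at hφβ
      exact ⟨ψ * β, hφβ, by rw [Equiv.Perm.mul_apply, hβg, hψg],
        by rw [Equiv.Perm.mul_apply, hβb, hψb], by rw [Equiv.Perm.mul_apply, hβp]⟩

end Pool.Agent.H870R2.LS
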