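import Pool.Agent.H870R2.LS.TGame
import Pool.Agent.H870R2.LS.TArena
import Pool.Agent.H870R2.LS.Dodge
import Pool.Agent.H870R2.LS.SupQ

set_option autoImplicit false
set_option linter.unusedSectionVars false

/-! Lower bound for locally symmetric circuits for tree evaluation. -/

namespace Pool.Agent.H870R2.LS

open Finset

/-- **Lower bound for tree evaluation.** -/
theorem tree_lower {h q R : ℕ} [NeZero q] (hq : 5 ≤ q) (hodd : Odd q) (hRh : R ≤ h)
    {Q : Type} [Fintype Q] (C : Ckt (Inp (EEl h q)) Q)
    (hC : ∀ x, C.val x C.out = true ↔ TreeDer h q x)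
    (hs : ∀ v : Fin (2 ^ (h + 1)), v.val < 2 ^ (R + 1) → C.SymOnT (eblk (q := q) v))
    (m : ℕ) (hm : 1 ≤ m) (hR : 13 * m * (C.rank C.out + 1) ≤ R) : q ^ m ≤ Fintype.card Q := by
  classical
  by_contra hcard
  rw [not_le] at hcard
  have hrle : 2 ^ (R + 1) ≤ 2 ^ (h + 1) := Nat.pow_le_pow_right (by norm_num) (by omega)
  let ca : Fin (2 ^ (R + 1)) → Fin (2 ^ (h + 1)) := fun i => Fin.castLE hrle i
  have hcaval : ∀ i, (ca i).val = i.val := fun i => rfl
  let blk : Fin (2 ^ (R + 1)) → (ZMod q ↪ EEl h q) := fun i => eblk (ca i)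
  have hd : Pairwise fun i j => Disjoint (Set.range (blk i)) (Set.range (blk j)) := by
    intro i j hij
    rw [Set.disjoint_left]
    rintro _ ⟨a, rfl⟩ ⟨b, hb⟩
    apply hij
    have h1 : (some (ca j, b) : EEl h q) = some (ca i, a) := hb
    have h2 : ca j = ca i := congrArg Prod.fst (Option.some.inj h1)
    exact (Fin.castLE_injective hrle h2).symm
  have hsb : ∀ i, C.SymOnT (blk i) := fun i => hs (ca i) i.2
  obtain ⟨P0, hP1, hP2, hP3⟩ := sup_exists hq hodd C blk hd hsb m hcard
  obtain ⟨SupA, a1, a2, a3⟩ := hP3 1 le_rfl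
  obtain ⟨SupB, b1, b2, b3⟩ := hP3 3 (by norm_num)
  -- the translations
  obtain ⟨ex, hex⟩ : ∃ ex : (Fin (2 ^ (R + 1)) → ZMod q) → ℕ → ZMod q, ∀ δ y,
      ex δ y = if hy : y < 2 ^ (R + 1) then δ ⟨y, hy⟩ else 0 := ⟨_, fun _ _ => rfl⟩
  have hPs : ∀ δ (v : Fin (2 ^ (h + 1))) (a : ZMod q),
      P0 δ (some (v, a)) = some (v, a + ex δ v.val) := by
    intro δ v a
    rw [hex]
    by_cases hv : v.val < 2 ^ (R + 1)
    · rw [dif_pos hv]
      have h1 := hP1 δ ⟨v.val, hv⟩ a
      have h2 : ∀ c : ZMod q, blk ⟨v.val, hv⟩ c = some (v, c) := fun c => rfl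
      rw [h2, h2] at h1
      exact h1
    · rw [dif_neg hv, add_zero]
      apply hP2
      rintro i ⟨c, hc⟩
      apply hv
      have h1 : (some (ca i, c) : EEl h q) = some (v, a) := hc
      have h2 : ca i = v := congrArg Prod.fst (Option.some.inj h1)
      rw [← h2]
      exact i.2
  have hPn : ∀ δ, P0 δ none = none := by
    intro δ
    apply hP2
    rintro i ⟨c, hc⟩
    cases hc
  have hPadd0 : ∀ δ δ', P0 (δ + δ') = P0 δ * P0 δ' := by
    intro δ δ'
    ext1 u
    rw [Equiv.Perm.mul_apply]
    rcases u with _ | ⟨v, a⟩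
    · rw [hPn, hPn, hPn]
    · rw [hPs, hPs, hPs]
      congr 2
      rw [hex, hex, hex]
      by_cases hv : v.val < 2 ^ (R + 1)
      · rw [dif_pos hv, dif_pos hv, dif_pos hv, Pi.add_apply]
        ring
      · rw [dif_neg hv, dif_neg hv, dif_neg hv]
        ring
  have hPadd : ∀ δ δ', inpPerm (P0 (δ + δ')) = inpPerm (P0 δ) * inpPerm (P0 δ') := by
    intro δ δ'
    rw [hPadd0]
    ext u
    rcases u with u | ⟨u1, u2, u3⟩ <;> rfl
  -- all translations lift
  have hall : ∀ δ, ∃ φ, C.IsAut (inpPerm (P0 δ)) φ := by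
    intro δ
    have h0 : P0 0 = 1 := by
      have := hPadd0 0 0
      rw [add_zero] at this
      exact mul_eq_left.1 this.symm
    have hone : inpPerm (P0 0) = 1 := by
      rw [h0]
      ext u
      rcases u with u | ⟨u1, u2, u3⟩ <;> rfl
    have hsing : ∀ i (a : ZMod q), ∃ φ, C.IsAut (inpPerm (P0 (Pi.single i a))) φ := by
      intro i a
      apply hsb i (Equiv.addRight a) (trans_even hodd a)
      · intro c
        rw [hP1, Pi.single_eq_same]
        rfl
      · intro v hv
        rcases v with _ | ⟨v, b⟩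
        · exact hPn _
        · rw [hPs, hex]
          by_cases hv' : v.val < 2 ^ (R + 1)
          · rw [dif_pos hv', Pi.single_eq_of_ne, add_zero]
            rintro rfl
            exact hv ⟨b, rfl⟩
          · rw [dif_neg hv', add_zero]
    have key : ∀ s : Finset (Fin (2 ^ (R + 1))),
        ∃ φ, C.IsAut (inpPerm (P0 (∑ i ∈ s, Pi.single i (δ i)))) φ := by
      intro s
      induction s using Finset.induction_on with
      | empty =>
        rw [Finset.sum_empty, hone]
        exact ⟨1, Ckt.IsAut.one⟩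
      | insert i s hi ih =>
        obtain ⟨φ, hφ⟩ := ih
        obtain ⟨ψ, hψ⟩ := hsing i (δ i)
        rw [Finset.sum_insert hi, hPadd]
        exact ⟨ψ * φ, hψ.mul hφ⟩
    have := key Finset.univ
    rwa [Finset.univ_sum_single] at this
  -- places of variables
  obtain ⟨pl, hpl⟩ : ∃ pl : Inp (EEl h q) → Option ℕ,
      (∀ v a, pl (Sum.inl (some (v, a))) = some v.val) ∧
      (∀ x y v a, pl (Sum.inr (x, y, some (v, a))) = some v.val) ∧
      (pl (Sum.inl none) = none) ∧ (∀ x y, pl (Sum.inr (x, y, none)) = none) :=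
    ⟨fun i => match i with
      | Sum.inl (some (v, _)) => some v.val
      | Sum.inr (_, _, some (v, _)) => some v.val
      | Sum.inl none => none
      | Sum.inr (_, _, none) => none, fun _ _ => rfl, fun _ _ _ _ => rfl, rfl, fun _ _ => rfl⟩
  obtain ⟨hpl1, hpl2, hpl3, hpl4⟩ := hpl
  have hplP : ∀ δ i, pl (inpPerm (P0 δ) i) = pl i := by
    intro δ i
    rcases i with u | ⟨u1, u2, u3⟩
    · show pl (Sum.inl (P0 δ u)) = pl (Sum.inl u)
      rcases u with _ | ⟨v, a⟩
      · rw [hPn]
      · rw [hPs, hpl1, hpl1]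
    · show pl (Sum.inr (P0 δ u1, P0 δ u2, P0 δ u3)) = pl (Sum.inr (u1, u2, u3))
      rcases u3 with _ | ⟨v, a⟩
      · rw [hPn, hpl4, hpl4]
      · rw [hPs, hpl2, hpl2]
  have hm2 : 2 * m ≤ 2 ^ m := by
    have h1 : m - 1 < 2 ^ (m - 1) := Nat.lt_two_pow_self
    have h2 : 2 ^ m = 2 ^ (m - 1) * 2 := by
      rw [← pow_succ]
      congr 1
      omega
    omega
  have hkey := tgame C (r := 2 ^ (R + 1)) (q := q) (N := 2 ^ (R + 1)) (c := 6 * m - 1)
    (ρ := 2 * m - 1) (D := m)
    (fun x hx b S Rd hS hR' => dodge (2 * m - 1) m (by omega) (6 * m - 1) x hx b S Rd hS hR')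
    (fun δ => inpPerm (P0 δ)) hPadd (fun v => ZZ h q v) (instZ h (fun _ => (0 : ZMod q)) 1)
    (fun v i => offs q v i.val)
    (by
      intro v w i hi
      show offs q v i.val = offs q w i.val
      unfold offs
      by_cases h1 : anc i.val v
      · rw [if_pos h1, if_pos (hi.1 h1)]
      · rw [if_neg h1, if_neg (fun h2 => h1 (hi.2 h2))])
    (by
      intro v w hv1 hvN hw1 hwN i
      apply ZZ_move v w hv1 (lt_of_lt_of_le hvN hrle) hw1 (lt_of_lt_of_le hwN hrle)
      · intro u a
        rw [hPs, hex]
        by_cases hu : u.val < 2 ^ (R + 1)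
        · rw [dif_pos hu]
          rfl
        · rw [dif_neg hu]
          have k1 : offs q w u.val = 0 := by
            unfold offs
            rw [if_neg]
            intro k
            have := anc_le k
            omega
          have k2 : offs q v u.val = 0 := by
            unfold offs
            rw [if_neg]
            intro k
            have := anc_le k
            omega
          rw [k1, k2, sub_zero]
      · exact hPn _)
    (fun i => Finset.univ.filter (fun y => pl i = some y.val))
    (by
      intro i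
      refine le_trans (Finset.card_le_one.2 ?_) (by omega)
      intro a ha b hb
      rw [Finset.mem_filter] at ha hb
      have := ha.2.symm.trans hb.2
      exact Fin.ext (Option.some.inj this))
    (by
      intro δ i
      show Finset.univ.filter (fun y : Fin (2 ^ (R + 1)) => pl (inpPerm (P0 δ) i) = some y.val) =
        Finset.univ.filter (fun y : Fin (2 ^ (R + 1)) => pl i = some y.val)
      rw [hplP])
    (by
      intro v i hv1 hvN hvi
      have hpv : pl i ≠ some v := by
        intro he
        exact hvi ⟨v, hvN⟩ (Finset.mem_filter.2 ⟨Finset.mem_univ _, he⟩) rfl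
      have hne : ∀ y : ℕ, pl i = some y → (if y = v then (1 : ZMod q) else 0) = 0 := by
        intro y hy
        rw [if_neg]
        rintro rfl
        exact hpv hy
      constructor
      · rintro (⟨y, hy, rfl⟩ | ⟨y, yl, yr, a, b, k1, k2, k3, rfl⟩ | ⟨y, hy, rfl⟩)
        · left
          refine ⟨y, hy, ?_⟩
          have e1 : (if y.val = v then (1 : ZMod q) else 0) = 0 := hne y.val (hpl1 y _)
          show (Sum.inl (some (y, if y.val = v then (1 : ZMod q) else 0)) : Inp (EEl h q)) =
            Sum.inl (some (y, (0 : ZMod q)))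
          rw [e1]
        · right; left
          refine ⟨y, yl, yr, a, b, k1, k2, k3, ?_⟩
          have e1 : (if y.val = v then (1 : ZMod q) else 0) = 0 := hne y.val (hpl2 _ _ y _)
          show (Sum.inr (_, _, some (y, a + b + if y.val = v then (1 : ZMod q) else 0)) :
            Inp (EEl h q)) = Sum.inr (_, _, some (y, a + b + (0 : ZMod q)))
          rw [e1]
        · right; right
          exact ⟨y, hy, rfl⟩
      · rintro (⟨y, hy, rfl⟩ | ⟨y, yl, yr, a, b, k1, k2, k3, rfl⟩ | ⟨y, hy, rfl⟩)
        · left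
          refine ⟨y, hy, ?_⟩
          have e1 : (if y.val = v then (1 : ZMod q) else 0) = 0 := hne y.val (hpl1 y _)
          show (Sum.inl (some (y, (0 : ZMod q))) : Inp (EEl h q)) =
            Sum.inl (some (y, if y.val = v then (1 : ZMod q) else 0))
          rw [e1]
        · right; left
          refine ⟨y, yl, yr, a, b, k1, k2, k3, ?_⟩
          have e1 : (if y.val = v then (1 : ZMod q) else 0) = 0 := hne y.val (hpl2 _ _ y _)
          show (Sum.inr (_, _, some (y, a + b + (0 : ZMod q))) : Inp (EEl h q)) =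
            Sum.inr (_, _, some (y, a + b + if y.val = v then (1 : ZMod q) else 0))
          rw [e1]
        · right; right
          exact ⟨y, hy, rfl⟩)
    (fun g => if g = C.out then ∅ else SupA (fun _ => g))
    (by
      intro g
      by_cases hg : g = C.out
      · rw [if_pos hg, Finset.card_empty]
        exact Nat.zero_le _
      · rw [if_neg hg]
        have := a1 (fun _ => g)
        omega)
    (by
      intro g δ hδ
      by_cases hg : g = C.out
      · obtain ⟨φ, hφ⟩ := hall δ
        exact ⟨φ, hφ, by rw [hg, hφ.out]⟩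
      · rw [if_neg hg] at hδ
        obtain ⟨φ, h1, h2⟩ := a2 (fun _ => g) δ hδ
        exact ⟨φ, h1, h2 0⟩)
    (by
      intro g δ φ hφ
      show (if φ g = C.out then ∅ else SupA (fun _ => φ g)) =
        if g = C.out then ∅ else SupA (fun _ => g)
      by_cases hg : g = C.out
      · rw [if_pos hg, if_pos (by rw [hg, hφ.out])]
      · rw [if_neg hg, if_neg]
        · exact a3 (fun _ => g) δ φ hφ
        · intro h1
          apply hg
          apply φ.injective
          rw [h1, hφ.out])
    (fun g b p => SupB ![g, b, p])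
    (by
      intro g b p
      have := b1 ![g, b, p]
      show (SupB ![g, b, p]).card ≤ _
      omega)
    (by
      intro g b p δ hδ
      obtain ⟨φ, h1, h2⟩ := b2 ![g, b, p] δ hδ
      exact ⟨φ, h1, h2 0, h2 1, h2 2⟩)
    (by
      intro g b p δ φ hφ
      have := b3 ![g, b, p] δ φ hφ
      show SupB ![φ g, φ b, φ p] = SupB ![g, b, p]
      rw [← this]
      congr 1
      funext j
      fin_cases j <;> rfl)
    (C.rank C.out) C.out rfl 1 le_rfl
    (by
      have h1 : (C.rank C.out + 1) * (2 * (6 * m - 1) + m) ≤ R := by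
        refine le_trans ?_ hR
        rw [mul_comm (13 * m)]
        exact Nat.mul_le_mul_left _ (by omega)
      calc (1 + 1) * 2 ^ ((C.rank C.out + 1) * (2 * (6 * m - 1) + m)) ≤ (1 + 1) * 2 ^ R :=
            Nat.mul_le_mul_left _ (Nat.pow_le_pow_right (by norm_num) h1)
        _ = 2 ^ (R + 1) := by rw [pow_succ]; ring)
    (by
      intro y hy
      rw [if_pos rfl] at hy
      exact absurd hy (Finset.notMem_empty _))
    1 (anc_refl 1) (Nat.one_lt_two_pow (by omega))
  have y0 : C.val (ZZ h q 1) C.out = true := by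
    rw [hC]
    unfold TreeDer
    rw [Set.inter_eq_left.2 (show ZZ h q 1 ⊆ ttmpl h q from instZ_sub _ _)]
    exact ZZ_yes h q
  rw [hkey, hC] at y0
  unfold TreeDer at y0
  rw [Set.inter_eq_left.2 (instZ_sub _ _)] at y0
  exact ZZ_no h hq y0

end Pool.Agent.H870R2.LS
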