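import Pool.Agent.H870R2.LS.Arena

set_option autoImplicit false
set_option linter.unusedSectionVars false

/-! The template function: lower bound for circuits that are symmetric on the first rows. -/

namespace Pool.Agent.H870R2.LS

open Finset Pool.Agent.H545R2

/-- the places of the first `R` rows -/
abbrev WR (H n R : ℕ) := {v : Pla H n // v.1.val < R}

/-- extension by zero -/
def exz {H n R : ℕ} (δ : WR H n R → ZMod 5) (v : Pla H n) : ZMod 5 :=
  if hv : v.1.val < R then δ ⟨v, hv⟩ else 0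

/-- translation of the labels -/
def labP {H n : ℕ} (δ : Pla H n → ZMod 5) : Equiv.Perm (TEl H n) :=
  Equiv.optionCongr (Equiv.prodShear (Equiv.refl (Pla H n)) (fun v => Equiv.addRight (δ v)))

theorem labP_some {H n : ℕ} (δ : Pla H n → ZMod 5) (v : Pla H n) (a : ZMod 5) :
    labP δ (some (v, a)) = some (v, a + δ v) := rfl

theorem labP_none {H n : ℕ} (δ : Pla H n → ZMod 5) : labP δ none = none := rfl

theorem exz_add {H n R : ℕ} (δ δ' : WR H n R → ZMod 5) : exz (δ + δ') = exz δ + exz δ' := by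
  funext v
  rw [Pi.add_apply]
  unfold exz
  by_cases hv : v.1.val < R
  · rw [dif_pos hv, dif_pos hv, dif_pos hv, Pi.add_apply]
  · rw [dif_neg hv, dif_neg hv, dif_neg hv, add_zero]

theorem exz_res {H n R : ℕ} (d : Pla H n → ZMod 5) (h : ∀ v, ¬ v.1.val < R → d v = 0) :
    exz (fun v : WR H n R => d v.1) = d := by
  funext v
  unfold exz
  by_cases hv : v.1.val < R
  · rw [dif_pos hv]
  · rw [dif_neg hv, h v hv]

theorem labP_add {H n : ℕ} (δ δ' : Pla H n → ZMod 5) : labP (δ + δ') = labP δ * labP δ' := by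
  ext1 v
  rw [Equiv.Perm.mul_apply]
  rcases v with _ | ⟨v, a⟩
  · rfl
  · rw [labP_some, labP_some, labP_some, Pi.add_apply, add_assoc, add_comm (δ' v)]

section blocks

variable {H n R : ℕ}

/-- the enumeration of the places of the first rows -/
noncomputable def eR (H n R : ℕ) : WR H n R ≃ Fin (Fintype.card (WR H n R)) := Fintype.equivFin _

/-- the symmetric blocks -/
noncomputable def blkR (H n R : ℕ) (i : Fin (Fintype.card (WR H n R))) : Fin 5 ↪ TEl H n :=
  tblk ((eR H n R).symm i).1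

theorem blkR_disj (H n R : ℕ) :
    Pairwise fun i j => Disjoint (Set.range (blkR H n R i)) (Set.range (blkR H n R j)) := by
  intro i j hij
  rw [Set.disjoint_left]
  rintro _ ⟨a, rfl⟩ ⟨b, hb⟩
  apply hij
  have h1 : (some (((eR H n R).symm j).1, (b : ZMod 5)) : TEl H n) =
      some (((eR H n R).symm i).1, (a : ZMod 5)) := hb
  have h2 : ((eR H n R).symm j).1 = ((eR H n R).symm i).1 := congrArg Prod.fst (Option.some.inj h1)
  exact ((eR H n R).symm.injective (Subtype.ext h2)).symm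

theorem bp_blkR (δ : WR H n R → ZMod 5) :
    bp (blkE (blkR H n R) (blkR_disj H n R)) (gam (eR H n R).toEmbedding δ) = labP (exz δ) := by
  ext1 u
  by_cases hu : ∃ (v : Pla H n) (hv : v.1.val < R) (a : ZMod 5), u = some (v, a)
  · obtain ⟨v, hv, a, rfl⟩ := hu
    have h1 : (some (v, a) : TEl H n) =
        blkE (blkR H n R) (blkR_disj H n R) (eR H n R ⟨v, hv⟩, (a : Fin 5)) := by
      show _ = (some (((eR H n R).symm (eR H n R ⟨v, hv⟩)).1, (a : ZMod 5)) : TEl H n)
      rw [Equiv.symm_apply_apply]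
    rw [labP_some]
    rw [h1, SN.bp_apply]
    have h2 : gam (eR H n R).toEmbedding δ (eR H n R ⟨v, hv⟩) = rot (δ ⟨v, hv⟩) :=
      gam_apply (eR H n R).toEmbedding δ ⟨v, hv⟩
    rw [h2]
    show (some (((eR H n R).symm (eR H n R ⟨v, hv⟩)).1, (a + δ ⟨v, hv⟩ : ZMod 5)) : TEl H n) = _
    rw [Equiv.symm_apply_apply]
    unfold exz
    rw [dif_pos hv]
  · have h1 : u ∉ Set.range (blkE (blkR H n R) (blkR_disj H n R)) := by
      rintro ⟨⟨i, a⟩, rfl⟩
      exact hu ⟨((eR H n R).symm i).1, ((eR H n R).symm i).2, a, rfl⟩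
    rw [SN.bp_notMem _ _ h1]
    rcases u with _ | ⟨v, a⟩
    · rfl
    · rw [labP_some]
      unfold exz
      rw [dif_neg (fun hv => hu ⟨v, hv, a, rfl⟩), add_zero]

end blocks

theorem tem_lowerR {Q : Type} [Fintype Q] (H n : ℕ) (h : 0 < H) (C : Ckt (Inp (TEl H n)) Q)
    (hC : ∀ x, C.val x C.out = true ↔ Tem H n h x) (R : ℕ) (hRH : R ≤ H)
    (hs : ∀ v : Pla H n, v.1.val < R → C.SymOn (tblk v))
    (k : ℕ) (hk : 1 ≤ k) (hcard : Fintype.card Q < 5 ^ k) (m : ℕ)
    (hm : 2 * Fintype.card Q ≤ 2 ^ m ∨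
      ∀ g N N', (∀ j ≤ 2 ^ m, N j = N' j) → C.F g N = C.F g N')
    (s : ℕ) (hH : (C.rank C.out + 1) * (m + 2) + 2 ≤ R)
    (hs5 : 5 * (H * (n + 1) * (n + 1)) ≤ 5 ^ s) (hn : s * (16 * k + 2) < n + 1) : False := by
  classical
  obtain ⟨M, hM⟩ := exists_spread H n (8 * k + 1) (8 * k + 1) s h hs5 (by
    have : 8 * k + 1 + (8 * k + 1) = 16 * k + 2 := by ring
    rw [this]
    exact hn)
  obtain ⟨z, hz⟩ : ∃ z, z = rootP H n h := ⟨_, rfl⟩
  have hz0 : z.1.val = 0 := by rw [hz]; rfl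
  have hzl : z.2.2 = Fin.last n := by rw [hz]; rfl
  let el : Pla H n → ZMod 5 → TEl H n := fun v a => some (v, a)
  let Cfg := (Pla H n → ZMod 5) × ZMod 5
  let G : Cfg → Set (Inp (TEl H n)) := fun κ => inst M el none z κ.1 κ.2
  let P : (WR H n R → ZMod 5) → Equiv.Perm (Inp (TEl H n)) := fun δ => inpPerm (labP (exz δ))
  let act : (WR H n R → ZMod 5) → Cfg → Cfg := fun δ κ => (κ.1 + Curv M (exz δ), κ.2 + exz δ z)
  have hPadd : ∀ δ δ', P (δ + δ') = P δ * P δ' := by
    intro δ δ'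
    show inpPerm (labP (exz (δ + δ'))) = _
    rw [exz_add, labP_add, SN.inpPerm_mul]
  have hG : ∀ δ κ i, P δ i ∈ G (act δ κ) ↔ i ∈ G κ := by
    intro δ κ i
    exact inst_act M el none z (exz δ) (labP (exz δ)) (labP_some (exz δ)) rfl κ.1 κ.2 i
  let Hid : ℕ → Finset (WR H n R) → Cfg → Cfg → Prop := fun j S κ κ' =>
    ∃ (i : ℕ) (u : Fin (n + 1) → ZMod 5), i + j + 2 ≤ R ∧ Lie M i u z = 1 ∧
      (∀ v ∈ S, v.1.1.val = i → u v.1.2.1 = 0) ∧
      κ'.1 = κ.1 - Curv M (Lie M i u) ∧ κ'.2 = κ.2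
  have hmono : ∀ j j' S κ κ', j' ≤ j → Hid j S κ κ' → Hid j' S κ κ' := by
    rintro j j' S κ κ' hj ⟨i, u, h1, h2⟩
    exact ⟨i, u, by omega, h2⟩
  have hzero : ∀ i u (v : Pla H n), i < v.1.val → Lie M i u v = 0 := by
    intro i u v hv
    rw [lie_row M i u v hv.le, if_neg]
    rintro ⟨h1, _⟩
    omega
  have hP1 : ∀ j S S' κ κ', Hid (j + 1) S κ κ' → S.card ≤ 8 * k → S'.card ≤ 8 * k →
      ∃ δ : WR H n R → ZMod 5, (∀ v ∈ S, δ v = 0) ∧ Hid j S' (act δ κ) κ' := by
    rintro j S S' κ κ' ⟨i, u, h1, h2, h3, h4, h5⟩ hS hS'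
    obtain ⟨u', h6, h7, h8⟩ := lie_step M (8 * k) hM i (by omega) u z hzl
      (S.map (Function.Embedding.subtype _)) (S'.map (Function.Embedding.subtype _))
      (by rw [Finset.card_map]; exact hS) (by rw [Finset.card_map]; exact hS') (by
        intro v hv
        rw [Finset.mem_map] at hv
        obtain ⟨w, hw, rfl⟩ := hv
        exact h3 w hw)
    obtain ⟨d, hd⟩ : ∃ d : Pla H n → ZMod 5, d = Lie M (i + 1) u' - Lie M i u := ⟨_, rfl⟩
    have hd0 : ∀ v, ¬ v.1.val < R → d v = 0 := by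
      intro v hv
      rw [hd, Pi.sub_apply, hzero (i + 1) u' v (by omega), hzero i u v (by omega), sub_zero]
    refine ⟨fun v => d v.1, ?_, i + 1, u', by omega, by rw [h6, h2], ?_, ?_, ?_⟩
    · intro v hv
      show d v.1 = 0
      rw [hd, Pi.sub_apply, h8 v.1 (Finset.mem_map.2 ⟨v, hv, rfl⟩), sub_self]
    · intro v hv
      exact h7 v.1 (Finset.mem_map.2 ⟨v, hv, rfl⟩)
    · show κ'.1 = κ.1 + Curv M (exz fun v : WR H n R => d v.1) - Curv M (Lie M (i + 1) u')
      rw [exz_res d hd0, h4, hd, Curv_sub]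
      ring
    · show κ'.2 = κ.2 + (exz fun v : WR H n R => d v.1) z
      rw [exz_res d hd0, h5, hd, Pi.sub_apply, h6, sub_self, add_zero]
  have hP0 : ∀ j S κ κ' i, Hid j S κ κ' →
      (∀ δ : WR H n R → ZMod 5, (∀ v ∈ S, δ v = 0) → P δ i = i) → (i ∈ G κ ↔ i ∈ G κ') := by
    rintro j S κ κ' y ⟨i, u, h1, h2, h3, h4, h5⟩ hfix
    by_contra hcon
    have hcon' : ¬ (y ∈ inst M el none z κ.1 κ.2 ↔ y ∈ inst M el none z κ'.1 κ.2) := by
      rw [← h5]
      intro h
      apply hcon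
      show y ∈ inst M el none z κ.1 κ.2 ↔ y ∈ inst M el none z κ'.1 κ'.2
      rw [← h5]
      exact h
    obtain ⟨v, a, hne, hp⟩ := inst_diff M el none z κ.1 κ'.1 κ.2 y hcon'
    have hc : Curv M (Lie M i u) v ≠ 0 := by
      intro h
      apply hne
      rw [h4, Pi.sub_apply, h, sub_zero]
    rw [curv_lie M i (by omega) u v] at hc
    have hvi : v.1.val = i := by
      by_contra hvi
      exact hc (if_neg (fun h => hvi h.1))
    have hvR : v.1.val < R := by omega
    have hvS : (⟨v, hvR⟩ : WR H n R) ∉ S := by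
      intro hv
      apply hc
      by_cases h : v.1.val = i ∧ v.2.2 = Fin.last n
      · rw [if_pos h]
        exact h3 ⟨v, hvR⟩ hv h.1
      · rw [if_neg h]
    have h6 := hp (labP (exz (Pi.single (⟨v, hvR⟩ : WR H n R) 1)))
      (hfix (Pi.single ⟨v, hvR⟩ 1) (by
        intro v' hv'
        rw [Pi.single_eq_of_ne]
        rintro rfl
        exact hvS hv'))
    have h7 : exz (Pi.single (⟨v, hvR⟩ : WR H n R) (1 : ZMod 5)) v = 1 := by
      unfold exz
      rw [dif_pos hvR, Pi.single_eq_same]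
    have h8 : (some (v, a + exz (Pi.single (⟨v, hvR⟩ : WR H n R) (1 : ZMod 5)) v) : TEl H n) =
        some (v, a) := h6
    rw [h7] at h8
    have h9 : a + 1 = a := (Prod.ext_iff.1 (Option.some.inj h8)).2
    have h10 : (1 : ZMod 5) = 0 := by
      have : a + 1 - a = a - a := by rw [h9]
      simpa using this
    exact absurd h10 (by decide)
  have hsb : ∀ i, C.SymOn (blkR H n R i) := fun i => hs _ ((eR H n R).symm i).2
  have hsQ : ∀ T : Fin 4 → Q, ∃ S : Finset (WR H n R), S.card ≤ 8 * k ∧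
      ∀ δ : WR H n R → ZMod 5, (∀ v ∈ S, δ v = 0) →
        ∃ φ, C.IsAut (P δ) φ ∧ ∀ j, φ (T j) = T j := by
    intro T
    obtain ⟨S, h1, h2⟩ := supp_tuple (blkR H n R) (blkR_disj H n R) C hsb hcard (by norm_num) T
      (eR H n R).toEmbedding
    refine ⟨S, by omega, fun δ hδ => ?_⟩
    have h3 := h2 δ hδ
    rwa [bp_blkR] at h3
  have hsI : ∀ (T : Fin 3 → Q) (i : Inp (TEl H n)), ∃ S : Finset (WR H n R), S.card ≤ 8 * k ∧
      ∀ δ : WR H n R → ZMod 5, (∀ v ∈ S, δ v = 0) →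
        (∃ φ, C.IsAut (P δ) φ ∧ ∀ j, φ (T j) = T j) ∧ P δ i = i := by
    intro T i
    obtain ⟨S, h1, h2⟩ := supp_tuple (blkR H n R) (blkR_disj H n R) C hsb hcard (by norm_num) T
      (eR H n R).toEmbedding
    refine ⟨S ∪ plcI (blkR H n R) (eR H n R).toEmbedding i, ?_, ?_⟩
    · have h3 := Finset.card_union_le S (plcI (blkR H n R) (eR H n R).toEmbedding i)
      have h4 := card_plcI (blkR H n R) (blkR_disj H n R) (eR H n R).toEmbedding i
      omega
    · intro δ hδ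
      refine ⟨?_, ?_⟩
      · have h3 := h2 δ fun v hv => hδ v (Finset.mem_union_left _ hv)
        rwa [bp_blkR] at h3
      · have h3 := bp_plcI (blkR H n R) (blkR_disj H n R) (eR H n R).toEmbedding i δ
          fun v hv => hδ v (Finset.mem_union_right _ hv)
        rwa [bp_blkR] at h3
  have hall : ∀ δ : WR H n R → ZMod 5, ∃ φ, C.IsAut (P δ) φ ∧ φ C.out = C.out := by
    intro δ
    obtain ⟨φ, hφ⟩ := sym_all (blkR H n R) (blkR_disj H n R) C hsb
      (gam (eR H n R).toEmbedding δ)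
    rw [bp_blkR] at hφ
    exact ⟨φ, hφ, hφ.out⟩
  -- the two instances
  let κ0 : Cfg := (0, 0)
  let κ1 : Cfg := (0, 1)
  obtain ⟨d, hd⟩ : ∃ d : Pla H n → ZMod 5, d = Lie M 0 (Pi.single z.2.1 1) := ⟨_, rfl⟩
  have hd0 : ∀ v, ¬ v.1.val < R → d v = 0 := by
    intro v hv
    rw [hd, hzero 0 _ v (by omega)]
  have hdz : d z = 1 := by
    rw [hd, lie_row M 0 _ z (Nat.zero_le _), if_pos ⟨hz0, hzl⟩]
    exact Pi.single_eq_same _ _
  let δ0 : WR H n R → ZMod 5 := fun v => d v.1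
  have hδ0 : exz δ0 = d := exz_res d hd0
  obtain ⟨φ, hφ, hφo⟩ := hall δ0
  have e1 : C.val (G (act δ0 κ0)) C.out = C.val (G κ0) C.out := by
    have := hφ.val (hG δ0 κ0) C.out
    rwa [hφo] at this
  have e2 : C.val (G (act δ0 κ0)) C.out = C.val (G κ1) C.out := by
    apply game C G P hPadd act hG Hid hmono (8 * k) hP1 hP0 hsQ hsI m hm C.out ∅ (act δ0 κ0) κ1
    · refine ⟨0, Pi.single z.2.1 1, by omega, by rw [← hd]; exact hdz, ?_, ?_, ?_⟩
      · intro v hv
        exact absurd hv (Finset.notMem_empty _)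
      · show (0 : Pla H n → ZMod 5) = 0 + Curv M (exz δ0) - Curv M (Lie M 0 (Pi.single z.2.1 1))
        rw [hδ0, hd, zero_add, sub_self]
      · show (1 : ZMod 5) = 0 + exz δ0 z
        rw [hδ0, hdz, zero_add]
    · rw [Finset.card_empty]
      exact Nat.zero_le _
    · intro δ _
      exact hall δ
  have hsub : ∀ κ, G κ ⊆ tmpl H n h := by
    rintro κ y (⟨v, hv, rfl⟩ | ⟨v, hv, a, a', rfl⟩ | rfl)
    · left
      exact ⟨v, _, hv, rfl⟩
    · right; left
      exact ⟨v, hv, a, a', _, rfl⟩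
    · right; right
      exact ⟨κ.2, by rw [hz]⟩
  have hel : ∀ v a v' a', el v a = el v' a' → v = v' ∧ a = a' := by
    intro v a v' a' he
    have := Option.some.inj he
    exact ⟨congrArg Prod.fst this, congrArg Prod.snd this⟩
  have y0 : C.val (G κ0) C.out = true := by
    rw [hC]
    unfold Tem
    rw [Set.inter_eq_left.2 (hsub _)]
    exact inst_yes M el none z
  rw [← e1, e2, hC] at y0
  unfold Tem at y0
  rw [Set.inter_eq_left.2 (hsub _)] at y0
  exact inst_no M el none z hel (fun v a he => by cases he) y0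

end Pool.Agent.H870R2.LS
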