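import Pool.Agent.H870R2.LS.TDefs

set_option autoImplicit false
set_option linter.unusedSectionVars false

/-! Nondeterministic networks for tree evaluation (task TREENET): depth first search with a stack. -/

namespace Pool.Agent.H870R2.LS

namespace TreeNet

/-- pending nodes: the right siblings of the left turns on the path to `v` -/
def pn (v : ℕ) : List ℕ :=
  if _h : v ≤ 1 then [] else if v % 2 = 0 then (v + 1) :: pn (v / 2) else pn (v / 2)
termination_by v
decreasing_by all_goals omega

theorem pn_one : pn 1 = [] := by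
  rw [pn]
  simp

theorem pn_even {v : ℕ} (h : 1 ≤ v) : pn (2 * v) = (2 * v + 1) :: pn v := by
  rw [pn]
  have h1 : ¬ (2 * v ≤ 1) := by omega
  have h2 : 2 * v % 2 = 0 := by omega
  have h3 : 2 * v / 2 = v := by omega
  rw [dif_neg h1, if_pos h2, h3]

theorem pn_odd {v : ℕ} (h : 1 ≤ v) : pn (2 * v + 1) = pn v := by
  rw [pn]
  have h1 : ¬ (2 * v + 1 ≤ 1) := by omega
  have h2 : ¬ ((2 * v + 1) % 2 = 0) := by omega
  have h3 : (2 * v + 1) / 2 = v := by omega
  rw [dif_neg h1, if_neg h2, h3]

/-- the shapes of the stacks -/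
def Sh (L : List ℕ) : Prop := L = [] ∨ ∃ v, 1 ≤ v ∧ L = v :: pn v

theorem sh_pn (v : ℕ) : Sh (pn v) := by
  induction v using Nat.strong_induction_on with
  | _ v ih =>
    rw [pn]
    split_ifs with h1 h2
    · exact Or.inl rfl
    · refine Or.inr ⟨v + 1, by omega, ?_⟩
      congr 1
      obtain ⟨k, hk⟩ : ∃ k, v = 2 * k := ⟨v / 2, by omega⟩
      have hk1 : 1 ≤ k := by omega
      rw [hk, pn_odd hk1]
      congr 1
      omega
    · exact ih (v / 2) (by omega)

theorem pn_length (v : ℕ) : ∀ h, v < 2 ^ (h + 1) → (pn v).length ≤ h := by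
  induction v using Nat.strong_induction_on with
  | _ v ih =>
    intro h hv
    rw [pn]
    split_ifs with h1 h2
    · simp
    · rcases Nat.eq_zero_or_pos h with rfl | hh
      · norm_num at hv
        omega
      · obtain ⟨k, rfl⟩ : ∃ k, h = k + 1 := ⟨h - 1, by omega⟩
        have := ih (v / 2) (by omega) k (by rw [pow_succ] at hv; omega)
        simpa using this
    · rcases Nat.eq_zero_or_pos h with rfl | hh
      · norm_num at hv
        omega
      · obtain ⟨k, rfl⟩ : ∃ k, h = k + 1 := ⟨h - 1, by omega⟩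
        have := ih (v / 2) (by omega) k (by rw [pow_succ] at hv; omega)
        omega

theorem sh_tail {v : ℕ} {L : List ℕ} (h : Sh (v :: L)) : 1 ≤ v ∧ L = pn v := by
  rcases h with h | ⟨u, hu, h⟩
  · exact absurd h (by simp)
  · rw [List.cons.injEq] at h
    obtain ⟨rfl, rfl⟩ := h
    exact ⟨hu, rfl⟩

/-- stack entries -/
abbrev En (h q : ℕ) := Fin (2 ^ (h + 1)) × ZMod q

/-- the nodes of a stack -/
def nd {h q : ℕ} (l : List (En h q)) : List ℕ := l.map fun z => z.1.val

/-- states that are not the source -/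
abbrev Stk (h q : ℕ) := {l : List (En h q) // Sh (nd l)}

/-- the arcs -/
def Lk {h q : ℕ} (s s' : Option (List (En h q))) (y : Inp (EEl h q)) : Prop :=
  (∃ (v : Fin (2 ^ (h + 1))) (a : ZMod q), v.val = 1 ∧ s = none ∧ s' = some [(v, a)] ∧
    y = Sum.inr (some (v, a), some (v, a), none)) ∨
  (∃ (v vl vr : Fin (2 ^ (h + 1))) (a b c : ZMod q) (t : List (En h q)), 1 ≤ v.val ∧
    vl.val = 2 * v.val ∧ vr.val = 2 * v.val + 1 ∧ s = some ((v, c) :: t) ∧
    s' = some ((vl, a) :: (vr, b) :: t) ∧
    y = Sum.inr (some (vl, a), some (vr, b), some (v, c))) ∨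
  (∃ (v : Fin (2 ^ (h + 1))) (a : ZMod q) (t : List (En h q)), 2 ^ h ≤ v.val ∧
    s = some ((v, a) :: t) ∧ s' = some t ∧ y = Sum.inl (some (v, a)))

/-- forget the shape -/
def raw {h q : ℕ} (s : Option (Stk h q)) : Option (List (En h q)) := s.map Subtype.val

/-- the network -/
def net (h q : ℕ) : SNet (Inp (EEl h q)) (Option (Stk h q)) where
  arc := fun s s' => {o | ∃ y, o = some (y, true) ∧ Lk (raw s) (raw s') y}
  src := none
  tgt := some ⟨[], Or.inl rfl⟩

theorem open_iff {h q : ℕ} (x : Set (Inp (EEl h q))) (s s' : Option (Stk h q)) :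
    (net h q).Open x s s' ↔ ∃ y ∈ x, Lk (raw s) (raw s') y := by
  unfold SNet.Open net
  constructor
  · rintro (⟨y, hy, -⟩ | ⟨i, c, ⟨y, hy, hl⟩, hx⟩)
    · exact absurd hy (by simp)
    · simp only [Option.some.injEq, Prod.mk.injEq] at hy
      obtain ⟨rfl, rfl⟩ := hy
      exact ⟨i, hx.2 rfl, hl⟩
  · rintro ⟨y, hy, hl⟩
    exact Or.inr ⟨y, true, ⟨y, rfl, hl⟩, by simp [hy]⟩

/-! ### correctness -/

theorem sound {h q : ℕ} (x : Set (Inp (EEl h q))) (s : Option (Stk h q))
    (hr : Relation.ReflTransGen ((net h q).Open x) s (net h q).tgt) :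
    ∀ l, raw s = some l → ∀ z ∈ l, Der (x ∩ ttmpl h q) (some z) := by
  induction hr using Relation.ReflTransGen.head_induction_on with
  | refl =>
    intro l hl z hz
    simp only [raw, net, Option.map_some, Option.some.injEq] at hl
    rw [← hl] at hz
    simp at hz
  | @head s s' hs hr ih =>
    intro l hl z hz
    rw [open_iff] at hs
    obtain ⟨y, hy, hl'⟩ := hs
    rcases hl' with ⟨v, a, hv, h1, h2, h3⟩ | ⟨v, vl, vr, a, b, c, t, hv, hvl, hvr, h1, h2, h3⟩ |
      ⟨v, a, t, hv, h1, h2, h3⟩
    · rw [h1] at hl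
      exact absurd hl (by simp)
    · rw [h1, Option.some.injEq] at hl
      subst hl
      have k := ih _ h2
      rcases List.mem_cons.1 hz with rfl | hz
      · refine Der.rule (some (vl, a)) (some (vr, b)) _ ⟨h3 ▸ hy, ?_⟩ (k _ (by simp))
          (k _ (by simp))
        exact Or.inr (Or.inl ⟨v, vl, vr, a, b, c, hv, hvl, hvr, rfl⟩)
      · exact k z (by simp [hz])
    · rw [h1, Option.some.injEq] at hl
      subst hl
      have k := ih _ h2
      rcases List.mem_cons.1 hz with rfl | hz
      · exact Der.ax _ ⟨h3 ▸ hy, Or.inl ⟨v, a, hv, rfl⟩⟩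
      · exact k z hz

/-- the statement proved by induction over derivations -/
def Mot {h q : ℕ} (x : Set (Inp (EEl h q))) : EEl h q → Prop
  | none => True
  | some z => ∀ (t : List (En h q)) (h1 : Sh (nd (z :: t))) (h2 : Sh (nd t)),
      Relation.ReflTransGen ((net h q).Open x) (some ⟨z :: t, h1⟩) (some ⟨t, h2⟩)

theorem complete {h q : ℕ} (x : Set (Inp (EEl h q))) (u : EEl h q)
    (hu : Der (x ∩ ttmpl h q) u) : Mot x u := by
  induction hu with
  | ax u hu =>
    rcases hu.2 with ⟨v, a, hv, h1⟩ | ⟨v, vl, vr, a, b, c, hv, hvl, hvr, h1⟩ | ⟨v, a, hv, h1⟩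
    · rw [Sum.inl.injEq] at h1
      subst h1
      intro t h1 h2
      refine Relation.ReflTransGen.single ?_
      rw [open_iff]
      exact ⟨_, hu.1, Or.inr (Or.inr ⟨v, a, t, hv, rfl, rfl, rfl⟩)⟩
    · exact absurd h1 (by simp)
    · exact absurd h1 (by simp)
  | rule a b c hr ha hb iha ihb =>
    rcases hr.2 with ⟨v, a', hv, h1⟩ | ⟨v, vl, vr, a', b', c', hv, hvl, hvr, h1⟩ | ⟨v, a', hv, h1⟩
    · exact absurd h1 (by simp)
    · rw [Sum.inr.injEq, Prod.mk.injEq, Prod.mk.injEq] at h1
      obtain ⟨rfl, rfl, rfl⟩ := h1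
      intro t h1 h2
      have hs := sh_tail (v := v.val) (L := nd t) h1
      have e1 : Sh (nd ((vl, a') :: (vr, b') :: t)) := by
        refine Or.inr ⟨2 * v.val, by omega, ?_⟩
        rw [pn_even hv, ← hs.2]
        simp only [nd, List.map_cons]
        rw [hvl, hvr]
      have e2 : Sh (nd ((vr, b') :: t)) := by
        refine Or.inr ⟨2 * v.val + 1, by omega, ?_⟩
        rw [pn_odd hv, ← hs.2]
        simp only [nd, List.map_cons]
        rw [hvr]
      refine Relation.ReflTransGen.head (b := some ⟨(vl, a') :: (vr, b') :: t, e1⟩) ?_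
        ((iha _ e1 e2).trans (ihb _ e2 h2))
      rw [open_iff]
      exact ⟨_, hr.1, Or.inr (Or.inl ⟨v, vl, vr, a', b', c', t, hv, hvl, hvr, rfl, rfl, rfl⟩)⟩
    · rw [Sum.inr.injEq, Prod.mk.injEq, Prod.mk.injEq] at h1
      obtain ⟨rfl, rfl, rfl⟩ := h1
      trivial

theorem acc_iff {h q : ℕ} (x : Set (Inp (EEl h q))) :
    (net h q).Acc x ↔ TreeDer h q x := by
  unfold SNet.Acc TreeDer
  constructor
  · intro hr
    rcases Relation.ReflTransGen.cases_head hr with h0 | ⟨s', hs, hr'⟩
    · exact absurd h0 (by simp [net])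
    · rw [open_iff] at hs
      obtain ⟨y, hy, hl'⟩ := hs
      rcases hl' with ⟨v, a, hv, h1, h2, h3⟩ | ⟨v, vl, vr, a, b, c, t, hv, hvl, hvr, h1, h2, h3⟩ |
        ⟨v, a, t, hv, h1, h2, h3⟩
      · have k := sound x s' hr' _ h2 (v, a) (by simp)
        exact Der.rule _ _ _ ⟨h3 ▸ hy, Or.inr (Or.inr ⟨v, a, hv, rfl⟩)⟩ k k
      · exact absurd h1 (by simp [raw, net])
      · exact absurd h1 (by simp [raw, net])
  · intro hd
    cases hd with
    | ax u hu =>
      rcases hu.2 with ⟨v, a, hv, h1⟩ | ⟨v, vl, vr, a, b, c, hv, hvl, hvr, h1⟩ | ⟨v, a, hv, h1⟩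
      · exact absurd h1 (by simp)
      · exact absurd h1 (by simp)
      · exact absurd h1 (by simp)
    | rule a b c hr ha hb =>
      rcases hr.2 with ⟨v, a', hv, h1⟩ | ⟨v, vl, vr, a', b', c', hv, hvl, hvr, h1⟩ | ⟨v, a', hv, h1⟩
      · exact absurd h1 (by simp)
      · exact absurd h1 (by simp)
      · rw [Sum.inr.injEq, Prod.mk.injEq, Prod.mk.injEq] at h1
        obtain ⟨rfl, rfl, -⟩ := h1
        have e1 : Sh (nd [((v, a') : En h q)]) := by
          refine Or.inr ⟨1, le_rfl, ?_⟩
          rw [pn_one]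
          simp [nd, hv]
        have k := complete x _ ha [] e1 (Or.inl rfl)
        refine Relation.ReflTransGen.head (b := some ⟨[(v, a')], e1⟩) ?_ k
        rw [open_iff]
        exact ⟨_, hr.1, Or.inl ⟨v, a', hv, rfl, rfl, rfl⟩⟩

/-! ### the number of states -/

/-- the code of a stack -/
noncomputable def code {h q : ℕ} (s : Stk h q) : Option (Fin (2 ^ (h + 1)) × (Fin (h + 1) → ZMod q)) :=
  match s.1 with
  | [] => none
  | z :: t => some (z.1, fun i => (((z :: t)[i.val]?).map Prod.snd).getD 0)

theorem code_inj {h q : ℕ} : Function.Injective (code (h := h) (q := q)) := by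
  rintro ⟨l, hl⟩ ⟨l', hl'⟩ he
  apply Subtype.ext
  show l = l'
  rcases l with _ | ⟨z, t⟩
  · rcases l' with _ | ⟨z', t'⟩
    · rfl
    · exact absurd he (by simp [code])
  · rcases l' with _ | ⟨z', t'⟩
    · exact absurd he (by simp [code])
    · simp only [code, Option.some.injEq, Prod.mk.injEq] at he
      obtain ⟨h1, h2⟩ := he
      have s1 := sh_tail (v := z.1.val) (L := nd t) hl
      have s2 := sh_tail (v := z'.1.val) (L := nd t') hl'
      have hn : nd (z :: t) = nd (z' :: t') := by
        show z.1.val :: nd t = z'.1.val :: nd t'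
        rw [s1.2, s2.2, h1]
      have hlen : (z :: t).length = (z' :: t').length := by
        have := congrArg List.length hn
        simpa [nd] using this
      have hle : (z :: t).length ≤ h + 1 := by
        have := pn_length z.1.val h z.1.isLt
        have e : (nd t).length = t.length := by simp [nd]
        rw [← s1.2, e] at this
        simp only [List.length_cons]
        omega
      apply List.ext_getElem hlen
      intro i hi hi'
      have hi2 : i < h + 1 := by omega
      have e1 := congrFun h2 ⟨i, hi2⟩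
      simp only [List.getElem?_eq_getElem hi, List.getElem?_eq_getElem hi', Option.map_some,
        Option.getD_some] at e1
      apply Prod.ext _ e1
      apply Fin.ext
      have e2 : (nd (z :: t))[i]? = (nd (z' :: t'))[i]? := by rw [hn]
      unfold nd at e2
      rw [List.getElem?_map, List.getElem?_map, List.getElem?_eq_getElem hi,
        List.getElem?_eq_getElem hi'] at e2
      simpa using e2

/-! ### symmetry -/

/-- the action on stacks -/
def act {h q : ℕ} (π : Equiv.Perm (En h q)) (hπ : ∀ z, (π z).1 = z.1) :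
    Equiv.Perm (Stk h q) where
  toFun := fun s => ⟨s.1.map π, by
    have : nd (s.1.map π) = nd s.1 := by
      unfold nd
      rw [List.map_map]
      apply List.map_congr_left
      intro z _
      simp [hπ z]
    rw [this]
    exact s.2⟩
  invFun := fun s => ⟨s.1.map π.symm, by
    have : nd (s.1.map π.symm) = nd s.1 := by
      unfold nd
      rw [List.map_map]
      apply List.map_congr_left
      intro z _
      have := hπ (π.symm z)
      rw [Equiv.apply_symm_apply] at this
      simp [this]
    rw [this]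
    exact s.2⟩
  left_inv := fun s => by
    apply Subtype.ext
    simp
  right_inv := fun s => by
    apply Subtype.ext
    simp

theorem lk_map {h q : ℕ} (π : Equiv.Perm (En h q)) (hπ : ∀ z, (π z).1 = z.1)
    (p : Equiv.Perm (EEl h q)) (hp : ∀ z, p (some z) = some (π z)) (hn : p none = none)
    (s s' : Option (List (En h q))) (y : Inp (EEl h q)) (hl : Lk s s' y) :
    Lk (s.map (List.map π)) (s'.map (List.map π)) (inpPerm p y) := by
  have hpi : ∀ (v : Fin (2 ^ (h + 1))) (a : ZMod q), π (v, a) = (v, (π (v, a)).2) := by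
    intro v a
    exact Prod.ext (hπ (v, a)) rfl
  rcases hl with ⟨v, a, hv, rfl, rfl, rfl⟩ | ⟨v, vl, vr, a, b, c, t, hv, hvl, hvr, rfl, rfl, rfl⟩ |
    ⟨v, a, t, hv, rfl, rfl, rfl⟩
  · refine Or.inl ⟨v, (π (v, a)).2, hv, rfl, ?_, ?_⟩
    · simp only [Option.map_some, List.map_cons, List.map_nil]
      rw [← hpi]
    · rw [← hpi]
      simp [inpPerm, hp, hn]
  · refine Or.inr (Or.inl ⟨v, vl, vr, (π (vl, a)).2, (π (vr, b)).2, (π (v, c)).2, t.map π, hv, hvl,
      hvr, ?_, ?_, ?_⟩)
    · simp only [Option.map_some, List.map_cons]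
      rw [← hpi]
    · simp only [Option.map_some, List.map_cons]
      rw [← hpi, ← hpi]
    · rw [← hpi, ← hpi, ← hpi]
      simp [inpPerm, hp]
  · refine Or.inr (Or.inr ⟨v, (π (v, a)).2, t.map π, hv, ?_, rfl, ?_⟩)
    · simp only [Option.map_some, List.map_cons]
      rw [← hpi]
    · rw [← hpi]
      simp [inpPerm, hp]

theorem aut {h q : ℕ} (π : Equiv.Perm (En h q)) (hπ : ∀ z, (π z).1 = z.1)
    (p : Equiv.Perm (EEl h q)) (hp : ∀ z, p (some z) = some (π z)) (hn : p none = none) :
    (net h q).IsAut (inpPerm p) (Equiv.optionCongr (act π hπ)) := by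
  have hraw : ∀ s : Option (Stk h q),
      raw (Equiv.optionCongr (act π hπ) s) = (raw s).map (List.map π) := by
    intro s
    rcases s with _ | s
    · rfl
    · rfl
  refine ⟨?_, rfl, ?_⟩
  · intro s s' o
    constructor
    · rintro ⟨y, hy, hl⟩
      rcases o with _ | ⟨i, c⟩
      · exact absurd hy (by simp)
      · simp only [Option.map_some, Prod.map_apply, id_eq, Option.some.injEq, Prod.mk.injEq] at hy
        obtain ⟨h1, rfl⟩ := hy
        refine ⟨i, rfl, ?_⟩
        rw [hraw, hraw] at hl
        have hπ' : ∀ z, (π.symm z).1 = z.1 := by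
          intro z
          have := hπ (π.symm z)
          rw [Equiv.apply_symm_apply] at this
          exact this.symm
        have hp' : ∀ z, p.symm (some z) = some (π.symm z) := by
          intro z
          rw [Equiv.symm_apply_eq, hp, Equiv.apply_symm_apply]
        have hn' : p.symm none = none := by
          rw [Equiv.symm_apply_eq, hn]
        have k := lk_map π.symm hπ' p.symm hp' hn' _ _ _ hl
        have e1 : ∀ u : Option (List (En h q)),
            (u.map (List.map π)).map (List.map π.symm) = u := by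
          intro u
          rcases u with _ | l
          · rfl
          · simp
        rw [e1, e1, ← h1] at k
        have e2 : inpPerm p.symm (inpPerm p i) = i := by
          rcases i with u | ⟨u, v, w⟩
          · simp [inpPerm]
          · simp [inpPerm]
        rwa [e2] at k
    · rintro ⟨y, rfl, hl⟩
      refine ⟨inpPerm p y, rfl, ?_⟩
      rw [hraw, hraw]
      exact lk_map π hπ p hp hn _ _ _ hl
  · rfl

end TreeNet

open TreeNet in
/-- TREENET: nondeterministic networks with `(2 q) ^ (h + 1) + 2` nodes for tree evaluation -/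
theorem tree_net (h q : ℕ) [NeZero q] :
    ∃ (Q : Type) (_ : Fintype Q) (N : SNet (Inp (EEl h q)) Q),
      (∀ x, N.Acc x ↔ TreeDer h q x) ∧
      Fintype.card Q ≤ (2 * q) ^ (h + 1) + 2 ∧
      (∀ (v : Fin (2 ^ (h + 1))) (a : Equiv.Perm (ZMod q)) (p : Equiv.Perm (EEl h q)),
        (∀ c, p (eblk v c) = eblk v (a c)) → (∀ u, u ∉ Set.range (eblk v) → p u = u) →
        ∃ φ, N.IsAut (inpPerm p) φ) := by
  classical
  have : Finite (Stk h q) := Finite.of_injective _ (code_inj (h := h) (q := q))
  have : Fintype (Stk h q) := Fintype.ofFinite _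
  refine ⟨Option (Stk h q), inferInstance, net h q, acc_iff, ?_, ?_⟩
  · rw [Fintype.card_option]
    have h1 := Fintype.card_le_of_injective _ (code_inj (h := h) (q := q))
    rw [Fintype.card_option, Fintype.card_prod, Fintype.card_fin, Fintype.card_fun, ZMod.card,
      Fintype.card_fin, ← mul_pow] at h1
    omega
  · intro v a p hp hfix
    have hn : p none = none := by
      apply hfix
      rintro ⟨c, hc⟩
      exact absurd hc (by simp [eblk])
    -- the permutation of the entries
    let π : Equiv.Perm (En h q) :=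
      { toFun := fun z => (z.1, if z.1 = v then a z.2 else z.2)
        invFun := fun z => (z.1, if z.1 = v then a.symm z.2 else z.2)
        left_inv := by
          rintro ⟨u, c⟩
          by_cases hu : u = v
          · simp [hu]
          · simp [hu]
        right_inv := by
          rintro ⟨u, c⟩
          by_cases hu : u = v
          · simp [hu]
          · simp [hu] }
    refine ⟨_, aut π (fun z => rfl) p ?_ hn⟩
    rintro ⟨u, c⟩
    by_cases hu : u = v
    · subst hu
      have := hp c
      show p (some (u, c)) = some (u, if u = u then a c else c)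
      rw [if_pos rfl]
      exact this
    · show p (some (u, c)) = some (u, if u = v then a c else c)
      rw [if_neg hu]
      apply hfix
      rintro ⟨d, hd⟩
      have hd' : (some (v, d) : EEl h q) = some (u, c) := hd
      simp only [Option.some.injEq, Prod.mk.injEq] at hd'
      exact hu hd'.1.symm

end Pool.Agent.H870R2.LS
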