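import Pool.Agent.H870R2.LS.TDefs
import Pool.Agent.H870R2.LS.SCUp

set_option autoImplicit false
set_option linter.unusedSectionVars false

/-! Semi-unbounded circuits of depth `2 h + 2` for tree evaluation. -/

namespace Pool.Agent.H870R2.LS

namespace TreeUp

variable {h q : ℕ}

theorem one_lt (h : ℕ) : 1 < 2 ^ (h + 1) := Nat.one_lt_two_pow (by omega)

/-- the root -/
def v1 (h : ℕ) : Fin (2 ^ (h + 1)) := ⟨1, one_lt h⟩

/-- left child -/
def vl (v : Fin (2 ^ (h + 1))) (hv : v.val < 2 ^ h) : Fin (2 ^ (h + 1)) :=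
  ⟨2 * v.val, by have := pow_succ 2 h; omega⟩

/-- right child -/
def vr (v : Fin (2 ^ (h + 1))) (hv : v.val < 2 ^ h) : Fin (2 ^ (h + 1)) :=
  ⟨2 * v.val + 1, by have := pow_succ 2 h; omega⟩

/-- the gates: labels of the nodes, AND gates for the rules, AND gates for the final rules,
output -/
abbrev Gt (h q : ℕ) :=
  (Fin (2 ^ (h + 1)) × ZMod q) ⊕ (Fin (2 ^ (h + 1)) × ZMod q × ZMod q × ZMod q) ⊕ ZMod q ⊕ Unit

/-- the layers -/
def lay : Gt h q → ℕ
  | Sum.inl (v, _) => 2 * (h - Nat.log 2 v.val)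
  | Sum.inr (Sum.inl (v, _)) => 2 * (h - Nat.log 2 v.val) - 1
  | Sum.inr (Sum.inr (Sum.inl _)) => 2 * h + 1
  | Sum.inr (Sum.inr (Sum.inr _)) => 2 * h + 2

/-- the types of the gates -/
def cj : Gt h q → Bool
  | Sum.inl _ => false
  | Sum.inr (Sum.inl _) => true
  | Sum.inr (Sum.inr (Sum.inl _)) => true
  | Sum.inr (Sum.inr (Sum.inr _)) => false

/-- the inputs of the gates -/
def ins : Gt h q → Set (Src (Inp (EEl h q)) (Gt h q))
  | Sum.inl (v, c) => {s |
      (2 ^ h ≤ v.val ∧ s = some (Sum.inl (Sum.inl (some (v, c)), true))) ∨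
      (1 ≤ v.val ∧ v.val < 2 ^ h ∧ ∃ a b, s = some (Sum.inr (Sum.inr (Sum.inl (v, a, b, c)))))}
  | Sum.inr (Sum.inl (v, a, b, c)) => {s | ∃ hv : v.val < 2 ^ h, 1 ≤ v.val ∧ (
      s = some (Sum.inl (Sum.inr (some (vl v hv, a), some (vr v hv, b), some (v, c)), true)) ∨
      s = some (Sum.inr (Sum.inl (vl v hv, a))) ∨
      s = some (Sum.inr (Sum.inl (vr v hv, b))))}
  | Sum.inr (Sum.inr (Sum.inl a)) => {s |
      s = some (Sum.inl (Sum.inr (some (v1 h, a), some (v1 h, a), none), true)) ∨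
      s = some (Sum.inr (Sum.inl (v1 h, a)))}
  | Sum.inr (Sum.inr (Sum.inr _)) => {s | ∃ a, s = some (Sum.inr (Sum.inr (Sum.inr (Sum.inl a))))}

theorem log_lt {v : ℕ} (hv1 : 1 ≤ v) (hv : v < 2 ^ h) : Nat.log 2 v < h :=
  Nat.log_lt_of_lt_pow (by omega) hv

theorem log_l {v : ℕ} (hv1 : 1 ≤ v) : Nat.log 2 (2 * v) = Nat.log 2 v + 1 := by
  rw [mul_comm]; exact Nat.log_mul_base (by norm_num) (by omega)

theorem log_r {v : ℕ} (hv1 : 1 ≤ v) : Nat.log 2 (2 * v + 1) = Nat.log 2 v + 1 := by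
  rw [Nat.log_of_one_lt_of_le (by norm_num) (by omega)]
  congr 2
  omega

/-- the circuit -/
def ck (h q : ℕ) : LCkt (Inp (EEl h q)) (Gt h q) where
  conj := cj
  ins := ins
  lay := lay
  out := Sum.inr (Sum.inr (Sum.inr ()))
  layered := by
    rintro (⟨v, c⟩ | ⟨v, a, b, c⟩ | a | u) g hg
    · rcases hg with ⟨_, hs⟩ | ⟨h1, h2, a, b, hs⟩
      · simp at hs
      · simp only [Option.some.injEq, Sum.inr.injEq] at hs
        subst hs
        have := log_lt h1 h2
        simp only [lay]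
        omega
    · obtain ⟨hv, h1, hs | hs | hs⟩ := hg
      · simp at hs
      · simp only [Option.some.injEq, Sum.inr.injEq] at hs
        subst hs
        have := log_lt h1 hv
        simp only [lay, vl, log_l h1]
        omega
      · simp only [Option.some.injEq, Sum.inr.injEq] at hs
        subst hs
        have := log_lt h1 hv
        simp only [lay, vr, log_r h1]
        omega
    · rcases hg with hs | hs
      · simp at hs
      · simp only [Option.some.injEq, Sum.inr.injEq] at hs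
        subst hs
        simp [lay, v1]
    · obtain ⟨a, hs⟩ := hg
      simp only [Option.some.injEq, Sum.inr.injEq] at hs
      subst hs
      simp only [lay]

/-! ### correctness -/

section sem
variable (x : Set (Inp (EEl h q)))

theorem der_low (v : Fin (2 ^ (h + 1))) (hv : 2 ^ h ≤ v.val) (a : ZMod q) :
    Der (x ∩ ttmpl h q) (some (v, a)) ↔ Sum.inl (some (v, a)) ∈ x := by
  constructor
  · intro hd
    cases hd with
    | ax _ hu => exact hu.1
    | rule b c _ hr _ _ =>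
      exfalso
      rcases hr.2 with ⟨w, a', _, h'⟩ | ⟨w, wl, wr, a', b', c', h1, h2, h3, h'⟩ | ⟨w, a', _, h'⟩
      · simp at h'
      · simp only [Sum.inr.injEq, Prod.mk.injEq, Option.some.injEq] at h'
        obtain ⟨_, _, rfl, _⟩ := h'
        have h4 := wl.isLt
        have h5 := pow_succ 2 h
        omega
      · simp at h'
  · intro hx
    exact Der.ax _ ⟨hx, Or.inl ⟨v, a, hv, rfl⟩⟩

theorem der_zero (v : Fin (2 ^ (h + 1))) (hv : v.val = 0) (a : ZMod q) :
    ¬ Der (x ∩ ttmpl h q) (some (v, a)) := by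
  intro hd
  have h0 : 0 < 2 ^ h := by positivity
  cases hd with
  | ax _ hu =>
    rcases hu.2 with ⟨w, a', hw, h'⟩ | ⟨w, wl, wr, a', b', c', h1, h2, h3, h'⟩ | ⟨w, a', _, h'⟩
    · simp only [Sum.inl.injEq, Option.some.injEq, Prod.mk.injEq] at h'
      obtain ⟨rfl, _⟩ := h'
      omega
    · simp at h'
    · simp at h'
  | rule b c _ hr _ _ =>
    rcases hr.2 with ⟨w, a', _, h'⟩ | ⟨w, wl, wr, a', b', c', h1, h2, h3, h'⟩ | ⟨w, a', _, h'⟩
    · simp at h'
    · simp only [Sum.inr.injEq, Prod.mk.injEq, Option.some.injEq] at h'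
      obtain ⟨_, _, rfl, _⟩ := h'
      omega
    · simp at h'

theorem der_high (v : Fin (2 ^ (h + 1))) (hv : v.val < 2 ^ h) (hv1 : 1 ≤ v.val) (c : ZMod q) :
    Der (x ∩ ttmpl h q) (some (v, c)) ↔ ∃ a b : ZMod q,
      Sum.inr (some (vl v hv, a), some (vr v hv, b), some (v, c)) ∈ x ∧
      Der (x ∩ ttmpl h q) (some (vl v hv, a)) ∧ Der (x ∩ ttmpl h q) (some (vr v hv, b)) := by
  constructor
  · intro hd
    cases hd with
    | ax _ hu =>
      exfalso
      rcases hu.2 with ⟨w, a', hw, h'⟩ | ⟨w, wl, wr, a', b', c', h1, h2, h3, h'⟩ | ⟨w, a', _, h'⟩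
      · simp only [Sum.inl.injEq, Option.some.injEq, Prod.mk.injEq] at h'
        obtain ⟨rfl, _⟩ := h'
        omega
      · simp at h'
      · simp at h'
    | rule b c _ hr h1 h2 =>
      rcases hr.2 with ⟨w, a', _, h'⟩ | ⟨w, wl, wr, a', b', c', k1, k2, k3, h'⟩ | ⟨w, a', _, h'⟩
      · simp at h'
      · simp only [Sum.inr.injEq, Prod.mk.injEq, Option.some.injEq] at h'
        obtain ⟨rfl, rfl, rfl, rfl⟩ := h'
        have e1 : wl = vl v hv := Fin.ext k2
        have e2 : wr = vr v hv := Fin.ext k3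
        subst e1 e2
        exact ⟨a', b', hr.1, h1, h2⟩
      · simp at h'
  · rintro ⟨a, b, hx, h1, h2⟩
    exact Der.rule _ _ _ ⟨hx, Or.inr (Or.inl ⟨v, vl v hv, vr v hv, a, b, c, hv1, rfl, rfl, rfl⟩)⟩
      h1 h2

theorem der_none : Der (x ∩ ttmpl h q) none ↔ ∃ a : ZMod q,
      Sum.inr (some (v1 h, a), some (v1 h, a), none) ∈ x ∧
      Der (x ∩ ttmpl h q) (some (v1 h, a)) := by
  constructor
  · intro hd
    cases hd with
    | ax _ hu =>
      exfalso
      rcases hu.2 with ⟨w, a', hw, h'⟩ | ⟨w, wl, wr, a', b', c', h1, h2, h3, h'⟩ | ⟨w, a', _, h'⟩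
      · simp at h'
      · simp at h'
      · simp at h'
    | rule b c _ hr h1 h2 =>
      rcases hr.2 with ⟨w, a', _, h'⟩ | ⟨w, wl, wr, a', b', c', k1, k2, k3, h'⟩ | ⟨w, a', hw, h'⟩
      · simp at h'
      · simp at h'
      · simp only [Sum.inr.injEq, Prod.mk.injEq] at h'
        obtain ⟨rfl, rfl, _⟩ := h'
        have e1 : w = v1 h := Fin.ext hw
        subst e1
        exact ⟨a', hr.1, h1⟩
  · rintro ⟨a, hx, h1⟩
    exact Der.rule _ _ _ ⟨hx, Or.inr (Or.inr ⟨v1 h, a, rfl, rfl⟩)⟩ h1 h1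

/-- the meaning of the gates -/
def Sem : Gt h q → Prop
  | Sum.inl (v, c) => Der (x ∩ ttmpl h q) (some (v, c))
  | Sum.inr (Sum.inl (v, a, b, c)) => ∀ hv : v.val < 2 ^ h, 1 ≤ v.val →
      Sum.inr (some (vl v hv, a), some (vr v hv, b), some (v, c)) ∈ x ∧
      Der (x ∩ ttmpl h q) (some (vl v hv, a)) ∧ Der (x ∩ ttmpl h q) (some (vr v hv, b))
  | Sum.inr (Sum.inr (Sum.inl a)) =>
      Sum.inr (some (v1 h, a), some (v1 h, a), none) ∈ x ∧
      Der (x ∩ ttmpl h q) (some (v1 h, a))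
  | Sum.inr (Sum.inr (Sum.inr _)) => Der (x ∩ ttmpl h q) none

theorem val_sem (g : Gt h q) : (ck h q).Val x g ↔ Sem x g := by
  apply SCUp.val_unique
  rintro (⟨v, c⟩ | ⟨v, a, b, c⟩ | a | u)
  · show Der (x ∩ ttmpl h q) (some (v, c)) ↔
      ∃ s ∈ ins (Sum.inl (v, c)), SrcTrue x (Sem x) s
    constructor
    · intro hd
      by_cases hv : v.val < 2 ^ h
      · by_cases hv1 : 1 ≤ v.val
        · obtain ⟨a, b, h1, h2, h3⟩ := (der_high x v hv hv1 c).1 hd
          refine ⟨_, Or.inr ⟨hv1, hv, a, b, rfl⟩, ?_⟩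
          exact fun _ _ => ⟨h1, h2, h3⟩
        · exact absurd hd (der_zero x v (by omega) c)
      · refine ⟨_, Or.inl ⟨by omega, rfl⟩, ?_⟩
        have := (der_low x v (by omega) c).1 hd
        simpa [SrcTrue] using this
    · rintro ⟨s, hs, ht⟩
      rcases hs with ⟨hv, rfl⟩ | ⟨hv1, hv, a, b, rfl⟩
      · rw [der_low x v hv c]
        simpa [SrcTrue] using ht
      · rw [der_high x v hv hv1 c]
        exact ⟨a, b, ht hv hv1⟩
  · show (∀ hv : v.val < 2 ^ h, 1 ≤ v.val →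
      Sum.inr (some (vl v hv, a), some (vr v hv, b), some (v, c)) ∈ x ∧
      Der (x ∩ ttmpl h q) (some (vl v hv, a)) ∧ Der (x ∩ ttmpl h q) (some (vr v hv, b))) ↔
      ∀ s ∈ ins (Sum.inr (Sum.inl (v, a, b, c))), SrcTrue x (Sem x) s
    constructor
    · rintro hall s ⟨hv, hv1, rfl | rfl | rfl⟩
      · simpa [SrcTrue] using (hall hv hv1).1
      · exact (hall hv hv1).2.1
      · exact (hall hv hv1).2.2
    · intro hall hv hv1
      refine ⟨?_, hall _ ⟨hv, hv1, Or.inr (Or.inl rfl)⟩, hall _ ⟨hv, hv1, Or.inr (Or.inr rfl)⟩⟩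
      have := hall _ ⟨hv, hv1, Or.inl rfl⟩
      simpa [SrcTrue] using this
  · show (Sum.inr (some (v1 h, a), some (v1 h, a), none) ∈ x ∧
      Der (x ∩ ttmpl h q) (some (v1 h, a))) ↔
      ∀ s ∈ ins (Sum.inr (Sum.inr (Sum.inl a))), SrcTrue x (Sem x) s
    constructor
    · rintro hall s (rfl | rfl)
      · simpa [SrcTrue] using hall.1
      · exact hall.2
    · intro hall
      refine ⟨?_, hall _ (Or.inr rfl)⟩
      have := hall _ (Or.inl rfl)
      simpa [SrcTrue] using this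
  · show Der (x ∩ ttmpl h q) none ↔
      ∃ s ∈ ins (Sum.inr (Sum.inr (Sum.inr u))), SrcTrue x (Sem x) s
    rw [der_none]
    constructor
    · rintro ⟨a, h1, h2⟩
      exact ⟨_, ⟨a, rfl⟩, h1, h2⟩
    · rintro ⟨s, ⟨a, rfl⟩, ht⟩
      exact ⟨a, ht⟩

end sem

/-! ### sizes -/

theorem fan_in (g : Gt h q) (hg : cj g = true) : (ins g).ncard ≤ 3 := by
  rcases g with ⟨v, c⟩ | ⟨v, a, b, c⟩ | a | u
  · simp [cj] at hg
  · by_cases hv : v.val < 2 ^ h
    · have := SCUp.ncard_le_of_range (fun z : Fin 3 =>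
          (![some (Sum.inl (Sum.inr (some (vl v hv, a), some (vr v hv, b), some (v, c)), true)),
            some (Sum.inr (Sum.inl (vl v hv, a))),
            some (Sum.inr (Sum.inl (vr v hv, b)))] z :
            Src (Inp (EEl h q)) (Gt h q))) (ins (Sum.inr (Sum.inl (v, a, b, c)))) (by
            rintro s ⟨_, _, rfl | rfl | rfl⟩
            · exact ⟨0, rfl⟩
            · exact ⟨1, rfl⟩
            · exact ⟨2, rfl⟩)
      refine this.trans ?_
      simp
    · have : ins (Sum.inr (Sum.inl (v, a, b, c)) : Gt h q) = ∅ := by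
        ext s
        simp only [Set.mem_empty_iff_false, iff_false]
        rintro ⟨hv', _⟩
        exact hv hv'
      rw [this]
      simp
  · have := SCUp.ncard_le_of_range (fun z : Fin 2 =>
          (![some (Sum.inl (Sum.inr (some (v1 h, a), some (v1 h, a), none), true)),
            some (Sum.inr (Sum.inl (v1 h, a)))] z :
            Src (Inp (EEl h q)) (Gt h q))) (ins (Sum.inr (Sum.inr (Sum.inl a)))) (by
            rintro s (rfl | rfl)
            · exact ⟨0, rfl⟩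
            · exact ⟨1, rfl⟩)
    refine this.trans ?_
    simp
  · simp [cj] at hg

theorem lay_le (g : Gt h q) : lay g ≤ 2 * h + 2 := by
  rcases g with ⟨v, c⟩ | ⟨v, a, b, c⟩ | a | u <;> simp only [lay] <;> omega

theorem card_le [NeZero q] : Fintype.card (Gt h q) ≤ 2 ^ (h + 3) * q ^ 3 := by
  have hq : 1 ≤ q := Nat.one_le_iff_ne_zero.2 (NeZero.ne q)
  simp only [Fintype.card_sum, Fintype.card_prod, Fintype.card_fin, ZMod.card,
    Fintype.card_unit]
  have h1 : 1 ≤ 2 ^ (h + 1) := Nat.one_le_two_pow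
  have h2 : q ≤ q ^ 3 := Nat.le_self_pow (by norm_num) q
  have h3 : 1 ≤ q ^ 3 := Nat.one_le_pow _ _ hq
  have e1 : 2 ^ (h + 3) * q ^ 3 = 4 * (2 ^ (h + 1) * q ^ 3) := by ring
  have e2 : 2 ^ (h + 1) * (q * (q * q)) = 2 ^ (h + 1) * q ^ 3 := by ring
  have e3 : 2 ^ (h + 1) * q ≤ 2 ^ (h + 1) * q ^ 3 := Nat.mul_le_mul_left _ h2
  have e4 : q ^ 3 ≤ 2 ^ (h + 1) * q ^ 3 := Nat.le_mul_of_pos_left _ h1
  rw [e1, e2]
  omega

/-! ### automorphisms -/

/-- the action of relabellings on the elements -/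
def pmap (g : Fin (2 ^ (h + 1)) → Equiv.Perm (ZMod q)) : EEl h q → EEl h q
  | none => none
  | some (v, a) => some (v, g v a)

/-- the action on the variables -/
def imap (g : Fin (2 ^ (h + 1)) → Equiv.Perm (ZMod q)) : Inp (EEl h q) → Inp (EEl h q) :=
  Sum.map (pmap g) (Prod.map (pmap g) (Prod.map (pmap g) (pmap g)))

/-- relabelling of the left child -/
def gl (g : Fin (2 ^ (h + 1)) → Equiv.Perm (ZMod q)) (v : Fin (2 ^ (h + 1))) :
    Equiv.Perm (ZMod q) :=
  if hv : v.val < 2 ^ h then g (vl v hv) else 1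

/-- relabelling of the right child -/
def gr (g : Fin (2 ^ (h + 1)) → Equiv.Perm (ZMod q)) (v : Fin (2 ^ (h + 1))) :
    Equiv.Perm (ZMod q) :=
  if hv : v.val < 2 ^ h then g (vr v hv) else 1

/-- the action on the gates -/
def gmap (g : Fin (2 ^ (h + 1)) → Equiv.Perm (ZMod q)) : Gt h q → Gt h q
  | Sum.inl (v, c) => Sum.inl (v, g v c)
  | Sum.inr (Sum.inl (v, a, b, c)) => Sum.inr (Sum.inl (v, gl g v a, gr g v b, g v c))
  | Sum.inr (Sum.inr (Sum.inl a)) => Sum.inr (Sum.inr (Sum.inl (g (v1 h) a)))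
  | Sum.inr (Sum.inr (Sum.inr u)) => Sum.inr (Sum.inr (Sum.inr u))

theorem pmap_inv (g : Fin (2 ^ (h + 1)) → Equiv.Perm (ZMod q)) (e : EEl h q) :
    pmap (fun v => (g v)⁻¹) (pmap g e) = e := by
  rcases e with _ | ⟨v, a⟩
  · rfl
  · simp [pmap]

theorem imap_inv (g : Fin (2 ^ (h + 1)) → Equiv.Perm (ZMod q)) (e : Inp (EEl h q)) :
    imap (fun v => (g v)⁻¹) (imap g e) = e := by
  rcases e with u | ⟨a, b, c⟩
  · simp [imap, pmap_inv]
  · simp [imap, pmap_inv]

theorem gmap_inv (g : Fin (2 ^ (h + 1)) → Equiv.Perm (ZMod q)) (e : Gt h q) :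
    gmap (fun v => (g v)⁻¹) (gmap g e) = e := by
  rcases e with ⟨v, c⟩ | ⟨v, a, b, c⟩ | a | u
  · simp [gmap]
  · have h1 : gl (fun v => (g v)⁻¹) v = (gl g v)⁻¹ := by
      unfold gl
      split_ifs <;> simp
    have h2 : gr (fun v => (g v)⁻¹) v = (gr g v)⁻¹ := by
      unfold gr
      split_ifs <;> simp
    simp [gmap, h1, h2]
  · simp [gmap]
  · simp [gmap]

theorem srcMap_inv (g : Fin (2 ^ (h + 1)) → Equiv.Perm (ZMod q))
    (s : Src (Inp (EEl h q)) (Gt h q)) :
    srcMap (imap (fun v => (g v)⁻¹)) (gmap (fun v => (g v)⁻¹)) (srcMap (imap g) (gmap g) s) =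
      s := by
  rcases s with _ | ⟨i, c⟩ | w
  · rfl
  · simp [srcMap, imap_inv]
  · simp [srcMap, gmap_inv]

theorem gmap_ins (g : Fin (2 ^ (h + 1)) → Equiv.Perm (ZMod q)) (w : Gt h q)
    (s : Src (Inp (EEl h q)) (Gt h q)) (hs : s ∈ ins w) :
    srcMap (imap g) (gmap g) s ∈ ins (gmap g w) := by
  rcases w with ⟨v, c⟩ | ⟨v, a, b, c⟩ | a | u
  · rcases hs with ⟨hv, rfl⟩ | ⟨hv1, hv, a, b, rfl⟩
    · exact Or.inl ⟨hv, rfl⟩
    · exact Or.inr ⟨hv1, hv, gl g v a, gr g v b, rfl⟩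
  · obtain ⟨hv, hv1, rfl | rfl | rfl⟩ := hs
    · refine ⟨hv, hv1, Or.inl ?_⟩
      simp [srcMap, imap, pmap, gl, gr, hv]
    · refine ⟨hv, hv1, Or.inr (Or.inl ?_)⟩
      simp [srcMap, gmap, gl, hv]
    · refine ⟨hv, hv1, Or.inr (Or.inr ?_)⟩
      simp [srcMap, gmap, gr, hv]
  · rcases hs with rfl | rfl
    · exact Or.inl rfl
    · exact Or.inr rfl
  · obtain ⟨a, rfl⟩ := hs
    exact ⟨_, rfl⟩

theorem aut [NeZero q] (v : Fin (2 ^ (h + 1))) (a : Equiv.Perm (ZMod q))
    (p : Equiv.Perm (EEl h q))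
    (hp : ∀ c, p (eblk v c) = eblk v (a c)) (hp' : ∀ u, u ∉ Set.range (eblk v) → p u = u) :
    ∃ φ, (ck h q).IsAut (inpPerm p) φ := by
  classical
  let g : Fin (2 ^ (h + 1)) → Equiv.Perm (ZMod q) := fun u => if u = v then a else 1
  have hpg : ∀ e, p e = pmap g e := by
    intro e
    rcases e with _ | ⟨u, c⟩
    · refine hp' none ?_
      rintro ⟨c, hc⟩
      simp [eblk] at hc
    · by_cases hu : u = v
      · subst hu
        have h1 := hp c
        have h2 : g u = a := if_pos rfl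
        show p (eblk u c) = some (u, g u c)
        rw [h1, h2]
        rfl
      · have h1 : p (some (u, c)) = some (u, c) := by
          apply hp'
          rintro ⟨c', hc'⟩
          simp only [eblk, Function.Embedding.coeFn_mk, Option.some.injEq, Prod.mk.injEq] at hc'
          exact hu hc'.1.symm
        have h2 : g u = 1 := if_neg hu
        rw [h1]
        simp [pmap, h2]
  have hpi : (⇑(inpPerm p)) = imap g := by
    funext e
    rcases e with u | ⟨b, c, d⟩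
    · simp [inpPerm, imap, hpg]
    · simp [inpPerm, imap, hpg]
  have hgg : (fun u => ((fun u => (g u)⁻¹) u)⁻¹) = g := by
    funext u; simp
  let φ : Equiv.Perm (Gt h q) :=
    { toFun := gmap g
      invFun := gmap (fun v => (g v)⁻¹)
      left_inv := gmap_inv g
      right_inv := fun e => by
        have := gmap_inv (fun v => (g v)⁻¹) e
        rw [hgg] at this
        exact this }
  have hφ : (⇑φ) = gmap g := rfl
  refine ⟨φ, ?_, ?_, ?_, ?_⟩
  · rintro (⟨w, c⟩ | ⟨v, a, b, c⟩ | a | u) <;> rfl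
  · intro w s
    rw [hpi, hφ]
    constructor
    · intro hs
      have := gmap_ins (fun v => (g v)⁻¹) _ _ hs
      rw [srcMap_inv, gmap_inv] at this
      exact this
    · exact gmap_ins g w s
  · rintro (⟨w, c⟩ | ⟨v, a, b, c⟩ | a | u) <;> rfl
  · rfl

end TreeUp

/-- TREEUP: semi-unbounded circuits of depth `2 h + 2` for tree evaluation -/
theorem tree_upper (h q : ℕ) [NeZero q] :
    ∃ (Q : Type) (_ : Fintype Q) (C : LCkt (Inp (EEl h q)) Q),
      (∀ x, C.Val x C.out ↔ TreeDer h q x) ∧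
      (∀ g, C.conj g = true → (C.ins g).ncard ≤ 3) ∧
      (∀ g, C.lay g ≤ 2 * h + 2) ∧
      Fintype.card Q ≤ 2 ^ (h + 3) * q ^ 3 ∧
      (∀ (v : Fin (2 ^ (h + 1))) (a : Equiv.Perm (ZMod q)) (p : Equiv.Perm (EEl h q)),
        (∀ c, p (eblk v c) = eblk v (a c)) → (∀ u, u ∉ Set.range (eblk v) → p u = u) →
        ∃ φ, C.IsAut (inpPerm p) φ) :=
  ⟨TreeUp.Gt h q, inferInstance, TreeUp.ck h q, fun x => TreeUp.val_sem x _,
    fun g hg => TreeUp.fan_in g hg, TreeUp.lay_le, TreeUp.card_le, TreeUp.aut⟩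

end Pool.Agent.H870R2.LS
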