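import Pool.Agent.H870R2.LS.Aut
import Pool.Agent.H870R2.LS.SCDefs

set_option autoImplicit false
set_option linter.unusedSectionVars false

/-! Layered circuits with counting gates. -/

namespace Pool.Agent.H870R2.LS

open Finset

/-- A layered circuit with input variables `I` and set of gates `Q`. Into the gate `g` lead
`mult g s` wires from the source `s` (a constant, a literal, or a gate of the previous layer);
its value is a function `F g` of the number of wires that carry the value true. -/
structure WCkt (I Q : Type*) where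
  mult : Q → Src I Q → ℕ
  F : Q → ℕ → Bool
  lay : Q → ℕ
  out : Q
  layered : ∀ g h, 0 < mult g (some (Sum.inr h)) → lay h + 1 = lay g

section defs

variable {I Q : Type*} [Fintype I] [Fintype Q]

/-- The number of wires into `g` that carry the value true, when the gates have the values `v`. -/
noncomputable def WCkt.cnt (C : WCkt I Q) (x : Set I) (v : Q → Bool) (g : Q) : ℕ :=
  ∑ s, C.mult g s * (srcVal x v s).toNat

/-- The values of the gates on the input `x`. -/
noncomputable def WCkt.val (C : WCkt I Q) (x : Set I) (g : Q) : Bool :=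
  C.F g (C.cnt x (fun h => if _hr : C.lay h < C.lay g then C.val x h else false) g)
termination_by C.lay g

/-- `φ` is an automorphism of the circuit extending the permutation `p` of the variables. -/
structure WCkt.IsAut (C : WCkt I Q) (p : Equiv.Perm I) (φ : Equiv.Perm Q) : Prop where
  mult : ∀ g s, C.mult (φ g) (srcMap p φ s) = C.mult g s
  F : ∀ g, C.F (φ g) = C.F g
  lay : ∀ g, C.lay (φ g) = C.lay g
  out : φ C.out = C.out

/-- The circuit is symmetric on the block `b` of five elements: every even permutation of the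
block, fixing all other elements, extends to an automorphism of the circuit. -/
def WCkt.SymOn {V : Type*} [Fintype V] (C : WCkt (Inp V) Q) (b : Fin 5 ↪ V) : Prop :=
  ∀ a ∈ alternatingGroup (Fin 5), ∀ p : Equiv.Perm V, (∀ c, p (b c) = b (a c)) →
    (∀ v, v ∉ Set.range b → p v = v) → ∃ φ, C.IsAut (inpPerm p) φ

theorem WCkt.cnt_congr (C : WCkt I Q) (x : Set I) {v v' : Q → Bool} (g : Q)
    (h : ∀ q, C.lay q < C.lay g → v q = v' q) : C.cnt x v g = C.cnt x v' g := by
  unfold WCkt.cnt
  apply Finset.sum_congr rfl
  intro s _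
  rcases s with _ | ⟨i, c⟩ | q
  · rfl
  · rfl
  · by_cases hw : 0 < C.mult g (some (Sum.inr q))
    · have h1 := C.layered _ _ hw
      have := h q (by omega)
      simp only [srcVal, this]
    · have : C.mult g (some (Sum.inr q)) = 0 := by omega
      rw [this, zero_mul, zero_mul]

theorem WCkt.val_eq (C : WCkt I Q) (x : Set I) (g : Q) :
    C.val x g = C.F g (C.cnt x (C.val x) g) := by
  rw [WCkt.val]
  congr 1
  rw [C.cnt_congr x (v := fun h => if _hr : C.lay h < C.lay g then C.val x h else false)
    (v' := C.val x) g]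
  intro q hq
  simp only [hq, dif_pos]

end defs

section aut

variable {I Q : Type*} [Fintype I] [Fintype Q] {C : WCkt I Q}

theorem WCkt.IsAut.one : C.IsAut 1 1 := by
  refine ⟨?_, fun _ => rfl, fun _ => rfl, rfl⟩
  intro g s
  rw [← srcPerm_apply, srcPerm_one]
  rfl

theorem WCkt.IsAut.mul {p p' : Equiv.Perm I} {φ φ' : Equiv.Perm Q} (h : C.IsAut p φ)
    (h' : C.IsAut p' φ') : C.IsAut (p * p') (φ * φ') := by
  refine ⟨?_, ?_, ?_, ?_⟩
  · intro g s
    rw [← srcPerm_apply, srcPerm_mul]
    simp only [Equiv.Perm.mul_apply]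
    rw [srcPerm_apply, srcPerm_apply, h.mult, h'.mult]
  · intro g
    rw [Equiv.Perm.mul_apply, h.F, h'.F]
  · intro g
    rw [Equiv.Perm.mul_apply, h.lay, h'.lay]
  · rw [Equiv.Perm.mul_apply, h'.out, h.out]

theorem WCkt.IsAut.inv {p : Equiv.Perm I} {φ : Equiv.Perm Q} (h : C.IsAut p φ) :
    C.IsAut p⁻¹ φ⁻¹ := by
  have hs : ∀ s, srcMap p φ (srcMap (p⁻¹ : Equiv.Perm I) (φ⁻¹ : Equiv.Perm Q) s) = s := by
    intro s
    rw [← srcPerm_apply, ← srcPerm_apply, ← Equiv.Perm.mul_apply, ← srcPerm_mul, mul_inv_cancel,
      mul_inv_cancel, srcPerm_one]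
    rfl
  refine ⟨?_, ?_, ?_, ?_⟩
  · intro g s
    have := h.mult (φ⁻¹ g) (srcMap (p⁻¹ : Equiv.Perm I) (φ⁻¹ : Equiv.Perm Q) s)
    rw [hs, p_apply_inv] at this
    exact this.symm
  · intro g
    rw [← h.F, p_apply_inv]
  · intro g
    rw [← h.lay, p_apply_inv]
  · rw [Equiv.Perm.inv_eq_iff_eq]
    exact h.out.symm

theorem WCkt.IsAut.val {p : Equiv.Perm I} {φ : Equiv.Perm Q} (h : C.IsAut p φ)
    {x x' : Set I} (hx : ∀ i, p i ∈ x' ↔ i ∈ x) (g : Q) : C.val x' (φ g) = C.val x g := by
  have key : ∀ n, ∀ g, C.lay g = n → C.val x' (φ g) = C.val x g := by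
    intro n
    induction n using Nat.strong_induction_on with
    | _ n ih =>
      intro g hg
      rw [C.val_eq, C.val_eq, h.F]
      congr 1
      unfold WCkt.cnt
      rw [← Equiv.sum_comp (srcPerm p φ)]
      apply Finset.sum_congr rfl
      intro s _
      rw [srcPerm_apply, h.mult]
      by_cases hw : 0 < C.mult g s
      · rw [srcVal_equiv hx s]
        intro q hq
        subst hq
        have := C.layered _ _ hw
        exact ih (C.lay q) (by omega) q rfl
      · have : C.mult g s = 0 := by omega
        rw [this, zero_mul, zero_mul]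
  exact key _ g rfl

end aut

end Pool.Agent.H870R2.LS
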