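import Pool.Agent.H870R2.LS.WMain

set_option autoImplicit false
set_option linter.unusedSectionVars false

/-! The width lower bound, final form. -/

namespace Pool.Agent.H870R2.LS

theorem width_final {Q : Type} [Fintype Q] (H n : ℕ) (h : 0 < H) (C : WCkt (Inp (TEl H n)) Q)
    (hC : ∀ x, C.val x C.out = true ↔ Tem H n h x) (R : ℕ) (hRH : R ≤ H) (hR4 : 4 ≤ R)
    (hs : ∀ v : Pla H n, v.1.val < R → C.SymOn (tblk v)) (hm : C.lay C.out < 2 ^ (R - 4))
    (w : ℕ)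
    (hn : (Nat.log 5 (H * (n + 1) * (n + 1)) + 2) * (12 * w * (Nat.log 5 w + 1) + 8) ≤ n) :
    ∃ j, w < {g | C.lay g = j}.ncard := by
  by_contra hcon
  push Not at hcon
  have hs5 : 5 * (H * (n + 1) * (n + 1)) ≤ 5 ^ (Nat.log 5 (H * (n + 1) * (n + 1)) + 2) := by
    have h1 : H * (n + 1) * (n + 1) < 5 ^ (Nat.log 5 (H * (n + 1) * (n + 1)) + 1) :=
      Nat.lt_pow_succ_log_self (by norm_num) _
    rw [pow_succ 5 (Nat.log 5 (H * (n + 1) * (n + 1)) + 1)]
    omega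
  refine tem_width H n h C hC R hRH hs w (Nat.log 5 w + 1) hcon
    (Nat.lt_pow_succ_log_self (by norm_num) w) (R - 4) hm (by omega) _ hs5 ?_
  have h1 : 12 * (w * (Nat.log 5 w + 1)) + 8 = 12 * w * (Nat.log 5 w + 1) + 8 := by ring
  rw [h1]
  omega

end Pool.Agent.H870R2.LS
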