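import Pool.Agent.H870R2.LS.WDefs

set_option autoImplicit false
set_option linter.unusedSectionVars false

/-! The game on layered circuits: halving the number of layers. -/

namespace Pool.Agent.H870R2.LS

open Finset

section grp

variable {I Q : Type*} [Fintype I] [Fintype Q] (C : WCkt I Q)

/-- automorphisms fixing the gate `g` -/
def wFix (g : Q) : Subgroup (Equiv.Perm I × Equiv.Perm Q) where
  carrier := {q | C.IsAut q.1 q.2 ∧ q.2 g = g}
  one_mem' := ⟨WCkt.IsAut.one, rfl⟩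
  mul_mem' := by
    rintro ⟨p, φ⟩ ⟨p', φ'⟩ ⟨h1, h2⟩ ⟨h3, h4⟩
    refine ⟨h1.mul h3, ?_⟩
    show φ (φ' g) = g
    rw [h4, h2]
  inv_mem' := by
    rintro ⟨p, φ⟩ ⟨h1, h2⟩
    refine ⟨h1.inv, ?_⟩
    show φ⁻¹ g = g
    rw [Equiv.Perm.inv_eq_iff_eq]
    exact h2.symm

/-- the action on sources -/
def mvS : Equiv.Perm I × Equiv.Perm Q →* Equiv.Perm (Src I Q) where
  toFun := fun q => srcPerm q.1 q.2
  map_one' := srcPerm_one
  map_mul' := fun a b => srcPerm_mul a.1 b.1 a.2 b.2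

end grp

theorem wgame {I Q W Cfg : Type*} [Fintype I] [Fintype Q] (C : WCkt I Q) (G : Cfg → Set I)
    (P : (W → ZMod 5) → Equiv.Perm I) (hPadd : ∀ δ δ', P (δ + δ') = P δ * P δ')
    (act : (W → ZMod 5) → Cfg → Cfg) (hG : ∀ δ κ i, P δ i ∈ G (act δ κ) ↔ i ∈ G κ)
    (Hid : ℕ → Finset W → Cfg → Cfg → Prop)
    (hmono : ∀ j j' S κ κ', j' ≤ j → Hid j S κ κ' → Hid j' S κ κ') (σ : ℕ)
    (hP1 : ∀ j S S' κ κ', Hid (j + 1) S κ κ' → S.card ≤ σ → S'.card ≤ σ →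
      ∃ δ : W → ZMod 5, (∀ v ∈ S, δ v = 0) ∧ Hid j S' (act δ κ) κ')
    (hP0 : ∀ j S κ κ' i, Hid j S κ κ' →
      (∀ δ : W → ZMod 5, (∀ v ∈ S, δ v = 0) → P δ i = i) → (i ∈ G κ ↔ i ∈ G κ'))
    (hsL : ∀ j1 j2 j3 : ℕ, ∃ S : Finset W, S.card ≤ σ ∧ ∀ δ : W → ZMod 5,
      (∀ v ∈ S, δ v = 0) → ∃ φ, C.IsAut (P δ) φ ∧
        ∀ g, (C.lay g + 1 = j1 ∨ C.lay g + 1 = j2 ∨ C.lay g + 1 = j3) → φ g = g)
    (hsG : ∀ (g : Q) (s : Src I Q), ∃ S : Finset W, S.card ≤ σ ∧ ∀ δ : W → ZMod 5,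
      (∀ v ∈ S, δ v = 0) → ∃ φ, C.IsAut (P δ) φ ∧ φ g = g ∧ srcMap (P δ) φ s = s)
    (m : ℕ) : ∀ (j ℓ : ℕ), ℓ ≤ 2 ^ m → ∀ S κ κ', Hid (m + 1) S κ κ' → S.card ≤ σ →
      (∀ δ : W → ZMod 5, (∀ v ∈ S, δ v = 0) → ∃ φ, C.IsAut (P δ) φ ∧
        ∀ g, (C.lay g + 1 = j ∨ C.lay g + 1 = j + ℓ) → φ g = g) →
      (∀ g, C.lay g + 1 = j → C.val (G κ) g = C.val (G κ') g) →
      ∀ g, C.lay g + 1 = j + ℓ → C.val (G κ) g = C.val (G κ') g := by
  classical
  have hcomm : ∀ y y', P y * P y' = P y' * P y := by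
    intro y y'
    rw [← hPadd, add_comm, hPadd]
  -- one layer
  have base : ∀ (j : ℕ) S κ κ', Hid 1 S κ κ' → S.card ≤ σ →
      (∀ δ : W → ZMod 5, (∀ v ∈ S, δ v = 0) → ∃ φ, C.IsAut (P δ) φ ∧
        ∀ g, (C.lay g + 1 = j ∨ C.lay g + 1 = j + 1) → φ g = g) →
      (∀ g, C.lay g + 1 = j → C.val (G κ) g = C.val (G κ') g) →
      ∀ g, C.lay g + 1 = j + 1 → C.val (G κ) g = C.val (G κ') g := by
    intro j S κ κ' hH hS hfix hj g hg
    rw [C.val_eq, C.val_eq]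
    congr 1
    unfold WCkt.cnt
    apply sum_match (wFix C g) mvS P hPadd σ
    · intro s
      obtain ⟨S', h1, h2⟩ := hsG g s
      refine ⟨S', h1, fun δ hδ => ?_⟩
      obtain ⟨φ, h3, h4, h5⟩ := h2 δ hδ
      refine ⟨φ, ⟨h3, h4⟩, ?_⟩
      show srcPerm (P δ) φ s = s
      rw [srcPerm_apply]
      exact h5
    · intro S' hS'
      obtain ⟨δ, h1, h2⟩ := hP1 0 S S' κ κ' hH hS hS'
      obtain ⟨φ, h3, h4⟩ := hfix δ h1
      have hφg : φ g = g := h4 g (Or.inr hg)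
      refine ⟨δ, φ, ⟨h3, hφg⟩, ?_⟩
      intro s hs
      show C.mult g s * _ = C.mult g (srcPerm (P δ) φ s) * (srcVal _ _ (srcPerm (P δ) φ s)).toNat
      rw [srcPerm_apply]
      have e1 : C.mult g (srcMap (P δ) φ s) = C.mult g s := by
        conv_lhs => rw [← hφg]
        exact h3.mult g s
      rw [e1]
      by_cases hw : 0 < C.mult g s
      · congr 2
        rcases s with _ | ⟨i, c⟩ | q
        · rfl
        · simp only [srcMap, Option.map_some, Sum.map_inl, Prod.map_apply, id, srcVal]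
          rw [decide_eq_decide]
          have h5 : P δ i ∈ G (act δ κ) ↔ P δ i ∈ G κ' := by
            apply hP0 0 S' (act δ κ) κ' (P δ i) h2
            intro δ' hδ'
            obtain ⟨φ', _, h7⟩ := hs δ' hδ'
            have h8 : srcPerm (P δ') φ' (some (Sum.inl (i, c))) = some (Sum.inl (i, c)) := h7
            rw [srcPerm_apply] at h8
            have h9 : P δ' i = i := by
              simp only [srcMap, Option.map_some, Sum.map_inl, Prod.map_apply, id,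
                Option.some.injEq, Sum.inl.injEq, Prod.mk.injEq, and_true] at h8
              exact h8
            rw [← Equiv.Perm.mul_apply, hcomm, Equiv.Perm.mul_apply, h9]
          rw [← h5, hG]
        · have hq : C.lay q + 1 = j := by
            have := C.layered g q hw
            omega
          simp only [srcMap, Option.map_some, Sum.map_inr, srcVal]
          rw [h4 q (Or.inl hq)]
          exact hj q hq
      · have : C.mult g s = 0 := by omega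
        rw [this, zero_mul, zero_mul]
  induction m with
  | zero =>
    intro j ℓ hℓ S κ κ' hH hS hfix hj
    rw [pow_zero] at hℓ
    interval_cases ℓ
    · exact hj
    · exact base j S κ κ' hH hS hfix hj
  | succ m ih =>
    intro j ℓ hℓ S κ κ' hH hS hfix hj g hg
    obtain ⟨ℓ1, ℓ2, h1, h2, h3⟩ : ∃ ℓ1 ℓ2, ℓ1 ≤ 2 ^ m ∧ ℓ2 ≤ 2 ^ m ∧ ℓ1 + ℓ2 = ℓ := by
      rw [pow_succ] at hℓ
      by_cases hc : ℓ ≤ 2 ^ m
      · exact ⟨ℓ, 0, hc, Nat.zero_le _, by omega⟩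
      · exact ⟨2 ^ m, ℓ - 2 ^ m, le_rfl, by omega, by omega⟩
    obtain ⟨S', hS', hfix'⟩ := hsL j (j + ℓ1) (j + ℓ)
    obtain ⟨δ, h4, h5⟩ := hP1 (m + 1) S S' κ κ' hH hS hS'
    obtain ⟨φ, h6, h7⟩ := hfix δ h4
    have e1 : ∀ g, (C.lay g + 1 = j ∨ C.lay g + 1 = j + ℓ) →
        C.val (G (act δ κ)) g = C.val (G κ) g := by
      intro g hg
      have := h6.val (hG δ κ) g
      rwa [h7 g hg] at this
    have e2 : ∀ g, C.lay g + 1 = j + ℓ1 → C.val (G (act δ κ)) g = C.val (G κ') g := by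
      apply ih j ℓ1 h1 S' (act δ κ) κ' h5 hS'
      · intro δ' hδ'
        obtain ⟨φ', h8, h9⟩ := hfix' δ' hδ'
        refine ⟨φ', h8, fun g hg => h9 g ?_⟩
        rcases hg with hg | hg
        · exact Or.inl hg
        · exact Or.inr (Or.inl hg)
      · intro g hg
        rw [e1 g (Or.inl hg)]
        exact hj g hg
    have e3 : C.val (G (act δ κ)) g = C.val (G κ') g := by
      apply ih (j + ℓ1) ℓ2 h2 S' (act δ κ) κ' h5 hS' _ e2 g (by omega)
      intro δ' hδ'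
      obtain ⟨φ', h8, h9⟩ := hfix' δ' hδ'
      refine ⟨φ', h8, fun g hg => h9 g ?_⟩
      rcases hg with hg | hg
      · exact Or.inr (Or.inl hg)
      · exact Or.inr (Or.inr (by omega))
    rw [← e3, e1 g (Or.inr hg)]

end Pool.Agent.H870R2.LS
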