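import Pool.Agent.H870R2.LS.WGame
import Pool.Agent.H870R2.LS.TemR

set_option autoImplicit false
set_option linter.unusedSectionVars false

/-! Width lower bound for the template function. -/

namespace Pool.Agent.H870R2.LS

open Finset Pool.Agent.H545R2

section wsupp

variable {V Q : Type} [Fintype V] [Fintype Q] {r : ℕ} (blk : Fin r → (Fin 5 ↪ V))
  (hd : Pairwise fun i j => Disjoint (Set.range (blk i)) (Set.range (blk j)))
  (C : WCkt (Inp V) Q) (hsym : ∀ i, C.SymOn (blk i))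

/-- the group of automorphisms -/
def wAut : Subgroup (Equiv.Perm (Inp V) × Equiv.Perm Q) where
  carrier := {q | C.IsAut q.1 q.2}
  one_mem' := WCkt.IsAut.one
  mul_mem' := by
    rintro ⟨p, φ⟩ ⟨p', φ'⟩ h1 h3
    exact WCkt.IsAut.mul h1 h3
  inv_mem' := by
    rintro ⟨p, φ⟩ h1
    exact WCkt.IsAut.inv h1

include hsym in
/-- The support of a set of gates of a circuit of small width. -/
theorem wsupp {w e q : ℕ} (hw : ∀ j, {g | C.lay g = j}.ncard ≤ w) (he : w < 5 ^ e) (hq : 1 ≤ q)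
    (T : Finset Q) (hT : T.card ≤ q) {W : Type} [Fintype W] (ei : W ↪ Fin r) :
    ∃ S : Finset W, S.card < 2 * (q * e) ∧ ∀ δ : W → ZMod 5, (∀ v ∈ S, δ v = 0) →
      ∃ φ, C.IsAut (inpPerm (bp (blkE blk hd) (gam ei δ))) φ ∧ ∀ g ∈ T, φ g = g := by
  classical
  let H : Subgroup (Fin r → alternatingGroup (Fin 5)) :=
    { carrier := {γ | ∃ φ, C.IsAut (inpPerm (bp (blkE blk hd) γ)) φ ∧ ∀ g ∈ T, φ g = g}
      one_mem' := ⟨1, by rw [bp_one_inp]; exact WCkt.IsAut.one, fun _ _ => rfl⟩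
      mul_mem' := by
        rintro a b ⟨φ, h1, h2⟩ ⟨ψ, h3, h4⟩
        refine ⟨φ * ψ, by rw [SN.bp_mul, SN.inpPerm_mul]; exact h1.mul h3, ?_⟩
        intro g hg
        rw [Equiv.Perm.mul_apply, h4 g hg, h2 g hg]
      inv_mem' := by
        rintro a ⟨φ, h1, h2⟩
        refine ⟨φ⁻¹, by rw [bp_inv_inp]; exact h1.inv, ?_⟩
        intro g hg
        rw [Equiv.Perm.inv_eq_iff_eq]
        exact (h2 g hg).symm }
  choose φ hφ using sym_all_gen blk hd (wAut C) hsym
  have hφ' : ∀ γ, C.IsAut (inpPerm (bp (blkE blk hd) γ)) (φ γ) := hφ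
  have hlc : ∀ g : Q, Fintype.card {g' // C.lay g' = C.lay g} ≤ w := by
    intro g
    have h1 := hw (C.lay g)
    rw [Set.ncard_eq_toFinset_card'] at h1
    rw [Fintype.card_subtype]
    refine le_trans (le_of_eq ?_) h1
    congr 1
    ext g'
    simp
  have hc : Fintype.card ((g : T) → {g' // C.lay g' = C.lay g.1}) < 5 ^ (q * e) := by
    rw [Fintype.card_pi]
    have h1 : ∏ g : T, Fintype.card {g' // C.lay g' = C.lay g.1} ≤ ∏ g : T, 5 ^ e :=
      Finset.prod_le_prod' fun g _ => (hlc g.1).trans he.le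
    rw [Finset.prod_const, Finset.card_univ, Fintype.card_coe, ← pow_mul] at h1
    rcases Nat.eq_zero_or_pos T.card with h0 | h0
    · haveI : IsEmpty T := by
        rw [← Fintype.card_eq_zero_iff, Fintype.card_coe, h0]
      rw [Finset.prod_of_isEmpty]
      have he1 : 1 ≤ e := by
        rcases Nat.eq_zero_or_pos e with rfl | h
        · exfalso
          have h2 := hlc C.out
          have h3 : 0 < Fintype.card {g' // C.lay g' = C.lay C.out} :=
            Fintype.card_pos_iff.2 ⟨⟨C.out, rfl⟩⟩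
          rw [pow_zero] at he
          omega
        · exact h
      exact Nat.one_lt_pow (by positivity) (by norm_num)
    · have h2 : ∏ g : T, Fintype.card {g' // C.lay g' = C.lay g.1} ≤ w ^ T.card := by
        have h3 : ∏ g : T, Fintype.card {g' // C.lay g' = C.lay g.1} ≤ ∏ g : T, w :=
          Finset.prod_le_prod' fun g _ => hlc g.1
        rwa [Finset.prod_const, Finset.card_univ, Fintype.card_coe] at h3
      calc ∏ g : T, Fintype.card {g' // C.lay g' = C.lay g.1} ≤ w ^ T.card := h2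
        _ < (5 ^ e) ^ T.card := Nat.pow_lt_pow_left he (by omega)
        _ = 5 ^ (e * T.card) := (pow_mul _ _ _).symm
        _ ≤ 5 ^ (q * e) := by
          apply Nat.pow_le_pow_right (by norm_num)
          rw [mul_comm q e]
          exact Nat.mul_le_mul_left _ hT
  obtain ⟨S, hS1, hS2⟩ := support_A5 H
    (fun γ => (fun g : T => ⟨φ γ g.1, (hφ' γ).lay g.1⟩ :
      (g : T) → {g' // C.lay g' = C.lay g.1})) (by
    intro a b hab
    refine ⟨(φ a)⁻¹ * φ b, ?_, ?_⟩
    · rw [SN.bp_mul, SN.inpPerm_mul, bp_inv_inp]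
      exact (hφ' a).inv.mul (hφ' b)
    · intro g hg
      have h1 : φ a g = φ b g := congrArg Subtype.val (congrFun hab ⟨g, hg⟩)
      rw [Equiv.Perm.mul_apply, ← h1, p_inv_apply]) (q * e) hc
  refine ⟨Finset.univ.filter (fun v => ei v ∈ S), ?_, ?_⟩
  · refine lt_of_le_of_lt ?_ hS1
    apply Finset.card_le_card_of_injOn ei
    · intro b hb
      simpa using hb
    · exact ei.injective.injOn
  · intro δ hδ
    have hmem : gam ei δ ∈ H := by
      apply Subgroup.pi_mem_of_mulSingle_mem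
      intro j
      by_cases hj : j ∈ S
      · have : gam ei δ j = 1 := by
          by_cases hjb : ∃ b, ei b = j
          · obtain ⟨b, rfl⟩ := hjb
            rw [gam_apply, hδ b (by simpa using hj), rot_zero]
          · exact gam_notMem ei δ j hjb
        rw [this, Pi.mulSingle_one]
        exact H.one_mem
      · exact hS2 j hj _
    exact hmem

end wsupp

theorem tem_width {Q : Type} [Fintype Q] (H n : ℕ) (h : 0 < H) (C : WCkt (Inp (TEl H n)) Q)
    (hC : ∀ x, C.val x C.out = true ↔ Tem H n h x) (R : ℕ) (hRH : R ≤ H)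
    (hs : ∀ v : Pla H n, v.1.val < R → C.SymOn (tblk v)) (w e : ℕ)
    (hw : ∀ j, {g | C.lay g = j}.ncard ≤ w) (he : w < 5 ^ e) (m : ℕ) (hm : C.lay C.out < 2 ^ m)
    (hR : m + 4 ≤ R) (s : ℕ)
    (hs5 : 5 * (H * (n + 1) * (n + 1)) ≤ 5 ^ s) (hn : s * (12 * (w * e) + 8) < n + 1) :
    False := by
  classical
  obtain ⟨σ, hσ⟩ : ∃ σ, σ = 6 * (w * e) + 3 := ⟨_, rfl⟩
  obtain ⟨M, hM⟩ := exists_spread H n (σ + 1) (σ + 1) s h hs5 (by
    have : σ + 1 + (σ + 1) = 12 * (w * e) + 8 := by rw [hσ]; ring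
    rw [this]
    exact hn)
  obtain ⟨z, hz⟩ : ∃ z, z = rootP H n h := ⟨_, rfl⟩
  have hz0 : z.1.val = 0 := by rw [hz]; rfl
  have hzl : z.2.2 = Fin.last n := by rw [hz]; rfl
  let el : Pla H n → ZMod 5 → TEl H n := fun v a => some (v, a)
  let Cfg := (Pla H n → ZMod 5) × ZMod 5
  let G : Cfg → Set (Inp (TEl H n)) := fun κ => inst M el none z κ.1 κ.2
  let P : (WR H n R → ZMod 5) → Equiv.Perm (Inp (TEl H n)) := fun δ => inpPerm (labP (exz δ))
  let act : (WR H n R → ZMod 5) → Cfg → Cfg := fun δ κ => (κ.1 + Curv M (exz δ), κ.2 + exz δ z)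
  have hPadd : ∀ δ δ', P (δ + δ') = P δ * P δ' := by
    intro δ δ'
    show inpPerm (labP (exz (δ + δ'))) = _
    rw [exz_add, labP_add, SN.inpPerm_mul]
  have hG : ∀ δ κ i, P δ i ∈ G (act δ κ) ↔ i ∈ G κ := by
    intro δ κ i
    exact inst_act M el none z (exz δ) (labP (exz δ)) (labP_some (exz δ)) rfl κ.1 κ.2 i
  let Hid : ℕ → Finset (WR H n R) → Cfg → Cfg → Prop := fun j S κ κ' =>
    ∃ (i : ℕ) (u : Fin (n + 1) → ZMod 5), i + j + 2 ≤ R ∧ Lie M i u z = 1 ∧
      (∀ v ∈ S, v.1.1.val = i → u v.1.2.1 = 0) ∧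
      κ'.1 = κ.1 - Curv M (Lie M i u) ∧ κ'.2 = κ.2
  have hmono : ∀ j j' S κ κ', j' ≤ j → Hid j S κ κ' → Hid j' S κ κ' := by
    rintro j j' S κ κ' hj ⟨i, u, h1, h2⟩
    exact ⟨i, u, by omega, h2⟩
  have hzero : ∀ i u (v : Pla H n), i < v.1.val → Lie M i u v = 0 := by
    intro i u v hv
    rw [lie_row M i u v hv.le, if_neg]
    rintro ⟨h1, _⟩
    omega
  have hP1 : ∀ j S S' κ κ', Hid (j + 1) S κ κ' → S.card ≤ σ → S'.card ≤ σ →
      ∃ δ : WR H n R → ZMod 5, (∀ v ∈ S, δ v = 0) ∧ Hid j S' (act δ κ) κ' := by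
    rintro j S S' κ κ' ⟨i, u, h1, h2, h3, h4, h5⟩ hS hS'
    obtain ⟨u', h6, h7, h8⟩ := lie_step M (σ) hM i (by omega) u z hzl
      (S.map (Function.Embedding.subtype _)) (S'.map (Function.Embedding.subtype _))
      (by rw [Finset.card_map]; exact hS) (by rw [Finset.card_map]; exact hS') (by
        intro v hv
        rw [Finset.mem_map] at hv
        obtain ⟨w, hw, rfl⟩ := hv
        exact h3 w hw)
    obtain ⟨d, hd⟩ : ∃ d : Pla H n → ZMod 5, d = Lie M (i + 1) u' - Lie M i u := ⟨_, rfl⟩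
    have hd0 : ∀ v, ¬ v.1.val < R → d v = 0 := by
      intro v hv
      rw [hd, Pi.sub_apply, hzero (i + 1) u' v (by omega), hzero i u v (by omega), sub_zero]
    refine ⟨fun v => d v.1, ?_, i + 1, u', by omega, by rw [h6, h2], ?_, ?_, ?_⟩
    · intro v hv
      show d v.1 = 0
      rw [hd, Pi.sub_apply, h8 v.1 (Finset.mem_map.2 ⟨v, hv, rfl⟩), sub_self]
    · intro v hv
      exact h7 v.1 (Finset.mem_map.2 ⟨v, hv, rfl⟩)
    · show κ'.1 = κ.1 + Curv M (exz fun v : WR H n R => d v.1) - Curv M (Lie M (i + 1) u')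
      rw [exz_res d hd0, h4, hd, Curv_sub]
      ring
    · show κ'.2 = κ.2 + (exz fun v : WR H n R => d v.1) z
      rw [exz_res d hd0, h5, hd, Pi.sub_apply, h6, sub_self, add_zero]
  have hP0 : ∀ j S κ κ' i, Hid j S κ κ' →
      (∀ δ : WR H n R → ZMod 5, (∀ v ∈ S, δ v = 0) → P δ i = i) → (i ∈ G κ ↔ i ∈ G κ') := by
    rintro j S κ κ' y ⟨i, u, h1, h2, h3, h4, h5⟩ hfix
    by_contra hcon
    have hcon' : ¬ (y ∈ inst M el none z κ.1 κ.2 ↔ y ∈ inst M el none z κ'.1 κ.2) := by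
      rw [← h5]
      intro h
      apply hcon
      show y ∈ inst M el none z κ.1 κ.2 ↔ y ∈ inst M el none z κ'.1 κ'.2
      rw [← h5]
      exact h
    obtain ⟨v, a, hne, hp⟩ := inst_diff M el none z κ.1 κ'.1 κ.2 y hcon'
    have hc : Curv M (Lie M i u) v ≠ 0 := by
      intro h
      apply hne
      rw [h4, Pi.sub_apply, h, sub_zero]
    rw [curv_lie M i (by omega) u v] at hc
    have hvi : v.1.val = i := by
      by_contra hvi
      exact hc (if_neg (fun h => hvi h.1))
    have hvR : v.1.val < R := by omega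
    have hvS : (⟨v, hvR⟩ : WR H n R) ∉ S := by
      intro hv
      apply hc
      by_cases h : v.1.val = i ∧ v.2.2 = Fin.last n
      · rw [if_pos h]
        exact h3 ⟨v, hvR⟩ hv h.1
      · rw [if_neg h]
    have h6 := hp (labP (exz (Pi.single (⟨v, hvR⟩ : WR H n R) 1)))
      (hfix (Pi.single ⟨v, hvR⟩ 1) (by
        intro v' hv'
        rw [Pi.single_eq_of_ne]
        rintro rfl
        exact hvS hv'))
    have h7 : exz (Pi.single (⟨v, hvR⟩ : WR H n R) (1 : ZMod 5)) v = 1 := by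
      unfold exz
      rw [dif_pos hvR, Pi.single_eq_same]
    have h8 : (some (v, a + exz (Pi.single (⟨v, hvR⟩ : WR H n R) (1 : ZMod 5)) v) : TEl H n) =
        some (v, a) := h6
    rw [h7] at h8
    have h9 : a + 1 = a := (Prod.ext_iff.1 (Option.some.inj h8)).2
    have h10 : (1 : ZMod 5) = 0 := by
      have : a + 1 - a = a - a := by rw [h9]
      simpa using this
    exact absurd h10 (by decide)
  have hsb : ∀ i, C.SymOn (blkR H n R i) := fun i => hs _ ((eR H n R).symm i).2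
  have hw1 : 1 ≤ w := by
    have h1 := hw (C.lay C.out)
    have h2 : 0 < {g | C.lay g = C.lay C.out}.ncard := by
      rw [Set.ncard_pos]
      exact ⟨C.out, rfl⟩
    omega
  have he1 : 1 ≤ e := by
    rcases Nat.eq_zero_or_pos e with rfl | h1
    · rw [pow_zero] at he
      omega
    · exact h1
  have hwe : 1 ≤ w * e := Nat.mul_pos hw1 he1
  have hsT : ∀ (q : ℕ), 1 ≤ q → ∀ T : Finset Q, T.card ≤ q → ∃ S : Finset (WR H n R),
      S.card < 2 * (q * e) ∧ ∀ δ : WR H n R → ZMod 5, (∀ v ∈ S, δ v = 0) →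
        ∃ φ, C.IsAut (P δ) φ ∧ ∀ g ∈ T, φ g = g := by
    intro q hq T hT
    obtain ⟨S, h1, h2⟩ := wsupp (blkR H n R) (blkR_disj H n R) C hsb hw he hq T hT
      (eR H n R).toEmbedding
    refine ⟨S, h1, fun δ hδ => ?_⟩
    have h3 := h2 δ hδ
    rwa [bp_blkR] at h3
  have hsL : ∀ j1 j2 j3 : ℕ, ∃ S : Finset (WR H n R), S.card ≤ σ ∧
      ∀ δ : WR H n R → ZMod 5, (∀ v ∈ S, δ v = 0) → ∃ φ, C.IsAut (P δ) φ ∧
        ∀ g, (C.lay g + 1 = j1 ∨ C.lay g + 1 = j2 ∨ C.lay g + 1 = j3) → φ g = g := by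
    intro j1 j2 j3
    have hL : ∀ j, (Finset.univ.filter fun g => C.lay g + 1 = j).card ≤ w := by
      intro j
      rcases j with _ | j
      · have : (Finset.univ.filter fun g : Q => C.lay g + 1 = 0) = ∅ := by
          apply Finset.filter_eq_empty_iff.2
          intro g _
          omega
        rw [this, Finset.card_empty]
        exact Nat.zero_le _
      · have h1 := hw j
        rw [Set.ncard_eq_toFinset_card'] at h1
        refine le_trans (le_of_eq ?_) h1
        congr 1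
        ext g
        simp
    obtain ⟨S, h1, h2⟩ := hsT (3 * w) (by omega)
      (Finset.univ.filter (fun g => C.lay g + 1 = j1) ∪
        Finset.univ.filter (fun g => C.lay g + 1 = j2) ∪
        Finset.univ.filter (fun g => C.lay g + 1 = j3)) (by
        have h1 := Finset.card_union_le (Finset.univ.filter (fun g => C.lay g + 1 = j1) ∪
          Finset.univ.filter (fun g => C.lay g + 1 = j2))
          (Finset.univ.filter (fun g => C.lay g + 1 = j3))
        have h2 := Finset.card_union_le (Finset.univ.filter (fun g => C.lay g + 1 = j1))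
          (Finset.univ.filter (fun g => C.lay g + 1 = j2))
        have h3 := hL j1
        have h4 := hL j2
        have h5 := hL j3
        omega)
    refine ⟨S, ?_, fun δ hδ => ?_⟩
    · have h3 : 2 * (3 * w * e) = 6 * (w * e) := by ring
      omega
    · obtain ⟨φ, h3, h4⟩ := h2 δ hδ
      refine ⟨φ, h3, fun g hg => h4 g ?_⟩
      simp only [Finset.mem_union, Finset.mem_filter, Finset.mem_univ, true_and]
      tauto
  have hsG : ∀ (g : Q) (y : Src (Inp (TEl H n)) Q), ∃ S : Finset (WR H n R), S.card ≤ σ ∧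
      ∀ δ : WR H n R → ZMod 5, (∀ v ∈ S, δ v = 0) →
        ∃ φ, C.IsAut (P δ) φ ∧ φ g = g ∧ srcMap (P δ) φ y = y := by
    intro g y
    have hewe : e ≤ w * e := Nat.le_mul_of_pos_left e hw1
    rcases y with _ | ⟨i, c⟩ | q
    · obtain ⟨S, h1, h2⟩ := hsT 1 le_rfl {g} (by rw [Finset.card_singleton])
      refine ⟨S, by omega, fun δ hδ => ?_⟩
      obtain ⟨φ, h3, h4⟩ := h2 δ hδ
      exact ⟨φ, h3, h4 g (Finset.mem_singleton_self g), rfl⟩
    · obtain ⟨S, h1, h2⟩ := hsT 1 le_rfl {g} (by rw [Finset.card_singleton])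
      refine ⟨S ∪ plcI (blkR H n R) (eR H n R).toEmbedding i, ?_, ?_⟩
      · have h3 := Finset.card_union_le S (plcI (blkR H n R) (eR H n R).toEmbedding i)
        have h4 := card_plcI (blkR H n R) (blkR_disj H n R) (eR H n R).toEmbedding i
        omega
      · intro δ hδ
        obtain ⟨φ, h3, h4⟩ := h2 δ fun v hv => hδ v (Finset.mem_union_left _ hv)
        refine ⟨φ, h3, h4 g (Finset.mem_singleton_self g), ?_⟩
        have h5 := bp_plcI (blkR H n R) (blkR_disj H n R) (eR H n R).toEmbedding i δ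
          fun v hv => hδ v (Finset.mem_union_right _ hv)
        rw [bp_blkR] at h5
        show some (Sum.inl (P δ i, c)) = some (Sum.inl (i, c))
        rw [show P δ i = i from h5]
    · obtain ⟨S, h1, h2⟩ := hsT 2 (by norm_num) {g, q} (Finset.card_le_two)
      refine ⟨S, by omega, fun δ hδ => ?_⟩
      obtain ⟨φ, h3, h4⟩ := h2 δ hδ
      refine ⟨φ, h3, h4 g (by simp), ?_⟩
      show some (Sum.inr (φ q)) = some (Sum.inr q)
      rw [h4 q (by simp)]
  -- the two instances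
  let κ0 : Cfg := (0, 0)
  let κ1 : Cfg := (0, 1)
  obtain ⟨d, hd⟩ : ∃ d : Pla H n → ZMod 5, d = Lie M 0 (Pi.single z.2.1 1) := ⟨_, rfl⟩
  have hd0 : ∀ v, ¬ v.1.val < R → d v = 0 := by
    intro v hv
    rw [hd, hzero 0 _ v (by omega)]
  have hdz : d z = 1 := by
    rw [hd, lie_row M 0 _ z (Nat.zero_le _), if_pos ⟨hz0, hzl⟩]
    exact Pi.single_eq_same _ _
  let δ0 : WR H n R → ZMod 5 := fun v => d v.1
  have hδ0 : exz δ0 = d := exz_res d hd0
  obtain ⟨S0, hS0, hS0'⟩ := hsL (C.lay C.out + 1) 0 0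
  have hstart : Hid (m + 1 + 1) ∅ (act δ0 κ0) κ1 := by
    refine ⟨0, Pi.single z.2.1 1, by omega, by rw [← hd]; exact hdz, ?_, ?_, ?_⟩
    · intro v hv
      exact absurd hv (Finset.notMem_empty _)
    · show (0 : Pla H n → ZMod 5) = 0 + Curv M (exz δ0) - Curv M (Lie M 0 (Pi.single z.2.1 1))
      rw [hδ0, hd, zero_add, sub_self]
    · show (1 : ZMod 5) = 0 + exz δ0 z
      rw [hδ0, hdz, zero_add]
  obtain ⟨δ1, _, hδ1⟩ := hP1 (m + 1) ∅ S0 (act δ0 κ0) κ1 hstart (by
    rw [Finset.card_empty]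
    exact Nat.zero_le _) hS0
  have hall : ∀ δ : WR H n R → ZMod 5, ∃ φ, C.IsAut (P δ) φ := by
    intro δ
    obtain ⟨φ, hφ⟩ := sym_all_gen (blkR H n R) (blkR_disj H n R) (wAut C) hsb
      (gam (eR H n R).toEmbedding δ)
    rw [bp_blkR] at hφ
    exact ⟨φ, hφ⟩
  have e0 : ∀ δ κ, C.val (G (act δ κ)) C.out = C.val (G κ) C.out := by
    intro δ κ
    obtain ⟨φ, hφ⟩ := hall δ
    have := hφ.val (hG δ κ) C.out
    rwa [hφ.out] at this
  have e2 : C.val (G (act δ1 (act δ0 κ0))) C.out = C.val (G κ1) C.out := by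
    apply wgame C G P hPadd act hG Hid hmono σ hP1 hP0 hsL hsG m 0 (C.lay C.out + 1) (by omega)
      S0 (act δ1 (act δ0 κ0)) κ1 hδ1 hS0 _ _ C.out (by omega)
    · intro δ hδ
      obtain ⟨φ, h1, h2⟩ := hS0' δ hδ
      refine ⟨φ, h1, fun g hg => h2 g ?_⟩
      rcases hg with hg | hg
      · omega
      · left
        omega
    · intro g hg
      omega
  have hsub : ∀ κ, G κ ⊆ tmpl H n h := by
    rintro κ y (⟨v, hv, rfl⟩ | ⟨v, hv, a, a', rfl⟩ | rfl)
    · left
      exact ⟨v, _, hv, rfl⟩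
    · right; left
      exact ⟨v, hv, a, a', _, rfl⟩
    · right; right
      exact ⟨κ.2, by rw [hz]⟩
  have hel : ∀ v a v' a', el v a = el v' a' → v = v' ∧ a = a' := by
    intro v a v' a' he
    have := Option.some.inj he
    exact ⟨congrArg Prod.fst this, congrArg Prod.snd this⟩
  have y0 : C.val (G κ0) C.out = true := by
    rw [hC]
    unfold Tem
    rw [Set.inter_eq_left.2 (hsub _)]
    exact inst_yes M el none z
  rw [← e0 δ0, ← e0 δ1, e2, hC] at y0
  unfold Tem at y0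
  rw [Set.inter_eq_left.2 (hsub _)] at y0
  exact inst_no M el none z hel (fun v a he => by cases he) y0

end Pool.Agent.H870R2.LS
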