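import Pool.Agent.H870R2.LS.XDefs
import Pool.Agent.H870R2.LS.SupQ
import Pool.Agent.H534R2.SymSupport

set_option autoImplicit false
set_option linter.unusedSectionVars false

/-! Statements to be proved (each in its own file, namespace Pool.Agent.H870R2.LS). -/

namespace Pool.Agent.H870R2.LS.XStub

open Finset

/-- XNO (file XNo.lean) -/
theorem grid_no {n k q : ℕ} (hn : 1 ≤ n) (hk : 2 ≤ k) (E : Lab3 ↪ ZMod q) (κ : Fin n → ZMod 3)
    (h : HasClique n k q (gridInst n k q E κ)) : ∑ j, κ j = 0 := sorry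

/-- XTR (file XTr.lean): translations of the labels as even permutations -/
theorem exists_trans {q : ℕ} [NeZero q] (E : Lab3 ↪ ZMod q) :
    ∃ τ : Lab3 → alternatingGroup (ZMod q),
      (∀ δ l, (τ δ : Equiv.Perm (ZMod q)) (E l) = E (l + δ)) ∧
      (∀ δ a, a ∉ Set.range E → (τ δ : Equiv.Perm (ZMod q)) a = a) ∧ τ 0 = 1 := sorry

/-- XPATH (file XPath.lean): moving the curvature -/
theorem grid_move {n k q : ℕ} (E : Lab3 ↪ ZMod q) (j j' : Fin n) (i0 : Fin k) (hi : 1 ≤ i0.val) :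
    ∃ δ : Posn n k → Lab3, (∀ p, δ p ≠ 0 → p.1 = j ∨ p.1 = j' ∨ p.2 = i0) ∧
      ∀ (γ : Posn n k → Equiv.Perm (ZMod q)), (∀ p l, γ p (E l) = E (l + δ p)) →
      (∀ p a, a ∉ Set.range E → γ p a = a) →
      ∀ (κ : Fin n → ZMod 3) (y : Cand n k q × Cand n k q),
        pairAct γ y ∈ gridInst n k q E (κ - Pi.single j 1 + Pi.single j' 1) ↔
          y ∈ gridInst n k q E κ := sorry

/-- XUP (file XUp.lean): the upper bound -/
theorem clique_upper (n k q : ℕ) (hn : 1 ≤ n) (hk : 1 ≤ k) [NeZero q] :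
    ∃ (Gt : Type) (_ : Fintype Gt) (N : LNet (Cand n k q × Cand n k q) Bool Gt),
      (∀ g, (∀ s t, N.F g s t = true ↔ (∀ b ∈ s, b = true) ∧ ∀ b ∈ t, b = true) ∨
        (∀ s t, N.F g s t = true ↔ (∃ b ∈ s, b = true) ∨ ∃ b ∈ t, b = true)) ∧
      (∀ x, N.val x N.out = true ↔ HasClique n k q x) ∧
      (∀ g, N.lay g ≤ 2 * n) ∧
      (∀ l, (Finset.univ.filter (fun g => N.lay g = l)).card ≤ q ^ (2 * k)) ∧
      (∀ γ : Posn n k → Equiv.Perm (ZMod q), ∃ φ, N.IsAut (pairAct γ) φ) := sorry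

/-- PS (file PtSup.lean): supports of points for powers of alternating groups -/
theorem point_support {q r m : ℕ} (hm : 1 ≤ m) (hq : 2 ^ (16 * m + 16) ≤ q)
    (H : Subgroup (Fin r → alternatingGroup (Fin q))) {Q : Type} [Fintype Q]
    (ψ : (Fin r → alternatingGroup (Fin q)) → Q) (hψ : ∀ a b, ψ a = ψ b → a⁻¹ * b ∈ H)
    (hcard : Fintype.card Q < q ^ m) :
    ∃ T : Finset (Fin r × Fin q), T.card < 2 * m ∧
      ∀ γ : Fin r → alternatingGroup (Fin q),
        (∀ p ∈ T, (γ p.1 : Equiv.Perm (Fin q)) p.2 = p.2) → γ ∈ H := sorry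

end Pool.Agent.H870R2.LS.XStub
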