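import Pool.Agent.H870R2.LS.PNet

set_option autoImplicit false
set_option linter.unusedSectionVars false

/-! Systems of linear equations over the field with two elements: the instances. -/

namespace Pool.Agent.H870R2.PC

open Finset BigOperators H522R2.LS

/-- A linear equation over the field with two elements with the set `Ω` of unknowns: `(S, c)` is
the equation `∑ x ∈ S, x = c`. -/
abbrev Eqn (Ω : Type) : Type := Finset Ω × ZMod 2

/-- The system of the equations `q` with `A q = 1` has a solution. -/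
def Solvable {Ω : Type} (A : Eqn Ω → ℕ) : Prop :=
  ∃ x : Ω → ZMod 2, ∀ q, A q = 1 → ∑ i ∈ q.1, x i = q.2

/-- The systems (sets of equations, given by their indicator functions) in which every equation has
exactly four unknowns and every unknown is in at most four equations. -/
def Sparse4 (Ω : Type) [Fintype Ω] [DecidableEq Ω] : Set (Eqn Ω → ℕ) :=
  {A | (∀ q, A q = 0 ∨ A q = 1) ∧ (∀ q, A q = 1 → q.1.card = 4) ∧
    ∀ x, (univ.filter (fun q : Eqn Ω => A q = 1 ∧ x ∈ q.1)).card ≤ 4}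

/-- A permutation of the unknowns acts on the equations. -/
def eqnMap {Ω : Type} (g : Equiv.Perm Ω) (q : Eqn Ω) : Eqn Ω := (q.1.map g.toEmbedding, q.2)

/-- Unknowns: `cw i s a` codeword `a` at the vertex `(i, s)`, `dum` dummies. -/
inductive Pos4 (N : ℕ) (Δ : Type)
  | cw (i : Fin N) (s : Bool) (a : Fin 4)
  | dum (δ : Δ)
  deriving DecidableEq, Fintype

variable {N : ℕ} {Δ : Type} [Fintype Δ] [DecidableEq Δ]

/-- the unknowns at a vertex -/
def inQuad (i : Fin N) (s : Bool) : Pos4 N Δ → Prop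
  | .cw j s' _ => j = i ∧ s' = s
  | .dum _ => False

/-- the unknowns of the equation `β` of the edge `(i, t)` -/
def inEdge (ρ : Fin 3 → Equiv.Perm (Fin N)) (b : Fin N → Fin 3 → ZMod 2) (i : Fin N) (t : Fin 3)
    (β : ZMod 2) : Pos4 N Δ → Prop
  | .cw j false a => j = i ∧ lab a t = β
  | .cw j true a => j = ρ t i ∧ lab a t = β + b i t
  | .dum _ => False

open Classical in
/-- the equation of a vertex -/
noncomputable def quadSet (i : Fin N) (s : Bool) : Finset (Pos4 N Δ) := univ.filter (inQuad i s)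

open Classical in
/-- the equations of an edge -/
noncomputable def edgeSet (ρ : Fin 3 → Equiv.Perm (Fin N)) (b : Fin N → Fin 3 → ZMod 2) (i : Fin N)
    (t : Fin 3) (β : ZMod 2) : Finset (Pos4 N Δ) := univ.filter (inEdge ρ b i t β)

theorem mem_quadSet {i : Fin N} {s : Bool} {x : Pos4 N Δ} : x ∈ quadSet i s ↔ inQuad i s x := by
  unfold quadSet
  simp

theorem mem_edgeSet {ρ : Fin 3 → Equiv.Perm (Fin N)} {b : Fin N → Fin 3 → ZMod 2} {i : Fin N}
    {t : Fin 3} {β : ZMod 2} {x : Pos4 N Δ} : x ∈ edgeSet ρ b i t β ↔ inEdge ρ b i t β x := by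
  unfold edgeSet
  simp

/-- the equations of the instance -/
def IsEq (ρ : Fin 3 → Equiv.Perm (Fin N)) (b : Fin N → Fin 3 → ZMod 2) (q : Eqn (Pos4 N Δ)) :
    Prop :=
  (q.2 = 1 ∧ ∃ i s, q.1 = quadSet i s) ∨ (q.2 = 0 ∧ ∃ i t β, q.1 = edgeSet ρ b i t β)

open Classical in
/-- the indicator function of the instance -/
noncomputable def w4 (ρ : Fin 3 → Equiv.Perm (Fin N)) (b : Fin N → Fin 3 → ZMod 2)
    (q : Eqn (Pos4 N Δ)) : ℕ := if IsEq ρ b q then 1 else 0

theorem w4_one {ρ : Fin 3 → Equiv.Perm (Fin N)} {b : Fin N → Fin 3 → ZMod 2}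
    {q : Eqn (Pos4 N Δ)} : w4 ρ b q = 1 ↔ IsEq ρ b q := by
  unfold w4
  split_ifs with h
  · exact ⟨fun _ => h, fun _ => rfl⟩
  · exact ⟨fun h' => absurd h' (by norm_num), fun h' => absurd h' h⟩

/-- blocks -/
abbrev Ix4 (N : ℕ) : Type := Fin N × Bool

/-- blockwise action -/
def act4 (g : Ix4 N → Equiv.Perm (Fin 4)) : Equiv.Perm (Pos4 N Δ) where
  toFun x := match x with
    | .cw i s a => .cw i s (g (i, s) a)
    | .dum δ => .dum δ
  invFun x := match x with
    | .cw i s a => .cw i s ((g (i, s)).symm a)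
    | .dum δ => .dum δ
  left_inv x := by cases x <;> simp
  right_inv x := by cases x <;> simp

theorem act4_one : act4 (Δ := Δ) (1 : Ix4 N → Equiv.Perm (Fin 4)) = 1 := by
  ext x; cases x <;> rfl

theorem act4_mul (g h : Ix4 N → Equiv.Perm (Fin 4)) :
    act4 (Δ := Δ) (g * h) = act4 g * act4 h := by
  ext x; cases x <;> rfl

omit [Fintype Δ] [DecidableEq Δ] in
theorem eqnMap_one {Ω : Type} (q : Eqn Ω) : eqnMap 1 q = q := by
  unfold eqnMap
  refine Prod.ext ?_ rfl
  show q.1.map (Equiv.refl Ω).toEmbedding = q.1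
  simp

omit [Fintype Δ] [DecidableEq Δ] in
theorem eqnMap_mul {Ω : Type} (g h : Equiv.Perm Ω) (q : Eqn Ω) :
    eqnMap (g * h) q = eqnMap g (eqnMap h q) := by
  unfold eqnMap
  refine Prod.ext ?_ rfl
  show q.1.map _ = (q.1.map _).map _
  rw [Finset.map_map]
  rfl

theorem quad_map (τ : Fin N → Bool → Fin 3) (i : Fin N) (s : Bool) :
    (quadSet i s : Finset (Pos4 N Δ)).map (act4 (fun v => flp (τ v.1 v.2))).toEmbedding
      = quadSet i s := by
  ext x
  rw [Finset.mem_map_equiv, mem_quadSet, mem_quadSet]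
  rcases x with ⟨j, s', a⟩ | δ
  · exact Iff.rfl
  · exact Iff.rfl

theorem lab_flp_symm : ∀ (t : Fin 3) (a : Fin 4) (t' : Fin 3),
    lab ((flp t).symm a) t' = lab a t' + fl t t' := by
  decide

theorem edge_map (ρ : Fin 3 → Equiv.Perm (Fin N)) (b b' : Fin N → Fin 3 → ZMod 2)
    (τ : Fin N → Bool → Fin 3)
    (hb : ∀ i t, b i t = b' i t + fl (τ i false) t + fl (τ (ρ t i) true) t)
    (i : Fin N) (t : Fin 3) (β : ZMod 2) :
    (edgeSet ρ b i t β : Finset (Pos4 N Δ)).map (act4 (fun v => flp (τ v.1 v.2))).toEmbedding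
      = edgeSet ρ b' i t (β + fl (τ i false) t) := by
  have h1 : ∀ x y z : ZMod 2, (x + y = z) ↔ (x = z + y) := by decide
  have h2 : ∀ l f g c d : ZMod 2, (l + f = d + (c + g + f)) ↔ (l = d + g + c) := by decide
  ext x
  rw [Finset.mem_map_equiv, mem_edgeSet, mem_edgeSet]
  rcases x with ⟨j, s', a⟩ | δ
  · cases s'
    · show ((j = i ∧ lab ((flp (τ j false)).symm a) t = β)) ↔
        ((j = i ∧ lab a t = β + fl (τ i false) t))
      constructor
      · rintro ⟨rfl, h⟩
        refine ⟨rfl, ?_⟩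
        rw [lab_flp_symm] at h
        exact (h1 _ _ _).1 h
      · rintro ⟨rfl, h⟩
        refine ⟨rfl, ?_⟩
        rw [lab_flp_symm]
        exact (h1 _ _ _).2 h
    · show ((j = ρ t i ∧ lab ((flp (τ j true)).symm a) t = β + b i t)) ↔
        ((j = ρ t i ∧ lab a t = β + fl (τ i false) t + b' i t))
      constructor
      · rintro ⟨rfl, h⟩
        refine ⟨rfl, ?_⟩
        rw [lab_flp_symm, hb i t] at h
        exact (h2 _ _ _ _ _).1 h
      · rintro ⟨rfl, h⟩
        refine ⟨rfl, ?_⟩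
        rw [lab_flp_symm, hb i t]
        exact (h2 _ _ _ _ _).2 h
  · exact Iff.rfl

theorem isEq_gauge (ρ : Fin 3 → Equiv.Perm (Fin N)) (b b' : Fin N → Fin 3 → ZMod 2)
    (τ : Fin N → Bool → Fin 3)
    (hb : ∀ i t, b i t = b' i t + fl (τ i false) t + fl (τ (ρ t i) true) t)
    (q : Eqn (Pos4 N Δ)) :
    IsEq ρ b' (eqnMap (act4 (fun v => flp (τ v.1 v.2))) q) ↔ IsEq ρ b q := by
  have hinj := Finset.map_injective (act4 (Δ := Δ) (fun v : Ix4 N => flp (τ v.1 v.2))).toEmbedding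
  have h3 : ∀ x y : ZMod 2, x + y + y = x := by decide
  unfold IsEq eqnMap
  constructor
  · rintro (⟨h1, i, s, h2⟩ | ⟨h1, i, t, β, h2⟩)
    · refine Or.inl ⟨h1, i, s, hinj ?_⟩
      show q.1.map _ = _
      rw [quad_map]
      exact h2
    · refine Or.inr ⟨h1, i, t, β + fl (τ i false) t, hinj ?_⟩
      show q.1.map _ = _
      rw [edge_map ρ b b' τ hb, h3]
      exact h2
  · rintro (⟨h1, i, s, h2⟩ | ⟨h1, i, t, β, h2⟩)
    · refine Or.inl ⟨h1, i, s, ?_⟩
      show q.1.map _ = _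
      rw [h2, quad_map]
    · refine Or.inr ⟨h1, i, t, β + fl (τ i false) t, ?_⟩
      show q.1.map _ = _
      rw [h2, edge_map ρ b b' τ hb]

theorem w4_gauge (ρ : Fin 3 → Equiv.Perm (Fin N)) (b b' : Fin N → Fin 3 → ZMod 2)
    (τ : Fin N → Bool → Fin 3)
    (hb : ∀ i t, b i t = b' i t + fl (τ i false) t + fl (τ (ρ t i) true) t)
    (q : Eqn (Pos4 N Δ)) :
    w4 ρ b' (eqnMap (act4 (fun v => flp (τ v.1 v.2))) q) = w4 ρ b q := by
  have h0 := isEq_gauge ρ b b' τ hb q
  unfold w4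
  by_cases h : IsEq ρ b q
  · rw [if_pos h, if_pos (h0.mpr h)]
  · rw [if_neg h, if_neg (fun h' => h (h0.mp h'))]

end Pool.Agent.H870R2.PC
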