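import Pool.Agent.H870R2.LS.YDefs

set_option autoImplicit false
set_option linter.unusedSectionVars false

/-! Which of the systems are solvable. -/

namespace Pool.Agent.H870R2.PC

open Finset BigOperators H522R2.LS

variable {Ω : Type} [Fintype Ω] [DecidableEq Ω] {N : ℕ} {Δ : Type} [Fintype Δ] [DecidableEq Δ]

/-- transport of an equation to the positions -/
def eqnTr (e : Pos4 N Δ ≃ Ω) (q : Eqn Ω) : Eqn (Pos4 N Δ) := (q.1.map e.symm.toEmbedding, q.2)

theorem solvable_tr (e : Pos4 N Δ ≃ Ω) (A : Eqn (Pos4 N Δ) → ℕ) :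
    Solvable (fun q => A (eqnTr e q)) ↔ Solvable A := by
  constructor
  · rintro ⟨x, hx⟩
    refine ⟨fun p => x (e p), fun q hq => ?_⟩
    have h1 : eqnTr e (q.1.map e.toEmbedding, q.2) = q := by
      unfold eqnTr
      refine Prod.ext ?_ rfl
      show (q.1.map _).map _ = q.1
      rw [Finset.map_map]
      have : e.toEmbedding.trans e.symm.toEmbedding = Function.Embedding.refl _ := by
        ext p
        simp
      rw [this, Finset.map_refl]
    have h2 := hx (q.1.map e.toEmbedding, q.2) (by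
      show A (eqnTr e (q.1.map e.toEmbedding, q.2)) = 1
      rw [h1]; exact hq)
    rw [Finset.sum_map] at h2
    exact h2
  · rintro ⟨y, hy⟩
    refine ⟨fun p => y (e.symm p), fun q hq => ?_⟩
    have h2 := hy (eqnTr e q) hq
    unfold eqnTr at h2
    rw [Finset.sum_map] at h2
    exact h2

/-- the unknowns at a vertex -/
def cwE (i : Fin N) (s : Bool) : Fin 4 ↪ Pos4 N Δ :=
  ⟨fun a => .cw i s a, fun a a' h => by simpa using h⟩

theorem quadSet_eq (i : Fin N) (s : Bool) :
    (quadSet i s : Finset (Pos4 N Δ)) = univ.map (cwE i s) := by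
  ext x
  rw [mem_quadSet, Finset.mem_map]
  rcases x with ⟨j, s', a⟩ | δ
  · constructor
    · rintro ⟨rfl, rfl⟩
      exact ⟨a, Finset.mem_univ _, rfl⟩
    · rintro ⟨a', _, h⟩
      have h' : (Pos4.cw i s a' : Pos4 N Δ) = .cw j s' a := h
      simp only [Pos4.cw.injEq] at h'
      exact ⟨h'.1.symm, h'.2.1.symm⟩
  · constructor
    · exact fun h => absurd h (fun h => h)
    · rintro ⟨a', _, h⟩
      have h' : (Pos4.cw i s a' : Pos4 N Δ) = .dum δ := h
      simp at h'

theorem edgeSet_eq (ρ : Fin 3 → Equiv.Perm (Fin N)) (b : Fin N → Fin 3 → ZMod 2) (i : Fin N)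
    (t : Fin 3) (β : ZMod 2) :
    (edgeSet ρ b i t β : Finset (Pos4 N Δ)) =
      (univ.filter (fun a : Fin 4 => lab a t = β)).map (cwE i false) ∪
      (univ.filter (fun a : Fin 4 => lab a t = β + b i t)).map (cwE (ρ t i) true) := by
  ext x
  rw [mem_edgeSet, Finset.mem_union, Finset.mem_map, Finset.mem_map]
  rcases x with ⟨j, s', a⟩ | δ
  · cases s'
    · constructor
      · rintro ⟨rfl, h⟩
        exact Or.inl ⟨a, Finset.mem_filter.2 ⟨Finset.mem_univ _, h⟩, rfl⟩
      · rintro (⟨a', h, h1⟩ | ⟨a', _, h1⟩)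
        · have h' : (Pos4.cw i false a' : Pos4 N Δ) = .cw j false a := h1
          simp only [Pos4.cw.injEq] at h'
          obtain ⟨rfl, _, rfl⟩ := h'
          exact ⟨rfl, (Finset.mem_filter.1 h).2⟩
        · have h' : (Pos4.cw (ρ t i) true a' : Pos4 N Δ) = .cw j false a := h1
          simp at h'
    · constructor
      · rintro ⟨rfl, h⟩
        exact Or.inr ⟨a, Finset.mem_filter.2 ⟨Finset.mem_univ _, h⟩, rfl⟩
      · rintro (⟨a', _, h1⟩ | ⟨a', h, h1⟩)
        · have h' : (Pos4.cw i false a' : Pos4 N Δ) = .cw j true a := h1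
          simp at h'
        · have h' : (Pos4.cw (ρ t i) true a' : Pos4 N Δ) = .cw j true a := h1
          simp only [Pos4.cw.injEq] at h'
          obtain ⟨rfl, _, rfl⟩ := h'
          exact ⟨rfl, (Finset.mem_filter.1 h).2⟩
  · constructor
    · exact fun h => absurd h (fun h => h)
    · rintro (⟨a', _, h1⟩ | ⟨a', _, h1⟩)
      · have h' : (Pos4.cw i false a' : Pos4 N Δ) = .dum δ := h1
        simp at h'
      · have h' : (Pos4.cw (ρ t i) true a' : Pos4 N Δ) = .dum δ := h1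
        simp at h'

theorem edge_disj (i j : Fin N) (S T : Finset (Fin 4)) :
    Disjoint (S.map (cwE i false : Fin 4 ↪ Pos4 N Δ)) (T.map (cwE j true)) := by
  rw [Finset.disjoint_left]
  intro x h1 h2
  obtain ⟨a, _, h3⟩ := Finset.mem_map.1 h1
  obtain ⟨a', _, h4⟩ := Finset.mem_map.1 h2
  have h5 : (Pos4.cw i false a : Pos4 N Δ) = .cw j true a' := h3.trans h4.symm
  simp at h5

theorem sum_quad {M : Type} [AddCommMonoid M] (x : Pos4 N Δ → M) (i : Fin N) (s : Bool) :
    ∑ y ∈ quadSet i s, x y = ∑ a, x (.cw i s a) := by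
  rw [quadSet_eq, Finset.sum_map]
  rfl

theorem sum_edge {M : Type} [AddCommMonoid M] (x : Pos4 N Δ → M)
    (ρ : Fin 3 → Equiv.Perm (Fin N)) (b : Fin N → Fin 3 → ZMod 2) (i : Fin N)
    (t : Fin 3) (β : ZMod 2) :
    ∑ y ∈ edgeSet ρ b i t β, x y = (∑ a, if lab a t = β then x (.cw i false a) else 0) +
      ∑ a, if lab a t = β + b i t then x (.cw (ρ t i) true a) else 0 := by
  rw [edgeSet_eq, Finset.sum_union (edge_disj _ _ _ _), Finset.sum_map, Finset.sum_map,
    Finset.sum_filter, Finset.sum_filter]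
  rfl

theorem solv0 (ρ : Fin 3 → Equiv.Perm (Fin N)) :
    Solvable (w4 ρ (fun _ _ => 0) : Eqn (Pos4 N Δ) → ℕ) := by
  refine ⟨fun p => match p with
    | .cw _ _ a => if a = 0 then 1 else 0
    | .dum _ => 0, fun q hq => ?_⟩
  rw [w4_one] at hq
  rcases hq with ⟨h1, i, s, h2⟩ | ⟨h1, i, t, β, h2⟩
  · rw [h1, h2, sum_quad]
    show ∑ a : Fin 4, (if a = 0 then (1 : ZMod 2) else 0) = 1
    decide
  · rw [h1, h2, sum_edge]
    show (∑ a : Fin 4, if lab a t = β then (if a = 0 then (1 : ZMod 2) else 0) else 0) +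
      (∑ a : Fin 4, if lab a t = β + 0 then (if a = 0 then (1 : ZMod 2) else 0) else 0) = 0
    have h3 : ∀ (t : Fin 3) (β : ZMod 2),
        (∑ a : Fin 4, if lab a t = β then (if a = 0 then (1 : ZMod 2) else 0) else 0) +
        (∑ a : Fin 4, if lab a t = β + 0 then (if a = 0 then (1 : ZMod 2) else 0) else 0) = 0 := by
      decide
    exact h3 t β

theorem unsolv (ρ : Fin 3 → Equiv.Perm (Fin N)) (b : Fin N → Fin 3 → ZMod 2)
    (hb : ∑ i, ∑ t, b i t ≠ 0) : ¬ Solvable (w4 ρ b : Eqn (Pos4 N Δ) → ℕ) := by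
  rintro ⟨x, hx⟩
  apply hb
  have hq : ∀ i s, ∑ a, x (.cw i s a) = 1 := by
    intro i s
    have := hx (quadSet i s, 1) (w4_one.2 (Or.inl ⟨rfl, i, s, rfl⟩))
    rw [sum_quad] at this
    exact this
  have he : ∀ i t, (∑ a, lab a t * x (.cw i false a)) + b i t +
      (∑ a, lab a t * x (.cw (ρ t i) true a)) = 0 := by
    intro i t
    have h1 := hx (edgeSet ρ b i t 0, 0) (w4_one.2 (Or.inr ⟨rfl, i, t, 0, rfl⟩))
    rw [sum_edge] at h1
    have h2 : ∀ l β y : ZMod 2, (if l = β then y else 0) = y + l * y + β * y := by decide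
    simp only [h2, Finset.sum_add_distrib, ← Finset.mul_sum, hq, zero_mul, zero_add, add_zero,
      mul_one] at h1
    have h3 : ∀ u v w : ZMod 2, 1 + u + (1 + v + w) = 0 → u + w + v = 0 := by decide
    exact h3 _ _ _ h1
  have h1 : ∑ i, ∑ t, ((∑ a, lab a t * x (.cw i false a)) + b i t +
      (∑ a, lab a t * x (.cw (ρ t i) true a))) = 0 :=
    Finset.sum_eq_zero (fun i _ => Finset.sum_eq_zero (fun t _ => he i t))
  have h2 : ∀ (s : Bool) (i : Fin N), ∑ t, ∑ a, lab a t * x (.cw i s a) = 0 := by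
    intro s i
    rw [Finset.sum_comm]
    refine Finset.sum_eq_zero (fun a _ => ?_)
    rw [← Finset.sum_mul, lab_sum, zero_mul]
  have h3 : ∑ i, ∑ t, ∑ a, lab a t * x (.cw (ρ t i) true a) = 0 := by
    rw [Finset.sum_comm]
    have h4 : ∀ t, ∑ i, ∑ a, lab a t * x (.cw (ρ t i) true a) =
        ∑ i, ∑ a, lab a t * x (.cw i true a) :=
      fun t => Equiv.sum_comp (ρ t) (fun i => ∑ a, lab a t * x (.cw i true a))
    rw [Finset.sum_congr rfl (fun t _ => h4 t), Finset.sum_comm]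
    exact Finset.sum_eq_zero (fun i _ => h2 true i)
  simp only [Finset.sum_add_distrib] at h1
  rw [h3, Finset.sum_eq_zero (fun i _ => h2 false i), zero_add, add_zero] at h1
  exact h1

theorem card_quad (i : Fin N) (s : Bool) : (quadSet i s : Finset (Pos4 N Δ)).card = 4 := by
  rw [Finset.card_eq_sum_ones, sum_quad]
  rfl

theorem card_edge (ρ : Fin 3 → Equiv.Perm (Fin N)) (b : Fin N → Fin 3 → ZMod 2) (i : Fin N)
    (t : Fin 3) (β : ZMod 2) : (edgeSet ρ b i t β : Finset (Pos4 N Δ)).card = 4 := by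
  rw [Finset.card_eq_sum_ones, sum_edge]
  have h : ∀ (t : Fin 3) (β : ZMod 2), (∑ a : Fin 4, if lab a t = β then 1 else 0) = 2 := by
    decide
  rw [h, h]

/-- every position is in at most four equations -/
theorem degree4 (ρ : Fin 3 → Equiv.Perm (Fin N)) (b : Fin N → Fin 3 → ZMod 2) (p : Pos4 N Δ) :
    ∃ F : Option (Fin 3) → Eqn (Pos4 N Δ), ∀ q, IsEq ρ b q → p ∈ q.1 → ∃ o, F o = q := by
  rcases p with ⟨j, s, a⟩ | δ
  · cases s
    · refine ⟨fun o => match o with
        | none => (quadSet j false, 1)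
        | some t => (edgeSet ρ b j t (lab a t), 0), ?_⟩
      rintro q (⟨h1, i, s, h2⟩ | ⟨h1, i, t, β, h2⟩) h3
      · rw [h2, mem_quadSet] at h3
        obtain ⟨rfl, rfl⟩ := h3
        exact ⟨none, Prod.ext h2.symm h1.symm⟩
      · rw [h2, mem_edgeSet] at h3
        obtain ⟨rfl, rfl⟩ := h3
        exact ⟨some t, Prod.ext h2.symm h1.symm⟩
    · refine ⟨fun o => match o with
        | none => (quadSet j true, 1)
        | some t => (edgeSet ρ b ((ρ t).symm j) t (lab a t + b ((ρ t).symm j) t), 0), ?_⟩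
      rintro q (⟨h1, i, s, h2⟩ | ⟨h1, i, t, β, h2⟩) h3
      · rw [h2, mem_quadSet] at h3
        obtain ⟨rfl, rfl⟩ := h3
        exact ⟨none, Prod.ext h2.symm h1.symm⟩
      · rw [h2, mem_edgeSet] at h3
        obtain ⟨rfl, h4⟩ := h3
        refine ⟨some t, Prod.ext ?_ h1.symm⟩
        show edgeSet ρ b ((ρ t).symm (ρ t i)) t (lab a t + b ((ρ t).symm (ρ t i)) t) = q.1
        rw [Equiv.symm_apply_apply, h4, h2]
        have h5 : ∀ x y : ZMod 2, x + y + y = x := by decide
        rw [h5]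
  · refine ⟨fun _ => (∅, 0), ?_⟩
    rintro q (⟨h1, i, s, h2⟩ | ⟨h1, i, t, β, h2⟩) h3
    · rw [h2, mem_quadSet] at h3
      exact absurd h3 (fun h => h)
    · rw [h2, mem_edgeSet] at h3
      exact absurd h3 (fun h => h)

theorem eqnTr_inj (e : Pos4 N Δ ≃ Ω) : Function.Injective (eqnTr e) := by
  intro q q' h
  unfold eqnTr at h
  rw [Prod.mk.injEq] at h
  exact Prod.ext (Finset.map_injective _ h.1) h.2

/-- the instances are sparse -/
theorem sparse_mem (e : Pos4 N Δ ≃ Ω) (ρ : Fin 3 → Equiv.Perm (Fin N))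
    (b : Fin N → Fin 3 → ZMod 2) : (fun q => w4 ρ b (eqnTr e q)) ∈ Sparse4 Ω := by
  classical
  refine ⟨fun q => ?_, fun q hq => ?_, fun x => ?_⟩
  · show w4 ρ b (eqnTr e q) = 0 ∨ w4 ρ b (eqnTr e q) = 1
    unfold w4
    split_ifs
    · exact Or.inr rfl
    · exact Or.inl rfl
  · have h0 : q.1.card = (eqnTr e q).1.card := by
      unfold eqnTr
      rw [Finset.card_map]
    rw [h0]
    rcases w4_one.1 hq with ⟨_, i, s, h2⟩ | ⟨_, i, t, β, h2⟩
    · rw [h2, card_quad]
    · rw [h2, card_edge]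
  · obtain ⟨F, hF⟩ := degree4 ρ b (e.symm x)
    have h1 : (univ.filter (fun q : Eqn Ω => (fun q => w4 ρ b (eqnTr e q)) q = 1 ∧ x ∈ q.1)).card ≤
        (univ.image F).card := by
      refine Finset.card_le_card_of_injOn (eqnTr e) ?_ (eqnTr_inj e).injOn
      intro q hq
      have hq' := (Finset.mem_filter.1 hq).2
      obtain ⟨o, ho⟩ := hF (eqnTr e q) (w4_one.1 hq'.1) (by
        unfold eqnTr
        exact Finset.mem_map.2 ⟨x, hq'.2, rfl⟩)
      exact Finset.mem_coe.2 (Finset.mem_image.2 ⟨o, Finset.mem_univ _, ho⟩)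
    refine h1.trans (Finset.card_image_le.trans ?_)
    simp

theorem Solvable_inv (π : Equiv.Perm Ω) (A : Eqn Ω → ℕ) :
    Solvable (A ∘ eqnMap π) ↔ Solvable A := by
  constructor
  · rintro ⟨x, hx⟩
    refine ⟨fun p => x (π.symm p), fun q hq => ?_⟩
    have h1 : eqnMap π (eqnMap π⁻¹ q) = q := by
      rw [← eqnMap_mul, mul_inv_cancel, eqnMap_one]
    have h2 := hx (eqnMap π⁻¹ q) (by
      show A (eqnMap π (eqnMap π⁻¹ q)) = 1
      rw [h1]; exact hq)
    unfold eqnMap at h2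
    rw [Finset.sum_map] at h2
    exact h2
  · rintro ⟨y, hy⟩
    refine ⟨fun p => y (π p), fun q hq => ?_⟩
    have h2 := hy (eqnMap π q) hq
    unfold eqnMap at h2
    rw [Finset.sum_map] at h2
    exact h2

theorem Sparse4_closed (A : Eqn Ω → ℕ) (hA : A ∈ Sparse4 Ω) (π : Equiv.Perm Ω) :
    A ∘ eqnMap π ∈ Sparse4 Ω := by
  obtain ⟨h1, h2, h3⟩ := hA
  refine ⟨fun q => h1 _, fun q hq => ?_, fun x => ?_⟩
  · have := h2 _ hq
    unfold eqnMap at this
    rw [Finset.card_map] at this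
    exact this
  · refine le_trans ?_ (h3 (π x))
    refine Finset.card_le_card_of_injOn (eqnMap π) ?_ ?_
    · intro q hq
      have hq' := (Finset.mem_filter.1 hq).2
      refine Finset.mem_coe.2 (Finset.mem_filter.2 ⟨Finset.mem_univ _, hq'.1, ?_⟩)
      unfold eqnMap
      exact Finset.mem_map.2 ⟨x, hq'.2, rfl⟩
    · intro q _ q' _ h
      unfold eqnMap at h
      rw [Prod.mk.injEq] at h
      exact Prod.ext (Finset.map_injective _ h.1) h.2

end Pool.Agent.H870R2.PC
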