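import Pool.Agent.H870R2.LS.YMain
import Pool.Agent.H870R2.LS.PSym

set_option autoImplicit false
set_option linter.unusedSectionVars false

/-! Locally symmetric networks for linear systems over the field with two elements. -/

namespace Pool.Agent.H870R2.PC

open Finset BigOperators H522R2.LS

variable {K Ω : Type} [Fintype Ω] [DecidableEq Ω] {N : ℕ} {Δ : Type} [Fintype Δ] [DecidableEq Δ]

theorem core_lin (π : Equiv.Perm (Fin N))
    (hπ : ∀ U : Finset (Fin N), N ≤ 3 * U.card → 3 * U.card ≤ 2 * N →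
      N / 60 < (Pool.Agent.Helper600R2.bd (finRotate N) U).card ∨
      N / 60 < (Pool.Agent.Helper600R2.bd π U).card)
    (k : ℕ) (hN : 2 ≤ N) (hk : 480 * k ≤ N) (e : Pos4 N Δ ≃ Ω) (C : PNet (Eqn Ω) K) {acc : Set K}
    (hval : C.Decides acc (Sparse4 Ω) Solvable)
    (hsym : ∀ g : Ix4 N → A4, C.SymmUnder (eqnMap (FF4 e g))) :
    2 ^ k ≤ Fintype.card C.G := by
  classical
  by_contra hlt
  push Not at hlt
  obtain ⟨i, hi⟩ := core_eq4 π hπ k hN hk e C hsym hlt
  have h1 := hval _ (sparse_mem e (rho π) (tw i))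
  have h2 := hval _ (sparse_mem e (rho π) (fun _ _ => 0))
  rw [hi, h2] at h1
  have h5 : ∑ k, ∑ t, tw i k t ≠ 0 := by
    have : ∀ k : Fin N, ∑ t, tw i k t = if k = i then 1 else 0 := by
      intro k
      rw [Finset.sum_eq_single 0]
      · simp [tw]
      · intro t _ ht
        simp [tw, ht]
      · simp
    rw [Finset.sum_congr rfl (fun k _ => this k)]
    simp
  have h3 : Solvable (fun q => w4 (rho π) (tw i) (eqnTr e q)) :=
    h1.1 ((solvable_tr e _).2 (solv0 (rho π)))
  exact unsolv (rho π) (tw i) h5 ((solvable_tr e _).1 h3)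

open Classical in
/-- the symmetrised network -/
noncomputable def symY {r : ℕ} (β : Fin r × Fin 4 ↪ Ω) (C : PNet (Eqn Ω) K) : PNet (Eqn Ω) K where
  G := ((Fin r → Equiv.Perm (Fin 4)) × C.G) ⊕ Unit
  inp x := match x with
    | Sum.inl (g, h) => (C.inp h).map (eqnMap (bp β g))
    | Sum.inr _ => none
  F x := match x with
    | Sum.inl (_, h) => C.F h
    | Sum.inr _ => fun o m => if h : ∃ k, k ∈ m then h.choose else C.F C.out o m
  wires x y := match x, y with
    | Sum.inl (g, h), Sum.inl (g', h') => if g = g' then C.wires h h' else 0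
    | Sum.inr _, Sum.inl (_, h) => if h = C.out then 1 else 0
    | _, _ => 0
  rk x := match x with
    | Sum.inl (_, h) => C.rk h
    | Sum.inr _ => C.rk C.out + 1
  rk_lt x y h := by
    rcases x with ⟨g, x⟩ | t <;> rcases y with ⟨g', y⟩ | t'
    · simp only at h ⊢
      by_cases hg : g = g'
      · rw [if_pos hg] at h
        exact C.rk_lt x y h
      · rw [if_neg hg] at h
        exact absurd rfl h
    · exact absurd rfl h
    · simp only at h ⊢
      by_cases hy : y = C.out
      · subst hy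
        exact Nat.lt_succ_self _
      · exact absurd (if_neg hy) h
    · exact absurd rfl h
  out := Sum.inr ()

theorem symY_val {r : ℕ} (β : Fin r × Fin 4 ↪ Ω) (C : PNet (Eqn Ω) K) (A : Eqn Ω → ℕ)
    (g : Fin r → Equiv.Perm (Fin 4)) : ∀ (n : ℕ) (h : C.G), C.rk h = n →
      (symY β C).val A (Sum.inl (g, h)) = C.val (A ∘ eqnMap (bp β g)) h := by
  classical
  intro n
  induction n using Nat.strong_induction_on with
  | _ n ih =>
    intro h hn
    rw [PNet.val_eq, PNet.val_eq C]
    show C.F h _ _ = C.F h _ _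
    congr 1
    · show ((C.inp h).map (eqnMap (bp β g))).map A = _
      rcases C.inp h <;> rfl
    · show ∑ y : ((Fin r → Equiv.Perm (Fin 4)) × C.G) ⊕ Unit,
        (symY β C).wires (Sum.inl (g, h)) y • ({(symY β C).val A y} : Multiset K) = _
      rw [Fintype.sum_sum_type, Fintype.sum_prod_type]
      have h1 : ∑ y : Unit, (symY β C).wires (Sum.inl (g, h)) (Sum.inr y) •
          ({(symY β C).val A (Sum.inr y)} : Multiset K) = 0 := by
        refine Finset.sum_eq_zero (fun y _ => ?_)
        show 0 • _ = _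
        rw [zero_smul]
      rw [h1, add_zero, Finset.sum_eq_single g]
      · refine Finset.sum_congr rfl (fun x _ => ?_)
        have hw : (symY β C).wires (Sum.inl (g, h)) (Sum.inl (g, x)) = C.wires h x := if_pos rfl
        rw [hw]
        by_cases hx : C.wires h x = 0
        · rw [hx, zero_smul, zero_smul]
        · rw [ih (C.rk x) (hn ▸ C.rk_lt h x hx) x rfl]
      · intro g' _ hg'
        refine Finset.sum_eq_zero (fun x _ => ?_)
        have hw : (symY β C).wires (Sum.inl (g, h)) (Sum.inl (g', x)) = 0 := if_neg (Ne.symm hg')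
        rw [hw, zero_smul]
      · intro h'; exact absurd (Finset.mem_univ _) h'

theorem symY_F_out {r : ℕ} (β : Fin r × Fin 4 ↪ Ω) (C : PNet (Eqn Ω) K) (o : Option ℕ) (k : K) (n : ℕ)
    (hn : 0 < n) : (symY β C).F (symY β C).out o (n • ({k} : Multiset K)) = k := by
  classical
  have hex : ∃ k', k' ∈ n • ({k} : Multiset K) :=
    ⟨k, Multiset.mem_nsmul.2 ⟨by omega, Multiset.mem_singleton_self k⟩⟩
  show (if h : ∃ k', k' ∈ n • ({k} : Multiset K) then h.choose else _) = k
  rw [dif_pos hex]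
  exact Multiset.mem_singleton.1 (Multiset.mem_of_mem_nsmul hex.choose_spec)

theorem symY_out {r : ℕ} (β : Fin r × Fin 4 ↪ Ω) (C : PNet (Eqn Ω) K) (A : Eqn Ω → ℕ) (k : K)
    (h : ∀ g, C.val (A ∘ eqnMap (bp β g)) C.out = k) :
    (symY β C).val A (symY β C).out = k := by
  classical
  rw [PNet.val_eq]
  have h1 : ∑ y, (symY β C).wires (symY β C).out y • ({(symY β C).val A y} : Multiset K) =
      (24 ^ r) • ({k} : Multiset K) := by
    show ∑ y : ((Fin r → Equiv.Perm (Fin 4)) × C.G) ⊕ Unit,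
        (symY β C).wires (Sum.inr ()) y • ({(symY β C).val A y} : Multiset K) = _
    rw [Fintype.sum_sum_type, Fintype.sum_prod_type]
    have h1 : ∑ y : Unit, (symY β C).wires (Sum.inr ()) (Sum.inr y) •
        ({(symY β C).val A (Sum.inr y)} : Multiset K) = 0 := by
      refine Finset.sum_eq_zero (fun y _ => ?_)
      show 0 • _ = _
      rw [zero_smul]
    have h2 : ∀ g : Fin r → Equiv.Perm (Fin 4), ∑ x : C.G,
        (symY β C).wires (Sum.inr ()) (Sum.inl (g, x)) •
        ({(symY β C).val A (Sum.inl (g, x))} : Multiset K) = {k} := by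
      intro g
      rw [Finset.sum_eq_single C.out]
      · have hw : (symY β C).wires (Sum.inr ()) (Sum.inl (g, C.out)) = 1 := if_pos rfl
        rw [hw, one_smul, symY_val β C A g _ C.out rfl, h g]
      · intro x _ hx
        have hw : (symY β C).wires (Sum.inr ()) (Sum.inl (g, x)) = 0 := if_neg hx
        rw [hw, zero_smul]
      · intro h'; exact absurd (Finset.mem_univ _) h'
    rw [h1, add_zero, Finset.sum_congr rfl (fun g _ => h2 g), Finset.sum_const, Finset.card_univ,
      card_blocks]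
  rw [h1]
  exact symY_F_out β C _ k _ (by positivity)

theorem symY_symm {r : ℕ} (β : Fin r × Fin 4 ↪ Ω) (C : PNet (Eqn Ω) K)
    (g0 : Fin r → Equiv.Perm (Fin 4)) : (symY β C).SymmUnder (eqnMap (bp β g0)) := by
  classical
  refine ⟨Equiv.sumCongr (Equiv.prodCongr (Equiv.mulLeft g0) (Equiv.refl _)) (Equiv.refl _),
    rfl, ?_, ?_, ?_⟩
  · rintro (⟨g, h⟩ | t) (⟨g', h'⟩ | t')
    · show (if g0 * g = g0 * g' then C.wires h h' else 0) = if g = g' then C.wires h h' else 0
      simp only [mul_right_inj]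
    · rfl
    · rfl
    · rfl
  · rintro (⟨g, h⟩ | t)
    · show (C.inp h).map (eqnMap (bp β (g0 * g))) =
        ((C.inp h).map (eqnMap (bp β g))).map (eqnMap (bp β g0))
      rw [bp_mul, eqnMap_mul1]
      rcases C.inp h <;> rfl
    · rfl
  · rintro (⟨g, h⟩ | t)
    · rfl
    · rfl

theorem symY_card {r : ℕ} (β : Fin r × Fin 4 ↪ Ω) (C : PNet (Eqn Ω) K) :
    Fintype.card (symY β C).G = 24 ^ r * Fintype.card C.G + 1 := by
  show Fintype.card (((Fin r → Equiv.Perm (Fin 4)) × C.G) ⊕ Unit) = _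
  rw [Fintype.card_sum, Fintype.card_prod, card_blocks, Fintype.card_unit]

theorem exists_symm_lin {r : ℕ} (β : Fin r × Fin 4 ↪ Ω) (C : PNet (Eqn Ω) K) (enc : Prop → K)
    (hC : ∀ A ∈ Sparse4 Ω, C.val A C.out = enc (Solvable A)) :
    ∃ C' : PNet (Eqn Ω) K, (∀ A ∈ Sparse4 Ω, C'.val A C'.out = enc (Solvable A)) ∧
      (∀ g : Equiv.Perm Ω, Preserves β g → C'.SymmUnder (eqnMap g)) ∧
      Fintype.card C'.G = 24 ^ r * Fintype.card C.G + 1 ∧
      (∀ g', g' ≠ C'.out → ∃ g, C'.F g' = C.F g) ∧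
      ∀ (o : Option ℕ) (k : K) (n : ℕ), 0 < n → C'.F C'.out o (n • ({k} : Multiset K)) = k := by
  refine ⟨symY β C, ?_, ?_, symY_card β C, ?_, symY_F_out β C⟩
  · intro A hA
    refine symY_out β C A _ (fun g => ?_)
    rw [hC _ (Sparse4_closed A hA _), Solvable_inv]
  · intro g hg
    obtain ⟨g0, rfl⟩ := exists_bp β g hg
    exact symY_symm β C g0
  · rintro (⟨g, h⟩ | t) hne
    · exact ⟨h, rfl⟩
    · exact absurd rfl hne

/-- the identification of the positions with the indices -/
theorem exists_equiv4 {r N : ℕ} (β : Fin r × Fin 4 ↪ Ω) (J : Ix4 N ↪ Fin r) :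
    ∃ e : Pos4 N {x : Ω // ∀ v a, β (J v, a) ≠ x} ≃ Ω,
      (∀ i s a, e (.cw i s a) = β (J (i, s), a)) ∧ ∀ δ, e (.dum δ) = δ.1 := by
  classical
  let f : Pos4 N {x : Ω // ∀ v a, β (J v, a) ≠ x} → Ω := fun x => match x with
    | .cw i s a => β (J (i, s), a)
    | .dum δ => δ.1
  have hinj : Function.Injective f := by
    intro x y h
    rcases x with ⟨i, s, a⟩ | δ <;> rcases y with ⟨i', s', a'⟩ | δ'
    · have h1 := β.injective h
      rw [Prod.mk.injEq] at h1
      have h2 := J.injective h1.1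
      simp only [Prod.mk.injEq] at h2
      obtain ⟨rfl, rfl⟩ := h2
      rw [h1.2]
    · exact absurd h (δ'.2 _ _)
    · exact absurd h.symm (δ.2 _ _)
    · have : δ = δ' := Subtype.ext h
      rw [this]
  have hsurj : Function.Surjective f := by
    intro x
    by_cases h : ∀ v a, β (J v, a) ≠ x
    · exact ⟨.dum ⟨x, h⟩, rfl⟩
    · push Not at h
      obtain ⟨⟨i, s⟩, a, h⟩ := h
      exact ⟨.cw i s a, h⟩
  exact ⟨Equiv.ofBijective f ⟨hinj, hsurj⟩, fun _ _ _ => rfl, fun _ => rfl⟩

/-- the group of the block permutations under which the circuit is symmetric -/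
def symG4 {N : ℕ} {Δ : Type} [Fintype Δ] [DecidableEq Δ] (e : Pos4 N Δ ≃ Ω) (C : PNet (Eqn Ω) K) :
    Subgroup (Ix4 N → A4) where
  carrier := {g | C.SymmUnder (eqnMap (FF4 e g))}
  one_mem' := by
    show C.SymmUnder _
    exact ⟨1, by rw [FF4_one, eqnMap_one1]; exact PNet.IsAut.one C⟩
  mul_mem' := by
    intro g g' h h'
    have h1 : C.SymmUnder (eqnMap (FF4 e g)) := h
    have h2 : C.SymmUnder (eqnMap (FF4 e g')) := h'
    obtain ⟨p, hp⟩ := h1
    obtain ⟨q, hq⟩ := h2
    show C.SymmUnder _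
    exact ⟨p * q, by rw [FF4_mul, eqnMap_mul1]; exact hp.mul hq⟩
  inv_mem' := by
    intro g h
    have h1 : C.SymmUnder (eqnMap (FF4 e g)) := h
    obtain ⟨p, hp⟩ := h1
    show C.SymmUnder _
    refine ⟨p⁻¹, hp.inv ?_⟩
    intro x
    have h1 : eqnMap (FF4 e g⁻¹) (eqnMap (FF4 e g) x) = eqnMap (FF4 e g⁻¹ * FF4 e g) x := (eqnMap_mul _ _ _).symm
    rw [h1, ← FF4_mul, inv_mul_cancel, FF4_one, eqnMap_one]

theorem lower_lin {r : ℕ} (β : Fin r × Fin 4 ↪ Ω) (C : PNet (Eqn Ω) K)
    {acc : Set K}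
    (hval : C.Decides acc (Sparse4 Ω) Solvable)
    (hsym : ∀ (v : Fin r) (x y z : Fin 4), x ≠ y → y ≠ z → x ≠ z →
      C.SymmUnder (eqnMap (cyc (β (v, x)) (β (v, y)) (β (v, z))))) :
    2 ^ (r / 960) ≤ Fintype.card C.G := by
  classical
  by_cases hN : r / 2 < 480
  · have : r / 960 = 0 := by omega
    rw [this, pow_zero]
    exact Fintype.card_pos_iff.mpr ⟨C.out⟩
  · push Not at hN
    obtain ⟨N, hNdef⟩ : ∃ N, N = r / 2 := ⟨_, rfl⟩
    rw [← hNdef] at hN
    obtain ⟨π, hπ⟩ := Pool.Agent.Helper600R2.exists_expander (n := N) (by omega)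
    have hcard : Fintype.card (Ix4 N) ≤ Fintype.card (Fin r) := by
      simp only [Fintype.card_prod, Fintype.card_fin, Fintype.card_bool]
      omega
    obtain ⟨J⟩ := Function.Embedding.nonempty_of_card_le hcard
    obtain ⟨e, he1, he3⟩ := exists_equiv4 β J
    have hall : ∀ g : Ix4 N → A4, g ∈ symG4 e C := by
      intro g
      apply Subgroup.pi_mem_of_mulSingle_mem
      intro v
      obtain ⟨a, ha⟩ := g v
      induction ha using Subgroup.closure_induction with
      | mem a ha' =>
        obtain ⟨x, y, z, h1, h2, h3, rfl⟩ := ha'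
        show C.SymmUnder (eqnMap (FF4 e (Pi.mulSingle v ⟨cyc x y z, _⟩)))
        have key : FF4 e (Pi.mulSingle v ⟨cyc x y z, Subgroup.subset_closure ⟨x, y, z, h1, h2, h3, rfl⟩⟩)
            = cyc (β (J (v), x)) (β (J (v), y)) (β (J (v), z)) := by
          ext w
          obtain ⟨p, rfl⟩ := e.surjective w
          unfold FF4
          rw [Equiv.permCongr_apply, Equiv.symm_apply_apply]
          rcases p with ⟨i, s, b⟩ | δ
          · by_cases hv : (i, s) = v
            · subst hv
              have hf : Function.Injective (fun a : Fin 4 => β (J ((i, s)), a)) := by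
                intro a a' haa
                have := β.injective haa
                exact (Prod.mk.inj this).2
              have h4 := cyc_inj (fun a : Fin 4 => β (J ((i, s)), a)) hf x y z b
              show e (.cw i s (((Pi.mulSingle (i, s) ⟨cyc x y z, _⟩ : Ix4 N → A4)
                (i, s) : Equiv.Perm (Fin 4)) b)) = _
              rw [Pi.mulSingle_eq_same, he1, he1]
              exact h4.symm
            · have hne : ∀ a : Fin 4, e (.cw i s b) ≠ β (J (v), a) := by
                intro a haa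
                rw [he1] at haa
                have h5 := (Prod.mk.inj (β.injective haa)).1
                exact hv (J.injective h5)
              show e (.cw i s (((Pi.mulSingle v ⟨cyc x y z, _⟩ : Ix4 N → A4)
                (i, s) : Equiv.Perm (Fin 4)) b)) = _
              rw [Pi.mulSingle_eq_of_ne hv, cyc_ne _ _ _ _ (hne x) (hne y) (hne z)]
              rfl
          · have hne : ∀ a : Fin 4, e (.dum δ) ≠ β (J (v), a) := by
              intro a haa
              rw [he3] at haa
              exact δ.2 _ _ haa.symm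
            rw [cyc_ne _ _ _ _ (hne x) (hne y) (hne z)]
            rfl
        have h6 := hsym (J (v)) x y z h1 h2 h3
        rw [← key] at h6
        exact h6
      | one =>
        have : (Pi.mulSingle v (⟨1, Subgroup.one_mem _⟩ : A4) : Ix4 N → A4) = 1 := Pi.mulSingle_one v
        rw [this]
        exact Subgroup.one_mem _
      | mul a b ha hb iha ihb =>
        have e0 : (⟨a * b, Subgroup.mul_mem _ ha hb⟩ : A4) = (⟨a, ha⟩ : A4) * (⟨b, hb⟩ : A4) := rfl
        rw [e0, Pi.mulSingle_mul]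
        exact Subgroup.mul_mem _ iha ihb
      | inv a ha iha =>
        have e0 : (⟨a⁻¹, Subgroup.inv_mem _ ha⟩ : A4) = (⟨a, ha⟩ : A4)⁻¹ := rfl
        rw [e0, Pi.mulSingle_inv]
        exact Subgroup.inv_mem _ iha
    have hmain := core_lin π hπ (r / 960) (by omega) (by omega) e C hval (fun g => hall g)
    exact hmain

/-- the number of gates in terms of the number of inputs -/
theorem lower_lin_pow {r : ℕ} (β : Fin r × Fin 4 ↪ Ω) (C : PNet (Eqn Ω) K)
    {acc : Set K}
    (hval : C.Decides acc (Sparse4 Ω) Solvable)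
    (hsym : ∀ (v : Fin r) (x y z : Fin 4), x ≠ y → y ≠ z → x ≠ z →
      C.SymmUnder (eqnMap (cyc (β (v, x)) (β (v, y)) (β (v, z))))) (k : ℕ)
    (hk : 3840 * k * Nat.clog 2 (Fintype.card Ω) ≤ r) :
    (2 * (Fintype.card Ω).choose 4) ^ k ≤ Fintype.card C.G := by
  have h1 := lower_lin β C hval hsym
  have h2 : 2 * (Fintype.card Ω).choose 4 ≤ Fintype.card Ω ^ 4 := by
    have h3 := Nat.choose_le_pow_div (α := ℚ) 4 (Fintype.card Ω)
    have h4 : ((Fintype.card Ω).choose 4 : ℚ) ≤ (Fintype.card Ω : ℚ) ^ 4 / 24 := by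
      refine h3.trans_eq ?_
      norm_num [Nat.factorial]
    have h5 : (0 : ℚ) ≤ (Fintype.card Ω : ℚ) ^ 4 := by positivity
    have h6 : ((2 * (Fintype.card Ω).choose 4 : ℕ) : ℚ) ≤ ((Fintype.card Ω ^ 4 : ℕ) : ℚ) := by
      push_cast
      linarith
    exact_mod_cast h6
  have h3 : Fintype.card Ω ≤ 2 ^ Nat.clog 2 (Fintype.card Ω) := Nat.le_pow_clog (by norm_num) _
  calc (2 * (Fintype.card Ω).choose 4) ^ k ≤ (Fintype.card Ω ^ 4) ^ k := Nat.pow_le_pow_left h2 k
    _ ≤ ((2 ^ Nat.clog 2 (Fintype.card Ω)) ^ 4) ^ k :=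
        Nat.pow_le_pow_left (Nat.pow_le_pow_left h3 4) k
    _ = 2 ^ (Nat.clog 2 (Fintype.card Ω) * 4 * k) := by rw [← pow_mul, ← pow_mul, mul_assoc]
    _ ≤ 2 ^ (r / 960) := by
        refine Nat.pow_le_pow_right (by norm_num) ?_
        rw [Nat.le_div_iff_mul_le (by norm_num)]
        refine le_trans (le_of_eq ?_) hk
        ring
    _ ≤ Fintype.card C.G := h1

end Pool.Agent.H870R2.PC
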