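import Pool.Agent.H870R2.LS.YEval

set_option autoImplicit false
set_option linter.unusedSectionVars false

/-! Locally symmetric networks cannot tell the twisted systems of equations from the untwisted one. -/

namespace Pool.Agent.H870R2.PC

open Finset BigOperators H522R2.LS

variable {K Ω : Type} [Fintype Ω] [DecidableEq Ω] {N : ℕ} {Δ : Type} [Fintype Δ] [DecidableEq Δ]

omit [Fintype Ω] [DecidableEq Ω] in
theorem eqnMap_one1 : eqnMap (1 : Equiv.Perm Ω) = id := funext eqnMap_one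

omit [Fintype Ω] [DecidableEq Ω] in
theorem eqnMap_mul1 (g h : Equiv.Perm Ω) : eqnMap (g * h) = eqnMap g ∘ eqnMap h :=
  funext (eqnMap_mul g h)

/-- the permutation of `Ω` given by even permutations of the blocks -/
def FF4 (e : Pos4 N Δ ≃ Ω) (g : Ix4 N → A4) : Equiv.Perm Ω :=
  e.permCongr (act4 (fun v => (g v : Equiv.Perm (Fin 4))))

theorem FF4_one (e : Pos4 N Δ ≃ Ω) : FF4 e 1 = 1 := by
  have h : act4 (Δ := Δ) (fun v : Ix4 N => ((1 : Ix4 N → A4) v : Equiv.Perm (Fin 4))) = 1 :=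
    act4_one
  unfold FF4
  rw [h]
  ext x
  simp [Equiv.permCongr_apply]

theorem FF4_mul (e : Pos4 N Δ ≃ Ω) (g h : Ix4 N → A4) : FF4 e (g * h) = FF4 e g * FF4 e h := by
  have h1 : act4 (Δ := Δ) (fun v : Ix4 N => ((g * h) v : Equiv.Perm (Fin 4)))
      = act4 (fun v => (g v : Equiv.Perm (Fin 4))) * act4 (fun v => (h v : Equiv.Perm (Fin 4))) :=
    act4_mul _ _
  unfold FF4
  rw [h1]
  ext x
  simp [Equiv.permCongr_apply]

theorem eqnTr_FF4 (e : Pos4 N Δ ≃ Ω) (g : Ix4 N → A4) (q : Eqn Ω) :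
    eqnTr e (eqnMap (FF4 e g) q) =
      eqnMap (act4 (fun v => (g v : Equiv.Perm (Fin 4)))) (eqnTr e q) := by
  unfold eqnTr eqnMap
  refine Prod.ext ?_ rfl
  show (q.1.map _).map _ = (q.1.map _).map _
  rw [Finset.map_map, Finset.map_map]
  congr 1
  ext x
  show e.symm (FF4 e g x) = act4 (fun v => (g v : Equiv.Perm (Fin 4))) (e.symm x)
  unfold FF4
  rw [Equiv.permCongr_apply, Equiv.symm_apply_apply]

/-- the permutations fixing a gate -/
def SS4 (e : Pos4 N Δ ≃ Ω) (C : PNet (Eqn Ω) K) (h : C.G) : Subgroup (Ix4 N → A4) where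
  carrier := {g | ∃ p, C.IsAut p (eqnMap (FF4 e g)) ∧ p h = h}
  one_mem' := ⟨1, by rw [FF4_one, eqnMap_one1]; exact PNet.IsAut.one C, rfl⟩
  mul_mem' := by
    rintro g g' ⟨p, hp, hp'⟩ ⟨q, hq, hq'⟩
    refine ⟨p * q, ?_, ?_⟩
    · rw [FF4_mul, eqnMap_mul1]; exact hp.mul hq
    · rw [Equiv.Perm.mul_apply, hq', hp']
  inv_mem' := by
    rintro g ⟨p, hp, hp'⟩
    refine ⟨p⁻¹, hp.inv ?_, ?_⟩
    · intro x
      have h1 : eqnMap (FF4 e g⁻¹) (eqnMap (FF4 e g) x) = eqnMap (FF4 e g⁻¹ * FF4 e g) x := (eqnMap_mul _ _ _).symm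
      rw [h1, ← FF4_mul, inv_mul_cancel, FF4_one, eqnMap_one]
    · rw [Equiv.Perm.inv_eq_iff_eq, hp']

theorem mem_SS4 (e : Pos4 N Δ ≃ Ω) (C : PNet (Eqn Ω) K) (h : C.G) (g : Ix4 N → A4) :
    g ∈ SS4 e C h ↔ ∃ p, C.IsAut p (eqnMap (FF4 e g)) ∧ p h = h := Iff.rfl

open Classical in
/-- the bad blocks of a gate -/
noncomputable def II4 (e : Pos4 N Δ ≃ Ω) (C : PNet (Eqn Ω) K) (h : C.G) : Finset (Ix4 N) :=
  univ.filter (fun v => ¬ ∀ a b : A4, Pi.mulSingle v (a * b * a⁻¹ * b⁻¹) ∈ SS4 e C h)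

theorem notMem_II4 (e : Pos4 N Δ ≃ Ω) (C : PNet (Eqn Ω) K) (h : C.G) (v : Ix4 N) :
    v ∉ II4 e C h ↔ ∀ a b : A4, Pi.mulSingle v (a * b * a⁻¹ * b⁻¹) ∈ SS4 e C h := by
  unfold II4
  simp

theorem isAut_inv4 (e : Pos4 N Δ ≃ Ω) (C : PNet (Eqn Ω) K) (g : Ix4 N → A4) (p : Equiv.Perm C.G)
    (hp : C.IsAut p (eqnMap (FF4 e g))) : C.IsAut p⁻¹ (eqnMap (FF4 e g⁻¹)) := by
  refine hp.inv ?_
  intro x
  have h1 : eqnMap (FF4 e g⁻¹) (eqnMap (FF4 e g) x) = eqnMap (FF4 e g⁻¹ * FF4 e g) x := (eqnMap_mul _ _ _).symm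
  rw [h1, ← FF4_mul, inv_mul_cancel, FF4_one, eqnMap_one]

theorem II_sub4 (e : Pos4 N Δ ≃ Ω) (C : PNet (Eqn Ω) K) (h : C.G) (g : Ix4 N → A4) (p : Equiv.Perm C.G)
    (hp : C.IsAut p (eqnMap (FF4 e g))) : II4 e C (p h) ⊆ II4 e C h := by
  intro v hv
  by_contra hcon
  apply (notMem_II4 e C (p h) v).mpr _ hv
  rw [notMem_II4] at hcon
  intro a b
  have h1 := hcon ((g v)⁻¹ * a * g v) ((g v)⁻¹ * b * g v)
  obtain ⟨q, hq, hqh⟩ := h1
  have h2 : Pi.mulSingle v (a * b * a⁻¹ * b⁻¹) = g * Pi.mulSingle v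
      (((g v)⁻¹ * a * g v) * ((g v)⁻¹ * b * g v) * ((g v)⁻¹ * a * g v)⁻¹ * ((g v)⁻¹ * b * g v)⁻¹) * g⁻¹ := by
    funext w
    simp only [Pi.mul_apply, Pi.inv_apply]
    by_cases hw : w = v
    · subst hw
      rw [Pi.mulSingle_eq_same, Pi.mulSingle_eq_same]
      group
    · rw [Pi.mulSingle_eq_of_ne hw, Pi.mulSingle_eq_of_ne hw]
      group
  rw [h2]
  refine ⟨p * q * p⁻¹, ?_, ?_⟩
  · rw [FF4_mul, FF4_mul, eqnMap_mul1, eqnMap_mul1]
    exact (hp.mul hq).mul (isAut_inv4 e C g p hp)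
  · rw [Equiv.Perm.mul_apply, Equiv.Perm.mul_apply]
    have : p⁻¹ (p h) = h := by simp
    rw [this, hqh]

theorem II_inv4 (e : Pos4 N Δ ≃ Ω) (C : PNet (Eqn Ω) K) (h : C.G) (g : Ix4 N → A4) (p : Equiv.Perm C.G)
    (hp : C.IsAut p (eqnMap (FF4 e g))) : II4 e C (p h) = II4 e C h := by
  apply Finset.Subset.antisymm (II_sub4 e C h g p hp)
  have h1 := II_sub4 e C (p h) g⁻¹ p⁻¹ (isAut_inv4 e C g p hp)
  have : p⁻¹ (p h) = h := by simp
  rwa [this] at h1

/-- bad vertices -/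
noncomputable def DD4 (e : Pos4 N Δ ≃ Ω) (C : PNet (Eqn Ω) K) (h : C.G) : Finset (Fin N) :=
  (II4 e C h).image Prod.fst

theorem notMem_DD4 (e : Pos4 N Δ ≃ Ω) (C : PNet (Eqn Ω) K) (h : C.G) (i : Fin N) (hi : i ∉ DD4 e C h)
    (s : Bool) (a b : A4) : Pi.mulSingle (i, s) (a * b * a⁻¹ * b⁻¹) ∈ SS4 e C h := by
  have : (i, s) ∉ II4 e C h := by
    intro hm
    exact hi (Finset.mem_image.mpr ⟨_, hm, rfl⟩)
  exact (notMem_II4 e C h _).mp this a b

theorem card_DD4 (e : Pos4 N Δ ≃ Ω) (C : PNet (Eqn Ω) K) (hsym : ∀ g : Ix4 N → A4, C.SymmUnder (eqnMap (FF4 e g)))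
    (k : ℕ) (hk : Fintype.card C.G < 2 ^ k) (h : C.G) : (DD4 e C h).card ≤ 2 * k := by
  classical
  have hsym' : ∀ g : Ix4 N → A4, ∃ p, C.IsAut p (eqnMap (FF4 e g)) :=
    fun g => hsym g
  choose q hq using hsym'
  obtain ⟨I, hI, hI2⟩ := support (SS4 e C h) (fun g => q g h) (by
    intro g g' hgg
    refine ⟨(q g)⁻¹ * q g', ?_, ?_⟩
    · rw [FF4_mul, eqnMap_mul1]
      exact (isAut_inv4 e C g (q g) (hq g)).mul (hq g')
    · rw [Equiv.Perm.mul_apply, Equiv.Perm.inv_eq_iff_eq]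
      exact hgg.symm) k hk
  refine le_trans Finset.card_image_le (le_trans (Finset.card_le_card ?_) hI)
  intro v hv
  by_contra hcon
  exact (notMem_II4 e C h v).mpr (hI2 v hcon) hv

/-- the gauge element of a move from `i` to `j` of type `t` is available -/
theorem move_one4 (e : Pos4 N Δ ≃ Ω) (C : PNet (Eqn Ω) K) (h : C.G)
    (ρ : Fin 3 → Equiv.Perm (Fin N)) (h0 : ρ 0 = 1) (i j : Fin N) (t : Fin 3) (hij : ρ t i = j)
    (hi : i ∉ DD4 e C h) (hj : j ∉ DD4 e C h) :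
    ∃ g ∈ SS4 e C h, ∀ q : Eqn Ω, w4 ρ (tw i) (eqnTr e (eqnMap (FF4 e g) q))
      = w4 ρ (tw j) (eqnTr e q) := by
  classical
  obtain ⟨a, b, hab⟩ := flp_comm t
  obtain ⟨a0, b0, hab0⟩ := flp_comm 0
  have hflp0 : flp 0 = 1 := rfl
  let τ : Fin N → Bool → Fin 3 := fun k s => if s = false then (if k = i then t else 0)
    else (if k = j then t else 0)
  let g : Ix4 N → A4 := fun v => if (v.2 = false ∧ v.1 = i) ∨ (v.2 = true ∧ v.1 = j)
    then a * b * a⁻¹ * b⁻¹ else 1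
  have hg : ∀ v, (g v : Equiv.Perm (Fin 4)) = flp (τ v.1 v.2) := by
    rintro ⟨k, s⟩
    simp only [g, τ]
    cases s
    · by_cases hk : k = i
      · simp only [hk, and_self, true_or, if_true]
        exact hab
      · simp [hk, hflp0]
    · by_cases hk : k = j
      · simp only [hk, and_self, or_true, if_true]
        simpa using hab
      · simp [hk, hflp0]
  refine ⟨g, ?_, ?_⟩
  · apply Subgroup.pi_mem_of_mulSingle_mem
    rintro ⟨k, s⟩
    by_cases hc : (s = false ∧ k = i) ∨ (s = true ∧ k = j)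
    · have : g (k, s) = a * b * a⁻¹ * b⁻¹ := if_pos hc
      rw [this]
      rcases hc with ⟨_, rfl⟩ | ⟨_, rfl⟩
      · exact notMem_DD4 e C h k hi s a b
      · exact notMem_DD4 e C h k hj s a b
    · have : g (k, s) = 1 := if_neg hc
      rw [this, Pi.mulSingle_one]
      exact Subgroup.one_mem _
  · intro v
    have hgg : (fun v => (g v : Equiv.Perm (Fin 4))) = (fun v : Ix4 N => flp (τ v.1 v.2)) := funext hg
    rw [eqnTr_FF4, hgg]
    apply w4_gauge
    intro k t'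
    have h2 : τ k false = if k = i then t else 0 := by simp [τ]
    have h3 : τ (ρ t' k) true = if ρ t' k = j then t else 0 := by simp [τ]
    rw [h2, h3]
    exact tw_move ρ h0 i j t hij k t'

theorem move_all4 (e : Pos4 N Δ ≃ Ω) (C : PNet (Eqn Ω) K) (h : C.G)
    (π : Equiv.Perm (Fin N)) (i j : Fin N) (hij : Relation.EqvGen (adj π (DD4 e C h)) i j) :
    ∃ g ∈ SS4 e C h, ∀ v : Eqn Ω,
      w4 (rho π) (tw i) (eqnTr e (eqnMap (FF4 e g) v)) = w4 (rho π) (tw j) (eqnTr e v) := by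
  induction hij with
  | rel i j hij =>
    obtain ⟨h1, h2, t, h3⟩ := hij
    exact move_one4 e C h (rho π) rfl i j t h3 h1 h2
  | refl i =>
    refine ⟨1, Subgroup.one_mem _, fun v => ?_⟩
    rw [FF4_one, eqnMap_one]
  | symm i j _ ih =>
    obtain ⟨g, hg, h1⟩ := ih
    refine ⟨g⁻¹, Subgroup.inv_mem _ hg, fun v => ?_⟩
    rw [← h1]
    have h2 : eqnMap (FF4 e g) (eqnMap (FF4 e g⁻¹) v) = v := by
      have : eqnMap (FF4 e g) (eqnMap (FF4 e g⁻¹) v) = eqnMap (FF4 e g * FF4 e g⁻¹) v := (eqnMap_mul _ _ _).symm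
      rw [this, ← FF4_mul, mul_inv_cancel, FF4_one, eqnMap_one]
    rw [h2]
  | trans i j k _ _ ih1 ih2 =>
    obtain ⟨g, hg, h1⟩ := ih1
    obtain ⟨g', hg', h2⟩ := ih2
    refine ⟨g * g', Subgroup.mul_mem _ hg hg', fun v => ?_⟩
    rw [FF4_mul, ← h2, ← h1, eqnMap_mul]


/-- **Core.** -/
theorem core_eq4 (π : Equiv.Perm (Fin N))
    (hπ : ∀ U : Finset (Fin N), N ≤ 3 * U.card → 3 * U.card ≤ 2 * N →
      N / 60 < (Pool.Agent.Helper600R2.bd (finRotate N) U).card ∨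
      N / 60 < (Pool.Agent.Helper600R2.bd π U).card)
    (k : ℕ) (hN : 2 ≤ N) (hk : 480 * k ≤ N) (e : Pos4 N Δ ≃ Ω) (C : PNet (Eqn Ω) K)
    (hsym : ∀ g : Ix4 N → A4, C.SymmUnder (eqnMap (FF4 e g))) (hlt : Fintype.card C.G < 2 ^ k) :
    ∃ i : Fin N, C.val (fun q => w4 (rho π) (tw i) (eqnTr e q)) C.out =
      C.val (fun q => w4 (rho π) (fun _ _ => 0) (eqnTr e q)) C.out := by
  classical
  have hcard := card_DD4 e C hsym k hlt
  let M : Fin N → Eqn Ω → ℕ := fun i q => w4 (rho π) (tw i) (eqnTr e q)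
  let M0 : Eqn Ω → ℕ := fun q => w4 (rho π) (fun _ _ => 0) (eqnTr e q)
  have hne : ∀ g h, (core π (DD4 e C g ∪ DD4 e C h)).Nonempty := by
    intro g h
    apply core_nonempty (by omega) π hπ
    have h1 := Finset.card_union_le (DD4 e C g) (DD4 e C h)
    have h2 := hcard g
    have h3 := hcard h
    omega
  have hgame := pgame C M M0 (DD4 e C) (core π) hne (fun g h => core_mono π _ _)
    (by
      intro g i hi i' hi'
      obtain ⟨g0, ⟨p, hp, hpg⟩, h1⟩ := move_all4 e C g π i i' (core_conn π _ i i' hi hi')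
      refine ⟨p, _, hp, hpg, ?_, ?_⟩
      · intro h
        unfold DD4
        rw [II_inv4 e C h g0 p hp]
      · funext v
        exact h1 v)
    (by
      intro g x hx i hi
      have hiD := core_notMem hN π _ i hi
      by_contra hne
      -- the equation belongs to the edge `(i, 0)`
      have h1 : ∃ (b : Fin N → Fin 3 → ZMod 2) (β : ZMod 2),
          (eqnTr e x).1 = edgeSet (rho π) b i 0 β := by
        by_contra hcon
        push Not at hcon
        apply hne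
        show w4 (rho π) (tw i) (eqnTr e x) = w4 (rho π) (fun _ _ => 0) (eqnTr e x)
        have hes : ∀ (i' : Fin N) (t : Fin 3) (β : ZMod 2), ¬ (i' = i ∧ t = 0) →
            (edgeSet (rho π) (tw i) i' t β : Finset (Pos4 N Δ)) =
              edgeSet (rho π) (fun _ _ => 0) i' t β := by
          intro i' t β hnn
          have htw : tw i i' t = 0 := if_neg hnn
          ext y
          rw [mem_edgeSet, mem_edgeSet]
          rcases y with ⟨j, s, a⟩ | δ
          · cases s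
            · exact Iff.rfl
            · show (j = rho π t i' ∧ lab a t = β + tw i i' t) ↔ (j = rho π t i' ∧ lab a t = β + 0)
              rw [htw]
          · exact Iff.rfl
        have hadj : IsEq (rho π) (tw i) (eqnTr e x) ↔ IsEq (rho π) (fun _ _ => 0) (eqnTr e x) := by
          unfold IsEq
          constructor
          · rintro (h | ⟨h1, i', t, β, h2⟩)
            · exact Or.inl h
            · refine Or.inr ⟨h1, i', t, β, ?_⟩
              by_cases hc : i' = i ∧ t = 0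
              · obtain ⟨rfl, rfl⟩ := hc
                exact absurd h2 (hcon _ _)
              · rw [← hes i' t β hc]; exact h2
          · rintro (h | ⟨h1, i', t, β, h2⟩)
            · exact Or.inl h
            · refine Or.inr ⟨h1, i', t, β, ?_⟩
              by_cases hc : i' = i ∧ t = 0
              · obtain ⟨rfl, rfl⟩ := hc
                exact absurd h2 (hcon _ _)
              · rw [hes i' t β hc]; exact h2
        unfold w4
        by_cases h : IsEq (rho π) (tw i) (eqnTr e x)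
        · rw [if_pos h, if_pos (hadj.mp h)]
        · rw [if_neg h, if_neg (fun h' => h (hadj.mpr h'))]
      obtain ⟨b, β, h1⟩ := h1
      obtain ⟨c', d, hcd⟩ := flp_comm 1
      obtain ⟨p, hp, hpg⟩ := notMem_DD4 e C g i hiD false c' d
      have h2 := hp.inp g
      rw [hpg, hx] at h2
      simp only [Option.map_some, Option.some.injEq] at h2
      have h3 := congrArg (fun q => (eqnTr e q).1) h2
      simp only [eqnTr_FF4] at h3
      have h4 : ∀ β : ZMod 2, ∃ a : Fin 4, lab a 0 = β := by decide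
      obtain ⟨a, ha⟩ := h4 β
      have h5 : (Pos4.cw i false a : Pos4 N Δ) ∈ (eqnTr e x).1 := by
        rw [h1, mem_edgeSet]
        exact ⟨rfl, ha⟩
      have h6 : act4 (fun v => ((Pi.mulSingle (i, false) (c' * d * c'⁻¹ * d⁻¹) : Ix4 N → A4) v :
          Equiv.Perm (Fin 4))) (.cw i false a : Pos4 N Δ) = .cw i false (flp 1 a) := by
        show Pos4.cw i false (((Pi.mulSingle (i, false) (c' * d * c'⁻¹ * d⁻¹) : Ix4 N → A4)
          (i, false) : Equiv.Perm (Fin 4)) a) = _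
        rw [Pi.mulSingle_eq_same, hcd]
      have h7 : (Pos4.cw i false (flp 1 a) : Pos4 N Δ) ∈ (eqnTr e x).1 := by
        rw [h3]
        unfold eqnMap
        refine Finset.mem_map.2 ⟨.cw i false a, h5, ?_⟩
        exact h6
      rw [h1, mem_edgeSet] at h7
      have h8 : lab (flp 1 a) 0 = β := h7.2
      rw [← ha] at h8
      have h9 : ∀ a : Fin 4, lab (flp 1 a) 0 ≠ lab a 0 := by decide
      exact h9 a h8)
  obtain ⟨i, hi⟩ := hne C.out C.out
  rw [Finset.union_self] at hi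
  exact ⟨i, hgame (C.rk C.out) C.out rfl i hi⟩

end Pool.Agent.H870R2.PC
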