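import Pool.Agent.H870R2.LS.ZDefs

set_option autoImplicit false
set_option linter.unusedSectionVars false

/-! Counting lemmas. -/

namespace Pool.Agent.H870R2.PC

open Finset BigOperators H522R2.LS MvPolynomial

theorem count_rename {Ω Ω' : Type} (f : Ω → Ω') (hf : Function.Injective f)
    (m : Multiset (MvPolynomial Ω ℤ)) (p : MvPolynomial Ω ℤ) :
    cnt (fun _ => m.map (rename f)) (true, rename f p) = cnt (fun _ => m) (true, p) := by
  classical
  unfold cnt
  exact Multiset.count_map_eq_count' _ _ (rename_injective f hf) _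

theorem cnt_rename_gen {Ω Ω' : Type} (f : Ω → Ω') (hf : Function.Injective f)
    (M : Bool → Multiset (MvPolynomial Ω ℤ)) (M' : Bool → Multiset (MvPolynomial Ω' ℤ)) (s : Bool)
    (p : MvPolynomial Ω ℤ) (h : M' s = (M s).map (rename f)) :
    cnt M' (s, rename f p) = cnt M (s, p) := by
  classical
  unfold cnt
  show (M' s).count (rename f p) = (M s).count p
  rw [h]
  exact Multiset.count_map_eq_count' _ _ (rename_injective f hf) _

theorem cnt_map_congr_gen {Ω ι : Type} (M M' : Bool → Multiset (MvPolynomial Ω ℤ)) (s : Bool)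
    (m : Multiset ι) (f g : ι → MvPolynomial Ω ℤ)
    (q : MvPolynomial Ω ℤ) (h1 : M s = m.map f) (h2 : M' s = m.map g)
    (h : ∀ p ∈ m, q = f p ↔ q = g p) :
    cnt M (s, q) = cnt M' (s, q) := by
  classical
  unfold cnt
  show (M s).count q = (M' s).count q
  rw [h1, h2, Multiset.count_map, Multiset.count_map]
  congr 1
  exact Multiset.filter_congr h

theorem cnt_true {Ω : Type} (M : Bool → Multiset (MvPolynomial Ω ℤ)) (q : Fac Ω) :
    cnt M q = cnt (fun _ => M q.1) (true, q.2) := rfl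

theorem cnt_congr {Ω : Type} (M M' : Bool → Multiset (MvPolynomial Ω ℤ)) (q : Fac Ω)
    (h : M q.1 = M' q.1) : cnt M q = cnt M' q := by
  unfold cnt
  rw [h]

theorem cnt_map_congr {Ω ι : Type} (m : Multiset ι) (f g : ι → MvPolynomial Ω ℤ)
    (q : MvPolynomial Ω ℤ) (h : ∀ p ∈ m, q = f p ↔ q = g p) :
    cnt (fun _ => m.map f) (true, q) = cnt (fun _ => m.map g) (true, q) := by
  classical
  unfold cnt
  show (m.map f).count q = (m.map g).count q
  rw [Multiset.count_map, Multiset.count_map]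
  congr 1
  exact Multiset.filter_congr h

theorem mem_Fam {Ω : Type} [Fintype Ω] (f : MvPolynomial Ω ℤ) :
    f ∈ Fam Ω ↔ (∃ u v, bil u v = f) ∨ ∃ u, cub u = f := by
  classical
  unfold Fam
  rw [Finset.mem_union, Finset.mem_image, Finset.mem_image]
  constructor
  · rintro (⟨⟨u, v⟩, _, h⟩ | ⟨u, _, h⟩)
    · exact Or.inl ⟨u, v, h⟩
    · exact Or.inr ⟨u, h⟩
  · rintro (⟨u, v, h⟩ | ⟨u, h⟩)
    · exact Or.inl ⟨(u, v), Finset.mem_univ _, h⟩
    · exact Or.inr ⟨u, Finset.mem_univ _, h⟩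

/-- renaming maps `Fam` to `Fam` -/
theorem rename_Fam {Ω Ω' : Type} [Fintype Ω] [Fintype Ω'] (e : Ω → Ω') (f : MvPolynomial Ω ℤ)
    (hf : f ∈ Fam Ω) : rename e f ∈ Fam Ω' := by
  rw [mem_Fam] at hf ⊢
  rcases hf with ⟨u, v, rfl⟩ | ⟨u, rfl⟩
  · exact Or.inl ⟨_, _, (rename_bil e u v).symm⟩
  · exact Or.inr ⟨_, (rename_cub e u).symm⟩

end Pool.Agent.H870R2.PC
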