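import Pool.Agent.H870R2.LS.YDefs

set_option autoImplicit false
set_option linter.unusedSectionVars false

/-! Identities between products of sparse polynomials: the instances. -/

namespace Pool.Agent.H870R2.PC

open Finset BigOperators H522R2.LS MvPolynomial

/-- The polynomial `(x_{u 0} + x_{u 1} - x_{u 2} - x_{u 3}) (x_{v 0} + x_{v 1} - x_{v 2} - x_{v 3})`. -/
noncomputable def bil {Ω : Type} (u v : Fin 4 → Ω) : MvPolynomial Ω ℤ :=
  (X (u 0) + X (u 1) - X (u 2) - X (u 3)) * (X (v 0) + X (v 1) - X (v 2) - X (v 3))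

/-- The product of the three linear forms `x_{u 0} ± x_{u 1} ± x_{u 2} ± x_{u 3}` with two minus
signs (a symmetric polynomial in the four variables). -/
noncomputable def cub {Ω : Type} (u : Fin 4 → Ω) : MvPolynomial Ω ℤ :=
  (X (u 0) + X (u 1) - X (u 2) - X (u 3)) * (X (u 0) - X (u 1) + X (u 2) - X (u 3)) *
    (X (u 0) - X (u 1) - X (u 2) + X (u 3))

open Classical in
/-- The possible factors: the polynomials `bil u v` and `cub u`. -/
noncomputable def Fam (Ω : Type) [Fintype Ω] : Finset (MvPolynomial Ω ℤ) :=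
  univ.image (fun p : (Fin 4 → Ω) × (Fin 4 → Ω) => bil p.1 p.2) ∪ univ.image cub

/-- The inputs of a network: `(s, f)` is the exponent of the factor `f` on the side `s`. -/
abbrev Fac (Ω : Type) : Type := Bool × MvPolynomial Ω ℤ

open Classical in
/-- An instance `M` is a pair of multisets of factors; the input `(s, f)` is the multiplicity of `f`
in `M s`. -/
noncomputable def cnt {Ω : Type} (M : Bool → Multiset (MvPolynomial Ω ℤ)) (q : Fac Ω) : ℕ :=
  (M q.1).count q.2

/-- The instances: on each side at most as many factors as there are variables. -/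
def Inst (Ω : Type) [Fintype Ω] : Set (Bool → Multiset (MvPolynomial Ω ℤ)) :=
  {M | ∀ s, (∀ f ∈ M s, f ∈ Fam Ω) ∧ (M s).card ≤ Fintype.card Ω}

/-- The products on the two sides are the same polynomial. -/
def Identity {Ω : Type} (M : Bool → Multiset (MvPolynomial Ω ℤ)) : Prop :=
  (M true).prod = (M false).prod

/-- A permutation of the variables acts on the inputs. -/
noncomputable def facMap {Ω : Type} (g : Equiv.Perm Ω) (q : Fac Ω) : Fac Ω := (q.1, rename g q.2)

theorem facMap_one {Ω : Type} (q : Fac Ω) : facMap 1 q = q := by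
  unfold facMap
  refine Prod.ext rfl ?_
  show rename (id : Ω → Ω) q.2 = q.2
  rw [rename_id_apply]

theorem facMap_mul {Ω : Type} (g h : Equiv.Perm Ω) (q : Fac Ω) :
    facMap (g * h) q = facMap g (facMap h q) := by
  unfold facMap
  refine Prod.ext rfl ?_
  show rename (g ∘ h) q.2 = rename g (rename h q.2)
  rw [rename_rename]

theorem rename_bil {Ω Ω' : Type} (e : Ω → Ω') (u v : Fin 4 → Ω) :
    rename e (bil u v) = bil (e ∘ u) (e ∘ v) := by
  unfold bil
  simp only [map_mul, map_add, map_sub, rename_X, Function.comp_apply]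

theorem rename_cub {Ω Ω' : Type} (e : Ω → Ω') (u : Fin 4 → Ω) :
    rename e (cub u) = cub (e ∘ u) := by
  unfold cub
  simp only [map_mul, map_add, map_sub, rename_X, Function.comp_apply]

/-- signs -/
def sg (x : ZMod 2) : ℤ := if x = 0 then 1 else -1

theorem sg_add : ∀ x y : ZMod 2, sg (x + y) = sg x * sg y := by decide

theorem sg_mul_self : ∀ x : ZMod 2, sg x * sg x = 1 := by decide

/-- the linear form of type `t` of a block -/
noncomputable def dl {Ω : Type} (x : Fin 4 → Ω) (t : Fin 3) : MvPolynomial Ω ℤ :=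
  ∑ a, C (sg (lab a t)) * X (x a)

theorem rename_dl {Ω Ω' : Type} (e : Ω → Ω') (x : Fin 4 → Ω) (t : Fin 3) :
    rename e (dl x t) = dl (e ∘ x) t := by
  unfold dl
  simp only [map_sum, map_mul, rename_X, rename_C, Function.comp_apply]

/-- a permutation of the block changes the sign of the forms -/
theorem dl_flp {Ω : Type} (x : Fin 4 → Ω) (τ t : Fin 3) :
    dl (x ∘ flp τ) t = C (sg (fl τ t)) * dl x t := by
  unfold dl
  rw [Finset.mul_sum, ← Equiv.sum_comp (flp τ) (fun a => C (sg (fl τ t)) * (C (sg (lab a t)) * X (x a)))]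
  refine Finset.sum_congr rfl (fun a _ => ?_)
  rw [lab_flp, sg_add, ← mul_assoc, ← C_mul]
  congr 2
  have : ∀ u v : ZMod 2, sg u = sg v * (sg u * sg v) := by decide
  exact this _ _

theorem dl_ne {Ω : Type} (x : Fin 4 → Ω) (hx : Function.Injective x) (t : Fin 3) : dl x t ≠ 0 := by
  classical
  intro h
  have h1 := congrArg (eval (fun ω => if ω = x 0 then (1 : ℤ) else 0)) h
  unfold dl at h1
  simp only [map_sum, map_mul, eval_C, eval_X, map_zero] at h1
  rw [Finset.sum_eq_single 0] at h1
  · rw [if_pos rfl, mul_one] at h1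
    have h2 : ∀ t : Fin 3, sg (lab 0 t) ≠ 0 := by decide
    exact h2 t h1
  · intro a _ ha
    rw [if_neg (fun h => ha (hx h)), mul_zero]
  · intro h; exact absurd (Finset.mem_univ _) h

theorem cub_eq {Ω : Type} (x : Fin 4 → Ω) : cub x = ∏ t, dl x t := by
  unfold cub dl
  rw [Fin.prod_univ_three]
  simp only [Fin.sum_univ_four]
  have e : ∀ (a : Fin 4) (t : Fin 3), (C (sg (lab a t)) : MvPolynomial Ω ℤ) =
      if lab a t = 0 then 1 else -1 := by
    intro a t
    unfold sg
    split_ifs
    · simp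
    · simp
  simp only [e]
  have h00 : lab 0 0 = 0 := rfl
  have h01 : lab 0 1 = 0 := rfl
  have h02 : lab 0 2 = 0 := rfl
  have h10 : lab 1 0 = 0 := rfl
  have h11 : ¬ lab 1 1 = 0 := by decide
  have h12 : ¬ lab 1 2 = 0 := by decide
  have h20 : ¬ lab 2 0 = 0 := by decide
  have h21 : lab 2 1 = 0 := rfl
  have h22 : ¬ lab 2 2 = 0 := by decide
  have h30 : ¬ lab 3 0 = 0 := by decide
  have h31 : ¬ lab 3 1 = 0 := by decide
  have h32 : lab 3 2 = 0 := rfl
  rw [if_pos h00, if_pos h01, if_pos h02, if_pos h10, if_neg h11, if_neg h12, if_neg h20,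
    if_pos h21, if_neg h22, if_neg h30, if_neg h31, if_pos h32]
  ring

/-- an order of the block in which the form of type `t` is `± (x + x - x - x)` -/
def ord : Fin 3 → ZMod 2 → Fin 4 → Fin 4 := fun t β =>
  if β = 0 then ![![0, 1, 2, 3], ![0, 2, 1, 3], ![0, 3, 1, 2]] t
  else ![![2, 3, 0, 1], ![1, 3, 0, 2], ![1, 2, 0, 3]] t

variable {N : ℕ} {Δ : Type} [Fintype Δ] [DecidableEq Δ]

/-- the unknowns of a block -/
def pt (i : Fin N) (s : Bool) (a : Fin 4) : Pos4 N Δ := .cw i s a

/-- the factor of an edge -/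
noncomputable def gE (ρ : Fin 3 → Equiv.Perm (Fin N)) (b : Fin N → Fin 3 → ZMod 2) (p : Fin N × Fin 3) :
    MvPolynomial (Pos4 N Δ) ℤ :=
  C (sg (b p.1 p.2)) * dl (pt p.1 false) p.2 * dl (pt (ρ p.2 p.1) true) p.2

/-- the factor of a vertex -/
noncomputable def gV (p : Fin N × Bool) : MvPolynomial (Pos4 N Δ) ℤ := cub (pt p.1 p.2)

/-- the instance -/
noncomputable def instM (ρ : Fin 3 → Equiv.Perm (Fin N)) (b : Fin N → Fin 3 → ZMod 2)
    (s : Bool) : Multiset (MvPolynomial (Pos4 N Δ) ℤ) :=
  if s = true then (univ : Finset (Fin N × Fin 3)).val.map (gE ρ b)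
  else (univ : Finset (Fin N × Bool)).val.map gV

end Pool.Agent.H870R2.PC
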