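import Pool.Agent.H870R2.LS.ZCnt

set_option autoImplicit false
set_option linter.unusedSectionVars false

/-! The instances are legal. -/

namespace Pool.Agent.H870R2.PC

open Finset BigOperators H522R2.LS MvPolynomial

variable {Ω : Type} [Fintype Ω] [DecidableEq Ω] {N : ℕ} {Δ : Type} [Fintype Δ] [DecidableEq Δ]

/-- the forms, written with an order of the block -/
theorem dl_ord (x : Fin 4 → Ω) (t : Fin 3) (β : ZMod 2) :
    X (x (ord t β 0)) + X (x (ord t β 1)) - X (x (ord t β 2)) - X (x (ord t β 3)) =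
      C (sg β) * dl x t := by
  unfold dl
  simp only [Fin.sum_univ_four]
  have e : ∀ (a : Fin 4) (t : Fin 3), (C (sg (lab a t)) : MvPolynomial Ω ℤ) =
      if lab a t = 0 then 1 else -1 := by
    intro a t
    unfold sg
    split_ifs <;> simp
  have e' : (C (sg β) : MvPolynomial Ω ℤ) = if β = 0 then 1 else -1 := by
    unfold sg
    split_ifs <;> simp
  simp only [e, e']
  have h00 : lab 0 0 = 0 := rfl
  have h01 : lab 0 1 = 0 := rfl
  have h02 : lab 0 2 = 0 := rfl
  have h10 : lab 1 0 = 0 := rfl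
  have h11 : ¬ lab 1 1 = 0 := by decide
  have h12 : ¬ lab 1 2 = 0 := by decide
  have h20 : ¬ lab 2 0 = 0 := by decide
  have h21 : lab 2 1 = 0 := rfl
  have h22 : ¬ lab 2 2 = 0 := by decide
  have h30 : ¬ lab 3 0 = 0 := by decide
  have h31 : ¬ lab 3 1 = 0 := by decide
  have h32 : lab 3 2 = 0 := rfl
  by_cases hβ : β = 0
  · fin_cases t
    · simp only [ord, hβ, if_true]
      show X (x 0) + X (x 1) - X (x 2) - X (x 3) = _
      rw [show ((⟨0, by decide⟩ : Fin 3)) = 0 from rfl, if_pos h00, if_pos h10, if_neg h20, if_neg h30]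
      ring
    · simp only [ord, hβ, if_true]
      show X (x 0) + X (x 2) - X (x 1) - X (x 3) = _
      rw [show ((⟨1, by decide⟩ : Fin 3)) = 1 from rfl, if_pos h01, if_neg h11, if_pos h21, if_neg h31]
      ring
    · simp only [ord, hβ, if_true]
      show X (x 0) + X (x 3) - X (x 1) - X (x 2) = _
      rw [show ((⟨2, by decide⟩ : Fin 3)) = 2 from rfl, if_pos h02, if_neg h12, if_neg h22, if_pos h32]
      ring
  · fin_cases t
    · simp only [ord, if_neg hβ]
      show X (x 2) + X (x 3) - X (x 0) - X (x 1) = _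
      rw [show ((⟨0, by decide⟩ : Fin 3)) = 0 from rfl, if_pos h00, if_pos h10, if_neg h20, if_neg h30]
      ring
    · simp only [ord, if_neg hβ]
      show X (x 1) + X (x 3) - X (x 0) - X (x 2) = _
      rw [show ((⟨1, by decide⟩ : Fin 3)) = 1 from rfl, if_pos h01, if_neg h11, if_pos h21, if_neg h31]
      ring
    · simp only [ord, if_neg hβ]
      show X (x 1) + X (x 2) - X (x 0) - X (x 3) = _
      rw [show ((⟨2, by decide⟩ : Fin 3)) = 2 from rfl, if_pos h02, if_neg h12, if_neg h22, if_pos h32]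
      ring

end Pool.Agent.H870R2.PC
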