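import Pool.Agent.H870R2.LS.ZEval
import Pool.Agent.H870R2.LS.ZOrd

set_option autoImplicit false
set_option linter.unusedSectionVars false

/-! The instances are legal. -/

namespace Pool.Agent.H870R2.PC

open Finset BigOperators H522R2.LS MvPolynomial

variable {Ω : Type} [Fintype Ω] [DecidableEq Ω] {N : ℕ} {Δ : Type} [Fintype Δ] [DecidableEq Δ]

/-- the instances consist of legal factors -/
theorem mem_Inst (e : Pos4 N Δ ≃ Ω) (ρ : Fin 3 → Equiv.Perm (Fin N))
    (b : Fin N → Fin 3 → ZMod 2) : instO e ρ b ∈ Inst Ω := by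
  classical
  have hcard : Fintype.card (Fin N × Bool × Fin 4) ≤ Fintype.card Ω := by
    refine Fintype.card_le_of_injective (fun p => e (.cw p.1 p.2.1 p.2.2)) ?_
    rintro ⟨i, s, a⟩ ⟨i', s', a'⟩ h
    have h1 := e.injective h
    simp only [Pos4.cw.injEq] at h1
    obtain ⟨rfl, rfl, rfl⟩ := h1
    rfl
  simp only [Fintype.card_prod, Fintype.card_fin, Fintype.card_bool] at hcard
  intro s
  unfold instO instM
  cases s
  · rw [if_neg (by decide)]
    refine ⟨fun f hf => ?_, ?_⟩
    · rw [Multiset.mem_map] at hf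
      obtain ⟨g, hg, rfl⟩ := hf
      rw [Multiset.mem_map] at hg
      obtain ⟨p, _, rfl⟩ := hg
      unfold gV
      rw [rename_cub]
      rw [mem_Fam]
      exact Or.inr ⟨_, rfl⟩
    · rw [Multiset.card_map, Multiset.card_map]
      show Fintype.card (Fin N × Bool) ≤ _
      simp only [Fintype.card_prod, Fintype.card_fin, Fintype.card_bool]
      omega
  · rw [if_pos rfl]
    refine ⟨fun f hf => ?_, ?_⟩
    · rw [Multiset.mem_map] at hf
      obtain ⟨g, hg, rfl⟩ := hf
      rw [Multiset.mem_map] at hg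
      obtain ⟨p, _, rfl⟩ := hg
      rw [mem_Fam]
      refine Or.inl
        ⟨e ∘ pt p.1 false ∘ ord p.2 (b p.1 p.2), e ∘ pt (ρ p.2 p.1) true ∘ ord p.2 0, ?_⟩
      unfold gE bil
      rw [map_mul, map_mul, rename_C, rename_dl, rename_dl]
      have h1 := dl_ord (e ∘ pt p.1 false) p.2 (b p.1 p.2)
      have h2 := dl_ord (e ∘ pt (ρ p.2 p.1) true) p.2 0
      have h3 : sg 0 = 1 := rfl
      rw [h3, C_1, one_mul] at h2
      rw [← h1, ← h2]
      simp only [Function.comp_apply]
    · rw [Multiset.card_map, Multiset.card_map]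
      show Fintype.card (Fin N × Fin 3) ≤ _
      simp only [Fintype.card_prod, Fintype.card_fin]
      omega

end Pool.Agent.H870R2.PC
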