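import Pool.Agent.H870R2.LS.ZMain
import Pool.Agent.H870R2.LS.ZMem
import Pool.Agent.H870R2.LS.PSym

set_option autoImplicit false
set_option linter.unusedSectionVars false

/-! Locally symmetric networks for identities between products of sparse polynomials. -/

namespace Pool.Agent.H870R2.PC

open Finset BigOperators H522R2.LS MvPolynomial

variable {K Ω : Type} [Fintype Ω] [DecidableEq Ω] {N : ℕ} {Δ : Type} [Fintype Δ] [DecidableEq Δ]

/-- renaming an instance -/
noncomputable def renI {Ω : Type} (g : Equiv.Perm Ω) (M : Bool → Multiset (MvPolynomial Ω ℤ)) :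
    Bool → Multiset (MvPolynomial Ω ℤ) := fun s => (M s).map (rename g)

omit [DecidableEq Ω] in
theorem renI_mem (g : Equiv.Perm Ω) (M : Bool → Multiset (MvPolynomial Ω ℤ)) (hM : M ∈ Inst Ω) :
    renI g M ∈ Inst Ω := by
  intro s
  obtain ⟨h1, h2⟩ := hM s
  refine ⟨fun f hf => ?_, ?_⟩
  · obtain ⟨f', hf', rfl⟩ := Multiset.mem_map.1 hf
    exact rename_Fam g f' (h1 f' hf')
  · show ((M s).map (rename g)).card ≤ _
    rw [Multiset.card_map]
    exact h2

omit [Fintype Ω] [DecidableEq Ω] in
theorem prod_renI (g : Equiv.Perm Ω) (M : Bool → Multiset (MvPolynomial Ω ℤ)) (s : Bool) :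
    (renI g M s).prod = rename g (M s).prod := (map_multiset_prod (rename g) (M s)).symm

omit [Fintype Ω] [DecidableEq Ω] in
theorem Identity_renI (g : Equiv.Perm Ω) (M : Bool → Multiset (MvPolynomial Ω ℤ)) :
    Identity (renI g M) = Identity M := by
  unfold Identity
  rw [prod_renI, prod_renI]
  exact propext ⟨fun h => rename_injective g g.injective h, fun h => by rw [h]⟩

omit [Fintype Ω] [DecidableEq Ω] in
theorem cnt_facMap (g : Equiv.Perm Ω) (M : Bool → Multiset (MvPolynomial Ω ℤ)) :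
    cnt M ∘ facMap g = cnt (renI g⁻¹ M) := by
  funext q
  have h1 : q.2 = rename (g⁻¹ : Equiv.Perm Ω) (rename g q.2) := by
    rw [rename_rename]
    have : ((g⁻¹ : Equiv.Perm Ω) : Ω → Ω) ∘ g = id := by funext x; simp
    rw [this, rename_id_apply]
  show cnt (fun _ => M q.1) (true, rename g q.2) =
    cnt (fun _ => (M q.1).map (rename (g⁻¹ : Equiv.Perm Ω))) (true, q.2)
  rw [h1, count_rename _ (Equiv.injective _), ← h1]

theorem core_pit {Γ : Type} [Fintype Γ] [Nonempty Γ] (π : Equiv.Perm (Fin N))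
    (hπ : ∀ U : Finset (Fin N), N ≤ 3 * U.card → 3 * U.card ≤ 2 * N →
      N / 60 < (Pool.Agent.Helper600R2.bd (finRotate N) U).card ∨
      N / 60 < (Pool.Agent.Helper600R2.bd π U).card)
    (k : ℕ) (hN : 2 ≤ N) (hk : 480 * k ≤ N) (e : Pos4 N Δ ≃ Ω) (C : Γ → PNet (Fac Ω) K)
    {acc : Γ → Set K}
    (a b : ℕ) (hab : 3 * (a + b) ≤ 2 * Fintype.card Γ)
    (hval1 : ∀ M ∈ Inst Ω, Identity M →
      Nat.card {γ // (C γ).val (cnt M) (C γ).out ∉ acc γ} ≤ a)
    (hval2 : ∀ M ∈ Inst Ω, ¬ Identity M → (M true).prod = -(M false).prod →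
      Nat.card {γ // (C γ).val (cnt M) (C γ).out ∈ acc γ} ≤ b)
    (hsym : ∀ (γ : Γ) (g : Ix4 N → A4), (C γ).SymmUnder (facMap (FF5 e g))) :
    ∃ γ, 2 ^ k ≤ Fintype.card (C γ).G := by
  classical
  by_contra hlt
  push Not at hlt
  have hS : ∀ γ, ∃ S : Finset (Fin N), 2 * N < 3 * S.card ∧ ∀ i ∈ S,
      (C γ).val (cnt (instO e (rho π) (tw i))) (C γ).out =
      (C γ).val (cnt (instO e (rho π) (fun _ _ => 0))) (C γ).out := by
    intro γ
    obtain ⟨S, h1, h2⟩ := core_eq5 π hπ k hN hk e (C γ) (hsym γ) (hlt γ)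
    refine ⟨S, h1, fun i hi => ?_⟩
    rw [cnt_instO, cnt_instO]
    exact h2 i hi
  choose S hS1 hS2 using hS
  let er0 : Γ → Prop := fun γ =>
    (C γ).val (cnt (instO e (rho π) (fun _ _ => 0))) (C γ).out ∉ acc γ
  let er1 : Γ → Fin N → Prop := fun γ i =>
    (C γ).val (cnt (instO e (rho π) (tw i))) (C γ).out ∈ acc γ
  have h4 := identity0 e (rho π)
  have e0 : ∑ γ, (if er0 γ then 1 else 0) ≤ a := by
    have h5 := hval1 _ (mem_Inst e (rho π) (fun _ _ => 0)) h4
    rw [Nat.card_eq_fintype_card, Fintype.card_subtype, Finset.card_filter] at h5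
    exact h5
  have ei : ∀ i, ∑ γ, (if er1 γ i then 1 else 0) ≤ b := by
    intro i
    have h5 := hval2 _ (mem_Inst e (rho π) (tw i)) (not_identity e (rho π) i).2
      (not_identity e (rho π) i).1
    rw [Nat.card_eq_fintype_card, Fintype.card_subtype, Finset.card_filter] at h5
    exact h5
  have hone : ∀ γ i, (if i ∈ S γ then 1 else 0) ≤
      (if er1 γ i then 1 else 0) + (if er0 γ then 1 else 0) := by
    intro γ i
    by_cases hi : i ∈ S γ
    · rw [if_pos hi]
      by_cases h1 : er1 γ i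
      · rw [if_pos h1]; omega
      · have h2 : er0 γ := by
          intro h3
          apply h1
          show (C γ).val (cnt (instO e (rho π) (tw i))) (C γ).out ∈ acc γ
          rw [hS2 γ i hi]
          exact h3
        rw [if_pos h2]; omega
    · rw [if_neg hi]; exact Nat.zero_le _
  have hsum : ∑ γ, (S γ).card ≤ ∑ i : Fin N, (∑ γ, (if er1 γ i then 1 else 0) +
      ∑ γ, (if er0 γ then 1 else 0)) := by
    calc ∑ γ, (S γ).card = ∑ γ, ∑ i : Fin N, (if i ∈ S γ then 1 else 0) := by
          refine Finset.sum_congr rfl (fun γ _ => ?_)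
          rw [← Finset.card_filter]
          congr 1
          ext i
          simp
      _ = ∑ i : Fin N, ∑ γ, (if i ∈ S γ then 1 else 0) := Finset.sum_comm
      _ ≤ _ := by
          refine Finset.sum_le_sum (fun i _ => ?_)
          rw [← Finset.sum_add_distrib]
          exact Finset.sum_le_sum (fun γ _ => hone γ i)
  have hup : ∑ i : Fin N, (∑ γ, (if er1 γ i then 1 else 0) +
      ∑ γ, (if er0 γ then 1 else 0)) ≤ N * (a + b) := by
    calc _ ≤ ∑ _i : Fin N, (a + b) := by
          refine Finset.sum_le_sum (fun i _ => ?_)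
          have := ei i
          omega
      _ = N * (a + b) := by
          rw [Finset.sum_const, Finset.card_univ, Fintype.card_fin, smul_eq_mul]
  have hlow : N * (2 * Fintype.card Γ) < 3 * ∑ γ, (S γ).card := by
    rw [Finset.mul_sum]
    calc N * (2 * Fintype.card Γ) = ∑ _γ : Γ, 2 * N := by
          rw [Finset.sum_const, Finset.card_univ, smul_eq_mul]; ring
      _ < _ := Finset.sum_lt_sum_of_nonempty Finset.univ_nonempty (fun γ _ => hS1 γ)
  have hfin : N * (3 * (a + b)) ≤ N * (2 * Fintype.card Γ) := Nat.mul_le_mul_left _ hab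
  have h7 : N * (3 * (a + b)) = 3 * (N * (a + b)) := by ring
  omega

open Classical in
/-- the symmetrised network -/
noncomputable def symZ {r : ℕ} (β : Fin r × Fin 4 ↪ Ω) (C : PNet (Fac Ω) K) : PNet (Fac Ω) K where
  G := ((Fin r → Equiv.Perm (Fin 4)) × C.G) ⊕ Unit
  inp x := match x with
    | Sum.inl (g, h) => (C.inp h).map (facMap (bp β g))
    | Sum.inr _ => none
  F x := match x with
    | Sum.inl (_, h) => C.F h
    | Sum.inr _ => fun o m => if h : ∃ k, k ∈ m then h.choose else C.F C.out o m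
  wires x y := match x, y with
    | Sum.inl (g, h), Sum.inl (g', h') => if g = g' then C.wires h h' else 0
    | Sum.inr _, Sum.inl (_, h) => if h = C.out then 1 else 0
    | _, _ => 0
  rk x := match x with
    | Sum.inl (_, h) => C.rk h
    | Sum.inr _ => C.rk C.out + 1
  rk_lt x y h := by
    rcases x with ⟨g, x⟩ | t <;> rcases y with ⟨g', y⟩ | t'
    · simp only at h ⊢
      by_cases hg : g = g'
      · rw [if_pos hg] at h
        exact C.rk_lt x y h
      · rw [if_neg hg] at h
        exact absurd rfl h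
    · exact absurd rfl h
    · simp only at h ⊢
      by_cases hy : y = C.out
      · subst hy
        exact Nat.lt_succ_self _
      · exact absurd (if_neg hy) h
    · exact absurd rfl h
  out := Sum.inr ()

theorem symZ_val {r : ℕ} (β : Fin r × Fin 4 ↪ Ω) (C : PNet (Fac Ω) K) (A : Fac Ω → ℕ)
    (g : Fin r → Equiv.Perm (Fin 4)) : ∀ (n : ℕ) (h : C.G), C.rk h = n →
      (symZ β C).val A (Sum.inl (g, h)) = C.val (A ∘ facMap (bp β g)) h := by
  classical
  intro n
  induction n using Nat.strong_induction_on with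
  | _ n ih =>
    intro h hn
    rw [PNet.val_eq, PNet.val_eq C]
    show C.F h _ _ = C.F h _ _
    congr 1
    · show ((C.inp h).map (facMap (bp β g))).map A = _
      rcases C.inp h <;> rfl
    · show ∑ y : ((Fin r → Equiv.Perm (Fin 4)) × C.G) ⊕ Unit,
        (symZ β C).wires (Sum.inl (g, h)) y • ({(symZ β C).val A y} : Multiset K) = _
      rw [Fintype.sum_sum_type, Fintype.sum_prod_type]
      have h1 : ∑ y : Unit, (symZ β C).wires (Sum.inl (g, h)) (Sum.inr y) •
          ({(symZ β C).val A (Sum.inr y)} : Multiset K) = 0 := by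
        refine Finset.sum_eq_zero (fun y _ => ?_)
        show 0 • _ = _
        rw [zero_smul]
      rw [h1, add_zero, Finset.sum_eq_single g]
      · refine Finset.sum_congr rfl (fun x _ => ?_)
        have hw : (symZ β C).wires (Sum.inl (g, h)) (Sum.inl (g, x)) = C.wires h x := if_pos rfl
        rw [hw]
        by_cases hx : C.wires h x = 0
        · rw [hx, zero_smul, zero_smul]
        · rw [ih (C.rk x) (hn ▸ C.rk_lt h x hx) x rfl]
      · intro g' _ hg'
        refine Finset.sum_eq_zero (fun x _ => ?_)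
        have hw : (symZ β C).wires (Sum.inl (g, h)) (Sum.inl (g', x)) = 0 := if_neg (Ne.symm hg')
        rw [hw, zero_smul]
      · intro h'; exact absurd (Finset.mem_univ _) h'

theorem symZ_F_out {r : ℕ} (β : Fin r × Fin 4 ↪ Ω) (C : PNet (Fac Ω) K) (o : Option ℕ) (k : K) (n : ℕ)
    (hn : 0 < n) : (symZ β C).F (symZ β C).out o (n • ({k} : Multiset K)) = k := by
  classical
  have hex : ∃ k', k' ∈ n • ({k} : Multiset K) :=
    ⟨k, Multiset.mem_nsmul.2 ⟨by omega, Multiset.mem_singleton_self k⟩⟩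
  show (if h : ∃ k', k' ∈ n • ({k} : Multiset K) then h.choose else _) = k
  rw [dif_pos hex]
  exact Multiset.mem_singleton.1 (Multiset.mem_of_mem_nsmul hex.choose_spec)

theorem symZ_out {r : ℕ} (β : Fin r × Fin 4 ↪ Ω) (C : PNet (Fac Ω) K) (A : Fac Ω → ℕ) (k : K)
    (h : ∀ g, C.val (A ∘ facMap (bp β g)) C.out = k) :
    (symZ β C).val A (symZ β C).out = k := by
  classical
  rw [PNet.val_eq]
  have h1 : ∑ y, (symZ β C).wires (symZ β C).out y • ({(symZ β C).val A y} : Multiset K) =
      (24 ^ r) • ({k} : Multiset K) := by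
    show ∑ y : ((Fin r → Equiv.Perm (Fin 4)) × C.G) ⊕ Unit,
        (symZ β C).wires (Sum.inr ()) y • ({(symZ β C).val A y} : Multiset K) = _
    rw [Fintype.sum_sum_type, Fintype.sum_prod_type]
    have h1 : ∑ y : Unit, (symZ β C).wires (Sum.inr ()) (Sum.inr y) •
        ({(symZ β C).val A (Sum.inr y)} : Multiset K) = 0 := by
      refine Finset.sum_eq_zero (fun y _ => ?_)
      show 0 • _ = _
      rw [zero_smul]
    have h2 : ∀ g : Fin r → Equiv.Perm (Fin 4), ∑ x : C.G,
        (symZ β C).wires (Sum.inr ()) (Sum.inl (g, x)) •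
        ({(symZ β C).val A (Sum.inl (g, x))} : Multiset K) = {k} := by
      intro g
      rw [Finset.sum_eq_single C.out]
      · have hw : (symZ β C).wires (Sum.inr ()) (Sum.inl (g, C.out)) = 1 := if_pos rfl
        rw [hw, one_smul, symZ_val β C A g _ C.out rfl, h g]
      · intro x _ hx
        have hw : (symZ β C).wires (Sum.inr ()) (Sum.inl (g, x)) = 0 := if_neg hx
        rw [hw, zero_smul]
      · intro h'; exact absurd (Finset.mem_univ _) h'
    rw [h1, add_zero, Finset.sum_congr rfl (fun g _ => h2 g), Finset.sum_const, Finset.card_univ,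
      card_blocks]
  rw [h1]
  exact symZ_F_out β C _ k _ (by positivity)

theorem symZ_symm {r : ℕ} (β : Fin r × Fin 4 ↪ Ω) (C : PNet (Fac Ω) K)
    (g0 : Fin r → Equiv.Perm (Fin 4)) : (symZ β C).SymmUnder (facMap (bp β g0)) := by
  classical
  refine ⟨Equiv.sumCongr (Equiv.prodCongr (Equiv.mulLeft g0) (Equiv.refl _)) (Equiv.refl _),
    rfl, ?_, ?_, ?_⟩
  · rintro (⟨g, h⟩ | t) (⟨g', h'⟩ | t')
    · show (if g0 * g = g0 * g' then C.wires h h' else 0) = if g = g' then C.wires h h' else 0
      simp only [mul_right_inj]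
    · rfl
    · rfl
    · rfl
  · rintro (⟨g, h⟩ | t)
    · show (C.inp h).map (facMap (bp β (g0 * g))) =
        ((C.inp h).map (facMap (bp β g))).map (facMap (bp β g0))
      rw [bp_mul, facMap_mul1]
      rcases C.inp h <;> rfl
    · rfl
  · rintro (⟨g, h⟩ | t)
    · rfl
    · rfl

theorem symZ_card {r : ℕ} (β : Fin r × Fin 4 ↪ Ω) (C : PNet (Fac Ω) K) :
    Fintype.card (symZ β C).G = 24 ^ r * Fintype.card C.G + 1 := by
  show Fintype.card (((Fin r → Equiv.Perm (Fin 4)) × C.G) ⊕ Unit) = _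
  rw [Fintype.card_sum, Fintype.card_prod, card_blocks, Fintype.card_unit]

theorem exists_symm_pit {r : ℕ} (β : Fin r × Fin 4 ↪ Ω) (C : PNet (Fac Ω) K) (enc : Prop → K)
    (hC : ∀ M ∈ Inst Ω, C.val (cnt M) C.out = enc (Identity M)) :
    ∃ C' : PNet (Fac Ω) K, (∀ M ∈ Inst Ω, C'.val (cnt M) C'.out = enc (Identity M)) ∧
      (∀ g : Equiv.Perm Ω, Preserves β g → C'.SymmUnder (facMap g)) ∧
      Fintype.card C'.G = 24 ^ r * Fintype.card C.G + 1 ∧
      (∀ g', g' ≠ C'.out → ∃ g, C'.F g' = C.F g) ∧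
      ∀ (o : Option ℕ) (k : K) (n : ℕ), 0 < n → C'.F C'.out o (n • ({k} : Multiset K)) = k := by
  refine ⟨symZ β C, ?_, ?_, symZ_card β C, ?_, symZ_F_out β C⟩
  · intro M hM
    refine symZ_out β C _ _ (fun g => ?_)
    rw [cnt_facMap, hC _ (renI_mem _ M hM), Identity_renI]
  · intro g hg
    obtain ⟨g0, rfl⟩ := exists_bp β g hg
    exact symZ_symm β C g0
  · rintro (⟨g, h⟩ | t) hne
    · exact ⟨h, rfl⟩
    · exact absurd rfl hne

/-- the identification of the positions with the indices -/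
theorem exists_equiv5 {r N : ℕ} (β : Fin r × Fin 4 ↪ Ω) (J : Ix4 N ↪ Fin r) :
    ∃ e : Pos4 N {x : Ω // ∀ v a, β (J v, a) ≠ x} ≃ Ω,
      (∀ i s a, e (.cw i s a) = β (J (i, s), a)) ∧ ∀ δ, e (.dum δ) = δ.1 := by
  classical
  let f : Pos4 N {x : Ω // ∀ v a, β (J v, a) ≠ x} → Ω := fun x => match x with
    | .cw i s a => β (J (i, s), a)
    | .dum δ => δ.1
  have hinj : Function.Injective f := by
    intro x y h
    rcases x with ⟨i, s, a⟩ | δ <;> rcases y with ⟨i', s', a'⟩ | δ'
    · have h1 := β.injective h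
      rw [Prod.mk.injEq] at h1
      have h2 := J.injective h1.1
      simp only [Prod.mk.injEq] at h2
      obtain ⟨rfl, rfl⟩ := h2
      rw [h1.2]
    · exact absurd h (δ'.2 _ _)
    · exact absurd h.symm (δ.2 _ _)
    · have : δ = δ' := Subtype.ext h
      rw [this]
  have hsurj : Function.Surjective f := by
    intro x
    by_cases h : ∀ v a, β (J v, a) ≠ x
    · exact ⟨.dum ⟨x, h⟩, rfl⟩
    · push Not at h
      obtain ⟨⟨i, s⟩, a, h⟩ := h
      exact ⟨.cw i s a, h⟩
  exact ⟨Equiv.ofBijective f ⟨hinj, hsurj⟩, fun _ _ _ => rfl, fun _ => rfl⟩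

/-- the group of the block permutations under which the circuit is symmetric -/
def symG5 {N : ℕ} {Δ : Type} [Fintype Δ] [DecidableEq Δ] (e : Pos4 N Δ ≃ Ω) (C : PNet (Fac Ω) K) :
    Subgroup (Ix4 N → A4) where
  carrier := {g | C.SymmUnder (facMap (FF5 e g))}
  one_mem' := by
    show C.SymmUnder _
    exact ⟨1, by rw [FF5_one, facMap_one1]; exact PNet.IsAut.one C⟩
  mul_mem' := by
    intro g g' h h'
    have h1 : C.SymmUnder (facMap (FF5 e g)) := h
    have h2 : C.SymmUnder (facMap (FF5 e g')) := h'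
    obtain ⟨p, hp⟩ := h1
    obtain ⟨q, hq⟩ := h2
    show C.SymmUnder _
    exact ⟨p * q, by rw [FF5_mul, facMap_mul1]; exact hp.mul hq⟩
  inv_mem' := by
    intro g h
    have h1 : C.SymmUnder (facMap (FF5 e g)) := h
    obtain ⟨p, hp⟩ := h1
    show C.SymmUnder _
    refine ⟨p⁻¹, hp.inv ?_⟩
    intro x
    have h1 : facMap (FF5 e g⁻¹) (facMap (FF5 e g) x) = facMap (FF5 e g⁻¹ * FF5 e g) x := (facMap_mul _ _ _).symm
    rw [h1, ← FF5_mul, inv_mul_cancel, FF5_one, facMap_one]

theorem lower_pit {Γ : Type} [Fintype Γ] [Nonempty Γ] {r : ℕ} (β : Fin r × Fin 4 ↪ Ω)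
    (C : Γ → PNet (Fac Ω) K) {acc : Γ → Set K}
    (a b : ℕ) (hab : 3 * (a + b) ≤ 2 * Fintype.card Γ)
    (hval1 : ∀ M ∈ Inst Ω, Identity M →
      Nat.card {γ // (C γ).val (cnt M) (C γ).out ∉ acc γ} ≤ a)
    (hval2 : ∀ M ∈ Inst Ω, ¬ Identity M → (M true).prod = -(M false).prod →
      Nat.card {γ // (C γ).val (cnt M) (C γ).out ∈ acc γ} ≤ b)
    (hsym : ∀ (γ : Γ) (v : Fin r) (x y z : Fin 4), x ≠ y → y ≠ z → x ≠ z →
      (C γ).SymmUnder (facMap (cyc (β (v, x)) (β (v, y)) (β (v, z))))) :
    ∃ γ, 2 ^ (r / 960) ≤ Fintype.card (C γ).G := by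
  classical
  by_cases hN : r / 2 < 480
  · have : r / 960 = 0 := by omega
    obtain ⟨γ⟩ := ‹Nonempty Γ›
    refine ⟨γ, ?_⟩
    rw [this, pow_zero]
    exact Fintype.card_pos_iff.mpr ⟨(C γ).out⟩
  · push Not at hN
    obtain ⟨N, hNdef⟩ : ∃ N, N = r / 2 := ⟨_, rfl⟩
    rw [← hNdef] at hN
    obtain ⟨π, hπ⟩ := Pool.Agent.Helper600R2.exists_expander (n := N) (by omega)
    have hcard : Fintype.card (Ix4 N) ≤ Fintype.card (Fin r) := by
      simp only [Fintype.card_prod, Fintype.card_fin, Fintype.card_bool]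
      omega
    obtain ⟨J⟩ := Function.Embedding.nonempty_of_card_le hcard
    obtain ⟨e, he1, he3⟩ := exists_equiv5 β J
    have hall : ∀ (γ : Γ) (g : Ix4 N → A4), g ∈ symG5 e (C γ) := by
      intro γ g
      apply Subgroup.pi_mem_of_mulSingle_mem
      intro v
      obtain ⟨a, ha⟩ := g v
      induction ha using Subgroup.closure_induction with
      | mem a ha' =>
        obtain ⟨x, y, z, h1, h2, h3, rfl⟩ := ha'
        show (C γ).SymmUnder (facMap (FF5 e (Pi.mulSingle v ⟨cyc x y z, _⟩)))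
        have key : FF5 e (Pi.mulSingle v ⟨cyc x y z, Subgroup.subset_closure ⟨x, y, z, h1, h2, h3, rfl⟩⟩)
            = cyc (β (J (v), x)) (β (J (v), y)) (β (J (v), z)) := by
          ext w
          obtain ⟨p, rfl⟩ := e.surjective w
          unfold FF5
          rw [Equiv.permCongr_apply, Equiv.symm_apply_apply]
          rcases p with ⟨i, s, b⟩ | δ
          · by_cases hv : (i, s) = v
            · subst hv
              have hf : Function.Injective (fun a : Fin 4 => β (J ((i, s)), a)) := by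
                intro a a' haa
                have := β.injective haa
                exact (Prod.mk.inj this).2
              have h4 := cyc_inj (fun a : Fin 4 => β (J ((i, s)), a)) hf x y z b
              show e (.cw i s (((Pi.mulSingle (i, s) ⟨cyc x y z, _⟩ : Ix4 N → A4)
                (i, s) : Equiv.Perm (Fin 4)) b)) = _
              rw [Pi.mulSingle_eq_same, he1, he1]
              exact h4.symm
            · have hne : ∀ a : Fin 4, e (.cw i s b) ≠ β (J (v), a) := by
                intro a haa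
                rw [he1] at haa
                have h5 := (Prod.mk.inj (β.injective haa)).1
                exact hv (J.injective h5)
              show e (.cw i s (((Pi.mulSingle v ⟨cyc x y z, _⟩ : Ix4 N → A4)
                (i, s) : Equiv.Perm (Fin 4)) b)) = _
              rw [Pi.mulSingle_eq_of_ne hv, cyc_ne _ _ _ _ (hne x) (hne y) (hne z)]
              rfl
          · have hne : ∀ a : Fin 4, e (.dum δ) ≠ β (J (v), a) := by
              intro a haa
              rw [he3] at haa
              exact δ.2 _ _ haa.symm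
            rw [cyc_ne _ _ _ _ (hne x) (hne y) (hne z)]
            rfl
        have h6 := hsym γ (J (v)) x y z h1 h2 h3
        rw [← key] at h6
        exact h6
      | one =>
        have : (Pi.mulSingle v (⟨1, Subgroup.one_mem _⟩ : A4) : Ix4 N → A4) = 1 := Pi.mulSingle_one v
        rw [this]
        exact Subgroup.one_mem _
      | mul a b ha hb iha ihb =>
        have e0 : (⟨a * b, Subgroup.mul_mem _ ha hb⟩ : A4) = (⟨a, ha⟩ : A4) * (⟨b, hb⟩ : A4) := rfl
        rw [e0, Pi.mulSingle_mul]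
        exact Subgroup.mul_mem _ iha ihb
      | inv a ha iha =>
        have e0 : (⟨a⁻¹, Subgroup.inv_mem _ ha⟩ : A4) = (⟨a, ha⟩ : A4)⁻¹ := rfl
        rw [e0, Pi.mulSingle_inv]
        exact Subgroup.inv_mem _ iha
    have hmain := core_pit π hπ (r / 960) (by omega) (by omega) e C a b hab hval1 hval2 (fun γ g => hall γ g)
    exact hmain

end Pool.Agent.H870R2.PC
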