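import Pool.Agent.H870R2.LS.ZEval

set_option autoImplicit false
set_option linter.unusedSectionVars false

/-! Locally symmetric networks cannot tell the twisted instances from the untwisted one. -/

namespace Pool.Agent.H870R2.PC

open Finset BigOperators H522R2.LS MvPolynomial

variable {K Ω : Type} [Fintype Ω] [DecidableEq Ω] {N : ℕ} {Δ : Type} [Fintype Δ] [DecidableEq Δ]

omit [Fintype Ω] [DecidableEq Ω] in
theorem facMap_one1 : facMap (1 : Equiv.Perm Ω) = id := funext facMap_one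

omit [Fintype Ω] [DecidableEq Ω] in
theorem facMap_mul1 (g h : Equiv.Perm Ω) : facMap (g * h) = facMap g ∘ facMap h :=
  funext (facMap_mul g h)

/-- the permutation of `Ω` given by even permutations of the blocks -/
def FF5 (e : Pos4 N Δ ≃ Ω) (g : Ix4 N → A4) : Equiv.Perm Ω :=
  e.permCongr (act4 (fun v => (g v : Equiv.Perm (Fin 4))))

theorem FF5_one (e : Pos4 N Δ ≃ Ω) : FF5 e 1 = 1 := by
  have h : act4 (Δ := Δ) (fun v : Ix4 N => ((1 : Ix4 N → A4) v : Equiv.Perm (Fin 4))) = 1 :=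
    act4_one
  unfold FF5
  rw [h]
  ext x
  simp [Equiv.permCongr_apply]

theorem FF5_mul (e : Pos4 N Δ ≃ Ω) (g h : Ix4 N → A4) : FF5 e (g * h) = FF5 e g * FF5 e h := by
  have h1 : act4 (Δ := Δ) (fun v : Ix4 N => ((g * h) v : Equiv.Perm (Fin 4)))
      = act4 (fun v => (g v : Equiv.Perm (Fin 4))) * act4 (fun v => (h v : Equiv.Perm (Fin 4))) :=
    act4_mul _ _
  unfold FF5
  rw [h1]
  ext x
  simp [Equiv.permCongr_apply]

theorem facTr_FF5 (e : Pos4 N Δ ≃ Ω) (g : Ix4 N → A4) (q : Fac Ω) :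
    facTr e (facMap (FF5 e g) q) =
      facMap (act4 (fun v => (g v : Equiv.Perm (Fin 4)))) (facTr e q) := by
  unfold facTr facMap
  refine Prod.ext rfl ?_
  show rename e.symm (rename (FF5 e g) q.2) = rename _ (rename e.symm q.2)
  rw [rename_rename, rename_rename]
  congr 2
  funext x
  show e.symm (FF5 e g x) = act4 (fun v => (g v : Equiv.Perm (Fin 4))) (e.symm x)
  unfold FF5
  rw [Equiv.permCongr_apply, Equiv.symm_apply_apply]

/-- the permutations fixing a gate -/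
def SS5 (e : Pos4 N Δ ≃ Ω) (C : PNet (Fac Ω) K) (h : C.G) : Subgroup (Ix4 N → A4) where
  carrier := {g | ∃ p, C.IsAut p (facMap (FF5 e g)) ∧ p h = h}
  one_mem' := ⟨1, by rw [FF5_one, facMap_one1]; exact PNet.IsAut.one C, rfl⟩
  mul_mem' := by
    rintro g g' ⟨p, hp, hp'⟩ ⟨q, hq, hq'⟩
    refine ⟨p * q, ?_, ?_⟩
    · rw [FF5_mul, facMap_mul1]; exact hp.mul hq
    · rw [Equiv.Perm.mul_apply, hq', hp']
  inv_mem' := by
    rintro g ⟨p, hp, hp'⟩
    refine ⟨p⁻¹, hp.inv ?_, ?_⟩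
    · intro x
      have h1 : facMap (FF5 e g⁻¹) (facMap (FF5 e g) x) = facMap (FF5 e g⁻¹ * FF5 e g) x := (facMap_mul _ _ _).symm
      rw [h1, ← FF5_mul, inv_mul_cancel, FF5_one, facMap_one]
    · rw [Equiv.Perm.inv_eq_iff_eq, hp']

theorem mem_SS5 (e : Pos4 N Δ ≃ Ω) (C : PNet (Fac Ω) K) (h : C.G) (g : Ix4 N → A4) :
    g ∈ SS5 e C h ↔ ∃ p, C.IsAut p (facMap (FF5 e g)) ∧ p h = h := Iff.rfl

open Classical in
/-- the bad blocks of a gate -/
noncomputable def II5 (e : Pos4 N Δ ≃ Ω) (C : PNet (Fac Ω) K) (h : C.G) : Finset (Ix4 N) :=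
  univ.filter (fun v => ¬ ∀ a b : A4, Pi.mulSingle v (a * b * a⁻¹ * b⁻¹) ∈ SS5 e C h)

theorem notMem_II5 (e : Pos4 N Δ ≃ Ω) (C : PNet (Fac Ω) K) (h : C.G) (v : Ix4 N) :
    v ∉ II5 e C h ↔ ∀ a b : A4, Pi.mulSingle v (a * b * a⁻¹ * b⁻¹) ∈ SS5 e C h := by
  unfold II5
  simp

theorem isAut_inv5 (e : Pos4 N Δ ≃ Ω) (C : PNet (Fac Ω) K) (g : Ix4 N → A4) (p : Equiv.Perm C.G)
    (hp : C.IsAut p (facMap (FF5 e g))) : C.IsAut p⁻¹ (facMap (FF5 e g⁻¹)) := by
  refine hp.inv ?_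
  intro x
  have h1 : facMap (FF5 e g⁻¹) (facMap (FF5 e g) x) = facMap (FF5 e g⁻¹ * FF5 e g) x := (facMap_mul _ _ _).symm
  rw [h1, ← FF5_mul, inv_mul_cancel, FF5_one, facMap_one]

theorem II_sub5 (e : Pos4 N Δ ≃ Ω) (C : PNet (Fac Ω) K) (h : C.G) (g : Ix4 N → A4) (p : Equiv.Perm C.G)
    (hp : C.IsAut p (facMap (FF5 e g))) : II5 e C (p h) ⊆ II5 e C h := by
  intro v hv
  by_contra hcon
  apply (notMem_II5 e C (p h) v).mpr _ hv
  rw [notMem_II5] at hcon
  intro a b
  have h1 := hcon ((g v)⁻¹ * a * g v) ((g v)⁻¹ * b * g v)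
  obtain ⟨q, hq, hqh⟩ := h1
  have h2 : Pi.mulSingle v (a * b * a⁻¹ * b⁻¹) = g * Pi.mulSingle v
      (((g v)⁻¹ * a * g v) * ((g v)⁻¹ * b * g v) * ((g v)⁻¹ * a * g v)⁻¹ * ((g v)⁻¹ * b * g v)⁻¹) * g⁻¹ := by
    funext w
    simp only [Pi.mul_apply, Pi.inv_apply]
    by_cases hw : w = v
    · subst hw
      rw [Pi.mulSingle_eq_same, Pi.mulSingle_eq_same]
      group
    · rw [Pi.mulSingle_eq_of_ne hw, Pi.mulSingle_eq_of_ne hw]
      group
  rw [h2]
  refine ⟨p * q * p⁻¹, ?_, ?_⟩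
  · rw [FF5_mul, FF5_mul, facMap_mul1, facMap_mul1]
    exact (hp.mul hq).mul (isAut_inv5 e C g p hp)
  · rw [Equiv.Perm.mul_apply, Equiv.Perm.mul_apply]
    have : p⁻¹ (p h) = h := by simp
    rw [this, hqh]

theorem II_inv5 (e : Pos4 N Δ ≃ Ω) (C : PNet (Fac Ω) K) (h : C.G) (g : Ix4 N → A4) (p : Equiv.Perm C.G)
    (hp : C.IsAut p (facMap (FF5 e g))) : II5 e C (p h) = II5 e C h := by
  apply Finset.Subset.antisymm (II_sub5 e C h g p hp)
  have h1 := II_sub5 e C (p h) g⁻¹ p⁻¹ (isAut_inv5 e C g p hp)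
  have : p⁻¹ (p h) = h := by simp
  rwa [this] at h1

/-- bad vertices -/
noncomputable def DD5 (e : Pos4 N Δ ≃ Ω) (C : PNet (Fac Ω) K) (h : C.G) : Finset (Fin N) :=
  (II5 e C h).image Prod.fst

theorem notMem_DD5 (e : Pos4 N Δ ≃ Ω) (C : PNet (Fac Ω) K) (h : C.G) (i : Fin N) (hi : i ∉ DD5 e C h)
    (s : Bool) (a b : A4) : Pi.mulSingle (i, s) (a * b * a⁻¹ * b⁻¹) ∈ SS5 e C h := by
  have : (i, s) ∉ II5 e C h := by
    intro hm
    exact hi (Finset.mem_image.mpr ⟨_, hm, rfl⟩)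
  exact (notMem_II5 e C h _).mp this a b

theorem card_DD5 (e : Pos4 N Δ ≃ Ω) (C : PNet (Fac Ω) K) (hsym : ∀ g : Ix4 N → A4, C.SymmUnder (facMap (FF5 e g)))
    (k : ℕ) (hk : Fintype.card C.G < 2 ^ k) (h : C.G) : (DD5 e C h).card ≤ 2 * k := by
  classical
  have hsym' : ∀ g : Ix4 N → A4, ∃ p, C.IsAut p (facMap (FF5 e g)) :=
    fun g => hsym g
  choose q hq using hsym'
  obtain ⟨I, hI, hI2⟩ := support (SS5 e C h) (fun g => q g h) (by
    intro g g' hgg
    refine ⟨(q g)⁻¹ * q g', ?_, ?_⟩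
    · rw [FF5_mul, facMap_mul1]
      exact (isAut_inv5 e C g (q g) (hq g)).mul (hq g')
    · rw [Equiv.Perm.mul_apply, Equiv.Perm.inv_eq_iff_eq]
      exact hgg.symm) k hk
  refine le_trans Finset.card_image_le (le_trans (Finset.card_le_card ?_) hI)
  intro v hv
  by_contra hcon
  exact (notMem_II5 e C h v).mpr (hI2 v hcon) hv

/-- the gauge element of a move from `i` to `j` of type `t` is available -/
theorem move_one5 (e : Pos4 N Δ ≃ Ω) (C : PNet (Fac Ω) K) (h : C.G)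
    (ρ : Fin 3 → Equiv.Perm (Fin N)) (h0 : ρ 0 = 1) (i j : Fin N) (t : Fin 3) (hij : ρ t i = j)
    (hi : i ∉ DD5 e C h) (hj : j ∉ DD5 e C h) :
    ∃ g ∈ SS5 e C h, ∀ q : Fac Ω, w5 ρ (tw i) (facTr e (facMap (FF5 e g) q))
      = w5 ρ (tw j) (facTr e q) := by
  classical
  obtain ⟨a, b, hab⟩ := flp_comm t
  obtain ⟨a0, b0, hab0⟩ := flp_comm 0
  have hflp0 : flp 0 = 1 := rfl
  let τ : Fin N → Bool → Fin 3 := fun k s => if s = false then (if k = i then t else 0)
    else (if k = j then t else 0)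
  let g : Ix4 N → A4 := fun v => if (v.2 = false ∧ v.1 = i) ∨ (v.2 = true ∧ v.1 = j)
    then a * b * a⁻¹ * b⁻¹ else 1
  have hg : ∀ v, (g v : Equiv.Perm (Fin 4)) = flp (τ v.1 v.2) := by
    rintro ⟨k, s⟩
    simp only [g, τ]
    cases s
    · by_cases hk : k = i
      · simp only [hk, and_self, true_or, if_true]
        exact hab
      · simp [hk, hflp0]
    · by_cases hk : k = j
      · simp only [hk, and_self, or_true, if_true]
        simpa using hab
      · simp [hk, hflp0]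
  refine ⟨g, ?_, ?_⟩
  · apply Subgroup.pi_mem_of_mulSingle_mem
    rintro ⟨k, s⟩
    by_cases hc : (s = false ∧ k = i) ∨ (s = true ∧ k = j)
    · have : g (k, s) = a * b * a⁻¹ * b⁻¹ := if_pos hc
      rw [this]
      rcases hc with ⟨_, rfl⟩ | ⟨_, rfl⟩
      · exact notMem_DD5 e C h k hi s a b
      · exact notMem_DD5 e C h k hj s a b
    · have : g (k, s) = 1 := if_neg hc
      rw [this, Pi.mulSingle_one]
      exact Subgroup.one_mem _
  · intro v
    have hgg : (fun v => (g v : Equiv.Perm (Fin 4))) = (fun v : Ix4 N => flp (τ v.1 v.2)) := funext hg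
    rw [facTr_FF5, hgg]
    apply w5_gauge
    intro k t'
    have h2 : τ k false = if k = i then t else 0 := by simp [τ]
    have h3 : τ (ρ t' k) true = if ρ t' k = j then t else 0 := by simp [τ]
    rw [h2, h3]
    exact tw_move ρ h0 i j t hij k t'

theorem move_all5 (e : Pos4 N Δ ≃ Ω) (C : PNet (Fac Ω) K) (h : C.G)
    (π : Equiv.Perm (Fin N)) (i j : Fin N) (hij : Relation.EqvGen (adj π (DD5 e C h)) i j) :
    ∃ g ∈ SS5 e C h, ∀ v : Fac Ω,
      w5 (rho π) (tw i) (facTr e (facMap (FF5 e g) v)) = w5 (rho π) (tw j) (facTr e v) := by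
  induction hij with
  | rel i j hij =>
    obtain ⟨h1, h2, t, h3⟩ := hij
    exact move_one5 e C h (rho π) rfl i j t h3 h1 h2
  | refl i =>
    refine ⟨1, Subgroup.one_mem _, fun v => ?_⟩
    rw [FF5_one, facMap_one]
  | symm i j _ ih =>
    obtain ⟨g, hg, h1⟩ := ih
    refine ⟨g⁻¹, Subgroup.inv_mem _ hg, fun v => ?_⟩
    rw [← h1]
    have h2 : facMap (FF5 e g) (facMap (FF5 e g⁻¹) v) = v := by
      have : facMap (FF5 e g) (facMap (FF5 e g⁻¹) v) = facMap (FF5 e g * FF5 e g⁻¹) v := (facMap_mul _ _ _).symm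
      rw [this, ← FF5_mul, mul_inv_cancel, FF5_one, facMap_one]
    rw [h2]
  | trans i j k _ _ ih1 ih2 =>
    obtain ⟨g, hg, h1⟩ := ih1
    obtain ⟨g', hg', h2⟩ := ih2
    refine ⟨g * g', Subgroup.mul_mem _ hg hg', fun v => ?_⟩
    rw [FF5_mul, ← h2, ← h1, facMap_mul]


/-- the core contains more than two thirds of the vertices -/
theorem core_card (π : Equiv.Perm (Fin N)) (D : Finset (Fin N)) (h : (core π D).Nonempty) :
    2 * N < 3 * (core π D).card := by
  obtain ⟨i, hi⟩ := h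
  have h1 : cls π D i ⊆ core π D := by
    intro j hj
    rw [mem_cls] at hj
    rw [mem_core] at hi ⊢
    have h2 : cls π D i ⊆ cls π D j := by
      intro k hk
      rw [mem_cls] at hk ⊢
      exact Relation.EqvGen.trans _ _ _ (Relation.EqvGen.symm _ _ hj) hk
    have := Finset.card_le_card h2
    omega
  rw [mem_core] at hi
  have := Finset.card_le_card h1
  omega

/-- **Core.** -/
theorem core_eq5 (π : Equiv.Perm (Fin N))
    (hπ : ∀ U : Finset (Fin N), N ≤ 3 * U.card → 3 * U.card ≤ 2 * N →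
      N / 60 < (Pool.Agent.Helper600R2.bd (finRotate N) U).card ∨
      N / 60 < (Pool.Agent.Helper600R2.bd π U).card)
    (k : ℕ) (hN : 2 ≤ N) (hk : 480 * k ≤ N) (e : Pos4 N Δ ≃ Ω) (C : PNet (Fac Ω) K)
    (hsym : ∀ g : Ix4 N → A4, C.SymmUnder (facMap (FF5 e g))) (hlt : Fintype.card C.G < 2 ^ k) :
    ∃ S : Finset (Fin N), 2 * N < 3 * S.card ∧ ∀ i ∈ S,
      C.val (fun q => w5 (rho π) (tw i) (facTr e q)) C.out =
      C.val (fun q => w5 (rho π) (fun _ _ => 0) (facTr e q)) C.out := by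
  classical
  have hcard := card_DD5 e C hsym k hlt
  let M : Fin N → Fac Ω → ℕ := fun i q => w5 (rho π) (tw i) (facTr e q)
  let M0 : Fac Ω → ℕ := fun q => w5 (rho π) (fun _ _ => 0) (facTr e q)
  have hne : ∀ g h, (core π (DD5 e C g ∪ DD5 e C h)).Nonempty := by
    intro g h
    apply core_nonempty (by omega) π hπ
    have h1 := Finset.card_union_le (DD5 e C g) (DD5 e C h)
    have h2 := hcard g
    have h3 := hcard h
    omega
  have hgame := pgame C M M0 (DD5 e C) (core π) hne (fun g h => core_mono π _ _)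
    (by
      intro g i hi i' hi'
      obtain ⟨g0, ⟨p, hp, hpg⟩, h1⟩ := move_all5 e C g π i i' (core_conn π _ i i' hi hi')
      refine ⟨p, _, hp, hpg, ?_, ?_⟩
      · intro h
        unfold DD5
        rw [II_inv5 e C h g0 p hp]
      · funext v
        exact h1 v)
    (by
      intro g x hx i hi
      have hiD := core_notMem hN π _ i hi
      by_contra hne
      -- the factor belongs to the edge `(i, 0)`
      have h1 : ∃ b : Fin N → Fin 3 → ZMod 2, (facTr e x).2 = gE (rho π) b (i, 0) := by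
        by_contra hcon
        push Not at hcon
        exact hne (w5_diff (rho π) i (facTr e x) hcon)
      obtain ⟨b, h1⟩ := h1
      obtain ⟨c', d, hcd⟩ := flp_comm 1
      obtain ⟨p, hp, hpg⟩ := notMem_DD5 e C g i hiD false c' d
      have h2 := hp.inp g
      rw [hpg, hx] at h2
      simp only [Option.map_some, Option.some.injEq] at h2
      have h3 := congrArg (fun q => (facTr e q).2) h2
      simp only [facTr_FF5] at h3
      have h4 : (facTr e x).2 = rename (act4 (fun v => ((Pi.mulSingle (i, false)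
          (c' * d * c'⁻¹ * d⁻¹) : Ix4 N → A4) v : Equiv.Perm (Fin 4)))) (facTr e x).2 := h3
      rw [h1, gE_neg (rho π) b i _ (by
          rw [Pi.mulSingle_eq_same, hcd]) (by
          intro j
          rw [Pi.mulSingle_eq_of_ne (fun h => by simpa using congrArg Prod.snd h)]
          rfl)] at h4
      have h5 : (2 : MvPolynomial (Pos4 N Δ) ℤ) * gE (rho π) b (i, 0) = 0 := by
        rw [two_mul]
        nth_rewrite 1 [h4]
        rw [neg_add_cancel]
      rcases mul_eq_zero.1 h5 with h6 | h6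
      · exact two_ne_zero h6
      · exact gE_ne (rho π) b (i, 0) h6)
  have hne' := hne C.out C.out
  rw [Finset.union_self] at hne'
  exact ⟨core π (DD5 e C C.out), core_card π _ hne',
    fun i hi => hgame (C.rk C.out) C.out rfl i hi⟩

end Pool.Agent.H870R2.PC
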