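import Pool.Agent.H870R2.LS.ZDefs

set_option autoImplicit false
set_option linter.unusedSectionVars false

/-! Task file (statements only; nothing imports it). -/

namespace Pool.Agent.H870R2.PC

open Finset BigOperators MvPolynomial

/-- The inputs of a randomised network: the instance, and a number for each variable. -/
noncomputable def coinIn {Ω : Type} (M : Bool → Multiset (MvPolynomial Ω ℤ)) (a : Ω → ℕ) :
    Fac Ω ⊕ Ω → ℕ := Sum.elim (cnt M) a

/-- A permutation of the variables moves the numbers, too. -/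
noncomputable def coinMap {Ω : Type} (g : Equiv.Perm Ω) : Fac Ω ⊕ Ω → Fac Ω ⊕ Ω :=
  Sum.map (facMap g) g

/-- comparison of two numbers -/
def ver (p q : ℤ) : ℤ := if p = q then (if p = 0 then 2 else 1) else if p = -q then -1 else 0

-- TASK NETZ
theorem exists_sz_net (Ω : Type) [Fintype Ω] [DecidableEq Ω] :
    ∃ C : PNet (Fac Ω ⊕ Ω) ℤ, Fintype.card C.G ≤ 8 * (Fintype.card Ω + 1) ^ 8 ∧
      (∀ g : Equiv.Perm Ω, C.SymmUnder (coinMap g)) ∧
      ∀ M ∈ Inst Ω, ∀ a : Ω → ℕ, C.val (coinIn M a) C.out =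
        ver (eval (fun x => (a x : ℤ)) (M true).prod) (eval (fun x => (a x : ℤ)) (M false).prod) := by
  sorry

-- TASK SZL
theorem sz_count {Ω : Type} [Fintype Ω] (p : MvPolynomial Ω ℤ) (hp : p ≠ 0) (d L : ℕ)
    (hd : p.totalDegree ≤ d) (hL : 0 < L) :
    Nat.card {a : Ω → Fin L // eval (fun x => ((a x : ℕ) : ℤ)) p = 0} * L ≤
      d * L ^ Fintype.card Ω := by
  sorry

theorem degree_inst {Ω : Type} [Fintype Ω] (M : Bool → Multiset (MvPolynomial Ω ℤ))
    (hM : M ∈ Inst Ω) (s : Bool) : (M s).prod.totalDegree ≤ 3 * Fintype.card Ω := by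
  sorry

end Pool.Agent.H870R2.PC
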